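import Mathlib

set_option autoImplicit false

namespace Pool.Agent.Helper472

open Finset

/-- central binomial bound -/
theorem centralBinom_sq_le (k : ℕ) : (2 * k + 1) * (Nat.centralBinom k) ^ 2 ≤ 16 ^ k := by
  induction k with
  | zero => simp
  | succ k ih =>
    have h := Nat.succ_mul_centralBinom_succ k
    have h1 : (k + 1) ^ 2 * ((2 * (k + 1) + 1) * (Nat.centralBinom (k + 1)) ^ 2)
        ≤ (k + 1) ^ 2 * 16 ^ (k + 1) := by
      have h2 : (2 * k + 3) * (2 * k + 1) ≤ 4 * (k + 1) ^ 2 := by nlinarith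
      calc (k + 1) ^ 2 * ((2 * (k + 1) + 1) * (Nat.centralBinom (k + 1)) ^ 2)
          = (2 * k + 3) * ((k + 1) * Nat.centralBinom (k + 1)) ^ 2 := by ring
        _ = (2 * k + 3) * (2 * (2 * k + 1) * Nat.centralBinom k) ^ 2 := by rw [h]
        _ = 4 * ((2 * k + 3) * (2 * k + 1)) * ((2 * k + 1) * (Nat.centralBinom k) ^ 2) := by ring
        _ ≤ 4 * (4 * (k + 1) ^ 2) * 16 ^ k :=
            Nat.mul_le_mul (Nat.mul_le_mul_left 4 h2) ih
        _ = (k + 1) ^ 2 * 16 ^ (k + 1) := by ring
    exact Nat.le_of_mul_le_mul_left h1 (by positivity)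

/-- binomial probabilities with integer argument -/
noncomputable def B (K : ℕ) (x : ℤ) : ℝ :=
  if 0 ≤ x then (K.choose x.toNat : ℝ) / 2 ^ K else 0

theorem B_nonneg (K : ℕ) (x : ℤ) : 0 ≤ B K x := by
  unfold B; split_ifs <;> positivity

theorem B_natCast (K x : ℕ) : B K (x : ℤ) = (K.choose x : ℝ) / 2 ^ K := by
  simp [B]

theorem B_neg {K : ℕ} {x : ℤ} (h : x < 0) : B K x = 0 := by
  simp [B, not_le.mpr h]

theorem B_gt {K : ℕ} {x : ℤ} (h : (K : ℤ) < x) : B K x = 0 := by
  unfold B
  have hx : 0 ≤ x := by omega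
  have : K < x.toNat := by omega
  rw [if_pos hx, Nat.choose_eq_zero_of_lt this]; simp

/-- sup bound for even index -/
theorem B_le_even (k : ℕ) (x : ℤ) : B (2 * k) x ≤ 1 / Real.sqrt (2 * k + 1) := by
  have hpos : (0 : ℝ) < 2 * k + 1 := by positivity
  unfold B
  split_ifs with hx
  · have h1 : ((2 * k).choose x.toNat : ℝ) ≤ Nat.centralBinom k := by
      exact_mod_cast Nat.choose_le_centralBinom _ _
    have h2 : (2 * (k : ℝ) + 1) * (Nat.centralBinom k : ℝ) ^ 2 ≤ 16 ^ k := by
      exact_mod_cast centralBinom_sq_le k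
    have h3 : Real.sqrt (2 * k + 1) * (Nat.centralBinom k : ℝ) ≤ 4 ^ k := by
      apply abs_le_of_sq_le_sq' _ (by positivity) |>.2
      rw [mul_pow, Real.sq_sqrt hpos.le]
      calc (2 * (k : ℝ) + 1) * (Nat.centralBinom k : ℝ) ^ 2 ≤ 16 ^ k := h2
        _ = (4 ^ k) ^ 2 := by rw [← pow_mul, mul_comm k 2, pow_mul]; norm_num
    rw [div_le_div_iff₀ (by positivity) (Real.sqrt_pos.mpr hpos)]
    calc ((2 * k).choose x.toNat : ℝ) * Real.sqrt (2 * k + 1)
        ≤ (Nat.centralBinom k : ℝ) * Real.sqrt (2 * k + 1) := by gcongr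
      _ = Real.sqrt (2 * k + 1) * (Nat.centralBinom k : ℝ) := by ring
      _ ≤ 4 ^ k := h3
      _ = 1 * 2 ^ (2 * k) := by rw [pow_mul]; norm_num
  · positivity

theorem choose_mul_le_left (N y : ℕ) (hy : 2 * y ≤ N) :
    (N - 2 * y) * N.choose y ≤ 2 * 2 ^ N := by
  -- all C(N,y') with y ≤ y' ≤ N/2 are at least C(N,y)
  have hmono : ∀ d : ℕ, y + d ≤ N / 2 → N.choose y ≤ N.choose (y + d) := by
    intro d
    induction d with
    | zero => intro _; simp
    | succ d ih =>
      intro h
      have h1 : y + d < N / 2 := by omega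
      exact (ih (by omega)).trans (by
        have := Nat.choose_le_succ_of_lt_half_left h1
        simpa [add_assoc] using this)
  have hsum : (N / 2 - y + 1) * N.choose y ≤ 2 ^ N := by
    calc (N / 2 - y + 1) * N.choose y
        = ∑ _d ∈ range (N / 2 - y + 1), N.choose y := by simp
      _ ≤ ∑ d ∈ range (N / 2 - y + 1), N.choose (y + d) := by
          apply sum_le_sum
          intro d hd
          apply hmono
          have := mem_range.mp hd
          omega
      _ = ∑ d ∈ (range (N / 2 - y + 1)).map (addLeftEmbedding y), N.choose d := by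
          rw [sum_map]; rfl
      _ ≤ ∑ d ∈ range (N + 1), N.choose d := by
          apply sum_le_sum_of_subset
          intro d hd
          simp only [mem_map, mem_range, addLeftEmbedding_apply] at hd ⊢
          obtain ⟨a, ha, rfl⟩ := hd
          omega
      _ = 2 ^ N := Nat.sum_range_choose N
  calc (N - 2 * y) * N.choose y ≤ (2 * (N / 2 - y + 1)) * N.choose y := by
        apply Nat.mul_le_mul_right; omega
    _ = 2 * ((N / 2 - y + 1) * N.choose y) := by ring
    _ ≤ 2 * 2 ^ N := by gcongr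

theorem abs_mul_choose_le (N y : ℕ) (hy : y ≤ N) :
    |(N : ℝ) - 2 * y| * N.choose y ≤ 2 * 2 ^ N := by
  rcases le_total (2 * y) N with h | h
  · have h1 := choose_mul_le_left N y h
    have h2 : |(N : ℝ) - 2 * y| = ((N - 2 * y : ℕ) : ℝ) := by
      rw [Nat.cast_sub h]; push_cast
      apply abs_of_nonneg
      have : ((2 * y : ℕ) : ℝ) ≤ N := by exact_mod_cast h
      push_cast at this; linarith
    rw [h2]; exact_mod_cast h1
  · have h1 := choose_mul_le_left N (N - y) (by omega)
    rw [Nat.choose_symm hy] at h1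
    have h2 : |(N : ℝ) - 2 * y| = ((N - 2 * (N - y) : ℕ) : ℝ) := by
      rw [Nat.cast_sub (by omega)]; push_cast
      rw [Nat.cast_sub hy]
      have : (N : ℝ) ≤ ((2 * y : ℕ) : ℝ) := by exact_mod_cast h
      push_cast at this
      rw [abs_of_nonpos (by linarith)]; ring
    rw [h2]; exact_mod_cast h1

theorem choose_diff (K x : ℕ) :
    ((K : ℝ) + 1) * ((K.choose (x + 1) : ℝ) - K.choose x)
      = ((K : ℝ) + 1 - 2 * ((x : ℝ) + 1)) * (K + 1).choose (x + 1) := by
  have h1 : (K + 1) * K.choose x = (K + 1).choose (x + 1) * (x + 1) :=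
    Nat.add_one_mul_choose_eq K x
  have h2 : (K + 1).choose (x + 1) = K.choose x + K.choose (x + 1) := Nat.choose_succ_succ K x
  have h1' : ((K : ℝ) + 1) * K.choose x = ((K + 1).choose (x + 1) : ℝ) * (x + 1) := by
    exact_mod_cast h1
  have h2' : ((K + 1).choose (x + 1) : ℝ) = K.choose x + K.choose (x + 1) := by
    exact_mod_cast h2
  have h3 : ((K : ℝ) + 1) * (K.choose (x + 1) : ℝ)
      = ((K : ℝ) + 1) * (K + 1).choose (x + 1) - ((K + 1).choose (x + 1) : ℝ) * (x + 1) := by
    rw [← h1', h2']; ring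
  linear_combination h3 - h1'

/-- discrete Lipschitz bound -/
theorem B_lip (K : ℕ) (x : ℤ) : |B K (x + 1) - B K x| ≤ 4 / (K + 1) := by
  have hK : (0 : ℝ) < (K : ℝ) + 1 := by positivity
  have h2K : (0 : ℝ) < 2 ^ K := by positivity
  rcases lt_trichotomy x (-1) with h | h | h
  · rw [B_neg (by omega), B_neg (by omega)]; simp; positivity
  · subst h
    have : B K (-1) = 0 := B_neg (by norm_num)
    rw [this]
    have h0 : B K (-1 + 1) = 1 / 2 ^ K := by
      have := B_natCast K 0
      simpa using this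
    rw [h0, sub_zero, abs_of_pos (by positivity), div_le_div_iff₀ h2K hK]
    have h3 : (K : ℝ) + 1 ≤ 2 ^ K := by
      exact_mod_cast Nat.lt_two_pow_self
    nlinarith
  · obtain ⟨n, rfl⟩ : ∃ n : ℕ, x = n := ⟨x.toNat, by omega⟩
    have e1 : B K ((n : ℤ) + 1) = (K.choose (n + 1) : ℝ) / 2 ^ K := by
      have := B_natCast K (n + 1)
      push_cast at this; exact this
    rw [e1, B_natCast, ← sub_div, abs_div, abs_of_pos h2K, div_le_div_iff₀ h2K hK]
    by_cases hn : n + 1 ≤ K + 1
    · have h4 := abs_mul_choose_le (K + 1) (n + 1) hn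
      have h5 := choose_diff K n
      have h6 : |(K.choose (n + 1) : ℝ) - K.choose n| * ((K : ℝ) + 1)
          = |((K + 1 : ℕ) : ℝ) - 2 * ((n + 1 : ℕ) : ℝ)| * ((K + 1).choose (n + 1) : ℝ) := by
        have h7 : |((K : ℝ) + 1) * ((K.choose (n + 1) : ℝ) - K.choose n)|
            = |((K : ℝ) + 1 - 2 * ((n : ℝ) + 1)) * ((K + 1).choose (n + 1) : ℝ)| := by rw [h5]
        rw [abs_mul, abs_mul, abs_of_pos hK,
          abs_of_nonneg (by positivity : (0 : ℝ) ≤ ((K + 1).choose (n + 1) : ℝ))] at h7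
        push_cast
        linarith
      rw [h6]
      calc _ ≤ 2 * (2 : ℝ) ^ (K + 1) := h4
        _ = 4 * 2 ^ K := by rw [pow_succ]; ring
    · rw [Nat.choose_eq_zero_of_lt (by omega : K < n + 1), Nat.choose_eq_zero_of_lt (by omega : K < n)]
      simp

theorem B_lip_nat (K : ℕ) (x : ℤ) (d : ℕ) : |B K (x + d) - B K x| ≤ d * (4 / (K + 1)) := by
  induction d with
  | zero => simp
  | succ d ih =>
    have h := B_lip K (x + d)
    have e : x + ((d + 1 : ℕ) : ℤ) = x + d + 1 := by push_cast; ring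
    rw [e]
    calc |B K (x + d + 1) - B K x| = |(B K (x + d + 1) - B K (x + d)) + (B K (x + d) - B K x)| := by
          congr 1; ring
      _ ≤ |B K (x + d + 1) - B K (x + d)| + |B K (x + d) - B K x| := abs_add_le _ _
      _ ≤ 4 / (K + 1) + d * (4 / (K + 1)) := by gcongr
      _ = _ := by push_cast; ring

theorem B_lip_int (K : ℕ) (x y : ℤ) : |B K y - B K x| ≤ |(y : ℝ) - x| * (4 / (K + 1)) := by
  rcases le_total x y with h | h
  · obtain ⟨d, hd⟩ := Int.le.dest h
    rw [← hd]
    have := B_lip_nat K x d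
    simpa using this
  · obtain ⟨d, hd⟩ := Int.le.dest h
    rw [← hd, abs_sub_comm, abs_sub_comm (y : ℝ)]
    have := B_lip_nat K y d
    simpa using this


theorem B_conv (K L : ℕ) (x : ℤ) :
    B (K + L) x = ∑ y ∈ range (L + 1), B L y * B K (x - y) := by
  rcases lt_or_ge x 0 with h | h
  · rw [B_neg h]
    symm
    apply sum_eq_zero
    intro y _
    rw [B_neg (show x - (y : ℤ) < 0 by omega), mul_zero]
  · obtain ⟨n, rfl⟩ : ∃ n : ℕ, x = n := ⟨x.toNat, by omega⟩
    have h1 : ∑ y ∈ range (L + 1), B L y * B K ((n : ℤ) - y)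
        = ∑ y ∈ range (n + 1), B L y * B K ((n : ℤ) - y) := by
      rcases le_total L n with hl | hl
      · apply sum_subset
        · intro y hy; simp only [mem_range] at *; omega
        · intro y _ hy
          simp only [mem_range, not_lt] at hy
          rw [B_gt (show (L : ℤ) < (y : ℤ) by omega), zero_mul]
      · symm
        apply sum_subset
        · intro y hy; simp only [mem_range] at *; omega
        · intro y _ hy
          simp only [mem_range, not_lt] at hy
          rw [B_neg (show (n : ℤ) - (y : ℤ) < 0 by omega), mul_zero]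
    rw [h1, B_natCast, add_comm K L, Nat.add_choose_eq,
      Finset.Nat.sum_antidiagonal_eq_sum_range_succ_mk]
    push_cast
    rw [sum_div]
    apply sum_congr rfl
    intro y hy
    have hy' : y ≤ n := by have := mem_range.mp hy; omega
    have e : (n : ℤ) - y = ((n - y : ℕ) : ℤ) := by omega
    rw [e, B_natCast, B_natCast, pow_add]
    field_simp

theorem binom_variance (m : ℕ) (p : ℝ) :
    ∑ j ∈ range (m + 1), ((m : ℝ) * p - j) ^ 2 * ((m.choose j : ℝ) * p ^ j * (1 - p) ^ (m - j))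
      = m * p * (1 - p) := by
  have h := congrArg (Polynomial.eval p) (bernsteinPolynomial.variance ℝ m)
  simp only [Polynomial.eval_finsetSum, Polynomial.eval_mul, Polynomial.eval_pow,
    Polynomial.eval_sub, Polynomial.eval_one, Polynomial.eval_X, nsmul_eq_mul,
    Polynomial.eval_natCast, bernsteinPolynomial] at h
  rw [← h]

theorem binom_sum (m : ℕ) (p : ℝ) :
    ∑ j ∈ range (m + 1), ((m.choose j : ℝ) * p ^ j * (1 - p) ^ (m - j)) = 1 := by
  have h := add_pow p (1 - p) m
  have e : p + (1 - p) = 1 := by ring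
  rw [e, one_pow] at h
  calc _ = ∑ m_1 ∈ range (m + 1), p ^ m_1 * (1 - p) ^ (m - m_1) * (m.choose m_1 : ℝ) := by
        apply sum_congr rfl
        intro j _
        exact (by intros; ring : ∀ a b c : ℝ, a * b * c = b * c * a) _ _ _
    _ = 1 := h.symm

theorem B_eq (L y : ℕ) : B L (y : ℤ) = (L.choose y : ℝ) * (1/2) ^ y * (1 - 1/2) ^ (L - y) ∨ L < y := by
  rcases lt_or_ge L y with h | h
  · right; exact h
  · left
    rw [B_natCast]
    have : (2 : ℝ) ^ L = 2 ^ y * 2 ^ (L - y) := by rw [← pow_add]; congr 1; omega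
    have h2 : (1 - 1/2 : ℝ) = 1/2 := by norm_num
    rw [this, h2, one_div, inv_pow, inv_pow]
    field_simp

theorem B_sum (L : ℕ) : ∑ y ∈ range (L + 1), B L y = 1 := by
  rw [← binom_sum L (1/2)]
  apply sum_congr rfl
  intro y hy
  rcases B_eq L y with h | h
  · exact h
  · have := mem_range.mp hy; omega

theorem B_var (L : ℕ) : ∑ y ∈ range (L + 1), ((L : ℝ) / 2 - y) ^ 2 * B L y = (L : ℝ) / 4 := by
  have := binom_variance L (1/2)
  rw [show (L : ℝ) * (1/2) * (1 - 1/2) = L / 4 by ring] at this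
  rw [← this]
  apply sum_congr rfl
  intro y hy
  rcases B_eq L y with h | h
  · rw [h]; congr 1; ring
  · have := mem_range.mp hy; omega

theorem B_absdev (L : ℕ) : ∑ y ∈ range (L + 1), |(L : ℝ) / 2 - y| * B L y ≤ Real.sqrt L / 2 := by
  have h1 : (∑ y ∈ range (L + 1), |(L : ℝ) / 2 - y| * B L y) ^ 2 ≤ (L : ℝ) / 4 := by
    have hcs := Finset.sum_mul_sq_le_sq_mul_sq (range (L + 1))
      (fun y : ℕ => |(L : ℝ) / 2 - y| * Real.sqrt (B L y)) (fun y : ℕ => Real.sqrt (B L y))
    have e1 : ∀ y ∈ range (L + 1), |(L : ℝ) / 2 - y| * Real.sqrt (B L y) * Real.sqrt (B L y)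
        = |(L : ℝ) / 2 - y| * B L y := by
      intro y _
      rw [mul_assoc, Real.mul_self_sqrt (B_nonneg _ _)]
    have e2 : ∀ y ∈ range (L + 1), (|(L : ℝ) / 2 - y| * Real.sqrt (B L y)) ^ 2
        = ((L : ℝ) / 2 - y) ^ 2 * B L y := by
      intro y _
      rw [mul_pow, sq_abs, Real.sq_sqrt (B_nonneg _ _)]
    have e3 : ∀ y ∈ range (L + 1), (Real.sqrt (B L y)) ^ 2 = B L y := by
      intro y _
      rw [Real.sq_sqrt (B_nonneg _ _)]
    rw [sum_congr rfl e1, sum_congr rfl e2, sum_congr rfl e3, B_var, B_sum, mul_one] at hcs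
    exact hcs
  apply abs_le_of_sq_le_sq' _ (by positivity) |>.2
  rw [div_pow, Real.sq_sqrt (by positivity)]
  linarith

end Pool.Agent.Helper472
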