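import Mathlib
import Pool.Agent.Helper472.Bin

set_option autoImplicit false

namespace Pool.Agent.Helper472

open Finset

/-- binomial(m, 1/17) weights -/
noncomputable def w (m j : ℕ) : ℝ := (m.choose j : ℝ) * (1 / 17) ^ j * (1 - 1 / 17) ^ (m - j)

theorem w_nonneg (m j : ℕ) : 0 ≤ w m j := by
  unfold w
  have : (0 : ℝ) ≤ 1 - 1 / 17 := by norm_num
  positivity

theorem w_sum (m : ℕ) : ∑ j ∈ range (m + 1), w m j = 1 := binom_sum m (1 / 17)

theorem w_var (m : ℕ) : ∑ j ∈ range (m + 1), ((j : ℝ) - m / 17) ^ 2 * w m j ≤ (m : ℝ) / 18 := by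
  have h := binom_variance m (1 / 17)
  calc ∑ j ∈ range (m + 1), ((j : ℝ) - m / 17) ^ 2 * w m j
      = ∑ j ∈ range (m + 1), ((m : ℝ) * (1 / 17) - j) ^ 2 *
          ((m.choose j : ℝ) * (1 / 17) ^ j * (1 - 1 / 17) ^ (m - j)) := by
        apply sum_congr rfl
        intro j _
        unfold w
        congr 1
        ring
    _ = (m : ℝ) * (1 / 17) * (1 - 1 / 17) := h
    _ ≤ (m : ℝ) / 18 := by
        have : (0 : ℝ) ≤ m := by positivity
        nlinarith

/-- Chebyshev -/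
theorem w_cheb (m : ℕ) (lam : ℝ) (hl : 0 < lam) :
    ∑ j ∈ (range (m + 1)).filter (fun j : ℕ => lam < |(j : ℝ) - m / 17|), w m j
      ≤ m / (18 * lam ^ 2) := by
  rw [le_div_iff₀ (by positivity)]
  have h1 : (∑ j ∈ (range (m + 1)).filter (fun j : ℕ => lam < |(j : ℝ) - m / 17|), w m j) * lam ^ 2
      ≤ ∑ j ∈ range (m + 1), ((j : ℝ) - m / 17) ^ 2 * w m j := by
    rw [sum_mul]
    calc ∑ j ∈ (range (m + 1)).filter (fun j : ℕ => lam < |(j : ℝ) - m / 17|), w m j * lam ^ 2
        ≤ ∑ j ∈ (range (m + 1)).filter (fun j : ℕ => lam < |(j : ℝ) - m / 17|),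
            ((j : ℝ) - m / 17) ^ 2 * w m j := by
          apply sum_le_sum
          intro j hj
          rw [mul_comm]
          apply mul_le_mul_of_nonneg_right _ (w_nonneg m j)
          have := (mem_filter.mp hj).2
          rw [← sq_abs ((j : ℝ) - m / 17)]
          exact pow_le_pow_left₀ hl.le this.le 2
      _ ≤ _ := by
          apply sum_le_sum_of_subset_of_nonneg (filter_subset _ _)
          intro j _ _
          exact mul_nonneg (sq_nonneg _) (w_nonneg m j)
  have h2 := w_var m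
  nlinarith

theorem w_ratio (m j : ℕ) (hj : j < m) :
    w m (j + 1) * (16 * ((j : ℝ) + 1)) = w m j * ((m : ℝ) - j) := by
  unfold w
  have h1 : (m.choose (j + 1)) * (j + 1) = m.choose j * (m - j) := Nat.choose_succ_right_eq m j
  have h1' : (m.choose (j + 1) : ℝ) * ((j : ℝ) + 1) = m.choose j * ((m : ℝ) - j) := by
    have : ((m - j : ℕ) : ℝ) = (m : ℝ) - j := by rw [Nat.cast_sub hj.le]
    rw [← this]; exact_mod_cast h1
  have h2 : m - j = (m - (j + 1)) + 1 := by omega
  rw [h2, pow_succ, pow_succ]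
  have h3 : (1 - 1 / 17 : ℝ) = 16 / 17 := by norm_num
  rw [h3]
  linear_combination ((1 / 17 : ℝ) ^ j * (1 / 17) * (16 / 17) ^ (m - (j + 1)) * 16) * h1'

theorem one_sub_ge_exp {y : ℝ} (h0 : 0 ≤ y) (h1 : y ≤ 1 / 2) : Real.exp (-(2 * y)) ≤ 1 - y := by
  rw [Real.exp_neg]
  have h2 : 1 + 2 * y ≤ Real.exp (2 * y) := by
    have := Real.add_one_le_exp (2 * y); linarith
  have h3 : (0 : ℝ) < 1 + 2 * y := by linarith
  calc (Real.exp (2 * y))⁻¹ ≤ (1 + 2 * y)⁻¹ := by
        exact inv_anti₀ h3 h2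
    _ ≤ 1 - y := by
        rw [inv_le_comm₀ h3 (by linarith)]
        rw [inv_le_iff_one_le_mul₀ (by linarith)]
        nlinarith

/-- local comparison of neighbouring weights -/
theorem w_step (D s : ℝ) (m j : ℕ) (hD : 1 ≤ D) (hs : s ^ 2 = m) (hs0 : 80 * D ≤ s)
    (hj : |(j : ℝ) - m / 17| ≤ D * s) :
    (1 - 40 * D / s) * w m j ≤ w m (j + 1) ∧ (1 - 40 * D / s) * w m (j + 1) ≤ w m j := by
  have hspos : 0 < s := by linarith
  have hs9 : 80 ≤ s := by linarith
  obtain ⟨ha, hb⟩ := abs_le.mp hj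
  set y : ℝ := 40 * D / s with hy
  have hys : y * s = 40 * D := by rw [hy]; field_simp
  have hy0 : 0 < y := by positivity
  have hyle : y ≤ 1 / 2 := by
    rw [hy, div_le_iff₀ hspos]; linarith
  have hDs : 80 * (D * s) ≤ m := by
    rw [← hs]; nlinarith
  have hjm' : (j : ℝ) < m := by
    have : (0 : ℝ) < m := by rw [← hs]; positivity
    nlinarith
  have hjm : j < m := by exact_mod_cast hjm'
  have hr := w_ratio m j hjm
  have hw := w_nonneg m j
  have hw1 := w_nonneg m (j + 1)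
  have hj1 : (0 : ℝ) < 16 * ((j : ℝ) + 1) := by positivity
  have hmj : (0 : ℝ) < (m : ℝ) - j := by linarith
  have hDs9 : 80 ≤ D * s := by nlinarith
  have hym : y * m = 40 * (D * s) := by
    rw [← hs]; calc y * s ^ 2 = (y * s) * s := by ring
      _ = _ := by rw [hys]; ring
  constructor
  · -- (1-y) w_j ≤ w_{j+1}
    have key : (1 - y) * (16 * ((j : ℝ) + 1)) ≤ (m : ℝ) - j := by
      have : y * ((j : ℝ) + 1) ≥ y * (m / 22) := by
        apply mul_le_mul_of_nonneg_left _ hy0.le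
        linarith
      nlinarith
    have : (1 - y) * w m j * (16 * ((j : ℝ) + 1)) ≤ w m (j + 1) * (16 * ((j : ℝ) + 1)) := by
      rw [hr]
      calc (1 - y) * w m j * (16 * ((j : ℝ) + 1)) = w m j * ((1 - y) * (16 * ((j : ℝ) + 1))) := by ring
        _ ≤ w m j * ((m : ℝ) - j) := by gcongr
    exact le_of_mul_le_mul_right this hj1
  · have key : (1 - y) * ((m : ℝ) - j) ≤ 16 * ((j : ℝ) + 1) := by
      have : y * ((m : ℝ) - j) ≥ y * (m / 2) := by
        apply mul_le_mul_of_nonneg_left _ hy0.le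
        linarith
      nlinarith
    have : (1 - y) * w m (j + 1) * ((m : ℝ) - j) ≤ w m j * ((m : ℝ) - j) := by
      rw [← hr]
      calc (1 - y) * w m (j + 1) * ((m : ℝ) - j) = w m (j + 1) * ((1 - y) * ((m : ℝ) - j)) := by ring
        _ ≤ w m (j + 1) * (16 * ((j : ℝ) + 1)) := by gcongr
    exact le_of_mul_le_mul_right this hmj

theorem w_steps (D s : ℝ) (m j : ℕ) (hD : 1 ≤ D) (hs : s ^ 2 = m) (hs0 : 80 * D ≤ s) (i : ℕ) :
    |(j : ℝ) - m / 17| ≤ D * s → |((j + i : ℕ) : ℝ) - m / 17| ≤ D * s →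
    (1 - 40 * D / s) ^ i * w m j ≤ w m (j + i) ∧ (1 - 40 * D / s) ^ i * w m (j + i) ≤ w m j := by
  have hspos : 0 < s := by linarith
  have hyle : 40 * D / s ≤ 1 / 2 := by
    rw [div_le_iff₀ hspos]; linarith
  have hy1 : 0 ≤ 1 - 40 * D / s := by linarith
  induction i with
  | zero => intro _ _; simp
  | succ i ih =>
    intro h1 h2
    have h3 : |((j + i : ℕ) : ℝ) - m / 17| ≤ D * s := by
      obtain ⟨a1, b1⟩ := abs_le.mp h1
      obtain ⟨a2, b2⟩ := abs_le.mp h2
      push_cast at *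
      have : (0 : ℝ) ≤ i := by positivity
      rw [abs_le]; constructor <;> linarith
    obtain ⟨i1, i2⟩ := ih h1 h3
    obtain ⟨s1, s2⟩ := w_step D s m (j + i) hD hs hs0 h3
    constructor
    · calc (1 - 40 * D / s) ^ (i + 1) * w m j = (1 - 40 * D / s) * ((1 - 40 * D / s) ^ i * w m j) := by ring
        _ ≤ (1 - 40 * D / s) * w m (j + i) := by gcongr
        _ ≤ w m (j + i + 1) := s1
    · calc (1 - 40 * D / s) ^ (i + 1) * w m (j + (i + 1))
          = (1 - 40 * D / s) ^ i * ((1 - 40 * D / s) * w m (j + i + 1)) := by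
            rw [← add_assoc]; ring
        _ ≤ (1 - 40 * D / s) ^ i * w m (j + i) := by gcongr
        _ ≤ w m j := i2

theorem w_compare (D s : ℝ) (m j j' : ℕ) (hD : 1 ≤ D) (hs : s ^ 2 = m) (hs0 : 80 * D ≤ s)
    (h1 : |(j : ℝ) - m / 17| ≤ D * s) (h2 : |(j' : ℝ) - m / 17| ≤ D * s) :
    Real.exp (-(160 * D ^ 2)) * w m j ≤ w m j' := by
  have hspos : 0 < s := by linarith
  have hy0 : 0 ≤ 40 * D / s := by positivity
  have hyle : 40 * D / s ≤ 1 / 2 := by
    rw [div_le_iff₀ hspos]; linarith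
  have key : ∀ i : ℕ, (i : ℝ) ≤ 2 * D * s →
      Real.exp (-(160 * D ^ 2)) ≤ (1 - 40 * D / s) ^ i := by
    intro i hi
    calc Real.exp (-(160 * D ^ 2)) ≤ Real.exp (i * (-(2 * (40 * D / s)))) := by
          apply Real.exp_le_exp.mpr
          have : (i : ℝ) * (2 * (40 * D / s)) ≤ 2 * D * s * (2 * (40 * D / s)) := by gcongr
          have e : 2 * D * s * (2 * (40 * D / s)) = 160 * D ^ 2 := by field_simp; ring
          linarith
      _ = (Real.exp (-(2 * (40 * D / s)))) ^ i := by rw [← Real.exp_nat_mul]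
      _ ≤ _ := by
          apply pow_le_pow_left₀ (Real.exp_pos _).le
          exact one_sub_ge_exp hy0 hyle
  obtain ⟨a1, b1⟩ := abs_le.mp h1
  obtain ⟨a2, b2⟩ := abs_le.mp h2
  rcases le_total j j' with h | h
  · obtain ⟨i, rfl⟩ := Nat.exists_eq_add_of_le h
    have := (w_steps D s m j hD hs hs0 i h1 h2).1
    have hi : (i : ℝ) ≤ 2 * D * s := by push_cast at *; linarith
    calc Real.exp (-(160 * D ^ 2)) * w m j ≤ (1 - 40 * D / s) ^ i * w m j := by
          apply mul_le_mul_of_nonneg_right (key i hi) (w_nonneg _ _)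
      _ ≤ _ := this
  · obtain ⟨i, rfl⟩ := Nat.exists_eq_add_of_le h
    have := (w_steps D s m j' hD hs hs0 i h2 h1).2
    have hi : (i : ℝ) ≤ 2 * D * s := by push_cast at *; linarith
    calc Real.exp (-(160 * D ^ 2)) * w m (j' + i) ≤ (1 - 40 * D / s) ^ i * w m (j' + i) := by
          apply mul_le_mul_of_nonneg_right (key i hi) (w_nonneg _ _)
      _ ≤ _ := this

end Pool.Agent.Helper472
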