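import Mathlib
import Pool.Agent.Helper472.BinW

set_option autoImplicit false

namespace Pool.Agent.Helper472

open Finset

theorem window_card (m : ℕ) (s : ℝ) (hs : 0 ≤ s) :
    ((((range (m + 1)).filter (fun j : ℕ => |(j : ℝ) - m / 17| ≤ s)).card : ℕ) : ℝ) ≤ 2 * s + 1 := by
  have hsub : (range (m + 1)).filter (fun j : ℕ => |(j : ℝ) - m / 17| ≤ s)
      ⊆ Icc ⌈(m : ℝ) / 17 - s⌉₊ ⌊(m : ℝ) / 17 + s⌋₊ := by
    intro j hj
    obtain ⟨_, h2⟩ := mem_filter.mp hj
    obtain ⟨a, b⟩ := abs_le.mp h2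
    rw [mem_Icc]
    constructor
    · apply Nat.ceil_le.mpr; linarith
    · apply Nat.le_floor; linarith
  have h1 := card_le_card hsub
  rw [Nat.card_Icc] at h1
  rcases Nat.eq_zero_or_pos (⌊(m : ℝ) / 17 + s⌋₊ + 1 - ⌈(m : ℝ) / 17 - s⌉₊) with h0 | h0
  · rw [h0] at h1
    have : ((range (m + 1)).filter (fun j : ℕ => |(j : ℝ) - m / 17| ≤ s)).card = 0 := by omega
    rw [this]; push_cast; linarith
  · have h2 : (((range (m + 1)).filter (fun j : ℕ => |(j : ℝ) - m / 17| ≤ s)).card : ℝ)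
        ≤ ((⌊(m : ℝ) / 17 + s⌋₊ + 1 - ⌈(m : ℝ) / 17 - s⌉₊ : ℕ) : ℝ) := by exact_mod_cast h1
    rw [Nat.cast_sub (by omega)] at h2
    push_cast at h2
    have h3 : (⌊(m : ℝ) / 17 + s⌋₊ : ℝ) ≤ m / 17 + s := Nat.floor_le (by positivity)
    have h4 : (m : ℝ) / 17 - s ≤ ⌈(m : ℝ) / 17 - s⌉₊ := Nat.le_ceil _
    linarith

theorem w_window (m : ℕ) (lam : ℝ) (hl : 0 < lam) :
    1 - m / (18 * lam ^ 2)
      ≤ ∑ j ∈ (range (m + 1)).filter (fun j : ℕ => |(j : ℝ) - m / 17| ≤ lam), w m j := by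
  have h1 := w_cheb m lam hl
  have h2 := w_sum m
  have h3 := sum_filter_add_sum_filter_not (range (m + 1)) (fun j : ℕ => |(j : ℝ) - m / 17| ≤ lam)
    (fun j => w m j)
  simp only [not_le] at h3
  linarith

theorem w_lower (C : ℝ) (hC : 1 ≤ C) (m : ℕ) (hm : 80 * C ≤ Real.sqrt m) (j : ℕ)
    (hj : |(j : ℝ) - m / 17| ≤ C * Real.sqrt m) :
    (Real.exp (-(160 * C ^ 2)) / 3) / Real.sqrt m ≤ w m j := by
  set s := Real.sqrt m with hs
  have hs80 : 80 ≤ s := by linarith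
  have hspos : 0 < s := by linarith
  have hsm : s ^ 2 = m := Real.sq_sqrt (by positivity)
  have hmpos : (0 : ℝ) < m := by rw [← hsm]; positivity
  have h1 := w_window m s hspos
  have h1' : (17 : ℝ) / 18 ≤ ∑ j ∈ (range (m + 1)).filter (fun j : ℕ => |(j : ℝ) - m / 17| ≤ s), w m j := by
    have : (m : ℝ) / (18 * s ^ 2) = 1 / 18 := by rw [hsm]; field_simp
    rw [this] at h1; linarith
  have h2 := window_card m s hspos.le
  obtain ⟨j1, hj1, hw1⟩ : ∃ j1 ∈ (range (m + 1)).filter (fun j : ℕ => |(j : ℝ) - m / 17| ≤ s),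
      1 / (3 * s) ≤ w m j1 := by
    by_contra hcon
    push Not at hcon
    have h3 : ∑ j ∈ (range (m + 1)).filter (fun j : ℕ => |(j : ℝ) - m / 17| ≤ s), w m j
        ≤ ∑ _j ∈ (range (m + 1)).filter (fun j : ℕ => |(j : ℝ) - m / 17| ≤ s), 1 / (3 * s) :=
      sum_le_sum (fun j hj => (hcon j hj).le)
    rw [sum_const, nsmul_eq_mul] at h3
    have h4 : (((range (m + 1)).filter (fun j : ℕ => |(j : ℝ) - m / 17| ≤ s)).card : ℝ) * (1 / (3 * s))
        ≤ (2 * s + 1) * (1 / (3 * s)) := by gcongr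
    have h5 : (2 * s + 1) * (1 / (3 * s)) < 17 / 18 := by
      rw [mul_one_div, div_lt_div_iff₀ (by positivity) (by norm_num)]
      nlinarith
    linarith
  have hj1' := (mem_filter.mp hj1).2
  have h6 := w_compare C s m j1 j hC hsm hm (hj1'.trans (by nlinarith)) hj
  calc (Real.exp (-(160 * C ^ 2)) / 3) / s = Real.exp (-(160 * C ^ 2)) * (1 / (3 * s)) := by
        field_simp
    _ ≤ Real.exp (-(160 * C ^ 2)) * w m j1 := by gcongr
    _ ≤ w m j := h6

section hdef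
variable {ι : Type}

/-- averaged, recentred binomial -/
noncomputable def h (S : Finset ι) (σ : ι → ℤ) (k : ℕ) (x : ℤ) : ℝ :=
  (∑ Z ∈ S, B (4 * k) (2 * k + x - σ Z)) / S.card

theorem h_nonneg (S : Finset ι) (σ : ι → ℤ) (k : ℕ) (x : ℤ) : 0 ≤ h S σ k x := by
  unfold h
  apply div_nonneg _ (by positivity)
  exact sum_nonneg (fun _ _ => B_nonneg _ _)

theorem avg_le {S : Finset ι} {f : ι → ℝ} {c : ℝ} (hc : 0 ≤ c) (hf : ∀ i ∈ S, f i ≤ c) :
    (∑ i ∈ S, f i) / S.card ≤ c := by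
  rcases S.eq_empty_or_nonempty with rfl | hS
  · simpa using hc
  · have hcard : (0 : ℝ) < S.card := by exact_mod_cast hS.card_pos
    rw [div_le_iff₀ hcard]
    calc ∑ i ∈ S, f i ≤ ∑ _i ∈ S, c := sum_le_sum hf
      _ = c * S.card := by rw [sum_const, nsmul_eq_mul, mul_comm]

theorem h_le (S : Finset ι) (σ : ι → ℤ) (k : ℕ) (x : ℤ) :
    h S σ k x ≤ 1 / Real.sqrt (4 * k + 1) := by
  unfold h
  apply avg_le (by positivity)
  intro Z _
  have := B_le_even (2 * k) (2 * k + x - σ Z)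
  have e1 : 2 * (2 * k) = 4 * k := by ring
  have e2 : (2 * ((2 * k : ℕ) : ℝ) + 1) = 4 * k + 1 := by push_cast; ring
  rw [e1, e2] at this
  exact this

theorem B_diff (k l : ℕ) (x : ℤ) :
    |B (4 * (k + l)) (2 * ((k + l : ℕ) : ℤ) + x) - B (4 * k) (2 * k + x)|
      ≤ Real.sqrt l * (4 / (4 * k + 1)) := by
  have e1 : 4 * (k + l) = 4 * k + 4 * l := by ring
  rw [e1, B_conv (4 * k) (4 * l)]
  have e2 : B (4 * k) (2 * k + x) = ∑ y ∈ range (4 * l + 1), B (4 * l) y * B (4 * k) (2 * k + x) := by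
    rw [← sum_mul, B_sum, one_mul]
  rw [e2, ← sum_sub_distrib]
  calc |∑ y ∈ range (4 * l + 1), (B (4 * l) y * B (4 * k) (2 * ((k + l : ℕ) : ℤ) + x - y)
          - B (4 * l) y * B (4 * k) (2 * k + x))|
      ≤ ∑ y ∈ range (4 * l + 1), |B (4 * l) y * B (4 * k) (2 * ((k + l : ℕ) : ℤ) + x - y)
          - B (4 * l) y * B (4 * k) (2 * k + x)| := abs_sum_le_sum_abs _ _
    _ ≤ ∑ y ∈ range (4 * l + 1), (|((4 * l : ℕ) : ℝ) / 2 - y| * B (4 * l) y) * (4 / (4 * k + 1)) := by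
        apply sum_le_sum
        intro y _
        rw [← mul_sub, abs_mul, abs_of_nonneg (B_nonneg _ _)]
        have h1 := B_lip_int (4 * k) (2 * k + x) (2 * ((k + l : ℕ) : ℤ) + x - y)
        have e3 : |((2 * ((k + l : ℕ) : ℤ) + x - y : ℤ) : ℝ) - ((2 * k + x : ℤ) : ℝ)|
            = |((4 * l : ℕ) : ℝ) / 2 - y| := by
          congr 1; push_cast; ring
        rw [e3] at h1
        push_cast at h1 ⊢
        calc B (4 * l) y * |B (4 * k) (2 * (↑k + ↑l) + x - ↑y) - B (4 * k) (2 * ↑k + x)|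
            ≤ B (4 * l) y * (|4 * (l : ℝ) / 2 - y| * (4 / (4 * k + 1))) := by
              apply mul_le_mul_of_nonneg_left h1 (B_nonneg _ _)
          _ = _ := by ring
    _ = (∑ y ∈ range (4 * l + 1), |((4 * l : ℕ) : ℝ) / 2 - y| * B (4 * l) y) * (4 / (4 * k + 1)) := by
        rw [sum_mul]
    _ ≤ (Real.sqrt (4 * l : ℕ) / 2) * (4 / (4 * k + 1)) := by
        apply mul_le_mul_of_nonneg_right (B_absdev (4 * l)) (by positivity)
    _ = Real.sqrt l * (4 / (4 * k + 1)) := by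
        have : Real.sqrt (4 * l : ℕ) = 2 * Real.sqrt l := by
          push_cast
          rw [Real.sqrt_mul (by norm_num)]
          congr 1
          rw [show (4 : ℝ) = 2 ^ 2 by norm_num]
          exact Real.sqrt_sq (by norm_num)
        rw [this]; ring

theorem h_diff (S : Finset ι) (σ : ι → ℤ) (k l : ℕ) (x : ℤ) :
    |h S σ (k + l) x - h S σ k x| ≤ Real.sqrt l * (4 / (4 * k + 1)) := by
  unfold h
  rw [← sub_div, ← sum_sub_distrib, abs_div, Nat.abs_cast]
  calc |∑ Z ∈ S, (B (4 * (k + l)) (2 * ((k + l : ℕ) : ℤ) + x - σ Z) - B (4 * k) (2 * k + x - σ Z))| / S.card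
      ≤ (∑ Z ∈ S, |B (4 * (k + l)) (2 * ((k + l : ℕ) : ℤ) + x - σ Z) - B (4 * k) (2 * k + x - σ Z)|) / S.card := by
        gcongr
        exact abs_sum_le_sum_abs _ _
    _ ≤ _ := by
        apply avg_le (by positivity)
        intro Z _
        have := B_diff k l (x - σ Z)
        rw [← add_sub_assoc, ← add_sub_assoc] at this
        exact this

theorem B_sum_le (K : ℕ) (F : Finset ℤ) : ∑ x ∈ F, B K x ≤ 1 := by
  rw [← B_sum K]
  have e : ∑ y ∈ range (K + 1), B K y = ∑ x ∈ (range (K + 1)).map Nat.castEmbedding, B K x := by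
    rw [sum_map]; rfl
  rw [e]
  calc ∑ x ∈ F, B K x = ∑ x ∈ F.filter (fun x => x ∈ (range (K + 1)).map Nat.castEmbedding), B K x := by
        symm
        apply sum_subset (filter_subset _ _)
        intro x hx hx2
        have hx3 : x ∉ (range (K + 1)).map Nat.castEmbedding := by
          intro hh; exact hx2 (mem_filter.mpr ⟨hx, hh⟩)
        rcases lt_or_ge x 0 with h0 | h0
        · exact B_neg h0
        · apply B_gt
          by_contra hcon
          push Not at hcon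
          apply hx3
          simp only [mem_map, mem_range, Nat.castEmbedding_apply]
          exact ⟨x.toNat, by omega, by omega⟩
    _ ≤ _ := by
        apply sum_le_sum_of_subset_of_nonneg
        · intro x hx; exact (mem_filter.mp hx).2
        · intro x _ _; exact B_nonneg _ _

theorem h_sum_le (S : Finset ι) (σ : ι → ℤ) (k : ℕ) (F : Finset ℤ) :
    ∑ x ∈ F, h S σ k x ≤ 1 := by
  unfold h
  rw [← sum_div, sum_comm]
  apply avg_le zero_le_one
  intro Z _
  have : ∑ x ∈ F, B (4 * k) (2 * k + x - σ Z)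
      = ∑ y ∈ F.map (addLeftEmbedding (2 * (k : ℤ) - σ Z)), B (4 * k) y := by
    rw [sum_map]
    apply sum_congr rfl
    intro x _
    congr 1
    simp only [addLeftEmbedding_apply]
    ring
  rw [this]
  exact B_sum_le _ _

end hdef

end Pool.Agent.Helper472
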