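import Mathlib
import Pool.Agent.Helper472.Ana

set_option autoImplicit false

namespace Pool.Agent.Helper472

open Finset

theorem window_card_lower (m : ℕ) (t : ℝ) (ht : 0 ≤ t) (htm : t ≤ m / 17) :
    2 * t - 1 ≤ ((((range (m + 1)).filter (fun j : ℕ => |(j : ℝ) - m / 17| ≤ t)).card : ℕ) : ℝ) := by
  have hsub : Icc ⌈(m : ℝ) / 17 - t⌉₊ ⌊(m : ℝ) / 17 + t⌋₊
      ⊆ (range (m + 1)).filter (fun j : ℕ => |(j : ℝ) - m / 17| ≤ t) := by
    intro j hj
    obtain ⟨h1, h2⟩ := mem_Icc.mp hj
    have h1' : (m : ℝ) / 17 - t ≤ j := Nat.ceil_le.mp h1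
    have h2' : (j : ℝ) ≤ (m : ℝ) / 17 + t := (Nat.le_floor_iff (by positivity)).mp h2
    rw [mem_filter, mem_range]
    constructor
    · have : (j : ℝ) ≤ m := by
        have : (0 : ℝ) ≤ m := by positivity
        linarith
      have : j ≤ m := by exact_mod_cast this
      omega
    · rw [abs_le]; constructor <;> linarith
  have h1 := card_le_card hsub
  rw [Nat.card_Icc] at h1
  have h2 : ((⌊(m : ℝ) / 17 + t⌋₊ + 1 - ⌈(m : ℝ) / 17 - t⌉₊ : ℕ) : ℝ)
      ≤ (((range (m + 1)).filter (fun j : ℕ => |(j : ℝ) - m / 17| ≤ t)).card : ℝ) := by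
    exact_mod_cast h1
  have h3 : (m : ℝ) / 17 + t < (⌊(m : ℝ) / 17 + t⌋₊ : ℝ) + 1 := Nat.lt_floor_add_one _
  have h4 : (⌈(m : ℝ) / 17 - t⌉₊ : ℝ) < (m : ℝ) / 17 - t + 1 := Nat.ceil_lt_add_one (by linarith)
  have h5 : ((⌊(m : ℝ) / 17 + t⌋₊ : ℝ) + 1 - (⌈(m : ℝ) / 17 - t⌉₊ : ℝ))
      ≤ ((⌊(m : ℝ) / 17 + t⌋₊ + 1 - ⌈(m : ℝ) / 17 - t⌉₊ : ℕ) : ℝ) := by
    rcases le_total (⌈(m : ℝ) / 17 - t⌉₊) (⌊(m : ℝ) / 17 + t⌋₊ + 1) with hh | hh
    · rw [Nat.cast_sub hh]; push_cast; exact le_refl _
    · have : ((⌊(m : ℝ) / 17 + t⌋₊ + 1 : ℕ) : ℝ) ≤ (⌈(m : ℝ) / 17 - t⌉₊ : ℝ) := by exact_mod_cast hh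
      push_cast at this
      rw [Nat.sub_eq_zero_of_le hh]; push_cast; linarith
  linarith


/-- the abstract comparison -/
theorem analysis (c1 : ℝ) (hc1 : 0 < c1) : ∃ ε : ℝ, 0 < ε ∧ ∃ S0 : ℝ, ∀ m : ℕ, S0 ≤ Real.sqrt m →
    ∀ {ι : Type} (S : Finset ι) (σ : ι → ℤ) (x0 : ℤ),
      c1 / Real.sqrt m ≤ ∑ j ∈ range (m + 1), w m j * h S σ (m - j) (x0 + j) →
      ∃ x : ℤ, (1 + ε) * (∑ j ∈ range (m + 1), w m j * h S σ (m - j) (x0 + j))
        < ∑ j ∈ range (m + 1), w m j * h S σ (m - j) x := by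
  set C1 : ℝ := 2 / c1 + 1 with hC1
  clear_value C1
  have hC1c : C1 * c1 = 2 + c1 := by rw [hC1]; field_simp
  have hC1ge : 1 ≤ C1 := by rw [hC1]; have : 0 < 2 / c1 := by positivity
                            linarith
  set κ : ℝ := Real.exp (-(160 * C1 ^ 2)) / 3 with hκ
  clear_value κ
  have hκ0 : 0 < κ := by rw [hκ]; positivity
  have hκ3 : κ ≤ 1 / 3 := by
    rw [hκ]
    have : Real.exp (-(160 * C1 ^ 2)) ≤ 1 := by
      apply Real.exp_le_one_iff.mpr
      have : 0 ≤ C1 ^ 2 := sq_nonneg _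
      linarith
    linarith
  set C2 : ℝ := C1 + 1 / κ with hC2
  clear_value C2
  have hκinv : 3 ≤ 1 / κ := by rw [le_div_iff₀ hκ0]; linarith
  have hC12 : C1 ≤ C2 := by rw [hC2]; linarith
  have hC2κ : 1 / κ ≤ C2 := by rw [hC2]; linarith
  have hC2pos : 0 < C2 := by linarith
  refine ⟨κ / 16, by positivity, 3000 * C2 / κ ^ 2, ?_⟩
  intro m hm ι S σ x0 hα
  set s := Real.sqrt m with hs
  set α0 := ∑ j ∈ range (m + 1), w m j * h S σ (m - j) (x0 + j) with hα0
  have hsm : s ^ 2 = m := Real.sq_sqrt (by positivity)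
  clear_value s α0
  -- size of s
  have hκ2 : κ ^ 2 ≤ 1 / 9 := by
    have := mul_le_mul hκ3 hκ3 hκ0.le (by norm_num)
    calc κ ^ 2 = κ * κ := by ring
      _ ≤ 1 / 3 * (1 / 3) := this
      _ = 1 / 9 := by norm_num
  have hs1 : 27000 * C2 ≤ s := by
    have : 27000 * C2 ≤ 3000 * C2 / κ ^ 2 := by
      rw [le_div_iff₀ (by positivity)]; nlinarith
    linarith
  have hs2 : 2048 * C2 ≤ s * κ ^ 2 := by
    have := (div_le_iff₀ (by positivity : (0 : ℝ) < κ ^ 2)).mp hm
    linarith
  have hs80 : 80 * C1 ≤ s := by linarith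
  have hsbig : 27000 ≤ s := by nlinarith
  have hspos : 0 < s := by linarith
  have hmpos : (0 : ℝ) < m := by rw [← hsm]; positivity
  have hm1 : 1 ≤ m := by exact_mod_cast (Nat.one_le_iff_ne_zero.mpr (by
    intro h0; rw [h0] at hmpos; simp at hmpos))
  have hsκ : 16 / κ ≤ s := by
    rw [div_le_iff₀ hκ0]
    nlinarith
  have hC2s : 27000 * (C2 * s) ≤ m := by rw [← hsm]; nlinarith
  -- eta
  set η : ℝ := m / (18 * (C2 * s) ^ 2) with hη
  clear_value η
  have hηle : η ≤ κ ^ 2 / 18 := by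
    rw [hη, mul_pow, hsm, div_le_div_iff₀ (by positivity) (by norm_num)]
    have h1 : 1 ≤ κ ^ 2 * C2 ^ 2 := by
      have : 1 ≤ κ * C2 := by
        have := mul_le_mul_of_nonneg_left hC2κ hκ0.le
        rwa [mul_one_div_cancel hκ0.ne'] at this
      nlinarith
    nlinarith
  have hη0 : 0 ≤ η := by rw [hη]; positivity
  have hηsmall : η ≤ κ / 54 := by
    have := mul_le_mul_of_nonneg_left hκ3 hκ0.le
    have e8 : κ ^ 2 = κ * κ := by ring
    rw [e8] at hηle
    linarith
  -- windows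
  set J2 := (range (m + 1)).filter (fun j : ℕ => |(j : ℝ) - m / 17| ≤ C2 * s) with hJ2
  set J1 := (range (m + 1)).filter (fun j : ℕ => |(j : ℝ) - m / 17| ≤ C1 * s) with hJ1
  clear_value J1 J2
  have hJ12 : J1 ⊆ J2 := by
    intro j hj
    rw [hJ1, mem_filter] at hj
    rw [hJ2, mem_filter]
    exact ⟨hj.1, hj.2.trans (by gcongr)⟩
  set W2 := ∑ j ∈ J2, w m j with hW2
  have hW2l : 1 - η ≤ W2 := by rw [hη, hW2, hJ2]; exact w_window m (C2 * s) (by positivity)
  have hW2u : W2 ≤ 1 := by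
    rw [← w_sum m, hW2, hJ2]
    exact sum_le_sum_of_subset_of_nonneg (filter_subset _ _) (fun j _ _ => w_nonneg m j)
  clear_value W2
  -- reference index
  set jm := ⌊(m : ℝ) / 17 + C2 * s⌋₊ with hjm
  have hjm1 : (jm : ℝ) ≤ (m : ℝ) / 17 + C2 * s := Nat.floor_le (by positivity)
  have hjm3 : ∀ j : ℕ, (j : ℝ) ≤ (m : ℝ) / 17 + C2 * s → j ≤ jm := fun j hj => Nat.le_floor hj
  clear_value jm
  have hjm2 : jm ≤ m := by
    have : (jm : ℝ) ≤ m := by linarith
    exact_mod_cast this
  set k0 := m - jm with hk0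
  have hk0' : (k0 : ℝ) = m - jm := by rw [hk0, Nat.cast_sub hjm2]
  have hk0l : (m : ℝ) / 2 ≤ k0 := by rw [hk0']; linarith
  clear_value k0
  set err := 2 * Real.sqrt (2 * C2 * s) / s ^ 2 with herr
  have herr0 : 0 ≤ err := by rw [herr]; positivity
  clear_value err
  have hserr : s * err ≤ κ / 16 := by
    have h1 : Real.sqrt (2 * C2 * s) ≤ κ * s / 32 := by
      apply Real.sqrt_le_iff.mpr
      constructor
      · positivity
      · have : (κ * s / 32) ^ 2 = (s * κ ^ 2) * s / 1024 := by ring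
        rw [this]
        have : 2048 * C2 * s ≤ (s * κ ^ 2) * s := by gcongr
        linarith
    rw [herr]
    calc s * (2 * Real.sqrt (2 * C2 * s) / s ^ 2) = 2 * Real.sqrt (2 * C2 * s) / s := by
          field_simp
      _ ≤ 2 * (κ * s / 32) / s := by gcongr
      _ = κ / 16 := by field_simp; norm_num
  have hdiff : ∀ j ∈ J2, ∀ x : ℤ, |h S σ (m - j) x - h S σ k0 x| ≤ err := by
    intro j hj x
    rw [hJ2, mem_filter] at hj
    obtain ⟨_, hj2⟩ := hj
    obtain ⟨ha, hb⟩ := abs_le.mp hj2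
    have hjle : j ≤ jm := by apply hjm3; linarith
    obtain ⟨l, hl⟩ := Nat.exists_eq_add_of_le hjle
    have hmj : m - j = k0 + l := by omega
    have hl' : (l : ℝ) ≤ 2 * C2 * s := by
      have : (jm : ℝ) = j + l := by exact_mod_cast hl
      linarith
    rw [hmj]
    calc |h S σ (k0 + l) x - h S σ k0 x| ≤ Real.sqrt l * (4 / (4 * k0 + 1)) := h_diff S σ k0 l x
      _ ≤ Real.sqrt (2 * C2 * s) * (4 / (2 * s ^ 2)) := by
          apply mul_le_mul (Real.sqrt_le_sqrt hl') _ (by positivity) (by positivity)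
          apply div_le_div_of_nonneg_left (by norm_num) (by positivity)
          rw [hsm]; linarith
      _ = err := by rw [herr]; ring
  -- sup bound
  have hsup1 : ∀ j ∈ range (m + 1), ∀ x : ℤ, w m j * h S σ (m - j) x
      ≤ w m j / s + (if (m : ℝ) / 3 < |(j : ℝ) - m / 17| then w m j else 0) := by
    intro j hj x
    have hjm' : j ≤ m := by have := mem_range.mp hj; omega
    have hw := w_nonneg m j
    have hh := h_le S σ (m - j) x
    have hcast : ((m - j : ℕ) : ℝ) = m - j := by rw [Nat.cast_sub hjm']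
    split_ifs with hc
    · have : h S σ (m - j) x ≤ 1 := by
        refine hh.trans ?_
        rw [div_le_one (by positivity)]
        apply Real.one_le_sqrt.mpr
        have : (0 : ℝ) ≤ ((m - j : ℕ) : ℝ) := by positivity
        linarith
      have h2 : 0 ≤ w m j / s := by positivity
      have := mul_le_mul_of_nonneg_left this hw
      linarith
    · push Not at hc
      have hle := (abs_le.mp hc).2
      have : h S σ (m - j) x ≤ 1 / s := by
        refine hh.trans ?_
        apply div_le_div_of_nonneg_left (by norm_num) hspos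
        rw [hs]
        apply Real.sqrt_le_sqrt
        rw [hcast]; linarith
      calc w m j * h S σ (m - j) x ≤ w m j * (1 / s) := by gcongr
        _ = w m j / s + 0 := by ring
  have htail : ∑ j ∈ range (m + 1), (if (m : ℝ) / 3 < |(j : ℝ) - m / 17| then w m j else 0)
      ≤ 1 / s ^ 2 := by
    rw [← sum_filter]
    refine (w_cheb m (m / 3) (by positivity)).trans ?_
    rw [hsm]
    rw [div_le_div_iff₀ (by positivity) hmpos]
    have e5 : (18 * ((m : ℝ) / 3) ^ 2) = 2 * (m * m) := by ring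
    rw [e5]
    have := mul_pos hmpos hmpos
    linarith
  have hα0s : α0 * s ≤ 2 := by
    have h1 : α0 ≤ 1 / s + 1 / s ^ 2 := by
      rw [hα0]
      calc _ ≤ ∑ j ∈ range (m + 1), (w m j / s + (if (m : ℝ) / 3 < |(j : ℝ) - m / 17| then w m j else 0)) :=
            sum_le_sum (fun j hj => hsup1 j hj _)
        _ = (∑ j ∈ range (m + 1), w m j) / s
            + ∑ j ∈ range (m + 1), (if (m : ℝ) / 3 < |(j : ℝ) - m / 17| then w m j else 0) := by
            rw [sum_add_distrib, sum_div]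
        _ ≤ 1 / s + 1 / s ^ 2 := by rw [w_sum]; gcongr
    calc α0 * s ≤ (1 / s + 1 / s ^ 2) * s := by gcongr
      _ = 1 + 1 / s := by field_simp
      _ ≤ 2 := by
        have : 1 / s ≤ 1 := by rw [div_le_one hspos]; linarith
        linarith
  have hα0pos : 0 < α0 := lt_of_lt_of_le (by positivity) hα
  -- outside mass
  have hsplit : ∀ f : ℕ → ℝ, ∑ j ∈ range (m + 1), f j
      = ∑ j ∈ J2, f j + ∑ j ∈ (range (m + 1)).filter (fun j : ℕ => ¬ |(j : ℝ) - m / 17| ≤ C2 * s), f j := by
    intro f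
    rw [hJ2, sum_filter_add_sum_filter_not]
  have h1 : α0 ≤ ∑ j ∈ J2, w m j * h S σ k0 (x0 + j) + err + η / s + 1 / s ^ 2 := by
    rw [hα0, hsplit]
    have ha : ∑ j ∈ J2, w m j * h S σ (m - j) (x0 + j)
        ≤ ∑ j ∈ J2, w m j * h S σ k0 (x0 + j) + err := by
      calc ∑ j ∈ J2, w m j * h S σ (m - j) (x0 + j)
          ≤ ∑ j ∈ J2, (w m j * h S σ k0 (x0 + j) + w m j * err) := by
            apply sum_le_sum
            intro j hj
            have := (abs_le.mp (hdiff j hj (x0 + j))).2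
            have hw := w_nonneg m j
            have := mul_le_mul_of_nonneg_left (show h S σ (m - j) (x0 + j) ≤ h S σ k0 (x0 + j) + err by linarith) hw
            linarith [mul_add (w m j) (h S σ k0 (x0 + j)) err]
        _ = ∑ j ∈ J2, w m j * h S σ k0 (x0 + j) + W2 * err := by
            rw [sum_add_distrib, ← sum_mul, ← hW2]
        _ ≤ _ := by
            have := mul_le_mul_of_nonneg_right hW2u herr0
            linarith
    have hb : ∑ j ∈ (range (m + 1)).filter (fun j : ℕ => ¬ |(j : ℝ) - m / 17| ≤ C2 * s),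
        w m j * h S σ (m - j) (x0 + j) ≤ η / s + 1 / s ^ 2 := by
      calc _ ≤ ∑ j ∈ (range (m + 1)).filter (fun j : ℕ => ¬ |(j : ℝ) - m / 17| ≤ C2 * s),
            (w m j / s + (if (m : ℝ) / 3 < |(j : ℝ) - m / 17| then w m j else 0)) := by
            apply sum_le_sum
            intro j hj
            exact hsup1 j (mem_filter.mp hj).1 _
        _ = (∑ j ∈ (range (m + 1)).filter (fun j : ℕ => ¬ |(j : ℝ) - m / 17| ≤ C2 * s), w m j) / s
            + ∑ j ∈ (range (m + 1)).filter (fun j : ℕ => ¬ |(j : ℝ) - m / 17| ≤ C2 * s),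
              (if (m : ℝ) / 3 < |(j : ℝ) - m / 17| then w m j else 0) := by
            rw [sum_add_distrib, sum_div]
        _ ≤ η / s + 1 / s ^ 2 := by
            apply add_le_add
            · gcongr
              simp only [not_le]
              rw [hη]
              exact w_cheb m (C2 * s) (by positivity)
            · refine le_trans ?_ htail
              apply sum_le_sum_of_subset_of_nonneg (filter_subset _ _)
              intro j _ _
              split_ifs
              · exact w_nonneg m j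
              · exact le_refl _
    linarith
  by_contra hcon
  push Not at hcon
  -- (2) pointwise upper bound on h k0
  set ε := κ / 16 with hε
  set Hh := α0 + (2 * ε + 2 * η) * α0 + 2 * err with hHh
  clear_value Hh ε
  have hεpos : 0 < ε := by rw [hε]; positivity
  have hηhalf : 2 * η ≤ 1 := by linarith
  have h2 : ∀ x : ℤ, h S σ k0 x ≤ Hh := by
    intro x
    have ha := hcon x
    have hb : W2 * h S σ k0 x - err ≤ ∑ j ∈ range (m + 1), w m j * h S σ (m - j) x := by
      calc W2 * h S σ k0 x - err ≤ W2 * h S σ k0 x - W2 * err := by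
            have := mul_le_mul_of_nonneg_right hW2u herr0
            linarith
        _ = ∑ j ∈ J2, (w m j * h S σ k0 x - w m j * err) := by
            rw [sum_sub_distrib, ← sum_mul, ← sum_mul, ← hW2]
        _ ≤ ∑ j ∈ J2, w m j * h S σ (m - j) x := by
            apply sum_le_sum
            intro j hj
            have := (abs_le.mp (hdiff j hj x)).1
            have hw := w_nonneg m j
            have := mul_le_mul_of_nonneg_left (show h S σ k0 x - err ≤ h S σ (m - j) x by linarith) hw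
            linarith [mul_sub (w m j) (h S σ k0 x) err]
        _ ≤ _ := by
            rw [hJ2]
            apply sum_le_sum_of_subset_of_nonneg (filter_subset _ _)
            intro j _ _
            exact mul_nonneg (w_nonneg m j) (h_nonneg _ _ _ _)
    have hh0 := h_nonneg S σ k0 x
    have hc : (1 - η) * h S σ k0 x ≤ (1 + ε) * α0 + err := by
      have := mul_le_mul_of_nonneg_right hW2l hh0
      linarith
    -- multiply by 1 + 2η
    have hd : h S σ k0 x ≤ (1 + 2 * η) * ((1 + ε) * α0 + err) := by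
      have : h S σ k0 x ≤ (1 + 2 * η) * ((1 - η) * h S σ k0 x) := by
        have e3 : (1 + 2 * η) * ((1 - η) * h S σ k0 x)
            = h S σ k0 x + η * (1 - 2 * η) * h S σ k0 x := by ring
        have e4 : 0 ≤ η * (1 - 2 * η) * h S σ k0 x :=
          mul_nonneg (mul_nonneg hη0 (by linarith)) hh0
        rw [e3]; linarith
      exact this.trans (by gcongr)
    rw [hHh]
    have hε1 : ε ≤ 1 := by rw [hε]; linarith
    have hε0 : 0 < ε := hεpos
    have e1 : 2 * η * ε * α0 ≤ ε * α0 := by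
      have : 2 * η * ε ≤ 1 * ε := mul_le_mul_of_nonneg_right hηhalf hε0.le
      have := mul_le_mul_of_nonneg_right this hα0pos.le
      linarith
    have e2 : 2 * η * err ≤ 1 * err := mul_le_mul_of_nonneg_right hηhalf herr0
    have e6 : (1 + 2 * η) * ((1 + ε) * α0 + err) = α0 + (ε + 2 * η) * α0 + 2 * η * ε * α0 + err + 2 * η * err := by ring
    rw [e6] at hd
    linarith
  have hHh0 : 0 < Hh := by rw [hHh]; positivity
  have hHα : α0 ≤ Hh := by
    rw [hHh]
    have : 0 ≤ (2 * ε + 2 * η) * α0 := by positivity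
    linarith
  -- (3)
  have h3 : ∑ j ∈ J2, w m j * (Hh - h S σ k0 (x0 + j)) ≤ (Hh - α0) + err + η / s + 1 / s ^ 2 := by
    have : ∑ j ∈ J2, w m j * (Hh - h S σ k0 (x0 + j))
        = W2 * Hh - ∑ j ∈ J2, w m j * h S σ k0 (x0 + j) := by
      rw [hW2, sum_mul, ← sum_sub_distrib]
      apply sum_congr rfl
      intro j _; ring
    rw [this]
    have := mul_le_mul_of_nonneg_right hW2u hHh0.le
    linarith
  have h4 : (κ / s) * ∑ j ∈ J1, (Hh - h S σ k0 (x0 + j)) ≤ (Hh - α0) + err + η / s + 1 / s ^ 2 := by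
    refine le_trans ?_ h3
    rw [mul_sum]
    calc ∑ j ∈ J1, κ / s * (Hh - h S σ k0 (x0 + j))
        ≤ ∑ j ∈ J1, w m j * (Hh - h S σ k0 (x0 + j)) := by
          apply sum_le_sum
          intro j hj
          apply mul_le_mul_of_nonneg_right
          · rw [hJ1] at hj
            rw [hκ, hs]
            rw [hs] at hs80 hj
            exact w_lower C1 hC1ge m hs80 j (mem_filter.mp hj).2
          · have := h2 (x0 + j); linarith
      _ ≤ _ := by
          apply sum_le_sum_of_subset_of_nonneg hJ12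
          intro j _ _
          apply mul_nonneg (w_nonneg m j)
          have := h2 (x0 + j); linarith
  have h5 : ∑ j ∈ J1, h S σ k0 (x0 + j) ≤ 1 := by
    have e : ∑ j ∈ J1, h S σ k0 (x0 + j)
        = ∑ x ∈ J1.map (Nat.castEmbedding.trans (addLeftEmbedding x0)), h S σ k0 x := by
      rw [sum_map]; rfl
    rw [e]
    exact h_sum_le _ _ _ _
  have h6 : 2 * (C1 * s) - 1 ≤ (J1.card : ℝ) := by
    rw [hJ1]
    apply window_card_lower m (C1 * s) (by positivity)
    have : C1 * s ≤ C2 * s := by gcongr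
    linarith
  have h7 : ∑ j ∈ J1, (Hh - h S σ k0 (x0 + j)) ≥ (2 * (C1 * s) - 1) * Hh - 1 := by
    rw [sum_sub_distrib, sum_const, nsmul_eq_mul]
    have := mul_le_mul_of_nonneg_right h6 hHh0.le
    linarith
  have h8 : (2 * (C1 * s) - 1) * Hh ≥ 4 := by
    have a1 : c1 ≤ Hh * s := by
      have : c1 ≤ α0 * s := (div_le_iff₀ hspos).mp hα
      have := mul_le_mul_of_nonneg_right hHα hspos.le
      linarith
    have a2 : (2 * (C1 * s) - 1) * Hh = 2 * C1 * (Hh * s) - Hh := by ring
    have a3 : Hh ≤ Hh * s / 27000 := by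
      have := mul_le_mul_of_nonneg_left hsbig hHh0.le
      linarith
    rw [a2]
    have a4 : 2 * C1 * (Hh * s) - Hh ≥ (2 * C1 - 1 / 27000) * (Hh * s) := by
      have e7 : (2 * C1 - 1 / 27000) * (Hh * s) = 2 * C1 * (Hh * s) - Hh * s / 27000 := by ring
      rw [e7]; linarith
    have a5 : (2 * C1 - 1 / 27000) * (Hh * s) ≥ (2 * C1 - 1 / 27000) * c1 := by
      apply mul_le_mul_of_nonneg_left a1; linarith
    have a6 : (2 * C1 - 1 / 27000) * c1 = 2 * (C1 * c1) - c1 / 27000 := by ring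
    rw [hC1c] at a6
    linarith
  have h9 : (κ / s) * 3 ≤ (Hh - α0) + err + η / s + 1 / s ^ 2 := by
    refine le_trans ?_ h4
    apply mul_le_mul_of_nonneg_left _ (by positivity)
    linarith
  have h10 : κ * 3 ≤ ((Hh - α0) + err + η / s + 1 / s ^ 2) * s := by
    calc κ * 3 = ((κ / s) * 3) * s := by field_simp
      _ ≤ _ := by gcongr
  have h11 : ((Hh - α0) + err + η / s + 1 / s ^ 2) * s
      = (2 * ε + 2 * η) * (α0 * s) + 3 * (s * err) + η + 1 / s := by
    rw [hHh]; field_simp; ring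
  rw [h11] at h10
  have h12 : (2 * ε + 2 * η) * (α0 * s) ≤ (2 * ε + 2 * η) * 2 := by
    apply mul_le_mul_of_nonneg_left hα0s
    rw [hε]; positivity
  have h13 : 1 / s ≤ κ / 16 := by
    rw [div_le_div_iff₀ hspos (by norm_num)]
    have := (div_le_iff₀ hκ0).mp hsκ
    linarith
  rw [hε] at h12 h10
  linarith

end Pool.Agent.Helper472
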