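import Mathlib
import Pool.Agent.Helper472.Main1

set_option autoImplicit false

namespace Pool.Agent.Helper472

open Finset Classical

section graph
variable {V : Type} [Fintype V] (G : SimpleGraph V)

/-- neighbours of `c` as a finset -/
noncomputable def nb (c : V) : Finset V := univ.filter (fun v => G.Adj c v)

/-- centres of components that are stars with four leaves -/
noncomputable def ctr : Finset V :=
  univ.filter (fun c => (nb G c).card = 4 ∧ ∀ l ∈ nb G c, nb G l = {c})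

/-- leaves of these components -/
noncomputable def lvs : Finset V := (ctr G).biUnion (nb G)

/-- independent sets -/
noncomputable def Q : Finset (Finset V) := univ.filter (fun A => G.IsIndepSet (A : Set V))

/-- independent sets avoiding the star components -/
noncomputable def Z0 : Finset (Finset V) :=
  (Q G).filter (fun A => Disjoint A (ctr G) ∧ Disjoint A (lvs G))

variable {G}

theorem mem_nb {c v : V} : v ∈ nb G c ↔ G.Adj c v := by simp [nb]

theorem mem_Q {A : Finset V} : A ∈ Q G ↔ ∀ a ∈ A, ∀ b ∈ A, ¬ G.Adj a b := by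
  unfold Q
  rw [mem_filter]
  constructor
  · intro h a ha b hb hab
    exact h.2 (by exact_mod_cast ha) (by exact_mod_cast hb) hab.ne hab
  · intro h
    refine ⟨mem_univ _, ?_⟩
    intro a ha b hb _
    exact h a (by exact_mod_cast ha) b (by exact_mod_cast hb)

theorem mem_Q_iff {A : Finset V} : A ∈ Q G ↔ G.IsIndepSet (A : Set V) := by
  unfold Q; rw [mem_filter]; simp

theorem ctr_spec {c : V} (hc : c ∈ ctr G) : (nb G c).card = 4 ∧ ∀ l ∈ nb G c, nb G l = {c} := by
  unfold ctr at hc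
  exact (mem_filter.mp hc).2

theorem mem_ctr {c : V} : c ∈ ctr G ↔ (nb G c).card = 4 ∧ ∀ l ∈ nb G c, nb G l = {c} := by
  unfold ctr
  rw [mem_filter]
  simp

theorem leaf_adj {c l v : V} (hc : c ∈ ctr G) (hl : l ∈ nb G c) (h : G.Adj l v) : v = c := by
  have := (ctr_spec hc).2 l hl
  have h2 : v ∈ nb G l := mem_nb.mpr h
  rw [this] at h2
  exact mem_singleton.mp h2

theorem ctr_lvs_disj : Disjoint (ctr G) (lvs G) := by
  rw [disjoint_left]
  intro c hc hl
  unfold lvs at hl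
  obtain ⟨c', hc', hl'⟩ := mem_biUnion.mp hl
  have h1 := (ctr_spec hc').2 c hl'
  have h2 := (ctr_spec hc).1
  rw [h1] at h2
  simp at h2

theorem nb_disj {c c' : V} (hc : c ∈ ctr G) (hc' : c' ∈ ctr G) (hne : c ≠ c') :
    Disjoint (nb G c) (nb G c') := by
  rw [disjoint_left]
  intro l hl hl'
  have h1 := (ctr_spec hc).2 l hl
  have h2 := (ctr_spec hc').2 l hl'
  rw [h1] at h2
  exact hne (singleton_injective h2)

theorem card_bi {J : Finset V} (hJ : J ⊆ ctr G) : (J.biUnion (nb G)).card = 4 * J.card := by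
  rw [card_biUnion]
  · rw [sum_congr rfl (fun c hc => (ctr_spec (hJ hc)).1)]
    simp [mul_comm]
  · intro c hc c' hc' hne
    exact nb_disj (hJ hc) (hJ hc') hne

theorem bi_sub {J : Finset V} (hJ : J ⊆ ctr G) : J.biUnion (nb G) ⊆ lvs G :=
  biUnion_subset_biUnion_of_subset_left _ hJ

theorem card_sdiff_bi {J : Finset V} (hJ : J ⊆ ctr G) :
    (lvs G \ J.biUnion (nb G)).card = 4 * ((ctr G).card - J.card) := by
  rw [card_sdiff_of_subset (bi_sub hJ), card_bi hJ]
  unfold lvs
  rw [card_bi (subset_refl _)]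
  omega

/-- edges at leaves and centres -/
theorem adj_lvs {l v : V} (hl : l ∈ lvs G) (h : G.Adj l v) : v ∈ ctr G ∧ l ∈ nb G v := by
  unfold lvs at hl
  obtain ⟨c, hc, hl'⟩ := mem_biUnion.mp hl
  have := leaf_adj hc hl' h
  subst this
  exact ⟨hc, hl'⟩

theorem adj_ctr {c v : V} (hc : c ∈ ctr G) (h : G.Adj c v) : v ∈ lvs G := by
  unfold lvs
  exact mem_biUnion.mpr ⟨c, hc, mem_nb.mpr h⟩

theorem mem_Z0 {A : Finset V} : A ∈ Z0 G ↔ A ∈ Q G ∧ Disjoint A (ctr G) ∧ Disjoint A (lvs G) := by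
  unfold Z0; rw [mem_filter]

/-- the structure of independent sets -/
theorem union_mem_Q {Z J X : Finset V} (hZ : Z ∈ Z0 G) (hJ : J ⊆ ctr G)
    (hX : X ⊆ lvs G \ J.biUnion (nb G)) : Z ∪ J ∪ X ∈ Q G := by
  obtain ⟨hZQ, hZc, hZl⟩ := mem_Z0.mp hZ
  rw [mem_Q] at hZQ ⊢
  have hXl : ∀ x ∈ X, x ∈ lvs G := fun x hx => (mem_sdiff.mp (hX hx)).1
  have hXn : ∀ x ∈ X, x ∉ J.biUnion (nb G) := fun x hx => (mem_sdiff.mp (hX hx)).2
  have key : ∀ a ∈ Z ∪ J ∪ X, ∀ b ∈ Z ∪ J ∪ X, a ∉ Z → ¬ G.Adj a b := by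
    intro a ha b hb haZ hab
    rw [mem_union, mem_union] at ha hb
    rcases ha with (ha | ha) | ha
    · exact haZ ha
    · have hbl := adj_ctr (hJ ha) hab
      rcases hb with (hb | hb) | hb
      · exact (disjoint_left.mp hZl hb) hbl
      · exact (disjoint_left.mp ctr_lvs_disj (hJ hb)) hbl
      · exact hXn b hb (mem_biUnion.mpr ⟨a, ha, mem_nb.mpr hab⟩)
    · obtain ⟨hbc, hab'⟩ := adj_lvs (hXl a ha) hab
      rcases hb with (hb | hb) | hb
      · exact (disjoint_left.mp hZc hb) hbc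
      · exact hXn a ha (mem_biUnion.mpr ⟨b, hb, hab'⟩)
      · exact (disjoint_left.mp ctr_lvs_disj hbc) (hXl b hb)
  intro a ha b hb hab
  by_cases haZ : a ∈ Z
  · by_cases hbZ : b ∈ Z
    · exact hZQ a haZ b hbZ hab
    · exact key b hb a ha hbZ hab.symm
  · exact key a ha b hb haZ hab

theorem sum_Q (F : Finset V → ℝ) :
    ∑ A ∈ Q G, F A = ∑ Z ∈ Z0 G, ∑ J ∈ (ctr G).powerset,
      ∑ X ∈ (lvs G \ J.biUnion (nb G)).powerset, F (Z ∪ J ∪ X) := by
  rw [sum_sigma', sum_sigma']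
  symm
  refine sum_bij' (fun p _ => p.1.1 ∪ p.1.2 ∪ p.2)
    (fun A _ => ⟨⟨(A \ ctr G) \ lvs G, A ∩ ctr G⟩, A ∩ lvs G⟩) ?_ ?_ ?_ ?_ ?_
  · rintro ⟨⟨Z, J⟩, X⟩ hp
    simp only [mem_sigma, mem_powerset] at hp
    exact union_mem_Q hp.1.1 hp.1.2 hp.2
  · intro A hA
    simp only [mem_sigma, mem_powerset]
    rw [mem_Q] at hA
    refine ⟨⟨?_, inter_subset_right⟩, ?_⟩
    · rw [mem_Z0, mem_Q]
      refine ⟨?_, ?_, ?_⟩
      · intro a ha b hb
        exact hA a (sdiff_subset (sdiff_subset ha)) b (sdiff_subset (sdiff_subset hb))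
      · exact (disjoint_sdiff_self_left).mono_left sdiff_subset
      · exact disjoint_sdiff_self_left
    · intro x hx
      obtain ⟨hxA, hxl⟩ := mem_inter.mp hx
      rw [mem_sdiff]
      refine ⟨hxl, ?_⟩
      intro hxb
      obtain ⟨c, hc, hxc⟩ := mem_biUnion.mp hxb
      exact hA c (mem_inter.mp hc).1 x hxA (mem_nb.mp hxc)
  · rintro ⟨⟨Z, J⟩, X⟩ hp
    simp only [mem_sigma, mem_powerset] at hp
    obtain ⟨⟨hZ, hJ⟩, hX⟩ := hp
    obtain ⟨_, hZc, hZl⟩ := mem_Z0.mp hZ
    have hXl : ∀ x ∈ X, x ∈ lvs G := fun x hx => (mem_sdiff.mp (hX hx)).1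
    have e1 : ((Z ∪ J ∪ X) \ ctr G) \ lvs G = Z := by
      ext v
      simp only [mem_sdiff, mem_union]
      constructor
      · rintro ⟨⟨(h | h) | h, h2⟩, h3⟩
        · exact h
        · exact absurd (hJ h) h2
        · exact absurd (hXl v h) h3
      · intro h
        exact ⟨⟨Or.inl (Or.inl h), disjoint_left.mp hZc h⟩, disjoint_left.mp hZl h⟩
    have e2 : (Z ∪ J ∪ X) ∩ ctr G = J := by
      ext v
      simp only [mem_inter, mem_union]
      constructor
      · rintro ⟨(h | h) | h, h2⟩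
        · exact absurd h2 (disjoint_left.mp hZc h)
        · exact h
        · exact absurd (hXl v h) (disjoint_left.mp ctr_lvs_disj h2)
      · intro h
        exact ⟨Or.inl (Or.inr h), hJ h⟩
    have e3 : (Z ∪ J ∪ X) ∩ lvs G = X := by
      ext v
      simp only [mem_inter, mem_union]
      constructor
      · rintro ⟨(h | h) | h, h2⟩
        · exact absurd h2 (disjoint_left.mp hZl h)
        · exact absurd h2 (disjoint_left.mp ctr_lvs_disj (hJ h))
        · exact h
      · intro h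
        exact ⟨Or.inr h, hXl v h⟩
    simp only [e1, e2, e3]
  · intro A _
    ext v
    simp only [mem_union, mem_sdiff, mem_inter]
    tauto
  · intro p _
    rfl

theorem card_union3 {Z J X : Finset V} (hZ : Z ∈ Z0 G) (hJ : J ⊆ ctr G)
    (hX : X ⊆ lvs G \ J.biUnion (nb G)) : (Z ∪ J ∪ X).card = Z.card + J.card + X.card := by
  obtain ⟨_, hZc, hZl⟩ := mem_Z0.mp hZ
  have hXl : X ⊆ lvs G := hX.trans sdiff_subset
  rw [card_union_of_disjoint, card_union_of_disjoint]
  · exact hZc.mono_right hJ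
  · rw [disjoint_union_left]
    exact ⟨hZl.mono_right hXl, (ctr_lvs_disj.mono_left hJ).mono_right hXl⟩

theorem inter_ctr {Z J X : Finset V} (hZ : Z ∈ Z0 G) (hJ : J ⊆ ctr G)
    (hX : X ⊆ lvs G \ J.biUnion (nb G)) : (Z ∪ J ∪ X) ∩ ctr G = J := by
  obtain ⟨_, hZc, hZl⟩ := mem_Z0.mp hZ
  have hXl : ∀ x ∈ X, x ∈ lvs G := fun x hx => (mem_sdiff.mp (hX hx)).1
  ext v
  simp only [mem_inter, mem_union]
  constructor
  · rintro ⟨(h | h) | h, h2⟩
    · exact absurd h2 (disjoint_left.mp hZc h)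
    · exact h
    · exact absurd (hXl v h) (disjoint_left.mp ctr_lvs_disj h2)
  · intro h
    exact ⟨Or.inl (Or.inr h), hJ h⟩

/-- number of subsets of given integer size -/
theorem sum_powerset_size {U : Finset V} (y : ℤ) :
    ∑ X ∈ U.powerset, (if (X.card : ℤ) = y then (1 : ℝ) else 0) = 2 ^ U.card * B U.card y := by
  rcases lt_or_ge y 0 with hy | hy
  · rw [B_neg hy, mul_zero]
    apply sum_eq_zero
    intro X _
    rw [if_neg]
    have : (0 : ℤ) ≤ X.card := by positivity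
    omega
  · obtain ⟨k, rfl⟩ : ∃ k : ℕ, y = k := ⟨y.toNat, by omega⟩
    rw [B_natCast]
    rw [mul_div_cancel₀ _ (by positivity)]
    rw [← card_powersetCard, powersetCard_eq_filter, card_filter]
    push_cast
    apply sum_congr rfl
    intro X _
    by_cases h : X.card = k
    · simp [h]
    · rw [if_neg (by exact_mod_cast h), if_neg h]

/-- sizes of level sets of `|A| + e |A ∩ ctr|` -/
theorem level_card (e : ℕ) (t : ℤ) :
    ∑ A ∈ Q G, (if (A.card : ℤ) + e * (A ∩ ctr G).card = t then (1 : ℝ) else 0)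
      = 17 ^ (ctr G).card * (Z0 G).card * ∑ j ∈ range ((ctr G).card + 1), w (ctr G).card j *
          h (Z0 G) (fun Z => (Z.card : ℤ)) ((ctr G).card - j)
            (t - 2 * (ctr G).card + (1 - e) * j) := by
  set m := (ctr G).card with hm
  have hZ0card : ((Z0 G).card : ℝ) ≠ 0 := by
    have : (∅ : Finset V) ∈ Z0 G := by
      rw [mem_Z0, mem_Q]
      simp
    exact_mod_cast (card_pos.mpr ⟨_, this⟩).ne'
  rw [sum_Q]
  have step1 : ∀ Z ∈ Z0 G, ∑ J ∈ (ctr G).powerset, ∑ X ∈ (lvs G \ J.biUnion (nb G)).powerset,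
      (if ((Z ∪ J ∪ X).card : ℤ) + e * ((Z ∪ J ∪ X) ∩ ctr G).card = t then (1 : ℝ) else 0)
      = ∑ j ∈ range (m + 1), (m.choose j : ℝ) *
          (2 ^ (4 * (m - j)) * B (4 * (m - j)) (t - Z.card - (1 + e) * j)) := by
    intro Z hZ
    have : ∀ J ∈ (ctr G).powerset, ∑ X ∈ (lvs G \ J.biUnion (nb G)).powerset,
      (if ((Z ∪ J ∪ X).card : ℤ) + e * ((Z ∪ J ∪ X) ∩ ctr G).card = t then (1 : ℝ) else 0)
      = 2 ^ (4 * (m - J.card)) * B (4 * (m - J.card)) (t - Z.card - (1 + e) * J.card) := by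
      intro J hJ
      have hJ' := mem_powerset.mp hJ
      rw [← card_sdiff_bi hJ', ← sum_powerset_size]
      apply sum_congr rfl
      intro X hX
      have hX' := mem_powerset.mp hX
      rw [card_union3 hZ hJ' hX', inter_ctr hZ hJ' hX']
      apply if_congr _ rfl rfl
      push_cast
      constructor
      · intro h; linarith
      · intro h; linarith
    rw [sum_congr rfl this]
    rw [sum_powerset_apply_card (fun j => (2 : ℝ) ^ (4 * (m - j)) * B (4 * (m - j)) (t - Z.card - (1 + e) * j))]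
    simp only [nsmul_eq_mul, ← hm]
  rw [sum_congr rfl step1, sum_comm, mul_sum]
  apply sum_congr rfl
  intro j hj
  have hjm : j ≤ m := by have := mem_range.mp hj; omega
  unfold h w
  rw [← mul_sum, ← mul_sum]
  have e1 : ∀ Z : Finset V, t - (Z.card : ℤ) - (1 + e) * j
      = 2 * ((m - j : ℕ) : ℤ) + (t - 2 * m + (1 - e) * j) - Z.card := by
    intro Z
    rw [Nat.cast_sub hjm]; ring
  simp only [e1]
  have e2 : (17 : ℝ) ^ m * ((1 / 17) ^ j * (1 - 1 / 17) ^ (m - j)) = 2 ^ (4 * (m - j)) := by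
    have h17 : (17 : ℝ) ^ m = 17 ^ j * 17 ^ (m - j) := by rw [← pow_add]; congr 1; omega
    rw [h17, show (1 - 1 / 17 : ℝ) = 16 / 17 by norm_num, div_pow, div_pow, one_pow, pow_mul]
    field_simp
    norm_num
  rw [← e2]
  field_simp

variable (G) in
/-- level sets of `|A| + |A ∩ ctr|` -/
noncomputable def lev (t : ℤ) : Finset (Finset V) :=
  (Q G).filter (fun A => (A.card : ℤ) + (A ∩ ctr G).card = t)

theorem lev_antichain (t : ℤ) :
    IsAntichain (· ⊆ ·) (↑(lev G t) : Set (Finset V)) := by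
  intro A hA B hB hne hsub
  have hA' := (mem_filter.mp (mem_coe.mp hA)).2
  have hB' := (mem_filter.mp (mem_coe.mp hB)).2
  have h1 : A.card < B.card := card_lt_card (Finset.ssubset_iff_subset_ne.mpr ⟨hsub, hne⟩)
  have h2 : (A ∩ ctr G).card ≤ (B ∩ ctr G).card := card_le_card (inter_subset_inter_right hsub)
  omega

theorem lev_card (t : ℤ) : ((lev G t).card : ℝ)
      = 17 ^ (ctr G).card * (Z0 G).card * ∑ j ∈ range ((ctr G).card + 1), w (ctr G).card j *
          h (Z0 G) (fun Z => (Z.card : ℤ)) ((ctr G).card - j) (t - 2 * (ctr G).card) := by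
  have := level_card (G := G) 1 t
  rw [sum_boole] at this
  simp only [Nat.cast_one, one_mul, sub_self, zero_mul, add_zero] at this
  unfold lev
  exact this

theorem lay_card (r : ℕ) : (((Q G).filter (fun A => A.card = r)).card : ℝ)
      = 17 ^ (ctr G).card * (Z0 G).card * ∑ j ∈ range ((ctr G).card + 1), w (ctr G).card j *
          h (Z0 G) (fun Z => (Z.card : ℤ)) ((ctr G).card - j) (((r : ℤ) - 2 * (ctr G).card) + j) := by
  have := level_card (G := G) 0 r
  rw [sum_boole] at this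
  simp only [Nat.cast_zero, zero_mul, add_zero, sub_zero, one_mul, Nat.cast_inj] at this
  exact this

theorem card_Q : ((Q G).card : ℝ) = 17 ^ (ctr G).card * (Z0 G).card := by
  have h1 := sum_Q (G := G) (fun _ => (1 : ℝ))
  simp only [sum_const, nsmul_eq_mul, mul_one, card_powerset] at h1
  rw [h1]
  have : ∑ J ∈ (ctr G).powerset, ((2 ^ (lvs G \ J.biUnion (nb G)).card : ℕ) : ℝ)
      = ∑ J ∈ (ctr G).powerset, (2 : ℝ) ^ (4 * ((ctr G).card - J.card)) := by
    apply sum_congr rfl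
    intro J hJ
    rw [card_sdiff_bi (mem_powerset.mp hJ)]
    push_cast; rfl
  rw [this, sum_powerset_apply_card (fun j => (2 : ℝ) ^ (4 * ((ctr G).card - j)))]
  have e := add_pow (1 : ℝ) 16 (ctr G).card
  have e1 : (1 + 16 : ℝ) = 17 := by norm_num
  rw [e1] at e
  rw [e, mul_comm]
  congr 1
  apply sum_congr rfl
  intro j _
  rw [nsmul_eq_mul, one_pow, one_mul, pow_mul]
  norm_num
  ring

end graph

end Pool.Agent.Helper472
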