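import Mathlib
import Pool.Agent.Helper472.Graph

set_option autoImplicit false

namespace Pool.Agent.Helper472

open Finset Classical

section graph
variable {V : Type} [Fintype V] (G : SimpleGraph V)

/-- the component of `u` -/
noncomputable def comp (u : V) : Finset V := univ.filter (fun v => G.Reachable u v)

/-- number of ordered pairs of vertices joined by a walk -/
noncomputable def pairs : Finset (V × V) := univ.filter (fun p => G.Reachable p.1 p.2)

/-- exchange of two sets along `S` -/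
noncomputable def mix (S A B : Finset V) : Finset V := (A ∩ S) ∪ (B \ S)

variable {G}

theorem mem_pairs {u v : V} : (u, v) ∈ pairs G ↔ G.Reachable u v := by
  unfold pairs; rw [mem_filter]; simp

theorem mix_mem_Q {u : V} {A B : Finset V} (hA : A ∈ Q G) (hB : B ∈ Q G) :
    mix (comp G u) A B ∈ Q G := by
  rw [mem_Q] at *
  unfold mix
  intro a ha b hb hab
  simp only [mem_union, mem_inter, mem_sdiff, comp, mem_filter, mem_univ, true_and] at ha hb
  rcases ha with ⟨ha1, ha2⟩ | ⟨ha1, ha2⟩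
  · rcases hb with ⟨hb1, _⟩ | ⟨_, hb2⟩
    · exact hA a ha1 b hb1 hab
    · exact hb2 (ha2.trans hab.reachable)
  · rcases hb with ⟨_, hb2⟩ | ⟨hb1, _⟩
    · exact ha2 (hb2.trans hab.symm.reachable)
    · exact hB a ha1 b hb1 hab

omit [Fintype V] in
theorem mix_mix_left (S A B : Finset V) : mix S (mix S A B) (mix S B A) = A := by
  ext v; unfold mix; simp only [mem_union, mem_inter, mem_sdiff]; tauto

theorem cov_zero {u v : V} (huv : ¬ G.Reachable u v) :
    (Q G).card * ((Q G).filter (fun A => u ∈ A ∧ v ∈ A)).card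
      = ((Q G).filter (fun A => u ∈ A)).card * ((Q G).filter (fun A => v ∈ A)).card := by
  rw [mul_comm, ← card_product, ← card_product]
  refine card_nbij' (fun p => (mix (comp G u) p.1 p.2, mix (comp G u) p.2 p.1))
    (fun p => (mix (comp G u) p.1 p.2, mix (comp G u) p.2 p.1)) ?_ ?_ ?_ ?_
  · rintro ⟨A, B⟩ hp
    simp only [coe_product, Set.mem_prod, mem_coe, mem_filter] at hp ⊢
    obtain ⟨⟨hA, hu, hv⟩, hB⟩ := hp
    refine ⟨⟨mix_mem_Q hA hB, ?_⟩, mix_mem_Q hB hA, ?_⟩
    · unfold mix comp; simp [hu]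
    · unfold mix comp; simp [hv, huv]
  · rintro ⟨A, B⟩ hp
    simp only [coe_product, Set.mem_prod, mem_coe, mem_filter] at hp ⊢
    obtain ⟨⟨hA, hu⟩, hB, hv⟩ := hp
    refine ⟨⟨mix_mem_Q hA hB, ?_, ?_⟩, mix_mem_Q hB hA⟩
    · unfold mix comp; simp [hu]
    · unfold mix comp; simp [hv, huv]
  · rintro ⟨A, B⟩ _
    simp only [mix_mix_left]
  · rintro ⟨A, B⟩ _
    simp only [mix_mix_left]

theorem sum_card : ∑ A ∈ Q G, (A.card : ℝ) = ∑ u : V, (((Q G).filter (fun A => u ∈ A)).card : ℝ) := by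
  have : ∀ A ∈ Q G, (A.card : ℝ) = ∑ u : V, (if u ∈ A then (1 : ℝ) else 0) := by
    intro A _
    rw [sum_boole]; simp
  rw [sum_congr rfl this, sum_comm]
  apply sum_congr rfl
  intro u _
  rw [sum_boole]

theorem sum_card_sq : ∑ A ∈ Q G, (A.card : ℝ) ^ 2
    = ∑ p : V × V, (((Q G).filter (fun A => p.1 ∈ A ∧ p.2 ∈ A)).card : ℝ) := by
  have : ∀ A ∈ Q G, (A.card : ℝ) ^ 2 = ∑ p : V × V, (if p.1 ∈ A ∧ p.2 ∈ A then (1 : ℝ) else 0) := by
    intro A _
    rw [sum_boole, sq, ← Nat.cast_mul, ← card_product]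
    congr 2
    ext p
    simp [mem_product]
  rw [sum_congr rfl this, sum_comm]
  apply sum_congr rfl
  intro u _
  rw [sum_boole]

theorem var_bound : ((Q G).card : ℝ) * ∑ A ∈ Q G, (A.card : ℝ) ^ 2 - (∑ A ∈ Q G, (A.card : ℝ)) ^ 2
    ≤ ((Q G).card : ℝ) ^ 2 * (pairs G).card := by
  rw [sum_card_sq, sum_card, sq (∑ u : V, _), Finset.sum_mul_sum, ← Finset.sum_product', mul_sum,
    univ_product_univ, ← sum_sub_distrib]
  have : ((Q G).card : ℝ) ^ 2 * (pairs G).card
      = ∑ p : V × V, (if G.Reachable p.1 p.2 then ((Q G).card : ℝ) ^ 2 else 0) := by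
    unfold pairs
    rw [← sum_filter, sum_const, nsmul_eq_mul, mul_comm]
  rw [this]
  apply sum_le_sum
  rintro ⟨u, v⟩ _
  dsimp only
  split_ifs with huv
  · have h1 : (((Q G).filter (fun A => u ∈ A ∧ v ∈ A)).card : ℝ) ≤ (Q G).card := by
      exact_mod_cast card_filter_le _ _
    have h2 : (0 : ℝ) ≤ (((Q G).filter (fun A => u ∈ A)).card : ℝ) * (((Q G).filter (fun A => v ∈ A)).card : ℝ) := by
      positivity
    have h3 := mul_le_mul_of_nonneg_left h1 (Nat.cast_nonneg (Q G).card)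
    calc _ ≤ ((Q G).card : ℝ) * (((Q G).filter (fun A => u ∈ A ∧ v ∈ A)).card : ℝ) := by linarith
      _ ≤ ((Q G).card : ℝ) * (Q G).card := h3
      _ = _ := by ring
  · have h1 := cov_zero huv
    have h2 : ((Q G).card : ℝ) * (((Q G).filter (fun A => u ∈ A ∧ v ∈ A)).card : ℝ)
      = (((Q G).filter (fun A => u ∈ A)).card : ℝ) * (((Q G).filter (fun A => v ∈ A)).card : ℝ) := by
      exact_mod_cast h1
    linarith

theorem Q_nonempty : (∅ : Finset V) ∈ Q G := by rw [mem_Q]; simp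

theorem nat_window_card (F : Finset ℕ) (μ lam : ℝ) (hl : 0 ≤ lam)
    (hF : ∀ r ∈ F, |(r : ℝ) - μ| ≤ lam) : (F.card : ℝ) ≤ 2 * lam + 1 := by
  rcases F.eq_empty_or_nonempty with rfl | hne
  · simp; linarith
  · have hμ : 0 ≤ μ + lam := by
      obtain ⟨r, hr⟩ := hne
      have := (abs_le.mp (hF r hr)).2
      have h0 : (0 : ℝ) ≤ r := by positivity
      linarith
    have hsub : F ⊆ Icc ⌈μ - lam⌉₊ ⌊μ + lam⌋₊ := by
      intro j hj
      obtain ⟨a, b⟩ := abs_le.mp (hF j hj)
      rw [mem_Icc]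
      constructor
      · apply Nat.ceil_le.mpr; linarith
      · apply Nat.le_floor; linarith
    have h1 := card_le_card hsub
    rw [Nat.card_Icc] at h1
    rcases le_total (⌈μ - lam⌉₊) (⌊μ + lam⌋₊ + 1) with hh | hh
    · have h2 : (F.card : ℝ) ≤ ((⌊μ + lam⌋₊ + 1 - ⌈μ - lam⌉₊ : ℕ) : ℝ) := by exact_mod_cast h1
      rw [Nat.cast_sub hh] at h2
      push_cast at h2
      have h3 : (⌊μ + lam⌋₊ : ℝ) ≤ μ + lam := Nat.floor_le hμ
      have h4 : μ - lam ≤ ⌈μ - lam⌉₊ := Nat.le_ceil _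
      linarith
    · rw [Nat.sub_eq_zero_of_le hh] at h1
      have : F.card = 0 := by omega
      rw [this]; push_cast; linarith

/-- some layer is large -/
theorem exists_large_layer (lam : ℝ) (hlam : 0 < lam) (hP : 4 * ((pairs G).card : ℝ) ≤ lam ^ 2) :
    ∃ r : ℕ, 3 / 4 * ((Q G).card : ℝ)
      ≤ (2 * lam + 1) * (((Q G).filter (fun A => A.card = r)).card : ℝ) := by
  have hQpos : (0 : ℝ) < (Q G).card := by exact_mod_cast card_pos.mpr ⟨_, Q_nonempty⟩
  set q : ℝ := ((Q G).card : ℝ) with hq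
  set μ : ℝ := (∑ A ∈ Q G, (A.card : ℝ)) / q with hμ
  have hvar : ∑ A ∈ Q G, ((A.card : ℝ) - μ) ^ 2 ≤ q * (pairs G).card := by
    have h1 := var_bound (G := G)
    rw [← hq] at h1
    have hs : ∑ A ∈ Q G, (A.card : ℝ) = μ * q := by rw [hμ]; field_simp
    have e : ∑ A ∈ Q G, ((A.card : ℝ) - μ) ^ 2
        = ∑ A ∈ Q G, (A.card : ℝ) ^ 2 - 2 * μ * (∑ A ∈ Q G, (A.card : ℝ)) + q * μ ^ 2 := by
      have : ∀ A ∈ Q G, ((A.card : ℝ) - μ) ^ 2 = (A.card : ℝ) ^ 2 - 2 * μ * A.card + μ ^ 2 := by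
        intro A _; ring
      rw [sum_congr rfl this, sum_add_distrib, sum_sub_distrib, ← mul_sum, sum_const, nsmul_eq_mul]
    rw [hs] at h1 e
    have h2 : q * (∑ A ∈ Q G, ((A.card : ℝ) - μ) ^ 2) ≤ q * (q * (pairs G).card) := by
      rw [e]
      calc q * (∑ A ∈ Q G, (A.card : ℝ) ^ 2 - 2 * μ * (μ * q) + q * μ ^ 2)
          = q * ∑ A ∈ Q G, (A.card : ℝ) ^ 2 - (μ * q) ^ 2 := by ring
        _ ≤ q ^ 2 * (pairs G).card := h1
        _ = _ := by ring
    exact le_of_mul_le_mul_left h2 hQpos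
  -- Chebyshev
  have hfar : (((Q G).filter (fun A => ¬ |(A.card : ℝ) - μ| ≤ lam)).card : ℝ) ≤ q / 4 := by
    have h1 : (((Q G).filter (fun A => ¬ |(A.card : ℝ) - μ| ≤ lam)).card : ℝ) * lam ^ 2
        ≤ q * (pairs G).card := by
      refine le_trans ?_ hvar
      calc (((Q G).filter (fun A => ¬ |(A.card : ℝ) - μ| ≤ lam)).card : ℝ) * lam ^ 2
          = ∑ _A ∈ (Q G).filter (fun A => ¬ |(A.card : ℝ) - μ| ≤ lam), lam ^ 2 := by
            rw [sum_const, nsmul_eq_mul]
        _ ≤ ∑ A ∈ (Q G).filter (fun A => ¬ |(A.card : ℝ) - μ| ≤ lam), ((A.card : ℝ) - μ) ^ 2 := by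
            apply sum_le_sum
            intro A hA
            have := (mem_filter.mp hA).2
            push Not at this
            rw [← sq_abs ((A.card : ℝ) - μ)]
            exact pow_le_pow_left₀ hlam.le this.le 2
        _ ≤ _ := by
            apply sum_le_sum_of_subset_of_nonneg (filter_subset _ _)
            intro A _ _; positivity
    have h2 : (((Q G).filter (fun A => ¬ |(A.card : ℝ) - μ| ≤ lam)).card : ℝ) * lam ^ 2
        ≤ q / 4 * lam ^ 2 := by
      refine h1.trans ?_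
      have := mul_le_mul_of_nonneg_left hP hQpos.le
      linarith
    exact le_of_mul_le_mul_right h2 (by positivity)
  have hnear : 3 / 4 * q ≤ (((Q G).filter (fun A => |(A.card : ℝ) - μ| ≤ lam)).card : ℝ) := by
    have h1 := card_filter_add_card_filter_not (s := Q G) (fun A : Finset V => |(A.card : ℝ) - μ| ≤ lam)
    have h2 : (((Q G).filter (fun A => |(A.card : ℝ) - μ| ≤ lam)).card : ℝ)
        + (((Q G).filter (fun A => ¬ |(A.card : ℝ) - μ| ≤ lam)).card : ℝ) = q := by
      rw [hq]; exact_mod_cast h1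
    linarith
  by_contra hcon
  push Not at hcon
  -- sizes occurring
  set F : Finset ℕ := ((Q G).filter (fun A => |(A.card : ℝ) - μ| ≤ lam)).image card with hF
  have hFc : (F.card : ℝ) ≤ 2 * lam + 1 := by
    apply nat_window_card F μ lam hlam.le
    intro r hr
    obtain ⟨A, hA, rfl⟩ := mem_image.mp hr
    exact (mem_filter.mp hA).2
  have hsum : (((Q G).filter (fun A => |(A.card : ℝ) - μ| ≤ lam)).card : ℝ)
      ≤ ∑ r ∈ F, (((Q G).filter (fun A => A.card = r)).card : ℝ) := by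
    have h1 : ((Q G).filter (fun A => |(A.card : ℝ) - μ| ≤ lam)).card
        = ∑ r ∈ F, (((Q G).filter (fun A => |(A.card : ℝ) - μ| ≤ lam)).filter (fun A => A.card = r)).card :=
      card_eq_sum_card_fiberwise (fun A hA => by
        rw [hF]; exact mem_coe.mpr (mem_image_of_mem _ hA))
    rw [h1]
    push_cast
    apply sum_le_sum
    intro r _
    norm_cast
    apply card_le_card
    intro A hA
    rw [mem_filter] at hA ⊢
    exact ⟨(mem_filter.mp hA.1).1, hA.2⟩
  have hFne : F.Nonempty := by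
    rw [Finset.nonempty_iff_ne_empty]
    intro h0
    rw [h0] at hsum
    simp at hsum
    have : 0 < 3 / 4 * q := by positivity
    have h3 : (((Q G).filter (fun A => |(A.card : ℝ) - μ| ≤ lam)).card : ℝ) ≤ 0 := by
      have : ((Q G).filter (fun A => |(A.card : ℝ) - μ| ≤ lam)) = ∅ := by
        rw [filter_eq_empty_iff]
        intro A hA; simpa using hsum hA
      rw [this]; simp
    linarith
  have hlt : ∑ r ∈ F, (((Q G).filter (fun A => A.card = r)).card : ℝ)
      < ∑ _r ∈ F, 3 / 4 * q / (2 * lam + 1) := by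
    apply sum_lt_sum_of_nonempty hFne
    intro r _
    rw [lt_div_iff₀ (by positivity)]
    have := hcon r
    linarith
  rw [sum_const, nsmul_eq_mul] at hlt
  have : (F.card : ℝ) * (3 / 4 * q / (2 * lam + 1)) ≤ (2 * lam + 1) * (3 / 4 * q / (2 * lam + 1)) := by
    gcongr
  have e : (2 * lam + 1) * (3 / 4 * q / (2 * lam + 1)) = 3 / 4 * q := by
    field_simp
  linarith

end graph

end Pool.Agent.Helper472
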