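import Mathlib
import Pool.Agent.Helper472.Spread

set_option autoImplicit false

namespace Pool.Agent.Helper472

open Finset Classical

/-- the size of the largest antichain of independent sets -/
noncomputable def sS {n : ℕ} (G : SimpleGraph (Fin n)) : ℕ :=
  sSup {k : ℕ | ∃ A : Finset (Finset (Fin n)),
                  IsAntichain (· ⊆ ·) (↑A : Set (Finset (Fin n))) ∧
                  (∀ s ∈ A, G.IsIndepSet (↑s : Set (Fin n))) ∧ A.card = k}

/-- the size of the largest layer -/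
noncomputable def mL {n : ℕ} (G : SimpleGraph (Fin n)) : ℕ :=
  sSup {k : ℕ | ∃ r : ℕ,
                  k = {s : Finset (Fin n) | G.IsIndepSet (↑s : Set (Fin n)) ∧ s.card = r}.ncard}

theorem ncard_layer {n : ℕ} (G : SimpleGraph (Fin n)) (r : ℕ) :
    {s : Finset (Fin n) | G.IsIndepSet (↑s : Set (Fin n)) ∧ s.card = r}.ncard
      = ((Q G).filter (fun A => A.card = r)).card := by
  rw [← Set.ncard_coe_finset]
  congr 1
  ext s
  simp [Q]

theorem mL_eq {n : ℕ} (G : SimpleGraph (Fin n)) :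
    ∃ r : ℕ, mL G = ((Q G).filter (fun A => A.card = r)).card := by
  have hne : {k : ℕ | ∃ r : ℕ,
      k = {s : Finset (Fin n) | G.IsIndepSet (↑s : Set (Fin n)) ∧ s.card = r}.ncard}.Nonempty :=
    ⟨_, 0, rfl⟩
  have hbdd : BddAbove {k : ℕ | ∃ r : ℕ,
      k = {s : Finset (Fin n) | G.IsIndepSet (↑s : Set (Fin n)) ∧ s.card = r}.ncard} := by
    refine ⟨(Q G).card, ?_⟩
    rintro k ⟨r, rfl⟩
    rw [ncard_layer]
    exact card_filter_le _ _
  obtain ⟨r, hr⟩ := Nat.sSup_mem hne hbdd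
  exact ⟨r, by rw [← ncard_layer]; exact hr⟩

theorem le_sS {n : ℕ} (G : SimpleGraph (Fin n)) (A : Finset (Finset (Fin n)))
    (h1 : IsAntichain (· ⊆ ·) (↑A : Set (Finset (Fin n))))
    (h2 : A ⊆ Q G) : A.card ≤ sS G := by
  unfold sS
  apply le_csSup
  · refine ⟨(Q G).card, ?_⟩
    rintro k ⟨B, _, hB, rfl⟩
    apply card_le_card
    intro s hs
    exact mem_Q_iff.mpr (hB s hs)
  · refine ⟨A, h1, ?_, rfl⟩
    intro s hs
    exact mem_Q_iff.mp (h2 hs)

/-- the deterministic statement -/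
theorem det (β K : ℝ) (hβ : 0 < β) (hK : 0 < K) : ∃ ε : ℝ, 0 < ε ∧ ∃ N0 : ℕ, ∀ n : ℕ, N0 ≤ n →
    ∀ G : SimpleGraph (Fin n), β * n ≤ (ctr G).card → ((pairs G).card : ℝ) ≤ K * n →
      (1 + ε) * (mL G : ℝ) < (sS G : ℝ) := by
  obtain ⟨ε, hε, S0, hana⟩ := analysis (3 / 20 * Real.sqrt (β / K)) (by positivity)
  refine ⟨ε, hε, ⌈max (S0 ^ 2 / β) (1 / K)⌉₊ + 1, ?_⟩
  intro n hn G hctr hpairs
  have hn' : max (S0 ^ 2 / β) (1 / K) < n := by
    have := Nat.le_ceil (max (S0 ^ 2 / β) (1 / K))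
    have h2 : ((⌈max (S0 ^ 2 / β) (1 / K)⌉₊ + 1 : ℕ) : ℝ) ≤ n := by exact_mod_cast hn
    push_cast at h2
    linarith
  have hn1 : S0 ^ 2 < β * n := by
    have := lt_of_le_of_lt (le_max_left _ _) hn'
    rw [div_lt_iff₀ hβ] at this; linarith
  have hn2 : 1 < K * n := by
    have := lt_of_le_of_lt (le_max_right _ _) hn'
    rw [div_lt_iff₀ hK] at this; linarith
  have hnpos : (0 : ℝ) < n := by
    by_contra h0
    push Not at h0
    nlinarith
  set m := (ctr G).card with hm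
  have hmS : S0 ≤ Real.sqrt m := by
    apply Real.le_sqrt_of_sq_le
    linarith
  have hmpos : (0 : ℝ) < m := lt_of_lt_of_le (by positivity) hctr
  -- a large layer
  set lam : ℝ := 2 * Real.sqrt (K * n) with hlam
  have hlampos : 0 < lam := by positivity
  obtain ⟨r0, hr0⟩ := exists_large_layer (G := G) lam hlampos (by
    rw [hlam, mul_pow, Real.sq_sqrt (by positivity)]; linarith)
  -- best layer
  obtain ⟨r1, hr1⟩ := mL_eq G
  have hbest : ∀ r, ((Q G).filter (fun A => A.card = r)).card ≤ mL G := by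
    intro r
    unfold mL
    apply le_csSup
    · refine ⟨(Q G).card, ?_⟩
      rintro k ⟨r, rfl⟩
      rw [ncard_layer]
      exact card_filter_le _ _
    · exact ⟨r, (ncard_layer G r).symm⟩
  have hQpos : (0 : ℝ) < (Q G).card := by exact_mod_cast card_pos.mpr ⟨_, Q_nonempty⟩
  -- level sets
  have hlev : ∀ t : ℤ, ((lev G t).card : ℝ)
      = (Q G).card * ∑ j ∈ range (m + 1), w m j *
          h (Z0 G) (fun Z => (Z.card : ℤ)) (m - j) (t - 2 * m) := by
    intro t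
    rw [lev_card, ← card_Q]
  have hlay : (((Q G).filter (fun A => A.card = r1)).card : ℝ)
      = (Q G).card * ∑ j ∈ range (m + 1), w m j *
          h (Z0 G) (fun Z => (Z.card : ℤ)) (m - j) (((r1 : ℤ) - 2 * m) + j) := by
    rw [lay_card, ← card_Q]
  have hα : 3 / 20 * Real.sqrt (β / K) / Real.sqrt m
      ≤ ∑ j ∈ range (m + 1), w m j *
          h (Z0 G) (fun Z => (Z.card : ℤ)) (m - j) (((r1 : ℤ) - 2 * m) + j) := by
    have h1 : 3 / 4 * ((Q G).card : ℝ) ≤ (2 * lam + 1) * (mL G : ℝ) := by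
      refine hr0.trans ?_
      apply mul_le_mul_of_nonneg_left _ (by positivity)
      exact_mod_cast hbest r0
    rw [hr1, hlay] at h1
    have h2 : 3 / 4 ≤ (2 * lam + 1) * ∑ j ∈ range (m + 1), w m j *
          h (Z0 G) (fun Z => (Z.card : ℤ)) (m - j) (((r1 : ℤ) - 2 * m) + j) := by
      have : (Q G).card * (3 / 4 : ℝ) ≤ (Q G).card * ((2 * lam + 1) * ∑ j ∈ range (m + 1), w m j *
          h (Z0 G) (fun Z => (Z.card : ℤ)) (m - j) (((r1 : ℤ) - 2 * m) + j)) := by
        linarith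
      exact le_of_mul_le_mul_left this hQpos
    have h3 : 2 * lam + 1 ≤ 5 * Real.sqrt (K * n) := by
      have : 1 ≤ Real.sqrt (K * n) := Real.one_le_sqrt.mpr hn2.le
      rw [hlam]; linarith
    have h4 : 0 ≤ ∑ j ∈ range (m + 1), w m j *
          h (Z0 G) (fun Z => (Z.card : ℤ)) (m - j) (((r1 : ℤ) - 2 * m) + j) :=
      sum_nonneg (fun j _ => mul_nonneg (w_nonneg _ _) (h_nonneg _ _ _ _))
    have h5 : 3 / 4 ≤ 5 * Real.sqrt (K * n) * ∑ j ∈ range (m + 1), w m j *
          h (Z0 G) (fun Z => (Z.card : ℤ)) (m - j) (((r1 : ℤ) - 2 * m) + j) :=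
      h2.trans (mul_le_mul_of_nonneg_right h3 h4)
    have h6 : Real.sqrt (β / K) * Real.sqrt (K * n) ≤ Real.sqrt m := by
      rw [← Real.sqrt_mul (by positivity)]
      apply Real.sqrt_le_sqrt
      have : β / K * (K * n) = β * n := by field_simp
      rw [this]; exact hctr
    rw [div_le_iff₀ (Real.sqrt_pos.mpr hmpos)]
    set Sg := ∑ j ∈ range (m + 1), w m j *
          h (Z0 G) (fun Z => (Z.card : ℤ)) (m - j) (((r1 : ℤ) - 2 * m) + j) with hSg
    clear_value Sg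
    have h7 : 3 / 20 ≤ Real.sqrt (K * n) * Sg := by linarith
    calc 3 / 20 * Real.sqrt (β / K) ≤ (Real.sqrt (K * n) * Sg) * Real.sqrt (β / K) := by gcongr
      _ = Sg * (Real.sqrt (β / K) * Real.sqrt (K * n)) := by ring
      _ ≤ Sg * Real.sqrt m := by gcongr
  obtain ⟨x, hx⟩ := hana m hmS (Z0 G) (fun Z => (Z.card : ℤ)) ((r1 : ℤ) - 2 * m) hα
  have hT := hlev (x + 2 * m)
  have e1 : x + 2 * (m : ℤ) - 2 * m = x := by ring
  rw [e1] at hT
  have hle := le_sS G _ (lev_antichain (G := G) (x + 2 * m)) (filter_subset _ _)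
  have hle' : ((lev G (x + 2 * m)).card : ℝ) ≤ sS G := by exact_mod_cast hle
  refine lt_of_lt_of_le ?_ hle'
  rw [hT, hr1, hlay]
  calc (1 + ε) * ((Q G).card * ∑ j ∈ range (m + 1), w m j *
          h (Z0 G) (fun Z => (Z.card : ℤ)) (m - j) (((r1 : ℤ) - 2 * m) + j))
      = (Q G).card * ((1 + ε) * ∑ j ∈ range (m + 1), w m j *
          h (Z0 G) (fun Z => (Z.card : ℤ)) (m - j) (((r1 : ℤ) - 2 * m) + j)) := by ring
    _ < _ := mul_lt_mul_of_pos_left hx hQpos

end Pool.Agent.Helper472
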