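import Mathlib
import Pool.Agent.Helper472.Det

set_option autoImplicit false

namespace Pool.Agent.Helper472

open Finset Classical

/-- weight of a finite set of edges -/
noncomputable def wtS (N : ℕ) (p : ℝ) (k : ℕ) : ℝ := p ^ k * (1 - p) ^ (N - k)

theorem cyl_sum {α : Type} (E E1 E0 : Finset α) (p : ℝ) (h1 : E1 ⊆ E) (h0 : E0 ⊆ E)
    (hd : Disjoint E1 E0) :
    ∑ S ∈ E.powerset.filter (fun S => E1 ⊆ S ∧ Disjoint E0 S), wtS E.card p S.card
      = p ^ E1.card * (1 - p) ^ E0.card := by
  set R := E \ (E1 ∪ E0) with hR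
  have hcard : E.card = E1.card + E0.card + R.card := by
    have hu : E1 ∪ E0 ⊆ E := union_subset h1 h0
    have := card_sdiff_add_card_eq_card hu
    rw [card_union_of_disjoint hd] at this
    rw [hR]; omega
  have hbij : ∑ S ∈ E.powerset.filter (fun S => E1 ⊆ S ∧ Disjoint E0 S), wtS E.card p S.card
      = ∑ T ∈ R.powerset, wtS E.card p (E1 ∪ T).card := by
    refine sum_nbij' (fun S => S \ E1) (fun T => E1 ∪ T) ?_ ?_ ?_ ?_ ?_
    · intro S hS
      simp only [mem_filter, mem_powerset] at hS
      obtain ⟨hSE, hS1, hS0⟩ := hS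
      rw [mem_powerset]
      intro x hx
      obtain ⟨hxS, hx1⟩ := mem_sdiff.mp hx
      rw [hR, mem_sdiff, mem_union]
      exact ⟨hSE hxS, fun h => h.elim hx1 (fun h => disjoint_left.mp hS0 h hxS)⟩
    · intro T hT
      rw [mem_powerset] at hT
      simp only [mem_filter, mem_powerset]
      refine ⟨union_subset h1 (hT.trans sdiff_subset), subset_union_left, ?_⟩
      rw [disjoint_union_right]
      refine ⟨hd.symm, ?_⟩
      rw [disjoint_right]
      intro x hx
      have := (mem_sdiff.mp (hT hx)).2
      rw [mem_union] at this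
      tauto
    · intro S hS
      simp only [mem_filter, mem_powerset] at hS
      exact union_sdiff_of_subset hS.2.1
    · intro T hT
      rw [mem_powerset] at hT
      ext x
      rw [mem_sdiff, mem_union]
      constructor
      · rintro ⟨h | h, h2⟩
        · exact absurd h h2
        · exact h
      · intro h
        have := (mem_sdiff.mp (hT h)).2
        rw [mem_union] at this
        exact ⟨Or.inr h, fun h' => this (Or.inl h')⟩
    · intro S hS
      simp only [mem_filter, mem_powerset] at hS
      rw [union_sdiff_of_subset hS.2.1]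
  rw [hbij]
  have hterm : ∀ T ∈ R.powerset, wtS E.card p (E1 ∪ T).card
      = (p ^ E1.card * (1 - p) ^ E0.card) * (p ^ T.card * (1 - p) ^ (R.card - T.card)) := by
    intro T hT
    rw [mem_powerset] at hT
    have hdT : Disjoint E1 T := by
      rw [disjoint_right]
      intro x hx h
      have := (mem_sdiff.mp (hT hx)).2
      rw [mem_union] at this
      exact this (Or.inl h)
    have hTc := card_le_card hT
    unfold wtS
    rw [card_union_of_disjoint hdT, hcard]
    have e : E1.card + E0.card + R.card - (E1.card + T.card) = E0.card + (R.card - T.card) := by omega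
    rw [e, pow_add, pow_add]; ring
  rw [sum_congr rfl hterm, ← mul_sum, sum_pow_mul_eq_add_pow]
  simp

section
variable (n : ℕ)

/-- all possible edges -/
noncomputable def allE : Finset (Sym2 (Fin n)) := univ.filter (fun e => ¬ e.IsDiag)

theorem allE_card : (allE n).card = n.choose 2 := by
  have := Sym2.card_subtype_not_diag (α := Fin n)
  rw [Fintype.card_fin] at this
  rw [← this, allE, Fintype.card_subtype]

variable {n}

/-- the edge set as a finset -/
noncomputable def ed (G : SimpleGraph (Fin n)) : Finset (Sym2 (Fin n)) :=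
  univ.filter (fun e => e ∈ G.edgeSet)

theorem ed_card (G : SimpleGraph (Fin n)) : (ed G).card = G.edgeSet.ncard := by
  rw [← Set.ncard_coe_finset]
  congr 1
  ext e; simp [ed]

theorem ed_sub (G : SimpleGraph (Fin n)) : ed G ⊆ allE n := by
  intro e he
  simp only [ed, mem_filter, mem_univ, true_and] at he
  simp only [allE, mem_filter, mem_univ, true_and]
  exact G.not_isDiag_of_mem_edgeSet he

theorem sum_graph (F : Finset (Sym2 (Fin n)) → ℝ) :
    ∑ G : SimpleGraph (Fin n), F (ed G) = ∑ S ∈ (allE n).powerset, F S := by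
  refine sum_nbij' (fun G => ed G) (fun S => SimpleGraph.fromEdgeSet (S : Set (Sym2 (Fin n)))) ?_ ?_ ?_ ?_ ?_
  · intro G _
    exact mem_powerset.mpr (ed_sub G)
  · intro S _; exact mem_univ _
  · intro G _
    have : ((ed G : Finset (Sym2 (Fin n))) : Set (Sym2 (Fin n))) = G.edgeSet := by
      ext e; simp [ed]
    rw [this, SimpleGraph.fromEdgeSet_edgeSet]
  · intro S hS
    rw [mem_powerset] at hS
    ext e
    simp only [ed, mem_filter, mem_univ, true_and, SimpleGraph.edgeSet_fromEdgeSet, Set.mem_sdiff,
      mem_coe]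
    constructor
    · exact fun h => h.1
    · intro h
      refine ⟨h, ?_⟩
      have := hS h
      simp only [allE, mem_filter, mem_univ, true_and] at this
      exact this
  · intro G _; rfl

/-- probability weight of a graph -/
noncomputable def wt (p : ℝ) (G : SimpleGraph (Fin n)) : ℝ :=
  p ^ G.edgeSet.ncard * (1 - p) ^ (n.choose 2 - G.edgeSet.ncard)

theorem wt_eq (p : ℝ) (G : SimpleGraph (Fin n)) : wt p G = wtS (allE n).card p (ed G).card := by
  unfold wt wtS; rw [ed_card, allE_card]

theorem wt_nonneg {p : ℝ} (h0 : 0 ≤ p) (h1 : p ≤ 1) (G : SimpleGraph (Fin n)) : 0 ≤ wt p G := by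
  unfold wt
  have : 0 ≤ 1 - p := by linarith
  positivity

theorem cyl_prob (p : ℝ) (E1 E0 : Finset (Sym2 (Fin n))) (h1 : E1 ⊆ allE n) (h0 : E0 ⊆ allE n)
    (hd : Disjoint E1 E0) :
    ∑ G : SimpleGraph (Fin n), (if E1 ⊆ ed G ∧ Disjoint E0 (ed G) then wt p G else 0)
      = p ^ E1.card * (1 - p) ^ E0.card := by
  rw [← cyl_sum (allE n) E1 E0 p h1 h0 hd, sum_filter, ← sum_graph]
  apply sum_congr rfl
  intro G _
  rw [wt_eq]
  by_cases hh : E1 ⊆ ed G ∧ Disjoint E0 (ed G)
  · rw [if_pos hh, if_pos hh]
  · rw [if_neg hh, if_neg hh]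

theorem wt_sum (p : ℝ) : ∑ G : SimpleGraph (Fin n), wt p G = 1 := by
  have := cyl_prob (n := n) p ∅ ∅ (by simp) (by simp) (by simp)
  simpa using this

theorem adj_iff_ed {G : SimpleGraph (Fin n)} {a b : Fin n} : s(a, b) ∈ ed G ↔ G.Adj a b := by
  simp [ed]

/-! ### expected number of star components -/

/-- edges of the star -/
noncomputable def starE (c : Fin n) (L : Finset (Fin n)) : Finset (Sym2 (Fin n)) :=
  L.image (fun l => s(c, l))

/-- other edges meeting the star -/
noncomputable def starO (c : Fin n) (L : Finset (Fin n)) : Finset (Sym2 (Fin n)) :=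
  (((insert c L) ×ˢ (univ : Finset (Fin n))).image (fun q => s(q.1, q.2))).filter
    (fun e => ¬ e.IsDiag ∧ e ∉ starE c L)

theorem starE_card (c : Fin n) (L : Finset (Fin n)) : (starE c L).card = L.card := by
  unfold starE
  apply card_image_of_injOn
  intro a _ b _ hab
  exact Sym2.congr_right.mp hab

theorem starO_card (c : Fin n) (L : Finset (Fin n)) (hL : L.card = 4) :
    (starO c L).card ≤ 5 * n := by
  unfold starO
  calc _ ≤ (((insert c L) ×ˢ (univ : Finset (Fin n))).image (fun q => s(q.1, q.2))).card :=
        card_filter_le _ _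
    _ ≤ ((insert c L) ×ˢ (univ : Finset (Fin n))).card := card_image_le
    _ = (insert c L).card * n := by rw [card_product, card_univ, Fintype.card_fin]
    _ ≤ 5 * n := by
        apply Nat.mul_le_mul_right
        have := card_insert_le c L
        omega

theorem star_ctr {G : SimpleGraph (Fin n)} {c : Fin n} {L : Finset (Fin n)} (hL : L.card = 4)
    (h1 : starE c L ⊆ ed G) (h0 : Disjoint (starO c L) (ed G)) :
    nb G c = L ∧ c ∈ ctr G := by
  have key : ∀ a ∈ insert c L, ∀ b, G.Adj a b → s(a, b) ∈ starE c L := by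
    intro a ha b hab
    by_contra hcon
    have : s(a, b) ∈ starO c L := by
      unfold starO
      rw [mem_filter]
      refine ⟨mem_image.mpr ⟨(a, b), by simp [ha], rfl⟩, ?_, hcon⟩
      simpa using hab.ne
    exact disjoint_left.mp h0 this (adj_iff_ed.mpr hab)
  have hcL : c ∉ L := by
    intro hc
    have : s(c, c) ∈ ed G := h1 (by unfold starE; exact mem_image.mpr ⟨c, hc, rfl⟩)
    rw [adj_iff_ed] at this
    exact G.irrefl this
  have hnb : nb G c = L := by
    ext v
    rw [mem_nb]
    constructor
    · intro h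
      have := key c (mem_insert_self _ _) v h
      unfold starE at this
      obtain ⟨l, hl, hl2⟩ := mem_image.mp this
      have : l = v := Sym2.congr_right.mp hl2
      rwa [← this]
    · intro h
      rw [← adj_iff_ed]
      exact h1 (by unfold starE; exact mem_image.mpr ⟨v, h, rfl⟩)
  refine ⟨hnb, ?_⟩
  rw [mem_ctr]
  refine ⟨by rw [hnb]; exact hL, ?_⟩
  intro l hl
  rw [hnb] at hl
  have hlc : l ≠ c := by rintro rfl; exact hcL hl
  ext v
  rw [mem_nb, mem_singleton]
  constructor
  · intro h
    have := key l (mem_insert_of_mem hl) v h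
    unfold starE at this
    obtain ⟨l', hl', hl2⟩ := mem_image.mp this
    rw [Sym2.eq_iff] at hl2
    rcases hl2 with ⟨h3, h4⟩ | ⟨h3, h4⟩
    · exact absurd h3.symm hlc
    · exact h3.symm
  · rintro rfl
    rw [G.adj_comm, ← adj_iff_ed]
    exact h1 (by unfold starE; exact mem_image.mpr ⟨l, hl, rfl⟩)

theorem exp_ctr (p : ℝ) (h0 : 0 ≤ p) (h1 : p ≤ 1) :
    (n : ℝ) * ((n - 1).choose 4) * (p ^ 4 * (1 - p) ^ (5 * n))
      ≤ ∑ G : SimpleGraph (Fin n), wt p G * (ctr G).card := by
  have hq : 0 ≤ 1 - p := by linarith
  have hq1 : 1 - p ≤ 1 := by linarith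
  -- lower bound for card ctr
  have hlow : ∀ G : SimpleGraph (Fin n),
      ∑ c : Fin n, ∑ L ∈ powersetCard 4 (univ.erase c),
        (if starE c L ⊆ ed G ∧ Disjoint (starO c L) (ed G) then (1 : ℝ) else 0) ≤ (ctr G).card := by
    intro G
    have e : ((ctr G).card : ℝ) = ∑ c : Fin n, (if c ∈ ctr G then (1 : ℝ) else 0) := by
      rw [sum_boole]; simp
    rw [e]
    apply sum_le_sum
    intro c _
    by_cases hc : ∃ L ∈ powersetCard 4 (univ.erase c), starE c L ⊆ ed G ∧ Disjoint (starO c L) (ed G)
    · obtain ⟨L0, hL0, hL1⟩ := hc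
      have hL0c := (mem_powersetCard.mp hL0).2
      obtain ⟨hnb, hctr⟩ := star_ctr hL0c hL1.1 hL1.2
      rw [if_pos hctr]
      rw [sum_eq_single L0]
      · rw [if_pos hL1]
      · intro L hL hne
        rw [if_neg]
        intro hL2
        have := (star_ctr (mem_powersetCard.mp hL).2 hL2.1 hL2.2).1
        exact hne (this.symm.trans hnb)
      · intro h; exact absurd hL0 h
    · push Not at hc
      rw [sum_eq_zero]
      · split_ifs <;> norm_num
      · intro L hL
        rw [if_neg]
        intro h
        exact hc L hL h.1 h.2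
  calc (n : ℝ) * ((n - 1).choose 4) * (p ^ 4 * (1 - p) ^ (5 * n))
      = ∑ c : Fin n, ∑ L ∈ powersetCard 4 (univ.erase c), (p ^ 4 * (1 - p) ^ (5 * n)) := by
        simp only [sum_const, card_powersetCard, card_erase_of_mem (mem_univ _), card_univ,
          Fintype.card_fin, nsmul_eq_mul]
        ring
    _ ≤ ∑ c : Fin n, ∑ L ∈ powersetCard 4 (univ.erase c),
          ∑ G : SimpleGraph (Fin n),
            (if starE c L ⊆ ed G ∧ Disjoint (starO c L) (ed G) then wt p G else 0) := by
        apply sum_le_sum
        intro c _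
        apply sum_le_sum
        intro L hL
        obtain ⟨hL1, hL4⟩ := mem_powersetCard.mp hL
        rw [cyl_prob]
        · rw [starE_card, hL4]
          apply mul_le_mul_of_nonneg_left _ (by positivity)
          exact pow_le_pow_of_le_one hq hq1 (starO_card c L hL4)
        · intro e he
          unfold starE at he
          obtain ⟨l, hl, rfl⟩ := mem_image.mp he
          simp only [allE, mem_filter, mem_univ, true_and, Sym2.mk_isDiag_iff]
          have := hL1 hl
          exact (ne_of_mem_erase this).symm
        · intro e he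
          unfold starO at he
          simp only [allE, mem_filter, mem_univ, true_and]
          exact (mem_filter.mp he).2.1
        · rw [disjoint_right]
          intro e he
          unfold starO at he
          exact (mem_filter.mp he).2.2
    _ = ∑ G : SimpleGraph (Fin n), wt p G * ∑ c : Fin n, ∑ L ∈ powersetCard 4 (univ.erase c),
          (if starE c L ⊆ ed G ∧ Disjoint (starO c L) (ed G) then (1 : ℝ) else 0) := by
        rw [sum_congr rfl (fun c _ => sum_comm)]
        rw [sum_comm]
        apply sum_congr rfl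
        intro G _
        rw [mul_sum]
        apply sum_congr rfl
        intro c _
        rw [mul_sum]
        apply sum_congr rfl
        intro L _
        rw [mul_ite, mul_one, mul_zero]
    _ ≤ _ := by
        apply sum_le_sum
        intro G _
        exact mul_le_mul_of_nonneg_left (hlow G) (wt_nonneg h0 h1 G)

end

end Pool.Agent.Helper472
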