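import Mathlib
import Pool.Agent.Helper472.Prob

set_option autoImplicit false

namespace Pool.Agent.Helper472

open Finset Classical

/-- flip one coordinate -/
def flp {n : ℕ} (x : Fin n → Bool) (j : Fin n) : Fin n → Bool := Function.update x j (!x j)

theorem flp_flp {n : ℕ} (x : Fin n → Bool) (j : Fin n) : flp (flp x j) j = x := by
  funext k
  unfold flp
  by_cases h : k = j
  · subst h; simp
  · simp [Function.update_of_ne h]

theorem flp_inj {n : ℕ} {x : Fin n → Bool} {j k : Fin n} (h : flp x j = flp x k) : j = k := by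
  by_contra hne
  have := congrFun h j
  unfold flp at this
  rw [Function.update_self, Function.update_of_ne hne] at this
  cases hx : x j <;> simp [hx] at this

theorem flp_ne {n : ℕ} (x : Fin n → Bool) (j : Fin n) : flp x j ≠ x := by
  intro h
  have := congrFun h j
  unfold flp at this
  rw [Function.update_self] at this
  cases hx : x j <;> simp [hx] at this

/-- number of ones -/
def wgt {n : ℕ} (x : Fin n → Bool) : ℕ := (univ.filter (fun j => x j = true)).card

theorem hamming_one_iff {n : ℕ} (x y : Fin n → Bool) : hammingDist x y = 1 ↔ ∃ j, y = flp x j := by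
  unfold hammingDist
  rw [card_eq_one]
  constructor
  · rintro ⟨j, hj⟩
    refine ⟨j, ?_⟩
    funext k
    unfold flp
    have hk : k ∈ univ.filter (fun i => x i ≠ y i) ↔ k ∈ ({j} : Finset (Fin n)) := by
      rw [← hj]
    rw [mem_filter, mem_singleton] at hk
    by_cases h : k = j
    · subst h
      have h2 : x k ≠ y k := (hk.mpr rfl).2
      rw [Function.update_self]
      cases hx : x k <;> cases hy : y k <;> simp_all
    · rw [Function.update_of_ne h]
      by_contra h3
      exact h (hk.mp ⟨mem_univ _, fun h4 => h3 h4.symm⟩)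
  · rintro ⟨j, rfl⟩
    refine ⟨j, ?_⟩
    ext k
    simp only [mem_filter, mem_univ, true_and, mem_singleton]
    unfold flp
    constructor
    · intro h
      by_contra hne
      rw [Function.update_of_ne hne] at h
      exact absurd rfl h
    · rintro rfl
      rw [Function.update_self]
      cases x k <;> simp

section path
variable {n m : ℕ}

/-- the `i`-th vertex of the ascending path from `v` with directions `s` -/
def pt (v : Fin n → Bool) (s : Fin m → Fin n) (i : ℕ) : Fin n → Bool :=
  fun j => if ∃ k : Fin m, k.val < i ∧ s k = j then true else v j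

/-- admissible pairs: distinct directions, all currently zero -/
def Adm (v : Fin n → Bool) (s : Fin m → Fin n) : Prop :=
  Function.Injective s ∧ ∀ k, v (s k) = false

theorem pt_zero (v : Fin n → Bool) (s : Fin m → Fin n) : pt v s 0 = v := by
  funext j; simp [pt]

theorem pt_succ {v : Fin n → Bool} {s : Fin m → Fin n} (h : Adm v s) (k : Fin m) :
    pt v s (k.val + 1) = flp (pt v s k.val) (s k) := by
  funext j
  unfold flp
  by_cases hj : j = s k
  · subst hj
    rw [Function.update_self]
    have h1 : pt v s (k.val + 1) (s k) = true := by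
      unfold pt
      rw [if_pos ⟨k, by omega, rfl⟩]
    have h2 : pt v s k.val (s k) = false := by
      unfold pt
      rw [if_neg, h.2 k]
      rintro ⟨k', hk', he⟩
      have := h.1 he
      subst this
      omega
    rw [h1, h2]; rfl
  · rw [Function.update_of_ne hj]
    unfold pt
    apply if_congr _ rfl rfl
    constructor
    · rintro ⟨k', hk', he⟩
      refine ⟨k', ?_, he⟩
      rcases Nat.lt_succ_iff_lt_or_eq.mp hk' with h1 | h1
      · exact h1
      · exfalso
        apply hj
        rw [← he]
        congr 1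
        exact Fin.ext h1
    · rintro ⟨k', hk', he⟩
      exact ⟨k', by omega, he⟩

theorem wgt_pt {v : Fin n → Bool} {s : Fin m → Fin n} (h : Adm v s) {i : ℕ} (hi : i ≤ m) :
    wgt (pt v s i) = wgt v + i := by
  induction i with
  | zero => rw [pt_zero]; rfl
  | succ i ih =>
    have h1 := pt_succ h ⟨i, by omega⟩
    simp only at h1
    rw [h1]
    have h2 : pt v s i (s ⟨i, by omega⟩) = false := by
      unfold pt
      rw [if_neg, h.2]
      rintro ⟨k', hk', he⟩
      have := congrArg Fin.val (h.1 he)
      simp at this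
      omega
    have h3 : wgt (flp (pt v s i) (s ⟨i, by omega⟩)) = wgt (pt v s i) + 1 := by
      unfold wgt
      have : univ.filter (fun j => flp (pt v s i) (s ⟨i, by omega⟩) j = true)
          = insert (s ⟨i, by omega⟩) (univ.filter (fun j => pt v s i j = true)) := by
        ext j
        simp only [mem_filter, mem_univ, true_and, mem_insert]
        unfold flp
        by_cases hj : j = s ⟨i, by omega⟩
        · subst hj; simp [h2]
        · rw [Function.update_of_ne hj]; simp [hj]
      rw [this, card_insert_of_notMem]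
      simp [h2]
    rw [h3, ih (by omega)]
    omega

theorem pt_inj {v : Fin n → Bool} {s : Fin m → Fin n} (h : Adm v s) {i i' : ℕ} (hi : i ≤ m)
    (hi' : i' ≤ m) (he : pt v s i = pt v s i') : i = i' := by
  have h1 := wgt_pt h hi
  have h2 := wgt_pt h hi'
  rw [he] at h1
  omega

/-- vertex set of the path -/
def vs (v : Fin n → Bool) (s : Fin m → Fin n) : Finset (Fin n → Bool) :=
  (range (m + 1)).image (pt v s)

theorem mem_vs {v : Fin n → Bool} {s : Fin m → Fin n} {x : Fin n → Bool} :
    x ∈ vs v s ↔ ∃ i, i ≤ m ∧ pt v s i = x := by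
  unfold vs
  rw [mem_image]
  constructor
  · rintro ⟨i, hi, rfl⟩
    exact ⟨i, by have := mem_range.mp hi; omega, rfl⟩
  · rintro ⟨i, hi, rfl⟩
    exact ⟨i, mem_range.mpr (by omega), rfl⟩

theorem vs_card {v : Fin n → Bool} {s : Fin m → Fin n} (h : Adm v s) : (vs v s).card = m + 1 := by
  unfold vs
  rw [card_image_of_injOn, card_range]
  intro i hi i' hi' he
  have a := mem_range.mp (mem_coe.mp hi)
  have b := mem_range.mp (mem_coe.mp hi')
  exact pt_inj h (by omega) (by omega) he

/-- the vertex set determines the path -/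
theorem vs_inj {v v' : Fin n → Bool} {s s' : Fin m → Fin n} (h : Adm v s) (h' : Adm v' s')
    (he : vs v s = vs v' s') : v = v' ∧ s = s' := by
  -- v is the lightest element
  have hv : v = v' := by
    have h1 : v ∈ vs v' s' := by rw [← he, mem_vs]; exact ⟨0, by omega, pt_zero _ _⟩
    have h2 : v' ∈ vs v s := by rw [he, mem_vs]; exact ⟨0, by omega, pt_zero _ _⟩
    obtain ⟨i, hi, hi2⟩ := mem_vs.mp h1
    obtain ⟨i', hi', hi2'⟩ := mem_vs.mp h2
    have a := wgt_pt h' hi
    have b := wgt_pt h hi'
    rw [hi2] at a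
    rw [hi2'] at b
    have : i = 0 := by omega
    subst this
    rw [pt_zero] at hi2
    exact hi2.symm
  subst hv
  refine ⟨rfl, ?_⟩
  have hpt : ∀ i, i ≤ m → pt v s i = pt v s' i := by
    intro i hi
    have h1 : pt v s i ∈ vs v s' := by rw [← he, mem_vs]; exact ⟨i, hi, rfl⟩
    obtain ⟨i', hi', hi2⟩ := mem_vs.mp h1
    have a := wgt_pt h hi
    have b := wgt_pt h' hi'
    rw [hi2] at b
    have : i' = i := by omega
    subst this
    exact hi2.symm
  funext k
  have h1 := pt_succ h k
  have h2 := pt_succ h' k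
  rw [hpt (k.val + 1) (by omega), hpt k.val (by omega)] at h1
  exact flp_inj (h1.symm.trans h2)

/-- path edges -/
def pE (v : Fin n → Bool) (s : Fin m → Fin n) : Finset (Sym2 (Fin n → Bool)) :=
  univ.image (fun k : Fin m => s(pt v s k.val, pt v s (k.val + 1)))

/-- index pairs of the other edges meeting the path -/
noncomputable def tI (s : Fin m → Fin n) : Finset (Fin (m + 1) × Fin n) :=
  univ.filter (fun q => ∀ k : Fin m, q.2 = s k → q.1 ≠ k.castSucc ∧ q.1 ≠ k.succ)

/-- other edges meeting the path -/
noncomputable def nE (v : Fin n → Bool) (s : Fin m → Fin n) : Finset (Sym2 (Fin n → Bool)) :=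
  (tI s).image (fun q => s(pt v s q.1.val, flp (pt v s q.1.val) q.2))

theorem pE_card {v : Fin n → Bool} {s : Fin m → Fin n} (h : Adm v s) : (pE v s).card = m := by
  unfold pE
  rw [card_image_of_injective, card_univ, Fintype.card_fin]
  intro k k' he
  simp only [Sym2.eq_iff] at he
  rcases he with ⟨h1, _⟩ | ⟨h1, h2⟩
  · exact Fin.ext (pt_inj h (by omega) (by omega) h1)
  · have a := pt_inj h (by omega) (by omega) h1
    have b := pt_inj h (by omega) (by omega) h2
    omega

theorem tI_card (s : Fin m → Fin n) (hs : Function.Injective s) : (tI s).card + 2 * m = (m + 1) * n := by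
  have hc : (univ.filter (fun q : Fin (m + 1) × Fin n =>
      ¬ ∀ k : Fin m, q.2 = s k → q.1 ≠ k.castSucc ∧ q.1 ≠ k.succ))
      = (univ.image (fun k : Fin m => (k.castSucc, s k))) ∪ (univ.image (fun k : Fin m => (k.succ, s k))) := by
    ext ⟨i, j⟩
    simp only [mem_filter, mem_univ, true_and, mem_union, mem_image, Prod.mk.injEq]
    constructor
    · intro h
      push Not at h
      obtain ⟨k, hk, h2⟩ := h
      by_cases h3 : i = k.castSucc
      · left; exact ⟨k, h3.symm, hk.symm⟩
      · right; exact ⟨k, (h2 h3).symm, hk.symm⟩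
    · rintro (⟨k, hk, rfl⟩ | ⟨k, hk, rfl⟩) h
      · exact (h k rfl).1 hk.symm
      · exact (h k rfl).2 hk.symm
  have h1 : (univ.image (fun k : Fin m => (k.castSucc, s k))).card = m := by
    rw [card_image_of_injective, card_univ, Fintype.card_fin]
    intro k k' he
    simp only [Prod.mk.injEq] at he
    exact hs he.2
  have h2 : (univ.image (fun k : Fin m => (k.succ, s k))).card = m := by
    rw [card_image_of_injective, card_univ, Fintype.card_fin]
    intro k k' he
    simp only [Prod.mk.injEq] at he
    exact hs he.2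
  have h3 : Disjoint (univ.image (fun k : Fin m => (k.castSucc, s k)))
      (univ.image (fun k : Fin m => (k.succ, s k))) := by
    rw [disjoint_left]
    intro q hq hq'
    obtain ⟨k, _, rfl⟩ := mem_image.mp hq
    obtain ⟨k', _, he⟩ := mem_image.mp hq'
    simp only [Prod.mk.injEq] at he
    have := hs he.2
    subst this
    have := congrArg Fin.val he.1
    simp at this
  have h4 := card_filter_add_card_filter_not (s := (univ : Finset (Fin (m + 1) × Fin n)))
    (fun q => ∀ k : Fin m, q.2 = s k → q.1 ≠ k.castSucc ∧ q.1 ≠ k.succ)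
  rw [hc, card_union_of_disjoint h3, h1, h2, card_univ, Fintype.card_prod, Fintype.card_fin,
    Fintype.card_fin] at h4
  unfold tI
  omega

theorem mem_tI {s : Fin m → Fin n} {q : Fin (m + 1) × Fin n} :
    q ∈ tI s ↔ ∀ k : Fin m, q.2 = s k → q.1 ≠ k.castSucc ∧ q.1 ≠ k.succ := by
  unfold tI; rw [mem_filter]; simp

/-- if two path vertices differ by one flip then it is a path step -/
theorem pt_flp {v : Fin n → Bool} {s : Fin m → Fin n} (h : Adm v s) {i i' : ℕ} (hi : i ≤ m)
    (hi' : i' ≤ m) {j : Fin n} (he : pt v s i' = flp (pt v s i) j) :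
    ∃ k : Fin m, j = s k ∧ ((i = k.val ∧ i' = k.val + 1) ∨ (i = k.val + 1 ∧ i' = k.val)) := by
  rcases lt_trichotomy i i' with hlt | heq | hgt
  · -- i < i'
    have hk : i < m := by omega
    have h1 : pt v s i' (s ⟨i, hk⟩) = true := by
      unfold pt; rw [if_pos ⟨⟨i, hk⟩, hlt, rfl⟩]
    have h2 : pt v s i (s ⟨i, hk⟩) = false := by
      unfold pt
      rw [if_neg, h.2]
      rintro ⟨k', hk', he'⟩
      have := congrArg Fin.val (h.1 he')
      simp at this; omega
    have hj : s ⟨i, hk⟩ = j := by
      by_contra hne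
      rw [he] at h1
      unfold flp at h1
      rw [Function.update_of_ne hne, h2] at h1
      exact Bool.false_ne_true h1
    subst hj
    have h3 := pt_succ h ⟨i, hk⟩
    simp only at h3
    rw [← h3] at he
    have := pt_inj h hi' (by omega) he
    exact ⟨⟨i, hk⟩, rfl, Or.inl ⟨rfl, this⟩⟩
  · subst heq
    exact absurd he.symm (flp_ne _ _)
  · have he' : pt v s i = flp (pt v s i') j := by rw [he, flp_flp]
    have hk : i' < m := by omega
    have h1 : pt v s i (s ⟨i', hk⟩) = true := by
      unfold pt; rw [if_pos ⟨⟨i', hk⟩, hgt, rfl⟩]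
    have h2 : pt v s i' (s ⟨i', hk⟩) = false := by
      unfold pt
      rw [if_neg, h.2]
      rintro ⟨k', hk', he''⟩
      have := congrArg Fin.val (h.1 he'')
      simp at this; omega
    have hj : s ⟨i', hk⟩ = j := by
      by_contra hne
      rw [he'] at h1
      unfold flp at h1
      rw [Function.update_of_ne hne, h2] at h1
      exact Bool.false_ne_true h1
    subst hj
    have h3 := pt_succ h ⟨i', hk⟩
    simp only at h3
    rw [← h3] at he'
    have := pt_inj h hi (by omega) he'
    exact ⟨⟨i', hk⟩, rfl, Or.inr ⟨this, rfl⟩⟩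

theorem nE_card {v : Fin n → Bool} {s : Fin m → Fin n} (h : Adm v s) :
    (nE v s).card + 2 * m = (m + 1) * n := by
  rw [← tI_card s h.1]
  congr 1
  unfold nE
  apply card_image_of_injOn
  rintro ⟨i, j⟩ hq ⟨i', j'⟩ hq' he
  have hT := mem_tI.mp (mem_coe.mp hq)
  have hT' := mem_tI.mp (mem_coe.mp hq')
  simp only [Sym2.eq_iff] at he
  rcases he with ⟨h1, h2⟩ | ⟨h1, h2⟩
  · have a := pt_inj h (by omega) (by omega) h1
    have a' : i = i' := Fin.ext a
    subst a'
    rw [flp_inj h2]
  · exfalso
    obtain ⟨k, hj, hk⟩ := pt_flp h (by omega) (by omega) h2.symm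
    obtain ⟨c1, c2⟩ := hT k hj
    rcases hk with ⟨e1, _⟩ | ⟨e1, _⟩
    · exact c1 (Fin.ext (by simpa using e1))
    · exact c2 (Fin.ext (by simpa using e1))

theorem pE_nE_disj {v : Fin n → Bool} {s : Fin m → Fin n} (h : Adm v s) :
    Disjoint (pE v s) (nE v s) := by
  rw [disjoint_left]
  intro e he he'
  unfold pE at he
  unfold nE at he'
  obtain ⟨k, _, rfl⟩ := mem_image.mp he
  obtain ⟨⟨i, j⟩, hq, he2⟩ := mem_image.mp he'
  have hT := mem_tI.mp hq
  simp only [Sym2.eq_iff] at he2
  rcases he2 with ⟨h1, h2⟩ | ⟨h1, h2⟩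
  · have a := pt_inj h (by omega) (by omega) h1
    rw [a] at h2
    obtain ⟨k', hj, hk⟩ := pt_flp h (by omega) (by omega) h2.symm
    have hk' : k' = k := by rcases hk with ⟨e1, e2⟩ | ⟨e1, e2⟩ <;> exact Fin.ext (by omega)
    subst hk'
    exact (hT k' hj).1 (Fin.ext (by simpa using a))
  · have a := pt_inj h (by omega) (by omega) h1
    rw [a] at h2
    obtain ⟨k', hj, hk⟩ := pt_flp h (by omega) (by omega) h2.symm
    have hk' : k' = k := by rcases hk with ⟨e1, e2⟩ | ⟨e1, e2⟩ <;> exact Fin.ext (by omega)
    subst hk'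
    exact (hT k' hj).2 (Fin.ext (by simpa using a))

/-- every cube edge at a path vertex is a path edge or one of the others -/
theorem edge_cases {v : Fin n → Bool} {s : Fin m → Fin n} (h : Adm v s) {i : ℕ} (hi : i ≤ m)
    (j : Fin n) : s(pt v s i, flp (pt v s i) j) ∈ nE v s ∨
      (s(pt v s i, flp (pt v s i) j) ∈ pE v s ∧ flp (pt v s i) j ∈ vs v s) := by
  by_cases hT : ((⟨i, by omega⟩ : Fin (m + 1)), j) ∈ tI s
  · left
    unfold nE
    exact mem_image.mpr ⟨_, hT, rfl⟩
  · right
    rw [mem_tI] at hT
    push Not at hT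
    obtain ⟨k, hj, hk⟩ := hT
    simp only at hj
    subst hj
    have h3 := pt_succ h k
    by_cases h1 : i = k.val
    · subst h1
      rw [← h3]
      exact ⟨mem_image.mpr ⟨k, mem_univ _, rfl⟩, mem_vs.mpr ⟨k.val + 1, by omega, rfl⟩⟩
    · have h2 := hk (fun hc => h1 (by simpa using congrArg Fin.val hc))
      have h4 : i = k.val + 1 := by simpa using congrArg Fin.val h2
      subst h4
      rw [h3, flp_flp, Sym2.eq_swap, ← h3]
      exact ⟨mem_image.mpr ⟨k, mem_univ _, rfl⟩, mem_vs.mpr ⟨k.val, by omega, rfl⟩⟩

end path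

end Pool.Agent.Helper472
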