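import Mathlib
import Pool.Agent.Helper472.CubeA

set_option autoImplicit false

namespace Pool.Agent.Helper472

open Finset Classical

section comp
variable {n m : ℕ}

/-- the path event for a graph -/
def Ev (H : SimpleGraph (Fin n → Bool)) (v : Fin n → Bool) (s : Fin m → Fin n) : Prop :=
  (∀ e ∈ pE v s, e ∈ H.edgeSet) ∧ (∀ e ∈ nE v s, e ∉ H.edgeSet)

theorem closed_step {H : SimpleGraph (Fin n → Bool)}
    (hH : ∀ x y, H.Adj x y → hammingDist x y = 1) {v : Fin n → Bool} {s : Fin m → Fin n}
    (h : Adm v s) (hE : Ev H v s) {x y : Fin n → Bool} (hx : x ∈ vs v s) (hxy : H.Adj x y) :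
    y ∈ vs v s := by
  obtain ⟨i, hi, rfl⟩ := mem_vs.mp hx
  obtain ⟨j, rfl⟩ := (hamming_one_iff _ _).mp (hH _ _ hxy)
  rcases edge_cases h hi j with h1 | ⟨_, h2⟩
  · exact absurd ((SimpleGraph.mem_edgeSet H).mpr hxy) (hE.2 _ h1)
  · exact h2

theorem reach_iff {H : SimpleGraph (Fin n → Bool)}
    (hH : ∀ x y, H.Adj x y → hammingDist x y = 1) {v : Fin n → Bool} {s : Fin m → Fin n}
    (h : Adm v s) (hE : Ev H v s) (w : Fin n → Bool) : H.Reachable v w ↔ w ∈ vs v s := by
  constructor
  · intro hr
    obtain ⟨p⟩ := hr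
    have hv : v ∈ vs v s := mem_vs.mpr ⟨0, by omega, pt_zero _ _⟩
    have key : ∀ (a b : Fin n → Bool) (p : H.Walk a b), a ∈ vs v s → b ∈ vs v s := by
      intro a b p
      induction p with
      | nil => exact id
      | cons hadj _ ih => intro ha; exact ih (closed_step hH h hE ha hadj)
    exact key v w p hv
  · intro hw
    obtain ⟨i, hi, rfl⟩ := mem_vs.mp hw
    induction i with
    | zero => rw [pt_zero]
    | succ i ih =>
      have h1 := ih (by omega) (mem_vs.mpr ⟨i, by omega, rfl⟩)
      refine h1.trans ?_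
      have h2 : s(pt v s i, pt v s (i + 1)) ∈ pE v s := by
        unfold pE
        exact mem_image.mpr ⟨⟨i, by omega⟩, mem_univ _, rfl⟩
      have h3 := hE.1 _ h2
      rw [SimpleGraph.mem_edgeSet] at h3
      exact h3.reachable

theorem reach_iff' {H : SimpleGraph (Fin n → Bool)}
    (hH : ∀ x y, H.Adj x y → hammingDist x y = 1) {v : Fin n → Bool} {s : Fin m → Fin n}
    (h : Adm v s) (hE : Ev H v s) {x : Fin n → Bool} (hx : x ∈ vs v s) (w : Fin n → Bool) :
    H.Reachable x w ↔ w ∈ vs v s := by
  have h1 := (reach_iff hH h hE x).mpr hx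
  rw [← reach_iff hH h hE w]
  exact ⟨fun h2 => h1.trans h2, fun h2 => h1.symm.trans h2⟩

/-- two path events with intersecting vertex sets coincide -/
theorem ev_unique {H : SimpleGraph (Fin n → Bool)}
    (hH : ∀ x y, H.Adj x y → hammingDist x y = 1) {v v' : Fin n → Bool} {s s' : Fin m → Fin n}
    (h : Adm v s) (h' : Adm v' s') (hE : Ev H v s) (hE' : Ev H v' s')
    (hi : ¬ Disjoint (vs v s) (vs v' s')) : v = v' ∧ s = s' := by
  rw [not_disjoint_iff] at hi
  obtain ⟨x, hx, hx'⟩ := hi
  apply vs_inj h h'
  ext w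
  rw [← reach_iff' hH h hE hx w, ← reach_iff' hH h' hE' hx' w]

/-- the component of `v` has exactly `m+1` vertices -/
theorem comp_size {H : SimpleGraph (Fin n → Bool)}
    (hH : ∀ x y, H.Adj x y → hammingDist x y = 1) {v : Fin n → Bool} {s : Fin m → Fin n}
    (h : Adm v s) (hE : Ev H v s) : (H.connectedComponentMk v).supp.ncard = m + 1 := by
  rw [← vs_card h, ← Set.ncard_coe_finset]
  congr 1
  ext w
  rw [SimpleGraph.ConnectedComponent.mem_supp_iff, SimpleGraph.ConnectedComponent.eq, mem_coe,
    ← reach_iff hH h hE w]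
  exact ⟨fun h => h.symm, fun h => h.symm⟩

theorem comp_ne {H : SimpleGraph (Fin n → Bool)}
    (hH : ∀ x y, H.Adj x y → hammingDist x y = 1) {v v' : Fin n → Bool} {s s' : Fin m → Fin n}
    (h : Adm v s) (h' : Adm v' s') (hE : Ev H v s) (hE' : Ev H v' s')
    (hne : ¬ (v = v' ∧ s = s')) : H.connectedComponentMk v ≠ H.connectedComponentMk v' := by
  intro he
  rw [SimpleGraph.ConnectedComponent.eq] at he
  apply hne
  apply ev_unique hH h h' hE hE'
  rw [not_disjoint_iff]
  exact ⟨v', (reach_iff hH h hE v').mp he, mem_vs.mpr ⟨0, by omega, pt_zero _ _⟩⟩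

end comp

section index
variable (n m : ℕ)

/-- the index set of ascending paths -/
noncomputable def idx : Finset ((Fin n → Bool) × (Fin m → Fin n)) :=
  univ.filter (fun a => Adm a.1 a.2)

variable {n m}

theorem mem_idx {a : (Fin n → Bool) × (Fin m → Fin n)} : a ∈ idx n m ↔ Adm a.1 a.2 := by
  unfold idx; rw [mem_filter]; simp

/-- injective direction sequences -/
noncomputable def injs (n m : ℕ) : Finset (Fin m → Fin n) := univ.filter (fun s => Function.Injective s)

theorem injs_card : (injs n m).card = n.descFactorial m := by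
  have h1 : (injs n m).card = Fintype.card (Fin m ↪ Fin n) := by
    unfold injs
    rw [← Fintype.card_subtype]
    exact Fintype.card_congr (Equiv.subtypeInjectiveEquivEmbedding (Fin m) (Fin n))
  rw [h1, Fintype.card_embedding_eq, Fintype.card_fin, Fintype.card_fin]

theorem zeros_card (s : Fin m → Fin n) (hs : Function.Injective s) :
    (univ.filter (fun v : Fin n → Bool => ∀ k, v (s k) = false)).card = 2 ^ (n - m) := by
  have h1 : univ.filter (fun v : Fin n → Bool => ∀ k, v (s k) = false)
      = Fintype.piFinset (fun j : Fin n => if j ∈ univ.image s then {false} else univ) := by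
    ext v
    simp only [mem_filter, mem_univ, true_and, Fintype.mem_piFinset]
    constructor
    · intro h j
      split_ifs with hj
      · obtain ⟨k, _, rfl⟩ := mem_image.mp hj
        rw [mem_singleton]; exact h k
      · exact mem_univ _
    · intro h k
      have := h (s k)
      rw [if_pos (mem_image_of_mem s (mem_univ k)), mem_singleton] at this
      exact this
  rw [h1, Fintype.card_piFinset]
  have h2 : ∀ j : Fin n, (if j ∈ univ.image s then ({false} : Finset Bool) else univ).card
      = if j ∈ univ.image s then 1 else 2 := by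
    intro j
    split_ifs <;> simp
  rw [prod_congr rfl (fun j _ => h2 j), prod_ite, prod_const_one, one_mul, prod_const]
  congr 1
  have h3 := card_filter_add_card_filter_not (s := (univ : Finset (Fin n))) (fun j => j ∈ univ.image s)
  rw [card_univ, Fintype.card_fin] at h3
  have h4 : (univ.filter (fun j => j ∈ univ.image s)).card = m := by
    have : univ.filter (fun j => j ∈ univ.image s) = univ.image s := by ext j; simp
    rw [this, card_image_of_injective _ hs, card_univ, Fintype.card_fin]
  omega

theorem idx_card : (idx n m).card = n.descFactorial m * 2 ^ (n - m) := by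
  have h1 : (idx n m).card = ∑ s ∈ injs n m, (univ.filter (fun v : Fin n → Bool => ∀ k, v (s k) = false)).card := by
    rw [card_eq_sum_card_fiberwise (f := fun a => a.2) (t := injs n m)]
    · apply sum_congr rfl
      intro s hs
      have hs' : Function.Injective s := (mem_filter.mp hs).2
      apply card_bij (fun a _ => a.1)
      · intro a ha
        obtain ⟨ha1, ha2⟩ := mem_filter.mp ha
        subst ha2
        rw [mem_filter]
        exact ⟨mem_univ _, (mem_idx.mp ha1).2⟩
      · intro a ha b hb hab
        have ha2 := (mem_filter.mp ha).2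
        have hb2 := (mem_filter.mp hb).2
        exact Prod.ext hab (ha2.trans hb2.symm)
      · intro v hv
        refine ⟨(v, s), ?_, rfl⟩
        rw [mem_filter]
        exact ⟨mem_idx.mpr ⟨hs', (mem_filter.mp hv).2⟩, rfl⟩
    · intro a ha
      rw [mem_coe] at ha
      exact mem_coe.mpr (mem_filter.mpr ⟨mem_univ _, (mem_idx.mp ha).1⟩)
  have h2 : ∀ s ∈ injs n m, (univ.filter (fun v : Fin n → Bool => ∀ k, v (s k) = false)).card
      = 2 ^ (n - m) := fun s hs => zeros_card s (mem_filter.mp hs).2
  rw [h1, sum_congr rfl h2, sum_const, injs_card, smul_eq_mul]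

/-- number of paths meeting a neighbour of a given path -/
theorem adj_card (a : (Fin n → Bool) × (Fin m → Fin n)) :
    ((idx n m).filter (fun b => ∃ i, i ≤ m ∧ ∃ j : Fin n, flp (pt a.1 a.2 i) j ∈ vs b.1 b.2)).card
      ≤ (m + 1) * n * (m + 1) * n.descFactorial m := by
  have hsub : (idx n m).filter (fun b => ∃ i, i ≤ m ∧ ∃ j : Fin n, flp (pt a.1 a.2 i) j ∈ vs b.1 b.2)
      ⊆ (((range (m + 1)) ×ˢ (univ : Finset (Fin n))) ×ˢ (range (m + 1))).biUnion
        (fun q => (idx n m).filter (fun b => pt b.1 b.2 q.2 = flp (pt a.1 a.2 q.1.1) q.1.2)) := by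
    intro b hb
    obtain ⟨hb1, i, hi, j, hj⟩ := mem_filter.mp hb
    obtain ⟨i', hi', he⟩ := mem_vs.mp hj
    rw [mem_biUnion]
    refine ⟨((i, j), i'), ?_, mem_filter.mpr ⟨hb1, he⟩⟩
    simp only [mem_product, mem_range, mem_univ, and_true]
    omega
  refine (card_le_card hsub).trans (card_biUnion_le.trans ?_)
  have h1 : ∀ q ∈ (((range (m + 1)) ×ˢ (univ : Finset (Fin n))) ×ˢ (range (m + 1))),
      ((idx n m).filter (fun b => pt b.1 b.2 q.2 = flp (pt a.1 a.2 q.1.1) q.1.2)).card
        ≤ n.descFactorial m := by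
    intro q _
    rw [← injs_card]
    apply card_le_card_of_injOn (fun b => b.2)
    · intro b hb
      exact mem_coe.mpr (mem_filter.mpr ⟨mem_univ _, (mem_idx.mp (mem_filter.mp (mem_coe.mp hb)).1).1⟩)
    · intro b hb b' hb' he
      obtain ⟨hb1, hb2⟩ := mem_filter.mp (mem_coe.mp hb)
      obtain ⟨hb1', hb2'⟩ := mem_filter.mp (mem_coe.mp hb')
      have hA := mem_idx.mp hb1
      have hA' := mem_idx.mp hb1'
      simp only at he
      have hpt := hb2.trans hb2'.symm
      rw [he] at hpt hA
      refine Prod.ext ?_ he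
      funext j
      by_cases hj : ∃ k : Fin m, b'.2 k = j
      · obtain ⟨k, rfl⟩ := hj
        rw [hA.2 k, hA'.2 k]
      · have := congrFun hpt j
        unfold pt at this
        rw [if_neg (fun ⟨k, _, hk⟩ => hj ⟨k, hk⟩), if_neg (fun ⟨k, _, hk⟩ => hj ⟨k, hk⟩)] at this
        exact this
  calc _ ≤ ∑ _q ∈ (((range (m + 1)) ×ˢ (univ : Finset (Fin n))) ×ˢ (range (m + 1))),
        n.descFactorial m := sum_le_sum h1
    _ = _ := by
        rw [sum_const, card_product, card_product, card_range, card_univ, Fintype.card_fin, smul_eq_mul]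

end index

end Pool.Agent.Helper472
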