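import Mathlib
import Pool.Agent.Helper472.CubeB

set_option autoImplicit false

namespace Pool.Agent.Helper472

open Finset Classical

theorem cyl_sum_if {α : Type} (E E1 E0 : Finset α) (p : ℝ) (h1 : E1 ⊆ E) (h0 : E0 ⊆ E)
    (hd : Disjoint E1 E0) :
    ∑ S ∈ E.powerset, (if E1 ⊆ S ∧ Disjoint E0 S then wtS E.card p S.card else 0)
      = p ^ E1.card * (1 - p) ^ E0.card := by
  rw [← cyl_sum E E1 E0 p h1 h0 hd, sum_filter]

section moments
variable (n m : ℕ)

/-- edges of the cube -/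
noncomputable def cE : Finset (Sym2 (Fin n → Bool)) :=
  univ.filter (fun e => ∃ x j, e = s(x, flp x j))

variable {n m}

theorem mem_cE {e : Sym2 (Fin n → Bool)} : e ∈ cE n ↔ ∃ x j, e = s(x, flp x j) := by
  unfold cE; rw [mem_filter]; simp

theorem pE_sub {v : Fin n → Bool} {s : Fin m → Fin n} (h : Adm v s) : pE v s ⊆ cE n := by
  intro e he
  unfold pE at he
  obtain ⟨k, _, rfl⟩ := mem_image.mp he
  rw [mem_cE, pt_succ h k]
  exact ⟨_, _, rfl⟩

theorem nE_sub (v : Fin n → Bool) (s : Fin m → Fin n) : nE v s ⊆ cE n := by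
  intro e he
  unfold nE at he
  obtain ⟨q, _, rfl⟩ := mem_image.mp he
  rw [mem_cE]
  exact ⟨_, _, rfl⟩

/-- path event for an edge set -/
def Cyl (F : Finset (Sym2 (Fin n → Bool))) (a : (Fin n → Bool) × (Fin m → Fin n)) : Prop :=
  pE a.1 a.2 ⊆ F ∧ Disjoint (nE a.1 a.2) F

theorem fromEdge_adj {F : Finset (Sym2 (Fin n → Bool))} (hF : F ⊆ cE n) (x y : Fin n → Bool) :
    (SimpleGraph.fromEdgeSet (F : Set (Sym2 (Fin n → Bool)))).Adj x y → hammingDist x y = 1 := by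
  intro h
  rw [SimpleGraph.fromEdgeSet_adj] at h
  obtain ⟨x', j, he⟩ := mem_cE.mp (hF (mem_coe.mp h.1))
  rw [hamming_one_iff]
  rw [Sym2.eq_iff] at he
  rcases he with ⟨h1, h2⟩ | ⟨h1, h2⟩
  · subst h1; exact ⟨j, h2⟩
  · subst h2; refine ⟨j, ?_⟩; rw [h1, flp_flp]

theorem fromEdge_mem {F : Finset (Sym2 (Fin n → Bool))} (hF : F ⊆ cE n) (e : Sym2 (Fin n → Bool)) :
    e ∈ (SimpleGraph.fromEdgeSet (F : Set (Sym2 (Fin n → Bool)))).edgeSet ↔ e ∈ F := by
  rw [SimpleGraph.edgeSet_fromEdgeSet, Set.mem_sdiff, mem_coe]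
  constructor
  · exact fun h => h.1
  · intro h
    refine ⟨h, ?_⟩
    obtain ⟨x, j, rfl⟩ := mem_cE.mp (hF h)
    intro hd
    exact flp_ne x j (by simpa using hd.symm)

theorem cyl_ev {F : Finset (Sym2 (Fin n → Bool))} (hF : F ⊆ cE n)
    {a : (Fin n → Bool) × (Fin m → Fin n)} (h : Cyl F a) :
    Ev (SimpleGraph.fromEdgeSet (F : Set (Sym2 (Fin n → Bool)))) a.1 a.2 := by
  constructor
  · intro e he
    rw [fromEdge_mem hF]; exact h.1 he
  · intro e he
    rw [fromEdge_mem hF]; exact disjoint_left.mp h.2 he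

/-- the joint probability of two path events -/
noncomputable def jp (p : ℝ) (a b : (Fin n → Bool) × (Fin m → Fin n)) : ℝ :=
  ∑ F ∈ (cE n).powerset, (if Cyl F a ∧ Cyl F b then wtS (cE n).card p F.card else 0)

theorem nE_inter_adj {a b : (Fin n → Bool) × (Fin m → Fin n)}
    (hd : Disjoint (vs a.1 a.2) (vs b.1 b.2)) {e : Sym2 (Fin n → Bool)}
    (he : e ∈ nE a.1 a.2 ∩ nE b.1 b.2) :
    ∃ i, i ≤ m ∧ ∃ j : Fin n, flp (pt a.1 a.2 i) j ∈ vs b.1 b.2 ∧ e = s(pt a.1 a.2 i, flp (pt a.1 a.2 i) j) := by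
  obtain ⟨h1, h2⟩ := mem_inter.mp he
  unfold nE at h1 h2
  obtain ⟨⟨i, j⟩, _, he1⟩ := mem_image.mp h1
  obtain ⟨⟨i', j'⟩, _, he2⟩ := mem_image.mp h2
  simp only at he1 he2
  refine ⟨i.val, by omega, j, ?_, he1.symm⟩
  rw [← he1, Sym2.eq_iff] at he2
  have ha : pt a.1 a.2 i.val ∈ vs a.1 a.2 := mem_vs.mpr ⟨i.val, by omega, rfl⟩
  have hb : pt b.1 b.2 i'.val ∈ vs b.1 b.2 := mem_vs.mpr ⟨i'.val, by omega, rfl⟩
  rcases he2 with ⟨h3, _⟩ | ⟨h3, _⟩
  · rw [h3] at hb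
    exact absurd hb (disjoint_left.mp hd ha)
  · rw [← h3]; exact hb

theorem nE_inter_card {a b : (Fin n → Bool) × (Fin m → Fin n)}
    (ha : Adm a.1 a.2) (hb : Adm b.1 b.2)
    (hd : Disjoint (vs a.1 a.2) (vs b.1 b.2)) :
    (nE a.1 a.2 ∩ nE b.1 b.2).card ≤ (m + 1) ^ 2 := by
  have hsub : nE a.1 a.2 ∩ nE b.1 b.2 ⊆ ((vs a.1 a.2) ×ˢ (vs b.1 b.2)).image (fun q => s(q.1, q.2)) := by
    intro e he
    obtain ⟨i, hi, j, hj, rfl⟩ := nE_inter_adj hd he
    exact mem_image.mpr ⟨(_, _), mem_product.mpr ⟨mem_vs.mpr ⟨i, hi, rfl⟩, hj⟩, rfl⟩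
  calc _ ≤ _ := card_le_card hsub
    _ ≤ _ := card_image_le
    _ = (m + 1) ^ 2 := by rw [card_product, vs_card ha, vs_card hb]; ring

theorem pE_disj {a b : (Fin n → Bool) × (Fin m → Fin n)}
    (hd : Disjoint (vs a.1 a.2) (vs b.1 b.2)) : Disjoint (pE a.1 a.2) (pE b.1 b.2) := by
  rw [disjoint_left]
  intro e he he'
  unfold pE at he he'
  obtain ⟨k, _, rfl⟩ := mem_image.mp he
  obtain ⟨k', _, he2⟩ := mem_image.mp he'
  rw [Sym2.eq_iff] at he2
  have h1 : pt a.1 a.2 k.val ∈ vs a.1 a.2 := mem_vs.mpr ⟨k.val, by omega, rfl⟩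
  rcases he2 with ⟨h3, _⟩ | ⟨_, h3⟩
  · exact disjoint_left.mp hd h1 (by rw [← h3]; exact mem_vs.mpr ⟨k'.val, by omega, rfl⟩)
  · exact disjoint_left.mp hd h1 (by rw [← h3]; exact mem_vs.mpr ⟨k'.val + 1, by omega, rfl⟩)

theorem jp_zero (p : ℝ) {a b : (Fin n → Bool) × (Fin m → Fin n)}
    (ha : Adm a.1 a.2) (hb : Adm b.1 b.2) (hne : a ≠ b)
    (hd : ¬ Disjoint (vs a.1 a.2) (vs b.1 b.2)) : jp p a b = 0 := by
  unfold jp
  apply sum_eq_zero
  intro F hF1
  rw [if_neg]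
  rintro ⟨hF2, hF3⟩
  rw [mem_powerset] at hF1
  obtain ⟨h1, h2⟩ := ev_unique (fromEdge_adj hF1) ha hb (cyl_ev hF1 hF2) (cyl_ev hF1 hF3) hd
  exact hne (Prod.ext h1 h2)

theorem jp_disj {p : ℝ} (h0 : 0 ≤ p) (h1 : p ≤ 1) {a b : (Fin n → Bool) × (Fin m → Fin n)}
    (ha : Adm a.1 a.2) (hb : Adm b.1 b.2)
    (hd : Disjoint (vs a.1 a.2) (vs b.1 b.2)) :
    jp p a b * (1 - p) ^ (nE a.1 a.2 ∩ nE b.1 b.2).card
      ≤ (p ^ m * (1 - p) ^ ((m + 1) * n - 2 * m)) ^ 2 := by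
  have hq : 0 ≤ 1 - p := by linarith
  have ca := nE_card ha
  have cb := nE_card hb
  by_cases hdis : Disjoint (pE a.1 a.2 ∪ pE b.1 b.2) (nE a.1 a.2 ∪ nE b.1 b.2)
  · have e1 : jp p a b = p ^ (pE a.1 a.2 ∪ pE b.1 b.2).card * (1 - p) ^ (nE a.1 a.2 ∪ nE b.1 b.2).card := by
      rw [← cyl_sum_if (cE n) _ _ p (union_subset (pE_sub ha) (pE_sub hb))
        (union_subset (nE_sub _ _) (nE_sub _ _)) hdis]
      unfold jp
      apply sum_congr rfl
      intro F _
      have key : (Cyl F a ∧ Cyl F b) ↔ (pE a.1 a.2 ∪ pE b.1 b.2 ⊆ F ∧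
          Disjoint (nE a.1 a.2 ∪ nE b.1 b.2) F) := by
        unfold Cyl; rw [union_subset_iff, disjoint_union_left]; tauto
      by_cases hh : Cyl F a ∧ Cyl F b
      · rw [if_pos hh, if_pos (key.mp hh)]
      · rw [if_neg hh, if_neg (fun h => hh (key.mpr h))]
    rw [e1, card_union_of_disjoint (pE_disj hd), pE_card ha, pE_card hb]
    have hc := card_union_add_card_inter (nE a.1 a.2) (nE b.1 b.2)
    apply le_of_eq
    rw [mul_assoc, ← pow_add, hc]
    have e2 : (nE a.1 a.2).card = (m + 1) * n - 2 * m := by omega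
    have e3 : (nE b.1 b.2).card = (m + 1) * n - 2 * m := by omega
    rw [e2, e3]
    ring
  · have e1 : jp p a b = 0 := by
      unfold jp
      apply sum_eq_zero
      intro F _
      rw [if_neg]
      rintro ⟨hF2, hF3⟩
      apply hdis
      rw [disjoint_left]
      intro e he he'
      have h3 : e ∈ F := by
        rcases mem_union.mp he with h | h
        · exact hF2.1 h
        · exact hF3.1 h
      rcases mem_union.mp he' with h | h
      · exact disjoint_left.mp hF2.2 h h3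
      · exact disjoint_left.mp hF3.2 h h3
    rw [e1, zero_mul]
    positivity

theorem jp_self (p : ℝ) {a : (Fin n → Bool) × (Fin m → Fin n)} (ha : Adm a.1 a.2) :
    jp p a a = p ^ m * (1 - p) ^ ((m + 1) * n - 2 * m) := by
  have ca := nE_card ha
  have e1 : jp p a a = p ^ (pE a.1 a.2).card * (1 - p) ^ (nE a.1 a.2).card := by
    rw [← cyl_sum_if (cE n) _ _ p (pE_sub ha) (nE_sub _ _) (pE_nE_disj ha)]
    unfold jp
    apply sum_congr rfl
    intro F _
    by_cases hh : Cyl F a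
    · rw [if_pos ⟨hh, hh⟩, if_pos (show pE a.1 a.2 ⊆ F ∧ Disjoint (nE a.1 a.2) F from hh)]
    · rw [if_neg (fun h => hh h.1),
        if_neg (show ¬ (pE a.1 a.2 ⊆ F ∧ Disjoint (nE a.1 a.2) F) from hh)]
  rw [e1, pE_card ha]
  have e2 : (nE a.1 a.2).card = (m + 1) * n - 2 * m := by omega
  rw [e2]

/-- number of path events -/
noncomputable def cnt (m : ℕ) (F : Finset (Sym2 (Fin n → Bool))) : ℝ :=
  ∑ a ∈ idx n m, (if Cyl F a then (1 : ℝ) else 0)

theorem first_moment (p : ℝ) :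
    ∑ F ∈ (cE n).powerset, wtS (cE n).card p F.card * cnt m F
      = (idx n m).card * (p ^ m * (1 - p) ^ ((m + 1) * n - 2 * m)) := by
  unfold cnt
  have h1 : ∀ a ∈ idx n m, jp p a a = p ^ m * (1 - p) ^ ((m + 1) * n - 2 * m) :=
    fun a ha => jp_self p (mem_idx.mp ha)
  rw [← nsmul_eq_mul, ← sum_const, ← sum_congr rfl h1]
  simp_rw [mul_sum]
  rw [sum_comm]
  apply sum_congr rfl
  intro a _
  unfold jp
  apply sum_congr rfl
  intro F _
  by_cases h : Cyl F a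
  · rw [if_pos h, if_pos ⟨h, h⟩, mul_one]
  · rw [if_neg h, if_neg (fun h2 => h h2.1), mul_zero]

theorem second_moment_eq (p : ℝ) :
    ∑ F ∈ (cE n).powerset, wtS (cE n).card p F.card * (cnt m F) ^ 2
      = ∑ a ∈ idx n m, ∑ b ∈ idx n m, jp p a b := by
  unfold cnt
  simp_rw [sq, sum_mul_sum, mul_sum]
  rw [sum_comm]
  apply sum_congr rfl
  intro a _
  rw [sum_comm]
  apply sum_congr rfl
  intro b _
  unfold jp
  apply sum_congr rfl
  intro F _
  by_cases h : Cyl F a <;> by_cases h' : Cyl F b <;> simp [h, h']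

theorem jp_bound {p : ℝ} (h0 : 0 ≤ p) (h1 : p < 1) {a b : (Fin n → Bool) × (Fin m → Fin n)}
    (ha : Adm a.1 a.2) (hb : Adm b.1 b.2) :
    jp p a b ≤ (if a = b then p ^ m * (1 - p) ^ ((m + 1) * n - 2 * m) else 0)
      + (p ^ m * (1 - p) ^ ((m + 1) * n - 2 * m)) ^ 2
      + (if ∃ i, i ≤ m ∧ ∃ j : Fin n, flp (pt a.1 a.2 i) j ∈ vs b.1 b.2 then
          (p ^ m * (1 - p) ^ ((m + 1) * n - 2 * m)) ^ 2 / (1 - p) ^ ((m + 1) ^ 2) else 0) := by
  have hq : 0 < 1 - p := by linarith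
  set P1 := p ^ m * (1 - p) ^ ((m + 1) * n - 2 * m) with hP1
  have hP0 : 0 ≤ P1 := by positivity
  have hlast : 0 ≤ (if ∃ i, i ≤ m ∧ ∃ j : Fin n, flp (pt a.1 a.2 i) j ∈ vs b.1 b.2 then
          P1 ^ 2 / (1 - p) ^ ((m + 1) ^ 2) else 0) := by split_ifs <;> positivity
  by_cases hab : a = b
  · subst hab
    rw [if_pos rfl, jp_self p ha, ← hP1]
    have : 0 ≤ P1 ^ 2 := by positivity
    linarith
  · rw [if_neg hab]
    by_cases hd : Disjoint (vs a.1 a.2) (vs b.1 b.2)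
    · have h2 := jp_disj h0 h1.le ha hb hd
      rw [← hP1] at h2
      by_cases hadj : ∃ i, i ≤ m ∧ ∃ j : Fin n, flp (pt a.1 a.2 i) j ∈ vs b.1 b.2
      · rw [if_pos hadj]
        have h3 := nE_inter_card ha hb hd
        have h4 : (1 - p) ^ ((m + 1) ^ 2) ≤ (1 - p) ^ (nE a.1 a.2 ∩ nE b.1 b.2).card :=
          pow_le_pow_of_le_one hq.le (by linarith) h3
        have hjp : 0 ≤ jp p a b := by
          unfold jp wtS
          apply sum_nonneg
          intro F _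
          split_ifs <;> positivity
        have h5 : jp p a b * (1 - p) ^ ((m + 1) ^ 2) ≤ P1 ^ 2 :=
          (mul_le_mul_of_nonneg_left h4 hjp).trans h2
        have h6 : jp p a b ≤ P1 ^ 2 / (1 - p) ^ ((m + 1) ^ 2) := by
          rw [le_div_iff₀ (by positivity)]; exact h5
        have : 0 ≤ P1 ^ 2 := by positivity
        linarith
      · rw [if_neg hadj]
        have h3 : (nE a.1 a.2 ∩ nE b.1 b.2) = ∅ := by
          rw [eq_empty_iff_forall_notMem]
          intro e he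
          obtain ⟨i, hi, j, hj, _⟩ := nE_inter_adj hd he
          exact hadj ⟨i, hi, j, hj⟩
        rw [h3, card_empty, pow_zero, mul_one] at h2
        linarith
    · rw [jp_zero p ha hb hab hd]
      have : 0 ≤ P1 ^ 2 := by positivity
      linarith

theorem second_moment {p : ℝ} (h0 : 0 ≤ p) (h1 : p < 1) :
    ∑ F ∈ (cE n).powerset, wtS (cE n).card p F.card * (cnt m F) ^ 2
      ≤ (idx n m).card * (p ^ m * (1 - p) ^ ((m + 1) * n - 2 * m))
        + ((idx n m).card * (p ^ m * (1 - p) ^ ((m + 1) * n - 2 * m))) ^ 2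
        + (idx n m).card * ((m + 1) * n * (m + 1) * n.descFactorial m) *
          ((p ^ m * (1 - p) ^ ((m + 1) * n - 2 * m)) ^ 2 / (1 - p) ^ ((m + 1) ^ 2)) := by
  have hq : 0 < 1 - p := by linarith
  rw [second_moment_eq]
  set P1 := p ^ m * (1 - p) ^ ((m + 1) * n - 2 * m) with hP1
  calc ∑ a ∈ idx n m, ∑ b ∈ idx n m, jp p a b
      ≤ ∑ a ∈ idx n m, ∑ b ∈ idx n m, ((if a = b then P1 else 0) + P1 ^ 2
        + (if ∃ i, i ≤ m ∧ ∃ j : Fin n, flp (pt a.1 a.2 i) j ∈ vs b.1 b.2 then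
          P1 ^ 2 / (1 - p) ^ ((m + 1) ^ 2) else 0)) := by
        apply sum_le_sum
        intro a ha
        apply sum_le_sum
        intro b hb
        exact jp_bound h0 h1 (mem_idx.mp ha) (mem_idx.mp hb)
    _ ≤ ∑ a ∈ idx n m, (P1 + (idx n m).card * P1 ^ 2
          + ((m + 1) * n * (m + 1) * n.descFactorial m) * (P1 ^ 2 / (1 - p) ^ ((m + 1) ^ 2))) := by
        apply sum_le_sum
        intro a ha
        rw [sum_add_distrib, sum_add_distrib, sum_ite_eq, if_pos ha, sum_const, nsmul_eq_mul,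
          ← sum_filter, sum_const, nsmul_eq_mul]
        have h2 := adj_card (n := n) (m := m) a
        have h3 : (((idx n m).filter (fun b => ∃ i, i ≤ m ∧ ∃ j : Fin n, flp (pt a.1 a.2 i) j ∈ vs b.1 b.2)).card : ℝ)
            ≤ ((m + 1) * n * (m + 1) * n.descFactorial m) := by exact_mod_cast h2
        gcongr
    _ = _ := by
        rw [sum_const, nsmul_eq_mul]; ring

/-- Chebyshev -/
theorem few_paths {p : ℝ} (h0 : 0 ≤ p) (h1 : p ≤ 1) (M : ℝ) (hM : 1 ≤ M)
    (h1st : ∑ F ∈ (cE n).powerset, wtS (cE n).card p F.card * cnt m F = M) :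
    (∑ F ∈ (cE n).powerset.filter (fun F => cnt m F ≤ 1), wtS (cE n).card p F.card) * (M - 1) ^ 2
      ≤ ∑ F ∈ (cE n).powerset, wtS (cE n).card p F.card * (cnt m F) ^ 2 - M ^ 2 := by
  have hq : 0 ≤ 1 - p := by linarith
  have hw : ∀ F : Finset (Sym2 (Fin n → Bool)), 0 ≤ wtS (cE n).card p F.card := by
    intro F; unfold wtS; positivity
  have htot : ∑ F ∈ (cE n).powerset, wtS (cE n).card p F.card = 1 := by
    have := cyl_sum (cE n) ∅ ∅ p (by simp) (by simp) (by simp)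
    simpa using this
  have e : ∑ F ∈ (cE n).powerset, wtS (cE n).card p F.card * (cnt m F - M) ^ 2
      = ∑ F ∈ (cE n).powerset, wtS (cE n).card p F.card * (cnt m F) ^ 2 - M ^ 2 := by
    have : ∀ F ∈ (cE n).powerset, wtS (cE n).card p F.card * (cnt m F - M) ^ 2
        = wtS (cE n).card p F.card * (cnt m F) ^ 2 - 2 * M * (wtS (cE n).card p F.card * cnt m F)
          + M ^ 2 * wtS (cE n).card p F.card := by
      intro F _; ring
    rw [sum_congr rfl this, sum_add_distrib, sum_sub_distrib, ← mul_sum, ← mul_sum, h1st, htot]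
    ring
  rw [← e, sum_mul]
  calc _ ≤ ∑ F ∈ (cE n).powerset.filter (fun F => cnt m F ≤ 1),
        wtS (cE n).card p F.card * (cnt m F - M) ^ 2 := by
        apply sum_le_sum
        intro F hF
        apply mul_le_mul_of_nonneg_left _ (hw F)
        have h3 := (mem_filter.mp hF).2
        nlinarith
    _ ≤ _ := by
        apply sum_le_sum_of_subset_of_nonneg (filter_subset _ _)
        intro F _ _
        exact mul_nonneg (hw F) (sq_nonneg _)

end moments

end Pool.Agent.Helper472
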