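import Mathlib
import Pool.Agent.Helper472.CubeC

set_option autoImplicit false

namespace Pool.Agent.Helper472

open Finset Classical Filter Topology

/-- the number `m_p` -/
noncomputable def mp (p : ℝ) : ℕ := ⌊-(1 / Real.logb 2 (1 - p))⌋₊

theorem mp_facts {p : ℝ} (h0 : 0 < p) (h1 : p ≤ 1 / 10) :
    (mp p : ℝ) ≤ 1 / p ∧ 1 / (2 * p) ≤ mp p ∧ 1 / 2 ≤ (1 - p) ^ (mp p) := by
  have hq0 : 0 < 1 - p := by linarith
  have hq1 : 1 - p < 1 := by linarith
  have hlog : Real.log (1 - p) < 0 := Real.log_neg hq0 hq1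
  have hl2 : 0 < Real.log 2 := Real.log_pos (by norm_num)
  set L := -Real.log (1 - p) with hL
  have hLpos : 0 < L := by rw [hL]; linarith
  have hLp : p ≤ L := by
    have := Real.log_le_sub_one_of_pos hq0
    rw [hL]; linarith
  have hLp2 : L ≤ p / (1 - p) := by
    have h2 := Real.one_sub_inv_le_log_of_pos hq0
    rw [hL]
    have : 1 - (1 - p)⁻¹ = -(p / (1 - p)) := by field_simp; ring
    linarith
  have hval : -(1 / Real.logb 2 (1 - p)) = Real.log 2 / L := by
    rw [Real.logb, hL]; field_simp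
  have hmp : mp p = ⌊Real.log 2 / L⌋₊ := by unfold mp; rw [hval]
  have hle : (mp p : ℝ) ≤ Real.log 2 / L := by rw [hmp]; exact Nat.floor_le (by positivity)
  have hge : Real.log 2 / L < (mp p : ℝ) + 1 := by rw [hmp]; exact Nat.lt_floor_add_one _
  have hlog2a : Real.log 2 < 0.6931471808 := Real.log_two_lt_d9
  have hlog2b : 0.6931471803 < Real.log 2 := Real.log_two_gt_d9
  refine ⟨?_, ?_, ?_⟩
  · calc (mp p : ℝ) ≤ Real.log 2 / L := hle
      _ ≤ 1 / p := by
        rw [div_le_div_iff₀ hLpos h0]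
        nlinarith
  · have h3 : Real.log 2 * (1 - p) / p ≤ Real.log 2 / L := by
      rw [div_le_div_iff₀ h0 hLpos]
      have : L * (1 - p) ≤ p := by
        rw [le_div_iff₀ hq0] at hLp2; exact hLp2
      nlinarith
    have h4 : 1 / (2 * p) ≤ Real.log 2 * (1 - p) / p - 1 := by
      rw [div_le_iff₀ (by positivity)]
      have : (Real.log 2 * (1 - p) / p - 1) * (2 * p) = 2 * (Real.log 2 * (1 - p)) - 2 * p := by
        field_simp
      rw [this]
      nlinarith
    linarith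
  · have h5 : (mp p : ℝ) * L ≤ Real.log 2 := (le_div_iff₀ hLpos).mp hle
    have h6 : (1 - p) ^ (mp p) = Real.exp (-((mp p : ℝ) * L)) := by
      rw [hL]
      have : -((mp p : ℝ) * -Real.log (1 - p)) = (mp p : ℝ) * Real.log (1 - p) := by ring
      rw [this, Real.exp_nat_mul, Real.exp_log hq0]
    rw [h6]
    calc (1 / 2 : ℝ) = Real.exp (-Real.log 2) := by
          rw [Real.exp_neg, Real.exp_log (by norm_num)]; norm_num
      _ ≤ _ := Real.exp_le_exp.mpr (by linarith)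


/-- the expected number of ascending path components -/
noncomputable def EN (n m : ℕ) (p : ℝ) : ℝ :=
  (idx n m).card * (p ^ m * (1 - p) ^ ((m + 1) * n - 2 * m))

theorem EN_lower {n m : ℕ} {p : ℝ} (h0 : 0 < p) (h1 : p ≤ 1 / 10) (hm : 2 * m ≤ n)
    (hq : 1 / 2 ≤ (1 - p) ^ m) : ((n : ℝ) * p / 4) ^ m * (1 - p) ^ n ≤ EN n m p := by
  have hq0 : 0 < 1 - p := by linarith
  have hq1 : 1 - p ≤ 1 := by linarith
  unfold EN
  rw [idx_card]
  push_cast
  have ha : ((n : ℝ) / 2) ^ m ≤ (n.descFactorial m : ℝ) := by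
    have h2 := Nat.pow_sub_le_descFactorial n m
    have h3 : (((n + 1 - m) ^ m : ℕ) : ℝ) ≤ (n.descFactorial m : ℝ) := by exact_mod_cast h2
    refine le_trans ?_ h3
    push_cast
    apply pow_le_pow_left₀ (by positivity)
    rw [Nat.cast_sub (by omega)]
    push_cast
    have : (2 * m : ℝ) ≤ n := by exact_mod_cast hm
    linarith
  have hb : (1 - p) ^ ((m + 1) * n) ≤ (1 - p) ^ ((m + 1) * n - 2 * m) :=
    pow_le_pow_of_le_one hq0.le hq1 (Nat.sub_le _ _)
  have hc : (1 : ℝ) ≤ 2 ^ n * (1 - p) ^ (m * n) := by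
    rw [pow_mul, ← mul_pow]
    apply one_le_pow₀
    linarith
  have hd : (2 : ℝ) ^ (n - m) = 2 ^ n / 2 ^ m := by
    rw [eq_div_iff (by positivity), ← pow_add]
    congr 1; omega
  have e : ((n : ℝ) * p / 4) ^ m = ((n : ℝ) / 2) ^ m * p ^ m / 2 ^ m := by
    rw [← mul_pow, ← div_pow]; congr 1; ring
  have e2 : (1 - p) ^ ((m + 1) * n) = (1 - p) ^ (m * n) * (1 - p) ^ n := by
    rw [← pow_add]; congr 1; ring
  calc ((n : ℝ) * p / 4) ^ m * (1 - p) ^ n
      = (((n : ℝ) / 2) ^ m * p ^ m / 2 ^ m * (1 - p) ^ n) * 1 := by rw [e, mul_one]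
    _ ≤ (((n : ℝ) / 2) ^ m * p ^ m / 2 ^ m * (1 - p) ^ n) * (2 ^ n * (1 - p) ^ (m * n)) := by
        apply mul_le_mul_of_nonneg_left hc (by positivity)
    _ = ((n : ℝ) / 2) ^ m * (2 ^ n / 2 ^ m) * (p ^ m * (1 - p) ^ ((m + 1) * n)) := by
        rw [e2]; field_simp
    _ ≤ (n.descFactorial m : ℝ) * 2 ^ (n - m) * (p ^ m * (1 - p) ^ ((m + 1) * n - 2 * m)) := by
        rw [hd]
        gcongr

theorem prob_bound {n m : ℕ} {p : ℝ} (h0 : 0 < p) (h1 : p ≤ 1 / 10) (hm : 6 * (m + 1) ≤ n)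
    (hq : 1 / 2 ≤ (1 - p) ^ m) (hE : 2 ≤ EN n m p) :
    ∑ F ∈ (cE n).powerset.filter (fun F => cnt m F ≤ 1), wtS (cE n).card p F.card
      ≤ 4 / EN n m p + 4 * ((n : ℝ) ^ 3 / 2 ^ (n / 2)) := by
  have hq0 : 0 < 1 - p := by linarith
  have hq1 : 1 - p ≤ 1 := by linarith
  have hch := few_paths (n := n) (m := m) h0.le (by linarith) (EN n m p) (by linarith) (first_moment p)
  have h2 := second_moment (n := n) (m := m) h0.le (by linarith : p < 1)
  set M := EN n m p with hM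
  have hM' : ((idx n m).card : ℝ) * (p ^ m * (1 - p) ^ ((m + 1) * n - 2 * m)) = M := rfl
  rw [hM'] at h2
  have hMpos : 0 < M := by linarith
  -- the correlation term
  have hqq : (1 / 4 : ℝ) ^ (m + 1) ≤ (1 - p) ^ ((m + 1) ^ 2) := by
    rw [sq, pow_mul]
    apply pow_le_pow_left₀ (by norm_num)
    rw [pow_succ]
    have : (1 / 2 : ℝ) ≤ 1 - p := by linarith
    calc (1 / 4 : ℝ) = 1 / 2 * (1 / 2) := by norm_num
      _ ≤ (1 - p) ^ m * (1 - p) := by gcongr
  have hcor : ((idx n m).card : ℝ) * ((m + 1) * n * (m + 1) * n.descFactorial m) *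
          ((p ^ m * (1 - p) ^ ((m + 1) * n - 2 * m)) ^ 2 / (1 - p) ^ ((m + 1) ^ 2))
      ≤ M ^ 2 * ((n : ℝ) ^ 3 / 2 ^ (n / 2)) := by
    set P1 := p ^ m * (1 - p) ^ ((m + 1) * n - 2 * m) with hP1
    have hP0 : 0 ≤ P1 := by positivity
    have e1 : ((idx n m).card : ℝ) * n.descFactorial m * P1 ^ 2 = M ^ 2 / 2 ^ (n - m) := by
      rw [← hM', idx_card]
      push_cast
      field_simp
    have e2 : ((idx n m).card : ℝ) * ((m + 1) * n * (m + 1) * n.descFactorial m) *
          (P1 ^ 2 / (1 - p) ^ ((m + 1) ^ 2))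
        = (((idx n m).card : ℝ) * n.descFactorial m * P1 ^ 2) * (((m : ℝ) + 1) ^ 2 * n)
          / (1 - p) ^ ((m + 1) ^ 2) := by ring
    rw [e2, e1]
    have h3 : ((m : ℝ) + 1) ^ 2 * n ≤ (n : ℝ) ^ 3 := by
      have : ((m : ℝ) + 1) ≤ n := by
        have : ((6 * (m + 1) : ℕ) : ℝ) ≤ n := by exact_mod_cast hm
        push_cast at this
        have h5 : (0 : ℝ) ≤ m := by positivity
        linarith
      calc ((m : ℝ) + 1) ^ 2 * n ≤ (n : ℝ) ^ 2 * n := by gcongr
        _ = _ := by ring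
    have h4 : (2 : ℝ) ^ (n / 2) ≤ 2 ^ (n - m) * (1 / 4) ^ (m + 1) := by
      have e3 : (1 / 4 : ℝ) ^ (m + 1) = 1 / 2 ^ (2 * (m + 1)) := by
        rw [pow_mul, one_div_pow]; norm_num
      rw [e3, mul_one_div, le_div_iff₀ (by positivity), ← pow_add]
      apply pow_le_pow_right₀ (by norm_num)
      omega
    calc M ^ 2 / 2 ^ (n - m) * (((m : ℝ) + 1) ^ 2 * n) / (1 - p) ^ ((m + 1) ^ 2)
        = M ^ 2 * ((((m : ℝ) + 1) ^ 2 * n) / (2 ^ (n - m) * (1 - p) ^ ((m + 1) ^ 2))) := by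
          field_simp
      _ ≤ M ^ 2 * ((n : ℝ) ^ 3 / 2 ^ (n / 2)) := by
          apply mul_le_mul_of_nonneg_left _ (by positivity)
          apply div_le_div₀ (by positivity) h3 (by positivity)
          calc (2 : ℝ) ^ (n / 2) ≤ 2 ^ (n - m) * (1 / 4) ^ (m + 1) := h4
            _ ≤ _ := by gcongr
  set X := ∑ F ∈ (cE n).powerset.filter (fun F => cnt m F ≤ 1), wtS (cE n).card p F.card with hX
  set R := (n : ℝ) ^ 3 / 2 ^ (n / 2) with hR
  have h5 : X * (M - 1) ^ 2 ≤ M + M ^ 2 * R := by linarith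
  have hX0 : 0 ≤ X := by
    rw [hX]
    apply sum_nonneg
    intro F _
    unfold wtS; positivity
  have hhalf : (M / 2) ^ 2 ≤ (M - 1) ^ 2 := by
    apply pow_le_pow_left₀ (by positivity); linarith
  have h6 : X * (M / 2) ^ 2 ≤ M + M ^ 2 * R := (mul_le_mul_of_nonneg_left hhalf hX0).trans h5
  have h7 : X * (M / 2) ^ 2 ≤ (4 / M + 4 * R) * (M / 2) ^ 2 := by
    have : (4 / M + 4 * R) * (M / 2) ^ 2 = M + M ^ 2 * R := by field_simp; ring
    rw [this]; exact h6
  exact le_of_mul_le_mul_right h7 (by positivity)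

theorem cube_div_pow_tendsto :
    Tendsto (fun n : ℕ => (n : ℝ) ^ 3 / 2 ^ (n / 2)) atTop (𝓝 0) := by
  have h1 : Tendsto (fun k : ℕ => (k : ℝ) ^ 3 / 2 ^ k) atTop (𝓝 0) :=
    tendsto_pow_const_div_const_pow_of_one_lt 3 (by norm_num)
  have h2 : Tendsto (fun n : ℕ => n / 2) atTop atTop :=
    Nat.tendsto_div_const_atTop (by norm_num)
  have h3 := (h1.comp h2).const_mul 27
  rw [mul_zero] at h3
  refine squeeze_zero' ?_ ?_ h3
  · exact Eventually.of_forall (fun n => by positivity)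
  · filter_upwards [eventually_ge_atTop 2] with n hn
    simp only [Function.comp]
    have h4 : (n : ℝ) ≤ 3 * ((n / 2 : ℕ) : ℝ) := by
      have : n ≤ 3 * (n / 2) := by omega
      exact_mod_cast this
    calc (n : ℝ) ^ 3 / 2 ^ (n / 2) ≤ (3 * ((n / 2 : ℕ) : ℝ)) ^ 3 / 2 ^ (n / 2) := by gcongr
      _ = _ := by ring

theorem path_prob_tendsto (p : ℕ → ℝ) (hp : ∀ n, 0 < p n)
    (hnp : Tendsto (fun n : ℕ => (n : ℝ) * p n) atTop atTop)
    (hC : ∃ C : ℝ, ∀ n : ℕ, (n : ℝ) * (p n) ^ 2 ≤ C) :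
    Tendsto (fun n : ℕ => ∑ F ∈ (cE n).powerset.filter (fun F => cnt (mp (p n)) F ≤ 1),
      wtS (cE n).card (p n) F.card) atTop (𝓝 0) := by
  obtain ⟨C, hC⟩ := hC
  -- lower bound for the mean
  have hlow : Tendsto (fun n : ℕ => Real.log ((n : ℝ) * p n / 4) / 2 - 2 * |C|) atTop atTop := by
    apply tendsto_atTop_add_const_right
    apply Tendsto.atTop_div_const (by norm_num)
    apply Real.tendsto_log_atTop.comp
    exact Tendsto.atTop_div_const (by norm_num) hnp
  have hexp : Tendsto (fun n : ℕ => Real.exp (Real.log ((n : ℝ) * p n / 4) / 2 - 2 * |C|)) atTop atTop :=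
    Real.tendsto_exp_atTop.comp hlow
  have hbd : Tendsto (fun n : ℕ => 4 / Real.exp (Real.log ((n : ℝ) * p n / 4) / 2 - 2 * |C|)
      + 4 * ((n : ℝ) ^ 3 / 2 ^ (n / 2))) atTop (𝓝 0) := by
    have h1 := (hexp.inv_tendsto_atTop).const_mul 4
    have h2 := cube_div_pow_tendsto.const_mul 4
    have h3 := h1.add h2
    simp only [mul_zero, add_zero] at h3
    refine h3.congr (fun n => ?_)
    simp only [Pi.inv_apply, div_eq_mul_inv]
  refine squeeze_zero' ?_ ?_ hbd
  · filter_upwards [hnp.eventually_ge_atTop (10 * (|C| + 1))] with n hn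
    apply sum_nonneg
    intro F _
    have h0 := hp n
    have hple : p n ≤ 1 / 10 := by
      have h3 : (n : ℝ) * (p n) ^ 2 ≤ |C| := (hC n).trans (le_abs_self C)
      have h4 : 10 * (|C| + 1) * p n ≤ |C| := by
        calc 10 * (|C| + 1) * p n ≤ ((n : ℝ) * p n) * p n := by gcongr
          _ = (n : ℝ) * (p n) ^ 2 := by ring
          _ ≤ |C| := h3
      have h5 : 0 ≤ |C| := abs_nonneg C
      nlinarith
    unfold wtS
    have : 0 ≤ 1 - p n := by linarith
    positivity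
  · filter_upwards [hnp.eventually_ge_atTop (10 * (|C| + 1)), hnp.eventually_ge_atTop 12,
      hlow.eventually_ge_atTop 1] with n hn hn12 hn3
    have h0 := hp n
    have h5 : 0 ≤ |C| := abs_nonneg C
    have h3 : (n : ℝ) * (p n) ^ 2 ≤ |C| := (hC n).trans (le_abs_self C)
    have hple : p n ≤ 1 / 10 := by
      have h4 : 10 * (|C| + 1) * p n ≤ |C| := by
        calc 10 * (|C| + 1) * p n ≤ ((n : ℝ) * p n) * p n := by gcongr
          _ = (n : ℝ) * (p n) ^ 2 := by ring
          _ ≤ |C| := h3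
      nlinarith
    obtain ⟨m1, m2, m3⟩ := mp_facts h0 hple
    set m := mp (p n) with hm
    set P := p n with hP
    have hq0 : 0 < 1 - P := by linarith
    have hm6 : 6 * (m + 1) ≤ n := by
      have h6 : (6 : ℝ) * ((m : ℝ) + 1) ≤ n := by
        have h7 : (1 : ℝ) ≤ 1 / P := by rw [le_div_iff₀ h0]; linarith
        have h8 : 12 / P ≤ n := by rw [div_le_iff₀ h0]; linarith
        have h9 : 12 / P = 12 * (1 / P) := by ring
        linarith
      exact_mod_cast h6
    have hEN := EN_lower (n := n) (m := m) h0 hple (by omega) m3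
    have hEbig : Real.exp (Real.log ((n : ℝ) * P / 4) / 2 - 2 * |C|) ≤ EN n m P := by
      refine le_trans ?_ hEN
      have hy : 1 ≤ (n : ℝ) * P / 4 := by linarith
      have hy0 : 0 < (n : ℝ) * P / 4 := by linarith
      have hly : 0 ≤ Real.log ((n : ℝ) * P / 4) := Real.log_nonneg hy
      have e1 : ((n : ℝ) * P / 4) ^ m * (1 - P) ^ n
          = Real.exp ((m : ℝ) * Real.log ((n : ℝ) * P / 4) + (n : ℝ) * Real.log (1 - P)) := by
        rw [Real.exp_add, Real.exp_nat_mul, Real.exp_nat_mul, Real.exp_log hy0, Real.exp_log hq0]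
      rw [e1]
      apply Real.exp_le_exp.mpr
      have h10 : -(2 * P) ≤ Real.log (1 - P) := by
        have h11 := Real.one_sub_inv_le_log_of_pos hq0
        have h12 : 1 - (1 - P)⁻¹ = -(P / (1 - P)) := by field_simp; ring
        have h13 : P / (1 - P) ≤ 2 * P := by
          rw [div_le_iff₀ hq0]; nlinarith
        linarith
      have h14 : (n : ℝ) * Real.log (1 - P) ≥ -(2 * |C| / P) := by
        have h15 : (n : ℝ) * (2 * P) ≤ 2 * |C| / P := by
          rw [le_div_iff₀ h0]; nlinarith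
        have h16 : (n : ℝ) * Real.log (1 - P) ≥ (n : ℝ) * (-(2 * P)) :=
          mul_le_mul_of_nonneg_left h10 (by positivity)
        linarith
      have h17 : (m : ℝ) * Real.log ((n : ℝ) * P / 4) ≥ 1 / (2 * P) * Real.log ((n : ℝ) * P / 4) :=
        mul_le_mul_of_nonneg_right m2 hly
      set Lg := Real.log ((n : ℝ) * P / 4) with hLg
      have h18 : Lg / 2 - 2 * |C| ≤ (1 / P) * (Lg / 2 - 2 * |C|) := by
        have h7 : (1 : ℝ) ≤ 1 / P := by rw [le_div_iff₀ h0]; linarith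
        have h19 : 0 ≤ Lg / 2 - 2 * |C| := by linarith
        nlinarith
      have h20 : (1 / P) * (Lg / 2 - 2 * |C|) = 1 / (2 * P) * Lg - 2 * |C| / P := by
        field_simp
      linarith
    have hE2 : 2 ≤ EN n m P := by
      refine le_trans ?_ hEbig
      have := Real.add_one_le_exp (Real.log ((n : ℝ) * P / 4) / 2 - 2 * |C|)
      linarith
    refine (prob_bound h0 hple hm6 m3 hE2).trans ?_
    gcongr

end Pool.Agent.Helper472
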