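import Mathlib
import Pool.Agent.Helper472.Prob

set_option autoImplicit false

namespace Pool.Agent.Helper472

open Finset Classical

section
variable {n : ℕ}

/-- paths with `l` edges, as injective vertex sequences -/
noncomputable def pathsOf (G : SimpleGraph (Fin n)) (l : ℕ) : Finset (Fin (l + 1) → Fin n) :=
  univ.filter (fun x => Function.Injective x ∧ ∀ i : Fin l, G.Adj (x i.castSucc) (x i.succ))

/-- edges of a vertex sequence -/
noncomputable def pathE {l : ℕ} (x : Fin (l + 1) → Fin n) : Finset (Sym2 (Fin n)) :=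
  univ.image (fun i : Fin l => s(x i.castSucc, x i.succ))

theorem pathE_card {l : ℕ} {x : Fin (l + 1) → Fin n} (hx : Function.Injective x) :
    (pathE x).card = l := by
  unfold pathE
  rw [card_image_of_injective]
  · simp
  · intro i j hij
    simp only [Sym2.eq_iff] at hij
    rcases hij with ⟨h1, _⟩ | ⟨h1, h2⟩
    · exact Fin.castSucc_injective _ (hx h1)
    · have h3 := congrArg Fin.val (hx h1)
      have h4 := congrArg Fin.val (hx h2)
      simp at h3 h4
      omega

theorem pathE_sub {l : ℕ} {x : Fin (l + 1) → Fin n} (hx : Function.Injective x) :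
    pathE x ⊆ allE n := by
  intro e he
  unfold pathE at he
  obtain ⟨i, _, rfl⟩ := mem_image.mp he
  simp only [allE, mem_filter, mem_univ, true_and, Sym2.mk_isDiag_iff]
  intro h
  have := congrArg Fin.val (hx h)
  simp at this

theorem pairs_sub (G : SimpleGraph (Fin n)) :
    pairs G ⊆ (range n).biUnion
      (fun l => (pathsOf G l).image (fun x => (x 0, x (Fin.last l)))) := by
  rintro ⟨u, v⟩ huv
  have hr : G.Reachable u v := mem_pairs.mp huv
  obtain ⟨p, hp⟩ := hr.exists_isPath
  rw [mem_biUnion]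
  refine ⟨p.length, ?_, ?_⟩
  · rw [mem_range]
    have := hp.length_lt
    simpa using this
  · rw [mem_image]
    refine ⟨fun i => p.getVert i, ?_, ?_⟩
    · unfold pathsOf
      rw [mem_filter]
      refine ⟨mem_univ _, ?_, ?_⟩
      · intro i j hij
        have := hp.getVert_injOn (by simp; omega) (by simp; omega) hij
        exact Fin.ext this
      · intro i
        have := p.adj_getVert_succ i.isLt
        simpa using this
    · simp

theorem card_pairs_le (G : SimpleGraph (Fin n)) :
    ((pairs G).card : ℝ) ≤ ∑ l ∈ range n, ((pathsOf G l).card : ℝ) := by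
  have h1 : (pairs G).card ≤ ∑ l ∈ range n, (pathsOf G l).card := by
    calc (pairs G).card ≤ _ := card_le_card (pairs_sub G)
      _ ≤ ∑ l ∈ range n, ((pathsOf G l).image (fun x => (x 0, x (Fin.last l)))).card :=
          card_biUnion_le
      _ ≤ _ := sum_le_sum (fun l _ => card_image_le)
  exact_mod_cast h1

theorem exp_paths (p : ℝ) (h0 : 0 ≤ p) (l : ℕ) :
    ∑ G : SimpleGraph (Fin n), wt p G * (pathsOf G l).card ≤ n * ((n : ℝ) * p) ^ l := by
  have h : ∀ G : SimpleGraph (Fin n), ((pathsOf G l).card : ℝ)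
      = ∑ x ∈ univ.filter (fun x : Fin (l + 1) → Fin n => Function.Injective x),
          (if pathE x ⊆ ed G ∧ Disjoint ∅ (ed G) then (1 : ℝ) else 0) := by
    intro G
    rw [sum_boole]
    unfold pathsOf
    rw [filter_filter]
    congr 2
    apply filter_congr
    intro x _
    constructor
    · rintro ⟨h1, h2⟩
      refine ⟨h1, ?_, by simp⟩
      intro e he
      unfold pathE at he
      obtain ⟨i, _, rfl⟩ := mem_image.mp he
      exact adj_iff_ed.mpr (h2 i)
    · rintro ⟨h1, h2, _⟩
      refine ⟨h1, ?_⟩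
      intro i
      rw [← adj_iff_ed]
      exact h2 (by unfold pathE; exact mem_image.mpr ⟨i, mem_univ _, rfl⟩)
  calc ∑ G : SimpleGraph (Fin n), wt p G * (pathsOf G l).card
      = ∑ x ∈ univ.filter (fun x : Fin (l + 1) → Fin n => Function.Injective x),
          ∑ G : SimpleGraph (Fin n), (if pathE x ⊆ ed G ∧ Disjoint ∅ (ed G) then wt p G else 0) := by
        rw [sum_comm]
        apply sum_congr rfl
        intro G _
        rw [h G, mul_sum]
        apply sum_congr rfl
        intro x _
        rw [mul_ite, mul_one, mul_zero]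
    _ = ∑ x ∈ univ.filter (fun x : Fin (l + 1) → Fin n => Function.Injective x), p ^ l := by
        apply sum_congr rfl
        intro x hx
        have hx' := (mem_filter.mp hx).2
        rw [cyl_prob p (pathE x) ∅ (pathE_sub hx') (by simp) (by simp), pathE_card hx']
        simp
    _ ≤ ∑ _x : Fin (l + 1) → Fin n, p ^ l := by
        apply sum_le_sum_of_subset_of_nonneg (filter_subset _ _)
        intro x _ _; positivity
    _ = n * ((n : ℝ) * p) ^ l := by
        rw [sum_const, card_univ, Fintype.card_fun, Fintype.card_fin, Fintype.card_fin, nsmul_eq_mul]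
        push_cast
        rw [mul_pow]; ring

theorem exp_pairs (p : ℝ) (h0 : 0 ≤ p) (h1 : p ≤ 1) (hnp : (n : ℝ) * p ≤ 1 / 2) :
    ∑ G : SimpleGraph (Fin n), wt p G * (pairs G).card ≤ 2 * n := by
  have hnp0 : 0 ≤ (n : ℝ) * p := by positivity
  calc ∑ G : SimpleGraph (Fin n), wt p G * (pairs G).card
      ≤ ∑ G : SimpleGraph (Fin n), wt p G * ∑ l ∈ range n, ((pathsOf G l).card : ℝ) := by
        apply sum_le_sum
        intro G _
        exact mul_le_mul_of_nonneg_left (card_pairs_le G) (wt_nonneg h0 h1 G)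
    _ = ∑ l ∈ range n, ∑ G : SimpleGraph (Fin n), wt p G * (pathsOf G l).card := by
        rw [sum_comm]
        apply sum_congr rfl
        intro G _
        rw [mul_sum]
    _ ≤ ∑ l ∈ range n, n * ((n : ℝ) * p) ^ l := sum_le_sum (fun l _ => exp_paths p h0 l)
    _ ≤ ∑ l ∈ range n, n * (1 / 2 : ℝ) ^ l := by
        apply sum_le_sum
        intro l _
        gcongr
    _ = n * ∑ l ∈ range n, (1 / 2 : ℝ) ^ l := by rw [mul_sum]
    _ ≤ n * 2 := by
        gcongr
        rw [geom_sum_eq (by norm_num)]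
        have : (0 : ℝ) ≤ (1 / 2) ^ n := by positivity
        rw [div_le_iff_of_neg (by norm_num)]
        linarith
    _ = 2 * n := by ring

theorem choose_bound (hn : 8 ≤ n) : (n : ℝ) ^ 4 / 384 ≤ ((n - 1).choose 4 : ℝ) := by
  have h1 := Nat.pow_le_choose 4 (n - 1) (α := ℝ)
  have h2 : ((n - 1 + 1 - 4 : ℕ) : ℝ) = n - 4 := by
    rw [Nat.sub_add_cancel (by omega), Nat.cast_sub (by omega)]; norm_num
  rw [h2] at h1
  have hn' : (8 : ℝ) ≤ n := by exact_mod_cast hn
  have h3 : ((n : ℝ) / 2) ^ 4 ≤ ((n : ℝ) - 4) ^ 4 := by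
    apply pow_le_pow_left₀ (by positivity); linarith
  have h4 : ((Nat.factorial 4 : ℕ) : ℝ) = 24 := by norm_num [Nat.factorial]
  rw [h4] at h1
  have h5 : ((n : ℝ) / 2) ^ 4 = n ^ 4 / 16 := by ring
  rw [h5] at h3
  rw [div_le_iff₀ (by norm_num)] at h1 ⊢
  linarith

theorem exp_ctr' (hn : 8 ≤ n) :
    (1 / 7680000 : ℝ) * n ≤ ∑ G : SimpleGraph (Fin n), wt ((1 / 10 : ℝ) / n) G * (ctr G).card := by
  have hn' : (8 : ℝ) ≤ n := by exact_mod_cast hn
  have hnpos : (0 : ℝ) < n := by linarith
  have h0 : (0 : ℝ) ≤ (1 / 10 : ℝ) / n := by positivity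
  have h1 : (1 / 10 : ℝ) / n ≤ 1 := by rw [div_le_one hnpos]; linarith
  refine le_trans ?_ (exp_ctr ((1 / 10 : ℝ) / n) h0 h1)
  have hb : (1 / 2 : ℝ) ≤ (1 - (1 / 10 : ℝ) / n) ^ (5 * n) := by
    have := one_add_mul_le_pow (a := -((1 / 10 : ℝ) / n)) (by linarith) (5 * n)
    rw [← sub_eq_add_neg] at this
    refine le_trans ?_ this
    push_cast
    have : 5 * (n : ℝ) * -((1 / 10 : ℝ) / n) = -(1 / 2) := by field_simp; norm_num
    rw [this]; norm_num
  have hc := choose_bound hn
  calc (1 / 7680000 : ℝ) * n = (n : ℝ) * ((n : ℝ) ^ 4 / 384) * (((1 / 10 : ℝ) / n) ^ 4 * (1 / 2)) := by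
        field_simp; norm_num
    _ ≤ _ := by gcongr

/-- the weight of the good graphs -/
theorem good_weight (hn : 8 ≤ n) :
    (1 / 30720000 : ℝ) ≤ ∑ G : SimpleGraph (Fin n),
      (if (1 / 15360000 : ℝ) * n ≤ (ctr G).card ∧ ((pairs G).card : ℝ) ≤ 61440000 * n
        then wt ((1 / 10 : ℝ) / n) G else 0) := by
  have hn' : (8 : ℝ) ≤ n := by exact_mod_cast hn
  have hnpos : (0 : ℝ) < n := by linarith
  set p : ℝ := (1 / 10 : ℝ) / n with hp
  have h0 : 0 ≤ p := by rw [hp]; positivity
  have h1 : p ≤ 1 := by rw [hp, div_le_one hnpos]; linarith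
  have hnp : (n : ℝ) * p ≤ 1 / 2 := by
    rw [hp]
    have : (n : ℝ) * ((1 / 10 : ℝ) / n) = 1 / 10 := by field_simp
    rw [this]; norm_num
  have hA := exp_ctr' hn
  rw [← hp] at hA
  have hB := exp_pairs p h0 h1 hnp
  have hw := fun G : SimpleGraph (Fin n) => wt_nonneg h0 h1 G
  set PA := ∑ G : SimpleGraph (Fin n),
    (if (1 / 15360000 : ℝ) * n ≤ (ctr G).card then wt p G else 0) with hPA
  set PB := ∑ G : SimpleGraph (Fin n),
    (if ((pairs G).card : ℝ) ≤ 61440000 * n then 0 else wt p G) with hPB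
  have hA2 : (1 / 15360000 : ℝ) ≤ PA := by
    have h3 : ∑ G : SimpleGraph (Fin n), wt p G * (ctr G).card
        ≤ ∑ G : SimpleGraph (Fin n), (n * (if (1 / 15360000 : ℝ) * n ≤ (ctr G).card then wt p G else 0)
            + (1 / 15360000 : ℝ) * n * wt p G) := by
      apply sum_le_sum
      intro G _
      have hcn : ((ctr G).card : ℝ) ≤ n := by
        have := card_le_univ (ctr G)
        rw [Fintype.card_fin] at this
        exact_mod_cast this
      have hwG := hw G
      split_ifs with hc
      · have : 0 ≤ (1 / 15360000 : ℝ) * n * wt p G := by positivity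
        nlinarith
      · push Not at hc
        rw [mul_zero, zero_add, mul_comm]
        exact mul_le_mul_of_nonneg_right hc.le hwG
    rw [sum_add_distrib, ← mul_sum, ← mul_sum, wt_sum, ← hPA] at h3
    have h4 : (1 / 15360000 : ℝ) * n ≤ PA * n := by linarith
    exact le_of_mul_le_mul_right h4 hnpos
  have hB2 : PB ≤ 1 / 30720000 := by
    have h3 : (61440000 * (n : ℝ)) * PB ≤ ∑ G : SimpleGraph (Fin n), wt p G * (pairs G).card := by
      rw [hPB, mul_sum]
      apply sum_le_sum
      intro G _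
      have hwG := hw G
      split_ifs with hc
      · rw [mul_zero]; positivity
      · push Not at hc
        rw [mul_comm]
        exact mul_le_mul_of_nonneg_left hc.le hwG
    have h4 : (61440000 * (n : ℝ)) * PB ≤ (61440000 * (n : ℝ)) * (1 / 30720000) := by
      refine h3.trans (hB.trans ?_)
      linarith
    exact le_of_mul_le_mul_left h4 (by positivity)
  have hfin : PA - PB ≤ ∑ G : SimpleGraph (Fin n),
      (if (1 / 15360000 : ℝ) * n ≤ (ctr G).card ∧ ((pairs G).card : ℝ) ≤ 61440000 * n
        then wt p G else 0) := by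
    rw [hPA, hPB, ← sum_sub_distrib]
    apply sum_le_sum
    intro G _
    have hwG := hw G
    by_cases ha : (1 / 15360000 : ℝ) * n ≤ (ctr G).card
    · by_cases hb : ((pairs G).card : ℝ) ≤ 61440000 * n
      · rw [if_pos ha, if_pos hb, if_pos ⟨ha, hb⟩]; linarith
      · have hc : ¬ ((1 / 15360000 : ℝ) * n ≤ (ctr G).card ∧ ((pairs G).card : ℝ) ≤ 61440000 * n) :=
          fun h => hb h.2
        rw [if_pos ha, if_neg hb, if_neg hc]; linarith
    · have hc : ¬ ((1 / 15360000 : ℝ) * n ≤ (ctr G).card ∧ ((pairs G).card : ℝ) ≤ 61440000 * n) :=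
          fun h => ha h.1
      rw [if_neg ha, if_neg hc]
      split_ifs <;> linarith
  have : (1 / 15360000 : ℝ) - 1 / 30720000 = 1 / 30720000 := by norm_num
  linarith

end

end Pool.Agent.Helper472
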