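import Mathlib

set_option autoImplicit false

namespace Pool.LatH472

open Pointwise

/-- closed subgroups of a topological group -/
abbrev CL (G : Type) [Group G] [TopologicalSpace G] : Type := {K : Subgroup G // IsClosed (K : Set G)}

/-- inductively compact: every finite subset lies in a compact subgroup -/
def IndCompact (G : Type) [Group G] [TopologicalSpace G] : Prop :=
  ∀ F : Finset G, ∃ K : Subgroup G, IsCompact (K : Set G) ∧ (↑F : Set G) ⊆ (K : Set G)

/-- every element lies in a compact subgroup -/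
def ElemCompact (G : Type) [Group G] [TopologicalSpace G] : Prop :=
  ∀ g : G, ∃ K : Subgroup G, IsCompact (K : Set G) ∧ g ∈ K

/-- closure of the cyclic subgroup -/
abbrev Zc {H : Type} [Group H] [TopologicalSpace H] [IsTopologicalGroup H] (h : H) : Subgroup H :=
  (Subgroup.zpowers h).topologicalClosure

/-- `h` is *local*: the monothetic group `Zc h` has a largest proper closed subgroup -/
def Loc {H : Type} [Group H] [TopologicalSpace H] [IsTopologicalGroup H] (h : H) : Prop :=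
  ∃ O : Subgroup H, IsClosed (O : Set H) ∧ O < Zc h ∧
    ∀ S : Subgroup H, IsClosed (S : Set H) → S < Zc h → S ≤ O

def StL1 : Prop := ∀ (H : Type) [Group H] [TopologicalSpace H] [IsTopologicalGroup H]
    [LocallyCompactSpace H] [T2Space H] (D : Subgroup H), Dense (D : Set H) →
    (∀ F : Finset H, (↑F : Set H) ⊆ (D : Set H) →
      ∃ K : Subgroup H, IsCompact (K : Set H) ∧ (↑F : Set H) ⊆ (K : Set H)) →
    ∀ (Q : Set H), IsCompact Q → ∃ K : Subgroup H, IsCompact (K : Set H) ∧ Q ⊆ (K : Set H)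

def StL2 : Prop := ∀ (H : Type) [Group H] [TopologicalSpace H] [IsTopologicalGroup H]
    [LocallyCompactSpace H] [T2Space H] (A : Subgroup H) [A.Normal], IsClosed (A : Set H) →
    (∀ Q : Set H, IsCompact Q → Q ⊆ (A : Set H) →
      ∃ K : Subgroup H, IsCompact (K : Set H) ∧ Q ⊆ (K : Set H)) →
    IndCompact (H ⧸ A) → IndCompact H

def StL3 : Prop := ∀ (H : Type) [CommGroup H] [TopologicalSpace H] [IsTopologicalGroup H]
    [T2Space H], ElemCompact H → IndCompact H

def StT0 : Prop := ∀ (H : Type) [Group H] [TopologicalSpace H] [IsTopologicalGroup H]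
    [LocallyCompactSpace H] [T2Space H] [TotallyDisconnectedSpace H],
    ∃ U : Subgroup H, IsOpen (U : Set H) ∧ IsCompact (U : Set H)

def StFI : Prop := ∀ (K : Type) [Group K] [TopologicalSpace K] [IsTopologicalGroup K]
    [CompactSpace K] [T2Space K] [TotallyDisconnectedSpace K] (A : Subgroup K),
    IsClosed (A : Set K) → Finite {B : Subgroup K // IsClosed (B : Set K) ∧ A ≤ B} →
    IsOpen (A : Set K)

def StRES : Prop := ∀ (G H : Type) [Group G] [TopologicalSpace G] [IsTopologicalGroup G]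
    [Group H] [TopologicalSpace H] [IsTopologicalGroup H] (φ : CL G ≃o CL H) (A : CL G),
    ∃ ψ : CL ↥A.1 ≃o CL ↥(φ A).1, ∀ (S : CL ↥A.1) (T : CL G),
      T.1 = S.1.map A.1.subtype → ((ψ S).1).map (φ A).1.subtype = (φ T).1

def StOPN : Prop := ∀ (G H : Type) [Group G] [TopologicalSpace G] [IsTopologicalGroup G]
    [CompactSpace G] [T2Space G] [TotallyDisconnectedSpace G]
    [Group H] [TopologicalSpace H] [IsTopologicalGroup H]
    [LocallyCompactSpace H] [T2Space H] [TotallyDisconnectedSpace H] (φ : CL G ≃o CL H)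
    (W : CL G), IsOpen (W.1 : Set G) → IsOpen ((φ W).1 : Set H)

/-- `M` is a maximal subgroup of `X` such that `A ⊓ M` is maximal in `A` or equal to `A`, for all `A` -/
def PM {X : Type} [Group X] (M : Subgroup X) : Prop :=
  IsCoatom M ∧ ∀ A B : Subgroup X, A ⊓ M ≤ B → B ≤ A → B = A ⊓ M ∨ B = A

/-- conclusion of Schmidt's lemma -/
def CM {X : Type} [Group X] (M : Subgroup X) : Prop :=
  M.Normal ∨ ∃ p q : ℕ, p.Prime ∧ q.Prime ∧ Nat.card (X ⧸ M.normalCore) = p * q

def StSCHA : Prop := ∀ (Γ : Type) [Group Γ] [Finite Γ] (M : Subgroup Γ), PM M →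
    M.normalCore = ⊥ → ¬ IsSimpleGroup Γ →
    (∀ (X : Type) [Group X] [Finite X] (M' : Subgroup X), Nat.card X < Nat.card Γ → PM M' → CM M') →
    CM M

def StSCHB : Prop := ∀ (Γ : Type) [Group Γ] [Finite Γ] (M : Subgroup Γ), PM M →
    IsSimpleGroup Γ →
    (∀ (X : Type) [Group X] [Finite X] (M' : Subgroup X), Nat.card X < Nat.card Γ → PM M' → CM M') →
    M.Normal

def StSCH : Prop := ∀ (Γ : Type) [Group Γ] [Finite Γ] (M : Subgroup Γ), PM M → CM M

def StPQ1 : Prop := ∀ (G H : Type) [Group G] [TopologicalSpace G] [IsTopologicalGroup G]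
    [CompactSpace G] [T2Space G] [TotallyDisconnectedSpace G]
    [Group H] [TopologicalSpace H] [IsTopologicalGroup H]
    [LocallyCompactSpace H] [T2Space H] [TotallyDisconnectedSpace H] (φ : CL G ≃o CL H),
    ElemCompact H → ∀ (S : CL G) [S.1.Normal], IsOpen (S.1 : Set G) → ∀ p q : ℕ, p.Prime → q.Prime →
    Nat.card (G ⧸ S.1) = p * q → ¬ IsCyclic (G ⧸ S.1) → ∀ h : H,
    ∃ X : CL G, S ≤ X ∧ X.1 ≠ ⊤ ∧ h ∈ (φ X).1

def StPQ2 : Prop := ∀ (G H : Type) [Group G] [TopologicalSpace G] [IsTopologicalGroup G]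
    [CompactSpace G] [T2Space G]
    [Group H] [TopologicalSpace H] [IsTopologicalGroup H] [T2Space H] (φ : CL G ≃o CL H)
    (S : CL G) [S.1.Normal], IsOpen (S.1 : Set G) → ∀ p q : ℕ, p.Prime → q.Prime →
    Nat.card (G ⧸ S.1) = p * q → (∀ h : H, ∃ X : CL G, S ≤ X ∧ X.1 ≠ ⊤ ∧ h ∈ (φ X).1) →
    (φ S).1.FiniteIndex

def StPQ : Prop := ∀ (G H : Type) [Group G] [TopologicalSpace G] [IsTopologicalGroup G]
    [CompactSpace G] [T2Space G] [TotallyDisconnectedSpace G]
    [Group H] [TopologicalSpace H] [IsTopologicalGroup H]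
    [LocallyCompactSpace H] [T2Space H] [TotallyDisconnectedSpace H] (φ : CL G ≃o CL H),
    ElemCompact H → ∀ (S : CL G) [S.1.Normal], IsOpen (S.1 : Set G) → ∀ p q : ℕ, p.Prime → q.Prime →
    Nat.card (G ⧸ S.1) = p * q → ¬ IsCyclic (G ⧸ S.1) → (φ S).1.FiniteIndex

def StKL1 : Prop := ∀ (G : Type) [Group G] [TopologicalSpace G] [IsTopologicalGroup G]
    [CompactSpace G] [T2Space G] [TotallyDisconnectedSpace G] (α : CL G ≃o CL G)
    (N : CL G) [N.1.Normal], IsOpen (N.1 : Set G) → (Nat.card (G ⧸ N.1)).Prime →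
    IsOpen ((α N).1 : Set G) ∧ IsCoatom (α N).1 ∧ CM (α N).1

def StKL : Prop := ∀ (G H : Type) [Group G] [TopologicalSpace G] [IsTopologicalGroup G]
    [CompactSpace G] [T2Space G] [TotallyDisconnectedSpace G]
    [Group H] [TopologicalSpace H] [IsTopologicalGroup H]
    [LocallyCompactSpace H] [T2Space H] [TotallyDisconnectedSpace H] (φ : CL G ≃o CL H),
    ElemCompact H → ∀ (N : CL G) [N.1.Normal], IsOpen (N.1 : Set G) → (Nat.card (G ⧸ N.1)).Prime →
    (φ N).1.FiniteIndex

def StORE : Prop := ∀ (Γ Q : Type) [Group Γ] [Finite Γ] [Group Q] [Finite Q] [IsCyclic Q],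
    (Subgroup Γ ≃o Subgroup Q) → ∀ (a b : Γ), a * b = b * a

def StINT : Prop := ∀ (G H : Type) [Group G] [TopologicalSpace G] [IsTopologicalGroup G]
    [Group H] [TopologicalSpace H] [IsTopologicalGroup H] (φ : CL G ≃o CL H) (R : CL G)
    [R.1.Normal] [(φ R).1.Normal], IsOpen (R.1 : Set G) → IsOpen ((φ R).1 : Set H) →
    Nonempty (Subgroup (G ⧸ R.1) ≃o Subgroup (H ⧸ (φ R).1))

def StABQ : Prop := ∀ (G H : Type) [Group G] [TopologicalSpace G] [IsTopologicalGroup G]
    [CompactSpace G] [T2Space G] [TotallyDisconnectedSpace G]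
    [Group H] [TopologicalSpace H] [IsTopologicalGroup H]
    [LocallyCompactSpace H] [T2Space H] [TotallyDisconnectedSpace H] (φ : CL G ≃o CL H),
    ElemCompact H → ∀ (N : CL G) [N.1.Normal], IsOpen (N.1 : Set G) → ∀ h : H,
    ∃ X : CL G, N ≤ X ∧ h ∈ (φ X).1 ∧ ∀ a ∈ X.1, ∀ b ∈ X.1, a * b * a⁻¹ * b⁻¹ ∈ N.1

def StAB : Prop := ∀ (G H : Type) [Group G] [TopologicalSpace G] [IsTopologicalGroup G]
    [CompactSpace G] [T2Space G] [TotallyDisconnectedSpace G]
    [Group H] [TopologicalSpace H] [IsTopologicalGroup H]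
    [LocallyCompactSpace H] [T2Space H] [TotallyDisconnectedSpace H] (φ : CL G ≃o CL H),
    ElemCompact H → ∀ (N : CL G) [N.1.Normal], IsOpen (N.1 : Set G) →
    (∀ a b : G, a * b * a⁻¹ * b⁻¹ ∈ N.1) → (φ N).1.FiniteIndex

def StAFI : Prop := ∀ (G H : Type) [Group G] [TopologicalSpace G] [IsTopologicalGroup G]
    [CompactSpace G] [T2Space G] [TotallyDisconnectedSpace G]
    [Group H] [TopologicalSpace H] [IsTopologicalGroup H]
    [LocallyCompactSpace H] [T2Space H] [TotallyDisconnectedSpace H] (φ : CL G ≃o CL H),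
    ElemCompact H → ∀ (W : CL G), IsOpen (W.1 : Set G) → (φ W).1.FiniteIndex

/-- the axioms for a family `I` of open normal subgroups of finite index used for the completion -/
def GoodFam {H : Type} [Group H] [TopologicalSpace H] (I : Set (Subgroup H)) : Prop :=
  (∀ N ∈ I, N.Normal ∧ IsOpen (N : Set H) ∧ N.FiniteIndex) ∧ (∀ N ∈ I, ∀ N' ∈ I, N ⊓ N' ∈ I) ∧
  (⊤ : Subgroup H) ∈ I ∧ (∀ h : H, h ≠ 1 → ∃ N ∈ I, h ∉ N)

/-- the compactness property of the family coming from the compact side -/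
def HCprop {H : Type} [Group H] (I : Set (Subgroup H)) : Prop :=
  ∀ Z : Subgroup H → Subgroup H, (∀ N ∈ I, N ≤ Z N) →
    (∀ N ∈ I, ∀ N' ∈ I, N ≤ N' → Z N ⊔ N' = Z N') →
    ∀ N₀ ∈ I, Z N₀ ≤ (⨅ N ∈ I, Z N) ⊔ N₀

def StT8 : Prop := ∀ (G H : Type) [Group G] [TopologicalSpace G] [IsTopologicalGroup G]
    [CompactSpace G] [T2Space G] [TotallyDisconnectedSpace G]
    [Group H] [TopologicalSpace H] [IsTopologicalGroup H] [T2Space H] (φ : CL G ≃o CL H),
    (∀ W : CL G, IsOpen (W.1 : Set G) → (φ W).1.FiniteIndex) →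
    ∀ (W : CL G), IsOpen (W.1 : Set G) →
    ∃ N : CL H, N.1.Normal ∧ N ≤ φ W ∧ IsOpen ((φ.symm N).1 : Set G)

def StT9l : Prop := ∀ (G H : Type) [Group G] [TopologicalSpace G] [IsTopologicalGroup G]
    [CompactSpace G] [T2Space G] [TotallyDisconnectedSpace G]
    [Group H] [TopologicalSpace H] [IsTopologicalGroup H] [T2Space H] (φ : CL G ≃o CL H),
    (∀ W : CL G, IsOpen (W.1 : Set G) → (φ W).1.FiniteIndex) →
    (∀ (W : CL G), IsOpen (W.1 : Set G) →
      ∃ N : CL H, N.1.Normal ∧ N ≤ φ W ∧ IsOpen ((φ.symm N).1 : Set G)) →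
    ∃ I : Set (Subgroup H), GoodFam I ∧ HCprop I

/-- `i : H →* K` is a dense injection in a compact group, `M N` (N ∈ I) a basis of open normal
subgroups of `K` with `i⁻¹ (M N) = N` -/
def Compl {H K : Type} [Group H] [TopologicalSpace H] [Group K] [TopologicalSpace K]
    (I : Set (Subgroup H)) (i : H →* K) (M : Subgroup H → Subgroup K) : Prop :=
  Continuous i ∧ Function.Injective i ∧ DenseRange i ∧
    (∀ N ∈ I, (M N).Normal ∧ IsOpen ((M N : Subgroup K) : Set K) ∧ (M N).comap i = N) ∧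
    (∀ N ∈ I, ∀ N' ∈ I, N ≤ N' → M N ≤ M N') ∧
    (∀ O ∈ nhds (1 : K), ∃ N ∈ I, ((M N : Subgroup K) : Set K) ⊆ O)

def StT9k : Prop := ∀ (H : Type) [Group H] [TopologicalSpace H] [IsTopologicalGroup H]
    [T2Space H] (I : Set (Subgroup H)), GoodFam I →
    ∃ (K : Type) (_ : Group K) (_ : TopologicalSpace K) (_ : IsTopologicalGroup K)
      (_ : CompactSpace K) (_ : T2Space K) (i : H →* K) (M : Subgroup H → Subgroup K),
      Compl I i M

def StT9f : Prop := ∀ (H : Type) [Group H] [TopologicalSpace H] [IsTopologicalGroup H]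
    [T2Space H] (K : Type) [Group K] [TopologicalSpace K] [IsTopologicalGroup K]
    [CompactSpace K] [T2Space K] (I : Set (Subgroup H)) (i : H →* K) (M : Subgroup H → Subgroup K),
    ElemCompact H → GoodFam I → HCprop I → Compl I i M →
    ∀ (f : H), Loc f → ∀ k : K, ∃ h : H, i h = k⁻¹ * i f * k

def StT10a : Prop := ∀ (H : Type) [Group H] [TopologicalSpace H] [IsTopologicalGroup H]
    [T2Space H] (K : Type) [Group K] [TopologicalSpace K] [IsTopologicalGroup K]
    [CompactSpace K] [T2Space K] (U : Subgroup H), IsCompact (U : Set H) → Countable (H ⧸ U) →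
    (∀ O ∈ nhds (1 : K), ∃ M : Subgroup K, M.Normal ∧ IsOpen (M : Set K) ∧ (M : Set K) ⊆ O) →
    ∀ (i : H →* K), Continuous i → DenseRange i → ∀ (f : H),
    (∀ k : K, ∃ h : H, i h = k⁻¹ * i f * k) →
    ∃ (M : Subgroup K) (B : Subgroup H), M.Normal ∧ IsOpen (M : Set K) ∧ IsCompact (B : Set H) ∧
      ∀ m ∈ M, ∃ u ∈ B, i u = (i f)⁻¹ * m⁻¹ * i f * m

def StT10b : Prop := ∀ (H : Type) [Group H] [TopologicalSpace H] [IsTopologicalGroup H]
    [T2Space H] (K : Type) [Group K] [TopologicalSpace K] [IsTopologicalGroup K]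
    [CompactSpace K] [T2Space K] (i : H →* K), Continuous i → Function.Injective i → DenseRange i →
    ∀ (F : Finset H), Dense ((Subgroup.closure (↑F : Set H) : Subgroup H) : Set H) →
    (∀ f ∈ F, ∃ (M : Subgroup K) (B : Subgroup H), M.Normal ∧ IsOpen (M : Set K) ∧
      IsCompact (B : Set H) ∧ ∀ m ∈ M, ∃ u ∈ B, i u = (i f)⁻¹ * m⁻¹ * i f * m) →
    ∃ (B : Subgroup H) (_ : B.Normal), IsCompact (B : Set H) ∧
      (Subgroup.center (H ⧸ B)).FiniteIndex

def StT10c : Prop := ∀ (H : Type) [Group H] [TopologicalSpace H] [IsTopologicalGroup H]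
    (U : Subgroup H), IsOpen (U : Set H) → ∀ (F : Finset H),
    Dense ((Subgroup.closure (↑F : Set H) : Subgroup H) : Set H) → Countable (H ⧸ U)

def StT10d : Prop := ∀ (H : Type) [Group H] [TopologicalSpace H] [IsTopologicalGroup H]
    [LocallyCompactSpace H] [T2Space H], ElemCompact H → ∀ (B : Subgroup H) [B.Normal],
    IsCompact (B : Set H) → (Subgroup.center (H ⧸ B)).FiniteIndex → IndCompact H

def StT11a : Prop := ∀ (H : Type) [Group H] [TopologicalSpace H] [IsTopologicalGroup H]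
    [LocallyCompactSpace H] [T2Space H] [TotallyDisconnectedSpace H], ElemCompact H →
    Dense ((Subgroup.closure {h : H | Loc h} : Subgroup H) : Set H)

/-- the case where `G` is profinite and `H` is topologically generated by finitely many local elements -/
def StCC : Prop := ∀ (G H : Type) [Group G] [TopologicalSpace G] [IsTopologicalGroup G]
    [CompactSpace G] [T2Space G] [TotallyDisconnectedSpace G]
    [Group H] [TopologicalSpace H] [IsTopologicalGroup H]
    [LocallyCompactSpace H] [T2Space H] [TotallyDisconnectedSpace H], (CL G ≃o CL H) →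
    ElemCompact H → ∀ F : Finset H, (∀ f ∈ F, Loc f) →
    Dense ((Subgroup.closure (↑F : Set H) : Subgroup H) : Set H) → IndCompact H

def StTD : Prop := ∀ (G H : Type) [Group G] [TopologicalSpace G] [IsTopologicalGroup G]
    [LocallyCompactSpace G] [T2Space G] [TotallyDisconnectedSpace G]
    [Group H] [TopologicalSpace H] [IsTopologicalGroup H]
    [LocallyCompactSpace H] [T2Space H] [TotallyDisconnectedSpace H], (CL G ≃o CL H) →
    IndCompact G → ElemCompact H → IndCompact H


end Pool.LatH472
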