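import Mathlib
import Pool.Agent.Helper472.LatDefs

set_option autoImplicit false

namespace Pool.LatH472

open Pointwise

/-- the identity component is commutative -/
def GC (G : Type) [Group G] [TopologicalSpace G] [IsTopologicalGroup G] : Prop :=
  ∀ a ∈ Subgroup.connectedComponentOfOne G, ∀ b ∈ Subgroup.connectedComponentOfOne G, a * b = b * a

/-- relatively cofinite closed subgroups (a purely lattice theoretic property) -/
def FR {G : Type} [Group G] [TopologicalSpace G] (W : CL G) : Prop :=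
  ∀ Y : CL G, Finite {B : CL G // W.1 ⊓ Y.1 ≤ B.1 ∧ B ≤ Y}

def StL7 : Prop := ∀ (K : Type) [CommGroup K] [TopologicalSpace K] [IsTopologicalGroup K]
    [CompactSpace K] [T2Space K], Finite (CL K) → Finite K

def StChars : Prop := ∀ (K : Type) [CommGroup K] [TopologicalSpace K] [IsTopologicalGroup K]
    [CompactSpace K] [T2Space K] (k : K), k ≠ 1 → ∃ χ : ContinuousMonoidHom K Circle, χ k ≠ 1

def StABF : Prop := ∀ (K : Type) [Group K] [TopologicalSpace K] [IsTopologicalGroup K]
    [CompactSpace K] [T2Space K], (∀ a b : K, a * b = b * a) → ∀ (A : Subgroup K),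
    IsClosed (A : Set K) → Finite {B : Subgroup K // IsClosed (B : Set K) ∧ A ≤ B} →
    IsOpen (A : Set K)

def StFI0 : Prop := ∀ (K : Type) [Group K] [TopologicalSpace K] [IsTopologicalGroup K]
    [CompactSpace K] [T2Space K] (A : Subgroup K), Subgroup.connectedComponentOfOne K ≤ A →
    IsClosed (A : Set K) → Finite {B : Subgroup K // IsClosed (B : Set K) ∧ A ≤ B} →
    IsOpen (A : Set K)

def StFR : Prop := ∀ (G : Type) [Group G] [TopologicalSpace G] [IsTopologicalGroup G]
    [CompactSpace G] [T2Space G], GC G → ∀ W : CL G, FR W → IsOpen (W.1 : Set G)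

def StFR1 : Prop := ∀ (H : Type) [Group H] [TopologicalSpace H] [IsTopologicalGroup H]
    (W : CL H), W.1.FiniteIndex → FR W

def StFR2 : Prop := ∀ (G H : Type) [Group G] [TopologicalSpace G] [IsTopologicalGroup G]
    [Group H] [TopologicalSpace H] [IsTopologicalGroup H] (φ : CL G ≃o CL H) (W : CL G),
    FR W → FR (φ W)

def StPQ1g : Prop := ∀ (G H : Type) [Group G] [TopologicalSpace G] [IsTopologicalGroup G]
    [CompactSpace G] [T2Space G]
    [Group H] [TopologicalSpace H] [IsTopologicalGroup H] [T2Space H] (φ : CL G ≃o CL H),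
    ElemCompact H → ∀ (S : CL G) [S.1.Normal], IsOpen (S.1 : Set G) → ∀ p q : ℕ, p.Prime → q.Prime →
    Nat.card (G ⧸ S.1) = p * q → ¬ IsCyclic (G ⧸ S.1) → ∀ h : H,
    ∃ X : CL G, S ≤ X ∧ X.1 ≠ ⊤ ∧ h ∈ (φ X).1

def StKL1g : Prop := ∀ (G : Type) [Group G] [TopologicalSpace G] [IsTopologicalGroup G]
    [CompactSpace G] [T2Space G], GC G → ∀ (α : CL G ≃o CL G)
    (N : CL G) [N.1.Normal], IsOpen (N.1 : Set G) → (Nat.card (G ⧸ N.1)).Prime →
    IsOpen ((α N).1 : Set G) ∧ IsCoatom (α N).1 ∧ CM (α N).1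

def StKLg : Prop := ∀ (G H : Type) [Group G] [TopologicalSpace G] [IsTopologicalGroup G]
    [CompactSpace G] [T2Space G]
    [Group H] [TopologicalSpace H] [IsTopologicalGroup H] [T2Space H], GC G →
    ∀ (φ : CL G ≃o CL H),
    ElemCompact H → ∀ (N : CL G) [N.1.Normal], IsOpen (N.1 : Set G) → (Nat.card (G ⧸ N.1)).Prime →
    (φ N).1.FiniteIndex

def StABQg : Prop := ∀ (G H : Type) [Group G] [TopologicalSpace G] [IsTopologicalGroup G]
    [CompactSpace G] [T2Space G]
    [Group H] [TopologicalSpace H] [IsTopologicalGroup H] [T2Space H] (φ : CL G ≃o CL H),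
    ElemCompact H → ∀ (N : CL G) [N.1.Normal], IsOpen (N.1 : Set G) → ∀ h : H,
    ∃ X : CL G, N ≤ X ∧ h ∈ (φ X).1 ∧ ∀ a ∈ X.1, ∀ b ∈ X.1, a * b * a⁻¹ * b⁻¹ ∈ N.1

def StABg : Prop := ∀ (G H : Type) [Group G] [TopologicalSpace G] [IsTopologicalGroup G]
    [CompactSpace G] [T2Space G]
    [Group H] [TopologicalSpace H] [IsTopologicalGroup H] [T2Space H], GC G →
    ∀ (φ : CL G ≃o CL H),
    ElemCompact H → ∀ (N : CL G) [N.1.Normal], IsOpen (N.1 : Set G) →
    (∀ a b : G, a * b * a⁻¹ * b⁻¹ ∈ N.1) → (φ N).1.FiniteIndex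

def StAFIg : Prop := ∀ (G H : Type) [Group G] [TopologicalSpace G] [IsTopologicalGroup G]
    [CompactSpace G] [T2Space G]
    [Group H] [TopologicalSpace H] [IsTopologicalGroup H] [T2Space H], GC G →
    ∀ (φ : CL G ≃o CL H),
    ElemCompact H → ∀ (W : CL G), IsOpen (W.1 : Set G) → (φ W).1.FiniteIndex

def StT8g : Prop := ∀ (G H : Type) [Group G] [TopologicalSpace G] [IsTopologicalGroup G]
    [CompactSpace G] [T2Space G]
    [Group H] [TopologicalSpace H] [IsTopologicalGroup H] [T2Space H], GC G →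
    ∀ (φ : CL G ≃o CL H),
    (∀ W : CL G, IsOpen (W.1 : Set G) → (φ W).1.FiniteIndex) →
    ∀ (W : CL G), IsOpen (W.1 : Set G) →
    ∃ N : CL H, N.1.Normal ∧ N ≤ φ W ∧ IsOpen ((φ.symm N).1 : Set G)

/-- quotient by the (image of the) identity component -/
def StCORE : Prop := ∀ (G H : Type) [Group G] [TopologicalSpace G] [IsTopologicalGroup G]
    [CompactSpace G] [T2Space G]
    [Group H] [TopologicalSpace H] [IsTopologicalGroup H] [T2Space H] (φ : CL G ≃o CL H),
    (∀ W : CL G, IsOpen (W.1 : Set G) → (φ W).1.FiniteIndex) →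
    (∀ (W : CL G), IsOpen (W.1 : Set G) →
      ∃ N : CL H, N.1.Normal ∧ N ≤ φ W ∧ IsOpen ((φ.symm N).1 : Set G)) →
    ∃ E : CL G, E.1 = Subgroup.connectedComponentOfOne G ∧ (φ E).1.Normal ∧
      ∀ h : H, h ∉ (φ E).1 → ∃ N : Subgroup H, N.Normal ∧ IsOpen (N : Set H) ∧ (φ E).1 ≤ N ∧ h ∉ N

def StQUO : Prop := ∀ (G H : Type) [Group G] [TopologicalSpace G] [IsTopologicalGroup G]
    [Group H] [TopologicalSpace H] [IsTopologicalGroup H] (φ : CL G ≃o CL H) (E : CL G)
    [E.1.Normal] [(φ E).1.Normal], Nonempty (CL (G ⧸ E.1) ≃o CL (H ⧸ (φ E).1))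

def StT11ag : Prop := ∀ (H : Type) [Group H] [TopologicalSpace H] [IsTopologicalGroup H]
    [T2Space H], ElemCompact H →
    Dense ((Subgroup.closure {h : H | Loc h} : Subgroup H) : Set H)

/-- a compact abelian group topologically generated by finitely many local elements is totally
disconnected -/
def StLTD : Prop := ∀ (P : Type) [Group P] [TopologicalSpace P] [IsTopologicalGroup P]
    [CompactSpace P] [T2Space P], (∀ a b : P, a * b = b * a) → ∀ F : Finset P, (∀ f ∈ F, Loc f) →
    Dense ((Subgroup.closure (↑F : Set P) : Subgroup P) : Set P) → TotallyDisconnectedSpace P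

/-- `G` profinite, `H` arbitrary -/
def StG1 : Prop := ∀ (G H : Type) [Group G] [TopologicalSpace G] [IsTopologicalGroup G]
    [CompactSpace G] [T2Space G] [TotallyDisconnectedSpace G]
    [Group H] [TopologicalSpace H] [IsTopologicalGroup H]
    [LocallyCompactSpace H] [T2Space H], (CL G ≃o CL H) → ElemCompact H → IndCompact H

/-- reduction to finitely many local elements -/
def StRED : Prop := ∀ (G H : Type) [Group G] [TopologicalSpace G] [IsTopologicalGroup G]
    [LocallyCompactSpace G] [T2Space G]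
    [Group H] [TopologicalSpace H] [IsTopologicalGroup H]
    [LocallyCompactSpace H] [T2Space H], (CL G ≃o CL H) → IndCompact G → ElemCompact H →
    (∀ (A : CL G), IsCompact (A.1 : Set G) →
      (∃ F : Finset G, (∀ f ∈ F, Loc f) ∧ A.1 = (Subgroup.closure (↑F : Set G)).topologicalClosure) →
      ∀ (X : CL H), (CL ↥A.1 ≃o CL ↥X.1) → IndCompact ↥X.1) → IndCompact H

/-- `G` compact abelian, `H` arbitrary -/
def StG2 : Prop := ∀ (G H : Type) [Group G] [TopologicalSpace G] [IsTopologicalGroup G]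
    [CompactSpace G] [T2Space G]
    [Group H] [TopologicalSpace H] [IsTopologicalGroup H]
    [LocallyCompactSpace H] [T2Space H], (∀ a b : G, a * b = b * a) → (CL G ≃o CL H) →
    ElemCompact H → IndCompact H

/-- `G` compact with commutative identity component, `H` arbitrary -/
def StG3 : Prop := ∀ (G H : Type) [Group G] [TopologicalSpace G] [IsTopologicalGroup G]
    [CompactSpace G] [T2Space G]
    [Group H] [TopologicalSpace H] [IsTopologicalGroup H]
    [LocallyCompactSpace H] [T2Space H], GC G → (CL G ≃o CL H) →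
    ElemCompact H → IndCompact H

/-- final: every compact subgroup of `G` has commutative identity component, `H` arbitrary -/
def StG4 : Prop := ∀ (G H : Type) [Group G] [TopologicalSpace G] [IsTopologicalGroup G]
    [LocallyCompactSpace G] [T2Space G]
    [Group H] [TopologicalSpace H] [IsTopologicalGroup H]
    [LocallyCompactSpace H] [T2Space H],
    (∀ C : Subgroup G, IsCompact (C : Set G) → GC ↥C) → (CL G ≃o CL H) →
    IndCompact G → ElemCompact H → IndCompact H


end Pool.LatH472
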