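import Mathlib
import Pool.Agent.Helper472.LatDefs2

set_option autoImplicit false

namespace Pool.LatH472

open Pointwise

/-- kernels of continuous finite dimensional unitary representations -/
def IsRepKer {G : Type} [Group G] [TopologicalSpace G] (N : Subgroup G) : Prop :=
  ∃ (ι : Type) (_ : Fintype ι) (_ : DecidableEq ι) (ρ : G →* Matrix.unitaryGroup ι ℂ),
    Continuous ρ ∧ ρ.ker = N

/-- Peter–Weyl -/
def StPW : Prop := ∀ (K : Type) [Group K] [TopologicalSpace K] [IsTopologicalGroup K]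
    [CompactSpace K] [T2Space K] (k : K), k ≠ 1 →
    ∃ (ι : Type) (_ : Fintype ι) (_ : DecidableEq ι) (ρ : K →* Matrix.unitaryGroup ι ℂ),
      Continuous ρ ∧ ρ k ≠ 1

open Matrix in
/-- the Lie algebra of a subgroup of the unitary group -/
def LieAlg {ι : Type} [Fintype ι] [DecidableEq ι] (L : Subgroup (Matrix.unitaryGroup ι ℂ)) :
    Set (Matrix ι ι ℂ) :=
  {X | Xᴴ = -X ∧ ∀ t : ℝ, ∃ u ∈ L, (u : Matrix ι ι ℂ) = NormedSpace.exp (t • X)}

def StCST1 : Prop := ∀ (ι : Type) [Fintype ι] [DecidableEq ι]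
    (L : Subgroup (Matrix.unitaryGroup ι ℂ)), IsClosed (L : Set (Matrix.unitaryGroup ι ℂ)) →
    ∀ X ∈ LieAlg L, ∀ Y ∈ LieAlg L, X + Y ∈ LieAlg L ∧ X - Y ∈ LieAlg L

def StCST2 : Prop := ∀ (ι : Type) [Fintype ι] [DecidableEq ι]
    (L : Subgroup (Matrix.unitaryGroup ι ℂ)), IsClosed (L : Set (Matrix.unitaryGroup ι ℂ)) →
    ∀ V ∈ nhds (0 : Matrix ι ι ℂ), ∃ O ∈ nhds (1 : Matrix.unitaryGroup ι ℂ), ∀ u ∈ L, u ∈ O →
      ∃ X ∈ LieAlg L, X ∈ V ∧ NormedSpace.exp X = (u : Matrix ι ι ℂ)

def StTTL : Prop := ∀ (ι : Type) [Fintype ι] [DecidableEq ι]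
    (L : Subgroup (Matrix.unitaryGroup ι ℂ)), IsClosed (L : Set (Matrix.unitaryGroup ι ℂ)) →
    IsConnected (L : Set (Matrix.unitaryGroup ι ℂ)) →
    ∀ c ∈ L, ∃ X ∈ LieAlg L, NormedSpace.exp X = (c : Matrix ι ι ℂ)

def StNSS : Prop := ∀ (ι : Type) [Fintype ι] [DecidableEq ι],
    ∃ O ∈ nhds (1 : Matrix.unitaryGroup ι ℂ), ∀ S : Subgroup (Matrix.unitaryGroup ι ℂ),
      (S : Set (Matrix.unitaryGroup ι ℂ)) ⊆ O → S = ⊥

def StTRC : Prop := ∀ (ι : Type) [Fintype ι] [DecidableEq ι], ∃ S : Set ℂ, S.Countable ∧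
    ∀ (Z : Type) [Group Z] [TopologicalSpace Z] [IsTopologicalGroup Z]
      [CompactSpace Z] [T2Space Z] [TotallyDisconnectedSpace Z]
      (ρ : Z →* Matrix.unitaryGroup ι ℂ), Continuous ρ → ∀ z : Z,
      Matrix.trace ((ρ z : Matrix.unitaryGroup ι ℂ) : Matrix ι ι ℂ) ∈ S

def StTR1 : Prop := ∀ (ι : Type) [Fintype ι] [DecidableEq ι] (u : Matrix.unitaryGroup ι ℂ),
    Matrix.trace (u : Matrix ι ι ℂ) = Fintype.card ι → u = 1

def StDIR : Prop := ∀ (G : Type) [Group G] [TopologicalSpace G] [IsTopologicalGroup G]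
    (N N' : Subgroup G), IsRepKer N → IsRepKer N' → IsRepKer (N ⊓ N')

/-- `A` is a closed subgroup containing `c` and `N`, commutative and connected modulo `N` -/
def ModTorus {G : Type} [Group G] [TopologicalSpace G] (N : Subgroup G) (c : G) (A : Subgroup G) :
    Prop :=
  IsClosed (A : Set G) ∧ N ≤ A ∧ c ∈ A ∧ (∀ a ∈ A, ∀ b ∈ A, a * b * a⁻¹ * b⁻¹ ∈ N) ∧
    IsPreconnected ((QuotientGroup.mk : G → G ⧸ N) '' (A : Set G))

def StTTq : Prop := ∀ (G : Type) [Group G] [TopologicalSpace G] [IsTopologicalGroup G]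
    [CompactSpace G] [T2Space G] [ConnectedSpace G] (N : Subgroup G), IsRepKer N → ∀ c : G,
    ∃ A : Subgroup G, ModTorus N c A

def StULT : Prop := ∀ (G : Type) [Group G] [TopologicalSpace G] [IsTopologicalGroup G]
    [CompactSpace G] [T2Space G] (I : Set (Subgroup G)), I.Nonempty →
    (∀ N ∈ I, N.Normal ∧ IsClosed (N : Set G)) →
    (∀ N ∈ I, ∀ N' ∈ I, N ⊓ N' ∈ I) → (∀ g : G, g ≠ 1 → ∃ N ∈ I, g ∉ N) →
    ∀ c : G, (∀ N ∈ I, ∃ A : Subgroup G, ModTorus N c A) →
    ∃ K : Subgroup G, IsClosed (K : Set G) ∧ c ∈ K ∧ IsConnected (K : Set G) ∧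
      ∀ a ∈ K, ∀ b ∈ K, a * b = b * a

/-- in a compact connected group every element lies in a compact connected commutative subgroup -/
def StTT : Prop := ∀ (G : Type) [Group G] [TopologicalSpace G] [IsTopologicalGroup G]
    [CompactSpace G] [T2Space G] [ConnectedSpace G] (c : G),
    ∃ K : Subgroup G, IsClosed (K : Set G) ∧ c ∈ K ∧ IsConnected (K : Set G) ∧
      ∀ a ∈ K, ∀ b ∈ K, a * b = b * a

def StFRa : Prop := ∀ (G : Type) [Group G] [TopologicalSpace G] [IsTopologicalGroup G]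
    [CompactSpace G] [T2Space G], ∀ W : CL G, FR W → IsOpen (W.1 : Set G)

def StKL1a : Prop := ∀ (G : Type) [Group G] [TopologicalSpace G] [IsTopologicalGroup G]
    [CompactSpace G] [T2Space G] (α : CL G ≃o CL G)
    (N : CL G) [N.1.Normal], IsOpen (N.1 : Set G) → (Nat.card (G ⧸ N.1)).Prime →
    IsOpen ((α N).1 : Set G) ∧ IsCoatom (α N).1 ∧ CM (α N).1

def StKLa : Prop := ∀ (G H : Type) [Group G] [TopologicalSpace G] [IsTopologicalGroup G]
    [CompactSpace G] [T2Space G]
    [Group H] [TopologicalSpace H] [IsTopologicalGroup H] [T2Space H] (φ : CL G ≃o CL H),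
    ElemCompact H → ∀ (N : CL G) [N.1.Normal], IsOpen (N.1 : Set G) → (Nat.card (G ⧸ N.1)).Prime →
    (φ N).1.FiniteIndex

def StABa : Prop := ∀ (G H : Type) [Group G] [TopologicalSpace G] [IsTopologicalGroup G]
    [CompactSpace G] [T2Space G]
    [Group H] [TopologicalSpace H] [IsTopologicalGroup H] [T2Space H] (φ : CL G ≃o CL H),
    ElemCompact H → ∀ (N : CL G) [N.1.Normal], IsOpen (N.1 : Set G) →
    (∀ a b : G, a * b * a⁻¹ * b⁻¹ ∈ N.1) → (φ N).1.FiniteIndex

def StAFIa : Prop := ∀ (G H : Type) [Group G] [TopologicalSpace G] [IsTopologicalGroup G]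
    [CompactSpace G] [T2Space G]
    [Group H] [TopologicalSpace H] [IsTopologicalGroup H] [T2Space H] (φ : CL G ≃o CL H),
    ElemCompact H → ∀ (W : CL G), IsOpen (W.1 : Set G) → (φ W).1.FiniteIndex

def StT8a : Prop := ∀ (G H : Type) [Group G] [TopologicalSpace G] [IsTopologicalGroup G]
    [CompactSpace G] [T2Space G]
    [Group H] [TopologicalSpace H] [IsTopologicalGroup H] [T2Space H] (φ : CL G ≃o CL H),
    (∀ W : CL G, IsOpen (W.1 : Set G) → (φ W).1.FiniteIndex) →
    ∀ (W : CL G), IsOpen (W.1 : Set G) →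
    ∃ N : CL H, N.1.Normal ∧ N ≤ φ W ∧ IsOpen ((φ.symm N).1 : Set G)

/-- `G` profinite implies `H` totally disconnected -/
def StG1td : Prop := ∀ (G H : Type) [Group G] [TopologicalSpace G] [IsTopologicalGroup G]
    [CompactSpace G] [T2Space G] [TotallyDisconnectedSpace G]
    [Group H] [TopologicalSpace H] [IsTopologicalGroup H] [T2Space H], (CL G ≃o CL H) →
    ElemCompact H → TotallyDisconnectedSpace H

/-- compact connected commutative groups go to compact connected groups -/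
def StEPS2 : Prop := ∀ (K H : Type) [Group K] [TopologicalSpace K] [IsTopologicalGroup K]
    [CompactSpace K] [T2Space K] [ConnectedSpace K]
    [Group H] [TopologicalSpace H] [IsTopologicalGroup H]
    [LocallyCompactSpace H] [T2Space H], (∀ a b : K, a * b = b * a) → (CL K ≃o CL H) →
    ElemCompact H → CompactSpace H ∧ ConnectedSpace H

/-- a compact connected group lattice-isomorphic to a compact commutative group is commutative -/
def StEPS3 : Prop := ∀ (K H : Type) [Group K] [TopologicalSpace K] [IsTopologicalGroup K]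
    [CompactSpace K] [T2Space K]
    [Group H] [TopologicalSpace H] [IsTopologicalGroup H]
    [CompactSpace H] [T2Space H] [ConnectedSpace H], (∀ a b : K, a * b = b * a) →
    (CL K ≃o CL H) → ∀ x y : H, x * y = y * x

/-- all compact connected commutative subgroups lie in one compact set -/
def StCHAB : Prop := ∀ (H : Type) [Group H] [TopologicalSpace H] [IsTopologicalGroup H]
    [LocallyCompactSpace H] [T2Space H], ElemCompact H →
    ∃ C : Set H, IsCompact C ∧ ∀ S : Subgroup H, IsCompact (S : Set H) → IsConnected (S : Set H) →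
      (∀ a ∈ S, ∀ b ∈ S, a * b = b * a) → (S : Set H) ⊆ C

def StDENS : Prop := ∀ (Z : Type) [Group Z] [TopologicalSpace Z] [IsTopologicalGroup Z]
    [CompactSpace Z] [T2Space Z], (∀ a b : Z, a * b = b * a) →
    Dense {z : Z | IsTotallyDisconnected ((Zc z : Subgroup Z) : Set Z)}

def StCYC : Prop := ∀ (Γ Q : Type) [Group Γ] [Finite Γ] [Group Q] [Finite Q] [IsCyclic Q],
    (Subgroup Γ ≃o Subgroup Q) → IsCyclic Γ

def StPROC : Prop := ∀ (C E : Type) [Group C] [TopologicalSpace C] [IsTopologicalGroup C]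
    [CompactSpace C] [T2Space C] [TotallyDisconnectedSpace C]
    [Group E] [TopologicalSpace E] [IsTopologicalGroup E]
    [CompactSpace E] [T2Space E] [TotallyDisconnectedSpace E], (CL C ≃o CL E) →
    (∃ e : E, Zc e = ⊤) → ∃ c : C, Zc c = ⊤

/-- `G` compact connected -/
def StCCC : Prop := ∀ (G H : Type) [Group G] [TopologicalSpace G] [IsTopologicalGroup G]
    [CompactSpace G] [T2Space G] [ConnectedSpace G]
    [Group H] [TopologicalSpace H] [IsTopologicalGroup H]
    [LocallyCompactSpace H] [T2Space H], (CL G ≃o CL H) → ElemCompact H → CompactSpace H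

/-- `G` compact, `H` arbitrary -/
def StG3a : Prop := ∀ (G H : Type) [Group G] [TopologicalSpace G] [IsTopologicalGroup G]
    [CompactSpace G] [T2Space G]
    [Group H] [TopologicalSpace H] [IsTopologicalGroup H]
    [LocallyCompactSpace H] [T2Space H], (CL G ≃o CL H) →
    ElemCompact H → IndCompact H

/-- a compact commutative group is the product of its identity component and a closed totally
disconnected subgroup -/
def StDEC : Prop := ∀ (Z : Type) [Group Z] [TopologicalSpace Z] [IsTopologicalGroup Z]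
    [CompactSpace Z] [T2Space Z], (∀ a b : Z, a * b = b * a) →
    ∃ E : Subgroup Z, IsClosed (E : Set Z) ∧ IsTotallyDisconnected (E : Set Z) ∧
      ∀ z : Z, ∃ e ∈ E, ∃ c ∈ Subgroup.connectedComponentOfOne Z, z = e * c


end Pool.LatH472
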