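import Mathlib
import Pool.Agent.Helper472.LatDefs

set_option autoImplicit false

namespace Pool.LatH472

open Pointwise

theorem L1 (H : Type) [Group H] [TopologicalSpace H] [IsTopologicalGroup H]
    [LocallyCompactSpace H] [T2Space H] (D : Subgroup H) (hD : Dense (D : Set H))
    (h : ∀ F : Finset H, (↑F : Set H) ⊆ (D : Set H) →
      ∃ K : Subgroup H, IsCompact (K : Set H) ∧ (↑F : Set H) ⊆ (K : Set H))
    (Q : Set H) (hQ : IsCompact Q) :
    ∃ K : Subgroup H, IsCompact (K : Set H) ∧ Q ⊆ (K : Set H) := by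
  classical
  obtain ⟨V, hV, hV1⟩ := exists_compact_mem_nhds (1 : H)
  obtain ⟨P, hPdef⟩ : ∃ P : Set H, P = (Q ∪ V) ∪ (Q ∪ V)⁻¹ := ⟨_, rfl⟩
  have hPc : IsCompact P := by
    rw [hPdef]
    exact (hQ.union hV).union (hQ.union hV).inv
  have hPinv : ∀ y ∈ P, y⁻¹ ∈ P := by
    intro y hy
    rw [hPdef] at hy ⊢
    rcases hy with hy | hy
    · exact Or.inr (by rw [Set.mem_inv, inv_inv]; exact hy)
    · exact Or.inl hy
  have hQP : Q ⊆ P := by
    rw [hPdef]
    exact fun y hy => Or.inl (Or.inl hy)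
  have hPn : P ∈ nhds (1 : H) := by
    refine Filter.mem_of_superset hV1 ?_
    rw [hPdef]
    exact fun y hy => Or.inl (Or.inr hy)
  have h1P : (1 : H) ∈ P := mem_of_mem_nhds hPn
  have h1U : (1 : H) ∈ interior P := mem_interior_iff_mem_nhds.2 hPn
  have hPP : IsCompact (P * P) := hPc.mul hPc
  obtain ⟨t, ht⟩ := hPP.elim_finite_subcover
    (fun d : D => {y : H | (d : H)⁻¹ * y ∈ interior P})
    (fun d => isOpen_interior.preimage (continuous_const.mul continuous_id)) (by
      intro y _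
      have ho : IsOpen {d : H | d⁻¹ * y ∈ interior P} :=
        isOpen_interior.preimage (continuous_inv.mul continuous_const)
      have hne : {d : H | d⁻¹ * y ∈ interior P}.Nonempty := by
        refine ⟨y, ?_⟩
        show y⁻¹ * y ∈ interior P
        rw [inv_mul_cancel]
        exact h1U
      obtain ⟨d, hdD, hd⟩ := hD.exists_mem_open ho hne
      rw [Set.mem_iUnion]
      exact ⟨⟨d, by first | exact hd | exact hdD⟩, by first | exact hdD | exact hd⟩)
  obtain ⟨K0, hK0, hFK0⟩ := h (t.image Subtype.val) (by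
    intro x hx
    obtain ⟨d, -, rfl⟩ := Finset.mem_image.1 (Finset.mem_coe.1 hx)
    exact d.2)
  have hcov : ∀ y ∈ P * P, ∃ d ∈ K0, d⁻¹ * y ∈ P := by
    intro y hy
    have h1 := ht hy
    rw [Set.mem_iUnion₂] at h1
    obtain ⟨d, hd, hdy⟩ := h1
    exact ⟨d, hFK0 (Finset.mem_coe.2 (Finset.mem_image.2 ⟨d, hd, rfl⟩)), interior_subset hdy⟩
  have hstep : ∀ x y : H, (∃ k ∈ K0, ∃ q ∈ P, x = k * q) → y ∈ P →
      ∃ k ∈ K0, ∃ q ∈ P, x * y = k * q := by
    rintro x y ⟨k, hk, q, hq, rfl⟩ hy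
    obtain ⟨d, hd, hdP⟩ := hcov (q * y) (Set.mul_mem_mul hq hy)
    exact ⟨k * d, mul_mem hk hd, d⁻¹ * (q * y), hdP, by group⟩
  have hsub : ((Subgroup.closure P : Subgroup H) : Set H) ⊆ (K0 : Set H) * P := by
    intro x hx
    have hx' : x ∈ Subgroup.closure P := hx
    have key : ∃ k ∈ K0, ∃ q ∈ P, x = k * q := by
      refine Subgroup.closure_induction_right (p := fun x _ => ∃ k ∈ K0, ∃ q ∈ P, x = k * q)
        ?_ ?_ ?_ hx'
      · exact ⟨1, one_mem _, 1, h1P, by rw [mul_one]⟩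
      · intro x _ y hy hp
        exact hstep x y hp hy
      · intro x _ y hy hp
        exact hstep x y⁻¹ hp (hPinv y hy)
    obtain ⟨k, hk, q, hq, rfl⟩ := key
    exact Set.mul_mem_mul hk hq
  have hKP : IsCompact ((K0 : Set H) * P) := hK0.mul hPc
  refine ⟨(Subgroup.closure P).topologicalClosure, ?_, ?_⟩
  · exact hKP.of_isClosed_subset isClosed_closure (closure_minimal hsub hKP.isClosed)
  · exact hQP.trans (Subgroup.subset_closure.trans (Subgroup.le_topologicalClosure _))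

end Pool.LatH472
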