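import Mathlib
import Pool.Agent.Helper472.LatDefs

set_option autoImplicit false

namespace Pool.LatH472

open Pointwise

theorem L10 (hL10c : ∀ (G : Type) [Group G] [TopologicalSpace G] [IsTopologicalGroup G]
    [CompactSpace G] [T2Space G] (Y : Set G), Y.Finite →
    Dense ((Subgroup.closure Y : Subgroup G) : Set G) →
    (∀ y ∈ Y, IsOfFinOrder y) → (∀ y ∈ Y, (Set.range fun g : G => g * y * g⁻¹).Countable) →
    Finite G)
    (G H : Type) [Group G] [TopologicalSpace G] [IsTopologicalGroup G]
    [LocallyCompactSpace G] [T2Space G] [Group H] [TopologicalSpace H] [IsTopologicalGroup H]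
    [LocallyCompactSpace H] [T2Space H] (φ : CL G ≃o CL H) (hG : IndCompact G)
    (hfin : ∀ F : CL G, Finite F.1 → Finite (φ F).1)
    (hfin' : ∀ F : CL H, Finite F.1 → Finite (φ.symm F).1)
    (A : Subgroup H) (hA : ∀ S : Subgroup H, S ≤ A → IsClosed (S : Set H))
    (htor : ∀ a ∈ A, IsOfFinOrder a)
    (F : Finset H) (hF : (↑F : Set H) ⊆ (A : Set H)) :
    Finite (Subgroup.closure (↑F : Set H)) := by
  classical
  have hFs : ∀ x ∈ F, x ∈ A := fun x hx => hF (Finset.mem_coe.mpr hx)
  let H1 : Subgroup H := Subgroup.closure (↑F : Set H)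
  have hH1A : H1 ≤ A := (Subgroup.closure_le A).mpr hF
  have hH1c : IsClosed (H1 : Set H) := hA H1 hH1A
  have hcount : Countable H1 := by
    change Countable (Subgroup.closure (↑F : Set H))
    rw [FreeGroup.closure_eq_range]
    have : Countable (FreeGroup (↑F : Set H)) := inferInstanceAs (Countable (Quot _))
    exact (MonoidHom.rangeRestrict_surjective _).countable
  let c1 : CL G := φ.symm ⟨H1, hH1c⟩
  have hφc1 : φ c1 = ⟨H1, hH1c⟩ := φ.apply_symm_apply _
  let Z : H → Subgroup H := fun x => Subgroup.zpowers x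
  have hZA : ∀ x ∈ F, Z x ≤ A := fun x hx => by
    simpa [Z, Subgroup.zpowers_le] using hFs x hx
  have hZH1 : ∀ x ∈ F, Z x ≤ H1 := fun x hx => by
    simpa [Z, Subgroup.zpowers_le] using Subgroup.subset_closure (Finset.mem_coe.mpr hx)
  have hZc : ∀ x ∈ F, IsClosed (Z x : Set H) := fun x hx => hA _ (hZA x hx)
  let D : F → CL G := fun x => φ.symm ⟨Z x.1, hZc x.1 x.2⟩
  have hDfin : ∀ x : F, Finite (D x).1 := by
    intro x
    apply hfin'
    have : IsOfFinOrder x.1 := htor x.1 (hFs x.1 x.2)
    exact (finite_zpowers.mpr this).to_subtype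
  have hDle : ∀ x : F, D x ≤ c1 := by
    intro x
    apply φ.symm.monotone
    exact hZH1 x.1 x.2
  let Y : Set G := ⋃ x : F, ((D x).1 : Set G)
  have hYfin : Y.Finite := Set.finite_iUnion (fun x => Set.toFinite _)
  have hYc1 : Y ⊆ (c1.1 : Set G) := Set.iUnion_subset (fun x => hDle x)
  let T : Subgroup G := (Subgroup.closure Y).topologicalClosure
  have hTc : IsClosed (T : Set G) := Subgroup.isClosed_topologicalClosure _
  have hTle : T ≤ c1.1 :=
    Subgroup.topologicalClosure_minimal _ ((Subgroup.closure_le _).mpr hYc1) c1.2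
  have hc1T : c1.1 ≤ T := by
    have h1 : (⟨H1, hH1c⟩ : CL H) ≤ φ ⟨T, hTc⟩ := by
      change H1 ≤ (φ ⟨T, hTc⟩).1
      refine (Subgroup.closure_le _).mpr ?_
      intro x hx
      have hx' : x ∈ F := Finset.mem_coe.mp hx
      have h2 : D ⟨x, hx'⟩ ≤ ⟨T, hTc⟩ := by
        change (D ⟨x, hx'⟩).1 ≤ T
        refine le_trans ?_ (Subgroup.le_topologicalClosure _)
        intro g hg
        exact Subgroup.subset_closure (Set.mem_iUnion.mpr ⟨⟨x, hx'⟩, hg⟩)
      have h3 := φ.monotone h2
      rw [φ.apply_symm_apply] at h3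
      exact h3 (Subgroup.mem_zpowers x)
    have h4 := φ.symm.monotone h1
    rw [φ.symm_apply_apply] at h4
    exact h4
  have hTeq : T = c1.1 := le_antisymm hTle hc1T
  -- compactness
  obtain ⟨K, hKc, hYK⟩ := hG hYfin.toFinset
  have hYK' : Y ⊆ (K : Set G) := by
    intro y hy
    exact hYK (by simpa using hy)
  have hTK : T ≤ K :=
    Subgroup.topologicalClosure_minimal _ ((Subgroup.closure_le _).mpr hYK') hKc.isClosed
  have hcomp : IsCompact (c1.1 : Set G) := by
    refine hKc.of_isClosed_subset c1.2 ?_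
    rw [← hTeq]
    exact hTK
  have : CompactSpace c1.1 := isCompact_iff_compactSpace.mp hcomp
  -- finite subgroups of H1
  let S : Set (CL H) := {c | Finite c.1 ∧ c.1 ≤ H1}
  have hS : S.Countable := by
    have h1 : {t : Set H | Set.Finite t ∧ t ⊆ (H1 : Set H)}.Countable :=
      Set.countable_ofPred_finite_subset (Set.to_countable _)
    have hinj : Set.InjOn (fun c : CL H => (c.1 : Set H)) S := by
      intro c _ c' _ hcc
      exact Subtype.ext (SetLike.coe_injective hcc)
    refine Set.countable_of_injective_of_countable_image hinj (h1.mono ?_)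
    rintro _ ⟨c, ⟨hc1, hc2⟩, rfl⟩
    exact ⟨Set.toFinite _, hc2⟩
  let U : Set G := ⋃ c ∈ S, ((φ.symm c).1 : Set G)
  have hU : U.Countable := by
    refine hS.biUnion (fun c hc => ?_)
    have := hfin' c hc.1
    exact (Set.toFinite _).countable
  have hfinG1 : Finite c1.1 := by
    refine hL10c c1.1 (Subtype.val ⁻¹' Y) ?_ ?_ ?_ ?_
    · exact hYfin.preimage Subtype.val_injective.injOn
    · rw [Subtype.dense_iff]
      have h1 : ((Subgroup.closure ((Subtype.val : c1.1 → G) ⁻¹' Y)).map c1.1.subtype) =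
          Subgroup.closure Y := by
        rw [MonoidHom.map_closure]
        congr 1
        change Subtype.val '' (Subtype.val ⁻¹' Y) = Y
        refine Set.image_preimage_eq_of_subset ?_
        intro y hy
        exact ⟨⟨y, hYc1 hy⟩, rfl⟩
      have h2 : (Subtype.val '' ((Subgroup.closure ((Subtype.val : c1.1 → G) ⁻¹' Y) :
          Subgroup c1.1) : Set c1.1)) = ((Subgroup.closure Y : Subgroup G) : Set G) := by
        rw [← h1]
        rfl
      intro g hg
      have h3 : g ∈ closure ((Subgroup.closure Y : Subgroup G) : Set G) := hc1T hg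
      rw [← h2] at h3
      exact h3
    · intro y hy
      obtain ⟨x, hx⟩ := Set.mem_iUnion.mp hy
      have := hDfin x
      have h1 : IsOfFinOrder (⟨(y : G), hx⟩ : (D x).1) := isOfFinOrder_of_finite _
      have h2 : IsOfFinOrder (y : G) :=
        (Submonoid.isOfFinOrder_coe (H := (D x).1.toSubmonoid) (x := ⟨(y : G), hx⟩)).mpr h1
      exact (Submonoid.isOfFinOrder_coe (H := c1.1.toSubmonoid) (x := y)).mp h2
    · intro y hy
      obtain ⟨x, hx⟩ := Set.mem_iUnion.mp hy
      refine Set.countable_of_injective_of_countable_image (f := Subtype.val)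
        Subtype.val_injective.injOn (hU.mono ?_)
      rintro _ ⟨_, ⟨g, rfl⟩, rfl⟩
      -- the conjugate subgroup
      let Dg : Subgroup G := (D x).1.map (MulAut.conj (g : G)).toMonoidHom
      have := hDfin x
      have hDgfin : Finite Dg := by
        have : ((D x).1.map (MulAut.conj (g : G)).toMonoidHom : Set G).Finite := by
          rw [Subgroup.coe_map]
          exact (Set.toFinite _).image _
        exact this.to_subtype
      have hDgc : IsClosed (Dg : Set G) := (Set.toFinite (Dg : Set G)).isClosed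
      have hDgle : Dg ≤ c1.1 := by
        rintro _ ⟨d, hd, rfl⟩
        have hd1 : d ∈ c1.1 := hDle x hd
        exact c1.1.mul_mem (c1.1.mul_mem g.2 hd1) (c1.1.inv_mem g.2)
      let E : CL H := φ ⟨Dg, hDgc⟩
      have hE : E ∈ S := by
        refine ⟨hfin _ hDgfin, ?_⟩
        have h1 : E ≤ φ c1 := φ.monotone (show (⟨Dg, hDgc⟩ : CL G) ≤ c1 from hDgle)
        rw [hφc1] at h1
        exact h1
      refine Set.mem_biUnion hE ?_
      have h2 : φ.symm E = ⟨Dg, hDgc⟩ := φ.symm_apply_apply _
      rw [h2]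
      exact ⟨y, hx, rfl⟩
  have := hfin c1 hfinG1
  rw [hφc1] at this
  exact this

end Pool.LatH472
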