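import Mathlib
import Pool.Agent.Helper472.LatDefs

set_option autoImplicit false

namespace Pool.LatH472

open Pointwise

theorem L10a (G : Type) [Group G] [TopologicalSpace G] [IsTopologicalGroup G]
    [CompactSpace G] [T2Space G] (C : Subgroup G) (hC : IsClosed (C : Set G))
    (hc : Countable (G ⧸ C)) : C.FiniteIndex := by
  classical
  -- the cosets
  have hclosed : ∀ q : G ⧸ C, IsClosed ((fun x : G => (Quotient.out q)⁻¹ * x) ⁻¹' (C : Set G)) := by
    intro q
    exact hC.preimage (continuous_const.mul continuous_id)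
  have hcover : (⋃ q : G ⧸ C, ((fun x : G => (Quotient.out q)⁻¹ * x) ⁻¹' (C : Set G))) = Set.univ := by
    rw [Set.eq_univ_iff_forall]
    intro x
    rw [Set.mem_iUnion]
    refine ⟨(QuotientGroup.mk x : G ⧸ C), ?_⟩
    show (Quotient.out (QuotientGroup.mk x : G ⧸ C))⁻¹ * x ∈ C
    have h1 : (QuotientGroup.mk (Quotient.out (QuotientGroup.mk x : G ⧸ C)) : G ⧸ C) = QuotientGroup.mk x :=
      Quotient.out_eq' _
    exact QuotientGroup.eq.1 h1
  have hne : Nonempty G := ⟨1⟩
  obtain ⟨q, hq⟩ := nonempty_interior_of_iUnion_of_closed hclosed hcover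
  obtain ⟨x, hx⟩ := hq
  have hx' := mem_interior_iff_mem_nhds.1 hx
  have hopen : IsOpen (C : Set G) := by
    have h2 : (C : Set G) ∈ nhds ((Quotient.out q)⁻¹ * x) := by
      have h3 : Filter.Tendsto (fun y : G => (Quotient.out q) * y) (nhds ((Quotient.out q)⁻¹ * x))
          (nhds x) := by
        have h4 : Continuous (fun y : G => (Quotient.out q) * y) := continuous_const.mul continuous_id
        have h5 := h4.tendsto ((Quotient.out q)⁻¹ * x)
        simpa using h5
      have h6 := h3 hx'
      refine Filter.mem_of_superset h6 ?_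
      intro y hy
      have h7 : (Quotient.out q)⁻¹ * ((Quotient.out q) * y) ∈ C := hy
      simpa using h7
    exact Subgroup.isOpen_of_mem_nhds C h2
  have hfin : Finite (G ⧸ C) := Subgroup.quotient_finite_of_isOpen C hopen
  exact Subgroup.finiteIndex_of_finite_quotient

end Pool.LatH472
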