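import Mathlib
import Pool.Agent.Helper472.LatDefs

set_option autoImplicit false

namespace Pool.LatH472

open Pointwise

theorem L10c (hL10a : ∀ (G : Type) [Group G] [TopologicalSpace G] [IsTopologicalGroup G]
    [CompactSpace G] [T2Space G] (C : Subgroup G), IsClosed (C : Set G) →
    Countable (G ⧸ C) → C.FiniteIndex)
    (hL10b : ∀ (Γ : Type) [Group Γ] (Y : Set Γ), Y.Finite → Subgroup.closure Y = ⊤ →
    (∀ y ∈ Y, IsOfFinOrder y) → (∀ y ∈ Y, (Subgroup.centralizer {y}).FiniteIndex) → Finite Γ)
    (G : Type) [Group G] [TopologicalSpace G] [IsTopologicalGroup G]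
    [CompactSpace G] [T2Space G] (Y : Set G) (hY : Y.Finite)
    (hgen : Dense ((Subgroup.closure Y : Subgroup G) : Set G))
    (hfo : ∀ y ∈ Y, IsOfFinOrder y) (hc : ∀ y ∈ Y, (Set.range fun g : G => g * y * g⁻¹).Countable) :
    Finite G := by
  have hcen : ∀ y ∈ Y, (Subgroup.centralizer ({y} : Set G)).FiniteIndex := by
    intro y hy
    apply hL10a
    · have : ((Subgroup.centralizer ({y} : Set G) : Subgroup G) : Set G) = {g | g * y = y * g} := by
        ext g
        rw [SetLike.mem_coe, Subgroup.mem_centralizer_singleton_iff]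
        rfl
      rw [this]
      exact isClosed_eq (by fun_prop) (by fun_prop)
    · have hcount : Countable (Set.range fun g : G => g * y * g⁻¹) := (hc y hy).to_subtype
      let f : G ⧸ Subgroup.centralizer ({y} : Set G) → Set.range fun g : G => g * y * g⁻¹ :=
        fun q => ⟨q.out * y * q.out⁻¹, ⟨q.out, rfl⟩⟩
      have hf : Function.Injective f := by
        intro q q' h
        have h1 : q.out * y * q.out⁻¹ = q'.out * y * q'.out⁻¹ := congrArg Subtype.val h
        have h2 : q.out⁻¹ * q'.out ∈ Subgroup.centralizer ({y} : Set G) := by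
          rw [Subgroup.mem_centralizer_singleton_iff]
          have h3 : y * (q.out⁻¹ * q'.out) = q.out⁻¹ * (q.out * y * q.out⁻¹) * q'.out := by group
          rw [h3, h1]
          group
        rw [← QuotientGroup.out_eq' q, ← QuotientGroup.out_eq' q']
        exact QuotientGroup.eq.mpr h2
      exact hf.countable
  have hfin : Finite (Subgroup.closure Y) := by
    apply hL10b (Subgroup.closure Y) (Subtype.val ⁻¹' Y)
    · exact hY.preimage Subtype.val_injective.injOn
    · exact Subgroup.closure_closure_coe_preimage
    · intro y hy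
      obtain ⟨n, hn, hn'⟩ := isOfFinOrder_iff_pow_eq_one.mp (hfo y.1 hy)
      exact isOfFinOrder_iff_pow_eq_one.mpr ⟨n, hn, Subtype.ext hn'⟩
    · intro y hy
      have h1 := hcen y.1 hy
      have h2 : ((Subgroup.centralizer ({y.1} : Set G)).subgroupOf
        (Subgroup.closure Y)).FiniteIndex := inferInstance
      refine Subgroup.finiteIndex_of_le (H := (Subgroup.centralizer ({y.1} : Set G)).subgroupOf
        (Subgroup.closure Y)) ?_
      intro x hx
      rw [Subgroup.mem_subgroupOf, Subgroup.mem_centralizer_singleton_iff] at hx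
      rw [Subgroup.mem_centralizer_singleton_iff]
      exact Subtype.ext hx
  have h3 : ((Subgroup.closure Y : Subgroup G) : Set G).Finite := Set.toFinite _
  have h4 : ((Subgroup.closure Y : Subgroup G) : Set G) = Set.univ := by
    rw [← h3.isClosed.closure_eq]
    exact hgen.closure_eq
  rw [h4] at h3
  exact Set.finite_univ_iff.mp h3

end Pool.LatH472
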