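import Mathlib
import Pool.Agent.Helper472.LatDefs

set_option autoImplicit false

namespace Pool.LatH472

open Pointwise

theorem l2_lift (H : Type) [Group H] [TopologicalSpace H] [IsTopologicalGroup H]
    [LocallyCompactSpace H] (A : Subgroup H) (K : Set (H ⧸ A)) (hK : IsCompact K) :
    ∃ C : Set H, IsCompact C ∧ K ⊆ (QuotientGroup.mk : H → H ⧸ A) '' C := by
  have h1 : ∀ y : H ⧸ A, ∃ N : Set H, IsCompact N ∧ (QuotientGroup.mk : H → H ⧸ A) '' N ∈ nhds y := by
    intro y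
    obtain ⟨x, rfl⟩ := QuotientGroup.mk_surjective y
    obtain ⟨N, hN, hx⟩ := exists_compact_mem_nhds x
    exact ⟨N, hN, QuotientGroup.isOpenMap_coe.image_mem_nhds hx⟩
  choose N hN hNn using h1
  obtain ⟨t, -, ht⟩ := hK.elim_nhds_subcover (fun y => (QuotientGroup.mk : H → H ⧸ A) '' N y)
    (fun y _ => hNn y)
  refine ⟨⋃ y ∈ t, N y, t.isCompact_biUnion fun y _ => hN y, ?_⟩
  rw [Set.image_iUnion₂]
  exact ht

theorem L2 (H : Type) [Group H] [TopologicalSpace H] [IsTopologicalGroup H]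
    [LocallyCompactSpace H] [T2Space H] (A : Subgroup H) [A.Normal] (hAc : IsClosed (A : Set H))
    (hA : ∀ Q : Set H, IsCompact Q → Q ⊆ (A : Set H) →
      ∃ K : Subgroup H, IsCompact (K : Set H) ∧ Q ⊆ (K : Set H))
    (hq : IndCompact (H ⧸ A)) : IndCompact H := by
  classical
  intro F
  haveI := hAc
  obtain ⟨Kb, hKb, hFKb⟩ := hq (F.image (QuotientGroup.mk : H → H ⧸ A))
  obtain ⟨C0, hC0, hC0K⟩ := l2_lift H A Kb hKb
  have hcl : IsClosed ((QuotientGroup.mk : H → H ⧸ A) ⁻¹' (Kb : Set (H ⧸ A))) :=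
    hKb.isClosed.preimage QuotientGroup.continuous_mk
  obtain ⟨C, hCdef⟩ : ∃ C : Set H, C = (C0 ∩ (QuotientGroup.mk : H → H ⧸ A) ⁻¹' (Kb : Set (H ⧸ A))) ∪ {1} :=
    ⟨_, rfl⟩
  have hC : IsCompact C := by
    rw [hCdef]
    exact (hC0.inter_right hcl).union isCompact_singleton
  have h1C : (1 : H) ∈ C := by
    rw [hCdef]
    exact Or.inr rfl
  have hCK : ∀ c ∈ C, (QuotientGroup.mk c : H ⧸ A) ∈ Kb := by
    intro c hc
    rw [hCdef] at hc
    rcases hc with hc | hc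
    · exact hc.2
    · rw [Set.mem_singleton_iff] at hc
      rw [hc]
      exact Kb.one_mem
  have hKC : ∀ y ∈ Kb, ∃ c ∈ C, (QuotientGroup.mk c : H ⧸ A) = y := by
    intro y hy
    obtain ⟨c, hc, rfl⟩ := hC0K hy
    refine ⟨c, ?_, rfl⟩
    rw [hCdef]
    exact Or.inl ⟨hc, hy⟩
  obtain ⟨S, hSdef⟩ : ∃ S : Set H, S = (F : Set H) ∪ (F : Set H)⁻¹ := ⟨_, rfl⟩
  have hS : IsCompact S := by
    rw [hSdef]
    exact F.finite_toSet.isCompact.union F.finite_toSet.isCompact.inv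
  have hSK : ∀ s ∈ S, (QuotientGroup.mk s : H ⧸ A) ∈ Kb := by
    intro s hs
    rw [hSdef] at hs
    rcases hs with hs | hs
    · exact hFKb (by
        rw [Finset.coe_image]
        exact ⟨s, hs, rfl⟩)
    · have h1 : (QuotientGroup.mk s⁻¹ : H ⧸ A) ∈ Kb := hFKb (by
        rw [Finset.coe_image]
        exact ⟨s⁻¹, hs, rfl⟩)
      have h2 := Kb.inv_mem h1
      rw [← QuotientGroup.mk_inv, inv_inv] at h2
      exact h2
  obtain ⟨KA, hKA, hQ⟩ := hA ((A : Set H) ∩ (C * S * C⁻¹)) (((hC.mul hS).mul hC.inv).inter_left hAc)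
    Set.inter_subset_left
  have hstep : ∀ x ∈ (KA : Set H) * C, ∀ s ∈ S, x * s ∈ (KA : Set H) * C := by
    intro x hx s hs
    obtain ⟨k, hk, c, hc, rfl⟩ := Set.mem_mul.1 hx
    obtain ⟨c', hc', he⟩ := hKC (QuotientGroup.mk (c * s)) (by
      rw [QuotientGroup.mk_mul]
      exact Kb.mul_mem (hCK c hc) (hSK s hs))
    have ha : c * s * c'⁻¹ ∈ A := by
      have h1 : (QuotientGroup.mk (c * s * c'⁻¹) : H ⧸ A) = 1 := by
        rw [QuotientGroup.mk_mul, QuotientGroup.mk_inv, he, mul_inv_cancel]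
      exact (QuotientGroup.eq_one_iff _).1 h1
    have hb : c * s * c'⁻¹ ∈ (KA : Set H) :=
      hQ ⟨ha, Set.mul_mem_mul (Set.mul_mem_mul hc hs) (Set.inv_mem_inv.2 hc')⟩
    refine Set.mem_mul.2 ⟨k * (c * s * c'⁻¹), KA.mul_mem hk hb, c', hc', ?_⟩
    group
  have hsub : (Subgroup.closure (F : Set H) : Set H) ⊆ (KA : Set H) * C := by
    intro x hx
    induction hx using Subgroup.closure_induction_right with
    | one => exact Set.mem_mul.2 ⟨1, KA.one_mem, 1, h1C, one_mul 1⟩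
    | mul_right x hx y hy ih =>
      refine hstep x ih y ?_
      rw [hSdef]
      exact Or.inl hy
    | mul_inv_cancel x hx y hy ih =>
      refine hstep x ih y⁻¹ ?_
      rw [hSdef]
      exact Or.inr (Set.inv_mem_inv.2 hy)
  have hKAC : IsCompact ((KA : Set H) * C) := hKA.mul hC
  refine ⟨(Subgroup.closure (F : Set H)).topologicalClosure, ?_, ?_⟩
  · refine hKAC.of_isClosed_subset (Subgroup.isClosed_topologicalClosure _) ?_
    rw [Subgroup.topologicalClosure_coe]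
    exact closure_minimal hsub hKAC.isClosed
  · exact Subgroup.subset_closure.trans (Subgroup.le_topologicalClosure _)

end Pool.LatH472
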