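import Mathlib
import Pool.Agent.Helper472.LatDefs

set_option autoImplicit false

namespace Pool.LatH472

open Pointwise

theorem L3 (H : Type) [CommGroup H] [TopologicalSpace H] [IsTopologicalGroup H]
    [T2Space H] (h : ElemCompact H) : IndCompact H := by
  classical
  intro F
  induction F using Finset.induction_on with
  | empty =>
    refine ⟨⊥, ?_, ?_⟩
    · rw [Subgroup.coe_bot]
      exact isCompact_singleton
    · simp
  | insert a F _ ih =>
    obtain ⟨K2, hK2, hF⟩ := ih
    obtain ⟨K1, hK1, ha1⟩ := h a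
    refine ⟨K1 ⊔ K2, ?_, ?_⟩
    · rw [Subgroup.mul_normal K1 K2]
      exact hK1.mul hK2
    · rw [Finset.coe_insert, Set.insert_subset_iff]
      refine ⟨?_, ?_⟩
      · exact (le_sup_left : K1 ≤ K1 ⊔ K2) ha1
      · intro x hx
        exact (le_sup_right : K2 ≤ K1 ⊔ K2) (hF hx)

end Pool.LatH472
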