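import Mathlib
import Pool.Agent.Helper472.LatDefs

set_option autoImplicit false

namespace Pool.LatH472

open Pointwise


theorem L4_comm (H : Type) [Group H] [TopologicalSpace H] [IsTopologicalGroup H]
    [T2Space H] (D : Subgroup H) (hD : ⁅D, D⁆ = ⊥) :
    ∀ x y : D.topologicalClosure, x * y = y * x := by
  have h1 : ∀ x y : D, x * y = y * x := by
    intro x y
    have h2 := Subgroup.commutator_mem_commutator x.2 y.2
    rw [hD, Subgroup.mem_bot, commutatorElement_eq_one_iff_mul_comm] at h2
    exact Subtype.ext h2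
  exact (D.commGroupTopologicalClosure h1).mul_comm

theorem L4_ind (hL1 : ∀ (H : Type) [Group H] [TopologicalSpace H] [IsTopologicalGroup H]
    [LocallyCompactSpace H] [T2Space H], IndCompact H → ∀ (Q : Set H), IsCompact Q →
    ∃ K : Subgroup H, IsCompact (K : Set H) ∧ Q ⊆ (K : Set H))
    (hL2 : ∀ (H : Type) [Group H] [TopologicalSpace H] [IsTopologicalGroup H]
    [LocallyCompactSpace H] [T2Space H] (A : Subgroup H) [A.Normal], IsClosed (A : Set H) →
    (∀ Q : Set H, IsCompact Q → Q ⊆ (A : Set H) →
      ∃ K : Subgroup H, IsCompact (K : Set H) ∧ Q ⊆ (K : Set H)) →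
    IndCompact (H ⧸ A) → IndCompact H)
    (hL3 : ∀ (H : Type) [CommGroup H] [TopologicalSpace H] [IsTopologicalGroup H]
    [T2Space H], ElemCompact H → IndCompact H) (n : ℕ) : 
    ∀ (H : Type) [Group H] [TopologicalSpace H] [IsTopologicalGroup H]
    [LocallyCompactSpace H] [T2Space H], derivedSeries H n = ⊥ → ElemCompact H → IndCompact H := by
  induction n with
  | zero =>
    intro H _ _ _ _ _ hd he F
    refine ⟨⊥, by simp, ?_⟩
    intro x _
    have : x ∈ (⊤ : Subgroup H) := Subgroup.mem_top x
    rw [derivedSeries_zero] at hd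
    rw [hd] at this
    exact this
  | succ n ih =>
    intro H _ _ _ _ _ hd he
    rw [derivedSeries_succ] at hd
    have hcomm := L4_comm H (derivedSeries H n) hd
    obtain ⟨A, hA⟩ : ∃ A : Subgroup H, A = (derivedSeries H n).topologicalClosure := ⟨_, rfl⟩
    have hAn : A.Normal := by rw [hA]; exact Subgroup.is_normal_topologicalClosure _
    have hAc : IsClosed (A : Set H) := by rw [hA]; exact Subgroup.isClosed_topologicalClosure _
    rw [← hA] at hcomm
    have hDA : derivedSeries H n ≤ A := by rw [hA]; exact Subgroup.le_topologicalClosure _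
    have hemb : Topology.IsClosedEmbedding (Subtype.val : A → H) := hAc.isClosedEmbedding_subtypeVal
    refine hL2 H A hAc ?_ ?_
    · intro Q hQ hQA
      have hEA : ElemCompact A := by
        intro a
        obtain ⟨K, hK, ha⟩ := he a.1
        refine ⟨K.comap A.subtype, ?_, ha⟩
        exact hemb.isCompact_preimage hK
      have hloc : LocallyCompactSpace A := hemb.locallyCompactSpace
      have hIA : IndCompact A := by
        let inst : CommGroup A := { (inferInstance : Group A) with mul_comm := hcomm }
        exact hL3 A hEA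
      have hQ' : IsCompact ((Subtype.val : A → H) ⁻¹' Q) := hemb.isCompact_preimage hQ
      obtain ⟨K, hK, hQK⟩ := hL1 A hIA _ hQ'
      refine ⟨K.map A.subtype, ?_, ?_⟩
      · exact hK.image continuous_subtype_val
      · intro q hq
        exact ⟨⟨q, hQA hq⟩, hQK hq, rfl⟩
    · have hT : T3Space (H ⧸ A) := QuotientGroup.instT3Space A
      have hT2 : T2Space (H ⧸ A) := inferInstance
      apply ih
      · have h1 := map_derivedSeries_eq (f := QuotientGroup.mk' A) (QuotientGroup.mk'_surjective A) n
        rw [← h1, Subgroup.map_eq_bot_iff, QuotientGroup.ker_mk']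
        exact hDA
      · intro g
        obtain ⟨x, rfl⟩ := QuotientGroup.mk'_surjective A g
        obtain ⟨K, hK, hx⟩ := he x
        refine ⟨K.map (QuotientGroup.mk' A), ?_, ⟨x, hx, rfl⟩⟩
        exact hK.image QuotientGroup.continuous_mk

theorem L4 (hL1 : ∀ (H : Type) [Group H] [TopologicalSpace H] [IsTopologicalGroup H]
    [LocallyCompactSpace H] [T2Space H], IndCompact H → ∀ (Q : Set H), IsCompact Q →
    ∃ K : Subgroup H, IsCompact (K : Set H) ∧ Q ⊆ (K : Set H))
    (hL2 : ∀ (H : Type) [Group H] [TopologicalSpace H] [IsTopologicalGroup H]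
    [LocallyCompactSpace H] [T2Space H] (A : Subgroup H) [A.Normal], IsClosed (A : Set H) →
    (∀ Q : Set H, IsCompact Q → Q ⊆ (A : Set H) →
      ∃ K : Subgroup H, IsCompact (K : Set H) ∧ Q ⊆ (K : Set H)) →
    IndCompact (H ⧸ A) → IndCompact H)
    (hL3 : ∀ (H : Type) [CommGroup H] [TopologicalSpace H] [IsTopologicalGroup H]
    [T2Space H], ElemCompact H → IndCompact H)
    (H : Type) [Group H] [TopologicalSpace H] [IsTopologicalGroup H]
    [LocallyCompactSpace H] [T2Space H] (hs : Group.IsSolvable H) (h : ElemCompact H) : IndCompact H := by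
  obtain ⟨n, hn⟩ := hs.solvable
  exact L4_ind hL1 hL2 hL3 n H hn h


end Pool.LatH472
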