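import Mathlib
import Pool.Agent.Helper472.LatDefs

set_option autoImplicit false

namespace Pool.LatH472

open Pointwise

theorem L5_cyc {H : Type} [Group H] (h : H) (S : Subgroup H) (hS : S ≤ Subgroup.zpowers h) :
    ∃ m : ℤ, S = Subgroup.zpowers (h ^ m) := by
  let T : AddSubgroup ℤ :=
    { carrier := {n | h ^ n ∈ S}
      add_mem' := fun {a b} ha hb => by
        change h ^ (a + b) ∈ S
        rw [zpow_add]
        exact S.mul_mem ha hb
      zero_mem' := by
        change h ^ (0 : ℤ) ∈ S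
        rw [zpow_zero]
        exact S.one_mem
      neg_mem' := fun {a} ha => by
        change h ^ (-a) ∈ S
        rw [zpow_neg]
        exact S.inv_mem ha }
  obtain ⟨m, hm⟩ := Int.subgroup_cyclic T
  refine ⟨m, le_antisymm ?_ ?_⟩
  · intro y hy
    obtain ⟨n, rfl⟩ := Subgroup.mem_zpowers_iff.1 (hS hy)
    have h1 : n ∈ T := hy
    rw [hm, AddSubgroup.mem_closure_singleton] at h1
    obtain ⟨k, rfl⟩ := h1
    rw [smul_eq_mul, mul_comm, zpow_mul]
    exact Subgroup.zpow_mem _ (Subgroup.mem_zpowers _) k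
  · rw [Subgroup.zpowers_le]
    have h1 : m ∈ T := by
      rw [hm]
      exact AddSubgroup.subset_closure rfl
    exact h1

/-- the product of two commuting subgroups -/
def L5_prod {G : Type} [Group G] (K A : Subgroup G) (hc : ∀ x ∈ K, ∀ y ∈ A, x * y = y * x) :
    Subgroup G where
  carrier := {z | ∃ x ∈ K, ∃ y ∈ A, z = x * y}
  mul_mem' := by
    rintro a b ⟨x, hx, y, hy, rfl⟩ ⟨x', hx', y', hy', rfl⟩
    refine ⟨x * x', K.mul_mem hx hx', y * y', A.mul_mem hy hy', ?_⟩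
    have h1 := hc x' hx' y hy
    calc x * y * (x' * y') = x * (y * x') * y' := by group
      _ = x * (x' * y) * y' := by rw [h1]
      _ = x * x' * (y * y') := by group
  one_mem' := ⟨1, K.one_mem, 1, A.one_mem, (mul_one 1).symm⟩
  inv_mem' := by
    rintro a ⟨x, hx, y, hy, rfl⟩
    refine ⟨x⁻¹, K.inv_mem hx, y⁻¹, A.inv_mem hy, ?_⟩
    rw [mul_inv_rev]
    exact (hc x⁻¹ (K.inv_mem hx) y⁻¹ (A.inv_mem hy)).symm

theorem L5 (hL6 : ∀ (H : Type) [Group H] [TopologicalSpace H] [IsTopologicalGroup H]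
    [LocallyCompactSpace H] [T2Space H] (h : H),
    (∃ K : Subgroup H, IsCompact (K : Set H) ∧ h ∈ K) ∨
    ((∀ S : Subgroup H, S ≤ Subgroup.zpowers h → IsClosed (S : Set H)) ∧ ∀ n : ℤ, h ^ n = 1 → n = 0))
    (G H : Type) [Group G] [TopologicalSpace G] [IsTopologicalGroup G]
    [LocallyCompactSpace G] [T2Space G] [Group H] [TopologicalSpace H] [IsTopologicalGroup H]
    [LocallyCompactSpace H] [T2Space H] (φ : CL G ≃o CL H) (hG : ElemCompact G) :
    ElemCompact H := by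
  intro h
  rcases hL6 H h with h0 | ⟨hcl, hinf⟩
  · exact h0
  exfalso
  have hle : ∀ k : ℤ, Subgroup.zpowers (h ^ k) ≤ Subgroup.zpowers h := fun k =>
    Subgroup.zpowers_le.2 (Subgroup.zpow_mem _ (Subgroup.mem_zpowers h) k)
  let Z : ℤ → CL H := fun k => ⟨Subgroup.zpowers (h ^ k), hcl _ (hle k)⟩
  have hinj : ∀ a b : ℤ, h ^ a = h ^ b → a = b := by
    intro a b hab
    have h1 : h ^ (a - b) = 1 := by
      rw [zpow_sub, hab, mul_inv_cancel]
    have := hinf _ h1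
    omega
  have hbG : IsClosed ((⊥ : Subgroup G) : Set G) := by
    rw [Subgroup.coe_bot]
    exact isClosed_singleton
  have hbH : IsClosed ((⊥ : Subgroup H) : Set H) := by
    rw [Subgroup.coe_bot]
    exact isClosed_singleton
  have hbot : ∀ K : CL G, (φ K).1 = ⊥ → K.1 = ⊥ := by
    intro K hK
    have h1 : φ K ≤ φ ⟨⊥, hbG⟩ := by
      change (φ K).1 ≤ _
      rw [hK]
      exact bot_le
    have h2 : K ≤ ⟨⊥, hbG⟩ := φ.le_iff_le.1 h1
    exact le_bot_iff.1 h2
  have hbot2 : ∀ K : CL G, K.1 = ⊥ → (φ K).1 = ⊥ := by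
    intro K hK
    have h1 : K ≤ φ.symm ⟨⊥, hbH⟩ := by
      change K.1 ≤ _
      rw [hK]
      exact bot_le
    have h2 : φ K ≤ ⟨⊥, hbH⟩ := by
      have := φ.le_iff_le.2 h1
      rwa [φ.apply_symm_apply] at this
    exact le_bot_iff.1 h2
  -- the subgroup corresponding to `⟨h⟩`
  have hC1 : (φ.symm (Z 1)).1 ≠ ⊥ := by
    intro h1
    have h2 := hbot2 _ h1
    rw [φ.apply_symm_apply] at h2
    have h3 : h ^ (1 : ℤ) ∈ (⊥ : Subgroup H) := h2 ▸ Subgroup.mem_zpowers _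
    have h4 := hinf 1 (Subgroup.mem_bot.1 h3)
    omega
  obtain ⟨⟨c, hc⟩, hc0⟩ := Subgroup.ne_bot_iff_exists_ne_one.1 hC1
  have hc1 : c ≠ 1 := fun h => hc0 (Subtype.ext h)
  let Cp : CL G := ⟨(Subgroup.zpowers c).topologicalClosure,
    Subgroup.isClosed_topologicalClosure _⟩
  have hcCp : c ∈ Cp.1 := Subgroup.le_topologicalClosure _ (Subgroup.mem_zpowers c)
  have hCpmin : ∀ K : CL G, c ∈ K.1 → Cp ≤ K := fun K hK =>
    Subgroup.topologicalClosure_minimal _ (Subgroup.zpowers_le.2 hK) K.2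
  have hCpC1 : Cp ≤ φ.symm (Z 1) := hCpmin _ hc
  have hCpc : IsCompact (Cp.1 : Set G) := by
    obtain ⟨K, hK, hcK⟩ := hG c
    exact hK.of_isClosed_subset Cp.2 (hCpmin ⟨K, hK.isClosed⟩ hcK)
  have hcomm : ∀ x ∈ Cp.1, ∀ y ∈ Cp.1, x * y = y * x := by
    have h1 : ∀ x ∈ Cp.1, x * c = c * x := by
      have hcl1 : IsClosed {x : G | x * c = c * x} :=
        isClosed_eq (continuous_id.mul continuous_const) (continuous_const.mul continuous_id)
      have h2 : ((Subgroup.zpowers c : Subgroup G) : Set G) ⊆ {x : G | x * c = c * x} := by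
        rintro x hx
        obtain ⟨k, rfl⟩ := Subgroup.mem_zpowers_iff.1 hx
        exact (Commute.zpow_self c k)
      intro x hx
      exact closure_minimal h2 hcl1 hx
    intro x hx
    have hcl1 : IsClosed {y : G | x * y = y * x} :=
      isClosed_eq (continuous_const.mul continuous_id) (continuous_id.mul continuous_const)
    have h2 : ((Subgroup.zpowers c : Subgroup G) : Set G) ⊆ {y : G | x * y = y * x} := by
      rintro y hy
      obtain ⟨k, rfl⟩ := Subgroup.mem_zpowers_iff.1 hy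
      exact (Commute.zpow_right (h1 x hx) k)
    intro y hy
    exact closure_minimal h2 hcl1 hy
  have hφCp : (φ Cp).1 ≤ Subgroup.zpowers h := by
    have h1 : φ Cp ≤ Z 1 := by
      have := φ.le_iff_le.2 hCpC1
      rwa [φ.apply_symm_apply] at this
    exact le_trans h1 (hle 1)
  obtain ⟨m, hm⟩ := L5_cyc h _ hφCp
  have hm0 : m ≠ 0 := by
    rintro rfl
    rw [zpow_zero, Subgroup.zpowers_one_eq_bot] at hm
    have h1 := hbot _ hm
    have h2 : c ∈ (⊥ : Subgroup G) := h1 ▸ hcCp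
    exact hc1 (Subgroup.mem_bot.1 h2)
  have hφCp' : φ Cp = Z m := Subtype.ext hm
  let A : CL G := φ.symm (Z (3 * m))
  let K : ℕ → CL G := fun n => φ.symm (Z (m * 2 ^ n))
  have hZle : ∀ a b : ℤ, a ∣ b → Z b ≤ Z a := by
    rintro a b ⟨k, rfl⟩
    change Subgroup.zpowers _ ≤ Subgroup.zpowers _
    rw [zpow_mul]
    exact Subgroup.zpowers_le.2 (Subgroup.zpow_mem _ (Subgroup.mem_zpowers _) k)
  have hsub : ∀ b : ℤ, m ∣ b → φ.symm (Z b) ≤ Cp := by
    intro b hb
    rw [φ.symm_apply_le, hφCp']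
    exact hZle m b hb
  have hAC : A ≤ Cp := hsub _ (Dvd.intro_left 3 rfl)
  have hKC : ∀ n, K n ≤ Cp := fun n => hsub _ (Dvd.intro _ rfl)
  have hKmono : ∀ n, K (n + 1) ≤ K n := by
    intro n
    refine φ.symm.monotone (hZle _ _ ?_)
    exact ⟨2, by rw [pow_succ, mul_assoc]⟩
  have hmain : ∀ n, ∃ x ∈ (K n).1, x⁻¹ * c ∈ A.1 := by
    intro n
    have hcc : ∀ x ∈ (K n).1, ∀ y ∈ A.1, x * y = y * x := fun x hx y hy =>
      hcomm x (hKC n hx) y (hAC hy)
    have hLc : IsClosed ((L5_prod (K n).1 A.1 hcc : Subgroup G) : Set G) := by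
      have h1 : ((L5_prod (K n).1 A.1 hcc : Subgroup G) : Set G) =
          ((K n).1 : Set G) * (A.1 : Set G) := by
        ext z
        constructor
        · rintro ⟨x, hx, y, hy, rfl⟩
          exact Set.mul_mem_mul hx hy
        · rintro ⟨x, hx, y, hy, rfl⟩
          exact ⟨x, hx, y, hy, rfl⟩
      rw [h1]
      exact ((hCpc.of_isClosed_subset (K n).2 (hKC n)).mul
        (hCpc.of_isClosed_subset A.2 hAC)).isClosed
    let L : CL G := ⟨L5_prod (K n).1 A.1 hcc, hLc⟩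
    have hKL : K n ≤ L := fun x hx => ⟨x, hx, 1, A.1.one_mem, (mul_one x).symm⟩
    have hAL : A ≤ L := fun y hy => ⟨1, (K n).1.one_mem, y, hy, (one_mul y).symm⟩
    have h1 : Z (m * 2 ^ n) ≤ φ L := by
      rw [← φ.symm_apply_le]
      exact hKL
    have h2 : Z (3 * m) ≤ φ L := by
      rw [← φ.symm_apply_le]
      exact hAL
    have h3 : Z m ≤ φ L := by
      change Subgroup.zpowers (h ^ m) ≤ (φ L).1
      rw [Subgroup.zpowers_le]
      have hcop : IsCoprime ((2 : ℤ) ^ n) 3 := by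
        refine IsCoprime.pow_left ?_
        exact ⟨-1, 1, by norm_num⟩
      obtain ⟨u, v, huv⟩ := hcop
      have h4 : h ^ m = (h ^ (m * 2 ^ n)) ^ u * (h ^ (3 * m)) ^ v := by
        rw [← zpow_mul, ← zpow_mul, ← zpow_add]
        congr 1
        linear_combination (-m) * huv
      rw [h4]
      exact (φ L).1.mul_mem ((φ L).1.zpow_mem (h1 (Subgroup.mem_zpowers _)) u)
        ((φ L).1.zpow_mem (h2 (Subgroup.mem_zpowers _)) v)
    have h5 : Cp ≤ L := by
      rw [← hφCp'] at h3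
      exact φ.le_iff_le.1 h3
    obtain ⟨x, hx, y, hy, hxy⟩ := h5 hcCp
    refine ⟨x, hx, ?_⟩
    rw [hxy, inv_mul_cancel_left]
    exact hy
  let E : ℕ → Set G := fun n => ((K n).1 : Set G) ∩ {x | x⁻¹ * c ∈ A.1}
  have hEcl : ∀ n, IsClosed (E n) := by
    intro n
    refine (K n).2.inter ?_
    have h1 : Continuous (fun x : G => x⁻¹ * c) := continuous_inv.mul continuous_const
    exact A.2.preimage h1
  have hEne : (⋂ n, E n).Nonempty := by
    refine IsCompact.nonempty_iInter_of_sequence_nonempty_isCompact_isClosed E ?_ ?_ ?_ hEcl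
    · intro n x hx
      exact ⟨hKmono n hx.1, hx.2⟩
    · intro n
      obtain ⟨x, hx, hx2⟩ := hmain n
      exact ⟨x, hx, hx2⟩
    · exact hCpc.of_isClosed_subset (hEcl 0) (fun x hx => hKC 0 hx.1)
  obtain ⟨x, hx⟩ := hEne
  rw [Set.mem_iInter] at hx
  have hIcl : IsClosed ((⨅ n, (K n).1 : Subgroup G) : Set G) := by
    rw [Subgroup.coe_iInf]
    exact isClosed_iInter fun n => (K n).2
  let I : CL G := ⟨⨅ n, (K n).1, hIcl⟩
  have hIK : ∀ n, I ≤ K n := fun n => iInf_le (fun n => (K n).1) n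
  have hφI : ∀ n, φ I ≤ Z (m * 2 ^ n) := by
    intro n
    have := φ.le_iff_le.2 (hIK n)
    rwa [φ.apply_symm_apply] at this
  have hφI0 : (φ I).1 = ⊥ := by
    rw [Subgroup.eq_bot_iff_forall]
    intro y hy
    have h1 : ∀ n : ℕ, ∃ k : ℤ, y = h ^ (m * 2 ^ n * k) := by
      intro n
      obtain ⟨k, hk⟩ := Subgroup.mem_zpowers_iff.1 (hφI n hy)
      exact ⟨k, by rw [zpow_mul]; exact hk.symm⟩
    obtain ⟨k0, hk0⟩ := h1 0
    by_contra hy1
    have hj : m * 2 ^ 0 * k0 ≠ 0 := by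
      intro h2
      rw [h2, zpow_zero] at hk0
      exact hy1 hk0
    obtain ⟨j, hj1⟩ : ∃ j : ℤ, j = m * 2 ^ 0 * k0 := ⟨_, rfl⟩
    rw [← hj1] at hj hk0
    obtain ⟨N, hN⟩ : ∃ N : ℕ, N = j.natAbs := ⟨_, rfl⟩
    obtain ⟨k, hk⟩ := h1 N
    have h3 := hinj _ _ (hk0.symm.trans hk)
    have h4 : ((2 : ℤ) ^ N) ∣ j := ⟨m * k, by rw [h3]; ring⟩
    have h5 := Int.natAbs_dvd_natAbs.2 h4
    rw [Int.natAbs_pow] at h5
    have h6 := Nat.le_of_dvd (Int.natAbs_pos.2 hj) h5
    have h7 : N < 2 ^ N := Nat.lt_two_pow_self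
    have h8 : (2 : ℤ).natAbs = 2 := rfl
    rw [h8, ← hN] at h6
    omega
  have hx1 : x = 1 := by
    have h1 := hbot I hφI0
    have h2 : x ∈ I.1 := by
      change x ∈ (⨅ n, (K n).1 : Subgroup G)
      rw [Subgroup.mem_iInf]
      exact fun n => (hx n).1
    rw [h1] at h2
    exact Subgroup.mem_bot.1 h2
  have hcA : c ∈ A.1 := by
    have h1 : x⁻¹ * c ∈ A.1 := (hx 0).2
    rwa [hx1, inv_one, one_mul] at h1
  have h1 : Cp ≤ A := hCpmin A hcA
  have h2 : Z m ≤ Z (3 * m) := by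
    have := φ.le_iff_le.2 h1
    rwa [φ.apply_symm_apply, hφCp'] at this
  obtain ⟨k, hk⟩ := Subgroup.mem_zpowers_iff.1 (h2 (Subgroup.mem_zpowers (h ^ m)))
  rw [← zpow_mul] at hk
  have h3 := hinj _ _ hk
  have h4 : m * (3 * k - 1) = 0 := by linear_combination h3
  rcases mul_eq_zero.1 h4 with h5 | h5
  · exact hm0 h5
  · omega

end Pool.LatH472
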