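import Mathlib
import Pool.Agent.Helper472.LatDefs

set_option autoImplicit false

namespace Pool.LatH472

open Pointwise


open Topology in
theorem pre_30734 {X Y : Type} [TopologicalSpace X] [TopologicalSpace Y] (f : X → Y)
    (hf : Continuous f) (a : X) (b : Y) (hab : f a = b) (V : Set Y) (hV : V ∈ 𝓝 b) :
    f ⁻¹' V ∈ 𝓝 a := by
  apply hf.continuousAt.preimage_mem_nhds
  rw [hab]; exact hV

open Topology in
theorem claimA_30734 (H : Type) [Group H] [TopologicalSpace H] [IsTopologicalGroup H] [T2Space H] (h : H)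
    (hinf : ∀ n : ℤ, h ^ n = 1 → n = 0)
    (hrec : ∀ V ∈ 𝓝 (1 : H), ∃ n : ℤ, n ≠ 0 ∧ h ^ n ∈ V) :
    ∀ V ∈ 𝓝 (1 : H), ∀ N : ℕ, ∃ n : ℕ, N < n ∧ h ^ n ∈ V := by
  intro V hV N
  have hF : ((fun j : ℤ => h ^ j) '' ((Set.Icc (-(N:ℤ)) N) \ {0})).Finite :=
    ((Set.finite_Icc _ _).diff).image _
  have h1F : (1 : H) ∉ ((fun j : ℤ => h ^ j) '' ((Set.Icc (-(N:ℤ)) N) \ {0})) := by
    rintro ⟨j, hj, hj1⟩
    exact hj.2 (hinf j hj1)
  have hFn : ((fun j : ℤ => h ^ j) '' ((Set.Icc (-(N:ℤ)) N) \ {0}))ᶜ ∈ 𝓝 (1 : H) :=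
    hF.isClosed.isOpen_compl.mem_nhds h1F
  have hVi : (fun g : H => g⁻¹) ⁻¹' V ∈ 𝓝 (1 : H) :=
    pre_30734 _ continuous_inv _ 1 inv_one V hV
  obtain ⟨n, hn0, hn⟩ := hrec _ (Filter.inter_mem (Filter.inter_mem hV hVi) hFn)
  have hnN : (N : ℤ) < |n| := by
    by_contra hcon
    push Not at hcon
    apply hn.2
    refine ⟨n, ⟨?_, hn0⟩, rfl⟩
    rw [Set.mem_Icc]
    exact abs_le.mp hcon
  refine ⟨n.natAbs, by rw [Int.abs_eq_natAbs] at hnN; omega, ?_⟩
  rcases le_or_gt 0 n with hp | hp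
  · have : h ^ n.natAbs = h ^ n := by
      rw [← zpow_natCast, Int.natAbs_of_nonneg hp]
    rw [this]; exact hn.1.1
  · have : h ^ n.natAbs = (h ^ n)⁻¹ := by
      rw [← zpow_natCast, Int.ofNat_natAbs_of_nonpos hp.le, zpow_neg]
    rw [this]; exact hn.1.2

open Topology in
theorem claimB_30734 (H : Type) [Group H] [TopologicalSpace H] [IsTopologicalGroup H] [T2Space H] (h : H)
    (hA : ∀ V ∈ 𝓝 (1 : H), ∀ N : ℕ, ∃ n : ℕ, N < n ∧ h ^ n ∈ V) :
    ∀ x ∈ (Subgroup.zpowers h).topologicalClosure, ∀ W ∈ 𝓝 x, ∃ n : ℕ, 1 ≤ n ∧ h ^ n ∈ W := by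
  intro x hx W hW
  have hx' : x ∈ closure ((Subgroup.zpowers h : Subgroup H) : Set H) := by
    rw [← Subgroup.topologicalClosure_coe]; exact hx
  rw [mem_closure_iff_nhds] at hx'
  obtain ⟨y, hyW, hyz⟩ := hx' (interior W) (interior_mem_nhds.mpr hW)
  obtain ⟨m, rfl⟩ := hyz
  have hV : (fun g : H => h ^ m * g) ⁻¹' W ∈ 𝓝 (1 : H) :=
    pre_30734 _ (continuous_const.mul continuous_id) _ (h ^ m) (mul_one _) W
      (mem_interior_iff_mem_nhds.mp hyW)
  obtain ⟨n, hn, hnV⟩ := hA _ hV m.natAbs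
  refine ⟨(m + n).toNat, by omega, ?_⟩
  have : h ^ (m + n).toNat = h ^ m * h ^ n := by
    rw [← zpow_natCast, Int.toNat_of_nonneg (by omega), zpow_add, zpow_natCast]
  rw [this]
  exact hnV

open Topology in
theorem comp_30734 (H : Type) [Group H] [TopologicalSpace H] [IsTopologicalGroup H]
    [LocallyCompactSpace H] [T2Space H] (h : H)
    (hB : ∀ x ∈ (Subgroup.zpowers h).topologicalClosure, ∀ W ∈ 𝓝 x, ∃ n : ℕ, 1 ≤ n ∧ h ^ n ∈ W) :
    IsCompact ((Subgroup.zpowers h).topologicalClosure : Set H) := by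
  obtain ⟨M, hM⟩ : ∃ M : Subgroup H, M = (Subgroup.zpowers h).topologicalClosure := ⟨_, rfl⟩
  rw [← hM] at hB ⊢
  have hMc : IsClosed (M : Set H) := by rw [hM]; exact Subgroup.isClosed_topologicalClosure _
  have hhM : h ∈ M := by
    rw [hM]; exact Subgroup.le_topologicalClosure _ (Subgroup.mem_zpowers h)
  obtain ⟨V, hVc, hV⟩ := exists_compact_mem_nhds (1 : H)
  -- finite subcover
  have hcov : V ∩ (M : Set H) ⊆ ⋃ i : ℕ, {y : H | 1 ≤ i ∧ y * (h ^ i)⁻¹ ∈ interior V} := by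
    intro y hy
    have hW' : (fun g : H => y * g⁻¹) ⁻¹' (interior V) ∈ 𝓝 y :=
      pre_30734 _ (continuous_const.mul continuous_inv) _ 1 (mul_inv_cancel _) _
        (interior_mem_nhds.mpr hV)
    obtain ⟨i, hi, hiW⟩ := hB y hy.2 _ hW'
    exact Set.mem_iUnion.mpr ⟨i, hi, hiW⟩
  have hopen : ∀ i : ℕ, IsOpen {y : H | 1 ≤ i ∧ y * (h ^ i)⁻¹ ∈ interior V} := by
    intro i
    by_cases hi : 1 ≤ i
    · have : {y : H | 1 ≤ i ∧ y * (h ^ i)⁻¹ ∈ interior V} = (fun y => y * (h ^ i)⁻¹) ⁻¹' (interior V) := by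
        ext y; simp [hi]
      rw [this]
      exact isOpen_interior.preimage (continuous_id.mul continuous_const)
    · have : {y : H | 1 ≤ i ∧ y * (h ^ i)⁻¹ ∈ interior V} = ∅ := by
        ext y; simp [hi]
      rw [this]; exact isOpen_empty
  obtain ⟨t, ht⟩ := (hVc.inter_right hMc).elim_finite_subcover _ hopen hcov
  obtain ⟨k, hk⟩ : ∃ k, ∀ i ∈ t, i ≤ k := ⟨t.sup id, fun i hi => Finset.le_sup (f := id) hi⟩
  have hsub : (M : Set H) ⊆ ⋃ n ∈ Finset.range (k+1), (fun y => y * (h ^ n)⁻¹) '' V := by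
    intro x hx
    have hex : ∃ n : ℕ, 1 ≤ n ∧ x * h ^ n ∈ V := by
      have hW : (fun g : H => x * g) ⁻¹' V ∈ 𝓝 (x⁻¹) :=
        pre_30734 _ (continuous_const.mul continuous_id) _ 1 (mul_inv_cancel _) V hV
      exact hB x⁻¹ (M.inv_mem hx) _ hW
    classical
    obtain ⟨hn1, hnV⟩ := Nat.find_spec hex
    have hmin := fun m (hm : m < Nat.find hex) => Nat.find_min hex hm
    generalize Nat.find hex = n at hn1 hnV hmin
    have hyM : x * h ^ n ∈ V ∩ (M : Set H) := ⟨hnV, M.mul_mem hx (M.pow_mem hhM n)⟩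
    have h3 := ht hyM
    simp only [Set.mem_iUnion] at h3
    obtain ⟨i, hit, hi1, hiV⟩ := h3
    have hni : n ≤ i := by
      by_contra hcon
      push Not at hcon
      apply hmin (n - i) (by omega)
      refine ⟨by omega, ?_⟩
      have h4 : x * h ^ (n - i) = x * h ^ n * (h ^ i)⁻¹ := by
        rw [mul_assoc, ← pow_sub h hcon.le]
      rw [h4]
      exact interior_subset hiV
    simp only [Set.mem_iUnion]
    refine ⟨n, Finset.mem_range.mpr (by have := hk i hit; omega), x * h ^ n, hnV, ?_⟩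
    simp
  apply IsCompact.of_isClosed_subset _ hMc hsub
  apply Finset.isCompact_biUnion
  intro n _
  exact hVc.image (continuous_id.mul continuous_const)

theorem L6 (H : Type) [Group H] [TopologicalSpace H] [IsTopologicalGroup H]
    [LocallyCompactSpace H] [T2Space H] (h : H) :
    (∃ K : Subgroup H, IsCompact (K : Set H) ∧ h ∈ K) ∨
    ((∀ S : Subgroup H, S ≤ Subgroup.zpowers h → IsClosed (S : Set H)) ∧ ∀ n : ℤ, h ^ n = 1 → n = 0) := by
  by_cases hfin : ∀ n : ℤ, h ^ n = 1 → n = 0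
  · by_cases hrec : ∀ V ∈ nhds (1 : H), ∃ n : ℤ, n ≠ 0 ∧ h ^ n ∈ V
    · left
      refine ⟨(Subgroup.zpowers h).topologicalClosure, ?_, ?_⟩
      · exact comp_30734 H h (claimB_30734 H h (claimA_30734 H h hfin hrec))
      · exact Subgroup.le_topologicalClosure _ (Subgroup.mem_zpowers h)
    · right
      refine ⟨?_, hfin⟩
      intro S hS
      push Not at hrec
      obtain ⟨V, hV, hVn⟩ := hrec
      haveI : DiscreteTopology S := by
        apply discreteTopology_of_isOpen_singleton_one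
        have h1 : ({1} : Set S) = Subtype.val ⁻¹' (interior V) := by
          ext ⟨y, hy⟩
          simp only [Set.mem_singleton_iff, Set.mem_preimage]
          constructor
          · intro hy1
            have : y = 1 := congrArg Subtype.val hy1
            rw [this]
            exact mem_interior_iff_mem_nhds.mpr hV
          · intro hyV
            obtain ⟨n, rfl⟩ := hS hy
            have h2 : n = 0 := by
              by_contra hn
              exact hVn n hn (interior_subset hyV)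
            apply Subtype.ext
            simp [h2]
        rw [h1]
        exact isOpen_interior.preimage continuous_subtype_val
      exact Subgroup.isClosed_of_discrete
  · left
    push Not at hfin
    obtain ⟨n, hn, hn0⟩ := hfin
    refine ⟨Subgroup.zpowers h, ?_, Subgroup.mem_zpowers h⟩
    have hfo : IsOfFinOrder h := isOfFinOrder_iff_zpow_eq_one.mpr ⟨n, hn0, hn⟩
    have : (Subgroup.zpowers h : Set H).Finite := finite_zpowers.mpr hfo
    exact this.isCompact

end Pool.LatH472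

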