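import Mathlib
import Pool.Agent.Helper472.LatDefs

set_option autoImplicit false

namespace Pool.LatH472

open Pointwise

theorem L7_range (K : Type) [CommGroup K] [TopologicalSpace K] [IsTopologicalGroup K]
    [CompactSpace K] [T2Space K] (hfin : Finite (CL K)) (χ : ContinuousMonoidHom K Circle) :
    (Set.range χ).Finite := by
  have hcl : IsClosed (Set.range χ) := (isCompact_range χ.continuous_toFun).isClosed
  let S : AddSubgroup ℝ :=
    { carrier := {x | Circle.exp x ∈ Set.range χ}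
      zero_mem' := ⟨1, by simp⟩
      add_mem' := by
        rintro x y ⟨k, hk⟩ ⟨l, hl⟩
        exact ⟨k * l, by rw [map_mul, hk, hl, Circle.exp_add]⟩
      neg_mem' := by
        rintro x ⟨k, hk⟩
        exact ⟨k⁻¹, by rw [map_inv, hk, Circle.exp_neg]⟩ }
  have hS : ∀ x, x ∈ S ↔ Circle.exp x ∈ Set.range χ := fun x => Iff.rfl
  have hScl : IsClosed (S : Set ℝ) := hcl.preimage Circle.exp.continuous
  have hsurj : ∀ c : Circle, ∃ x : ℝ, Circle.exp x = c := fun c =>
    ⟨Complex.arg c, Circle.exp_arg c⟩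
  rcases AddSubgroup.dense_or_cyclic S with hd | ⟨a, ha⟩
  · exfalso
    have hall : ∀ x, x ∈ S := by
      intro x
      have : (S : Set ℝ) = Set.univ := by
        rw [← hScl.closure_eq]; exact hd.closure_eq
      have h2 : x ∈ (S : Set ℝ) := by rw [this]; trivial
      exact h2
    let N : ℕ → CL K := fun n => ⟨(((powMonoidHom (n + 1)).comp χ.toMonoidHom).ker), by
      have : ((((powMonoidHom (n + 1)).comp χ.toMonoidHom).ker : Subgroup K) : Set K) =
          (fun k => (χ k) ^ (n + 1)) ⁻¹' {1} := by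
        ext k
        simp [MonoidHom.mem_ker]
      rw [this]
      exact isClosed_singleton.preimage (χ.continuous_toFun.pow _)⟩
    have hN : ∀ n k, k ∈ (N n).1 ↔ (χ k) ^ (n + 1) = 1 := by
      intro n k
      change k ∈ (((powMonoidHom (n + 1)).comp χ.toMonoidHom).ker) ↔ _
      simp [MonoidHom.mem_ker]
    have hdvd : ∀ n m, N n = N m → (n + 1) ∣ (m + 1) := by
      intro n m hnm
      obtain ⟨k, hk⟩ := hall (2 * Real.pi / ((n + 1 : ℕ) : ℝ))
      have h1 : k ∈ (N n).1 := by
        rw [hN, hk, ← Circle.exp_nsmul, nsmul_eq_mul]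
        rw [mul_div_cancel₀ _ (by positivity), Circle.exp_two_pi]
      rw [hnm, hN, hk, ← Circle.exp_nsmul, nsmul_eq_mul] at h1
      have h2 : Circle.exp (((m + 1 : ℕ) : ℝ) * (2 * Real.pi / ((n + 1 : ℕ) : ℝ))) =
        Circle.exp 0 := by rw [h1, Circle.exp_zero]
      rw [Circle.exp_eq_exp] at h2
      obtain ⟨j, hj⟩ := h2
      have hn0 : ((n + 1 : ℕ) : ℝ) ≠ 0 := by positivity
      have hpi := Real.pi_pos
      have h3 : ((m + 1 : ℕ) : ℝ) = j * ((n + 1 : ℕ) : ℝ) := by
        field_simp at hj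
        nlinarith
      have h4 : ((m + 1 : ℕ) : ℤ) = j * ((n + 1 : ℕ) : ℤ) := by exact_mod_cast h3
      have h5 : ((n + 1 : ℕ) : ℤ) ∣ ((m + 1 : ℕ) : ℤ) := ⟨j, by rw [h4]; ring⟩
      exact_mod_cast h5
    refine not_injective_infinite_finite N ?_
    intro n m hnm
    have h1 := Nat.dvd_antisymm (hdvd n m hnm) (hdvd m n hnm.symm)
    omega
  · have h2pi : 2 * Real.pi ∈ S := ⟨1, by rw [map_one, Circle.exp_two_pi]⟩
    rw [ha, AddSubgroup.mem_closure_singleton] at h2pi
    obtain ⟨n, hn⟩ := h2pi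
    have hn0 : n ≠ 0 := by
      rintro rfl
      have := Real.pi_pos
      simp at hn
    have hord : IsOfFinOrder (Circle.exp a) := by
      rw [isOfFinOrder_iff_zpow_eq_one]
      refine ⟨n, hn0, ?_⟩
      rw [← Circle.exp_zsmul, hn, Circle.exp_two_pi]
    refine (finite_zpowers.2 hord).subset ?_
    rintro c ⟨k, hk⟩
    obtain ⟨x, hx⟩ := hsurj c
    have hxS : x ∈ S := ⟨k, by rw [hk, hx]⟩
    rw [ha, AddSubgroup.mem_closure_singleton] at hxS
    obtain ⟨j, hj⟩ := hxS
    refine ⟨j, ?_⟩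
    change (Circle.exp a) ^ j = c
    rw [← Circle.exp_zsmul, hj, hx]

theorem L7 (K : Type) [CommGroup K] [TopologicalSpace K] [IsTopologicalGroup K]
    [CompactSpace K] [T2Space K]
    (chars : ∀ k : K, k ≠ 1 → ∃ χ : ContinuousMonoidHom K Circle, χ k ≠ 1)
    (hfin : Finite (CL K)) : Finite K := by
  have hopen : ∀ χ : ContinuousMonoidHom K Circle, IsOpen {k : K | χ k = 1} := by
    intro χ
    have h1 : (Set.range χ \ {1}).Finite := (L7_range K hfin χ).subset Set.sdiff_subset
    have h2 : {k : K | χ k = 1} = (χ ⁻¹' (Set.range χ \ {1}))ᶜ := by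
      ext k
      simp
    rw [h2]
    exact (h1.isClosed.preimage χ.continuous_toFun).isOpen_compl
  have hfinS : {s : Set K | ∃ χ : ContinuousMonoidHom K Circle, s = {k : K | χ k = 1}}.Finite := by
    refine (Set.finite_range (fun L : CL K => (L.1 : Set K))).subset ?_
    rintro s ⟨χ, rfl⟩
    have h3 : ((χ.toMonoidHom.ker : Subgroup K) : Set K) = {k : K | χ k = 1} := by
      ext k
      simp [MonoidHom.mem_ker]
    refine ⟨⟨χ.toMonoidHom.ker, ?_⟩, h3⟩
    rw [h3]
    exact isClosed_singleton.preimage χ.continuous_toFun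
  have h1 : ⋂₀ {s : Set K | ∃ χ : ContinuousMonoidHom K Circle, s = {k : K | χ k = 1}} = {1} := by
    ext k
    constructor
    · intro hk
      by_contra hk1
      obtain ⟨χ, hχ⟩ := chars k hk1
      exact hχ (hk _ ⟨χ, rfl⟩)
    · rintro rfl
      rintro s ⟨χ, rfl⟩
      exact map_one χ
  have h2 : IsOpen ({1} : Set K) := by
    rw [← h1]
    refine hfinS.isOpen_sInter ?_
    rintro s ⟨χ, rfl⟩
    exact hopen χ
  have h3 : DiscreteTopology K := discreteTopology_of_isOpen_singleton_one h2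
  exact finite_of_compact_of_discrete

end Pool.LatH472
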