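import Mathlib
import Pool.Agent.Helper472.LatDefs

set_option autoImplicit false

namespace Pool.LatH472

open Pointwise

theorem L8 (hL7 : ∀ (K : Type) [CommGroup K] [TopologicalSpace K] [IsTopologicalGroup K]
    [CompactSpace K] [T2Space K], Finite (CL K) → Finite K)
    (H : Type) [Group H] [TopologicalSpace H] [IsTopologicalGroup H]
    [T2Space H] (h : ElemCompact H) (E : Subgroup H) (hE : IsClosed (E : Set H))
    (hfin : Finite {S : Subgroup H // IsClosed (S : Set H) ∧ S ≤ E}) :
    Finite E := by
  have key : ∀ e : E, (Subgroup.zpowers (e : H) : Set H).Finite := by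
    intro e
    set Z := Subgroup.zpowers (e : H) with hZ
    have hZE : Z ≤ E := by
      rw [hZ, Subgroup.zpowers_le]
      exact e.2
    set M := Z.topologicalClosure with hM
    have hMc : IsClosed (M : Set H) := Z.isClosed_topologicalClosure
    have hME : M ≤ E := Z.topologicalClosure_minimal hZE hE
    obtain ⟨K, hKc, heK⟩ := h e
    have hZK : Z ≤ K := by
      rw [hZ, Subgroup.zpowers_le]
      exact heK
    have hMK : M ≤ K := Z.topologicalClosure_minimal hZK hKc.isClosed
    have hMcomp : IsCompact (M : Set H) := hKc.of_isClosed_subset hMc hMK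
    let _ : CommGroup M := Z.commGroupTopologicalClosure (by
      rintro ⟨x, hx⟩ ⟨y, hy⟩
      obtain ⟨a, rfl⟩ := Subgroup.mem_zpowers_iff.mp hx
      obtain ⟨b, rfl⟩ := Subgroup.mem_zpowers_iff.mp hy
      apply Subtype.ext
      show (e : H) ^ a * (e : H) ^ b = (e : H) ^ b * (e : H) ^ a
      rw [← zpow_add, ← zpow_add, add_comm])
    have : CompactSpace M := isCompact_iff_compactSpace.mp hMcomp
    have htg : IsTopologicalGroup M := M.instIsTopologicalGroupSubtypeMem
    have hfinM : Finite M := by
      refine hL7 M ?_
      have hcl : Topology.IsClosedEmbedding (Subtype.val : M → H) := hMc.isClosedEmbedding_subtypeVal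
      let f : CL M → {S : Subgroup H // IsClosed (S : Set H) ∧ S ≤ E} := fun S =>
        ⟨S.1.map M.subtype, by
          constructor
          · have := hcl.isClosedMap _ S.2
            rwa [Subgroup.coe_map]
          · rintro x ⟨y, hy, rfl⟩
            exact hME y.2⟩
      refine Finite.of_injective f ?_
      intro S T hST
      have h1 : S.1.map M.subtype = T.1.map M.subtype := congrArg Subtype.val hST
      exact Subtype.ext (Subgroup.map_injective M.subtype_injective h1)
    have h2 : (M : Set H).Finite := Set.toFinite _
    exact h2.subset Z.le_topologicalClosure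
  let f : E → {S : Subgroup H // IsClosed (S : Set H) ∧ S ≤ E} := fun e =>
    ⟨Subgroup.zpowers (e : H), (key e).isClosed, by
      rw [Subgroup.zpowers_le]
      exact e.2⟩
  rw [← Set.finite_univ_iff]
  refine Set.Finite.of_finite_fibers f (Set.toFinite _) ?_
  intro S _
  rw [Set.univ_inter]
  by_cases hne : (f ⁻¹' {S}).Nonempty
  · obtain ⟨e, he⟩ := hne
    have h1 : (Subtype.val ⁻¹' (S.1 : Set H) : Set E).Finite := by
      refine Set.Finite.preimage Subtype.val_injective.injOn ?_
      have : S.1 = Subgroup.zpowers (e : H) := by
        have he' : f e = S := he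
        rw [← he']
      rw [this]
      exact key e
    refine h1.subset ?_
    intro x hx
    have hx' : f x = S := hx
    show (x : H) ∈ S.1
    rw [← hx']
    exact Subgroup.mem_zpowers _
  · rw [Set.not_nonempty_iff_eq_empty.mp hne]
    exact Set.finite_empty


end Pool.LatH472
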