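import Mathlib
import Pool.Agent.Helper472.LatDefs

set_option autoImplicit false

namespace Pool.LatH472

open Pointwise

theorem L8b (G H : Type) [Group G] [TopologicalSpace G] [IsTopologicalGroup G]
    [T2Space G] [Group H] [TopologicalSpace H] [IsTopologicalGroup H]
    [T2Space H] (φ : CL G ≃o CL H) (F : CL G) (hF : Finite F.1) :
    Finite {S : Subgroup H // IsClosed (S : Set H) ∧ S ≤ (φ F).1} := by
  have hfin : ((F.1 : Subgroup G) : Set G).Finite := Set.toFinite _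
  have hsub : {A : Set G | A ⊆ (F.1 : Set G)}.Finite := hfin.finite_subsets
  have : Finite {A : Set G | A ⊆ (F.1 : Set G)} := hsub.to_subtype
  have hle : ∀ S : {S : Subgroup H // IsClosed (S : Set H) ∧ S ≤ (φ F).1},
      ((φ.symm ⟨S.1, S.2.1⟩).1 : Set G) ⊆ (F.1 : Set G) := by
    intro S
    have h1 : (⟨S.1, S.2.1⟩ : CL H) ≤ φ F := S.2.2
    have h2 : φ.symm ⟨S.1, S.2.1⟩ ≤ F := by
      rw [OrderIso.symm_apply_le]
      exact h1
    exact h2
  refine Finite.of_injective (β := {A : Set G | A ⊆ (F.1 : Set G)})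
    (fun S => ⟨((φ.symm ⟨S.1, S.2.1⟩).1 : Set G), hle S⟩) ?_
  intro S T hST
  have h1 : ((φ.symm ⟨S.1, S.2.1⟩).1 : Set G) = ((φ.symm ⟨T.1, T.2.1⟩).1 : Set G) :=
    congrArg Subtype.val hST
  have h2 : (φ.symm ⟨S.1, S.2.1⟩).1 = (φ.symm ⟨T.1, T.2.1⟩).1 := SetLike.coe_injective h1
  have h3 : φ.symm ⟨S.1, S.2.1⟩ = φ.symm ⟨T.1, T.2.1⟩ := Subtype.ext h2
  have h4 := φ.symm.injective h3
  have h5 : S.1 = T.1 := congrArg (fun x : CL H => x.1) h4
  exact Subtype.ext h5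

end Pool.LatH472
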