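import Mathlib
import Pool.Agent.Helper472.LatDefs

set_option autoImplicit false

namespace Pool.LatH472

open Pointwise

theorem L9 (G H : Type) [Group G] [TopologicalSpace G] [IsTopologicalGroup G]
    [LocallyCompactSpace G] [T2Space G] [Group H] [TopologicalSpace H] [IsTopologicalGroup H]
    [LocallyCompactSpace H] [T2Space H] (φ : CL G ≃o CL H)
    (hfin : ∀ F : CL G, Finite F.1 → Finite (φ F).1)
    (hL1 : ∀ (D : Subgroup H), Dense (D : Set H) →
      (∀ F : Finset H, (↑F : Set H) ⊆ (D : Set H) →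
      ∃ K : Subgroup H, IsCompact (K : Set H) ∧ (↑F : Set H) ⊆ (K : Set H)) → IndCompact H)
    (D : Subgroup G) (hD : Dense (D : Set G))
    (hDf : ∀ F : Finset G, (↑F : Set G) ⊆ (D : Set G) → Finite (Subgroup.closure (↑F : Set G))) :
    IndCompact H := by
  classical
  have hcl : ∀ F : {F : Finset G // (↑F : Set G) ⊆ (D : Set G)},
      IsClosed ((Subgroup.closure (↑F.1 : Set G) : Subgroup G) : Set G) := by
    intro F
    haveI := hDf F.1 F.2
    exact (Set.toFinite _).isClosed
  set A : {F : Finset G // (↑F : Set G) ⊆ (D : Set G)} → CL G := fun F =>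
    ⟨Subgroup.closure (↑F.1 : Set G), hcl F⟩ with hA
  set E : {F : Finset G // (↑F : Set G) ⊆ (D : Set G)} → Subgroup H := fun F => (φ (A F)).1 with hE
  have hEfin : ∀ F, Finite (E F) := fun F => hfin (A F) (hDf F.1 F.2)
  have hmono : ∀ F1 F2 : {F : Finset G // (↑F : Set G) ⊆ (D : Set G)}, F1.1 ⊆ F2.1 →
      E F1 ≤ E F2 := by
    intro F1 F2 h12
    have h1 : A F1 ≤ A F2 := by
      show Subgroup.closure (↑F1.1 : Set G) ≤ Subgroup.closure (↑F2.1 : Set G)
      exact Subgroup.closure_mono (by exact_mod_cast h12)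
    have h2 : φ (A F1) ≤ φ (A F2) := φ.monotone h1
    exact h2
  haveI : Nonempty {F : Finset G // (↑F : Set G) ⊆ (D : Set G)} := ⟨⟨∅, by simp⟩⟩
  have hun : ∀ F1 F2 : {F : Finset G // (↑F : Set G) ⊆ (D : Set G)},
      (↑(F1.1 ∪ F2.1) : Set G) ⊆ (D : Set G) := by
    intro F1 F2
    rw [Finset.coe_union]
    exact Set.union_subset F1.2 F2.2
  have hdir : Directed (· ≤ ·) E := by
    intro F1 F2
    exact ⟨⟨F1.1 ∪ F2.1, hun F1 F2⟩, hmono _ _ Finset.subset_union_left,
      hmono _ _ Finset.subset_union_right⟩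
  apply hL1 (⨆ F, E F)
  · -- dense
    set T : CL H := ⟨(⨆ F, E F).topologicalClosure, Subgroup.isClosed_topologicalClosure _⟩ with hT
    set K : CL G := φ.symm T with hK
    have hAK : ∀ F, A F ≤ K := by
      intro F
      rw [hK, OrderIso.le_symm_apply]
      show E F ≤ (⨆ F, E F).topologicalClosure
      exact (le_iSup E F).trans (Subgroup.le_topologicalClosure _)
    have hDK : (D : Set G) ⊆ (K.1 : Set G) := by
      intro g hg
      have h1 := hAK ⟨{g}, by simpa using hg⟩
      have h2 : Subgroup.closure ((({g} : Finset G) : Set G)) ≤ K.1 := h1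
      apply h2
      apply Subgroup.subset_closure
      simp
    have hKtop : ∀ g : G, g ∈ K.1 := by
      intro g
      have h1 : closure (D : Set G) ⊆ (K.1 : Set G) := closure_minimal hDK K.2
      rw [hD.closure_eq] at h1
      exact h1 (Set.mem_univ g)
    have hTtop : ∀ h : H, h ∈ T.1 := by
      intro h
      have h1 : (⟨⊤, isClosed_univ⟩ : CL H) ≤ T := by
        have h2 : φ.symm ⟨⊤, isClosed_univ⟩ ≤ K := by
          intro g _
          exact hKtop g
        rw [hK] at h2
        exact φ.symm.le_iff_le.1 h2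
      exact h1 (Subgroup.mem_top h)
    intro h
    have h1 := hTtop h
    have h2 : h ∈ ((⨆ F, E F).topologicalClosure : Subgroup H) := h1
    rw [← SetLike.mem_coe, Subgroup.topologicalClosure_coe] at h2
    exact h2
  · intro F hF
    have key : ∀ F : Finset H, (↑F : Set H) ⊆ ((⨆ F, E F : Subgroup H) : Set H) →
        ∃ i, (↑F : Set H) ⊆ (E i : Set H) := by
      intro F
      induction F using Finset.induction_on with
      | empty =>
        intro _
        exact ⟨Classical.arbitrary _, by simp⟩
      | insert x F _ ih =>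
        intro hF
        rw [Finset.coe_insert, Set.insert_subset_iff] at hF
        obtain ⟨i, hi⟩ := ih hF.2
        obtain ⟨j, hj⟩ := (Subgroup.mem_iSup_of_directed hdir).1 hF.1
        obtain ⟨l, hil, hjl⟩ := hdir i j
        refine ⟨l, ?_⟩
        rw [Finset.coe_insert, Set.insert_subset_iff]
        exact ⟨hjl hj, fun y hy => hil (hi hy)⟩
    obtain ⟨i, hi⟩ := key F hF
    haveI := hEfin i
    exact ⟨E i, (Set.toFinite _).isCompact, hi⟩

end Pool.LatH472
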