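import Mathlib
import Pool.Agent.Helper472.LatDefs
import Pool.Agent.Helper472.Lat_L1
import Pool.Agent.Helper472.Lat_L2
import Pool.Agent.Helper472.Lat_L3
import Pool.Agent.Helper472.Lat_L4
import Pool.Agent.Helper472.Lat_L5
import Pool.Agent.Helper472.Lat_L6
import Pool.Agent.Helper472.Lat_L7
import Pool.Agent.Helper472.Lat_L8
import Pool.Agent.Helper472.Lat_L8b
import Pool.Agent.Helper472.Lat_L9
import Pool.Agent.Helper472.Lat_L10
import Pool.Agent.Helper472.Lat_L10a
import Pool.Agent.Helper472.Lat_L10b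
import Pool.Agent.Helper472.Lat_L10c
import Pool.Agent.Helper472.Lat_Chars

set_option autoImplicit false

namespace Pool.LatH472

open Pointwise

theorem A_L1 : StL1 := fun H _ _ _ _ _ D hD h Q hQ => L1 H D hD h Q hQ

theorem A_L2 : StL2 := fun H _ _ _ _ _ A _ hAc hA hq => L2 H A hAc hA hq

theorem A_L3 : StL3 := fun H _ _ _ _ h => L3 H h

theorem A_elem (G : Type) [Group G] [TopologicalSpace G] (h : IndCompact G) : ElemCompact G := by
  intro g
  obtain ⟨K, hK, hgK⟩ := h {g}
  exact ⟨K, hK, hgK (by simp)⟩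

theorem A_elem_iso (G H : Type) [Group G] [TopologicalSpace G] [IsTopologicalGroup G]
    [LocallyCompactSpace G] [T2Space G] [Group H] [TopologicalSpace H] [IsTopologicalGroup H]
    [LocallyCompactSpace H] [T2Space H] (φ : CL G ≃o CL H) (hG : ElemCompact G) :
    ElemCompact H :=
  L5 (fun H _ _ _ _ _ h => L6 H h) G H φ hG

theorem A_L7 (K : Type) [CommGroup K] [TopologicalSpace K] [IsTopologicalGroup K]
    [CompactSpace K] [T2Space K] (h : Finite (CL K)) : Finite K :=
  L7 K (fun k hk => chars k hk) h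

theorem A_fin (G H : Type) [Group G] [TopologicalSpace G] [IsTopologicalGroup G]
    [T2Space G] [Group H] [TopologicalSpace H] [IsTopologicalGroup H]
    [T2Space H] (φ : CL G ≃o CL H) (hH : ElemCompact H) (F : CL G) (hF : Finite F.1) :
    Finite (φ F).1 :=
  L8 (fun K _ _ _ _ _ h => A_L7 K h) H hH (φ F).1 (φ F).2 (L8b G H φ F hF)

theorem A_L1' (H : Type) [Group H] [TopologicalSpace H] [IsTopologicalGroup H]
    [LocallyCompactSpace H] [T2Space H] (h : IndCompact H) (Q : Set H) (hQ : IsCompact Q) :
    ∃ K : Subgroup H, IsCompact (K : Set H) ∧ Q ⊆ (K : Set H) :=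
  L1 H ⊤ (by simp) (fun F _ => h F) Q hQ

/-- solvable and elementwise compact implies inductively compact -/
theorem A_solv (H : Type) [Group H] [TopologicalSpace H] [IsTopologicalGroup H]
    [LocallyCompactSpace H] [T2Space H] (hs : Group.IsSolvable H) (h : ElemCompact H) :
    IndCompact H :=
  L4 (fun H _ _ _ _ _ h Q hQ => A_L1' H h Q hQ) (fun H _ _ _ _ _ A _ hAc hA hq => L2 H A hAc hA hq)
    (fun H _ _ _ _ h => L3 H h) H hs h

theorem A_quot (H : Type) [Group H] [TopologicalSpace H] [IsTopologicalGroup H]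
    (A : Subgroup H) [A.Normal] (h : ElemCompact H) : ElemCompact (H ⧸ A) := by
  intro x
  obtain ⟨g, rfl⟩ := QuotientGroup.mk_surjective x
  obtain ⟨K, hK, hg⟩ := h g
  refine ⟨K.map (QuotientGroup.mk' A), ?_, ⟨g, hg, rfl⟩⟩
  rw [Subgroup.coe_map]
  exact hK.image (QuotientGroup.continuous_mk)

/-- part (3): a dense locally finite subgroup of `G` -/
theorem A_dense (G H : Type) [Group G] [TopologicalSpace G] [IsTopologicalGroup G]
    [LocallyCompactSpace G] [T2Space G] [Group H] [TopologicalSpace H] [IsTopologicalGroup H]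
    [LocallyCompactSpace H] [T2Space H] (φ : CL G ≃o CL H) (hG : IndCompact G)
    (D : Subgroup G) (hD : Dense (D : Set G))
    (hDf : ∀ F : Finset G, (↑F : Set G) ⊆ (D : Set G) → Finite (Subgroup.closure (↑F : Set G))) :
    IndCompact H := by
  have hH : ElemCompact H := A_elem_iso G H φ (A_elem G hG)
  refine L9 G H φ (fun F hF => A_fin G H φ hH F hF) ?_ D hD hDf
  intro D' hD' h F
  obtain ⟨K, hK, hFK⟩ := L1 H D' hD' h (↑F : Set H) F.finite_toSet.isCompact
  exact ⟨K, hK, hFK⟩

/-- compact sets inside a discrete subgroup of an elementwise compact group -/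
theorem A_discrete (G H : Type) [Group G] [TopologicalSpace G] [IsTopologicalGroup G]
    [LocallyCompactSpace G] [T2Space G] [Group H] [TopologicalSpace H] [IsTopologicalGroup H]
    [LocallyCompactSpace H] [T2Space H] (φ : CL G ≃o CL H) (hG : IndCompact G)
    (A : Subgroup H) (hA : DiscreteTopology A) (Q : Set H) (hQ : IsCompact Q)
    (hQA : Q ⊆ (A : Set H)) :
    ∃ K : Subgroup H, IsCompact (K : Set H) ∧ Q ⊆ (K : Set H) := by
  have hE : ElemCompact G := A_elem G hG
  have hH : ElemCompact H := A_elem_iso G H φ hE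
  have hsub : ∀ S : Subgroup H, S ≤ A → IsClosed (S : Set H) := by
    intro S hS
    haveI : DiscreteTopology S :=
      DiscreteTopology.of_subset (s := (A : Set H)) (t := (S : Set H)) hA hS
    exact Subgroup.isClosed_of_discrete
  have hfinA : ∀ K : Set H, IsCompact K → K ⊆ (A : Set H) → K.Finite := by
    intro K hK hKA
    haveI : DiscreteTopology K :=
      DiscreteTopology.of_subset (s := (A : Set H)) (t := K) hA hKA
    haveI : CompactSpace K := isCompact_iff_compactSpace.mp hK
    haveI : Finite K := finite_of_compact_of_discrete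
    exact Set.toFinite K
  have hAc : IsClosed (A : Set H) := hsub A le_rfl
  have htor : ∀ a ∈ A, IsOfFinOrder a := by
    intro a ha
    obtain ⟨K, hK, haK⟩ := hH a
    have h1 : ((K : Set H) ∩ (A : Set H)).Finite :=
      hfinA _ (hK.inter_right hAc) Set.inter_subset_right
    have h2 : (Subgroup.zpowers a : Set H) ⊆ (K : Set H) ∩ (A : Set H) := by
      intro x hx
      exact ⟨(Subgroup.zpowers_le.mpr haK) hx, (Subgroup.zpowers_le.mpr ha) hx⟩
    have h3 : (Subgroup.zpowers a : Set H).Finite := h1.subset h2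
    exact finite_zpowers.mp h3
  have hQf : Q.Finite := hfinA Q hQ hQA
  have h4 : Finite (Subgroup.closure (↑hQf.toFinset : Set H)) :=
    L10 (fun G _ _ _ _ _ Y hY hgen hfo hc => L10c (fun G _ _ _ _ _ C hC hc => L10a G C hC hc)
      (fun Γ _ Y hY hgen hfo hc => L10b Γ Y hY hgen hfo hc) G Y hY hgen hfo hc) G H φ hG
      (fun F hF => A_fin G H φ hH F hF) (fun F hF => A_fin H G φ.symm hE F hF) A hsub htor
      hQf.toFinset (by simpa using hQA)
  refine ⟨Subgroup.closure (↑hQf.toFinset : Set H), ?_, ?_⟩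
  · exact (Set.toFinite (↑(Subgroup.closure (↑hQf.toFinset : Set H)) : Set H)).isCompact
  · intro x hx
    exact Subgroup.subset_closure (by simpa using hx)

/-- part (2): `H` is (discrete normal)-by-solvable -/
theorem A_disc_solv (G H : Type) [Group G] [TopologicalSpace G] [IsTopologicalGroup G]
    [LocallyCompactSpace G] [T2Space G] [Group H] [TopologicalSpace H] [IsTopologicalGroup H]
    [LocallyCompactSpace H] [T2Space H] (φ : CL G ≃o CL H) (hG : IndCompact G)
    (A : Subgroup H) [A.Normal] (hA : DiscreteTopology A) (hs : Group.IsSolvable (H ⧸ A)) :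
    IndCompact H := by
  have hH : ElemCompact H := A_elem_iso G H φ (A_elem G hG)
  have hAc : IsClosed (A : Set H) := Subgroup.isClosed_of_discrete
  haveI : IsClosed (A : Set H) := hAc
  exact L2 H A hAc (fun Q hQ hQA => A_discrete G H φ hG A hA Q hQ hQA)
    (A_solv (H ⧸ A) hs (A_quot H A hH))

end Pool.LatH472
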