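import Mathlib
import Pool.Agent.Helper472.LatDefs

set_option autoImplicit false

namespace Pool.LatH472

open Pointwise

theorem ABQ (hOPN : StOPN) (hRES : StRES) (hORE : StORE) (hINT : StINT) : StABQ := by
  intro G H _ _ _ _ _ _ _ _ _ _ _ _ φ hEC N hNn hNo h
  -- the monothetic group
  have hZcl : IsClosed ((Zc h : Subgroup H) : Set H) := Subgroup.isClosed_topologicalClosure _
  have hZcomm : ∀ x ∈ Zc h, ∀ y ∈ Zc h, x * y = y * x := by
    have hc : ∀ x y : Subgroup.zpowers h, x * y = y * x := by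
      rintro ⟨_, m, rfl⟩ ⟨_, n, rfl⟩
      apply Subtype.ext
      show h ^ m * h ^ n = h ^ n * h ^ m
      rw [← zpow_add, ← zpow_add, add_comm]
    intro x hx y hy
    have h1 := (Subgroup.commGroupTopologicalClosure (Subgroup.zpowers h) hc).mul_comm
      (⟨x, hx⟩ : (Subgroup.zpowers h).topologicalClosure) ⟨y, hy⟩
    exact congrArg Subtype.val h1
  have hZcpt : IsCompact ((Zc h : Subgroup H) : Set H) := by
    obtain ⟨K, hK, hhK⟩ := hEC h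
    have h1 : (Zc h : Subgroup H) ≤ K := by
      apply Subgroup.topologicalClosure_minimal _ _ hK.isClosed
      rw [Subgroup.zpowers_le]
      exact hhK
    exact hK.of_isClosed_subset hZcl h1
  have hhZ : h ∈ Zc h := Subgroup.le_topologicalClosure _ (Subgroup.mem_zpowers h)
  obtain ⟨C, hC⟩ : ∃ C : CL G, φ C = ⟨Zc h, hZcl⟩ := ⟨φ.symm ⟨Zc h, hZcl⟩, φ.apply_symm_apply _⟩
  have hC1 : (φ C).1 = Zc h := by rw [hC]
  obtain ⟨ψ, -⟩ := hRES G H φ C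
  have hNC : (N.1.subgroupOf C.1).Normal := Subgroup.Normal.subgroupOf hNn C.1
  have hRo : IsOpen ((N.1.subgroupOf C.1 : Subgroup C.1) : Set C.1) :=
    hNo.preimage continuous_subtype_val
  obtain ⟨R, hR⟩ : ∃ R : CL C.1, R.1 = N.1.subgroupOf C.1 :=
    ⟨⟨N.1.subgroupOf C.1, Subgroup.isClosed_of_isOpen _ hRo⟩, rfl⟩
  have hRo' : IsOpen (R.1 : Set C.1) := by rw [hR]; exact hRo
  have hRn : R.1.Normal := by rw [hR]; exact hNC
  haveI : CompactSpace C.1 := isCompact_iff_compactSpace.1 (C.2.isCompact)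
  haveI : CompactSpace (φ C).1 := isCompact_iff_compactSpace.1 (by rw [hC1]; exact hZcpt)
  haveI : LocallyCompactSpace (φ C).1 := (φ C).2.isClosedEmbedding_subtypeVal.locallyCompactSpace
  have hψo : IsOpen ((ψ R).1 : Set (φ C).1) := hOPN C.1 (φ C).1 ψ R hRo'
  have hcomm : ∀ x y : (φ C).1, x * y = y * x := fun x y =>
    Subtype.ext (hZcomm x.1 (hC1 ▸ x.2) y.1 (hC1 ▸ y.2))
  have hψn : (ψ R).1.Normal := ⟨fun n hn g => by
    rw [hcomm g n, mul_inv_cancel_right]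
    exact hn⟩
  obtain ⟨e⟩ := hINT C.1 (φ C).1 ψ R hRo' hψo
  haveI : Finite (C.1 ⧸ R.1) := Subgroup.quotient_finite_of_isOpen R.1 hRo'
  haveI : Finite ((φ C).1 ⧸ (ψ R).1) := Subgroup.quotient_finite_of_isOpen (ψ R).1 hψo
  have hg0 : h ∈ (φ C).1 := by rw [hC1]; exact hhZ
  haveI : IsCyclic ((φ C).1 ⧸ (ψ R).1) := by
    refine ⟨⟨((⟨h, hg0⟩ : (φ C).1) : (φ C).1 ⧸ (ψ R).1), fun q => ?_⟩⟩
    obtain ⟨x, rfl⟩ := QuotientGroup.mk_surjective q
    have hx : x ∈ closure ((Subgroup.zpowers (⟨h, hg0⟩ : (φ C).1) : Subgroup (φ C).1) : Set (φ C).1) := by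
      rw [closure_subtype]
      have h1 : x.1 ∈ Zc h := hC1 ▸ x.2
      have h2 : x.1 ∈ closure ((Subgroup.zpowers h : Subgroup H) : Set H) := h1
      refine closure_mono ?_ h2
      rintro _ ⟨n, rfl⟩
      exact ⟨(⟨h, hg0⟩ : (φ C).1) ^ n, ⟨n, rfl⟩, rfl⟩
    have hV : IsOpen ((fun y : (φ C).1 => y⁻¹ * x) ⁻¹' ((ψ R).1 : Set (φ C).1)) :=
      hψo.preimage (by fun_prop)
    obtain ⟨y, hy1, n, rfl⟩ := mem_closure_iff.1 hx _ hV (by
      show x⁻¹ * x ∈ (ψ R).1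
      rw [inv_mul_cancel]
      exact (ψ R).1.one_mem)
    refine ⟨n, ?_⟩
    exact QuotientGroup.eq.2 hy1
  have hab := hORE (C.1 ⧸ R.1) ((φ C).1 ⧸ (ψ R).1) e
  have hCN : ∀ a ∈ C.1, ∀ b ∈ C.1, a * b * a⁻¹ * b⁻¹ ∈ N.1 := by
    intro a ha b hb
    have h1 := hab ((⟨a, ha⟩ : C.1) : C.1 ⧸ R.1) ((⟨b, hb⟩ : C.1) : C.1 ⧸ R.1)
    have h2 : (((⟨a, ha⟩ : C.1) * ⟨b, hb⟩ * (⟨a, ha⟩ : C.1)⁻¹ * (⟨b, hb⟩ : C.1)⁻¹ : C.1) :
        C.1 ⧸ R.1) = 1 := by
      rw [QuotientGroup.mk_mul, QuotientGroup.mk_mul, QuotientGroup.mk_mul, QuotientGroup.mk_inv,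
        QuotientGroup.mk_inv, h1, mul_inv_cancel_right, mul_inv_cancel]
    rw [QuotientGroup.eq_one_iff, hR, Subgroup.mem_subgroupOf] at h2
    exact h2
  have hXo : IsOpen ((C.1 ⊔ N.1 : Subgroup G) : Set G) := Subgroup.isOpen_mono le_sup_right hNo
  refine ⟨⟨C.1 ⊔ N.1, Subgroup.isClosed_of_isOpen _ hXo⟩, ?_, ?_, ?_⟩
  · exact (le_sup_right : N.1 ≤ C.1 ⊔ N.1)
  · have h1 : C ≤ (⟨C.1 ⊔ N.1, Subgroup.isClosed_of_isOpen _ hXo⟩ : CL G) :=
      (le_sup_left : C.1 ≤ C.1 ⊔ N.1)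
    exact (φ.monotone h1) hg0
  · intro a ha b hb
    obtain ⟨c, hc, n, hn, rfl⟩ := Subgroup.mem_sup_of_normal_right.1 ha
    obtain ⟨c', hc', n', hn', rfl⟩ := Subgroup.mem_sup_of_normal_right.1 hb
    have e1 : ((c * n : G) : G ⧸ N.1) = (c : G ⧸ N.1) := by
      rw [QuotientGroup.mk_mul, (QuotientGroup.eq_one_iff n).2 hn, mul_one]
    have e2 : ((c' * n' : G) : G ⧸ N.1) = (c' : G ⧸ N.1) := by
      rw [QuotientGroup.mk_mul, (QuotientGroup.eq_one_iff n').2 hn', mul_one]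
    rw [← QuotientGroup.eq_one_iff, QuotientGroup.mk_mul, QuotientGroup.mk_mul,
      QuotientGroup.mk_mul, QuotientGroup.mk_inv, QuotientGroup.mk_inv, e1, e2]
    have h1 := (QuotientGroup.eq_one_iff (N := N.1) _).2 (hCN c hc c' hc')
    rw [QuotientGroup.mk_mul, QuotientGroup.mk_mul, QuotientGroup.mk_mul, QuotientGroup.mk_inv,
      QuotientGroup.mk_inv] at h1
    exact h1

end Pool.LatH472

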