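import Mathlib
import Pool.Agent.Helper472.LatDefs

set_option autoImplicit false

namespace Pool.LatH472

open Pointwise

theorem FI : StFI := by
  intro K _ _ _ _ _ _ A hA hfin
  have key : ∀ g : K, g ∉ A → ∃ B : Subgroup K, IsOpen (B : Set K) ∧ IsClosed (B : Set K) ∧
      A ≤ B ∧ g ∉ B := by
    intro g hg
    have hU : IsOpen ((fun x : K => g * x) ⁻¹' ((A : Set K)ᶜ)) :=
      (hA.isOpen_compl).preimage (continuous_const.mul continuous_id)
    have h1 : (1 : K) ∈ ((fun x : K => g * x) ⁻¹' ((A : Set K)ᶜ)) := by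
      simpa using hg
    obtain ⟨N, hN⟩ := ProfiniteGrp.exist_openNormalSubgroup_sub_open_nhds_of_one hU h1
    haveI hNn : (N : Subgroup K).Normal := N.isNormal'
    have hopen : IsOpen ((A ⊔ (N : Subgroup K) : Subgroup K) : Set K) :=
      Subgroup.isOpen_mono (le_sup_right : (N : Subgroup K) ≤ A ⊔ (N : Subgroup K)) N.isOpen'
    refine ⟨A ⊔ (N : Subgroup K), hopen, Subgroup.isClosed_of_isOpen _ hopen, le_sup_left, ?_⟩
    intro hgm
    have hmul := Subgroup.mul_normal A (N : Subgroup K)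
    have hgm' : g ∈ (A : Set K) * ((N : Subgroup K) : Set K) := by
      rw [← hmul]; exact hgm
    obtain ⟨a, ha, n, hn, rfl⟩ := Set.mem_mul.1 hgm'
    have := hN (show n⁻¹ ∈ (N : Set K) from (N : Subgroup K).inv_mem hn)
    apply this
    simpa using ha
  have hA' : (A : Set K) = ⋂ B : {B : {B : Subgroup K // IsClosed (B : Set K) ∧ A ≤ B} //
      IsOpen ((B.1 : Subgroup K) : Set K)}, ((B.1.1 : Subgroup K) : Set K) := by
    ext g
    simp only [Set.mem_iInter, SetLike.mem_coe]
    constructor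
    · intro hg B
      exact B.1.2.2 hg
    · intro h
      by_contra hg
      obtain ⟨B, hBo, hBc, hAB, hgB⟩ := key g hg
      exact hgB (h ⟨⟨B, hBc, hAB⟩, hBo⟩)
  rw [hA']
  haveI := hfin
  exact isOpen_iInter_of_finite fun B => B.2

end Pool.LatH472
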