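import Mathlib
import Pool.Agent.Helper472.LatDefs2

set_option autoImplicit false

namespace Pool.LatH472

open Pointwise

theorem FR1_half (H : Type) [Group H] (W Y B B' : Subgroup H) (h1' : W ⊓ Y ≤ B')
    (h2 : B ≤ Y) (h2' : B' ≤ Y)
    (he : {q : H ⧸ W | ∃ b ∈ B, (b : H ⧸ W) = q} = {q : H ⧸ W | ∃ b ∈ B', (b : H ⧸ W) = q}) :
    B ≤ B' := by
  intro b hb
  have hmem : (b : H ⧸ W) ∈ {q : H ⧸ W | ∃ b ∈ B, (b : H ⧸ W) = q} := ⟨b, hb, rfl⟩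
  rw [he] at hmem
  obtain ⟨b', hb', hbb⟩ := hmem
  have h3 : b'⁻¹ * b ∈ W := QuotientGroup.eq.1 hbb
  have h4 : b'⁻¹ * b ∈ Y := Y.mul_mem (Y.inv_mem (h2' hb')) (h2 hb)
  have h5 : b'⁻¹ * b ∈ B' := h1' ⟨h3, h4⟩
  have h6 := B'.mul_mem hb' h5
  rwa [mul_inv_cancel_left] at h6

theorem FR1 : StFR1 := by
  intro H _ _ _ W hW Y
  haveI := hW
  haveI : Finite (H ⧸ W.1) := Subgroup.finite_quotient_of_finiteIndex
  let f : {B : CL H // W.1 ⊓ Y.1 ≤ B.1 ∧ B ≤ Y} → Set (H ⧸ W.1) :=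
    fun B => {q | ∃ b ∈ B.1.1, (b : H ⧸ W.1) = q}
  apply Finite.of_injective f
  intro B B' he
  apply Subtype.ext
  apply Subtype.ext
  apply le_antisymm
  · exact FR1_half H W.1 Y.1 B.1.1 B'.1.1 B'.2.1 B.2.2 B'.2.2 he
  · exact FR1_half H W.1 Y.1 B'.1.1 B.1.1 B.2.1 B'.2.2 B.2.2 he.symm

end Pool.LatH472
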