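import Mathlib
import Pool.Agent.Helper472.LatDefs2

set_option autoImplicit false

namespace Pool.LatH472

open Pointwise

theorem FR2 : StFR2 := by
  intro G H _ _ _ _ _ _ φ W hW Y'
  have hf := hW (φ.symm Y')
  have hcl : IsClosed ((W.1 ⊓ (φ.symm Y').1 : Subgroup G) : Set G) := by
    rw [Subgroup.coe_inf]
    exact W.2.inter (φ.symm Y').2
  have hVW : (⟨W.1 ⊓ (φ.symm Y').1, hcl⟩ : CL G) ≤ W := by
    show W.1 ⊓ (φ.symm Y').1 ≤ W.1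
    exact inf_le_left
  have hVY : (⟨W.1 ⊓ (φ.symm Y').1, hcl⟩ : CL G) ≤ φ.symm Y' := by
    show W.1 ⊓ (φ.symm Y').1 ≤ (φ.symm Y').1
    exact inf_le_right
  have h1 : φ ⟨W.1 ⊓ (φ.symm Y').1, hcl⟩ ≤ φ W := φ.monotone hVW
  have h2 : φ ⟨W.1 ⊓ (φ.symm Y').1, hcl⟩ ≤ Y' := by
    have := φ.monotone hVY
    rwa [OrderIso.apply_symm_apply] at this
  have key : ∀ B : CL H, (φ W).1 ⊓ Y'.1 ≤ B.1 → W.1 ⊓ (φ.symm Y').1 ≤ (φ.symm B).1 := by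
    intro B hB
    have h3 : φ ⟨W.1 ⊓ (φ.symm Y').1, hcl⟩ ≤ B := by
      show (φ ⟨W.1 ⊓ (φ.symm Y').1, hcl⟩).1 ≤ B.1
      exact le_trans (le_inf h1 h2) hB
    have h4 := φ.symm.monotone h3
    rw [OrderIso.symm_apply_apply] at h4
    exact h4
  refine Finite.of_injective (β := {B : CL G // W.1 ⊓ (φ.symm Y').1 ≤ B.1 ∧ B ≤ φ.symm Y'})
    (fun B => ⟨φ.symm B.1, key B.1 B.2.1, φ.symm.monotone B.2.2⟩) ?_
  intro B B' h
  have h5 := congrArg Subtype.val h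
  exact Subtype.ext (φ.symm.injective h5)

end Pool.LatH472
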