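import Mathlib
import Pool.Agent.Helper472.LatDefs

set_option autoImplicit false

namespace Pool.LatH472

open Pointwise

/-- overgroups of an open subgroup -/
def INT_iso {G : Type} [Group G] [TopologicalSpace G] [IsTopologicalGroup G] (R : CL G)
    (hR : IsOpen (R.1 : Set G)) : {X : Subgroup G // R.1 ≤ X} ≃o {X : CL G // R ≤ X} where
  toFun X := ⟨⟨X.1, Subgroup.isClosed_of_isOpen X.1 (Subgroup.isOpen_mono X.2 hR)⟩, X.2⟩
  invFun X := ⟨X.1.1, X.2⟩
  left_inv X := rfl
  right_inv X := rfl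
  map_rel_iff' := Iff.rfl

/-- transport of upper intervals along an order isomorphism -/
def INT_iso2 {P Q : Type} [PartialOrder P] [PartialOrder Q] (φ : P ≃o Q) (R : P) :
    {X : P // R ≤ X} ≃o {Y : Q // φ R ≤ Y} where
  toFun X := ⟨φ X.1, φ.monotone X.2⟩
  invFun Y := ⟨φ.symm Y.1, (φ.le_symm_apply).mpr Y.2⟩
  left_inv X := by
    apply Subtype.ext
    exact φ.symm_apply_apply X.1
  right_inv Y := by
    apply Subtype.ext
    exact φ.apply_symm_apply Y.1
  map_rel_iff' {a b} := φ.le_iff_le (x := a.1) (y := b.1)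

theorem INT : StINT := by
  intro G H _ _ _ _ _ _ φ R _ _ hR hφR
  exact ⟨(QuotientGroup.comapMk'OrderIso R.1).trans ((INT_iso R hR).trans
    ((INT_iso2 φ R).trans ((INT_iso (φ R) hφR).symm.trans
      (QuotientGroup.comapMk'OrderIso (φ R).1).symm)))⟩

end Pool.LatH472
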