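import Mathlib
import Pool.Agent.Helper472.LatDefs

set_option autoImplicit false

namespace Pool.LatH472

open Pointwise

theorem KL1_inf {G : Type} [Group G] [TopologicalSpace G] (α : CL G ≃o CL G) (X Y Z : CL G)
    (h : Z.1 = X.1 ⊓ Y.1) : (α Z).1 = (α X).1 ⊓ (α Y).1 := by
  apply le_antisymm
  · refine le_inf ?_ ?_
    · have : α Z ≤ α X := α.monotone (show Z.1 ≤ X.1 by rw [h]; exact inf_le_left)
      exact this
    · have : α Z ≤ α Y := α.monotone (show Z.1 ≤ Y.1 by rw [h]; exact inf_le_right)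
      exact this
  · have hW : IsClosed (((α X).1 ⊓ (α Y).1 : Subgroup G) : Set G) := by
      rw [Subgroup.coe_inf]
      exact (α X).2.inter (α Y).2
    let W : CL G := ⟨(α X).1 ⊓ (α Y).1, hW⟩
    have h1 : α.symm W ≤ X := by
      have : W ≤ α X := (inf_le_left : (α X).1 ⊓ (α Y).1 ≤ (α X).1)
      rw [OrderIso.symm_apply_le] 
      exact this
    have h2 : α.symm W ≤ Y := by
      have : W ≤ α Y := (inf_le_right : (α X).1 ⊓ (α Y).1 ≤ (α Y).1)
      rw [OrderIso.symm_apply_le]
      exact this
    have h3 : α.symm W ≤ Z := by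
      show (α.symm W).1 ≤ Z.1
      rw [h]
      exact le_inf h1 h2
    have h4 : W ≤ α Z := by
      rw [← OrderIso.symm_apply_le]
      exact h3
    exact h4

theorem KL1_betw {G : Type} [Group G] (N : Subgroup G) [N.Normal] (hp : N.index.Prime)
    (X B : Subgroup G) (h1 : X ⊓ N ≤ B) (h2 : B ≤ X) : B = X ⊓ N ∨ B = X := by
  have e1 : (X ⊓ N).relIndex B * B.relIndex X = (X ⊓ N).relIndex X :=
    Subgroup.relIndex_mul_relIndex _ _ _ h1 h2
  have e2 : (X ⊓ N).relIndex X = N.relIndex X := by
    rw [inf_comm, Subgroup.inf_relIndex_right]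
  have e3 : N.relIndex X ∣ N.index := Subgroup.relIndex_dvd_index_of_normal N X
  rw [e2] at e1
  rcases (Nat.dvd_prime hp).1 e3 with h | h
  · rw [h] at e1
    right
    have h5 : B.relIndex X = 1 := Nat.eq_one_of_mul_eq_one_left e1
    exact le_antisymm h2 (Subgroup.relIndex_eq_one.1 h5)
  · rw [h] at e1
    have h6 : ((X ⊓ N).relIndex B * B.relIndex X).Prime := by rw [e1]; exact hp
    rcases Nat.prime_mul_iff.1 h6 with h7 | h7
    · right
      exact le_antisymm h2 (Subgroup.relIndex_eq_one.1 h7.2)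
    · left
      exact le_antisymm (Subgroup.relIndex_eq_one.1 h7.2) h1

theorem KL1_fin (hSCH : StSCH) {G Γ : Type} [Group G] [Group Γ] [Finite Γ] (M : Subgroup G)
    (π : G →* Γ) (hπ : Function.Surjective π) (hker : π.ker = M.normalCore) (hMtop : M ≠ ⊤)
    (hcl : ∀ B : Subgroup G, M ≤ B → B = M ∨ B = ⊤)
    (hP : ∀ A B : Subgroup Γ, A.comap π ⊓ M ≤ B.comap π → B.comap π ≤ A.comap π →
      B.comap π = A.comap π ⊓ M ∨ B.comap π = A.comap π) : CM M := by
  set M' : Subgroup Γ := M.map π with hM'
  have hcm : M'.comap π = M :=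
    Subgroup.comap_map_eq_self (by rw [hker]; exact Subgroup.normalCore_le M)
  have hPM : PM M' := by
    refine ⟨⟨fun h => ?_, fun B hB => ?_⟩, fun A B h1 h2 => ?_⟩
    · rw [h, Subgroup.comap_top] at hcm
      exact hMtop hcm.symm
    · have h1 : M ≤ B.comap π := by
        have h0 : M'.comap π ≤ B.comap π := Subgroup.comap_mono hB.le
        rwa [hcm] at h0
      rcases hcl _ h1 with h | h
      · exfalso
        have h3 : B.comap π = M'.comap π := by rw [h, hcm]
        exact hB.ne' (Subgroup.comap_injective hπ h3)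
      · have h3 : B.comap π = (⊤ : Subgroup Γ).comap π := by rw [h, Subgroup.comap_top]
        exact Subgroup.comap_injective hπ h3
    · have h0 : (A ⊓ M').comap π = A.comap π ⊓ M := by rw [Subgroup.comap_inf, hcm]
      have h3 := hP A B (by rw [← h0]; exact Subgroup.comap_mono h1) (Subgroup.comap_mono h2)
      rcases h3 with h4 | h4
      · left
        rw [← h0] at h4
        exact Subgroup.comap_injective hπ h4
      · right
        exact Subgroup.comap_injective hπ h4
  rcases hSCH Γ M' hPM with h | ⟨p, q, hp, hq, hpq⟩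
  · left
    have := h.comap π
    rwa [hcm] at this
  · right
    refine ⟨p, q, hp, hq, ?_⟩
    have hbot : M'.normalCore = ⊥ := by
      rw [eq_bot_iff]
      intro x hx
      obtain ⟨g, rfl⟩ := hπ x
      have h0 : (M'.normalCore).comap π ≤ M := by
        have : (M'.normalCore).comap π ≤ M'.comap π := Subgroup.comap_mono (Subgroup.normalCore_le M')
        rwa [hcm] at this
      have h1 : (M'.normalCore).comap π ≤ M.normalCore := (Subgroup.normal_le_normalCore).2 h0
      have h2 : g ∈ M.normalCore := h1 hx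
      rw [← hker] at h2
      exact h2
    have h5 : M'.normalCore.index = p * q := hpq
    rw [hbot, Subgroup.index_bot] at h5
    have h6 : M.normalCore.index = p * q := by
      rw [← hker, Subgroup.index_ker, MonoidHom.range_eq_top.2 hπ, ← h5]
      exact Subgroup.card_top
    exact h6

theorem KL1 (hFI : StFI) (hSCH : StSCH) : StKL1 := by
  intro G _ _ _ _ _ _ α N _ hNo hNp
  have hNi : N.1.index.Prime := hNp
  have hNtop : N.1 ≠ ⊤ := by
    intro h
    rw [h, Subgroup.index_top] at hNi
    exact Nat.not_prime_one hNi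
  set M : CL G := α N with hM
  let T : CL G := ⟨⊤, isClosed_univ⟩
  have hT : ∀ Y : CL G, Y ≤ T := fun Y => (le_top : Y.1 ≤ ⊤)
  have hαT : α T = T := le_antisymm (hT _) (by
    rw [← OrderIso.symm_apply_le]; exact hT _)
  -- property (P)
  have hP : ∀ X B : CL G, X.1 ⊓ M.1 ≤ B.1 → B.1 ≤ X.1 → B.1 = X.1 ⊓ M.1 ∨ B.1 = X.1 := by
    intro X B h1 h2
    have hZ : IsClosed (((α.symm X).1 ⊓ N.1 : Subgroup G) : Set G) := by
      rw [Subgroup.coe_inf]
      exact (α.symm X).2.inter N.2
    let Z : CL G := ⟨(α.symm X).1 ⊓ N.1, hZ⟩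
    have hαZ : (α Z).1 = X.1 ⊓ M.1 := by
      have := KL1_inf α (α.symm X) N Z rfl
      rw [α.apply_symm_apply] at this
      exact this
    have h3 : Z ≤ α.symm B := by
      rw [OrderIso.le_symm_apply]
      show (α Z).1 ≤ B.1
      rw [hαZ]
      exact h1
    have h4 : α.symm B ≤ α.symm X := α.symm.monotone h2
    rcases KL1_betw N.1 hNi (α.symm X).1 (α.symm B).1 h3 h4 with h5 | h5
    · left
      have h6 : α.symm B = Z := Subtype.ext h5
      have h7 : B = α Z := by rw [← h6, α.apply_symm_apply]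
      rw [h7, hαZ]
    · right
      have h6 : α.symm B = α.symm X := Subtype.ext h5
      rw [α.symm.injective h6]
  -- closed overgroups of M
  have hover : ∀ X : CL G, M.1 ≤ X.1 → X.1 = M.1 ∨ X.1 = ⊤ := by
    intro X h1
    have h2 : N ≤ α.symm X := by
      rw [OrderIso.le_symm_apply]
      exact h1
    have h3 := KL1_betw N.1 hNi ⊤ (α.symm X).1 (by rw [top_inf_eq]; exact h2) le_top
    rw [top_inf_eq] at h3
    rcases h3 with h3 | h3
    · left
      have h4 : α.symm X = N := Subtype.ext h3
      rw [hM, ← h4, α.apply_symm_apply]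
    · right
      have h4 : α.symm X = T := Subtype.ext h3
      have h5 : X = T := by rw [← hαT, ← h4, α.apply_symm_apply]
      rw [h5]
  have hMtop : M.1 ≠ ⊤ := by
    intro h
    have h1 : M = T := Subtype.ext h
    have h2 : α N = α T := by rw [hαT]; exact h1
    have h3 : N = T := α.injective h2
    exact hNtop (by rw [h3])
  have hMo : IsOpen (M.1 : Set G) := by
    refine hFI G M.1 M.2 ?_
    have hfin : ({M.1, ⊤} : Set (Subgroup G)).Finite := Set.toFinite _
    have hsub : {B : Subgroup G | IsClosed (B : Set G) ∧ M.1 ≤ B} ⊆ ({M.1, ⊤} : Set (Subgroup G)) := by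
      rintro B ⟨hB1, hB2⟩
      rcases hover ⟨B, hB1⟩ hB2 with h | h
      · left; exact h
      · right; exact h
    exact (hfin.subset hsub).to_subtype
  have hcl : ∀ B : Subgroup G, M.1 ≤ B → B = M.1 ∨ B = ⊤ := by
    intro B hB
    have hBo : IsOpen (B : Set G) := Subgroup.isOpen_mono hB hMo
    exact hover ⟨B, Subgroup.isClosed_of_isOpen B hBo⟩ hB
  have hMc : IsCoatom M.1 := by
    refine ⟨hMtop, fun B hB => ?_⟩
    rcases hcl B hB.le with h | h
    · exact absurd h hB.ne'
    · exact h
  refine ⟨hMo, hMc, ?_⟩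
  haveI : Finite (G ⧸ M.1) := Subgroup.quotient_finite_of_isOpen M.1 hMo
  haveI : M.1.FiniteIndex := Subgroup.finiteIndex_of_finite_quotient
  set C : Subgroup G := M.1.normalCore with hC
  haveI : C.FiniteIndex := by rw [hC]; infer_instance
  have hCcl : IsClosed (C : Set G) := Subgroup.normalCore_isClosed M.1 M.2
  have hCo : IsOpen (C : Set G) := Subgroup.isOpen_of_isClosed_of_finiteIndex C hCcl
  haveI : Finite (G ⧸ C) := Subgroup.finite_quotient_of_finiteIndex
  have hopen : ∀ A : Subgroup (G ⧸ C),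
      IsClosed ((A.comap (QuotientGroup.mk' C) : Subgroup G) : Set G) := by
    intro A
    refine Subgroup.isClosed_of_isOpen _ (Subgroup.isOpen_mono (H₁ := C) ?_ hCo)
    have h1 := Subgroup.ker_le_comap (QuotientGroup.mk' C) A
    intro g hg
    exact h1 ((QuotientGroup.ker_mk' C).ge hg)
  exact KL1_fin hSCH M.1 (QuotientGroup.mk' C) (QuotientGroup.mk'_surjective C)
    (QuotientGroup.ker_mk' C) hMtop hcl (fun A B h1 h2 =>
      hP ⟨A.comap (QuotientGroup.mk' C), hopen A⟩ ⟨B.comap (QuotientGroup.mk' C), hopen B⟩ h1 h2)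

end Pool.LatH472
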