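import Mathlib
import Pool.Agent.Helper472.LatDefs2

set_option autoImplicit false

namespace Pool.LatH472

open Pointwise

theorem OPNx (hT0 : StT0) (hFI : StFI) (hFR1 : StFR1) (hFR2 : StFR2) : StOPN := by
  intro G H _ _ _ _ _ _ _ _ _ _ _ _ φ W hW
  obtain ⟨U, hUo, hUc⟩ := hT0 H
  have hUcl : IsClosed (U : Set H) := Subgroup.isClosed_of_isOpen U hUo
  have hfi : W.1.FiniteIndex := by
    haveI : Finite (G ⧸ W.1) := Subgroup.quotient_finite_of_isOpen W.1 hW
    exact Subgroup.finiteIndex_of_finite_quotient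
  have hFR : FR (φ W) := hFR2 G H φ W (hFR1 G W hfi)
  have hfin := hFR ⟨U, hUcl⟩
  haveI : CompactSpace ↥U := isCompact_iff_compactSpace.mp hUc
  have hAcl : IsClosed (((φ W).1.subgroupOf U : Subgroup ↥U) : Set ↥U) :=
    (φ W).2.preimage continuous_subtype_val
  have hop : IsOpen (((φ W).1.subgroupOf U : Subgroup ↥U) : Set ↥U) := by
    refine hFI ↥U _ hAcl ?_
    refine Finite.of_injective (β := {B : CL H // (φ W).1 ⊓ U ≤ B.1 ∧ B ≤ ⟨U, hUcl⟩})
      (fun B => ⟨⟨B.1.map U.subtype, ?_⟩, ?_, ?_⟩) ?_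
    · rw [Subgroup.coe_map]
      exact (hUcl.isClosedEmbedding_subtypeVal.isClosedMap) _ B.2.1
    · intro x hx
      exact ⟨⟨x, hx.2⟩, B.2.2 (show (⟨x, hx.2⟩ : ↥U) ∈ (φ W).1.subgroupOf U from hx.1), rfl⟩
    · intro x hx
      obtain ⟨y, _, rfl⟩ := hx
      exact y.2
    · intro B B' hBB
      have h1 : B.1.map U.subtype = B'.1.map U.subtype := by
        simpa using hBB
      exact Subtype.ext (Subgroup.map_injective U.subtype_injective h1)
  have h2 : IsOpen (((φ W).1.subgroupOf U).map U.subtype : Set H) := by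
    rw [Subgroup.coe_map]
    exact hUo.isOpenEmbedding_subtypeVal.isOpenMap _ hop
  refine Subgroup.isOpen_mono (H₁ := ((φ W).1.subgroupOf U).map U.subtype) ?_ h2
  intro x hx
  obtain ⟨y, hy, rfl⟩ := hx
  exact hy

end Pool.LatH472
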