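import Mathlib
import Pool.Agent.Helper472.LatDefs

set_option autoImplicit false

namespace Pool.LatH472

open Pointwise

theorem ORE_mem {Q : Type} [Group Q] [Finite Q] [IsCyclic Q] (A : Subgroup Q) (y : Q) :
    y ∈ A ↔ y ^ (Nat.card A) = 1 := by
  classical
  constructor
  · intro hy
    have h : (⟨y, hy⟩ : A) ^ (Nat.card A) = 1 := pow_card_eq_one'
    have := congrArg Subtype.val h
    exact this
  · intro hy
    have := Fintype.ofFinite Q
    have hn : 0 < Nat.card A := Nat.card_pos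
    have h1 := IsCyclic.card_pow_eq_one_le (α := Q) hn
    have hSA : (Finset.univ.filter (fun a : Q => a ∈ A)).card = Nat.card A := by
      rw [Nat.card_eq_fintype_card]
      exact (Fintype.card_subtype _).symm
    have hsub : Finset.univ.filter (fun a : Q => a ∈ A)
        ⊆ Finset.univ.filter (fun a : Q => a ^ (Nat.card A) = 1) := by
      intro a ha
      rw [Finset.mem_filter] at ha ⊢
      refine ⟨Finset.mem_univ _, ?_⟩
      have h : (⟨a, ha.2⟩ : A) ^ (Nat.card A) = 1 := pow_card_eq_one'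
      have := congrArg Subtype.val h
      exact this
    have heq := Finset.eq_of_subset_of_card_le hsub (by rw [hSA]; exact h1)
    have hmem : y ∈ Finset.univ.filter (fun a : Q => a ^ (Nat.card A) = 1) := by
      rw [Finset.mem_filter]
      exact ⟨Finset.mem_univ _, hy⟩
    rw [← heq, Finset.mem_filter] at hmem
    exact hmem.2

theorem ORE_comm {Q : Type} [Group Q] [IsCyclic Q] (a b : Q) : a * b = b * a := by
  obtain ⟨g, hg⟩ := IsCyclic.exists_generator (α := Q)
  obtain ⟨m, rfl⟩ := Subgroup.mem_zpowers_iff.mp (hg a)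
  obtain ⟨n, rfl⟩ := Subgroup.mem_zpowers_iff.mp (hg b)
  rw [← zpow_add, ← zpow_add, add_comm]

theorem ORE_distrib {Q : Type} [Group Q] [Finite Q] [IsCyclic Q] (A B C : Subgroup Q) :
    A ⊓ (B ⊔ C) ≤ (A ⊓ B) ⊔ (A ⊓ C) := by
  intro x hx
  obtain ⟨hxA, hxBC⟩ := Subgroup.mem_inf.mp hx
  have hgpos : 0 < Nat.gcd (Nat.card B) (Nat.card C) := Nat.gcd_pos_of_pos_left _ Nat.card_pos
  obtain ⟨g, b, c, hg0, hcop, hβ, hγ⟩ := Nat.exists_coprime' hgpos
  have hL : x ^ (b * c * g) = 1 := by
    rw [Subgroup.sup_eq_closure] at hxBC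
    refine Subgroup.closure_induction (p := fun y _ => y ^ (b * c * g) = 1) ?_ ?_ ?_ ?_ hxBC
    · rintro y (hy | hy)
      · have h := (ORE_mem B y).mp hy
        rw [hβ] at h
        rw [show b * c * g = (b * g) * c by ring, pow_mul, h, one_pow]
      · have h := (ORE_mem C y).mp hy
        rw [hγ] at h
        rw [show b * c * g = (c * g) * b by ring, pow_mul, h, one_pow]
    · exact one_pow _
    · intro y z _ _ hy hz
      have hc : Commute y z := ORE_comm y z
      rw [hc.mul_pow, hy, hz, one_mul]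
    · intro y _ hy
      rw [inv_pow, hy, inv_one]
  have hB : x ^ c ∈ A ⊓ B := by
    rw [Subgroup.mem_inf]
    refine ⟨A.pow_mem hxA c, ?_⟩
    rw [ORE_mem B, hβ, ← pow_mul, show c * (b * g) = b * c * g by ring]
    exact hL
  have hC : x ^ b ∈ A ⊓ C := by
    rw [Subgroup.mem_inf]
    refine ⟨A.pow_mem hxA b, ?_⟩
    rw [ORE_mem C, hγ, ← pow_mul, show b * (c * g) = b * c * g by ring]
    exact hL
  obtain ⟨s, t, hst⟩ := (Nat.isCoprime_iff_coprime.mpr hcop)
  have hx1 : x = (x ^ b) ^ s * (x ^ c) ^ t := by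
    rw [← zpow_natCast, ← zpow_natCast, ← zpow_mul, ← zpow_mul, ← zpow_add,
      show (b : ℤ) * s + (c : ℤ) * t = s * b + t * c by ring, hst, zpow_one]
  rw [hx1]
  exact Subgroup.mul_mem _
    ((le_sup_right : A ⊓ C ≤ (A ⊓ B) ⊔ (A ⊓ C)) (Subgroup.zpow_mem _ hC s))
    ((le_sup_left : A ⊓ B ≤ (A ⊓ B) ⊔ (A ⊓ C)) (Subgroup.zpow_mem _ hB t))

theorem ORE : StORE := by
  intro Γ Q _ _ _ _ _ e a b
  set P := Subgroup.zpowers (a * b) with hP
  set A := Subgroup.zpowers a with hA
  set B := Subgroup.zpowers b with hB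
  have ha : a ∈ A := Subgroup.mem_zpowers a
  have hb : b ∈ B := Subgroup.mem_zpowers b
  have hab : a * b ∈ P := Subgroup.mem_zpowers (a * b)
  have hPAB : P ≤ A ⊔ B := by
    rw [hP, Subgroup.zpowers_le]
    exact Subgroup.mul_mem _ ((le_sup_left : A ≤ A ⊔ B) ha) ((le_sup_right : B ≤ A ⊔ B) hb)
  have hP2 : P ≤ (P ⊓ A) ⊔ (P ⊓ B) := by
    rw [← e.le_iff_le, map_sup, map_inf, map_inf]
    refine le_trans ?_ (ORE_distrib (e P) (e A) (e B))
    refine le_inf le_rfl ?_
    rw [← map_sup]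
    exact e.monotone hPAB
  have h1 : P ⊓ A ≤ Subgroup.centralizer {a} := by
    intro x hx
    obtain ⟨_, hxA⟩ := Subgroup.mem_inf.mp hx
    rw [Subgroup.mem_centralizer_singleton_iff]
    obtain ⟨n, rfl⟩ := Subgroup.mem_zpowers_iff.mp hxA
    exact (Commute.refl a).zpow_left n
  have h2 : P ⊓ B ≤ Subgroup.centralizer {a} := by
    intro x hx
    obtain ⟨hxP, hxB⟩ := Subgroup.mem_inf.mp hx
    rw [Subgroup.mem_centralizer_singleton_iff]
    have c1 : Commute x b := by
      obtain ⟨n, rfl⟩ := Subgroup.mem_zpowers_iff.mp hxB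
      exact (Commute.refl b).zpow_left n
    have c2 : Commute x (a * b) := by
      obtain ⟨n, rfl⟩ := Subgroup.mem_zpowers_iff.mp hxP
      exact (Commute.refl (a * b)).zpow_left n
    have c3 : Commute x ((a * b) * b⁻¹) := c2.mul_right c1.inv_right
    rw [mul_inv_cancel_right] at c3
    exact c3
  have h3 : a * b ∈ Subgroup.centralizer {a} := (sup_le h1 h2) (hP2 hab)
  rw [Subgroup.mem_centralizer_singleton_iff] at h3
  -- h3 : a * b * a = a * (a * b)
  have h4 : a * (b * a) = a * (a * b) := by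
    rw [← mul_assoc]
    exact h3
  exact (mul_left_cancel h4).symm

end Pool.LatH472
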