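import Mathlib
import Pool.Agent.Helper472.LatDefs

set_option autoImplicit false

namespace Pool.LatH472

open Pointwise

theorem PQ1_mod {G : Type} [Group G] (S C E E' : Subgroup G) [S.Normal]
    (hE' : S ⊓ C ≤ E') (hEC : E ≤ C) (hE'C : E' ≤ C)
    (h : E.map (QuotientGroup.mk' S) ≤ E'.map (QuotientGroup.mk' S)) : E ≤ E' := by
  intro x hx
  have h1 : QuotientGroup.mk' S x ∈ E'.map (QuotientGroup.mk' S) :=
    h (Subgroup.mem_map_of_mem _ hx)
  obtain ⟨y, hy, hxy⟩ := Subgroup.mem_map.1 h1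
  have h2 : y⁻¹ * x ∈ S := (QuotientGroup.eq).1 hxy
  have h3 : y⁻¹ * x ∈ C := C.mul_mem (C.inv_mem (hE'C hy)) (hEC hx)
  have h4 : y⁻¹ * x ∈ E' := hE' ⟨h2, h3⟩
  have h5 := E'.mul_mem hy h4
  rwa [mul_inv_cancel_left] at h5

theorem PQ1_E {X : Type} [Group X] (hc : ∀ x y : X, x * y = y * x) (R B1 B2 B3 : Subgroup X)
    (hR : R.index ≠ 0) (h : X) (hgen : Subgroup.zpowers h ⊔ R = ⊤)
    (h12 : B1 ⊓ B2 = R) (h13 : B1 ⊓ B3 = R) (h23 : B2 ⊓ B3 = R)
    (s12 : B1 ⊔ B2 = ⊤) (s13 : B1 ⊔ B3 = ⊤) : B2 = R := by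
  have hn : ∀ B : Subgroup X, B.Normal := fun B =>
    ⟨fun n hn g => by rw [hc g n, mul_assoc, mul_inv_cancel, mul_one]; exact hn⟩
  have := hn R
  have := hn B1
  have := hn B2
  have := hn B3
  have e2 : B2.index = R.relIndex B1 := by
    rw [← h12, Subgroup.inf_relIndex_left, ← Subgroup.relIndex_top_right, ← s12,
      Subgroup.relIndex_sup_right]
  have e3 : B3.index = R.relIndex B1 := by
    rw [← h13, Subgroup.inf_relIndex_left, ← Subgroup.relIndex_top_right, ← s13,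
      Subgroup.relIndex_sup_right]
  have p2 : h ^ B2.index ∈ B2 := Subgroup.pow_index_mem B2 h
  have p3 : h ^ B2.index ∈ B3 := by
    rw [e2, ← e3]; exact Subgroup.pow_index_mem B3 h
  have pR : h ^ B2.index ∈ R := by
    rw [← h23]; exact ⟨p2, p3⟩
  have hgen' : ∀ x : X ⧸ R, x ∈ Subgroup.zpowers (QuotientGroup.mk' R h) := by
    intro x
    obtain ⟨y, rfl⟩ := QuotientGroup.mk'_surjective R x
    have hy : y ∈ Subgroup.zpowers h ⊔ R := by rw [hgen]; trivial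
    obtain ⟨a, ha, b, hb, rfl⟩ := Subgroup.mem_sup_of_normal_right.1 hy
    obtain ⟨k, rfl⟩ := Subgroup.mem_zpowers_iff.1 ha
    have hb1 : QuotientGroup.mk' R b = 1 := (QuotientGroup.eq_one_iff b).2 hb
    rw [map_mul, map_zpow, hb1, mul_one]
    exact Subgroup.zpow_mem_zpowers _ _
  have hd : R.index ∣ B2.index := by
    have h1 : R.index = Nat.card (X ⧸ R) := rfl
    rw [h1, ← orderOf_eq_card_of_forall_mem_zpowers hgen', orderOf_dvd_iff_pow_eq_one, ← map_pow]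
    exact (QuotientGroup.eq_one_iff _).2 pR
  have hle : R ≤ B2 := by rw [← h12]; exact inf_le_right
  have hd' := Subgroup.index_dvd_of_le hle
  have he : R.index = B2.index := Nat.dvd_antisymm hd hd'
  have hm := Subgroup.relIndex_mul_index hle
  apply le_antisymm _ hle
  rw [← Subgroup.relIndex_eq_one]
  rw [he] at hm hR
  exact Nat.eq_of_mul_eq_mul_right (Nat.pos_of_ne_zero hR) (by rw [hm, one_mul])

theorem PQ1_three {Γ : Type} [Group Γ] (p q : ℕ) (hp : p.Prime) (hq : q.Prime)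
    (hcard : Nat.card Γ = p * q) (hnc : ¬ IsCyclic Γ) :
    ∃ A1 A2 A3 : Subgroup Γ, A2 ≠ ⊥ ∧ A1 ⊓ A2 = ⊥ ∧ A1 ⊓ A3 = ⊥ ∧ A2 ⊓ A3 = ⊥ ∧
      A1 ⊔ A2 = ⊤ ∧ A1 ⊔ A3 = ⊤ := by
  have hfin : Finite Γ := Nat.finite_of_card_ne_zero (by
    rw [hcard]; exact (Nat.mul_pos hp.pos hq.pos).ne')
  have key : ∀ A B : Subgroup Γ, A ≠ ⊤ → B ≤ A → B = ⊥ ∨ B = A := by
    intro A B hA hBA
    have h1 : Nat.card A ∣ p * q := hcard ▸ Subgroup.card_subgroup_dvd_card A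
    have h2 : Nat.card B ∣ Nat.card A := Subgroup.card_dvd_of_le hBA
    have h3 : Nat.card A ≠ p * q := fun h => hA (Subgroup.eq_top_of_card_eq A (h.trans hcard.symm))
    have h4 : Nat.card A = 1 ∨ (Nat.card A).Prime := by
      obtain ⟨y, z, hy, hz, hyz⟩ := (Nat.dvd_mul).1 h1
      rcases (Nat.dvd_prime hp).1 hy with rfl | rfl
      · rcases (Nat.dvd_prime hq).1 hz with rfl | rfl
        · left; rw [← hyz]
        · right; rw [← hyz, one_mul]; exact hq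
      · rcases (Nat.dvd_prime hq).1 hz with rfl | rfl
        · right; rw [← hyz, mul_one]; exact hp
        · exact absurd hyz.symm h3
    rcases h4 with h4 | h4
    · left
      rw [h4] at h2
      exact Subgroup.card_eq_one.1 (Nat.dvd_one.1 h2)
    · rcases (Nat.dvd_prime h4).1 h2 with h5 | h5
      · left; exact Subgroup.card_eq_one.1 h5
      · right; exact Subgroup.eq_of_le_of_card_ge hBA h5.ge
  have pair : ∀ A B : Subgroup Γ, A ≠ ⊤ → B ≠ ⊤ → A ≠ ⊥ → B ≠ ⊥ → A ≠ B →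
      A ⊓ B = ⊥ ∧ A ⊔ B = ⊤ := by
    intro A B hA hB hA0 hB0 hne
    constructor
    · rcases key A (A ⊓ B) hA inf_le_left with h | h
      · exact h
      · exfalso
        have h' : A ≤ B := inf_eq_left.1 h
        rcases key B A hB h' with h | h
        · exact hA0 h
        · exact hne h
    · by_contra hs
      rcases key (A ⊔ B) A hs le_sup_left with h | h
      · exact hA0 h
      · rcases key (A ⊔ B) B hs le_sup_right with h' | h'
        · exact hB0 h'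
        · exact hne (h.trans h'.symm)
  have cyc : ∀ γ : Γ, Subgroup.zpowers γ ≠ ⊤ := fun γ h =>
    hnc (isCyclic_iff_exists_zpowers_eq_top.2 ⟨γ, h⟩)
  have nb : ∀ γ : Γ, γ ≠ 1 → Subgroup.zpowers γ ≠ ⊥ := fun γ hγ h =>
    hγ (Subgroup.zpowers_eq_bot.1 h)
  have ex : ∀ A : Subgroup Γ, A ≠ ⊤ → ∃ x, x ∉ A := by
    intro A hA
    by_contra h
    push Not at h
    exact hA ((Subgroup.eq_top_iff' A).2 h)
  obtain ⟨g1, hg1⟩ := ex _ (cyc 1)
  have hg1' : g1 ≠ 1 := fun h => hg1 (by rw [h]; exact Subgroup.one_mem _)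
  obtain ⟨g2, hg2⟩ := ex _ (cyc g1)
  have hg2' : g2 ≠ 1 := fun h => hg2 (by rw [h]; exact Subgroup.one_mem _)
  have hg12 : g1 ∉ Subgroup.zpowers g2 := by
    intro h
    have h1 : Subgroup.zpowers g1 ≤ Subgroup.zpowers g2 := by
      rw [Subgroup.zpowers_le]; exact h
    rcases key _ _ (cyc g2) h1 with h2 | h2
    · exact nb g1 hg1' h2
    · exact hg2 (by rw [h2]; exact Subgroup.mem_zpowers g2)
  have h31 : g1 * g2 ∉ Subgroup.zpowers g1 := by
    intro h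
    exact hg2 (((Subgroup.zpowers g1).mul_mem_cancel_left (Subgroup.mem_zpowers g1)).1 h)
  have h32 : g1 * g2 ∉ Subgroup.zpowers g2 := by
    intro h
    exact hg12 (((Subgroup.zpowers g2).mul_mem_cancel_right (Subgroup.mem_zpowers g2)).1 h)
  have hg3' : g1 * g2 ≠ 1 := fun h => h31 (by rw [h]; exact Subgroup.one_mem _)
  have p12 := pair (Subgroup.zpowers g1) (Subgroup.zpowers g2) (cyc _) (cyc _) (nb _ hg1')
    (nb _ hg2') (fun h => hg2 (by rw [h]; exact Subgroup.mem_zpowers g2))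
  have p13 := pair (Subgroup.zpowers g1) (Subgroup.zpowers (g1 * g2)) (cyc _) (cyc _) (nb _ hg1')
    (nb _ hg3') (fun h => h31 (by rw [h]; exact Subgroup.mem_zpowers _))
  have p23 := pair (Subgroup.zpowers g2) (Subgroup.zpowers (g1 * g2)) (cyc _) (cyc _) (nb _ hg2')
    (nb _ hg3') (fun h => h32 (by rw [h]; exact Subgroup.mem_zpowers _))
  exact ⟨_, _, _, nb _ hg2', p12.1, p13.1, p23.1, p12.2, p13.2⟩

theorem PQ1_main (hFI : StFI) (G H : Type) [Group G] [TopologicalSpace G] [IsTopologicalGroup G]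
    [CompactSpace G] [T2Space G] [TotallyDisconnectedSpace G]
    [Group H] [TopologicalSpace H] [IsTopologicalGroup H]
    [LocallyCompactSpace H] [T2Space H] [TotallyDisconnectedSpace H] (φ : CL G ≃o CL H)
    (S : CL G) [S.1.Normal] (hSo : IsOpen (S.1 : Set G)) (p q : ℕ) (hp : p.Prime) (hq : q.Prime)
    (hcard : Nat.card (G ⧸ S.1) = p * q) (hnc : ¬ IsCyclic (G ⧸ S.1)) (h : H) (Z : CL H)
    (hZc : IsCompact (Z.1 : Set H)) (hcomm : ∀ x ∈ Z.1, ∀ y ∈ Z.1, x * y = y * x)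
    (hhZ : h ∈ Z.1) (hmin : ∀ K : Subgroup H, IsClosed (K : Set H) → h ∈ K → Z.1 ≤ K)
    (C : CL G) (hC : φ C = Z) (hCS : C.1 ⊔ S.1 = ⊤) : False := by
  obtain ⟨A1, A2, A3, hA2, i12, i13, i23, s12, s13⟩ := PQ1_three p q hp hq hcard hnc
  have hfinG : Finite (G ⧸ S.1) := Nat.finite_of_card_ne_zero (by
    rw [hcard]; exact (Nat.mul_pos hp.pos hq.pos).ne')
  have hcl : ∀ A : Subgroup (G ⧸ S.1), IsClosed
      ((A.comap (QuotientGroup.mk' S.1) ⊓ C.1 : Subgroup G) : Set G) := by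
    intro A
    have h1 : IsOpen ((A.comap (QuotientGroup.mk' S.1) : Subgroup G) : Set G) :=
      Subgroup.isOpen_mono (QuotientGroup.le_comap_mk' S.1 A) hSo
    have h2 := Subgroup.isClosed_of_isOpen _ h1
    rw [Subgroup.coe_inf]
    exact h2.inter C.2
  obtain ⟨E, hE⟩ : ∃ E : Subgroup (G ⧸ S.1) → CL G,
      ∀ A, (E A).1 = A.comap (QuotientGroup.mk' S.1) ⊓ C.1 := ⟨fun A => ⟨_, hcl A⟩, fun A => rfl⟩
  have hEC : ∀ A, E A ≤ C := by
    intro A
    show (E A).1 ≤ C.1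
    rw [hE]; exact inf_le_right
  have hEmono : ∀ A B, A ≤ B → E A ≤ E B := by
    intro A B hAB
    show (E A).1 ≤ (E B).1
    rw [hE, hE]
    exact inf_le_inf_right _ (Subgroup.comap_mono hAB)
  have hEbot : (E ⊥).1 = S.1 ⊓ C.1 := by
    rw [hE, MonoidHom.comap_bot, QuotientGroup.ker_mk']
  have hEmap : ∀ A, (E A).1.map (QuotientGroup.mk' S.1) = A := by
    intro A
    apply le_antisymm
    · rw [hE]
      refine (Subgroup.map_mono inf_le_left).trans ?_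
      exact Subgroup.map_comap_le _ _
    · intro x hx
      obtain ⟨g, rfl⟩ := QuotientGroup.mk'_surjective S.1 x
      have hg : g ∈ C.1 ⊔ S.1 := by rw [hCS]; trivial
      obtain ⟨a, ha, b, hb, rfl⟩ := Subgroup.mem_sup_of_normal_right.1 hg
      have hb1 : QuotientGroup.mk' S.1 b = 1 := (QuotientGroup.eq_one_iff b).2 hb
      rw [map_mul, hb1, mul_one] at hx ⊢
      apply Subgroup.mem_map_of_mem
      rw [hE]
      exact ⟨hx, ha⟩
  -- joins
  have hjoin : ∀ A B : Subgroup (G ⧸ S.1), A ⊔ B = ⊤ → ∀ X : CL G, E A ≤ X → E B ≤ X → X ≤ C →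
      C ≤ X := by
    intro A B hAB X hAX hBX hXC
    show C.1 ≤ X.1
    apply PQ1_mod S.1 C.1 C.1 X.1 _ le_rfl hXC
    · have h1 : A ≤ X.1.map (QuotientGroup.mk' S.1) := by
        rw [← hEmap A]; exact Subgroup.map_mono hAX
      have h2 : B ≤ X.1.map (QuotientGroup.mk' S.1) := by
        rw [← hEmap B]; exact Subgroup.map_mono hBX
      have h3 : (⊤ : Subgroup (G ⧸ S.1)) ≤ X.1.map (QuotientGroup.mk' S.1) := by
        rw [← hAB]; exact sup_le h1 h2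
      exact le_top.trans h3
    · rw [← hEbot]
      exact (hEmono ⊥ A bot_le).trans hAX
  -- the H side
  obtain ⟨F, hF⟩ : ∃ F : Subgroup (G ⧸ S.1) → CL H, ∀ A, F A = φ (E A) := ⟨_, fun _ => rfl⟩
  have hFZ : ∀ A, F A ≤ Z := by
    intro A
    rw [hF, ← hC]; exact φ.monotone (hEC A)
  have hFmono : ∀ A B, A ≤ B → F A ≤ F B := by
    intro A B hAB
    rw [hF, hF]; exact φ.monotone (hEmono A B hAB)
  have hFinf : ∀ A B, A ⊓ B = ⊥ → (F A).1 ⊓ (F B).1 ≤ (F ⊥).1 := by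
    intro A B hAB
    have hW : IsClosed (((F A).1 ⊓ (F B).1 : Subgroup H) : Set H) := by
      rw [Subgroup.coe_inf]; exact (F A).2.inter (F B).2
    have h1 : (⟨(F A).1 ⊓ (F B).1, hW⟩ : CL H) ≤ φ (E A) := by
      rw [← hF]; exact (inf_le_left : (F A).1 ⊓ (F B).1 ≤ (F A).1)
    have h2 : (⟨(F A).1 ⊓ (F B).1, hW⟩ : CL H) ≤ φ (E B) := by
      rw [← hF]; exact (inf_le_right : (F A).1 ⊓ (F B).1 ≤ (F B).1)
    rw [← OrderIso.symm_apply_le] at h1 h2
    have h3 : φ.symm (⟨(F A).1 ⊓ (F B).1, hW⟩ : CL H) ≤ E ⊥ := by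
      show (φ.symm (⟨(F A).1 ⊓ (F B).1, hW⟩ : CL H)).1 ≤ (E ⊥).1
      have h4 : (φ.symm (⟨(F A).1 ⊓ (F B).1, hW⟩ : CL H)).1 ≤ (E A).1 := h1
      have h5 : (φ.symm (⟨(F A).1 ⊓ (F B).1, hW⟩ : CL H)).1 ≤ (E B).1 := h2
      refine (le_inf h4 h5).trans ?_
      rw [hE, hE, hE, ← hAB, Subgroup.comap_inf]
      intro x hx
      exact ⟨⟨hx.1.1, hx.2.1⟩, hx.1.2⟩
    rw [OrderIso.symm_apply_le, ← hF] at h3
    exact h3
  have : CompactSpace ↥Z.1 := isCompact_iff_compactSpace.1 hZc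
  have hc : ∀ x y : ↥Z.1, x * y = y * x := fun x y => Subtype.ext (hcomm x.1 x.2 y.1 y.2)
  have hMcl : ∀ U : Subgroup ↥Z.1, IsClosed (U : Set ↥Z.1) →
      IsClosed ((U.map Z.1.subtype : Subgroup H) : Set H) := by
    intro U hU
    rw [Subgroup.coe_map]
    exact Z.2.isClosedEmbedding_subtypeVal.isClosedMap _ hU
  have hMle : ∀ U : Subgroup ↥Z.1, U.map Z.1.subtype ≤ Z.1 := fun U => Subgroup.map_subtype_le U
  obtain ⟨R, hR⟩ : ∃ R : Subgroup ↥Z.1, R = (F ⊥).1.subgroupOf Z.1 := ⟨_, rfl⟩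
  have hFmap : ∀ A, ((F A).1.subgroupOf Z.1).map Z.1.subtype = (F A).1 := fun A =>
    Subgroup.map_subgroupOf_eq_of_le (hFZ A)
  have hRcl : IsClosed (R : Set ↥Z.1) := by
    rw [hR]
    exact (F ⊥).2.preimage continuous_subtype_val
  have hRfin : Finite {B : Subgroup ↥Z.1 // IsClosed (B : Set ↥Z.1) ∧ R ≤ B} := by
    have hf : Function.Injective (fun B : {B : Subgroup ↥Z.1 // IsClosed (B : Set ↥Z.1) ∧ R ≤ B} =>
        (φ.symm ⟨B.1.map Z.1.subtype, hMcl B.1 B.2.1⟩).1.map (QuotientGroup.mk' S.1)) := by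
      have hb : ∀ B : {B : Subgroup ↥Z.1 // IsClosed (B : Set ↥Z.1) ∧ R ≤ B},
          (φ.symm ⟨B.1.map Z.1.subtype, hMcl B.1 B.2.1⟩).1 ≤ C.1 ∧
          S.1 ⊓ C.1 ≤ (φ.symm ⟨B.1.map Z.1.subtype, hMcl B.1 B.2.1⟩).1 := by
        intro B
        constructor
        · have h1 : φ.symm ⟨B.1.map Z.1.subtype, hMcl B.1 B.2.1⟩ ≤ C := by
            rw [OrderIso.symm_apply_le, hC]
            exact hMle B.1
          exact h1
        · rw [← hEbot]
          have h1 : E ⊥ ≤ φ.symm ⟨B.1.map Z.1.subtype, hMcl B.1 B.2.1⟩ := by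
            rw [OrderIso.le_symm_apply, ← hF]
            show (F ⊥).1 ≤ B.1.map Z.1.subtype
            rw [← hFmap ⊥, ← hR]
            exact Subgroup.map_mono B.2.2
          exact h1
      intro B B' hBB
      simp only at hBB
      have h1 : φ.symm ⟨B.1.map Z.1.subtype, hMcl B.1 B.2.1⟩ =
          φ.symm ⟨B'.1.map Z.1.subtype, hMcl B'.1 B'.2.1⟩ := by
        apply le_antisymm
        · exact PQ1_mod S.1 C.1 _ _ (hb B').2 (hb B).1 (hb B').1 hBB.le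
        · exact PQ1_mod S.1 C.1 _ _ (hb B).2 (hb B').1 (hb B).1 hBB.ge
      have h2 := congrArg Subtype.val (φ.symm.injective h1)
      apply Subtype.ext
      exact Subgroup.map_injective Z.1.subtype_injective h2
    exact Finite.of_injective _ hf
  have hRo : IsOpen (R : Set ↥Z.1) := hFI ↥Z.1 R hRcl hRfin
  have hUcl : ∀ U : Subgroup ↥Z.1, R ≤ U → IsClosed (U : Set ↥Z.1) := fun U hU =>
    Subgroup.isClosed_of_isOpen _ (Subgroup.isOpen_mono hU hRo)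
  have hRfi : Finite (↥Z.1 ⧸ R) := Subgroup.quotient_finite_of_isOpen R hRo
  have hRi : R.index ≠ 0 := Subgroup.index_ne_zero_of_finite
  have hgen : Subgroup.zpowers (⟨h, hhZ⟩ : ↥Z.1) ⊔ R = ⊤ := by
    rw [Subgroup.eq_top_iff']
    intro z
    have h1 := hmin _ (hMcl _ (hUcl _ (le_sup_right : R ≤ Subgroup.zpowers (⟨h, hhZ⟩ : ↥Z.1) ⊔ R)))
      ⟨⟨h, hhZ⟩, (le_sup_left : _ ≤ Subgroup.zpowers (⟨h, hhZ⟩ : ↥Z.1) ⊔ R)
        (Subgroup.mem_zpowers _), rfl⟩ z.2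
    obtain ⟨b, hb, hbz⟩ := Subgroup.mem_map.1 h1
    have : b = z := Subtype.ext hbz
    rw [← this]; exact hb
  have hBinf : ∀ A B, A ⊓ B = ⊥ → (F A).1.subgroupOf Z.1 ⊓ (F B).1.subgroupOf Z.1 = R := by
    intro A B hAB
    rw [hR]
    apply le_antisymm
    · intro x hx
      exact hFinf A B hAB ⟨hx.1, hx.2⟩
    · intro x hx
      exact ⟨hFmono ⊥ A bot_le hx, hFmono ⊥ B bot_le hx⟩
  have hBsup : ∀ A B, A ⊔ B = ⊤ → (F A).1.subgroupOf Z.1 ⊔ (F B).1.subgroupOf Z.1 = ⊤ := by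
    intro A B hAB
    obtain ⟨U, hU⟩ : ∃ U : Subgroup ↥Z.1,
      U = (F A).1.subgroupOf Z.1 ⊔ (F B).1.subgroupOf Z.1 := ⟨_, rfl⟩
    have hRU : R ≤ U := by
      rw [hU, hR]
      refine le_trans ?_ le_sup_left
      intro x hx
      exact hFmono ⊥ A bot_le hx
    rw [← hU, Subgroup.eq_top_iff']
    intro z
    have h1 : E A ≤ φ.symm ⟨U.map Z.1.subtype, hMcl U (hUcl U hRU)⟩ := by
      rw [OrderIso.le_symm_apply, ← hF]
      show (F A).1 ≤ U.map Z.1.subtype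
      rw [← hFmap A, hU]
      exact Subgroup.map_mono le_sup_left
    have h2 : E B ≤ φ.symm ⟨U.map Z.1.subtype, hMcl U (hUcl U hRU)⟩ := by
      rw [OrderIso.le_symm_apply, ← hF]
      show (F B).1 ≤ U.map Z.1.subtype
      rw [← hFmap B, hU]
      exact Subgroup.map_mono le_sup_right
    have h3 : φ.symm ⟨U.map Z.1.subtype, hMcl U (hUcl U hRU)⟩ ≤ C := by
      rw [OrderIso.symm_apply_le, hC]
      exact hMle U
    have h4 := hjoin A B hAB _ h1 h2 h3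
    rw [OrderIso.le_symm_apply, hC] at h4
    have h5 : z.1 ∈ U.map Z.1.subtype := h4 z.2
    obtain ⟨b, hb, hbz⟩ := Subgroup.mem_map.1 h5
    have : b = z := Subtype.ext hbz
    rw [← this]; exact hb
  have hfinal := PQ1_E hc R _ _ _ hRi ⟨h, hhZ⟩ hgen (hBinf A1 A2 i12) (hBinf A1 A3 i13)
    (hBinf A2 A3 i23) (hBsup A1 A2 s12) (hBsup A1 A3 s13)
  apply hA2
  have h6 : (F A2).1 = (F ⊥).1 := by
    rw [← hFmap A2, ← hFmap ⊥, hfinal, hR]
  have h7 : F A2 = F ⊥ := Subtype.ext h6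
  rw [hF, hF] at h7
  have h8 := φ.injective h7
  rw [← hEmap A2, h8, hEmap]

theorem PQ1 (hFI : StFI) : StPQ1 := by
  intro G H _ _ _ _ _ _ _ _ _ _ _ _ φ hEl S hSn hSo p q hp hq hcard hnc h
  obtain ⟨Z, hZ⟩ : ∃ Z : CL H, Z.1 = Zc h :=
    ⟨⟨Zc h, (Subgroup.zpowers h).isClosed_topologicalClosure⟩, rfl⟩
  have hhZ : h ∈ Z.1 := by
    rw [hZ]; exact Subgroup.le_topologicalClosure _ (Subgroup.mem_zpowers h)
  have hmin : ∀ K : Subgroup H, IsClosed (K : Set H) → h ∈ K → Z.1 ≤ K := by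
    intro K hK hhK
    rw [hZ]
    exact Subgroup.topologicalClosure_minimal _ (by rw [Subgroup.zpowers_le]; exact hhK) hK
  obtain ⟨C, hC⟩ : ∃ C : CL G, φ C = Z := ⟨φ.symm Z, φ.apply_symm_apply Z⟩
  by_cases hCS : C.1 ⊔ S.1 = ⊤
  · exfalso
    obtain ⟨K, hK, hhK⟩ := hEl h
    have hZc : IsCompact (Z.1 : Set H) := hK.of_isClosed_subset Z.2 (hmin K hK.isClosed hhK)
    have hcomm : ∀ x ∈ Z.1, ∀ y ∈ Z.1, x * y = y * x := by
      have hc0 := (Subgroup.commGroupTopologicalClosure (Subgroup.zpowers h) (by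
        rintro ⟨x, hx⟩ ⟨y, hy⟩
        obtain ⟨a, rfl⟩ := Subgroup.mem_zpowers_iff.1 hx
        obtain ⟨b, rfl⟩ := Subgroup.mem_zpowers_iff.1 hy
        apply Subtype.ext
        show h ^ a * h ^ b = h ^ b * h ^ a
        rw [← zpow_add, ← zpow_add, add_comm])).mul_comm
      intro x hx y hy
      rw [hZ] at hx hy
      exact congrArg Subtype.val (hc0 ⟨x, hx⟩ ⟨y, hy⟩)
    exact PQ1_main hFI G H φ S hSo p q hp hq hcard hnc h Z hZc hcomm hhZ hmin C hC hCS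
  · have hop : IsOpen ((C.1 ⊔ S.1 : Subgroup G) : Set G) := Subgroup.isOpen_mono le_sup_right hSo
    have h1 : C ≤ (⟨C.1 ⊔ S.1, Subgroup.isClosed_of_isOpen _ hop⟩ : CL G) :=
      (le_sup_left : C.1 ≤ C.1 ⊔ S.1)
    refine ⟨⟨C.1 ⊔ S.1, Subgroup.isClosed_of_isOpen _ hop⟩,
      (le_sup_right : S.1 ≤ C.1 ⊔ S.1), hCS, ?_⟩
    have h2 := φ.monotone h1
    rw [hC] at h2
    exact h2 hhZ

end Pool.LatH472
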