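import Mathlib
import Pool.Agent.Helper472.LatDefs

set_option autoImplicit false

namespace Pool.LatH472

open Pointwise

theorem RES_closed_map {G : Type} [Group G] [TopologicalSpace G] (A : CL G) (S : CL ↥A.1) :
    IsClosed ((S.1.map A.1.subtype : Subgroup G) : Set G) := by
  have h : ((S.1.map A.1.subtype : Subgroup G) : Set G) = Subtype.val '' (S.1 : Set ↥A.1) := by
    ext x; simp
  rw [h]
  exact (A.2.isClosedEmbedding_subtypeVal).isClosedMap _ S.2

theorem RES_closed_comap {G : Type} [Group G] [TopologicalSpace G] (A : CL G) (T : CL G) :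
    IsClosed ((T.1.comap A.1.subtype : Subgroup ↥A.1) : Set ↥A.1) := by
  exact T.2.preimage continuous_subtype_val

/-- image of a closed subgroup -/
def RES_up {G : Type} [Group G] [TopologicalSpace G] (A : CL G) (S : CL ↥A.1) : CL G :=
  ⟨S.1.map A.1.subtype, RES_closed_map A S⟩

/-- trace of a closed subgroup -/
def RES_dn {G : Type} [Group G] [TopologicalSpace G] (A : CL G) (T : CL G) : CL ↥A.1 :=
  ⟨T.1.comap A.1.subtype, RES_closed_comap A T⟩

theorem RES_up_le {G : Type} [Group G] [TopologicalSpace G] (A : CL G) (S : CL ↥A.1) :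
    RES_up A S ≤ A := by
  intro x hx
  obtain ⟨y, -, rfl⟩ := hx
  exact y.2

theorem RES_up_dn {G : Type} [Group G] [TopologicalSpace G] (A : CL G) (T : CL G) (h : T ≤ A) :
    RES_up A (RES_dn A T) = T := by
  apply Subtype.ext
  ext x
  constructor
  · rintro ⟨y, hy, rfl⟩
    exact hy
  · intro hx
    exact ⟨⟨x, h hx⟩, hx, rfl⟩

theorem RES_dn_up {G : Type} [Group G] [TopologicalSpace G] (A : CL G) (S : CL ↥A.1) :
    RES_dn A (RES_up A S) = S := by
  apply Subtype.ext
  ext x
  constructor
  · rintro ⟨y, hy, hyx⟩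
    have : y = x := Subtype.ext hyx
    rw [← this]; exact hy
  · intro hx
    exact ⟨x, hx, rfl⟩

theorem RES_up_mono {G : Type} [Group G] [TopologicalSpace G] (A : CL G) {S S' : CL ↥A.1}
    (h : S ≤ S') : RES_up A S ≤ RES_up A S' := by
  rintro x ⟨y, hy, rfl⟩
  exact ⟨y, h hy, rfl⟩

theorem RES_dn_mono {G : Type} [Group G] [TopologicalSpace G] (A : CL G) {T T' : CL G}
    (h : T ≤ T') : RES_dn A T ≤ RES_dn A T' := by
  intro x hx
  exact h hx

theorem RES : StRES := by
  intro G H _ _ _ _ _ _ φ A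
  have hle : ∀ S : CL ↥A.1, φ (RES_up A S) ≤ φ A := fun S => φ.monotone (RES_up_le A S)
  have hle' : ∀ S : CL ↥(φ A).1, φ.symm (RES_up (φ A) S) ≤ A := fun S => by
    rw [OrderIso.symm_apply_le]; exact RES_up_le (φ A) S
  have key : ∀ S : CL ↥A.1, RES_up (φ A) (RES_dn (φ A) (φ (RES_up A S))) = φ (RES_up A S) :=
    fun S => RES_up_dn (φ A) _ (hle S)
  let ψ : CL ↥A.1 ≃o CL ↥(φ A).1 :=
    { toFun := fun S => RES_dn (φ A) (φ (RES_up A S))
      invFun := fun S => RES_dn A (φ.symm (RES_up (φ A) S))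
      left_inv := fun S => by
        show RES_dn A (φ.symm (RES_up (φ A) (RES_dn (φ A) (φ (RES_up A S))))) = S
        rw [key S, OrderIso.symm_apply_apply, RES_dn_up]
      right_inv := fun S => by
        show RES_dn (φ A) (φ (RES_up A (RES_dn A (φ.symm (RES_up (φ A) S))))) = S
        rw [RES_up_dn A _ (hle' S), OrderIso.apply_symm_apply, RES_dn_up]
      map_rel_iff' := fun {S S'} => by
        show RES_dn (φ A) (φ (RES_up A S)) ≤ RES_dn (φ A) (φ (RES_up A S')) ↔ S ≤ S'
        constructor
        · intro h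
          have h1 := RES_up_mono (φ A) h
          rw [key S, key S'] at h1
          have h2 := (φ.le_iff_le).1 h1
          have h3 := RES_dn_mono A h2
          rw [RES_dn_up, RES_dn_up] at h3
          exact h3
        · intro h
          exact RES_dn_mono (φ A) (φ.monotone (RES_up_mono A h)) }
  refine ⟨ψ, fun S T hT => ?_⟩
  have hT' : RES_up A S = T := Subtype.ext hT.symm
  have h1 := congrArg Subtype.val (key S)
  rw [hT'] at h1
  have h2 : ((ψ S).1).map (φ A).1.subtype = (RES_up (φ A) (RES_dn (φ A) (φ (RES_up A S)))).1 := rfl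
  rw [h2, hT']
  exact h1

end Pool.LatH472
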