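import Mathlib
import Pool.Agent.Helper472.LatDefs

set_option autoImplicit false

namespace Pool.LatH472

open Pointwise

theorem SCH_core_bot {Γ : Type} [Group Γ] (M : Subgroup Γ) :
    ((M.map (QuotientGroup.mk' M.normalCore)).normalCore) = ⊥ := by
  set f := QuotientGroup.mk' M.normalCore with hf
  have hfs : Function.Surjective f := QuotientGroup.mk'_surjective _
  have hker : f.ker = M.normalCore := QuotientGroup.ker_mk' _
  have hcm : (M.map f).comap f = M := by
    rw [Subgroup.comap_map_eq, hker, sup_eq_left]
    exact Subgroup.normalCore_le M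
  have h1 : ((M.map f).normalCore).comap f ≤ M.normalCore := by
    have : (((M.map f).normalCore).comap f).Normal := inferInstance
    rw [Subgroup.normal_le_normalCore]
    calc ((M.map f).normalCore).comap f ≤ (M.map f).comap f :=
          Subgroup.comap_mono (Subgroup.normalCore_le _)
      _ = M := hcm
  rw [eq_bot_iff]
  intro x hx
  obtain ⟨y, rfl⟩ := hfs x
  have hy : y ∈ M.normalCore := h1 hx
  rw [← hker] at hy
  rw [Subgroup.mem_bot]
  exact hy

theorem SCH_PM {Γ : Type} [Group Γ] (M : Subgroup Γ) (h : PM M) :
    PM (M.map (QuotientGroup.mk' M.normalCore)) := by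
  set f := QuotientGroup.mk' M.normalCore with hf
  have hfs : Function.Surjective f := QuotientGroup.mk'_surjective _
  have hker : f.ker = M.normalCore := QuotientGroup.ker_mk' _
  have hcm : (M.map f).comap f = M := by
    rw [Subgroup.comap_map_eq, hker, sup_eq_left]
    exact Subgroup.normalCore_le M
  have hinj : Function.Injective (Subgroup.comap f) := Subgroup.comap_injective hfs
  refine ⟨⟨?_, ?_⟩, ?_⟩
  · intro h1
    apply h.1.1
    rw [← hcm, h1, Subgroup.comap_top]
  · intro B hB
    apply hinj
    rw [Subgroup.comap_top]
    apply h.1.2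
    have h3 : (M.map f).comap f < B.comap f := by
      refine lt_of_le_of_ne (Subgroup.comap_mono hB.le) ?_
      intro h2
      exact hB.ne (hinj h2)
    exact lt_of_eq_of_lt hcm.symm h3
  · intro A B h1 h2
    have h3 := h.2 (A.comap f) (B.comap f) (by
      have := Subgroup.comap_mono (f := f) h1
      rw [Subgroup.comap_inf, hcm] at this
      exact this) (Subgroup.comap_mono h2)
    rcases h3 with h3 | h3
    · left
      apply hinj
      rw [Subgroup.comap_inf, hcm]
      exact h3
    · right
      exact hinj h3

theorem SCH_aux (hA : StSCHA) (hB : StSCHB) : ∀ (n : ℕ) (Γ : Type) [Group Γ] [Finite Γ]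
    (M : Subgroup Γ), Nat.card Γ < n → PM M → CM M := by
  intro n
  induction n with
  | zero => intro Γ _ _ M h; omega
  | succ n ih =>
    intro Γ _ _ M hn hM
    have ih' : ∀ (X : Type) [Group X] [Finite X] (M' : Subgroup X),
        Nat.card X < Nat.card Γ → PM M' → CM M' := by
      intro X _ _ M' hX hM'
      exact ih X M' (by omega) hM'
    by_cases hC : M.normalCore = ⊥
    · by_cases hs : IsSimpleGroup Γ
      · exact Or.inl (hB Γ M hM hs ih')
      · exact hA Γ M hM hC hs ih'
    · set f := QuotientGroup.mk' M.normalCore with hf
      have hfs : Function.Surjective f := QuotientGroup.mk'_surjective _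
      have hker : f.ker = M.normalCore := QuotientGroup.ker_mk' _
      have hcm : (M.map f).comap f = M := by
        rw [Subgroup.comap_map_eq, hker, sup_eq_left]
        exact Subgroup.normalCore_le M
      have hcard : Nat.card (Γ ⧸ M.normalCore) < Nat.card Γ := by
        have h1 := Subgroup.card_eq_card_quotient_mul_card_subgroup M.normalCore
        have h2 : 1 < Nat.card M.normalCore := by
          rw [Subgroup.one_lt_card_iff_ne_bot]; exact hC
        have h3 : 0 < Nat.card (Γ ⧸ M.normalCore) := Nat.card_pos
        rw [h1]
        nlinarith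
      have h4 := ih' (Γ ⧸ M.normalCore) (M.map f) hcard (SCH_PM M hM)
      rcases h4 with h4 | ⟨p, q, hp, hq, h4⟩
      · left
        rw [← hcm]
        exact h4.comap f
      · right
        refine ⟨p, q, hp, hq, ?_⟩
        rw [← h4]
        have h5 : (M.map f).normalCore = ⊥ := SCH_core_bot M
        have h6 := Subgroup.card_eq_card_quotient_mul_card_subgroup (M.map f).normalCore
        have h7 : Nat.card (M.map f).normalCore = 1 := by
          rw [h5]; exact Subgroup.card_bot
        rw [h7, mul_one] at h6
        exact h6

theorem SCH (hA : StSCHA) (hB : StSCHB) : StSCH := by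
  intro Γ _ _ M hM
  exact SCH_aux hA hB (Nat.card Γ + 1) Γ M (Nat.lt_succ_self _) hM

end Pool.LatH472
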