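import Mathlib
import Pool.Agent.Helper472.LatDefs

set_option autoImplicit false

namespace Pool.LatH472

open Pointwise

theorem SCHA_norm {Γ : Type} [Group Γ] (A B D : Subgroup Γ) (h : A ⊔ B = ⊤)
    (hA : ∀ a ∈ A, ∀ d ∈ D, a * d * a⁻¹ ∈ D) (hB : ∀ a ∈ B, ∀ d ∈ D, a * d * a⁻¹ ∈ D) :
    D.Normal := by
  rw [← Subgroup.normalizer_eq_top_iff, eq_top_iff, ← h]
  have key : ∀ C : Subgroup Γ, (∀ a ∈ C, ∀ d ∈ D, a * d * a⁻¹ ∈ D) →
      C ≤ Subgroup.normalizer (D : Set Γ) := by
    intro C hC a ha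
    rw [Subgroup.mem_normalizer_iff]
    intro d
    constructor
    · intro hd
      exact hC a ha d hd
    · intro hd
      have h1 := hC a⁻¹ (C.inv_mem ha) _ hd
      have h2 : a⁻¹ * (a * d * a⁻¹) * a⁻¹⁻¹ = d := by group
      rwa [h2] at h1
  exact sup_le (key A hA) (key B hB)

theorem SCHA_prime {Γ : Type} [Group Γ] [Finite Γ] (A : Subgroup Γ) (hA : A ≠ ⊥)
    (h : ∀ B : Subgroup Γ, B ≤ A → B = ⊥ ∨ B = A) :
    (Nat.card A).Prime ∧ ∃ x ∈ A, A = Subgroup.zpowers x := by
  have hne : Nat.card A ≠ 1 := by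
    intro h1
    exact hA (Subgroup.card_eq_one.mp h1)
  have hp := Nat.minFac_prime hne
  have : Fact (Nat.minFac (Nat.card A)).Prime := ⟨hp⟩
  obtain ⟨x, hx⟩ := exists_prime_orderOf_dvd_card' (G := A) _ (Nat.minFac_dvd (Nat.card A))
  have h1 : Subgroup.zpowers (x : Γ) ≤ A := by
    rw [Subgroup.zpowers_le]
    exact x.2
  have hord : orderOf (x : Γ) = Nat.minFac (Nat.card A) := by
    rw [Subgroup.orderOf_coe, hx]
  rcases h _ h1 with h2 | h2
  · exfalso
    rw [Subgroup.zpowers_eq_bot] at h2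
    rw [h2, orderOf_one] at hord
    exact hp.one_lt.ne hord
  · refine ⟨?_, x, x.2, h2.symm⟩
    rw [← h2, Nat.card_zpowers, hord]
    exact hp

theorem SCHA_perf {P : Type} [Group P] (hP : commutator P = ⊤) (S : Subgroup P) [S.Normal]
    (hS : S ≠ ⊤) (hsol : Group.IsSolvable (P ⧸ S)) : False := by
  have : Nontrivial (P ⧸ S) := by
    by_contra hn
    rw [not_nontrivial_iff_subsingleton] at hn
    exact hS (QuotientGroup.subgroup_eq_top_of_subsingleton S hn)
  have h1 : commutator (P ⧸ S) < ⊤ := Group.IsSolvable.commutator_lt_top_of_nontrivial _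
  have h2 : Subgroup.map (QuotientGroup.mk' S) (commutator P) = commutator (P ⧸ S) := by
    rw [commutator_def, commutator_def, Subgroup.map_commutator,
      Subgroup.map_top_of_surjective _ (QuotientGroup.mk'_surjective S)]
  rw [hP, Subgroup.map_top_of_surjective _ (QuotientGroup.mk'_surjective S)] at h2
  exact h1.ne h2.symm

theorem SCHA_pq {Q : Type} [Group Q] [Finite Q] {p q : ℕ} (hp : p.Prime) (hq : q.Prime)
    (h : Nat.card Q = p * q) : Group.IsSolvable Q := by
  by_cases hpq : p = q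
  · subst hpq
    have : Fact p.Prime := ⟨hp⟩
    have h1 : IsPGroup p Q := IsPGroup.of_card (n := 2) (by rw [h]; ring)
    have := h1.isNilpotent
    infer_instance
  · have h1 : Squarefree (Nat.card Q) := by
      rw [h, Nat.squarefree_mul_iff]
      exact ⟨(Nat.coprime_primes hp hq).mpr hpq, hp.prime.squarefree, hq.prime.squarefree⟩
    have := IsZGroup.of_squarefree h1
    infer_instance

theorem SCHA_coatom {P : Type} [Group P] (S : Subgroup P) [S.Normal] (hS : IsCoatom S) :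
    Group.IsSolvable (P ⧸ S) := by
  obtain ⟨x, hx⟩ : ∃ x : P, x ∉ S := by
    by_contra hn
    push Not at hn
    exact hS.1 (eq_top_iff.mpr fun y _ => hn y)
  have h1 : ∀ y : P, ∃ i : ℤ, (y : P ⧸ S) = (x : P ⧸ S) ^ i := by
    intro y
    have h2 : Subgroup.comap (QuotientGroup.mk' S) (Subgroup.zpowers (x : P ⧸ S)) = ⊤ := by
      apply hS.2
      refine lt_of_le_of_ne ?_ ?_
      · intro s hs
        rw [Subgroup.mem_comap]
        have : (QuotientGroup.mk' S) s = 1 := (QuotientGroup.eq_one_iff s).mpr hs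
        rw [this]
        exact Subgroup.one_mem _
      · intro h3
        apply hx
        rw [h3, Subgroup.mem_comap]
        exact Subgroup.mem_zpowers _
    have h3 : y ∈ Subgroup.comap (QuotientGroup.mk' S) (Subgroup.zpowers (x : P ⧸ S)) := by
      rw [h2]; trivial
    rw [Subgroup.mem_comap, Subgroup.mem_zpowers_iff] at h3
    obtain ⟨i, hi⟩ := h3
    exact ⟨i, hi.symm⟩
  apply Group.isSolvable_of_comm
  intro a b
  induction a using QuotientGroup.induction_on with
  | H a =>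
    induction b using QuotientGroup.induction_on with
    | H b =>
      obtain ⟨i, hi⟩ := h1 a
      obtain ⟨j, hj⟩ := h1 b
      rw [hi, hj, ← zpow_add, ← zpow_add, add_comm]

theorem SCHA_PMsub {Γ : Type} [Group Γ] (M N : Subgroup Γ) (hM : PM M) (hN : ¬ N ≤ M) :
    PM (M.subgroupOf N) := by
  have hmap : ∀ A : Subgroup N, (A ⊓ M.subgroupOf N).map N.subtype = A.map N.subtype ⊓ M := by
    intro A
    ext x
    constructor
    · rintro ⟨y, hy, rfl⟩
      exact ⟨⟨y, hy.1, rfl⟩, hy.2⟩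
    · rintro ⟨⟨y, hy, rfl⟩, hx⟩
      exact ⟨y, ⟨hy, hx⟩, rfl⟩
  have hinj : Function.Injective (Subgroup.map N.subtype) :=
    Subgroup.map_injective N.subtype_injective
  have h2 : ∀ A B : Subgroup N, A ⊓ M.subgroupOf N ≤ B → B ≤ A →
      B = A ⊓ M.subgroupOf N ∨ B = A := by
    intro A B h1 h2
    have h3 : A.map N.subtype ⊓ M ≤ B.map N.subtype := by
      rw [← hmap]
      exact Subgroup.map_mono h1
    rcases hM.2 (A.map N.subtype) (B.map N.subtype) h3 (Subgroup.map_mono h2) with h4 | h4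
    · left
      rw [← hmap] at h4
      exact hinj h4
    · right
      exact hinj h4
  refine ⟨⟨?_, ?_⟩, h2⟩
  · intro h
    rw [Subgroup.subgroupOf_eq_top] at h
    exact hN h
  · intro B hB
    rcases h2 ⊤ B (by rw [top_inf_eq]; exact hB.le) le_top with h3 | h3
    · rw [top_inf_eq] at h3
      exact absurd h3 hB.ne'
    · exact h3

theorem SCHA : StSCHA := by
  intro Γ _ _ M hPM hcore hns IH
  have hMc : IsCoatom M := hPM.1
  have : Nontrivial Γ := by
    by_contra hn
    rw [not_nontrivial_iff_subsingleton] at hn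
    exact hMc.1 (Subsingleton.elim _ _)
  -- a minimal normal subgroup
  obtain ⟨N, hNn, hNb, hNt, hNmin⟩ : ∃ N : Subgroup Γ, N.Normal ∧ N ≠ ⊥ ∧ N ≠ ⊤ ∧
      ∀ K : Subgroup Γ, K.Normal → K ≤ N → K = ⊥ ∨ K = N := by
    obtain ⟨H, hHn, hHb, hHt⟩ : ∃ H : Subgroup Γ, H.Normal ∧ H ≠ ⊥ ∧ H ≠ ⊤ := by
      by_contra hno
      push Not at hno
      apply hns
      refine ⟨fun H hH => ?_⟩
      by_cases hb : H = ⊥
      · exact Or.inl hb
      · exact Or.inr (hno H hH hb)
    have hfin : Set.Finite {K : Subgroup Γ | K.Normal ∧ K ≠ ⊥ ∧ K ≤ H} := Set.toFinite _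
    obtain ⟨N, hN⟩ := hfin.exists_minimal ⟨H, hHn, hHb, le_rfl⟩
    obtain ⟨⟨hN1, hN2, hN3⟩, hN4⟩ := hN
    refine ⟨N, hN1, hN2, ?_, ?_⟩
    · intro h
      rw [h] at hN3
      exact hHt (top_le_iff.mp hN3)
    · intro K hK hKN
      by_cases hb : K = ⊥
      · exact Or.inl hb
      · exact Or.inr (le_antisymm hKN (hN4 ⟨hK, hb, hKN.trans hN3⟩ hKN))
  have hcoreN : ∀ K : Subgroup Γ, K.Normal → K ≤ M → K = ⊥ := by
    intro K hK hKM
    have := hK
    have := Subgroup.normal_le_normalCore.mpr hKM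
    rw [hcore] at this
    exact le_bot_iff.mp this
  have hNM : ¬ N ≤ M := fun h => hNb (hcoreN N hNn h)
  have hsup : ∀ A : Subgroup Γ, ¬ A ≤ M → A ⊔ M = ⊤ := by
    intro A hA
    apply hMc.2
    refine lt_of_le_of_ne le_sup_right ?_
    intro h
    exact hA (h ▸ le_sup_left)
  have hNMt : N ⊔ M = ⊤ := hsup N hNM
  -- (1)
  have hPM' := SCHA_PMsub M N hPM hNM
  have hcard : Nat.card N < Nat.card Γ := by
    refine lt_of_le_of_ne (Subgroup.card_le_card_group N) ?_
    intro h
    exact hNt (Subgroup.eq_top_of_card_eq N h)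
  have hCM' := IH N (M.subgroupOf N) hcard hPM'
  have hNcomm : ∀ x ∈ N, ∀ y ∈ N, x * y = y * x := by
    have hcn : ⁅N, N⁆.Normal := Subgroup.commutator_normal N N
    rcases hNmin ⁅N, N⁆ hcn (Subgroup.commutator_le_left N N) with h1 | h1
    · rw [Subgroup.commutator_eq_bot_iff_le_centralizer] at h1
      intro x hx y hy
      exact ((Subgroup.mem_centralizer_iff.mp (h1 hx)) y hy).symm
    · exfalso
      have hperf : commutator N = ⊤ := by
        apply Subgroup.map_injective N.subtype_injective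
        rw [Subgroup.map_subtype_commutator, h1, ← MonoidHom.range_eq_map, Subgroup.range_subtype]
      rcases hCM' with hn | ⟨p, q, hp, hq, hpq⟩
      · have := hn
        exact SCHA_perf hperf (M.subgroupOf N) hPM'.1.1 (SCHA_coatom _ hPM'.1)
      · have hne : (M.subgroupOf N).normalCore ≠ ⊤ := by
          intro h
          have := Subgroup.normalCore_le (M.subgroupOf N)
          rw [h] at this
          exact hPM'.1.1 (top_le_iff.mp this)
        exact SCHA_perf hperf _ hne (SCHA_pq hp hq hpq)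
  -- (2)
  have hNinf : N ⊓ M = ⊥ := by
    apply hcoreN _ _ inf_le_right
    refine SCHA_norm N M _ hNMt ?_ ?_
    · intro a ha d hd
      rw [hNcomm a ha d hd.1, mul_inv_cancel_right]
      exact hd
    · intro a ha d hd
      exact ⟨hNn.conj_mem d hd.1 a, M.mul_mem (M.mul_mem ha hd.2) (M.inv_mem ha)⟩
  obtain ⟨hNprime, x, hxN, hNx⟩ := SCHA_prime N hNb (by
    intro B hB
    have := hPM.2 N B (by rw [hNinf]; exact bot_le) hB
    rwa [hNinf] at this)
  have hC : Subgroup.centralizer (N : Set Γ) ⊓ M = ⊥ := by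
    apply hcoreN _ _ inf_le_right
    refine SCHA_norm N M _ hNMt ?_ ?_
    · intro a ha d hd
      have h1 := Subgroup.mem_centralizer_iff.mp hd.1 a ha
      rw [h1, mul_inv_cancel_right]
      exact hd
    · intro a ha d hd
      refine ⟨?_, M.mul_mem (M.mul_mem ha hd.2) (M.inv_mem ha)⟩
      refine Subgroup.mem_centralizer_iff.mpr ?_
      intro n hn
      have h1 := hNn.conj_mem n hn a⁻¹
      rw [inv_inv] at h1
      have h2 := Subgroup.mem_centralizer_iff.mp hd.1 _ h1
      have h3 : n * (a * d * a⁻¹) = a * ((a⁻¹ * n * a) * d) * a⁻¹ := by group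
      have h4 : a * d * a⁻¹ * n = a * (d * (a⁻¹ * n * a)) * a⁻¹ := by group
      rw [h3, h4, h2]
  have hMcomm : ∀ a ∈ M, ∀ b ∈ M, a * b = b * a := by
    intro a ha b hb
    have hconj : ∀ a : Γ, ∃ i : ℤ, a * x * a⁻¹ = x ^ i := by
      intro a
      have h1 := hNn.conj_mem x hxN a
      rw [hNx, Subgroup.mem_zpowers_iff] at h1
      obtain ⟨i, hi⟩ := h1
      exact ⟨i, hi.symm⟩
    obtain ⟨i, hi⟩ := hconj a
    obtain ⟨j, hj⟩ := hconj b
    have h1 : (a * b) * x * (a * b)⁻¹ = x ^ (i * j) := by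
      have : (a * b) * x * (a * b)⁻¹ = a * (b * x * b⁻¹) * a⁻¹ := by group
      rw [this, hj, ← conj_zpow, hi, ← zpow_mul]
    have h2 : (b * a) * x * (b * a)⁻¹ = x ^ (i * j) := by
      have : (b * a) * x * (b * a)⁻¹ = b * (a * x * a⁻¹) * b⁻¹ := by group
      rw [this, hi, ← conj_zpow, hj, ← zpow_mul, mul_comm]
    have h3 : ((b * a)⁻¹ * (a * b)) * x = x * ((b * a)⁻¹ * (a * b)) := by
      have h4 : (a * b) * x * (a * b)⁻¹ = (b * a) * x * (b * a)⁻¹ := by rw [h1, h2]
      have h5 : ((b * a)⁻¹ * (a * b)) * x =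
          (b * a)⁻¹ * ((a * b) * x * (a * b)⁻¹) * (a * b) := by group
      rw [h5, h4]
      group
    have h4 : (b * a)⁻¹ * (a * b) ∈ Subgroup.centralizer (N : Set Γ) ⊓ M := by
      refine ⟨?_, M.mul_mem (M.inv_mem (M.mul_mem hb ha)) (M.mul_mem ha hb)⟩
      refine Subgroup.mem_centralizer_iff.mpr ?_
      intro n hn
      rw [SetLike.mem_coe, hNx, Subgroup.mem_zpowers_iff] at hn
      obtain ⟨k, rfl⟩ := hn
      have h6 : Commute x ((b * a)⁻¹ * (a * b)) := h3.symm
      exact (h6.zpow_left k).eq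
    rw [hC, Subgroup.mem_bot] at h4
    exact (inv_mul_eq_one.mp h4).symm
  -- (3)
  by_cases hMn : M.Normal
  · exact Or.inl hMn
  right
  obtain ⟨g, m, hm, hgm⟩ : ∃ g m : Γ, m ∈ M ∧ g * m * g⁻¹ ∉ M := by
    by_contra hno
    push Not at hno
    exact hMn ⟨fun n hn g => hno g n hn⟩
  set A : Subgroup Γ := M.map (MulAut.conj g).toMonoidHom with hA
  have hAM : ¬ A ≤ M := by
    intro h
    exact hgm (h ⟨m, hm, rfl⟩)
  have hAcomm : ∀ a ∈ A, ∀ b ∈ A, a * b = b * a := by
    rintro _ ⟨a, ha, rfl⟩ _ ⟨b, hb, rfl⟩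
    rw [← map_mul, ← map_mul, hMcomm a ha b hb]
  have hAMt : A ⊔ M = ⊤ := hsup A hAM
  have hAinf : A ⊓ M = ⊥ := by
    apply hcoreN _ _ inf_le_right
    refine SCHA_norm A M _ hAMt ?_ ?_
    · intro a ha d hd
      rw [hAcomm a ha d hd.1, mul_inv_cancel_right]
      exact hd
    · intro a ha d hd
      rw [hMcomm a ha d hd.2, mul_inv_cancel_right]
      exact hd
  have hAb : A ≠ ⊥ := by
    intro h
    apply hAM
    rw [h]
    exact bot_le
  obtain ⟨hAprime, -, -, -⟩ := SCHA_prime A hAb (by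
    intro B hB
    have := hPM.2 A B (by rw [hAinf]; exact bot_le) hB
    rwa [hAinf] at this)
  have hcardA : Nat.card A = Nat.card M :=
    Subgroup.card_map_of_injective (MulAut.conj g).injective
  rw [hcardA] at hAprime
  refine ⟨Nat.card N, Nat.card M, hNprime, hAprime, ?_⟩
  have hcomp : Subgroup.IsComplement' N M := by
    apply Subgroup.isComplement'_of_disjoint_and_mul_eq_univ
    · rw [disjoint_iff]
      exact hNinf
    · rw [← Subgroup.normal_mul, hNMt]
      rfl
  rw [hcomp.card_mul_card, hcore]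
  exact Subgroup.index_bot

end Pool.LatH472
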