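import Mathlib
import Pool.Agent.Helper472.LatDefs

set_option autoImplicit false

namespace Pool.LatH472

open Pointwise

theorem SCHB_aut_triv {Q : Type} [Group Q] [Finite Q] (r : ℕ) (hr : r.Prime)
    (hmin : ∀ q : ℕ, q.Prime → q ∣ Nat.card Q → r ≤ q) (P : Subgroup Q) [P.Normal]
    (hP : Nat.card P = r) : ∀ x ∈ P, ∀ n : Q, n * x = x * n := by
  haveI : Fact r.Prime := ⟨hr⟩
  haveI hc : IsCyclic P := isCyclic_of_prime_card hP
  have hcard : Nat.card (MulAut P) = r - 1 := by
    rw [IsCyclic.card_mulAut, hP, Nat.totient_prime hr]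
  have hr1 : 0 < r - 1 := by have := hr.two_le; omega
  have hfin : Finite (MulAut P) := Nat.finite_of_card_ne_zero (by omega)
  intro x hx n
  let f : Q →* MulAut P := MulAut.conjNormal
  have h1 : orderOf (f n) ∣ Nat.card Q := (orderOf_map_dvd f n).trans (orderOf_dvd_natCard n)
  have h2 : orderOf (f n) ∣ r - 1 := by rw [← hcard]; exact orderOf_dvd_natCard _
  have h3 : orderOf (f n) = 1 := by
    by_contra hne
    obtain ⟨q, hq, hqd⟩ := Nat.exists_prime_and_dvd hne
    have h4 := hmin q hq (hqd.trans h1)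
    have h5 := Nat.le_of_dvd hr1 (hqd.trans h2)
    omega
  have h4 : f n = 1 := orderOf_eq_one_iff.mp h3
  have h5 : ((f n) ⟨x, hx⟩ : Q) = n * x * n⁻¹ := MulAut.conjNormal_apply n ⟨x, hx⟩
  rw [h4] at h5
  have h6 : x = n * x * n⁻¹ := h5
  calc n * x = n * x * n⁻¹ * n := by group
    _ = x * n := by rw [← h6]

theorem SCHB_normal_comm {X : Type} [Group X] (M' : Subgroup X) (hM : IsCoatom M') [M'.Normal]
    (a b : X) : a * b * a⁻¹ * b⁻¹ ∈ M' := by
  by_cases ha : a ∈ M'
  · have h1 : b * a⁻¹ * b⁻¹ ∈ M' := Subgroup.Normal.conj_mem ‹_› _ (M'.inv_mem ha) b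
    have h2 : a * b * a⁻¹ * b⁻¹ = a * (b * a⁻¹ * b⁻¹) := by group
    rw [h2]
    exact M'.mul_mem ha h1
  · have h1 : M' ⊔ Subgroup.zpowers a = ⊤ := by
      apply hM.2
      refine lt_of_le_of_ne le_sup_left ?_
      intro h
      apply ha
      rw [h]
      exact (le_sup_right : Subgroup.zpowers a ≤ M' ⊔ Subgroup.zpowers a) (Subgroup.mem_zpowers a)
    have h2 : b ∈ M' ⊔ Subgroup.zpowers a := by rw [h1]; trivial
    rw [← SetLike.mem_coe, Subgroup.normal_mul] at h2
    obtain ⟨m, hm, c, hc, hmc⟩ := h2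
    obtain ⟨k, hk⟩ := Subgroup.mem_zpowers_iff.mp hc
    have h3 : a * b * a⁻¹ * b⁻¹ = (a * m * a⁻¹) * m⁻¹ := by
      rw [← hmc]
      change a * (m * c) * a⁻¹ * (m * c)⁻¹ = _
      rw [← hk]
      group
    rw [h3]
    exact M'.mul_mem (Subgroup.Normal.conj_mem ‹_› _ hm a) (M'.inv_mem hm)

theorem SCHB_star {Γ : Type} [Group Γ] [Finite Γ] (M : Subgroup Γ) (hM : PM M)
    (hs : IsSimpleGroup Γ)
    (IH : ∀ (X : Type) [Group X] [Finite X] (M' : Subgroup X), Nat.card X < Nat.card Γ → PM M' → CM M')
    (r : ℕ) (hr : r.Prime) (hmin : ∀ q : ℕ, q.Prime → q ∣ Nat.card Γ → r ≤ q)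
    (hnp : ¬ IsPGroup r Γ) (R : Subgroup Γ) (hR : IsPGroup r R) :
    ∀ x ∈ R, ∀ n ∈ Subgroup.normalizer (R : Set Γ), x * n * x⁻¹ * n⁻¹ ∈ M := by
  haveI : Fact r.Prime := ⟨hr⟩
  intro x hx n hn
  by_cases hRM : R ≤ M
  · have h1 : n * x⁻¹ * n⁻¹ ∈ R := (Subgroup.mem_normalizer_iff.mp hn _).mp (R.inv_mem hx)
    have h2 : x * n * x⁻¹ * n⁻¹ = x * (n * x⁻¹ * n⁻¹) := by group
    rw [h2]
    exact M.mul_mem (hRM hx) (hRM h1)
  · set N : Subgroup Γ := Subgroup.normalizer (R : Set Γ) with hN
    have hRN : R ≤ N := Subgroup.le_normalizer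
    have hNtop : N ≠ ⊤ := by
      intro h
      have hnorm : R.Normal := Subgroup.normalizer_eq_top_iff.mp h
      rcases hnorm.eq_bot_or_eq_top with h1 | h1
      · exact hRM (by rw [h1]; exact bot_le)
      · apply hnp
        intro g
        obtain ⟨k, hk⟩ := hR ⟨g, by rw [h1]; trivial⟩
        exact ⟨k, by simpa using congrArg Subtype.val hk⟩
    let M' : Subgroup N := M.subgroupOf N
    have hmapM : M'.map N.subtype = N ⊓ M := by
      rw [Subgroup.subgroupOf_map_subtype, inf_comm]
    have hPM' : PM M' := by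
      have key : ∀ A B : Subgroup N, A ⊓ M' ≤ B → B ≤ A → B = A ⊓ M' ∨ B = A := by
        intro A B h1 h2
        have hinj : Function.Injective N.subtype := N.subtype_injective
        have e1 : (A ⊓ M').map N.subtype = A.map N.subtype ⊓ M := by
          ext z
          constructor
          · rintro ⟨w, ⟨hw1, hw2⟩, rfl⟩
            exact ⟨⟨w, hw1, rfl⟩, hw2⟩
          · rintro ⟨⟨w, hw1, rfl⟩, hw2⟩
            exact ⟨w, ⟨hw1, hw2⟩, rfl⟩
        have h3 : A.map N.subtype ⊓ M ≤ B.map N.subtype := by
          rw [← e1]; exact Subgroup.map_mono h1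
        rcases hM.2 _ _ h3 (Subgroup.map_mono h2) with h4 | h4
        · left
          rw [← e1] at h4
          exact Subgroup.map_injective hinj h4
        · right
          exact Subgroup.map_injective hinj h4
      refine ⟨⟨?_, ?_⟩, key⟩
      · intro h
        apply hRM
        intro z hz
        have : (⟨z, hRN hz⟩ : N) ∈ M' := by rw [h]; trivial
        exact this
      · intro B hB
        rcases key ⊤ B (by rw [top_inf_eq]; exact hB.le) le_top with h1 | h1
        · rw [top_inf_eq] at h1
          exact absurd h1 hB.ne'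
        · exact h1
    have hcardN : Nat.card N < Nat.card Γ := by
      refine lt_of_le_of_ne (Nat.le_of_dvd Nat.card_pos (Subgroup.card_subgroup_dvd_card N)) ?_
      intro h
      exact hNtop (Subgroup.eq_top_of_card_eq N h)
    let x' : N := ⟨x, hRN hx⟩
    let n' : N := ⟨n, hn⟩
    have goal : x' * n' * x'⁻¹ * n'⁻¹ ∈ M' := by
      rcases IH N M' hcardN hPM' with h | ⟨p, q, hp, hq, hcard⟩
      · haveI := h
        exact SCHB_normal_comm M' hPM'.1 x' n'
      · apply Subgroup.normalCore_le M'
        -- the quotient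
        let K : Subgroup N := M'.normalCore
        let π : N →* N ⧸ K := QuotientGroup.mk' K
        let R' : Subgroup N := R.subgroupOf N
        haveI hR'n : R'.Normal := Subgroup.normal_subgroupOf_iff_le_normalizer hRN |>.mpr le_rfl
        have hπs : Function.Surjective π := QuotientGroup.mk'_surjective K
        let Rb : Subgroup (N ⧸ K) := R'.map π
        haveI hRbn : Rb.Normal := hR'n.map π hπs
        have hRbp : IsPGroup r Rb := by
          have h1 : IsPGroup r R' := hR.comap_of_injective N.subtype N.subtype_injective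
          exact h1.map π
        have hcardQ : Nat.card (N ⧸ K) = p * q := hcard
        have hQΓ : Nat.card (N ⧸ K) ∣ Nat.card Γ :=
          (Subgroup.card_quotient_dvd_card K).trans (Subgroup.card_subgroup_dvd_card N)
        have hcomm : ∀ y ∈ Rb, ∀ z : N ⧸ K, z * y = y * z := by
          obtain ⟨k, hk⟩ := (IsPGroup.iff_card).mp hRbp
          have hdvd : r ^ k ∣ p * q := by
            rw [← hk, ← hcardQ]; exact Subgroup.card_subgroup_dvd_card Rb
          rcases Nat.lt_or_ge k 2 with hk2 | hk2
          · interval_cases k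
            · rw [pow_zero] at hk
              have hbot : Rb = ⊥ := Subgroup.eq_bot_of_card_eq Rb hk
              intro y hy z
              rw [hbot, Subgroup.mem_bot] at hy
              rw [hy, mul_one, one_mul]
            · rw [pow_one] at hk
              exact SCHB_aut_triv r hr (fun q' hq' hd => hmin q' hq' (hd.trans hQΓ)) Rb hk
          · have h2 : r ^ 2 ∣ p * q := (pow_dvd_pow r hk2).trans hdvd
            have hpq : p = r ∧ q = r := by
              rw [sq] at h2
              have h3 : r ∣ p * q := (Dvd.intro _ rfl).trans h2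
              rcases (Nat.Prime.dvd_mul hr).mp h3 with h4 | h4
              · have h5 : r = p := (Nat.prime_dvd_prime_iff_eq hr hp).mp h4
                rw [← h5] at h2
                have h6 : r ∣ q := Nat.dvd_of_mul_dvd_mul_left hr.pos h2
                exact ⟨h5.symm, ((Nat.prime_dvd_prime_iff_eq hr hq).mp h6).symm⟩
              · have h5 : r = q := (Nat.prime_dvd_prime_iff_eq hr hq).mp h4
                rw [← h5] at h2
                have h6 : r ∣ p := Nat.dvd_of_mul_dvd_mul_right hr.pos h2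
                exact ⟨((Nat.prime_dvd_prime_iff_eq hr hp).mp h6).symm, h5.symm⟩
            have h7 : Nat.card (N ⧸ K) = r ^ 2 := by rw [hcardQ, hpq.1, hpq.2, sq]
            intro y _ z
            exact IsPGroup.commutative_of_card_eq_prime_sq h7 z y
        have hx'R : π x' ∈ Rb := ⟨x', hx, rfl⟩
        have h8 := hcomm _ hx'R (π n')
        have h9 : π (x' * n' * x'⁻¹ * n'⁻¹) = 1 := by
          rw [map_mul, map_mul, map_mul, map_inv, map_inv, ← h8]
          group
        exact (QuotientGroup.eq_one_iff _).mp h9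
    exact goal

theorem SCHB : StSCHB := by
  intro Γ _ _ M hM hs IH
  by_cases hcomm : ∀ a b : Γ, a * b = b * a
  · refine ⟨fun n hn g => ?_⟩
    rw [hcomm g n, mul_assoc, mul_inv_cancel, mul_one]
    exact hn
  exfalso
  haveI := hs
  have hcore : M.normalCore = ⊥ := by
    rcases (Subgroup.normalCore_normal M).eq_bot_or_eq_top with h | h
    · exact h
    · exfalso
      apply hM.1.1
      exact top_le_iff.mp (h ▸ M.normalCore_le)
  have hcard1 : Nat.card Γ ≠ 1 := by
    intro h
    have := (Nat.card_eq_one_iff_unique.mp h).1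
    exact hcomm (fun a b => Subsingleton.elim _ _)
  let r := Nat.minFac (Nat.card Γ)
  have hr : r.Prime := Nat.minFac_prime hcard1
  haveI : Fact r.Prime := ⟨hr⟩
  have hmin : ∀ q : ℕ, q.Prime → q ∣ Nat.card Γ → r ≤ q := fun q hq hd =>
    Nat.minFac_le_of_dvd hq.two_le hd
  have hnp : ¬ IsPGroup r Γ := by
    intro hp
    haveI : Nontrivial Γ := hs.toNontrivial
    have h1 := hp.center_nontrivial
    rcases (inferInstance : (Subgroup.center Γ).Normal).eq_bot_or_eq_top with h | h
    · rw [h] at h1
      exact not_subsingleton _ (inferInstance : Subsingleton (⊥ : Subgroup Γ))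
    · apply hcomm
      intro a b
      have ha : a ∈ Subgroup.center Γ := by rw [h]; trivial
      exact ((Subgroup.mem_center_iff.mp ha) b).symm
  obtain ⟨P⟩ : Nonempty (Sylow r Γ) := inferInstance
  have hNC : Subgroup.normalizer ((P : Subgroup Γ) : Set Γ) ≤ Subgroup.centralizer ((P : Subgroup Γ) : Set Γ) := by
    intro n hn
    rw [Subgroup.mem_centralizer_iff]
    intro x hx
    have hc : x * n * x⁻¹ * n⁻¹ ∈ M.normalCore := by
      intro g
      let Pg : Subgroup Γ := (P : Subgroup Γ).map (MulAut.conj g).toMonoidHom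
      have hPg : IsPGroup r Pg := P.2.map _
      have hx' : g * x * g⁻¹ ∈ Pg := ⟨x, hx, rfl⟩
      have hn' : g * n * g⁻¹ ∈ Subgroup.normalizer (Pg : Set Γ) := by
        rw [Subgroup.mem_normalizer_iff]
        intro z
        have e1 : ∀ w : Γ, w ∈ Pg ↔ g⁻¹ * w * g ∈ (P : Subgroup Γ) := by
          intro w
          constructor
          · rintro ⟨v, hv, rfl⟩
            have : g⁻¹ * (MulAut.conj g).toMonoidHom v * g = v := by
              change g⁻¹ * (g * v * g⁻¹) * g = v
              group
            rw [this]; exact hv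
          · intro hw
            refine ⟨g⁻¹ * w * g, hw, ?_⟩
            change g * (g⁻¹ * w * g) * g⁻¹ = w
            group
        rw [e1, e1, Subgroup.mem_normalizer_iff.mp hn]
        have e2 : n * (g⁻¹ * z * g) * n⁻¹ = g⁻¹ * (g * n * g⁻¹ * z * (g * n * g⁻¹)⁻¹) * g := by group
        rw [e2]
      have h := SCHB_star M hM hs IH r hr hmin hnp Pg hPg _ hx' _ hn'
      have e3 : g * (x * n * x⁻¹ * n⁻¹) * g⁻¹ =
          g * x * g⁻¹ * (g * n * g⁻¹) * (g * x * g⁻¹)⁻¹ * (g * n * g⁻¹)⁻¹ := by group
      rw [e3]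
      exact h
    rw [hcore, Subgroup.mem_bot] at hc
    calc x * n = (x * n * x⁻¹ * n⁻¹) * (n * x) := by group
      _ = n * x := by rw [hc, one_mul]
  have hcompl := MonoidHom.ker_transferSylow_isComplement' P hNC
  have hPne : (P : Subgroup Γ) ≠ ⊤ := by
    intro h
    apply hnp
    intro g
    obtain ⟨k, hk⟩ := P.2 ⟨g, by rw [h]; trivial⟩
    exact ⟨k, by simpa using congrArg Subtype.val hk⟩
  have hPbot : (P : Subgroup Γ) ≠ ⊥ := by
    intro h
    have h1 := P.dvd_card_of_dvd_card (Nat.minFac_dvd (Nat.card Γ))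
    rw [h] at h1
    simp at h1
    exact hr.one_lt.ne' h1
  rcases (inferInstance : ((MonoidHom.transferSylow P hNC).ker).Normal).eq_bot_or_eq_top with h | h
  · rw [h] at hcompl
    exact hPne (Subgroup.isComplement'_bot_left.mp hcompl)
  · rw [h] at hcompl
    exact hPbot (Subgroup.isComplement'_top_left.mp hcompl)

end Pool.LatH472
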