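import Mathlib
import Pool.Agent.Helper472.LatDefs

set_option autoImplicit false

namespace Pool.LatH472

open Pointwise

open Set Filter Topology in
theorem T0_nhds (H : Type) [Group H] [TopologicalSpace H] [IsTopologicalGroup H]
    {W : Set H} (hWc : IsCompact W) (hWo : IsOpen W) : ∃ T ∈ 𝓝 (1 : H), W * T ⊆ W := by
  apply hWc.induction_on (p := fun S ↦ ∃ T ∈ 𝓝 (1 : H), S * T ⊆ W)
    ⟨Set.univ, by simp only [univ_mem, empty_mul, empty_subset, and_self]⟩
    (fun _ _ huv ⟨T, hT, mem⟩ ↦ ⟨T, hT, (mul_subset_mul_right huv).trans mem⟩)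
    fun U V ⟨T₁, hT₁, mem1⟩ ⟨T₂, hT₂, mem2⟩ ↦ ⟨T₁ ∩ T₂, inter_mem hT₁ hT₂, by
      rw [union_mul]
      exact union_subset (mul_subset_mul_left inter_subset_left |>.trans mem1)
        (mul_subset_mul_left inter_subset_right |>.trans mem2) ⟩
  intro x memW
  have : (x, 1) ∈ (fun p : H × H ↦ p.1 * p.2) ⁻¹' W := by simp [memW]
  rcases isOpen_prod_iff.mp (continuous_mul.isOpen_preimage W <| hWo) x 1 this with
    ⟨U, V, Uopen, Vopen, xmemU, onememV, prodsub⟩
  have h6 : U * V ⊆ W := mul_subset_iff.mpr (fun _ hx _ hy ↦ prodsub (mk_mem_prod hx hy))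
  exact ⟨U ∩ W, ⟨U, Uopen.mem_nhds xmemU, W, fun _ a ↦ a, rfl⟩,
    V, IsOpen.mem_nhds Vopen onememV, fun _ a ↦ h6 ((mul_subset_mul_right inter_subset_left) a)⟩

open Set Filter Topology in
theorem T0 : StT0 := by
  intro H _ _ _ _ _ _
  obtain ⟨C, hC, hCn⟩ := exists_compact_mem_nhds (1:H)
  obtain ⟨W, hW, h1W, hWC⟩ := (loc_compact_Haus_tot_disc_of_zero_dim.mem_nhds_iff).1 hCn
  have hWcl : IsClopen W := hW
  have hWc : IsCompact W := hC.of_isClosed_subset hWcl.1 hWC
  obtain ⟨T, hT, hWT⟩ := T0_nhds H hWc hWcl.2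
  let U : Subgroup H :=
    { carrier := {g | (∀ w ∈ W, w * g ∈ W) ∧ (∀ w ∈ W, w * g⁻¹ ∈ W)}
      mul_mem' := by
        intro a b ha hb
        refine ⟨fun w hw => ?_, fun w hw => ?_⟩
        · rw [← mul_assoc]
          exact hb.1 _ (ha.1 _ hw)
        · rw [mul_inv_rev, ← mul_assoc]
          exact ha.2 _ (hb.2 _ hw)
      one_mem' := by
        refine ⟨fun w hw => ?_, fun w hw => ?_⟩
        · simpa using hw
        · simpa using hw
      inv_mem' := by
        intro a ha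
        refine ⟨fun w hw => ha.2 w hw, fun w hw => ?_⟩
        rw [inv_inv]
        exact ha.1 w hw }
  have hUo : IsOpen (U : Set H) := by
    apply U.isOpen_of_mem_nhds (g := 1)
    have hT' : T⁻¹ ∈ 𝓝 (1:H) := by
      have := inv_mem_nhds_one H hT
      exact this
    filter_upwards [hT, hT'] with g hg hg'
    refine ⟨fun w hw => hWT (Set.mul_mem_mul hw hg), fun w hw => hWT (Set.mul_mem_mul hw hg')⟩
  refine ⟨U, hUo, ?_⟩
  refine hWc.of_isClosed_subset (U.isClosed_of_isOpen hUo) ?_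
  intro g hg
  have := hg.1 1 h1W
  simpa using this

end Pool.LatH472
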