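import Mathlib
import Pool.Agent.Helper472.LatDefs

set_option autoImplicit false

namespace Pool.LatH472

open Pointwise

theorem T10a : StT10a := by
  intro H _ _ _ _ K _ _ _ _ _ U hU hcount hbasis i hi hdense f hf
  have hcl : ∀ c : H ⧸ U, IsClosed {k : K | k⁻¹ * i f * k ∈
      (fun u : H => i (c.out * u)) '' (U : Set H)} := by
    intro c
    have h1 : IsCompact ((fun u : H => i (c.out * u)) '' (U : Set H)) :=
      hU.image (hi.comp (continuous_const.mul continuous_id))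
    have h2 : Continuous (fun k : K => k⁻¹ * i f * k) := by fun_prop
    exact h1.isClosed.preimage h2
  have hcov : ⋃ c : H ⧸ U, {k : K | k⁻¹ * i f * k ∈
      (fun u : H => i (c.out * u)) '' (U : Set H)} = Set.univ := by
    rw [Set.eq_univ_iff_forall]
    intro k
    obtain ⟨h, hh⟩ := hf k
    rw [Set.mem_iUnion]
    refine ⟨(h : H ⧸ U), ?_⟩
    obtain ⟨u, hu⟩ := QuotientGroup.mk_out_eq_mul U h
    refine ⟨(u : H)⁻¹, U.inv_mem u.2, ?_⟩
    show i ((h : H ⧸ U).out * (u : H)⁻¹) = k⁻¹ * i f * k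
    rw [hu, mul_inv_cancel_right, hh]
  obtain ⟨c, hc⟩ := nonempty_interior_of_iUnion_of_closed hcl hcov
  obtain ⟨h0, hh0⟩ := hdense.exists_mem_open isOpen_interior hc
  have hO : {x : K | i h0 * x ∈ interior {k : K | k⁻¹ * i f * k ∈
      (fun u : H => i (c.out * u)) '' (U : Set H)}} ∈ nhds (1 : K) := by
    have h1 : IsOpen {x : K | i h0 * x ∈ interior {k : K | k⁻¹ * i f * k ∈
      (fun u : H => i (c.out * u)) '' (U : Set H)}} :=
      isOpen_interior.preimage (continuous_const.mul continuous_id)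
    refine h1.mem_nhds ?_
    rw [Set.mem_ofPred_eq, mul_one]
    exact hh0
  obtain ⟨M, hMn, hMo, hM⟩ := hbasis _ hO
  have hkey : ∀ m ∈ M, ∃ u ∈ U, i (c.out * u) = (i h0 * m)⁻¹ * i f * (i h0 * m) := by
    intro m hm
    obtain ⟨u, hu, h1⟩ := interior_subset (hM hm)
    exact ⟨u, hu, h1⟩
  obtain ⟨u0, hu0, hu0'⟩ := hkey 1 M.one_mem
  refine ⟨M, U.map (MulAut.conj h0).toMonoidHom, hMn, hMo, ?_, ?_⟩
  · have h1 : ((U.map (MulAut.conj h0).toMonoidHom : Subgroup H) : Set H) =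
        (fun x : H => h0 * x * h0⁻¹) '' (U : Set H) := by
      ext x
      simp
    rw [h1]
    exact hU.image (by fun_prop)
  · intro m hm
    have hm' : (i h0)⁻¹ * m * i h0 ∈ M := by
      have := hMn.conj_mem m hm (i h0)⁻¹
      rwa [inv_inv] at this
    obtain ⟨u, hu, hu'⟩ := hkey _ hm'
    refine ⟨h0 * (u0⁻¹ * u) * h0⁻¹, ?_, ?_⟩
    · rw [Subgroup.mem_map]
      exact ⟨u0⁻¹ * u, U.mul_mem (U.inv_mem hu0) hu, by simp⟩
    · have h1 : i (u0⁻¹ * u) = (i (c.out * u0))⁻¹ * i (c.out * u) := by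
        rw [← map_inv, ← map_mul]
        congr 1
        group
      rw [map_mul, map_mul, h1, hu0', hu', map_inv]
      group


end Pool.LatH472
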