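import Mathlib
import Pool.Agent.Helper472.LatDefs

set_option autoImplicit false

namespace Pool.LatH472

open Pointwise

theorem T10c : StT10c := by
  intro H _ _ _ U hU F hD
  haveI hc : Countable (Subgroup.closure (↑F : Set H)) := by
    have : Set.Countable ((Subgroup.closure (↑F : Set H) : Subgroup H) : Set H) := by
      rw [FreeGroup.closure_eq_range, MonoidHom.coe_range]
      exact Set.countable_range _
    exact this.to_subtype
  have hs : Function.Surjective
      (fun d : Subgroup.closure (↑F : Set H) => (QuotientGroup.mk (d : H) : H ⧸ U)) := by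
    intro q
    obtain ⟨h, rfl⟩ := QuotientGroup.mk_surjective q
    have ho : IsOpen ((fun x : H => h⁻¹ * x) ⁻¹' (U : Set H)) :=
      hU.preimage (continuous_const.mul continuous_id)
    obtain ⟨x, hx1, hx2⟩ := hD.inter_open_nonempty _ ho ⟨h, by simp [U.one_mem]⟩
    refine ⟨⟨x, hx2⟩, ?_⟩
    symm
    exact QuotientGroup.eq.2 hx1
  exact hs.countable

end Pool.LatH472
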