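import Mathlib
import Pool.Agent.Helper472.LatDefs

set_option autoImplicit false

namespace Pool.LatH472

open Pointwise

theorem T10d (hL1 : StL1) (hL2 : StL2) (hL3 : StL3) : StT10d := by
  intro H _ _ _ _ _ hE B hBn hBc hfi
  have hBcl : IsClosed (B : Set H) := hBc.isClosed
  haveI hT3 : T3Space (H ⧸ B) := by
    haveI := hBcl
    infer_instance
  haveI hLC : LocallyCompactSpace (H ⧸ B) := inferInstance
  have hEQ : ElemCompact (H ⧸ B) := by
    intro q
    obtain ⟨g, rfl⟩ := QuotientGroup.mk'_surjective B q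
    obtain ⟨K, hK, hg⟩ := hE g
    refine ⟨K.map (QuotientGroup.mk' B), ?_, Subgroup.mem_map_of_mem _ hg⟩
    rw [Subgroup.coe_map]
    exact hK.image continuous_quot_mk
  have hCcl : IsClosed ((Subgroup.center (H ⧸ B) : Subgroup (H ⧸ B)) : Set (H ⧸ B)) := by
    have : ((Subgroup.center (H ⧸ B) : Subgroup (H ⧸ B)) : Set (H ⧸ B))
        = ⋂ g : H ⧸ B, {z | g * z = z * g} := by
      ext z
      simp [Subgroup.mem_center_iff]
    rw [this]
    exact isClosed_iInter fun g => isClosed_eq (by fun_prop) (by fun_prop)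
  have hCemb := hCcl.isClosedEmbedding_subtypeVal
  have hEC : ElemCompact ↥(Subgroup.center (H ⧸ B)) := by
    intro c
    obtain ⟨K, hK, hg⟩ := hEQ c.1
    refine ⟨K.subgroupOf (Subgroup.center (H ⧸ B)), ?_, ?_⟩
    · exact hCemb.isCompact_preimage hK
    · exact Subgroup.mem_subgroupOf.2 hg
  have hIC : IndCompact ↥(Subgroup.center (H ⧸ B)) := by
    let inst : CommGroup ↥(Subgroup.center (H ⧸ B)) :=
      { (Subgroup.toGroup (Subgroup.center (H ⧸ B))) with
        mul_comm := fun a b => Subtype.ext ((Subgroup.mem_center_iff.1 a.2 b.1).symm) }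
    exact @hL3 ↥(Subgroup.center (H ⧸ B)) inst _ _ _ hEC
  haveI : LocallyCompactSpace ↥(Subgroup.center (H ⧸ B)) := hCemb.locallyCompactSpace
  have hKC : ∀ (Q : Set ↥(Subgroup.center (H ⧸ B))), IsCompact Q →
      ∃ K : Subgroup ↥(Subgroup.center (H ⧸ B)), IsCompact (K : Set ↥(Subgroup.center (H ⧸ B))) ∧
        Q ⊆ (K : Set ↥(Subgroup.center (H ⧸ B))) := by
    apply hL1 ↥(Subgroup.center (H ⧸ B)) ⊤
    · simp [dense_univ]
    · intro F _
      exact hIC F
  have hIQ : IndCompact (H ⧸ B) := by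
    apply hL2 (H ⧸ B) (Subgroup.center (H ⧸ B)) hCcl
    · intro S hS hSC
      obtain ⟨K, hK, hSK⟩ := hKC (Subtype.val ⁻¹' S) (hCemb.isCompact_preimage hS)
      refine ⟨K.map (Subgroup.center (H ⧸ B)).subtype, ?_, ?_⟩
      · rw [Subgroup.coe_map]
        exact hK.image continuous_subtype_val
      · intro s hs
        exact ⟨⟨s, hSC hs⟩, hSK hs, rfl⟩
    · intro F
      haveI : Finite ((H ⧸ B) ⧸ Subgroup.center (H ⧸ B)) := Subgroup.finite_quotient_of_finiteIndex
      refine ⟨⊤, ?_, by simp⟩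
      exact (Set.toFinite _).isCompact
  apply hL2 H B hBcl
  · intro S hS hSB
    exact ⟨B, hBc, hSB⟩
  · exact hIQ

end Pool.LatH472
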