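import Mathlib
import Pool.Agent.Helper472.LatDefs

set_option autoImplicit false

namespace Pool.LatH472

open Pointwise

theorem T11a : StT11a := by
  intro H _ _ _ _ _ _ hEC
  classical
  by_contra hnd
  set Dbar : Subgroup H := (Subgroup.closure {h : H | Loc h}).topologicalClosure with hDbar
  have hDcl : IsClosed (Dbar : Set H) := Subgroup.isClosed_topologicalClosure _
  -- an element outside of Dbar
  have hex : ∃ f : H, f ∉ Dbar := by
    by_contra hall
    push Not at hall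
    apply hnd
    intro x
    have := hall x
    rw [hDbar] at this
    exact this
  obtain ⟨f, hf⟩ := hex
  set Q : Subgroup H := Zc f with hQ
  have hQcl : IsClosed (Q : Set H) := Subgroup.isClosed_topologicalClosure _
  have hfQ : f ∈ Q := Subgroup.le_topologicalClosure _ (Subgroup.mem_zpowers f)
  have hQc : IsCompact (Q : Set H) := by
    obtain ⟨K, hK, hfK⟩ := hEC f
    refine hK.of_isClosed_subset hQcl ?_
    have h1 : Q ≤ K := Subgroup.topologicalClosure_minimal _
      (by rw [Subgroup.zpowers_le]; exact hfK) hK.isClosed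
    exact h1
  have : CompactSpace Q := isCompact_iff_compactSpace.mp hQc
  -- open normal subgroup of Q
  set g : Q := ⟨f, hfQ⟩ with hg
  have hWo : IsOpen {n : Q | ((g * n⁻¹ : Q) : H) ∉ Dbar} := by
    have hcont : Continuous (fun n : Q => ((g * n⁻¹ : Q) : H)) := by fun_prop
    exact hDcl.isOpen_compl.preimage hcont
  obtain ⟨N, hN⟩ := ProfiniteGrp.exist_openNormalSubgroup_sub_open_nhds_of_one (G := Q)
    (U := {n : Q | ((g * n⁻¹ : Q) : H) ∉ Dbar}) hWo (by simpa using hf)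
  set O' : Subgroup Q := (Dbar.subgroupOf Q) ⊔ N.toSubgroup with hO'
  have hO'open : IsOpen (O' : Set Q) := Subgroup.isOpen_mono (le_sup_right) N.isOpen'
  have hfO' : g ∉ O' := by
    intro hmem
    rw [hO', Subgroup.mem_sup_of_normal_right] at hmem
    obtain ⟨d, hd, n, hn, hdn⟩ := hmem
    have h1 := hN hn
    apply h1
    have h2 : g * n⁻¹ = d := by rw [← hdn]; group
    rw [h2]
    exact hd
  have hO'cl : IsClosed (O' : Set Q) := Subgroup.isClosed_of_isOpen O' hO'open
  obtain ⟨V, hVo, hV⟩ := isOpen_induced_iff.mp hO'open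
  have hVmem : ∀ x (hx : x ∈ Q), x ∈ V ↔ (⟨x, hx⟩ : Q) ∈ O' := by
    intro x hx
    have : (⟨x, hx⟩ : Q) ∈ (Subtype.val ⁻¹' V : Set Q) ↔ (⟨x, hx⟩ : Q) ∈ (O' : Set Q) := by rw [hV]
    simpa using this
  set O2 : Subgroup H := O'.map Q.subtype with hO2
  have hO2cl : IsClosed (O2 : Set H) := by
    have h1 := hQcl.isClosedEmbedding_subtypeVal.isClosedMap _ hO'cl
    rw [hO2, Subgroup.coe_map]
    exact h1
  have hO2mem : ∀ x, x ∈ O2 ↔ x ∈ Q ∧ x ∈ V := by
    intro x
    rw [hO2, Subgroup.mem_map]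
    constructor
    · rintro ⟨y, hy, rfl⟩
      exact ⟨y.2, (hVmem y y.2).2 hy⟩
    · rintro ⟨hx, hxV⟩
      exact ⟨⟨x, hx⟩, (hVmem x hx).1 hxV, rfl⟩
  -- the family
  set 𝒮 : Set (Set H) := {s | ∃ E : Subgroup H, (E : Set H) = s ∧ IsClosed s ∧ E ≤ Q ∧
    (s ∩ Vᶜ).Nonempty} with h𝒮
  have hQS : (Q : Set H) ∈ 𝒮 := by
    refine ⟨Q, rfl, hQcl, le_rfl, f, hfQ, ?_⟩
    intro hfV
    exact hfO' ((hVmem f hfQ).1 hfV)
  obtain ⟨m, -, hm⟩ := zorn_superset_nonempty 𝒮 (by
    intro c hc hchain hne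
    refine ⟨⋂₀ c, ?_, fun s hs => Set.sInter_subset_of_mem hs⟩
    let E : Subgroup H := sInf {E : Subgroup H | (E : Set H) ∈ c}
    have hE : (E : Set H) = ⋂₀ c := by
      ext x
      simp only [E, Subgroup.coe_sInf, Set.mem_iInter, Set.mem_sInter]
      constructor
      · intro h s hs
        obtain ⟨E', hE', -⟩ := hc hs
        have := h E' (by show (E' : Set H) ∈ c; rw [hE']; exact hs)
        rw [← hE']; exact this
      · intro h E' hE'
        exact h _ hE'
    refine ⟨E, hE, isClosed_sInter (fun s hs => (hc hs).choose_spec.2.1), ?_, ?_⟩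
    · obtain ⟨s, hs⟩ := hne
      obtain ⟨E', hE', -, hE'Q, -⟩ := hc hs
      refine le_trans (sInf_le ?_) hE'Q
      show (E' : Set H) ∈ c
      rw [hE']; exact hs
    · -- compactness
      have hne2 : Nonempty ((fun s : Set H => s ∩ Vᶜ) '' c) := (hne.image _).to_subtype
      have hcl : ∀ s ∈ c, IsClosed (s ∩ Vᶜ) := fun s hs =>
        (hc hs).choose_spec.2.1.inter hVo.isClosed_compl
      have := IsCompact.nonempty_sInter_of_directed_nonempty_isCompact_isClosed
        (S := (fun s : Set H => s ∩ Vᶜ) '' c) ?_ ?_ ?_ ?_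
      · obtain ⟨x, hx⟩ := this
        rw [Set.mem_sInter] at hx
        have hx' : ∀ s ∈ c, x ∈ s ∩ Vᶜ := fun s hs => hx _ ⟨s, hs, rfl⟩
        obtain ⟨s0, hs0⟩ := hne
        exact ⟨x, Set.mem_sInter.mpr fun s hs => (hx' s hs).1, (hx' s0 hs0).2⟩
      · rintro _ ⟨s, hs, rfl⟩ _ ⟨t, ht, rfl⟩
        rcases hchain.total hs ht with h | h
        · exact ⟨_, ⟨s, hs, rfl⟩, subset_rfl, Set.inter_subset_inter_left _ h⟩
        · exact ⟨_, ⟨t, ht, rfl⟩, Set.inter_subset_inter_left _ h, subset_rfl⟩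
      · rintro _ ⟨s, hs, rfl⟩
        exact (hc hs).choose_spec.2.2.2
      · rintro _ ⟨s, hs, rfl⟩
        obtain ⟨E', hE', -, hE'Q, -⟩ := hc hs
        refine hQc.of_isClosed_subset (hcl s hs) ?_
        intro x hx
        have : x ∈ (E' : Set H) := by rw [hE']; exact hx.1
        exact hE'Q this
      · rintro _ ⟨s, hs, rfl⟩
        exact hcl s hs) (Q : Set H) hQS
  obtain ⟨⟨E, hEm, hEcl, hEQ, y, hyE, hyV⟩, hmin⟩ := hm
  subst hEm
  have hZcl : IsClosed ((Zc y : Subgroup H) : Set H) := Subgroup.isClosed_topologicalClosure _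
  have hyZ : y ∈ Zc y := Subgroup.le_topologicalClosure _ (Subgroup.mem_zpowers y)
  have hZE : Zc y ≤ E := Subgroup.topologicalClosure_minimal _
      (by rw [Subgroup.zpowers_le]; exact hyE) hEcl
  have hEZ : E ≤ Zc y := by
    have h1 : ((Zc y : Subgroup H) : Set H) ∈ 𝒮 :=
      ⟨Zc y, rfl, hZcl, hZE.trans hEQ, y, hyZ, hyV⟩
    exact hmin h1 hZE
  have hEeq : Zc y = E := le_antisymm hZE hEZ
  have hloc : Loc y := by
    refine ⟨E ⊓ O2, ?_, ?_, ?_⟩
    · rw [Subgroup.coe_inf]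
      exact hEcl.inter hO2cl
    · rw [hEeq]
      refine lt_of_le_of_ne inf_le_left ?_
      intro heq
      have : y ∈ E ⊓ O2 := by rw [heq]; exact hyE
      exact hyV ((hO2mem y).1 this.2).2
    · intro S hScl hS
      rw [hEeq] at hS
      refine le_inf hS.le ?_
      intro x hx
      rw [hO2mem]
      refine ⟨hEQ (hS.le hx), ?_⟩
      by_contra hxV
      have h1 : (S : Set H) ∈ 𝒮 := ⟨S, rfl, hScl, hS.le.trans hEQ, x, hx, hxV⟩
      have h2 : (E : Set H) ⊆ S := hmin h1 hS.le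
      exact absurd (le_antisymm hS.le h2) hS.ne
  have hyD : y ∈ Dbar :=
    Subgroup.le_topologicalClosure _ (Subgroup.subset_closure hloc)
  have hyQ : y ∈ Q := hEQ hyE
  have : (⟨y, hyQ⟩ : Q) ∈ O' := by
    rw [hO']
    exact Subgroup.mem_sup_left hyD
  exact hyV ((hVmem y hyQ).2 this)

end Pool.LatH472
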