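import Mathlib
import Pool.Agent.Helper472.LatDefs

set_option autoImplicit false

namespace Pool.LatH472

open Pointwise

theorem T11b_fin {H : Type} [Group H] (S : Set H) (F : Finset H)
    (hF : (↑F : Set H) ⊆ (Subgroup.closure S : Set H)) :
    ∃ F' : Finset H, (↑F' : Set H) ⊆ S ∧
      (↑F : Set H) ⊆ (Subgroup.closure (↑F' : Set H) : Set H) := by
  classical
  have h1 : ∀ x ∈ Subgroup.closure S, ∃ T : Finset H, (↑T : Set H) ⊆ S ∧
      x ∈ Subgroup.closure (↑T : Set H) := by
    intro x hx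
    induction hx using Subgroup.closure_induction with
    | mem x hx =>
      refine ⟨{x}, by simpa using hx, ?_⟩
      apply Subgroup.subset_closure
      simp
    | one => exact ⟨∅, by simp, one_mem _⟩
    | mul x y _ _ ihx ihy =>
      obtain ⟨T1, h1, h2⟩ := ihx
      obtain ⟨T2, h3, h4⟩ := ihy
      refine ⟨T1 ∪ T2, ?_, ?_⟩
      · rw [Finset.coe_union]
        exact Set.union_subset h1 h3
      · rw [Finset.coe_union]
        exact mul_mem (Subgroup.closure_mono Set.subset_union_left h2)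
          (Subgroup.closure_mono Set.subset_union_right h4)
    | inv x _ ih =>
      obtain ⟨T, h1, h2⟩ := ih
      exact ⟨T, h1, inv_mem h2⟩
  choose T hT1 hT2 using h1
  refine ⟨F.attach.biUnion (fun x => T x.1 (hF x.2)), ?_, ?_⟩
  · intro y hy
    rw [Finset.mem_coe, Finset.mem_biUnion] at hy
    obtain ⟨x, _, hx⟩ := hy
    exact hT1 x.1 (hF x.2) hx
  · intro x hx
    refine Subgroup.closure_mono ?_ (hT2 x (hF hx))
    intro y hy
    rw [Finset.mem_coe, Finset.mem_biUnion]
    exact ⟨⟨x, hx⟩, Finset.mem_attach _ _, hy⟩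

theorem T11b_cl {H : Type} [Group H] [TopologicalSpace H] [IsTopologicalGroup H] (Y : Subgroup H)
    (S : Subgroup ↥Y) :
    S.topologicalClosure = (S.map Y.subtype).topologicalClosure.comap Y.subtype := by
  apply SetLike.ext'
  rw [Subgroup.topologicalClosure_coe, Subgroup.coe_comap, Subgroup.topologicalClosure_coe,
    Subgroup.coe_map]
  exact Topology.IsInducing.subtypeVal.closure_eq_preimage_closure_image _

theorem T11b_Zc {H : Type} [Group H] [TopologicalSpace H] [IsTopologicalGroup H] (Y : Subgroup H)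
    (f : H) (hf : f ∈ Y) : Zc (⟨f, hf⟩ : ↥Y) = (Zc f).comap Y.subtype := by
  show (Subgroup.zpowers (⟨f, hf⟩ : ↥Y)).topologicalClosure = _
  rw [T11b_cl, MonoidHom.map_zpowers]
  rfl

theorem T11b_Loc {H : Type} [Group H] [TopologicalSpace H] [IsTopologicalGroup H] (Y : Subgroup H)
    (hY : IsClosed (Y : Set H)) (f : H) (hf : f ∈ Y) (hL : Loc f) : Loc (⟨f, hf⟩ : ↥Y) := by
  obtain ⟨O, hO, hO1, hO2⟩ := hL
  have hZY : Zc f ≤ Y := by
    apply Subgroup.topologicalClosure_minimal _ _ hY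
    rw [Subgroup.zpowers_le]
    exact hf
  have hOY : O ≤ Y := hO1.le.trans hZY
  have hmap : ∀ S : Subgroup H, S ≤ Y → (S.comap Y.subtype).map Y.subtype = S := by
    intro S hS
    apply Subgroup.map_comap_eq_self
    rw [Subgroup.range_subtype]
    exact hS
  have hce : Topology.IsClosedEmbedding (Y.subtype : ↥Y → H) := hY.isClosedEmbedding_subtypeVal
  refine ⟨O.comap Y.subtype, ?_, ?_, ?_⟩
  · rw [Subgroup.coe_comap]
    exact hO.preimage hce.continuous
  · rw [T11b_Zc]
    refine lt_of_le_of_ne (Subgroup.comap_mono hO1.le) ?_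
    intro h
    have h2 := congrArg (Subgroup.map Y.subtype) h
    rw [hmap O hOY, hmap _ hZY] at h2
    exact hO1.ne h2
  · intro S hS hS1
    rw [T11b_Zc] at hS1
    have h3 : IsClosed ((S.map Y.subtype : Subgroup H) : Set H) := by
      rw [Subgroup.coe_map]
      exact hce.isClosedMap _ hS
    have h4 : S.map Y.subtype < Zc f := by
      refine lt_of_le_of_ne ?_ ?_
      · have := Subgroup.map_mono (f := Y.subtype) hS1.le
        rwa [hmap _ hZY] at this
      · intro h
        apply hS1.ne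
        apply Subgroup.map_injective (Subgroup.subtype_injective Y)
        rw [h, hmap _ hZY]
    exact Subgroup.map_le_iff_le_comap.mp (hO2 _ h3 h4)

theorem T11b_gen {G H : Type} [Group G] [TopologicalSpace G] [IsTopologicalGroup G]
    [Group H] [TopologicalSpace H] [IsTopologicalGroup H] (φ : CL G ≃o CL H) (f : H)
    (hL : Loc f) : ∃ c : G, ∀ K : CL G, c ∈ K.1 → f ∈ (φ K).1 := by
  obtain ⟨O, hO, hO1, hO2⟩ := hL
  let Zf : CL H := ⟨Zc f, Subgroup.isClosed_topologicalClosure _⟩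
  let Of : CL H := ⟨O, hO⟩
  have hlt : φ.symm Of < φ.symm Zf := φ.symm.lt_iff_lt.mpr hO1
  have hlt' : (φ.symm Of).1 < (φ.symm Zf).1 := hlt
  obtain ⟨c, hc1, hc2⟩ := SetLike.exists_of_lt hlt'
  let C : CL G := ⟨Zc c, Subgroup.isClosed_topologicalClosure _⟩
  have hcC : c ∈ C.1 := Subgroup.le_topologicalClosure _ (Subgroup.mem_zpowers c)
  have hCE : C ≤ φ.symm Zf := by
    show Zc c ≤ (φ.symm Zf).1
    apply Subgroup.topologicalClosure_minimal _ _ (φ.symm Zf).2
    rw [Subgroup.zpowers_le]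
    exact hc1
  have hEq : C = φ.symm Zf := by
    by_contra hne
    have h1 : C < φ.symm Zf := lt_of_le_of_ne hCE hne
    have h2 : φ C < Zf := by
      have := φ.lt_iff_lt.mpr h1
      rwa [φ.apply_symm_apply] at this
    have h3 : φ C ≤ Of := hO2 (φ C).1 (φ C).2 h2
    have h4 : C ≤ φ.symm Of := φ.le_symm_apply.mpr h3
    exact hc2 (h4 hcC)
  refine ⟨c, fun K hK => ?_⟩
  have h5 : C ≤ K := by
    show Zc c ≤ K.1
    apply Subgroup.topologicalClosure_minimal _ _ K.2
    rw [Subgroup.zpowers_le]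
    exact hK
  rw [hEq] at h5
  have h6 : Zf ≤ φ K := φ.symm_apply_le.mp h5
  exact h6 (Subgroup.le_topologicalClosure _ (Subgroup.mem_zpowers f))

theorem T11b (hCC : StCC) (hRES : StRES) (hL1 : StL1) (hT11a : StT11a) : StTD := by
  classical
  intro G H _ _ _ _ _ _ _ _ _ _ _ _ φ hG hE F
  have hD := hT11a H hE
  refine hL1 H (Subgroup.closure {h : H | Loc h}) hD ?_ (↑F) F.finite_toSet.isCompact
  intro F0 hF0
  obtain ⟨F', hF'L, hF'⟩ := T11b_fin _ F0 hF0
  -- the compact subgroup of G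
  have hgen : ∀ f : H, ∃ c : G, Loc f → ∀ K : CL G, c ∈ K.1 → f ∈ (φ K).1 := by
    intro f
    by_cases hL : Loc f
    · obtain ⟨c, hc⟩ := T11b_gen φ f hL
      exact ⟨c, fun _ => hc⟩
    · exact ⟨1, fun h => absurd h hL⟩
  choose c hc using hgen
  obtain ⟨K, hK, hcK⟩ := hG (F'.image c)
  let KK : CL G := ⟨K, hK.isClosed⟩
  have hfK : ∀ f ∈ F', f ∈ (φ KK).1 := by
    intro f hf
    refine hc f (hF'L hf) KK ?_
    exact hcK (by
      rw [Finset.coe_image]
      exact ⟨f, hf, rfl⟩)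
  let XX : CL H := ⟨(Subgroup.closure (↑F' : Set H)).topologicalClosure,
    Subgroup.isClosed_topologicalClosure _⟩
  have hXK : XX ≤ φ KK := by
    show (Subgroup.closure (↑F' : Set H)).topologicalClosure ≤ (φ KK).1
    apply Subgroup.topologicalClosure_minimal _ _ (φ KK).2
    rw [Subgroup.closure_le]
    exact hfK
  let A : CL G := φ.symm XX
  have hAK : A ≤ KK := φ.symm_apply_le.mpr hXK
  have hAc : IsCompact (A.1 : Set G) := hK.of_isClosed_subset A.2 hAK
  haveI : CompactSpace ↥A.1 := isCompact_iff_compactSpace.mp hAc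
  obtain ⟨ψ, _⟩ := hRES G H φ A
  have hYX : (φ A).1 = XX.1 := by
    show (φ (φ.symm XX)).1 = XX.1
    rw [φ.apply_symm_apply]
  have hYc : IsClosed ((φ A).1 : Set H) := (φ A).2
  have hce : Topology.IsClosedEmbedding ((φ A).1.subtype : ↥(φ A).1 → H) :=
    hYc.isClosedEmbedding_subtypeVal
  haveI : LocallyCompactSpace ↥(φ A).1 := hce.locallyCompactSpace
  have hF'Y : ∀ f ∈ F', f ∈ (φ A).1 := by
    intro f hf
    rw [hYX]
    exact Subgroup.le_topologicalClosure _ (Subgroup.subset_closure hf)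
  have hEY : ElemCompact ↥(φ A).1 := by
    intro y
    obtain ⟨K0, hK0, hyK0⟩ := hE y.1
    refine ⟨K0.comap (φ A).1.subtype, ?_, hyK0⟩
    rw [Subgroup.coe_comap]
    exact hce.isCompact_preimage hK0
  let F'' : Finset ↥(φ A).1 := F'.attach.image (fun f => (⟨f.1, hF'Y f.1 f.2⟩ : ↥(φ A).1))
  have hF''m : ∀ f (hf : f ∈ F'), (⟨f, hF'Y f hf⟩ : ↥(φ A).1) ∈ F'' := by
    intro f hf
    exact Finset.mem_image.mpr ⟨⟨f, hf⟩, Finset.mem_attach _ _, rfl⟩
  have hF''L : ∀ f ∈ F'', Loc f := by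
    intro f hf
    obtain ⟨g, _, rfl⟩ := Finset.mem_image.mp hf
    exact T11b_Loc _ hYc g.1 _ (hF'L g.2)
  have himg : ((φ A).1.subtype : ↥(φ A).1 → H) '' (↑F'' : Set ↥(φ A).1) = (↑F' : Set H) := by
    ext y
    constructor
    · rintro ⟨z, hz, rfl⟩
      obtain ⟨g, _, rfl⟩ := Finset.mem_image.mp hz
      exact g.2
    · intro hy
      exact ⟨⟨y, hF'Y y hy⟩, hF''m y hy, rfl⟩
  have hmapc : (Subgroup.closure (↑F'' : Set ↥(φ A).1)).map (φ A).1.subtype =
      Subgroup.closure (↑F' : Set H) := by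
    rw [MonoidHom.map_closure, himg]
  have hdense : Dense ((Subgroup.closure (↑F'' : Set ↥(φ A).1) : Subgroup ↥(φ A).1) :
      Set ↥(φ A).1) := by
    have h1 := T11b_cl (φ A).1 (Subgroup.closure (↑F'' : Set ↥(φ A).1))
    rw [hmapc] at h1
    have h2 : (Subgroup.closure (↑F'' : Set ↥(φ A).1)).topologicalClosure = ⊤ := by
      rw [h1, eq_top_iff]
      intro y _
      rw [Subgroup.mem_comap]
      exact hYX.le y.2
    intro y
    have h4 : y ∈ (Subgroup.closure (↑F'' : Set ↥(φ A).1)).topologicalClosure := by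
      rw [h2]
      exact Subgroup.mem_top y
    exact h4
  have hInd : IndCompact ↥(φ A).1 := hCC ↥A.1 ↥(φ A).1 ψ hEY F'' hF''L hdense
  obtain ⟨K1, hK1, hFK1⟩ := hInd F''
  refine ⟨K1.map (φ A).1.subtype, ?_, ?_⟩
  · rw [Subgroup.coe_map]
    exact hK1.image hce.continuous
  · refine hF'.trans ?_
    have h5 : Subgroup.closure (↑F' : Set H) ≤ K1.map (φ A).1.subtype := by
      rw [← hmapc]
      apply Subgroup.map_mono
      rw [Subgroup.closure_le]
      exact hFK1
    exact h5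

end Pool.LatH472
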