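import Mathlib
import Pool.Agent.Helper472.LatDefs

set_option autoImplicit false

namespace Pool.LatH472

open Pointwise

theorem T8 (hFI : StFI) : StT8 := by
  intro G H _ _ _ _ _ _ _ _ _ _ φ hfi W hW
  haveI hfiW : (φ W).1.FiniteIndex := hfi W hW
  have hcl : IsClosed (((φ W).1.normalCore : Subgroup H) : Set H) := by
    have h1 : (((φ W).1.normalCore : Subgroup H) : Set H) =
        ⋂ b : H, (fun a : H => b * a * b⁻¹) ⁻¹' ((φ W).1 : Set H) := by
      ext a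
      simp only [Set.mem_iInter, Set.mem_preimage]
      exact Iff.rfl
    rw [h1]
    refine isClosed_iInter fun b => (φ W).2.preimage ?_
    fun_prop
  haveI hnf : ((φ W).1.normalCore).FiniteIndex := inferInstance
  haveI hq : Finite (H ⧸ (φ W).1.normalCore) := Subgroup.finite_quotient_of_finiteIndex
  haveI hfs : Finite {C : Subgroup H // (φ W).1.normalCore ≤ C} :=
    Finite.of_equiv _ (QuotientGroup.comapMk'OrderIso (φ W).1.normalCore).toEquiv
  refine ⟨⟨(φ W).1.normalCore, hcl⟩, Subgroup.normalCore_normal _, Subgroup.normalCore_le _, ?_⟩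
  refine hFI G _ (φ.symm ⟨(φ W).1.normalCore, hcl⟩).2 ?_
  let F : {B : Subgroup G // IsClosed (B : Set G) ∧ (φ.symm ⟨(φ W).1.normalCore, hcl⟩).1 ≤ B} →
      {C : Subgroup H // (φ W).1.normalCore ≤ C} := fun B =>
    ⟨(φ ⟨B.1, B.2.1⟩).1, by
      have h1 : φ.symm ⟨(φ W).1.normalCore, hcl⟩ ≤ ⟨B.1, B.2.1⟩ := B.2.2
      have h2 : (⟨(φ W).1.normalCore, hcl⟩ : CL H) ≤ φ ⟨B.1, B.2.1⟩ := (φ.symm_apply_le).1 h1
      exact h2⟩
  refine Finite.of_injective F ?_
  intro B B' h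
  have h1 : (φ ⟨B.1, B.2.1⟩).1 = (φ ⟨B'.1, B'.2.1⟩).1 :=
    congrArg (fun z : {C : Subgroup H // (φ W).1.normalCore ≤ C} => z.1) h
  have h2 : (⟨B.1, B.2.1⟩ : CL G) = ⟨B'.1, B'.2.1⟩ := φ.injective (Subtype.ext h1)
  exact Subtype.ext (congrArg (fun z : CL G => z.1) h2)

end Pool.LatH472
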