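import Mathlib
import Pool.Agent.Helper472.LatDefs

set_option autoImplicit false

namespace Pool.LatH472

open Pointwise

theorem T9f_le {H : Type} [Group H] [TopologicalSpace H] [IsTopologicalGroup H]
    (y : H) (S : Subgroup H) (hS : IsClosed (S : Set H)) (hy : y ∈ S) : Zc y ≤ S :=
  Subgroup.topologicalClosure_minimal _ (by rwa [Subgroup.zpowers_le]) hS

theorem T9f_self {H : Type} [Group H] [TopologicalSpace H] [IsTopologicalGroup H]
    (y : H) : y ∈ Zc y :=
  Subgroup.le_topologicalClosure _ (Subgroup.mem_zpowers y)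

theorem T9f_compact {H : Type} [Group H] [TopologicalSpace H] [IsTopologicalGroup H] [T2Space H]
    (hE : ElemCompact H) (y : H) : IsCompact ((Zc y : Subgroup H) : Set H) := by
  obtain ⟨Ky, hK, hy⟩ := hE y
  exact hK.of_isClosed_subset (Subgroup.isClosed_topologicalClosure _)
    (T9f_le y Ky hK.isClosed hy)

theorem T9f_map {H K : Type} [Group H] [TopologicalSpace H] [IsTopologicalGroup H] [T2Space H]
    [Group K] [TopologicalSpace K] [IsTopologicalGroup K] [T2Space K]
    (hE : ElemCompact H) (i : H →* K) (hi : Continuous i) (y : H) :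
    (Zc y).map i = Zc (i y) := by
  apply le_antisymm
  · rw [Subgroup.map_le_iff_le_comap]
    apply T9f_le
    · exact (Subgroup.isClosed_topologicalClosure (Subgroup.zpowers (i y))).preimage hi
    · exact T9f_self (i y)
  · apply T9f_le
    · rw [Subgroup.coe_map]
      exact ((T9f_compact hE y).image hi).isClosed
    · exact ⟨y, T9f_self y, rfl⟩

theorem T9f : StT9f := by
  intro H _ _ _ _ K _ _ _ _ _ I i M hE hG hHC hC f hf k
  obtain ⟨hic, hii, hid, hMN, hMm, hMb⟩ := hC
  obtain ⟨hGN, -, -, -⟩ := hG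
  obtain ⟨O, hOc, hOlt, hOmax⟩ := hf
  obtain ⟨z, hz⟩ : ∃ z, z = k⁻¹ * i f * k := ⟨_, rfl⟩
  rw [← hz]
  -- elements of the join
  have hsup : ∀ N ∈ I, ∀ x, x ∈ Subgroup.zpowers z ⊔ M N ↔
      ∃ a : ℤ, (z ^ a)⁻¹ * x ∈ M N := by
    intro N hN x
    have := (hMN N hN).1
    rw [← SetLike.mem_coe, Subgroup.mul_normal, Set.mem_mul]
    constructor
    · rintro ⟨u, hu, m, hm, rfl⟩
      obtain ⟨a, rfl⟩ := Subgroup.mem_zpowers_iff.1 hu
      refine ⟨a, ?_⟩
      rw [inv_mul_cancel_left]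
      exact hm
    · rintro ⟨a, ha⟩
      exact ⟨z ^ a, Subgroup.zpow_mem_zpowers z a, _, ha, mul_inv_cancel_left _ _⟩
  -- density
  have hdens : ∀ N ∈ I, ∀ w : K, ∃ h : H, w⁻¹ * i h ∈ M N := by
    intro N hN w
    have hop : IsOpen {x : K | w⁻¹ * x ∈ M N} :=
      (hMN N hN).2.1.preimage (continuous_const.mul continuous_id)
    obtain ⟨h, hh⟩ := hid.exists_mem_open hop ⟨w, by
      show w⁻¹ * w ∈ M N
      rw [inv_mul_cancel]
      exact one_mem _⟩
    exact ⟨h, hh⟩
  have hcomap : ∀ N ∈ I, ∀ h, h ∈ N ↔ i h ∈ M N := by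
    intro N hN h
    have := (hMN N hN).2.2
    rw [← Subgroup.mem_comap, this]
  -- the family Z
  have hZ := hHC (fun N => (Subgroup.zpowers z ⊔ M N).comap i) (by
      intro N hN h hh
      show i h ∈ Subgroup.zpowers z ⊔ M N
      exact (le_sup_right : M N ≤ _) ((hcomap N hN h).1 hh)) (by
      intro N hN N' hN' hle
      apply le_antisymm
      · apply sup_le
        · apply Subgroup.comap_mono
          exact sup_le_sup le_rfl (hMm N hN N' hN' hle)
        · intro h hh
          show i h ∈ Subgroup.zpowers z ⊔ M N'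
          exact (le_sup_right : M N' ≤ _) ((hcomap N' hN' h).1 hh)
      · intro h hh
        have hh' : i h ∈ Subgroup.zpowers z ⊔ M N' := hh
        rw [hsup N' hN'] at hh'
        obtain ⟨a, ha⟩ := hh'
        obtain ⟨h1, hh1⟩ := hdens N hN (z ^ a)
        have h2 : h1 ∈ (Subgroup.zpowers z ⊔ M N).comap i := by
          show i h1 ∈ Subgroup.zpowers z ⊔ M N
          rw [hsup N hN]
          exact ⟨a, hh1⟩
        have h3 : h1⁻¹ * h ∈ N' := by
          rw [hcomap N' hN', map_mul, map_inv]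
          have h4 : (i h1)⁻¹ * i h = ((z ^ a)⁻¹ * i h1)⁻¹ * ((z ^ a)⁻¹ * i h) := by group
          rw [h4]
          exact mul_mem (inv_mem (hMm N hN N' hN' hle hh1)) ha
        have h5 : h = h1 * (h1⁻¹ * h) := by group
        rw [h5]
        exact mul_mem ((le_sup_left : (Subgroup.zpowers z ⊔ M N).comap i ≤ _) h2)
          ((le_sup_right : N' ≤ _) h3))
  -- members of the intersection
  have hinf : ∀ y : H, y ∈ (⨅ N ∈ I, (Subgroup.zpowers z ⊔ M N).comap i) → i y ∈ Zc z := by
    intro y hy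
    rw [← SetLike.mem_coe, Subgroup.topologicalClosure_coe, mem_closure_iff_nhds]
    intro t ht
    have hct : Filter.Tendsto (fun x : K => i y * x⁻¹) (nhds 1) (nhds (i y)) := by
      have h1 : Continuous (fun x : K => i y * x⁻¹) := continuous_const.mul continuous_inv
      have h2 := h1.tendsto 1
      simpa using h2
    obtain ⟨N, hN, hNt⟩ := hMb _ (hct ht)
    have hyN : i y ∈ Subgroup.zpowers z ⊔ M N := by
      have h1 : y ∈ (Subgroup.zpowers z ⊔ M N).comap i := by
        rw [Subgroup.mem_iInf] at hy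
        have h2 := hy N
        rw [Subgroup.mem_iInf] at h2
        exact h2 hN
      exact h1
    rw [hsup N hN] at hyN
    obtain ⟨a, ha⟩ := hyN
    refine ⟨z ^ a, ?_, Subgroup.zpow_mem_zpowers z a⟩
    have h3 := hNt ha
    have h4 : i y * ((z ^ a)⁻¹ * i y)⁻¹ = z ^ a := by group
    have h5 : i y * ((z ^ a)⁻¹ * i y)⁻¹ ∈ t := h3
    rwa [h4] at h5
  -- the conjugated subgroup
  have hcont : Continuous (fun x : K => k * x * k⁻¹) :=
    (continuous_const.mul continuous_id).mul continuous_const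
  have hcont' : Continuous (fun x : K => k⁻¹ * x * k) :=
    (continuous_const.mul continuous_id).mul continuous_const
  have hOcomp : IsCompact (O : Set H) :=
    (T9f_compact hE f).of_isClosed_subset hOc hOlt.le
  have hOi : IsClosed ((O.map i : Subgroup K) : Set K) := by
    rw [Subgroup.coe_map]
    exact (hOcomp.image hic).isClosed
  obtain ⟨Ok, hOk⟩ : ∃ Ok : Subgroup K, Ok = (O.map i).comap (MulAut.conj k).toMonoidHom :=
    ⟨_, rfl⟩
  have hOkm : ∀ x, x ∈ Ok ↔ k * x * k⁻¹ ∈ O.map i := by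
    intro x
    rw [hOk]
    exact Iff.rfl
  have hOkc : IsClosed (Ok : Set K) := by
    have : (Ok : Set K) = (fun x : K => k * x * k⁻¹) ⁻¹' ((O.map i : Subgroup K) : Set K) := by
      ext x
      exact hOkm x
    rw [this]
    exact hOi.preimage hcont
  have hzk : k * z * k⁻¹ = i f := by rw [hz]; group
  have hzO : z ∉ Ok := by
    rw [hOkm, hzk]
    rintro ⟨g, hg, hgf⟩
    have : g = f := hii hgf
    rw [this] at hg
    exact absurd (T9f_le f O hOc hg) (not_le_of_gt hOlt)
  have hconjZ : ∀ x ∈ Zc z, k * x * k⁻¹ ∈ Zc (i f) := by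
    have h1 : Zc z ≤ (Zc (i f)).comap (MulAut.conj k).toMonoidHom := by
      apply T9f_le
      · exact (Subgroup.isClosed_topologicalClosure (Subgroup.zpowers (i f))).preimage hcont
      · show k * z * k⁻¹ ∈ Zc (i f)
        rw [hzk]
        exact T9f_self _
    exact fun x hx => h1 hx
  have hmax : ∀ S : Subgroup K, IsClosed (S : Set K) → S ≤ Zc z → z ∉ S → S ≤ Ok := by
    intro S hS hSz hzS
    have hTle : Zc f ⊓ ((S.comap (MulAut.conj k⁻¹).toMonoidHom).comap i) ≤ O := by
      apply hOmax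
      · have e1 : ((Zc f ⊓ ((S.comap (MulAut.conj k⁻¹).toMonoidHom).comap i) : Subgroup H) : Set H)
            = ((Zc f : Subgroup H) : Set H) ∩
              ((fun x : H => k⁻¹ * i x * k) ⁻¹' (S : Set K)) := by
          ext x
          show (x ∈ Zc f ∧ k⁻¹ * i x * (k⁻¹)⁻¹ ∈ S) ↔ (x ∈ Zc f ∧ k⁻¹ * i x * k ∈ S)
          rw [inv_inv]
        rw [e1]
        exact (Subgroup.isClosed_topologicalClosure _).inter
          (hS.preimage (hcont'.comp hic))
      · refine lt_of_le_of_ne inf_le_left (fun he => hzS ?_)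
        have h1 : f ∈ Zc f ⊓ ((S.comap (MulAut.conj k⁻¹).toMonoidHom).comap i) := by
          rw [he]
          exact T9f_self f
        have h2 : k⁻¹ * i f * (k⁻¹)⁻¹ ∈ S := h1.2
        rw [inv_inv, ← hz] at h2
        exact h2
    intro x hx
    rw [hOkm]
    have h1 := hconjZ x (hSz hx)
    rw [← T9f_map hE i hic f] at h1
    obtain ⟨g, hg, hgx⟩ := h1
    refine ⟨g, hTle ⟨hg, ?_⟩, hgx⟩
    show k⁻¹ * i g * (k⁻¹)⁻¹ ∈ S
    rw [hgx, inv_inv]
    have h2 : k⁻¹ * (k * x * k⁻¹) * k = x := by group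
    rw [h2]
    exact hx
  -- choice of N₀
  have hnb : {x : K | z * x ∉ Ok} ∈ nhds (1 : K) := by
    have hop : IsOpen {x : K | z * x ∉ Ok} :=
      hOkc.isOpen_compl.preimage (continuous_const.mul continuous_id)
    apply hop.mem_nhds
    show z * 1 ∉ Ok
    rw [mul_one]
    exact hzO
  obtain ⟨N₀, hN₀, hN₀s⟩ := hMb _ hnb
  obtain ⟨h0, hh0⟩ := hdens N₀ hN₀ z
  have hh0Z : h0 ∈ (Subgroup.zpowers z ⊔ M N₀).comap i := by
    show i h0 ∈ Subgroup.zpowers z ⊔ M N₀
    rw [hsup N₀ hN₀]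
    refine ⟨1, ?_⟩
    rw [zpow_one]
    exact hh0
  have hh0' := hZ N₀ hN₀ hh0Z
  have := (hGN N₀ hN₀).1
  rw [← SetLike.mem_coe, Subgroup.mul_normal, Set.mem_mul] at hh0'
  obtain ⟨y, hy, n, hn, hyn⟩ := hh0'
  have hyz : i y ∈ Zc z := hinf y hy
  have hyO : i y ∉ Ok := by
    have h1 : z⁻¹ * i y ∈ M N₀ := by
      have h2 : z⁻¹ * i y = (z⁻¹ * i h0) * (i n)⁻¹ := by
        rw [← hyn, map_mul]
        group
      rw [h2]
      exact mul_mem hh0 (inv_mem ((hcomap N₀ hN₀ n).1 hn))
    have h3 := hN₀s h1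
    have h4 : z * (z⁻¹ * i y) ∉ Ok := h3
    rwa [mul_inv_cancel_left] at h4
  have hzy : z ∈ Zc (i y) := by
    by_contra hcon
    have h1 := hmax (Zc (i y)) (Subgroup.isClosed_topologicalClosure _)
      (T9f_le (i y) (Zc z) (Subgroup.isClosed_topologicalClosure _) hyz) hcon
    exact hyO (h1 (T9f_self (i y)))
  rw [← T9f_map hE i hic y] at hzy
  obtain ⟨h, -, hh⟩ := hzy
  exact ⟨h, hh⟩

end Pool.LatH472
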