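import Mathlib
import Pool.Agent.Helper472.LatDefs

set_option autoImplicit false

namespace Pool.LatH472

open Pointwise

theorem T9k_aux (H : Type) [Group H] [TopologicalSpace H] [IsTopologicalGroup H]
    (I : Set (Subgroup H)) [hnorm : ∀ N : I, N.1.Normal]
    [hdisc : ∀ N : I, DiscreteTopology (H ⧸ N.1)] [hfin : ∀ N : I, Finite (H ⧸ N.1)]
    (h2 : ∀ N ∈ I, ∀ N' ∈ I, N ⊓ N' ∈ I) (h3 : (⊤ : Subgroup H) ∈ I)
    (h4 : ∀ h : H, h ≠ 1 → ∃ N ∈ I, h ∉ N) :
    ∃ (K : Type) (_ : Group K) (_ : TopologicalSpace K) (_ : IsTopologicalGroup K)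
      (_ : CompactSpace K) (_ : T2Space K) (i : H →* K) (M : Subgroup H → Subgroup K),
      Compl I i M := by
  classical
  let j : H →* (∀ N : I, H ⧸ N.1) := Pi.monoidHom (fun N => QuotientGroup.mk' N.1)
  have hj : Continuous j := continuous_pi (fun N => QuotientGroup.continuous_mk)
  let K : Subgroup (∀ N : I, H ⧸ N.1) := (j.range).topologicalClosure
  have hKcl : IsClosed (K : Set (∀ N : I, H ⧸ N.1)) := Subgroup.isClosed_topologicalClosure _
  haveI hcs : CompactSpace K := isCompact_iff_compactSpace.1 hKcl.isCompact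
  have hle : ∀ h : H, j h ∈ K := fun h => Subgroup.le_topologicalClosure _ ⟨h, rfl⟩
  let i : H →* K := j.codRestrict K hle
  let π : ∀ N : I, K →* (H ⧸ N.1) := fun N => (Pi.evalMonoidHom (fun N : I => H ⧸ N.1) N).comp K.subtype
  have hπ : ∀ N : I, Continuous (π N) := fun N => (continuous_apply N).comp continuous_subtype_val
  let M : Subgroup H → Subgroup K := fun N => if h : N ∈ I then (π ⟨N, h⟩).ker else ⊥
  have hM : ∀ N (h : N ∈ I), M N = (π ⟨N, h⟩).ker := fun N h => dif_pos h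
  have hmono : ∀ N ∈ I, ∀ N' ∈ I, N ≤ N' → M N ≤ M N' := by
    intro N hN N' hN' hle' k hk
    rw [hM N hN, MonoidHom.mem_ker] at hk
    rw [hM N' hN', MonoidHom.mem_ker]
    have hNn : N.Normal := hnorm ⟨N, hN⟩
    have hNn' : N'.Normal := hnorm ⟨N', hN'⟩
    haveI : DiscreteTopology (H ⧸ N) := hdisc ⟨N, hN⟩
    haveI : DiscreteTopology (H ⧸ N') := hdisc ⟨N', hN'⟩
    let f : (H ⧸ N) →* (H ⧸ N') := QuotientGroup.map N N' (MonoidHom.id H) hle'
    have hf : Continuous f := continuous_of_discreteTopology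
    let C : Set (∀ N : I, H ⧸ N.1) := {k | f (k ⟨N, hN⟩) = k ⟨N', hN'⟩}
    have hC : IsClosed C := isClosed_eq (hf.comp (continuous_apply _)) (continuous_apply _)
    have hsub : (K : Set (∀ N : I, H ⧸ N.1)) ⊆ C := by
      refine closure_minimal ?_ hC
      rintro _ ⟨h, rfl⟩
      rfl
    have h5 : f (k.1 ⟨N, hN⟩) = k.1 ⟨N', hN'⟩ := hsub k.2
    have h6 : k.1 ⟨N, hN⟩ = 1 := hk
    show k.1 ⟨N', hN'⟩ = 1
    rw [← h5, h6, map_one]
  refine ⟨K, inferInstance, inferInstance, inferInstance, hcs, inferInstance, i, M, ?_, ?_, ?_,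
    ?_, hmono, ?_⟩
  · exact hj.subtype_mk _
  · rw [injective_iff_map_eq_one]
    intro h hh
    by_contra hne
    obtain ⟨N, hN, hhN⟩ := h4 h hne
    have h5 : j h = 1 := congrArg Subtype.val hh
    have h6 : j h ⟨N, hN⟩ = 1 := by rw [h5]; rfl
    have hNn : N.Normal := hnorm ⟨N, hN⟩
    exact hhN ((QuotientGroup.eq_one_iff h).1 h6)
  · intro k
    rw [mem_closure_iff_nhds]
    intro O hO
    rw [nhds_subtype_eq_comap, Filter.mem_comap] at hO
    obtain ⟨O', hO', hOO⟩ := hO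
    have h5 : k.1 ∈ closure (j.range : Set (∀ N : I, H ⧸ N.1)) := k.2
    rw [mem_closure_iff_nhds] at h5
    obtain ⟨y, hy1, h, hy2⟩ := h5 O' hO'
    refine ⟨i h, hOO ?_, h, rfl⟩
    show j h ∈ O'
    rw [hy2]
    exact hy1
  · intro N hN
    rw [hM N hN]
    have hNn : N.Normal := hnorm ⟨N, hN⟩
    refine ⟨inferInstance, ?_, ?_⟩
    · have : (((π ⟨N, hN⟩).ker : Subgroup K) : Set K) = (π ⟨N, hN⟩) ⁻¹' {1} := by
        ext k; rfl
      rw [this]
      exact (isOpen_discrete _).preimage (hπ _)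
    · ext h
      rw [Subgroup.mem_comap, MonoidHom.mem_ker]
      exact QuotientGroup.eq_one_iff h
  · intro O hO
    rw [nhds_subtype_eq_comap, Filter.mem_comap] at hO
    obtain ⟨O', hO', hOO⟩ := hO
    have hO'' : O' ∈ nhds (1 : ∀ N : I, H ⧸ N.1) := hO'
    rw [nhds_pi, Filter.mem_pi] at hO''
    obtain ⟨J, hJ, t, ht, htO⟩ := hO''
    have hex : ∃ N ∈ I, ∀ N' ∈ J, N ≤ N'.1 := by
      clear htO
      induction J, hJ using Set.Finite.induction_on with
      | empty => exact ⟨⊤, h3, fun N' h => absurd h (Set.notMem_empty _)⟩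
      | @insert a s _ _ ih =>
        obtain ⟨N, hN, hN2⟩ := ih
        refine ⟨N ⊓ a.1, h2 N hN a.1 a.2, ?_⟩
        intro N' hN'
        rcases Set.mem_insert_iff.1 hN' with rfl | h
        · exact inf_le_right
        · exact inf_le_left.trans (hN2 N' h)
    obtain ⟨N, hN, hN2⟩ := hex
    refine ⟨N, hN, ?_⟩
    intro k hk
    refine hOO (htO ?_)
    intro N' hN'
    have h5 : k ∈ M N'.1 := hmono N hN N'.1 N'.2 (hN2 N' hN') hk
    rw [hM N'.1 N'.2, MonoidHom.mem_ker] at h5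
    have h6 : k.1 N' = 1 := h5
    show k.1 N' ∈ t N'
    rw [h6]
    exact mem_of_mem_nhds (ht N')

theorem T9k : StT9k := by
  intro H _ _ _ _ I hI
  obtain ⟨h1, h2, h3, h4⟩ := hI
  haveI hnorm : ∀ N : I, N.1.Normal := fun N => (h1 N.1 N.2).1
  haveI hfi : ∀ N : I, N.1.FiniteIndex := fun N => (h1 N.1 N.2).2.2
  haveI hdisc : ∀ N : I, DiscreteTopology (H ⧸ N.1) :=
    fun N => QuotientGroup.discreteTopology (h1 N.1 N.2).2.1
  haveI hfin : ∀ N : I, Finite (H ⧸ N.1) := fun N => inferInstance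
  exact T9k_aux H I h2 h3 h4

end Pool.LatH472
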