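import Mathlib
import Pool.Agent.Helper472.LatDefs

set_option autoImplicit false

namespace Pool.LatH472

open Pointwise

theorem T9l_sep (G : Type) [Group G] [TopologicalSpace G] [IsTopologicalGroup G]
    [CompactSpace G] [T2Space G] [TotallyDisconnectedSpace G] (c : G) (hc : c ≠ 1) :
    ∃ W : Subgroup G, IsOpen (W : Set G) ∧ c ∉ W := by
  obtain ⟨V, hV, h1V, hVc⟩ := compact_exists_isClopen_in_isOpen (x := (1 : G))
    (U := {c}ᶜ) isOpen_compl_singleton (by simpa using hc.symm)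
  obtain ⟨W, hW⟩ := IsTopologicalGroup.exist_openSubgroup_sub_clopen_nhds_of_one hV h1V
  exact ⟨W.toSubgroup, W.isOpen', fun h => hVc (hW h) rfl⟩

theorem T9l : StT9l := by
  intro G H _ _ _ _ _ _ _ _ _ _ φ hA hB
  set I : Set (Subgroup H) := {N : Subgroup H | N.Normal ∧ ∃ hc : IsClosed (N : Set H),
    IsOpen ((φ.symm ⟨N, hc⟩).1 : Set G)} with hI
  have hopen : ∀ N ∈ I, IsOpen (N : Set H) ∧ N.FiniteIndex := by
    rintro N ⟨hn, hc, ho⟩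
    have h1 := hA _ ho
    rw [φ.apply_symm_apply] at h1
    have h1' : N.FiniteIndex := h1
    exact ⟨Subgroup.isOpen_of_isClosed_of_finiteIndex N hc, h1'⟩
  have hinf : ∀ N ∈ I, ∀ N' ∈ I, N ⊓ N' ∈ I := by
    rintro N ⟨hn, hc, ho⟩ N' ⟨hn', hc', ho'⟩
    have hcc : IsClosed ((N ⊓ N' : Subgroup H) : Set H) := by
      rw [Subgroup.coe_inf]
      exact hc.inter hc'
    refine ⟨inferInstance, hcc, ?_⟩
    set a : CL G := φ.symm ⟨N, hc⟩ with ha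
    set b : CL G := φ.symm ⟨N', hc'⟩ with hb
    have hccl : IsClosed ((a.1 ⊓ b.1 : Subgroup G) : Set G) := by
      rw [Subgroup.coe_inf]
      exact a.2.inter b.2
    have hle : (⟨a.1 ⊓ b.1, hccl⟩ : CL G) ≤ φ.symm ⟨N ⊓ N', hcc⟩ := by
      rw [OrderIso.le_symm_apply]
      have h1 : φ ⟨a.1 ⊓ b.1, hccl⟩ ≤ ⟨N, hc⟩ := by
        rw [← OrderIso.le_symm_apply]
        exact (inf_le_left : a.1 ⊓ b.1 ≤ a.1)
      have h2 : φ ⟨a.1 ⊓ b.1, hccl⟩ ≤ ⟨N', hc'⟩ := by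
        rw [← OrderIso.le_symm_apply]
        exact (inf_le_right : a.1 ⊓ b.1 ≤ b.1)
      exact le_inf (show (φ ⟨a.1 ⊓ b.1, hccl⟩).1 ≤ N from h1)
        (show (φ ⟨a.1 ⊓ b.1, hccl⟩).1 ≤ N' from h2)
    refine Subgroup.isOpen_mono (H₁ := a.1 ⊓ b.1) hle ?_
    rw [Subgroup.coe_inf]
    exact ho.inter ho'
  have htop : (⊤ : Subgroup H) ∈ I := by
    have hct : IsClosed ((⊤ : Subgroup H) : Set H) := by
      rw [Subgroup.coe_top]
      exact isClosed_univ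
    have hct' : IsClosed ((⊤ : Subgroup G) : Set G) := by
      rw [Subgroup.coe_top]
      exact isClosed_univ
    refine ⟨inferInstance, hct, ?_⟩
    have hle : (⟨⊤, hct'⟩ : CL G) ≤ φ.symm ⟨⊤, hct⟩ := by
      rw [OrderIso.le_symm_apply]
      exact (le_top : (φ ⟨⊤, hct'⟩).1 ≤ ⊤)
    refine Subgroup.isOpen_mono (H₁ := ⊤) hle ?_
    rw [Subgroup.coe_top]
    exact isOpen_univ
  refine ⟨I, ⟨fun N hN => ⟨hN.1, (hopen N hN).1, (hopen N hN).2⟩, hinf, htop, ?_⟩, ?_⟩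
  · intro h hh
    have hZc : IsClosed ((Zc h : Subgroup H) : Set H) := Subgroup.isClosed_topologicalClosure _
    have hbot : IsClosed ((⊥ : Subgroup H) : Set H) := by
      rw [Subgroup.coe_bot]
      exact isClosed_singleton
    have hD : (φ.symm ⟨Zc h, hZc⟩).1 ≠ ⊥ := by
      intro h0
      have h1 : φ.symm ⟨Zc h, hZc⟩ ≤ φ.symm ⟨⊥, hbot⟩ := by
        change (φ.symm ⟨Zc h, hZc⟩).1 ≤ (φ.symm ⟨⊥, hbot⟩).1
        rw [h0]
        exact bot_le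
      have h2 : (⟨Zc h, hZc⟩ : CL H) ≤ ⟨⊥, hbot⟩ := φ.symm.le_iff_le.1 h1
      have h3 : h ∈ (⊥ : Subgroup H) :=
        h2 (Subgroup.le_topologicalClosure _ (Subgroup.mem_zpowers h))
      exact hh (Subgroup.mem_bot.1 h3)
    obtain ⟨c, hcD, hc1⟩ : ∃ c ∈ (φ.symm ⟨Zc h, hZc⟩).1, c ≠ 1 := by
      by_contra hcon
      push Not at hcon
      exact hD ((Subgroup.eq_bot_iff_forall _).2 hcon)
    obtain ⟨W, hWo, hcW⟩ := T9l_sep G c hc1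
    have hWc : IsClosed (W : Set G) := Subgroup.isClosed_of_isOpen W hWo
    obtain ⟨N, hN1, hN2, hN3⟩ := hB ⟨W, hWc⟩ hWo
    refine ⟨N.1, ⟨hN1, N.2, hN3⟩, fun hhN => hcW ?_⟩
    have h4 : (⟨Zc h, hZc⟩ : CL H) ≤ N :=
      Subgroup.topologicalClosure_minimal _ ((Subgroup.zpowers_le).2 hhN) N.2
    have h5 : φ.symm ⟨Zc h, hZc⟩ ≤ ⟨W, hWc⟩ := by
      rw [OrderIso.symm_apply_le]
      exact h4.trans hN2
    exact h5 hcD
  · intro Z hZ hZ' N₀ hN₀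
    have hZo : ∀ N : I, IsOpen ((Z N.1 : Subgroup H) : Set H) := fun N =>
      Subgroup.isOpen_mono (hZ N.1 N.2) (hopen N.1 N.2).1
    have hZcl : ∀ N : I, IsClosed ((Z N.1 : Subgroup H) : Set H) := fun N =>
      Subgroup.isClosed_of_isOpen _ (hZo N)
    let zc : I → CL H := fun N => ⟨Z N.1, hZcl N⟩
    have hmono : ∀ N N' : I, N.1 ≤ N'.1 → zc N ≤ zc N' := by
      intro N N' hNN
      change Z N.1 ≤ Z N'.1
      rw [← hZ' N.1 N.2 N'.1 N'.2 hNN]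
      exact le_sup_left
    have hPeq : (⨅ N ∈ I, Z N) = ⨅ N : I, Z N.1 := by
      rw [iInf_subtype']
    rw [hPeq]
    set P : Subgroup H := ⨅ N : I, Z N.1 with hP
    have hPc : IsClosed (P : Set H) := by
      rw [hP, Subgroup.coe_iInf]
      exact isClosed_iInter hZcl
    obtain ⟨hn0, hc0, ho0⟩ := hN₀
    have hN₀' : N₀ ∈ I := ⟨hn0, hc0, ho0⟩
    set E : CL G := φ.symm ⟨P, hPc⟩ with hE
    set F₀ : CL G := φ.symm ⟨N₀, hc0⟩ with hF₀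
    have hVo : IsOpen ((E.1 ⊔ F₀.1 : Subgroup G) : Set G) :=
      Subgroup.isOpen_mono le_sup_right ho0
    have hVc : IsClosed ((E.1 ⊔ F₀.1 : Subgroup G) : Set G) := Subgroup.isClosed_of_isOpen _ hVo
    have hinter : ((E.1 ⊔ F₀.1 : Subgroup G) : Set G)ᶜ ∩
        ⋂ N : I, ((φ.symm (zc N)).1 : Set G) = ∅ := by
      rw [Set.eq_empty_iff_forall_notMem]
      rintro g ⟨hg1, hg2⟩
      apply hg1
      have hQc : IsClosed ((⨅ N : I, (φ.symm (zc N)).1 : Subgroup G) : Set G) := by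
        rw [Subgroup.coe_iInf]
        exact isClosed_iInter fun N => (φ.symm (zc N)).2
      have hQE : (⟨⨅ N : I, (φ.symm (zc N)).1, hQc⟩ : CL G) ≤ E := by
        rw [hE, OrderIso.le_symm_apply]
        change (φ ⟨⨅ N : I, (φ.symm (zc N)).1, hQc⟩).1 ≤ P
        rw [hP]
        refine le_iInf fun N => ?_
        have h1 : φ ⟨⨅ N : I, (φ.symm (zc N)).1, hQc⟩ ≤ zc N := by
          rw [← OrderIso.le_symm_apply]
          exact iInf_le (fun N : I => (φ.symm (zc N)).1) N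
        exact h1
      have hgQ : g ∈ (⨅ N : I, (φ.symm (zc N)).1 : Subgroup G) := by
        rw [Subgroup.mem_iInf]
        intro N
        exact Set.mem_iInter.1 hg2 N
      exact (le_sup_left : E.1 ≤ E.1 ⊔ F₀.1) (hQE hgQ)
    have : Nonempty I := ⟨⟨N₀, hN₀'⟩⟩
    obtain ⟨N₁, hN₁⟩ := IsCompact.elim_directed_family_closed hVo.isClosed_compl.isCompact
      (fun N : I => ((φ.symm (zc N)).1 : Set G)) (fun N => (φ.symm (zc N)).2) hinter (by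
        intro N N'
        refine ⟨⟨N.1 ⊓ N'.1, hinf _ N.2 _ N'.2⟩, ?_, ?_⟩
        · exact φ.symm.monotone (hmono ⟨N.1 ⊓ N'.1, hinf _ N.2 _ N'.2⟩ N inf_le_left)
        · exact φ.symm.monotone (hmono ⟨N.1 ⊓ N'.1, hinf _ N.2 _ N'.2⟩ N' inf_le_right))
    have hN₁V : (φ.symm (zc N₁)).1 ≤ E.1 ⊔ F₀.1 := by
      intro g hg
      by_contra hcon
      have : g ∈ ((E.1 ⊔ F₀.1 : Subgroup G) : Set G)ᶜ ∩ ((φ.symm (zc N₁)).1 : Set G) :=
        ⟨hcon, hg⟩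
      rw [hN₁] at this
      exact this
    set N₂ : I := ⟨N₀ ⊓ N₁.1, hinf _ hN₀' _ N₁.2⟩ with hN₂
    have h1 : φ.symm (zc N₂) ≤ ⟨E.1 ⊔ F₀.1, hVc⟩ :=
      (φ.symm.monotone (hmono N₂ N₁ inf_le_right)).trans hN₁V
    have hRo : IsOpen ((P ⊔ N₀ : Subgroup H) : Set H) :=
      Subgroup.isOpen_mono le_sup_right (hopen N₀ hN₀').1
    have hRc : IsClosed ((P ⊔ N₀ : Subgroup H) : Set H) := Subgroup.isClosed_of_isOpen _ hRo
    have h2 : (⟨E.1 ⊔ F₀.1, hVc⟩ : CL G) ≤ φ.symm ⟨P ⊔ N₀, hRc⟩ := by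
      have h3 : E ≤ φ.symm ⟨P ⊔ N₀, hRc⟩ :=
        φ.symm.monotone (show (⟨P, hPc⟩ : CL H) ≤ ⟨P ⊔ N₀, hRc⟩ from
          (le_sup_left : P ≤ P ⊔ N₀))
      have h4 : F₀ ≤ φ.symm ⟨P ⊔ N₀, hRc⟩ :=
        φ.symm.monotone (show (⟨N₀, hc0⟩ : CL H) ≤ ⟨P ⊔ N₀, hRc⟩ from
          (le_sup_right : N₀ ≤ P ⊔ N₀))
      exact sup_le (show E.1 ≤ (φ.symm ⟨P ⊔ N₀, hRc⟩).1 from h3)
        (show F₀.1 ≤ (φ.symm ⟨P ⊔ N₀, hRc⟩).1 from h4)
    have h5 : zc N₂ ≤ ⟨P ⊔ N₀, hRc⟩ := φ.symm.le_iff_le.1 (h1.trans h2)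
    have h6 : Z (N₀ ⊓ N₁.1) ≤ P ⊔ N₀ := h5
    rw [← hZ' (N₀ ⊓ N₁.1) (hinf _ hN₀' _ N₁.2) N₀ hN₀' inf_le_left]
    exact sup_le h6 le_sup_right

end Pool.LatH472
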