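import Mathlib
import Pool.Agent.Helper472.LatDefs
import Pool.Agent.Helper472.LatMainA
import Pool.Agent.Helper472.Lat_T0
import Pool.Agent.Helper472.Lat_FI
import Pool.Agent.Helper472.Lat_RES
import Pool.Agent.Helper472.Lat_OPNx
import Pool.Agent.Helper472.Lat_FR1
import Pool.Agent.Helper472.Lat_FR2
import Pool.Agent.Helper472.Lat_SCHA
import Pool.Agent.Helper472.Lat_SCHB
import Pool.Agent.Helper472.Lat_SCH
import Pool.Agent.Helper472.Lat_PQ1
import Pool.Agent.Helper472.Lat_PQ2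
import Pool.Agent.Helper472.Lat_KL1
import Pool.Agent.Helper472.Lat_KL
import Pool.Agent.Helper472.Lat_ORE
import Pool.Agent.Helper472.Lat_INT
import Pool.Agent.Helper472.Lat_ABQ
import Pool.Agent.Helper472.Lat_AB
import Pool.Agent.Helper472.Lat_AFI
import Pool.Agent.Helper472.Lat_T8
import Pool.Agent.Helper472.Lat_T9l
import Pool.Agent.Helper472.Lat_T9k
import Pool.Agent.Helper472.Lat_T9f
import Pool.Agent.Helper472.Lat_T10a
import Pool.Agent.Helper472.Lat_T10b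
import Pool.Agent.Helper472.Lat_T10c
import Pool.Agent.Helper472.Lat_T10d
import Pool.Agent.Helper472.Lat_T11a
import Pool.Agent.Helper472.Lat_T11b

set_option autoImplicit false

namespace Pool.LatH472

theorem CC (hT0 : StT0) (hAFI : StAFI) (hT8 : StT8) (hT9l : StT9l) (hT9k : StT9k) (hT9f : StT9f)
    (hT10a : StT10a) (hT10b : StT10b) (hT10c : StT10c) (hT10d : StT10d) : StCC := by
  intro G H _ _ _ _ _ _ _ _ _ _ _ _ φ hE F hF hFd
  obtain ⟨U, hUo, hUc⟩ := hT0 H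
  have hA := hAFI G H φ hE
  obtain ⟨I, hI, hHC⟩ := hT9l G H φ hA (hT8 G H φ hA)
  obtain ⟨K, _, _, _, _, _, i, M, hC⟩ := hT9k H I hI
  have hc : Countable (H ⧸ U) := hT10c H U hUo F hFd
  have hb : ∀ O ∈ nhds (1 : K), ∃ M : Subgroup K, M.Normal ∧ IsOpen (M : Set K) ∧ (M : Set K) ⊆ O := by
    intro O hO
    obtain ⟨N, hN, hNO⟩ := hC.2.2.2.2.2 O hO
    exact ⟨M N, (hC.2.2.2.1 N hN).1, (hC.2.2.2.1 N hN).2.1, hNO⟩
  have h1 : ∀ f ∈ F, ∃ (M : Subgroup K) (B : Subgroup H), M.Normal ∧ IsOpen (M : Set K) ∧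
      IsCompact (B : Set H) ∧ ∀ m ∈ M, ∃ u ∈ B, i u = (i f)⁻¹ * m⁻¹ * i f * m := by
    intro f hf
    exact hT10a H K U hUc hc hb i hC.1 hC.2.2.1 f (hT9f H K I i M hE hI hHC hC f (hF f hf))
  obtain ⟨B, hB, hBc, hBf⟩ := hT10b H K i hC.1 hC.2.1 hC.2.2.1 F hFd h1
  exact hT10d H hE B hBc hBf

theorem B_OPN : StOPN := OPNx T0 FI FR1 FR2
theorem B_SCH : StSCH := SCH SCHA SCHB
theorem B_PQ : StPQ := by
  intro G H _ _ _ _ _ _ _ _ _ _ _ _ φ hE S _ hS p q hp hq hc hnc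
  exact PQ2 G H φ S hS p q hp hq hc (PQ1 FI G H φ hE S hS p q hp hq hc hnc)
theorem B_KL1 : StKL1 := KL1 FI B_SCH
theorem B_KL : StKL := KL B_OPN B_KL1 B_PQ
theorem B_AB : StAB := AB B_KL RES
theorem B_ABQ : StABQ := ABQ B_OPN RES ORE INT
theorem B_AFI : StAFI := AFI B_ABQ B_AB RES
theorem B_CC : StCC :=
  CC T0 B_AFI (T8 FI) T9l T9k T9f T10a T10b T10c (T10d A_L1 A_L2 A_L3)
/-- the totally disconnected case -/
theorem B_TD : StTD := T11b B_CC RES A_L1 T11a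

theorem B_TD' (G H : Type) [Group G] [TopologicalSpace G] [IsTopologicalGroup G]
    [LocallyCompactSpace G] [T2Space G] [TotallyDisconnectedSpace G]
    [Group H] [TopologicalSpace H] [IsTopologicalGroup H]
    [LocallyCompactSpace H] [T2Space H] [TotallyDisconnectedSpace H] (φ : CL G ≃o CL H)
    (hG : IndCompact G) : IndCompact H :=
  B_TD G H φ hG (A_elem_iso G H φ (A_elem G hG))

end Pool.LatH472
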