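import Mathlib
import Pool.Agent.Helper472.LatDefs2

set_option autoImplicit false

namespace Pool.LatH472

open Pointwise

theorem ABF (hL7 : StL7) : StABF := by
  intro K hG hT hTG hC hT2 hcomm A hA hfin
  letI : CommGroup K := { hG with mul_comm := hcomm }
  haveI hN : A.Normal := ⟨fun n hn g => by
    rw [hcomm g n, mul_assoc, mul_inv_cancel, mul_one]
    exact hn⟩
  haveI : IsClosed (A : Set K) := hA
  haveI : T3Space (K ⧸ A) := inferInstance
  haveI : T2Space (K ⧸ A) := inferInstance
  haveI : CompactSpace (K ⧸ A) := inferInstance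
  haveI : IsTopologicalGroup (K ⧸ A) := inferInstance
  have hF : Finite (CL (K ⧸ A)) := by
    refine Finite.of_injective (β := {B : Subgroup K // IsClosed (B : Set K) ∧ A ≤ B})
      (fun S => ⟨S.1.comap (QuotientGroup.mk' A), ?_, ?_⟩) ?_
    · rw [Subgroup.coe_comap]
      exact S.2.preimage continuous_quot_mk
    · exact QuotientGroup.le_comap_mk' A S.1
    · intro S T hST
      have h1 : S.1.comap (QuotientGroup.mk' A) = T.1.comap (QuotientGroup.mk' A) :=
        congrArg Subtype.val hST
      exact Subtype.ext (Subgroup.comap_injective (QuotientGroup.mk'_surjective A) h1)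
  haveI hQ : Finite (K ⧸ A) := hL7 (K ⧸ A) hF
  haveI : A.FiniteIndex := Subgroup.finiteIndex_of_finite_quotient
  exact Subgroup.isOpen_of_isClosed_of_finiteIndex A hA

end Pool.LatH472
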