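import Mathlib
import Pool.Agent.Helper472.LatDefs2

set_option autoImplicit false

namespace Pool.LatH472

open Pointwise

theorem FI0_sep (K : Type) [Group K] [TopologicalSpace K] [IsTopologicalGroup K]
    [CompactSpace K] [T2Space K] (A : Subgroup K) (hA0 : Subgroup.connectedComponentOfOne K ≤ A)
    (hA : IsClosed (A : Set K)) (g : K) (hg : g ∉ A) :
    ∃ B : Subgroup K, IsOpen (B : Set K) ∧ A ≤ B ∧ g ∉ B := by
  by_contra hcon
  push Not at hcon
  apply hg
  -- the sets
  let t : OpenNormalSubgroup K → Set K := fun N => {a : K | a ∈ A ∧ a⁻¹ * g ∈ (N : Subgroup K)}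
  have hne : ∀ N, (t N).Nonempty := by
    intro N
    have hN : (N : Subgroup K).Normal := N.isNormal'
    have hop : IsOpen ((A ⊔ (N : Subgroup K) : Subgroup K) : Set K) :=
      Subgroup.isOpen_mono (H₁ := (N : Subgroup K)) le_sup_right N.isOpen'
    have h1 := hcon (A ⊔ (N : Subgroup K)) hop le_sup_left
    have h2 : g ∈ ((A ⊔ (N : Subgroup K) : Subgroup K) : Set K) := h1
    rw [Subgroup.mul_normal] at h2
    obtain ⟨a, ha, n, hn, h⟩ := h2
    refine ⟨a, ha, ?_⟩
    rw [← h]
    simpa using hn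
  have hcl : ∀ N, IsClosed (t N) := by
    intro N
    have h1 : IsClosed ((N : Subgroup K) : Set K) := Subgroup.isClosed_of_isOpen _ N.isOpen'
    have h2 : t N = (A : Set K) ∩ (fun a : K => a⁻¹ * g) ⁻¹' ((N : Subgroup K) : Set K) := rfl
    rw [h2]
    exact hA.inter (h1.preimage (by fun_prop))
  have hdir : Directed (· ⊇ ·) t := by
    intro N N'
    refine ⟨N ⊓ N', ?_, ?_⟩
    · rintro a ⟨h1, h2⟩
      exact ⟨h1, h2.1⟩
    · rintro a ⟨h1, h2⟩
      exact ⟨h1, h2.2⟩
  haveI : Nonempty (OpenNormalSubgroup K) := by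
    obtain ⟨H, -⟩ := IsTopologicalGroup.exist_openNormalSubgroup_sub_clopen_nhds_of_one
      (G := K) (W := Set.univ) isClopen_univ (Set.mem_univ _)
    exact ⟨H⟩
  obtain ⟨a, ha⟩ := IsCompact.nonempty_iInter_of_directed_nonempty_isCompact_isClosed t hdir hne
    (fun N => (hcl N).isCompact) hcl
  rw [Set.mem_iInter] at ha
  have haA : a ∈ A := by
    obtain ⟨N⟩ := (inferInstance : Nonempty (OpenNormalSubgroup K))
    exact (ha N).1
  have hk : a⁻¹ * g ∈ Subgroup.connectedComponentOfOne K := by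
    show a⁻¹ * g ∈ connectedComponent (1 : K)
    rw [connectedComponent_eq_iInter_isClopen, Set.mem_iInter]
    rintro ⟨W, hW, h1⟩
    obtain ⟨H, hH⟩ := IsTopologicalGroup.exist_openNormalSubgroup_sub_clopen_nhds_of_one hW h1
    exact hH (ha H).2
  have := A.mul_mem haA (hA0 hk)
  simpa using this

theorem FI0 : StFI0 := by
  intro K _ _ _ _ _ A hA0 hA hfin
  let ι := {B : {B : Subgroup K // IsClosed (B : Set K) ∧ A ≤ B} // IsOpen (B.1 : Set K)}
  haveI : Finite ι := Subtype.finite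
  have h : (A : Set K) = ⋂ B : ι, (B.1.1 : Set K) := by
    ext g
    rw [Set.mem_iInter]
    constructor
    · intro hg B
      exact B.1.2.2 hg
    · intro hg
      by_contra hgA
      obtain ⟨B, hB, hAB, hgB⟩ := FI0_sep K A hA0 hA g hgA
      exact hgB (hg ⟨⟨B, Subgroup.isClosed_of_isOpen _ hB, hAB⟩, hB⟩)
  rw [h]
  exact isOpen_iInter_of_finite (fun B => B.2)

end Pool.LatH472
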