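import Mathlib
import Pool.Agent.Helper472.LatDefs2

set_option autoImplicit false

namespace Pool.LatH472

open Pointwise

theorem FR0 (hABF : StABF) (hFI0 : StFI0) : StFR := by
  intro G _ _ _ _ _ hGC W hW
  set E : Subgroup G := Subgroup.connectedComponentOfOne G with hE
  have hEc : IsClosed (E : Set G) := isClosed_connectedComponent
  have hEW : E ≤ W.1 := by
    haveI : CompactSpace ↥E := isCompact_iff_compactSpace.1 hEc.isCompact
    have hpre : IsPreconnected (E : Set G) := isPreconnected_connectedComponent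
    haveI : PreconnectedSpace ↥E := Subtype.preconnectedSpace hpre
    have hcomm : ∀ a b : ↥E, a * b = b * a := fun a b => Subtype.ext (hGC a.1 a.2 b.1 b.2)
    have hAc : IsClosed ((W.1.subgroupOf E : Subgroup ↥E) : Set ↥E) :=
      W.2.preimage continuous_subtype_val
    have hclm : ∀ B : Subgroup ↥E, IsClosed (B : Set ↥E) → IsClosed ((B.map E.subtype : Subgroup G) : Set G) := by
      intro B hB
      rw [Subgroup.coe_map]
      exact hEc.isClosedEmbedding_subtypeVal.isClosedMap _ hB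
    have hfin : Finite {B : Subgroup ↥E // IsClosed (B : Set ↥E) ∧ W.1.subgroupOf E ≤ B} := by
      haveI := hW ⟨E, hEc⟩
      refine Finite.of_injective (β := {B : CL G // W.1 ⊓ (⟨E, hEc⟩ : CL G).1 ≤ B.1 ∧ B ≤ ⟨E, hEc⟩})
        (fun B => ⟨⟨B.1.map E.subtype, hclm B.1 B.2.1⟩, ?_, ?_⟩) ?_
      · rintro x ⟨hx1, hx2⟩
        exact ⟨⟨x, hx2⟩, B.2.2 (Subgroup.mem_subgroupOf.2 hx1), rfl⟩
      · rintro x ⟨y, _, rfl⟩
        exact y.2
      · intro B1 B2 h
        have h2 : B1.1.map E.subtype = B2.1.map E.subtype :=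
          congrArg (fun z : {B : CL G // W.1 ⊓ (⟨E, hEc⟩ : CL G).1 ≤ B.1 ∧ B ≤ ⟨E, hEc⟩} => z.1.1) h
        exact Subtype.ext (Subgroup.map_injective E.subtype_injective h2)
    have hop := hABF ↥E hcomm (W.1.subgroupOf E) hAc hfin
    have hun : ((W.1.subgroupOf E : Subgroup ↥E) : Set ↥E) = Set.univ :=
      IsClopen.eq_univ ⟨hAc, hop⟩ ⟨1, Subgroup.one_mem _⟩
    intro x hx
    have h3 : (⟨x, hx⟩ : ↥E) ∈ ((W.1.subgroupOf E : Subgroup ↥E) : Set ↥E) := by rw [hun]; trivial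
    exact Subgroup.mem_subgroupOf.1 h3
  refine hFI0 G W.1 hEW W.2 ?_
  haveI := hW ⟨⊤, isClosed_univ⟩
  refine Finite.of_injective (β := {B : CL G // W.1 ⊓ (⟨⊤, isClosed_univ⟩ : CL G).1 ≤ B.1 ∧ B ≤ ⟨⊤, isClosed_univ⟩})
    (fun B => ⟨⟨B.1, B.2.1⟩, fun x hx => B.2.2 hx.1, fun x _ => trivial⟩) ?_
  intro B1 B2 h
  have h2 : B1.1 = B2.1 :=
    congrArg (fun z : {B : CL G // W.1 ⊓ (⟨⊤, isClosed_univ⟩ : CL G).1 ≤ B.1 ∧ B ≤ ⟨⊤, isClosed_univ⟩} => z.1.1) h
  exact Subtype.ext h2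

end Pool.LatH472
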