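import Mathlib
import Pool.Agent.Helper472.LatDefs2

set_option autoImplicit false

namespace Pool.LatH472

open Pointwise

theorem G1 (hTD : StTD) (hAFI : StAFIg) (hT8 : StT8g) (hCORE : StCORE) : StG1 := by
  intro G H _ _ _ _ _ _ _ _ _ _ _ φ hEC
  have hcomp1 : ∀ g ∈ Subgroup.connectedComponentOfOne G, g = 1 := by
    intro g hg
    have h : g ∈ connectedComponent (1 : G) := hg
    rw [connectedComponent_eq_singleton] at h
    exact h
  have hGC : GC G := by
    intro a ha b hb
    rw [hcomp1 a ha, hcomp1 b hb]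
  have h1 : ∀ W : CL G, IsOpen (W.1 : Set G) → (φ W).1.FiniteIndex :=
    fun W hW => hAFI G H hGC φ hEC W hW
  have h2 := hT8 G H hGC φ h1
  obtain ⟨E, hE, -, hsep⟩ := hCORE G H φ h1 h2
  have hEbot : ∀ K : CL G, E ≤ K := by
    intro K g hg
    have hg' : g ∈ Subgroup.connectedComponentOfOne G := by rw [← hE]; exact hg
    rw [hcomp1 g hg']
    exact K.1.one_mem
  have hcl : IsClosed ((⊥ : Subgroup H) : Set H) := by
    rw [Subgroup.coe_bot]; exact isClosed_singleton
  have hφE : φ E ≤ ⟨⊥, hcl⟩ := by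
    have h3 := φ.monotone (hEbot (φ.symm ⟨⊥, hcl⟩))
    rwa [OrderIso.apply_symm_apply] at h3
  have hmem : ∀ h : H, h ≠ 1 → h ∉ (φ E).1 := by
    intro h hne hh
    have h4 : h ∈ (⊥ : Subgroup H) := hφE hh
    exact hne (Subgroup.mem_bot.1 h4)
  have hTS : TotallySeparatedSpace H := by
    rw [totallySeparatedSpace_iff_exists_isClopen]
    intro x y hxy
    have hne : x⁻¹ * y ≠ 1 := fun h => hxy (inv_mul_eq_one.1 h)
    obtain ⟨N, -, hNo, -, hN⟩ := hsep _ (hmem _ hne)
    have hcont : Continuous fun z : H => x⁻¹ * z := continuous_const.mul continuous_id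
    refine ⟨(fun z : H => x⁻¹ * z) ⁻¹' (N : Set H),
      ⟨(Subgroup.isClosed_of_isOpen N hNo).preimage hcont, hNo.preimage hcont⟩, ?_, hN⟩
    show x⁻¹ * x ∈ N
    rw [inv_mul_cancel]
    exact N.one_mem
  have hTDS : TotallyDisconnectedSpace H := inferInstance
  exact hTD G H φ (fun F => ⟨⊤, by rw [Subgroup.coe_top]; exact isCompact_univ,
    fun _ _ => trivial⟩) hEC

end Pool.LatH472
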