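import Mathlib
import Pool.Agent.Helper472.LatDefs2

set_option autoImplicit false

namespace Pool.LatH472

open Pointwise

theorem G2_map_closure {G : Type} [Group G] [TopologicalSpace G] [IsTopologicalGroup G] (A : CL G)
    (T : Subgroup ↥A.1) : (T.topologicalClosure).map A.1.subtype =
      (T.map A.1.subtype).topologicalClosure := by
  apply SetLike.coe_injective
  rw [Subgroup.coe_map, Subgroup.topologicalClosure_coe, Subgroup.topologicalClosure_coe,
    Subgroup.coe_map]
  exact (A.2.isClosedEmbedding_subtypeVal.closure_image_eq _).symm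

theorem G2_loc {G : Type} [Group G] [TopologicalSpace G] [IsTopologicalGroup G] (A : CL G)
    (f : ↥A.1) (hf : Loc (f : G)) : Loc f := by
  obtain ⟨O, hO, hO1, hO2⟩ := hf
  have hZ : (Zc f).map A.1.subtype = Zc (f : G) := by
    show ((Subgroup.zpowers f).topologicalClosure).map A.1.subtype =
      (Subgroup.zpowers (f : G)).topologicalClosure
    rw [G2_map_closure, MonoidHom.map_zpowers]
    rfl
  have hOA : O ≤ A.1 := by
    refine hO1.le.trans ?_
    rw [← hZ]
    exact Subgroup.map_subtype_le _
  have hOm : (O.comap A.1.subtype).map A.1.subtype = O := by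
    rw [Subgroup.map_comap_eq, Subgroup.range_subtype]
    exact inf_eq_right.mpr hOA
  refine ⟨O.comap A.1.subtype, hO.preimage continuous_subtype_val, ?_, ?_⟩
  · have h1 : (O.comap A.1.subtype).map A.1.subtype < (Zc f).map A.1.subtype := by
      rw [hOm, hZ]; exact hO1
    refine lt_of_le_of_ne ?_ ?_
    · exact (Subgroup.map_le_map_iff_of_injective A.1.subtype_injective).mp h1.le
    · intro h
      rw [h] at h1
      exact lt_irrefl _ h1
  · intro S hS hS1
    rw [← Subgroup.map_le_iff_le_comap]
    refine hO2 _ ?_ ?_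
    · exact A.2.isClosedEmbedding_subtypeVal.isClosedMap _ hS
    · rw [← hZ]
      refine lt_of_le_of_ne (Subgroup.map_mono hS1.le) ?_
      intro h
      exact hS1.ne (Subgroup.map_injective A.1.subtype_injective h)

theorem G2 (hG1 : StG1) (hRED : StRED) (hLTD : StLTD) : StG2 := by
  classical
  intro G H _ _ _ _ _ _ _ _ _ _ hcomm φ hH
  refine hRED G H φ ?_ hH ?_
  · intro F
    refine ⟨⊤, ?_, ?_⟩
    · rw [Subgroup.coe_top]; exact isCompact_univ
    · rw [Subgroup.coe_top]; exact Set.subset_univ _
  · rintro A hA ⟨F, hF, hAF⟩ X ψ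
    have i1 : CompactSpace ↥A.1 := isCompact_iff_compactSpace.mp hA
    have i2 : LocallyCompactSpace ↥X.1 := X.2.isClosedEmbedding_subtypeVal.locallyCompactSpace
    have hFA : ∀ f ∈ F, f ∈ A.1 := by
      intro f hf
      rw [hAF]
      exact Subgroup.le_topologicalClosure _ (Subgroup.subset_closure hf)
    set F' : Finset ↥A.1 := F.preimage (Subtype.val : ↥A.1 → G) (Subtype.val_injective.injOn)
      with hF'
    have hFimg : (A.1.subtype : ↥A.1 → G) '' (↑F' : Set ↥A.1) = (↑F : Set G) := by
      ext g
      constructor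
      · rintro ⟨a, ha, rfl⟩
        exact Finset.mem_preimage.mp ha
      · intro hg
        exact ⟨⟨g, hFA g hg⟩, Finset.mem_preimage.mpr hg, rfl⟩
    have hTD : TotallyDisconnectedSpace ↥A.1 := by
      refine hLTD ↥A.1 (fun a b => Subtype.ext (hcomm a b)) F' ?_ ?_
      · intro f hf
        exact G2_loc A f (hF _ (Finset.mem_preimage.mp hf))
      · have h1 : ((Subgroup.closure (↑F' : Set ↥A.1)).topologicalClosure).map A.1.subtype =
            (⊤ : Subgroup ↥A.1).map A.1.subtype := by
          rw [G2_map_closure, MonoidHom.map_closure, hFimg, ← hAF, ← MonoidHom.range_eq_map,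
            Subgroup.range_subtype]
        have h2 := Subgroup.map_injective A.1.subtype_injective h1
        have h3 := congrArg (fun T : Subgroup ↥A.1 => (T : Set ↥A.1)) h2
        simp only [Subgroup.topologicalClosure_coe, Subgroup.coe_top] at h3
        exact dense_iff_closure_eq.mpr h3
    refine hG1 ↥A.1 ↥X.1 ψ ?_
    intro x
    obtain ⟨K, hK, hxK⟩ := hH x.1
    exact ⟨K.comap X.1.subtype, X.2.isClosedEmbedding_subtypeVal.isCompact_preimage hK, hxK⟩


end Pool.LatH472
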