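import Mathlib
import Pool.Agent.Helper472.LatDefs2

set_option autoImplicit false

namespace Pool.LatH472

open Pointwise

theorem LTD_pow_finite (n : ℕ) (hn : 0 < n) : {z : Circle | z ^ n = 1}.Finite := by
  have h : ({z : ℂ | z ^ n = 1}).Finite := by
    refine (Multiset.finite_toSet (Polynomial.nthRoots n (1:ℂ))).subset ?_
    intro z hz
    exact (Polynomial.mem_nthRoots hn).mpr hz
  refine (h.preimage (f := fun z : Circle => (z : ℂ)) Circle.coe_injective.injOn).subset ?_
  intro z hz
  have hz' : z ^ n = 1 := hz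
  show (z:ℂ)^n = 1
  rw [← Circle.coe_pow, hz', Circle.coe_one]

theorem LTD_exp_zsmul (x : ℝ) (k : ℤ) : Circle.exp x ^ k = Circle.exp (k * x) := by
  have h := map_zsmul Circle.expHom k x
  rw [zsmul_eq_mul] at h
  exact h.symm

theorem LTD_closed (S : Subgroup Circle) (hS : IsClosed (S : Set Circle)) :
    S = ⊤ ∨ ∃ n : ℕ, 0 < n ∧ ∀ z ∈ S, z ^ n = 1 := by
  let T : AddSubgroup ℝ :=
    { carrier := {x | Circle.exp x ∈ S}
      zero_mem' := by
        show Circle.exp 0 ∈ S
        rw [Circle.exp_zero]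
        exact S.one_mem
      add_mem' := by
        intro a b ha hb
        show Circle.exp (a + b) ∈ S
        rw [Circle.exp_add]
        exact S.mul_mem ha hb
      neg_mem' := by
        intro a ha
        show Circle.exp (-a) ∈ S
        rw [Circle.exp_neg]
        exact S.inv_mem ha }
  have hT : ∀ x, x ∈ T ↔ Circle.exp x ∈ S := fun x => Iff.rfl
  have hTc : IsClosed (T : Set ℝ) := hS.preimage Circle.exp.continuous
  rcases T.dense_or_cyclic with h | ⟨a, ha⟩
  · left
    have h1 : (T : Set ℝ) = Set.univ := by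
      rw [← hTc.closure_eq]
      exact h.closure_eq
    rw [eq_top_iff]
    intro z _
    have h2 : Complex.arg z ∈ (T : Set ℝ) := by
      rw [h1]
      trivial
    have h3 := (hT _).mp h2
    rwa [Circle.exp_arg] at h3
  · right
    have h2 : (2 * Real.pi) ∈ T := by
      rw [hT, Circle.exp_two_pi]
      exact S.one_mem
    rw [ha, AddSubgroup.mem_closure_singleton] at h2
    obtain ⟨k, hk⟩ := h2
    have hk0 : k ≠ 0 := by
      rintro rfl
      rw [zero_smul] at hk
      have := Real.pi_pos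
      linarith
    refine ⟨k.natAbs, Int.natAbs_pos.mpr hk0, fun z hz => ?_⟩
    rw [pow_natAbs_eq_one]
    have hz' : Complex.arg z ∈ T := by
      rw [hT, Circle.exp_arg]
      exact hz
    rw [ha, AddSubgroup.mem_closure_singleton] at hz'
    obtain ⟨m, hm⟩ := hz'
    have h5 : z = Circle.exp (m • a) := by rw [hm, Circle.exp_arg]
    rw [h5, LTD_exp_zsmul]
    have h6 : (k : ℝ) * (m • a) = m * (2 * Real.pi) := by
      rw [← hk, zsmul_eq_mul, zsmul_eq_mul]
      ring
    rw [h6, Circle.exp_int_mul_two_pi]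

theorem LTD_fin {P : Type} [Group P] [TopologicalSpace P] [IsTopologicalGroup P] [CompactSpace P]
    [T2Space P] (χ : P →* Circle) (hχ : Continuous χ) (f : P) (hf : Loc f) :
    ∃ n : ℕ, 0 < n ∧ χ f ^ n = 1 := by
  by_contra hcon
  push Not at hcon
  obtain ⟨O, hO, hlt, hmax⟩ := hf
  have hZcl : IsClosed ((Zc f : Subgroup P) : Set P) := Subgroup.isClosed_topologicalClosure _
  have hfZ : f ∈ Zc f := Subgroup.le_topologicalClosure _ (Subgroup.mem_zpowers f)
  have hmapcl : ∀ S : Subgroup P, IsClosed (S : Set P) → IsClosed ((S.map χ : Subgroup Circle) : Set Circle) := by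
    intro S hS
    rw [Subgroup.coe_map]
    exact (hS.isCompact.image hχ).isClosed
  have hZ : (Zc f).map χ = ⊤ := by
    rcases LTD_closed _ (hmapcl _ hZcl) with h | ⟨n, hn, h⟩
    · exact h
    · exact absurd (h _ (Subgroup.mem_map_of_mem χ hfZ)) (hcon n hn)
  have hK : ∀ n : ℕ, 0 < n → ∀ x ∈ Zc f, χ x ^ n = 1 → x ∈ O := by
    intro n hn x hx hxn
    have hKcl : IsClosed (((Zc f ⊓ ((powMonoidHom n).comp χ).ker : Subgroup P)) : Set P) := by
      rw [Subgroup.coe_inf]
      refine hZcl.inter ?_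
      have h1 : ((((powMonoidHom n).comp χ).ker : Subgroup P) : Set P) = (fun x => χ x ^ n) ⁻¹' {1} := by
        ext y
        rfl
      rw [h1]
      exact isClosed_singleton.preimage (hχ.pow n)
    have hlt' : (Zc f ⊓ ((powMonoidHom n).comp χ).ker : Subgroup P) < Zc f := by
      refine lt_of_le_of_ne inf_le_left fun heq => ?_
      have h2 : f ∈ (Zc f ⊓ ((powMonoidHom n).comp χ).ker : Subgroup P) := by
        rw [heq]
        exact hfZ
      exact hcon n hn h2.2
    exact hmax _ hKcl hlt' ⟨hx, hxn⟩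
  rcases LTD_closed _ (hmapcl _ hO) with h | ⟨n, hn, h⟩
  · refine hlt.not_ge fun x hx => ?_
    have h1 : χ x ∈ O.map χ := by
      rw [h]
      trivial
    obtain ⟨o, ho, hox⟩ := Subgroup.mem_map.mp h1
    have h2 : o⁻¹ * x ∈ O := by
      refine hK 1 one_pos _ ((Zc f).mul_mem ((Zc f).inv_mem (hlt.le ho)) hx) ?_
      rw [pow_one, map_mul, map_inv, hox, inv_mul_cancel]
    have h3 := O.mul_mem ho h2
    rwa [mul_inv_cancel_left] at h3
  · have hw1 : Circle.exp (2 * Real.pi / ((n : ℝ) + 1)) ^ (n + 1) = 1 := by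
      have h1 := LTD_exp_zsmul (2 * Real.pi / ((n : ℝ) + 1)) ((n + 1 : ℕ) : ℤ)
      rw [zpow_natCast] at h1
      rw [h1]
      have h2 : (((n + 1 : ℕ) : ℤ) : ℝ) * (2 * Real.pi / ((n : ℝ) + 1)) = 2 * Real.pi := by
        push_cast
        field_simp
      rw [h2, Circle.exp_two_pi]
    have hw2 : Circle.exp (2 * Real.pi / ((n : ℝ) + 1)) ∈ (Zc f).map χ := by
      rw [hZ]
      trivial
    obtain ⟨x, hx, hxw⟩ := Subgroup.mem_map.mp hw2
    have hxO : x ∈ O := hK (n + 1) (Nat.succ_pos n) x hx (by rw [hxw]; exact hw1)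
    have hw3 := h _ (Subgroup.mem_map_of_mem χ hxO)
    rw [hxw] at hw3
    rw [pow_succ, hw3, one_mul, Circle.exp_eq_one] at hw1
    obtain ⟨m, hm⟩ := hw1
    have hpi := Real.pi_pos
    have hn1 : (1 : ℝ) ≤ n := by exact_mod_cast hn
    have hm1 : (1 : ℝ) = m * ((n : ℝ) + 1) := by
      field_simp at hm
      nlinarith
    have hm2 : (1 : ℤ) = m * ((n : ℤ) + 1) := by exact_mod_cast hm1
    have h3 : ((n : ℤ) + 1) ∣ 1 := ⟨m, hm2.trans (mul_comm _ _)⟩
    have h4 := Int.le_of_dvd one_pos h3
    omega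

theorem LTD (hC : StChars) : StLTD := by
  intro P _ _ _ _ _ hcomm F hF hdense
  let inst : CommGroup P := { ‹Group P› with mul_comm := hcomm }
  have key : ∀ χ : P →* Circle, Continuous χ → ∃ n : ℕ, 0 < n ∧ ∀ x : P, χ x ^ n = 1 := by
    intro χ hχ
    have h1 : ∀ G : Finset P, (∀ f ∈ G, Loc f) → ∃ n : ℕ, 0 < n ∧ ∀ f ∈ G, χ f ^ n = 1 := by
      classical
      intro G
      induction G using Finset.induction_on with
      | empty => exact fun _ => ⟨1, one_pos, by simp⟩
      | insert a G _ ih =>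
        intro h
        obtain ⟨n, hn, hn'⟩ := ih fun f hf => h f (Finset.mem_insert_of_mem hf)
        obtain ⟨m, hm, hm'⟩ := LTD_fin χ hχ a (h a (Finset.mem_insert_self a G))
        refine ⟨m * n, Nat.mul_pos hm hn, fun f hf => ?_⟩
        rcases Finset.mem_insert.mp hf with rfl | hf
        · rw [pow_mul, hm', one_pow]
        · rw [mul_comm, pow_mul, hn' f hf, one_pow]
    obtain ⟨n, hn, hn'⟩ := h1 F hF
    refine ⟨n, hn, fun x => ?_⟩
    have hcl : IsClosed {x : P | χ x ^ n = 1} := isClosed_singleton.preimage (hχ.pow n)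
    have hsub : ((Subgroup.closure (↑F : Set P) : Subgroup P) : Set P) ⊆ {x : P | χ x ^ n = 1} := by
      intro y hy
      have h2 : Subgroup.closure (↑F : Set P) ≤ ((powMonoidHom n).comp χ).ker := by
        rw [Subgroup.closure_le]
        intro f hf
        exact hn' f hf
      exact h2 hy
    have h3 : closure ((Subgroup.closure (↑F : Set P) : Subgroup P) : Set P) ⊆ {x : P | χ x ^ n = 1} :=
      hcl.closure_subset_iff.mpr hsub
    rw [hdense.closure_eq] at h3
    exact h3 (Set.mem_univ x)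
  have key2 : ∀ p ∈ connectedComponent (1 : P), p = 1 := by
    intro p hp
    by_contra hne
    obtain ⟨χ, hχ⟩ := hC P p hne
    obtain ⟨n, hn, hn'⟩ := key χ.toMonoidHom χ.continuous_toFun
    apply hχ
    have h1 : IsPreconnected (χ '' connectedComponent (1 : P)) :=
      isPreconnected_connectedComponent.image _ χ.continuous_toFun.continuousOn
    by_contra hne1
    have h2 : (χ '' connectedComponent (1 : P)).Nontrivial :=
      ⟨χ p, ⟨p, hp, rfl⟩, χ 1, ⟨1, mem_connectedComponent, rfl⟩, by rw [map_one]; exact hne1⟩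
    refine h1.infinite_of_nontrivial h2 ((LTD_pow_finite n hn).subset ?_)
    rintro _ ⟨y, _, rfl⟩
    exact hn' y
  rw [totallyDisconnectedSpace_iff_connectedComponent_subsingleton]
  intro x y hy z hz
  have h4 : ∀ w ∈ connectedComponent x, w = x := by
    intro w hw
    have h5 : IsPreconnected ((fun v => x⁻¹ * v) '' connectedComponent x) :=
      isPreconnected_connectedComponent.image _ (continuous_const_mul x⁻¹).continuousOn
    have h6 := h5.subset_connectedComponent (x := (1 : P)) ⟨x, mem_connectedComponent, inv_mul_cancel x⟩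
    have h7 := key2 (x⁻¹ * w) (h6 ⟨w, hw, rfl⟩)
    exact (inv_mul_eq_one.mp h7).symm
  rw [h4 y hy, h4 z hz]

end Pool.LatH472
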