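import Mathlib
import Pool.Agent.Helper472.LatDefs2

set_option autoImplicit false

namespace Pool.LatH472

open Pointwise

noncomputable def QUO_iso (G : Type) [Group G] [TopologicalSpace G] [IsTopologicalGroup G]
    (N : CL G) [N.1.Normal] : CL (G ⧸ N.1) ≃o {X : CL G // N ≤ X} where
  toFun X := ⟨⟨X.1.comap (QuotientGroup.mk' N.1),
    X.2.preimage (continuous_quotient_mk' : Continuous (QuotientGroup.mk' N.1 : G → G ⧸ N.1))⟩, by
      show N.1 ≤ X.1.comap (QuotientGroup.mk' N.1)
      intro x hx
      rw [Subgroup.mem_comap]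
      have : QuotientGroup.mk' N.1 x = 1 := by
        rw [QuotientGroup.mk'_apply, QuotientGroup.eq_one_iff]
        exact hx
      rw [this]
      exact X.1.one_mem⟩
  invFun X := ⟨X.1.1.map (QuotientGroup.mk' N.1), by
    have hle : N.1 ≤ X.1.1 := X.2
    rw [← (QuotientGroup.isQuotientMap_mk (N := N.1)).isClosed_preimage]
    have h : (QuotientGroup.mk : G → G ⧸ N.1) ⁻¹'
        ((X.1.1.map (QuotientGroup.mk' N.1) : Subgroup (G ⧸ N.1)) : Set (G ⧸ N.1)) =
        ((X.1.1 : Subgroup G) : Set G) := by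
      have h1 : (X.1.1.map (QuotientGroup.mk' N.1)).comap (QuotientGroup.mk' N.1) = X.1.1 :=
        Subgroup.comap_map_eq_self (by rw [QuotientGroup.ker_mk']; exact hle)
      have h2 := congrArg (fun K : Subgroup G => (K : Set G)) h1
      exact h2
    rw [h]
    exact X.1.2⟩
  left_inv X := Subtype.ext
    (Subgroup.map_comap_eq_self_of_surjective (QuotientGroup.mk'_surjective N.1) X.1)
  right_inv X := Subtype.ext (Subtype.ext
    (Subgroup.comap_map_eq_self (by rw [QuotientGroup.ker_mk']; exact X.2)))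
  map_rel_iff' := by
    intro X Y
    exact Subgroup.comap_le_comap_of_surjective (QuotientGroup.mk'_surjective N.1)

def QUO_mid {A B : Type} [PartialOrder A] [PartialOrder B] (φ : A ≃o B) (e : A) :
    {x : A // e ≤ x} ≃o {y : B // φ e ≤ y} where
  toFun x := ⟨φ x.1, φ.monotone x.2⟩
  invFun y := ⟨φ.symm y.1, by
    have h := φ.symm.monotone y.2
    rwa [OrderIso.symm_apply_apply] at h⟩
  left_inv x := Subtype.ext (φ.symm_apply_apply x.1)
  right_inv y := Subtype.ext (φ.apply_symm_apply y.1)
  map_rel_iff' := by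
    intro x y
    exact φ.le_iff_le

theorem QUO : StQUO := by
  intro G H _ _ _ _ _ _ φ E _ _
  exact ⟨(QUO_iso G E).trans ((QUO_mid φ E).trans (QUO_iso H (φ E)).symm)⟩

end Pool.LatH472
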