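import Mathlib
import Pool.Agent.Helper472.LatDefs2

set_option autoImplicit false

namespace Pool.LatH472

open Pointwise

theorem RED_fin {H : Type} [Group H] (S : Set H) (F : Finset H)
    (hF : (↑F : Set H) ⊆ (Subgroup.closure S : Set H)) :
    ∃ F' : Finset H, (↑F' : Set H) ⊆ S ∧
      (↑F : Set H) ⊆ (Subgroup.closure (↑F' : Set H) : Set H) := by
  classical
  have h1 : ∀ x ∈ Subgroup.closure S, ∃ T : Finset H, (↑T : Set H) ⊆ S ∧
      x ∈ Subgroup.closure (↑T : Set H) := by
    intro x hx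
    induction hx using Subgroup.closure_induction with
    | mem x hx =>
      refine ⟨{x}, by simpa using hx, ?_⟩
      apply Subgroup.subset_closure
      simp
    | one => exact ⟨∅, by simp, one_mem _⟩
    | mul x y _ _ ihx ihy =>
      obtain ⟨T1, h1, h2⟩ := ihx
      obtain ⟨T2, h3, h4⟩ := ihy
      refine ⟨T1 ∪ T2, ?_, ?_⟩
      · rw [Finset.coe_union]
        exact Set.union_subset h1 h3
      · rw [Finset.coe_union]
        exact mul_mem (Subgroup.closure_mono Set.subset_union_left h2)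
          (Subgroup.closure_mono Set.subset_union_right h4)
    | inv x _ ih =>
      obtain ⟨T, h1, h2⟩ := ih
      exact ⟨T, h1, inv_mem h2⟩
  choose T hT1 hT2 using h1
  refine ⟨F.attach.biUnion (fun x => T x.1 (hF x.2)), ?_, ?_⟩
  · intro y hy
    rw [Finset.mem_coe, Finset.mem_biUnion] at hy
    obtain ⟨x, _, hx⟩ := hy
    exact hT1 x.1 (hF x.2) hx
  · intro x hx
    refine Subgroup.closure_mono ?_ (hT2 x (hF hx))
    intro y hy
    rw [Finset.mem_coe, Finset.mem_biUnion]
    exact ⟨⟨x, hx⟩, Finset.mem_attach _ _, hy⟩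

theorem RED_gen {G H : Type} [Group G] [TopologicalSpace G] [IsTopologicalGroup G]
    [Group H] [TopologicalSpace H] [IsTopologicalGroup H] (φ : CL G ≃o CL H) (f : H)
    (hL : Loc f) : ∃ c : G, Loc c ∧
      (⟨Zc c, Subgroup.isClosed_topologicalClosure _⟩ : CL G) =
        φ.symm ⟨Zc f, Subgroup.isClosed_topologicalClosure _⟩ := by
  obtain ⟨O, hO, hO1, hO2⟩ := hL
  let Zf : CL H := ⟨Zc f, Subgroup.isClosed_topologicalClosure _⟩
  let Of : CL H := ⟨O, hO⟩
  have hlt : φ.symm Of < φ.symm Zf := φ.symm.lt_iff_lt.mpr hO1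
  have hlt' : (φ.symm Of).1 < (φ.symm Zf).1 := hlt
  obtain ⟨c, hc1, hc2⟩ := SetLike.exists_of_lt hlt'
  let C : CL G := ⟨Zc c, Subgroup.isClosed_topologicalClosure _⟩
  have hcC : c ∈ C.1 := Subgroup.le_topologicalClosure _ (Subgroup.mem_zpowers c)
  have hCE : C ≤ φ.symm Zf := by
    show Zc c ≤ (φ.symm Zf).1
    apply Subgroup.topologicalClosure_minimal _ _ (φ.symm Zf).2
    rw [Subgroup.zpowers_le]
    exact hc1
  have hEq : C = φ.symm Zf := by
    by_contra hne
    have h1 : C < φ.symm Zf := lt_of_le_of_ne hCE hne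
    have h2 : φ C < Zf := by
      have := φ.lt_iff_lt.mpr h1
      rwa [φ.apply_symm_apply] at this
    have h3 : φ C ≤ Of := hO2 (φ C).1 (φ C).2 h2
    have h4 : C ≤ φ.symm Of := φ.le_symm_apply.mpr h3
    exact hc2 (h4 hcC)
  refine ⟨c, ⟨(φ.symm Of).1, (φ.symm Of).2, ?_, ?_⟩, hEq⟩
  · have h1 : φ.symm Of < C := by
      rw [hEq]; exact hlt
    exact h1
  · intro S hS hS1
    let SS : CL G := ⟨S, hS⟩
    have h1 : SS < C := hS1
    have h2 : φ SS < Zf := by
      have := φ.lt_iff_lt.mpr h1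
      rw [hEq] at this
      rwa [φ.apply_symm_apply] at this
    have h3 : φ SS ≤ Of := hO2 (φ SS).1 (φ SS).2 h2
    have h4 : SS ≤ φ.symm Of := φ.le_symm_apply.mpr h3
    exact h4

theorem RED_mem {G H : Type} [Group G] [TopologicalSpace G] [IsTopologicalGroup G]
    [Group H] [TopologicalSpace H] [IsTopologicalGroup H] (φ : CL G ≃o CL H) (f : H) (c : G)
    (hEq : (⟨Zc c, Subgroup.isClosed_topologicalClosure _⟩ : CL G) =
        φ.symm ⟨Zc f, Subgroup.isClosed_topologicalClosure _⟩) (K : CL G) (hK : c ∈ K.1) :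
    f ∈ (φ K).1 := by
  let Zf : CL H := ⟨Zc f, Subgroup.isClosed_topologicalClosure _⟩
  have h5 : (⟨Zc c, Subgroup.isClosed_topologicalClosure _⟩ : CL G) ≤ K := by
    show Zc c ≤ K.1
    apply Subgroup.topologicalClosure_minimal _ _ K.2
    rw [Subgroup.zpowers_le]
    exact hK
  rw [hEq] at h5
  have h6 : Zf ≤ φ K := φ.symm_apply_le.mp h5
  exact h6 (Subgroup.le_topologicalClosure _ (Subgroup.mem_zpowers f))

theorem RED (hRES : StRES) (hL1 : StL1) (hT11a : StT11ag) : StRED := by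
  classical
  intro G H _ _ _ _ _ _ _ _ _ _ φ hG hE hCC F
  have hD := hT11a H hE
  refine hL1 H (Subgroup.closure {h : H | Loc h}) hD ?_ (↑F) F.finite_toSet.isCompact
  intro F0 hF0
  obtain ⟨F', hF'L, hF'⟩ := RED_fin _ F0 hF0
  -- the compact subgroup of G
  have hgen : ∀ f : H, ∃ c : G, Loc f → (Loc c ∧
      (⟨Zc c, Subgroup.isClosed_topologicalClosure _⟩ : CL G) =
        φ.symm ⟨Zc f, Subgroup.isClosed_topologicalClosure _⟩) := by
    intro f
    by_cases hL : Loc f
    · obtain ⟨c, hc⟩ := RED_gen φ f hL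
      exact ⟨c, fun _ => hc⟩
    · exact ⟨1, fun h => absurd h hL⟩
  choose c hc using hgen
  have hcm : ∀ f, Loc f → ∀ K : CL G, c f ∈ K.1 → f ∈ (φ K).1 :=
    fun f hf K hK => RED_mem φ f (c f) (hc f hf).2 K hK
  obtain ⟨K, hK, hcK⟩ := hG (F'.image c)
  let KK : CL G := ⟨K, hK.isClosed⟩
  have hfK : ∀ f ∈ F', f ∈ (φ KK).1 := by
    intro f hf
    refine hcm f (hF'L hf) KK ?_
    exact hcK (by
      rw [Finset.coe_image]
      exact ⟨f, hf, rfl⟩)
  let XX : CL H := ⟨(Subgroup.closure (↑F' : Set H)).topologicalClosure,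
    Subgroup.isClosed_topologicalClosure _⟩
  have hXK : ∀ W : CL G, (∀ f ∈ F', f ∈ (φ W).1) → XX ≤ φ W := by
    intro W hW
    show (Subgroup.closure (↑F' : Set H)).topologicalClosure ≤ (φ W).1
    apply Subgroup.topologicalClosure_minimal _ _ (φ W).2
    rw [Subgroup.closure_le]
    exact hW
  let A : CL G := φ.symm XX
  have hAK : A ≤ KK := φ.symm_apply_le.mpr (hXK KK hfK)
  have hAc : IsCompact (A.1 : Set G) := hK.of_isClosed_subset A.2 hAK
  obtain ⟨ψ, _⟩ := hRES G H φ A
  have hYX : (φ A).1 = XX.1 := by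
    show (φ (φ.symm XX)).1 = XX.1
    rw [φ.apply_symm_apply]
  have hYc : IsClosed ((φ A).1 : Set H) := (φ A).2
  have hce : Topology.IsClosedEmbedding ((φ A).1.subtype : ↥(φ A).1 → H) :=
    hYc.isClosedEmbedding_subtypeVal
  have hF'Y : ∀ f ∈ F', f ∈ (φ A).1 := by
    intro f hf
    rw [hYX]
    exact Subgroup.le_topologicalClosure _ (Subgroup.subset_closure hf)
  -- `A` is topologically generated by the `c f`
  have hAF : A.1 = (Subgroup.closure (↑(F'.image c) : Set G)).topologicalClosure := by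
    let W : CL G := ⟨(Subgroup.closure (↑(F'.image c) : Set G)).topologicalClosure,
      Subgroup.isClosed_topologicalClosure _⟩
    apply le_antisymm
    · have h1 : A ≤ W := by
        apply φ.symm_apply_le.mpr
        apply hXK
        intro f hf
        refine hcm f (hF'L hf) W ?_
        apply Subgroup.le_topologicalClosure
        apply Subgroup.subset_closure
        rw [Finset.coe_image]
        exact ⟨f, hf, rfl⟩
      exact h1
    · apply Subgroup.topologicalClosure_minimal _ _ A.2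
      rw [Subgroup.closure_le, Finset.coe_image]
      rintro _ ⟨f, hf, rfl⟩
      have h1 : (⟨Zc f, Subgroup.isClosed_topologicalClosure _⟩ : CL H) ≤ XX := by
        show Zc f ≤ XX.1
        apply Subgroup.topologicalClosure_minimal _ _ XX.2
        rw [Subgroup.zpowers_le]
        exact Subgroup.le_topologicalClosure _ (Subgroup.subset_closure hf)
      have h2 := φ.symm.monotone h1
      rw [← (hc f (hF'L hf)).2] at h2
      exact h2 (Subgroup.le_topologicalClosure _ (Subgroup.mem_zpowers (c f)))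
  let F'' : Finset ↥(φ A).1 := F'.attach.image (fun f => (⟨f.1, hF'Y f.1 f.2⟩ : ↥(φ A).1))
  have hF''m : ∀ f (hf : f ∈ F'), (⟨f, hF'Y f hf⟩ : ↥(φ A).1) ∈ F'' := by
    intro f hf
    exact Finset.mem_image.mpr ⟨⟨f, hf⟩, Finset.mem_attach _ _, rfl⟩
  have himg : ((φ A).1.subtype : ↥(φ A).1 → H) '' (↑F'' : Set ↥(φ A).1) = (↑F' : Set H) := by
    ext y
    constructor
    · rintro ⟨z, hz, rfl⟩
      obtain ⟨g, _, rfl⟩ := Finset.mem_image.mp hz
      exact g.2
    · intro hy
      exact ⟨⟨y, hF'Y y hy⟩, hF''m y hy, rfl⟩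
  have hmapc : (Subgroup.closure (↑F'' : Set ↥(φ A).1)).map (φ A).1.subtype =
      Subgroup.closure (↑F' : Set H) := by
    rw [MonoidHom.map_closure, himg]
  have hInd : IndCompact ↥(φ A).1 := by
    refine hCC A hAc ⟨F'.image c, ?_, hAF⟩ (φ A) ψ
    intro g hg
    obtain ⟨f, hf, rfl⟩ := Finset.mem_image.mp hg
    exact (hc f (hF'L hf)).1
  obtain ⟨K1, hK1, hFK1⟩ := hInd F''
  refine ⟨K1.map (φ A).1.subtype, ?_, ?_⟩
  · rw [Subgroup.coe_map]
    exact hK1.image hce.continuous
  · refine hF'.trans ?_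
    have h5 : Subgroup.closure (↑F' : Set H) ≤ K1.map (φ A).1.subtype := by
      rw [← hmapc]
      apply Subgroup.map_mono
      rw [Subgroup.closure_le]
      exact hFK1
    exact h5

end Pool.LatH472
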