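import Mathlib
import Pool.Agent.Helper472.LatDefs2

set_option autoImplicit false

namespace Pool.LatH472

open Pointwise

theorem T11ag_circ (S : Subgroup Circle) (hS : IsClosed (S : Set Circle)) (hne : ∃ z ∈ S, z ≠ 1) :
    ∃ N : ℕ, 0 < N ∧ ∃ z ∈ S, z ^ N = 1 ∧ z ≠ 1 := by
  set T : AddSubgroup ℝ :=
    { carrier := {t | Circle.exp t ∈ S}
      add_mem' := fun {a b} ha hb => by
        show Circle.exp (a + b) ∈ S
        rw [Circle.exp_add]; exact S.mul_mem ha hb
      zero_mem' := by show Circle.exp 0 ∈ S; rw [Circle.exp_zero]; exact S.one_mem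
      neg_mem' := fun {a} ha => by
        show Circle.exp (-a) ∈ S
        rw [Circle.exp_neg]; exact S.inv_mem ha } with hT
  have hmem : ∀ t, t ∈ T ↔ Circle.exp t ∈ S := fun t => Iff.rfl
  have hTcl : IsClosed (T : Set ℝ) := hS.preimage Circle.exp.continuous
  rcases T.dense_or_cyclic with hd | ⟨a, ha⟩
  · have hall : ∀ t : ℝ, t ∈ T := by
      intro t
      have h1 : (T : Set ℝ) = Set.univ := by rw [← hTcl.closure_eq]; exact hd.closure_eq
      have h2 : t ∈ (T : Set ℝ) := by rw [h1]; trivial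
      exact h2
    refine ⟨2, two_pos, Circle.exp Real.pi, (hmem _).1 (hall _), ?_, ?_⟩
    · rw [pow_two, ← Circle.exp_add, ← two_mul]; exact Circle.exp_two_pi
    · intro h
      rw [Circle.exp_eq_one] at h
      obtain ⟨n, hn⟩ := h
      have hpi := Real.pi_pos
      have h1 : (1 : ℝ) = 2 * n := by
        have : Real.pi * 1 = Real.pi * (2 * n) := by linarith
        exact mul_left_cancel₀ hpi.ne' this
      have h2 : (1 : ℤ) = 2 * n := by exact_mod_cast h1
      omega
  · have h2pi : (2 * Real.pi) ∈ T := by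
      rw [hmem, Circle.exp_two_pi]; exact S.one_mem
    rw [ha, AddSubgroup.mem_closure_singleton] at h2pi
    obtain ⟨n, hn⟩ := h2pi
    have hn0 : n ≠ 0 := by
      rintro rfl
      rw [zero_smul] at hn
      have := Real.pi_pos
      linarith
    obtain ⟨z, hz, hz1⟩ := hne
    refine ⟨n.natAbs, Int.natAbs_pos.2 hn0, z, hz, ?_, hz1⟩
    obtain ⟨t, rfl⟩ := Circle.exp_surjective z
    have ht : t ∈ T := (hmem t).2 hz
    rw [ha, AddSubgroup.mem_closure_singleton] at ht
    obtain ⟨k, hk⟩ := ht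
    have hz' : Circle.exp t ^ n = 1 := by
      rw [← Circle.exp_zsmul, ← hk, smul_comm, hn, zsmul_eq_mul]
      exact Circle.exp_int_mul_two_pi k
    rcases Int.natAbs_eq n with h | h
    · rw [h, zpow_natCast] at hz'
      exact hz'
    · rw [h, zpow_neg, zpow_natCast, inv_eq_one] at hz'
      exact hz'

theorem T11ag_chi (hC : StChars) (Q : Type) [CommGroup Q] [TopologicalSpace Q]
    [IsTopologicalGroup Q] [CompactSpace Q] [T2Space Q] (D1 : Subgroup Q)
    (hD : IsClosed (D1 : Set Q)) (g : Q) (hg : g ∉ D1) :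
    ∃ χ : Q →* Circle, Continuous χ ∧ (∀ d ∈ D1, χ d = 1) ∧ χ g ≠ 1 := by
  have hT3 : T3Space (Q ⧸ D1) := QuotientGroup.instT3Space D1
  have hg1 : ((g : Q) : Q ⧸ D1) ≠ 1 := by
    intro h
    exact hg ((QuotientGroup.eq_one_iff g).1 h)
  obtain ⟨χ, hχ⟩ := hC (Q ⧸ D1) (g : Q ⧸ D1) hg1
  refine ⟨χ.toMonoidHom.comp (QuotientGroup.mk' D1), ?_, ?_, hχ⟩
  · exact χ.continuous_toFun.comp QuotientGroup.continuous_mk
  · intro d hd
    have h1 : (QuotientGroup.mk' D1) d = 1 := (QuotientGroup.eq_one_iff d).2 hd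
    rw [MonoidHom.comp_apply, h1, map_one]

theorem T11ag_chi' (hC : StChars) (Q : Type) [inst : Group Q] [TopologicalSpace Q]
    [IsTopologicalGroup Q] [CompactSpace Q] [T2Space Q] (hcomm : ∀ a b : Q, a * b = b * a)
    (D1 : Subgroup Q) (hD : IsClosed (D1 : Set Q)) (g : Q) (hg : g ∉ D1) :
    ∃ χ : Q →* Circle, Continuous χ ∧ (∀ d ∈ D1, χ d = 1) ∧ χ g ≠ 1 := by
  letI : CommGroup Q := { inst with mul_comm := hcomm }
  exact T11ag_chi hC Q D1 hD g hg

theorem T11ag_zorn (H : Type) [Group H] [TopologicalSpace H] [IsTopologicalGroup H] [T2Space H]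
    (Q O2 : Subgroup H) (V : Set H) (hQcl : IsClosed (Q : Set H)) (hQc : IsCompact (Q : Set H))
    (hVo : IsOpen V) (hO2cl : IsClosed (O2 : Set H)) (hO2mem : ∀ x, x ∈ O2 ↔ x ∈ Q ∧ x ∈ V)
    (hf : ∃ f ∈ Q, f ∉ V) (hlocV : ∀ y ∈ Q, Loc y → y ∈ V) : False := by
  classical
  -- the family
  set 𝒮 : Set (Set H) := {s | ∃ E : Subgroup H, (E : Set H) = s ∧ IsClosed s ∧ E ≤ Q ∧
    (s ∩ Vᶜ).Nonempty} with h𝒮
  have hQS : (Q : Set H) ∈ 𝒮 := by
    obtain ⟨f, hfQ, hfV⟩ := hf
    exact ⟨Q, rfl, hQcl, le_rfl, f, hfQ, hfV⟩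
  obtain ⟨m, -, hm⟩ := zorn_superset_nonempty 𝒮 (by
    intro c hc hchain hne
    refine ⟨⋂₀ c, ?_, fun s hs => Set.sInter_subset_of_mem hs⟩
    let E : Subgroup H := sInf {E : Subgroup H | (E : Set H) ∈ c}
    have hE : (E : Set H) = ⋂₀ c := by
      ext x
      simp only [E, Subgroup.coe_sInf, Set.mem_iInter, Set.mem_sInter]
      constructor
      · intro h s hs
        obtain ⟨E', hE', -⟩ := hc hs
        have := h E' (by show (E' : Set H) ∈ c; rw [hE']; exact hs)
        rw [← hE']; exact this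
      · intro h E' hE'
        exact h _ hE'
    refine ⟨E, hE, isClosed_sInter (fun s hs => (hc hs).choose_spec.2.1), ?_, ?_⟩
    · obtain ⟨s, hs⟩ := hne
      obtain ⟨E', hE', -, hE'Q, -⟩ := hc hs
      refine le_trans (sInf_le ?_) hE'Q
      show (E' : Set H) ∈ c
      rw [hE']; exact hs
    · -- compactness
      have hne2 : Nonempty ((fun s : Set H => s ∩ Vᶜ) '' c) := (hne.image _).to_subtype
      have hcl : ∀ s ∈ c, IsClosed (s ∩ Vᶜ) := fun s hs =>
        (hc hs).choose_spec.2.1.inter hVo.isClosed_compl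
      have := IsCompact.nonempty_sInter_of_directed_nonempty_isCompact_isClosed
        (S := (fun s : Set H => s ∩ Vᶜ) '' c) ?_ ?_ ?_ ?_
      · obtain ⟨x, hx⟩ := this
        rw [Set.mem_sInter] at hx
        have hx' : ∀ s ∈ c, x ∈ s ∩ Vᶜ := fun s hs => hx _ ⟨s, hs, rfl⟩
        obtain ⟨s0, hs0⟩ := hne
        exact ⟨x, Set.mem_sInter.mpr fun s hs => (hx' s hs).1, (hx' s0 hs0).2⟩
      · rintro _ ⟨s, hs, rfl⟩ _ ⟨t, ht, rfl⟩
        rcases hchain.total hs ht with h | h
        · exact ⟨_, ⟨s, hs, rfl⟩, subset_rfl, Set.inter_subset_inter_left _ h⟩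
        · exact ⟨_, ⟨t, ht, rfl⟩, Set.inter_subset_inter_left _ h, subset_rfl⟩
      · rintro _ ⟨s, hs, rfl⟩
        exact (hc hs).choose_spec.2.2.2
      · rintro _ ⟨s, hs, rfl⟩
        obtain ⟨E', hE', -, hE'Q, -⟩ := hc hs
        refine hQc.of_isClosed_subset (hcl s hs) ?_
        intro x hx
        have : x ∈ (E' : Set H) := by rw [hE']; exact hx.1
        exact hE'Q this
      · rintro _ ⟨s, hs, rfl⟩
        exact hcl s hs) (Q : Set H) hQS
  obtain ⟨⟨E, hEm, hEcl, hEQ, y, hyE, hyV⟩, hmin⟩ := hm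
  subst hEm
  have hZcl : IsClosed ((Zc y : Subgroup H) : Set H) := Subgroup.isClosed_topologicalClosure _
  have hyZ : y ∈ Zc y := Subgroup.le_topologicalClosure _ (Subgroup.mem_zpowers y)
  have hZE : Zc y ≤ E := Subgroup.topologicalClosure_minimal _
      (by rw [Subgroup.zpowers_le]; exact hyE) hEcl
  have hEZ : E ≤ Zc y := by
    have h1 : ((Zc y : Subgroup H) : Set H) ∈ 𝒮 :=
      ⟨Zc y, rfl, hZcl, hZE.trans hEQ, y, hyZ, hyV⟩
    exact hmin h1 hZE
  have hEeq : Zc y = E := le_antisymm hZE hEZ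
  have hloc : Loc y := by
    refine ⟨E ⊓ O2, ?_, ?_, ?_⟩
    · rw [Subgroup.coe_inf]
      exact hEcl.inter hO2cl
    · rw [hEeq]
      refine lt_of_le_of_ne inf_le_left ?_
      intro heq
      have : y ∈ E ⊓ O2 := by rw [heq]; exact hyE
      exact hyV ((hO2mem y).1 this.2).2
    · intro S hScl hS
      rw [hEeq] at hS
      refine le_inf hS.le ?_
      intro x hx
      rw [hO2mem]
      refine ⟨hEQ (hS.le hx), ?_⟩
      by_contra hxV
      have h1 : (S : Set H) ∈ 𝒮 := ⟨S, rfl, hScl, hS.le.trans hEQ, x, hx, hxV⟩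
      have h2 : (E : Set H) ⊆ S := hmin h1 hS.le
      exact absurd (le_antisymm hS.le h2) hS.ne
  exact hyV (hlocV y (hEQ hyE) hloc)

theorem T11ag_fin (N : ℕ) (hN : 0 < N) : {z : Circle | z ^ N = 1}.Finite := by
  have h1 : {z : Circle | z ^ N = 1} ⊆
      (fun z : Circle => (z : ℂ)) ⁻¹' ((Polynomial.nthRoots N (1 : ℂ)).toFinset : Set ℂ) := by
    intro z hz
    have hz' : z ^ N = 1 := hz
    have h2 : (z : ℂ) ^ N = 1 := by
      rw [← Circle.coe_pow, hz', Circle.coe_one]
    simp only [Set.mem_preimage, Finset.mem_coe, Multiset.mem_toFinset]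
    exact (Polynomial.mem_nthRoots hN).2 h2
  exact ((Finset.finite_toSet _).preimage (Subtype.val_injective.injOn)).subset h1

theorem T11ag (hC : StChars) : StT11ag := by
  intro H _ _ _ _ hEC
  classical
  by_contra hnd
  set Dbar : Subgroup H := (Subgroup.closure {h : H | Loc h}).topologicalClosure with hDbar
  have hDcl : IsClosed (Dbar : Set H) := Subgroup.isClosed_topologicalClosure _
  -- an element outside of Dbar
  have hex : ∃ f : H, f ∉ Dbar := by
    by_contra hall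
    push Not at hall
    apply hnd
    intro x
    have := hall x
    rw [hDbar] at this
    exact this
  obtain ⟨f, hf⟩ := hex
  set Q : Subgroup H := Zc f with hQ
  have hQcl : IsClosed (Q : Set H) := Subgroup.isClosed_topologicalClosure _
  have hfQ : f ∈ Q := Subgroup.le_topologicalClosure _ (Subgroup.mem_zpowers f)
  have hQc : IsCompact (Q : Set H) := by
    obtain ⟨K, hK, hfK⟩ := hEC f
    refine hK.of_isClosed_subset hQcl ?_
    have h1 : Q ≤ K := Subgroup.topologicalClosure_minimal _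
      (by rw [Subgroup.zpowers_le]; exact hfK) hK.isClosed
    exact h1
  have hcs : CompactSpace Q := isCompact_iff_compactSpace.mp hQc
  have hcomm : ∀ a b : Q, a * b = b * a := by
    have h1 : ∀ x y : Subgroup.zpowers f, x * y = y * x := by
      rintro ⟨x, a, rfl⟩ ⟨y, b, rfl⟩
      apply Subtype.ext
      show f ^ a * f ^ b = f ^ b * f ^ a
      rw [← zpow_add, ← zpow_add, add_comm]
    exact (Subgroup.commGroupTopologicalClosure (Subgroup.zpowers f) h1).mul_comm
  set g : Q := ⟨f, hfQ⟩ with hg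
  have hD1cl : IsClosed ((Dbar.subgroupOf Q : Subgroup Q) : Set Q) :=
    hDcl.preimage continuous_subtype_val
  obtain ⟨χ, hχc, hχD, hχg⟩ := T11ag_chi' hC Q hcomm (Dbar.subgroupOf Q) hD1cl g (by
    intro h
    exact hf (Subgroup.mem_subgroupOf.1 h))
  have hScl : IsClosed ((χ.range : Subgroup Circle) : Set Circle) := by
    rw [MonoidHom.coe_range]
    exact (isCompact_range hχc).isClosed
  obtain ⟨N, hN, z, ⟨q, hq⟩, hzN, hz1⟩ := T11ag_circ χ.range hScl ⟨χ g, ⟨g, rfl⟩, hχg⟩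
  -- the subgroups
  set R : Subgroup Q := ((powMonoidHom N : Circle →* Circle).comp χ).ker with hR
  have hRmem : ∀ x : Q, x ∈ R ↔ χ x ^ N = 1 := fun x => by
    rw [hR, MonoidHom.mem_ker, MonoidHom.comp_apply, powMonoidHom_apply]
  have hRcl : IsClosed (R : Set Q) := by
    have : (R : Set Q) = (fun x => χ x ^ N) ⁻¹' {1} := by
      ext x; exact hRmem x
    rw [this]
    exact isClosed_singleton.preimage (hχc.pow N)
  set O' : Subgroup Q := χ.ker with hO'
  have hO'cl : IsClosed (O' : Set Q) := by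
    have : (O' : Set Q) = (fun x => χ x) ⁻¹' {1} := by
      ext x; rfl
    rw [this]
    exact isClosed_singleton.preimage hχc
  set U : Set Circle := ({z : Circle | z ^ N = 1} \ {1})ᶜ with hU
  have hUo : IsOpen U := ((T11ag_fin N hN).subset Set.diff_subset).isClosed.isOpen_compl
  obtain ⟨V, hVo, hV⟩ := isOpen_induced_iff.mp (hUo.preimage hχc)
  have hVmem : ∀ x : Q, (x : H) ∈ V ↔ χ x ∈ U := by
    intro x
    have : x ∈ (Subtype.val ⁻¹' V : Set Q) ↔ x ∈ (χ ⁻¹' U : Set Q) := by rw [hV]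
    exact this
  have hemb := hQcl.isClosedEmbedding_subtypeVal
  refine T11ag_zorn H (R.map Q.subtype) (O'.map Q.subtype) V ?_ ?_ hVo ?_ ?_ ?_ ?_
  · rw [Subgroup.coe_map]
    exact hemb.isClosedMap _ hRcl
  · rw [Subgroup.coe_map]
    exact (hRcl.isCompact).image continuous_subtype_val
  · rw [Subgroup.coe_map]
    exact hemb.isClosedMap _ hO'cl
  · intro x
    constructor
    · rintro ⟨y, hy, rfl⟩
      have hy' : χ y = 1 := hy
      refine ⟨⟨y, (hRmem y).2 (by rw [hy', one_pow]), rfl⟩, (hVmem y).2 ?_⟩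
      rw [hy', hU]
      intro h
      exact h.2 rfl
    · rintro ⟨⟨y, hy, rfl⟩, hyV⟩
      have h1 : χ y ∈ U := (hVmem y).1 hyV
      have h2 : χ y ^ N = 1 := (hRmem y).1 hy
      refine ⟨y, ?_, rfl⟩
      show χ y = 1
      by_contra hne
      exact h1 ⟨h2, hne⟩
  · refine ⟨q, ⟨q, (hRmem q).2 (by rw [hq, hzN]), rfl⟩, ?_⟩
    intro h
    have h1 : χ q ∈ U := (hVmem q).1 h
    rw [hq] at h1
    exact h1 ⟨hzN, hz1⟩
  · rintro x ⟨y, hy, rfl⟩ hloc
    have h1 : (y : H) ∈ Dbar :=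
      Subgroup.le_topologicalClosure _ (Subgroup.subset_closure hloc)
    have h2 : χ y = 1 := hχD y (Subgroup.mem_subgroupOf.2 h1)
    refine (hVmem y).2 ?_
    rw [h2, hU]
    intro h
    exact h.2 rfl

end Pool.LatH472
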