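import Mathlib
import Pool.Agent.Helper472.LatDefs2
import Pool.Agent.Helper472.LatMainTd
import Pool.Agent.Helper472.Lat_ABF
import Pool.Agent.Helper472.Lat_FI0
import Pool.Agent.Helper472.Lat_FR0
import Pool.Agent.Helper472.Lat_PQ1g
import Pool.Agent.Helper472.Lat_KL1g
import Pool.Agent.Helper472.Lat_KLg
import Pool.Agent.Helper472.Lat_ABQg
import Pool.Agent.Helper472.Lat_ABg
import Pool.Agent.Helper472.Lat_AFIg
import Pool.Agent.Helper472.Lat_T8g
import Pool.Agent.Helper472.Lat_CORE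
import Pool.Agent.Helper472.Lat_QUO
import Pool.Agent.Helper472.Lat_T11ag
import Pool.Agent.Helper472.Lat_LTD
import Pool.Agent.Helper472.Lat_G1
import Pool.Agent.Helper472.Lat_RED
import Pool.Agent.Helper472.Lat_G2
import Pool.Agent.Helper472.Lat_G3

set_option autoImplicit false

namespace Pool.LatH472

theorem C_L7 : StL7 := fun K _ _ _ _ _ h => A_L7 K h
theorem C_chars : StChars := fun K _ _ _ _ _ k hk => chars k hk
theorem C_ABF : StABF := ABF C_L7
theorem C_FR : StFR := FR0 C_ABF FI0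
theorem C_PQ1 : StPQ1g := PQ1g C_ABF
theorem C_KL1 : StKL1g := KL1g C_FR FR1 FR2 B_SCH
theorem C_KL : StKLg := KLg C_ABF FR1 FR2 C_KL1 C_PQ1 PQ2
theorem C_ABQ : StABQg := ABQg C_ABF RES ORE INT
theorem C_AB : StABg := ABg C_KL RES
theorem C_AFI : StAFIg := AFIg C_ABQ C_AB RES
theorem C_T8 : StT8g := T8g C_FR FR1 FR2
theorem C_T11 : StT11ag := T11ag C_chars
theorem C_LTD : StLTD := LTD C_chars
theorem C_G1 : StG1 := G1 B_TD C_AFI C_T8 CORE
theorem C_RED : StRED := RED RES A_L1 C_T11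
theorem C_G2 : StG2 := G2 C_G1 C_RED C_LTD
theorem C_G3 : StG3 := G3 B_TD C_G2 C_AFI C_T8 CORE QUO RES A_L1 A_L2

theorem C_G4 : StG4 := by
  intro G H _ _ _ _ _ _ _ _ _ _ hC φ hG hE
  refine C_RED G H φ hG hE ?_
  intro A hA _ X ψ
  haveI : CompactSpace ↥A.1 := isCompact_iff_compactSpace.mp hA
  haveI : LocallyCompactSpace ↥X.1 := X.2.isClosedEmbedding_subtypeVal.locallyCompactSpace
  refine C_G3 ↥A.1 ↥X.1 (hC A.1 hA) ψ ?_
  intro x
  obtain ⟨K, hK, hx⟩ := hE x.1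
  exact ⟨K.subgroupOf X.1, X.2.isClosedEmbedding_subtypeVal.isCompact_preimage hK, hx⟩

end Pool.LatH472
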