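import Mathlib
import Pool.Agent.Helper472.LatDefs3

set_option autoImplicit false

namespace Pool.LatH472

open Pointwise

theorem ABa_elem {H : Type} [Group H] [TopologicalSpace H] (hE : ElemCompact H)
    (A : Subgroup H) (hA : IsClosed (A : Set H)) : ElemCompact ↥A := by
  intro g
  obtain ⟨K, hK, hg⟩ := hE g.1
  refine ⟨K.comap A.subtype, ?_, hg⟩
  exact hA.isClosedEmbedding_subtypeVal.isCompact_preimage hK

theorem ABa_sub {G : Type} [Group G] (N : Subgroup G) [N.Normal] [Finite (G ⧸ N)]
    (hcard : N.index ≠ 1) : ∃ (Z : Subgroup G), N ≤ Z ∧ (N.relIndex Z).Prime := by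
  have h1 : Nat.card (G ⧸ N) ≠ 1 := hcard
  obtain ⟨p, hp, hpd⟩ := Nat.exists_prime_and_dvd h1
  have : Fact p.Prime := ⟨hp⟩
  obtain ⟨x, hx⟩ := exists_prime_orderOf_dvd_card' (G := G ⧸ N) p hpd
  refine ⟨(Subgroup.zpowers x).comap (QuotientGroup.mk' N), ?_, ?_⟩
  · intro g hg
    show (QuotientGroup.mk' N) g ∈ Subgroup.zpowers x
    have h2 : (QuotientGroup.mk' N) g = 1 := (QuotientGroup.eq_one_iff g).2 hg
    rw [h2]
    exact one_mem _
  · have h2 : N.relIndex ((Subgroup.zpowers x).comap (QuotientGroup.mk' N)) = p := by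
      have h3 : N = (⊥ : Subgroup (G ⧸ N)).comap (QuotientGroup.mk' N) := by
        rw [MonoidHom.comap_bot, QuotientGroup.ker_mk']
      have h4 : ((⊥ : Subgroup (G ⧸ N)).comap (QuotientGroup.mk' N)).relIndex
          ((Subgroup.zpowers x).comap (QuotientGroup.mk' N)) = p := by
        rw [Subgroup.relIndex_comap, Subgroup.map_comap_eq_self_of_surjective
          (QuotientGroup.mk'_surjective N), Subgroup.relIndex_bot_left, Nat.card_zpowers, hx]
      exact (congrArg (fun K : Subgroup G => K.relIndex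
        ((Subgroup.zpowers x).comap (QuotientGroup.mk' N))) h3).trans h4
    rw [h2]
    exact hp

theorem ABa_ind (hKL : StKLa) (hRES : StRES) (G H : Type) [Group G] [TopologicalSpace G]
    [IsTopologicalGroup G] [CompactSpace G] [T2Space G]
    [Group H] [TopologicalSpace H] [IsTopologicalGroup H]
    [T2Space H] (φ : CL G ≃o CL H)
    (hE : ElemCompact H) (n : ℕ) : ∀ (N : CL G), N.1.Normal → IsOpen (N.1 : Set G) →
    (∀ a b : G, a * b * a⁻¹ * b⁻¹ ∈ N.1) → N.1.index = n → (φ N).1.FiniteIndex := by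
  induction n using Nat.strong_induction_on with
  | _ n ih =>
    intro N hN hNo hNc hn
    have hfin : Finite (G ⧸ N.1) := Subgroup.quotient_finite_of_isOpen N.1 hNo
    by_cases hcard : N.1.index = 1
    · have htop : N.1 = ⊤ := Subgroup.index_eq_one.1 hcard
      have h1 : ∀ K : CL G, K ≤ N := fun K => by
        show K.1 ≤ N.1
        rw [htop]
        exact le_top
      have h2 : ∀ K : CL H, K ≤ φ N := fun K => by
        have := φ.monotone (h1 (φ.symm K))
        rwa [φ.apply_symm_apply] at this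
      have h3 : (⊤ : Subgroup H) ≤ (φ N).1 := h2 ⟨⊤, isClosed_univ⟩
      have h4 : (φ N).1 = ⊤ := top_le_iff.1 h3
      rw [h4]
      infer_instance
    · obtain ⟨Z, hNZ, hprime⟩ := ABa_sub N.1 hcard
      have hZo : IsOpen (Z : Set G) := Subgroup.isOpen_mono hNZ hNo
      have hZcl : IsClosed (Z : Set G) := Subgroup.isClosed_of_isOpen Z hZo
      have hZc : ∀ a b : G, a * b * a⁻¹ * b⁻¹ ∈ Z := fun a b => hNZ (hNc a b)
      have hZn : Z.Normal := by
        constructor
        intro z hz g
        have h1 := Z.mul_mem (hZc g z) hz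
        have h2 : g * z * g⁻¹ * z⁻¹ * z = g * z * g⁻¹ := by group
        rwa [h2] at h1
      have hidx := Subgroup.relIndex_mul_index hNZ
      have hNpos : 0 < N.1.index := Nat.pos_of_ne_zero (by
        have : N.1.FiniteIndex := Subgroup.finiteIndex_of_finite_quotient
        exact this.index_ne_zero)
      have hZlt : Z.index < n := by
        rw [← hn, ← hidx]
        have h2 := hprime.two_le
        have h3 : 0 < Z.index := by
          rcases Nat.eq_zero_or_pos Z.index with h | h
          · rw [h, mul_zero] at hidx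
            omega
          · exact h
        nlinarith
      have hZfi := ih Z.index hZlt ⟨Z, hZcl⟩ hZn hZo hZc rfl
      obtain ⟨ψ, hψ⟩ := hRES G H φ ⟨Z, hZcl⟩
      have hcompZ : CompactSpace ↥Z := isCompact_iff_compactSpace.1 hZcl.isCompact
      have hSn : (N.1.subgroupOf Z).Normal := inferInstance
      have hSo : IsOpen ((N.1.subgroupOf Z : Subgroup ↥Z) : Set ↥Z) :=
        hNo.preimage continuous_subtype_val
      have hScl : IsClosed ((N.1.subgroupOf Z : Subgroup ↥Z) : Set ↥Z) :=
        N.2.preimage continuous_subtype_val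
      have hkl := @hKL ↥Z ↥(φ ⟨Z, hZcl⟩).1 _ _ _ hcompZ _ _ _ _ _ ψ
        (ABa_elem hE _ (φ ⟨Z, hZcl⟩).2) ⟨N.1.subgroupOf Z, hScl⟩ hSn hSo hprime
      have hmap := hψ ⟨N.1.subgroupOf Z, hScl⟩ N (Subgroup.map_subgroupOf_eq_of_le hNZ).symm
      have hle : (φ N).1 ≤ (φ ⟨Z, hZcl⟩).1 := φ.monotone (show N ≤ ⟨Z, hZcl⟩ from hNZ)
      have hsub : (φ N).1.subgroupOf (φ ⟨Z, hZcl⟩).1 = (ψ ⟨N.1.subgroupOf Z, hScl⟩).1 := by
        rw [← hmap]
        exact Subgroup.comap_map_eq_self_of_injective (Subgroup.subtype_injective _) _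
      constructor
      rw [← Subgroup.relIndex_mul_index hle]
      refine mul_ne_zero ?_ hZfi.index_ne_zero
      rw [Subgroup.relIndex, hsub]
      exact hkl.index_ne_zero

theorem ABa (hKL : StKLa) (hRES : StRES) : StABa := by
  intro G H _ _ _ _ _ _ _ _ _ φ hE N hN hNo hNc
  exact ABa_ind hKL hRES G H φ hE N.1.index N hN hNo hNc rfl

end Pool.LatH472
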