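import Mathlib
import Pool.Agent.Helper472.LatDefs3

set_option autoImplicit false

namespace Pool.LatH472

open Pointwise

theorem AFIa_sub (hAB : StABa) (hRES : StRES) (G H : Type) [Group G] [TopologicalSpace G]
    [IsTopologicalGroup G] [CompactSpace G] [T2Space G]
    [Group H] [TopologicalSpace H] [IsTopologicalGroup H]
    [T2Space H] (φ : CL G ≃o CL H)
    (hE : ElemCompact H) (N : CL G) (hn : N.1.Normal) (hNo : IsOpen (N.1 : Set G))
    (X : CL G) (hNX : N ≤ X)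
    (hc : ∀ a ∈ X.1, ∀ b ∈ X.1, a * b * a⁻¹ * b⁻¹ ∈ N.1) :
    ((φ N).1.subgroupOf (φ X).1).FiniteIndex := by
  obtain ⟨ψ, hψ⟩ := hRES G H φ X
  have hXc : CompactSpace ↥X.1 := isCompact_iff_compactSpace.1 X.2.isCompact
  have hEX : ElemCompact ↥(φ X).1 := by
    intro g
    obtain ⟨K, hK, hg⟩ := hE (g : H)
    refine ⟨K.subgroupOf (φ X).1, ?_, ?_⟩
    · exact (φ X).2.isClosedEmbedding_subtypeVal.isCompact_preimage hK
    · rw [Subgroup.mem_subgroupOf]; exact hg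
  let S : CL ↥X.1 := ⟨N.1.subgroupOf X.1, N.2.preimage continuous_subtype_val⟩
  have hSn : S.1.Normal := by
    show (N.1.subgroupOf X.1).Normal
    infer_instance
  have hSo : IsOpen (S.1 : Set ↥X.1) := hNo.preimage continuous_subtype_val
  have hfi := hAB ↥X.1 ↥(φ X).1 ψ hEX S hSo (by
    rintro ⟨a, ha⟩ ⟨b, hb⟩
    show _ ∈ N.1.subgroupOf X.1
    rw [Subgroup.mem_subgroupOf]
    exact hc a ha b hb)
  have h1 := hψ S N (Subgroup.map_subgroupOf_eq_of_le (show N.1 ≤ X.1 from hNX)).symm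
  have h2 : (φ N).1.subgroupOf (φ X).1 = (ψ S).1 := by
    rw [← h1]
    exact Subgroup.comap_map_eq_self_of_injective (Subgroup.subtype_injective _) _
  rw [h2]
  exact hfi

theorem AFIa (hABQ : StABQg) (hAB : StABa) (hRES : StRES) : StAFIa := by
  intro G H _ _ _ _ _ _ _ _ _ φ hE W hWo
  have hWf : Finite (G ⧸ W.1) := W.1.quotient_finite_of_isOpen hWo
  have hWi : W.1.FiniteIndex := W.1.finiteIndex_of_finite_quotient
  have hNcl : IsClosed (W.1.normalCore : Set G) := W.1.normalCore_isClosed W.2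
  have hNfi : W.1.normalCore.FiniteIndex := inferInstance
  have hNo : IsOpen (W.1.normalCore : Set G) :=
    W.1.normalCore.isOpen_of_isClosed_of_finiteIndex hNcl
  let N : CL G := ⟨W.1.normalCore, hNcl⟩
  have hNn : N.1.Normal := W.1.normalCore_normal
  have hNW : N ≤ W := W.1.normalCore_le
  have hfinQ : Finite (G ⧸ N.1) := by
    show Finite (G ⧸ W.1.normalCore)
    infer_instance
  -- finitely many X
  have hXfin : {X : CL G | N ≤ X}.Finite := by
    have hfs : Finite (Subgroup (G ⧸ N.1)) := inferInstance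
    apply Set.Finite.of_injOn (f := fun X : CL G => X.1.map (QuotientGroup.mk' N.1))
      (t := Set.univ) (fun _ _ => Set.mem_univ _) _ Set.finite_univ
    intro X hX Y hY hXY
    apply Subtype.ext
    have e : ∀ Z : CL G, N ≤ Z → (Z.1.map (QuotientGroup.mk' N.1)).comap (QuotientGroup.mk' N.1)
        = Z.1 := by
      intro Z hZ
      rw [Subgroup.comap_map_eq, QuotientGroup.ker_mk']
      exact sup_eq_left.2 hZ
    have h1 := congrArg (Subgroup.comap (QuotientGroup.mk' N.1)) hXY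
    simp only at h1
    rw [e X hX, e Y hY] at h1
    exact h1
  -- images are finite
  have himg : ∀ X : CL G, N ≤ X → (∀ a ∈ X.1, ∀ b ∈ X.1, a * b * a⁻¹ * b⁻¹ ∈ N.1) →
      ((fun x : H => (x : H ⧸ (φ N).1)) '' ((φ X).1 : Set H)).Finite := by
    intro X hNX hc
    have hfi := AFIa_sub hAB hRES G H φ hE N hNn hNo X hNX hc
    have hfq : Finite (↥(φ X).1 ⧸ (φ N).1.subgroupOf (φ X).1) := inferInstance
    apply (Set.finite_range (fun c : ↥(φ X).1 ⧸ (φ N).1.subgroupOf (φ X).1 =>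
      ((c.out : H) : H ⧸ (φ N).1))).subset
    rintro _ ⟨x, hx, rfl⟩
    refine ⟨((⟨x, hx⟩ : ↥(φ X).1) : ↥(φ X).1 ⧸ (φ N).1.subgroupOf (φ X).1), ?_⟩
    obtain ⟨n, hn⟩ := QuotientGroup.mk_out_eq_mul ((φ N).1.subgroupOf (φ X).1) (⟨x, hx⟩ : ↥(φ X).1)
    simp only
    rw [hn]
    apply QuotientGroup.eq.2
    have h3 : ((n : ↥(φ X).1) : H) ∈ (φ N).1 := Subgroup.mem_subgroupOf.1 n.2
    have h4 : (((⟨x, hx⟩ : ↥(φ X).1) * (n : ↥(φ X).1) : ↥(φ X).1) : H) = x * ((n : ↥(φ X).1) : H) := rfl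
    rw [h4, mul_inv_rev, mul_assoc, inv_mul_cancel, mul_one]
    exact (φ N).1.inv_mem h3
  have huniv : (Set.univ : Set (H ⧸ (φ N).1)) ⊆
      ⋃ X ∈ {X : CL G | N ≤ X ∧ ∀ a ∈ X.1, ∀ b ∈ X.1, a * b * a⁻¹ * b⁻¹ ∈ N.1},
        ((fun x : H => (x : H ⧸ (φ N).1)) '' ((φ X).1 : Set H)) := by
    intro c _
    obtain ⟨h, rfl⟩ := QuotientGroup.mk_surjective c
    obtain ⟨X, hNX, hhX, hc⟩ := hABQ G H φ hE N hNo h
    rw [Set.mem_iUnion₂]
    exact ⟨X, ⟨hNX, hc⟩, h, hhX, rfl⟩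
  have hfinU : (Set.univ : Set (H ⧸ (φ N).1)).Finite := by
    refine Set.Finite.subset ?_ huniv
    apply Set.Finite.biUnion (hXfin.subset (fun X hX => hX.1))
    intro X hX
    exact himg X hX.1 hX.2
  have hfq : Finite (H ⧸ (φ N).1) := Set.finite_univ_iff.1 hfinU
  have hfi : (φ N).1.FiniteIndex := (φ N).1.finiteIndex_of_finite_quotient
  exact Subgroup.finiteIndex_of_le (show (φ N).1 ≤ (φ W).1 from φ.monotone hNW)

end Pool.LatH472
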