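import Mathlib
import Pool.Agent.Helper472.LatDefs3

set_option autoImplicit false

namespace Pool.LatH472

open Pointwise

theorem CCC_elem {H : Type} [Group H] [TopologicalSpace H] [IsTopologicalGroup H] [T2Space H]
    (hE : ElemCompact H) (S : Subgroup H) (hS : IsClosed (S : Set H)) : ElemCompact ↥S := by
  intro g
  obtain ⟨K, hK, hg⟩ := hE (g : H)
  refine ⟨K.comap S.subtype, ?_, hg⟩
  exact hS.isClosedEmbedding_subtypeVal.isCompact_preimage hK

theorem CCC_comm {H : Type} [Group H] [TopologicalSpace H] [IsTopologicalGroup H] [T2Space H]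
    (h : H) : ∀ a ∈ Zc h, ∀ b ∈ Zc h, a * b = b * a := by
  have h1 : Subgroup.zpowers h ≤ Subgroup.centralizer (Subgroup.zpowers h : Set H) := by
    intro x hx
    rw [Subgroup.mem_centralizer_iff]
    intro y hy
    obtain ⟨m, rfl⟩ := Subgroup.mem_zpowers_iff.mp hx
    obtain ⟨n, rfl⟩ := Subgroup.mem_zpowers_iff.mp hy
    rw [← zpow_add, ← zpow_add, add_comm]
  have hcl : ∀ s : Set H, IsClosed ((Subgroup.centralizer s : Subgroup H) : Set H) := fun s =>
    Set.isClosed_centralizer s
  have h2 : Zc h ≤ Subgroup.centralizer (Subgroup.zpowers h : Set H) :=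
    Subgroup.topologicalClosure_minimal _ h1 (hcl _)
  have h3 : Zc h ≤ Subgroup.centralizer (Zc h : Set H) := by
    apply Subgroup.topologicalClosure_minimal _ _ (hcl _)
    intro x hx
    rw [Subgroup.mem_centralizer_iff]
    intro y hy
    have := (Subgroup.mem_centralizer_iff.mp (h2 hy)) x hx
    exact this.symm
  intro a ha b hb
  have := (Subgroup.mem_centralizer_iff.mp (h3 hb)) a ha
  exact this

theorem CCC (hTT : StTT) (hEPS2 : StEPS2) (hEPS3 : StEPS3) (hCHAB : StCHAB) (hDENS : StDENS)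
    (hPROC : StPROC) (hG1 : StG1td) (hRES : StRES) : StCCC := by
  intro G H _ _ _ _ _ _ _ _ _ _ _ φ hE
  obtain ⟨C, hC, hCS⟩ := hCHAB H hE
  have hCcl : IsClosed C := hC.isClosed
  -- main claim for elements with totally disconnected monothetic group
  have key : ∀ z : H, IsCompact ((Zc z : Subgroup H) : Set H) →
      IsTotallyDisconnected ((Zc z : Subgroup H) : Set H) → z ∈ C := by
    intro z hzc hztd
    let E' : CL H := ⟨Zc z, Subgroup.isClosed_topologicalClosure _⟩
    let Cc : CL G := φ.symm E'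
    have hEE : φ Cc = E' := φ.apply_symm_apply E'
    have hcomp : IsCompact (((φ Cc).1 : Subgroup H) : Set H) := by rw [hEE]; exact hzc
    have htd : IsTotallyDisconnected (((φ Cc).1 : Subgroup H) : Set H) := by rw [hEE]; exact hztd
    have hzmem : z ∈ (φ Cc).1 := by
      rw [hEE]
      exact Subgroup.le_topologicalClosure _ (Subgroup.mem_zpowers z)
    obtain ⟨ψ, -⟩ := hRES G H φ Cc
    have : CompactSpace ↥(φ Cc).1 := isCompact_iff_compactSpace.mp hcomp
    have : TotallyDisconnectedSpace ↥(φ Cc).1 :=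
      (totallyDisconnectedSpace_subtype_iff).mpr htd
    have : CompactSpace ↥Cc.1 := isCompact_iff_compactSpace.mp Cc.2.isCompact
    have hElC : ElemCompact ↥Cc.1 := fun g => ⟨⊤, by
      simpa using (isCompact_univ : IsCompact (Set.univ : Set ↥Cc.1)), trivial⟩
    have : TotallyDisconnectedSpace ↥Cc.1 := hG1 ↥(φ Cc).1 ↥Cc.1 ψ.symm hElC
    have hgen : ∃ e : ↥(φ Cc).1, Zc e = ⊤ := by
      refine ⟨⟨z, hzmem⟩, ?_⟩
      rw [eq_top_iff]
      intro x _
      have hx : (x : H) ∈ Zc z := (hEE.le : φ Cc ≤ E') x.2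
      show x ∈ closure ((Subgroup.zpowers (⟨z, hzmem⟩ : ↥(φ Cc).1) : Subgroup _) : Set _)
      rw [closure_subtype]
      have himg : (Subtype.val '' ((Subgroup.zpowers (⟨z, hzmem⟩ : ↥(φ Cc).1) : Subgroup _) :
          Set ↥(φ Cc).1)) = ((Subgroup.zpowers z : Subgroup H) : Set H) := by
        ext y
        constructor
        · rintro ⟨w, hw, rfl⟩
          obtain ⟨m, rfl⟩ := Subgroup.mem_zpowers_iff.mp hw
          exact Subgroup.mem_zpowers_iff.mpr ⟨m, by simp⟩
        · intro hy
          obtain ⟨m, rfl⟩ := Subgroup.mem_zpowers_iff.mp hy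
          exact ⟨(⟨z, hzmem⟩ : ↥(φ Cc).1) ^ m, Subgroup.mem_zpowers_iff.mpr ⟨m, rfl⟩, by simp⟩
      rw [himg]
      exact hx
    obtain ⟨c, hc⟩ := hPROC ↥Cc.1 ↥(φ Cc).1 ψ hgen
    obtain ⟨K, hKcl, hcK, hKconn, hKcomm⟩ := hTT G (c : G)
    let Kc : CL G := ⟨K, hKcl⟩
    have hle : Cc ≤ Kc := by
      intro x hx
      have h1 : (⟨x, hx⟩ : ↥Cc.1) ∈ Zc c := by rw [hc]; trivial
      have h2 : Zc c ≤ K.comap Cc.1.subtype := by
        apply Subgroup.topologicalClosure_minimal
        · rw [Subgroup.zpowers_le]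
          exact hcK
        · exact hKcl.preimage continuous_subtype_val
      exact h2 h1
    have hzK : z ∈ (φ Kc).1 := (φ.monotone hle) hzmem
    obtain ⟨ψ', -⟩ := hRES G H φ Kc
    have : CompactSpace ↥Kc.1 := isCompact_iff_compactSpace.mp Kc.2.isCompact
    have : ConnectedSpace ↥Kc.1 := isConnected_iff_connectedSpace.mp hKconn
    have : LocallyCompactSpace ↥(φ Kc).1 := (φ Kc).2.isClosedEmbedding_subtypeVal.locallyCompactSpace
    have hcK' : ∀ a b : ↥Kc.1, a * b = b * a := fun a b => Subtype.ext (hKcomm a a.2 b b.2)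
    obtain ⟨h1, h2⟩ := hEPS2 ↥Kc.1 ↥(φ Kc).1 hcK' ψ' (CCC_elem hE _ (φ Kc).2)
    have := h1
    have := h2
    have h3 := hEPS3 ↥Kc.1 ↥(φ Kc).1 hcK' ψ'
    exact hCS (φ Kc).1 (isCompact_iff_compactSpace.mpr h1) (isConnected_iff_connectedSpace.mpr h2)
      (fun a ha b hb => congrArg Subtype.val (h3 ⟨a, ha⟩ ⟨b, hb⟩)) hzK
  have all : ∀ h : H, h ∈ C := by
    intro h
    obtain ⟨K, hK, hhK⟩ := hE h
    have hZK : Zc h ≤ K := Subgroup.topologicalClosure_minimal _
      ((Subgroup.zpowers_le).mpr hhK) hK.isClosed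
    have hZcl : IsClosed ((Zc h : Subgroup H) : Set H) := Subgroup.isClosed_topologicalClosure _
    have hZc : IsCompact ((Zc h : Subgroup H) : Set H) := hK.of_isClosed_subset hZcl hZK
    have : CompactSpace ↥(Zc h) := isCompact_iff_compactSpace.mp hZc
    have hcomm : ∀ a b : ↥(Zc h), a * b = b * a := fun a b =>
      Subtype.ext (CCC_comm h a a.2 b b.2)
    have hd := hDENS ↥(Zc h) hcomm
    have hpre : IsClosed ((Subtype.val : ↥(Zc h) → H) ⁻¹' C) := hCcl.preimage continuous_subtype_val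
    have hsub : {z : ↥(Zc h) | IsTotallyDisconnected ((Zc z : Subgroup ↥(Zc h)) : Set ↥(Zc h))} ⊆
        (Subtype.val : ↥(Zc h) → H) ⁻¹' C := by
      intro z hz
      have hz' : IsTotallyDisconnected ((Zc z : Subgroup ↥(Zc h)) : Set ↥(Zc h)) := hz
      have hcz : IsCompact ((Zc z : Subgroup ↥(Zc h)) : Set ↥(Zc h)) :=
        (Subgroup.isClosed_topologicalClosure _).isCompact
      have himgc : IsCompact ((((Zc z : Subgroup ↥(Zc h))).map (Zc h).subtype : Subgroup H) :
          Set H) := by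
        rw [Subgroup.coe_map]
        exact hcz.image continuous_subtype_val
      have hle : Zc (z : H) ≤ ((Zc z : Subgroup ↥(Zc h))).map (Zc h).subtype := by
        apply Subgroup.topologicalClosure_minimal _ _ himgc.isClosed
        rw [Subgroup.zpowers_le]
        exact ⟨z, Subgroup.le_topologicalClosure _ (Subgroup.mem_zpowers z), rfl⟩
      have htdimg : IsTotallyDisconnected ((((Zc z : Subgroup ↥(Zc h))).map (Zc h).subtype :
          Subgroup H) : Set H) := by
        rw [Subgroup.coe_map]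
        exact (Topology.IsEmbedding.subtypeVal.isTotallyDisconnected_image).mpr hz'
      exact key (z : H) (himgc.of_isClosed_subset (Subgroup.isClosed_topologicalClosure _) hle)
        (fun t ht => htdimg t (ht.trans hle))
    have h1 : (⟨h, Subgroup.le_topologicalClosure _ (Subgroup.mem_zpowers h)⟩ : ↥(Zc h)) ∈
        closure {z : ↥(Zc h) | IsTotallyDisconnected ((Zc z : Subgroup ↥(Zc h)) :
          Set ↥(Zc h))} := hd _
    exact (hpre.closure_subset_iff.mpr hsub) h1
  exact ⟨hC.of_isClosed_subset isClosed_univ (fun h _ => all h)⟩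

end Pool.LatH472
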