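import Mathlib
import Pool.Agent.Helper472.LatDefs3

set_option autoImplicit false

namespace Pool.LatH472

open Pointwise

open Topology Filter in
/-- limit subgroup of a family of subgroups along an ultrafilter -/
def CHAB_lim {H I : Type} [Group H] [TopologicalSpace H] [IsTopologicalGroup H]
    (U : Ultrafilter I) (S : I → Subgroup H) : Subgroup H where
  carrier := {x | ∀ O ∈ 𝓝 x, ∀ᶠ C in (U : Filter I), ((S C : Set H) ∩ O).Nonempty}
  one_mem' := fun O hO => Eventually.of_forall fun C => ⟨1, (S C).one_mem, mem_of_mem_nhds hO⟩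
  mul_mem' := by
    intro x y hx hy O hO
    have h1 : Tendsto (fun p : H × H => p.1 * p.2) (𝓝 (x, y)) (𝓝 (x * y)) :=
      continuous_mul.continuousAt
    have h2 := h1 hO
    rw [mem_map, mem_nhds_prod_iff] at h2
    obtain ⟨Ox, hOx, Oy, hOy, h3⟩ := h2
    filter_upwards [hx Ox hOx, hy Oy hOy] with C hC1 hC2
    obtain ⟨s, hs, hs'⟩ := hC1
    obtain ⟨t, ht, ht'⟩ := hC2
    exact ⟨s * t, (S C).mul_mem hs ht, h3 (Set.mk_mem_prod hs' ht')⟩
  inv_mem' := by
    intro x hx O hO
    have h1 : Tendsto (fun p : H => p⁻¹) (𝓝 x) (𝓝 x⁻¹) := continuous_inv.continuousAt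
    have h2 := h1 hO
    filter_upwards [hx _ h2] with C hC
    obtain ⟨s, hs, hs'⟩ := hC
    exact ⟨s⁻¹, (S C).inv_mem hs, hs'⟩

open Topology Filter in
theorem CHAB_lim_closed {H I : Type} [Group H] [TopologicalSpace H] [IsTopologicalGroup H]
    (U : Ultrafilter I) (S : I → Subgroup H) : IsClosed ((CHAB_lim U S : Subgroup H) : Set H) := by
  rw [← closure_subset_iff_isClosed]
  intro x hx O hO
  obtain ⟨O', hO', hO'o, hxO'⟩ := mem_nhds_iff.1 hO
  obtain ⟨y, hy1, hy2⟩ := mem_closure_iff.1 hx O' hO'o hxO'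
  filter_upwards [hy2 O' (hO'o.mem_nhds hy1)] with C hC
  exact hC.mono (Set.inter_subset_inter_right _ hO')

open Topology Filter in
theorem CHAB_lim_comm {H I : Type} [Group H] [TopologicalSpace H] [IsTopologicalGroup H] [T2Space H]
    (U : Ultrafilter I) (S : I → Subgroup H) (hS : ∀ C, ∀ a ∈ S C, ∀ b ∈ S C, a * b = b * a)
    (x y : H) (hx : x ∈ CHAB_lim U S) (hy : y ∈ CHAB_lim U S) : x * y = y * x := by
  by_contra hne
  have h1 : IsClosed {p : H × H | p.1 * p.2 = p.2 * p.1} :=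
    isClosed_eq (continuous_fst.mul continuous_snd) (continuous_snd.mul continuous_fst)
  have h2 : {p : H × H | p.1 * p.2 = p.2 * p.1}ᶜ ∈ 𝓝 (x, y) := h1.isOpen_compl.mem_nhds hne
  rw [mem_nhds_prod_iff] at h2
  obtain ⟨Ox, hOx, Oy, hOy, h3⟩ := h2
  obtain ⟨C, ⟨s, hs, hs'⟩, t, ht, ht'⟩ := ((hx Ox hOx).and (hy Oy hOy)).exists
  exact h3 (Set.mk_mem_prod hs' ht') (hS C s hs t ht)

open Topology Filter in
theorem CHAB_open_sub (hL1 : StL1) (hL3 : StL3) (H : Type) [Group H] [TopologicalSpace H]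
    [IsTopologicalGroup H] [LocallyCompactSpace H] [T2Space H] (hE : ElemCompact H)
    (A : Subgroup H) (hA : IsClosed (A : Set H)) (hc : ∀ x ∈ A, ∀ y ∈ A, x * y = y * x) :
    ∃ K : Subgroup A, IsCompact (K : Set A) ∧ IsOpen (K : Set A) := by
  have hemb : IsClosedEmbedding (Subtype.val : A → H) := hA.isClosedEmbedding_subtypeVal
  have : LocallyCompactSpace A := hemb.locallyCompactSpace
  have hEA : ElemCompact A := by
    intro g
    obtain ⟨K, hK, hg⟩ := hE g.1
    exact ⟨K.subgroupOf A, hemb.isCompact_preimage hK, hg⟩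
  let inst : CommGroup A := { (inferInstance : Group A) with
    mul_comm := fun a b => Subtype.ext (hc a.1 a.2 b.1 b.2) }
  have hI : IndCompact A := @hL3 A inst _ _ _ hEA
  obtain ⟨Q, hQ, hQ1⟩ := exists_compact_mem_nhds (1 : A)
  obtain ⟨K, hK, hQK⟩ := hL1 A ⊤ (by simp) (fun F _ => hI F) Q hQ
  exact ⟨K, hK, Subgroup.isOpen_of_mem_nhds K (g := 1) (mem_of_superset hQ1 hQK)⟩

theorem CHAB (hL1 : StL1) (hL3 : StL3) : StCHAB := by
  intro H _ _ _ _ _ hE
  by_contra hcon
  push Not at hcon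
  choose S hS1 hS2 hS3 hS4 using fun C : TopologicalSpace.Compacts H => hcon C.1 C.2
  let U : Ultrafilter (TopologicalSpace.Compacts H) := Ultrafilter.of Filter.atTop
  have hU : (U : Filter (TopologicalSpace.Compacts H)) ≤ Filter.atTop := Ultrafilter.of_le _
  let A : Subgroup H := CHAB_lim U S
  have hA : IsClosed (A : Set H) := CHAB_lim_closed U S
  have hemb : Topology.IsClosedEmbedding (Subtype.val : A → H) := hA.isClosedEmbedding_subtypeVal
  obtain ⟨K, hK, hKo⟩ := CHAB_open_sub hL1 hL3 H hE A hA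
    (fun x hx y hy => CHAB_lim_comm U S hS3 x y hx hy)
  let A1 : Set H := Subtype.val '' (K : Set A)
  have hA1c : IsCompact A1 := hK.image continuous_subtype_val
  let B : Set H := Subtype.val '' ((K : Set A)ᶜ)
  have hB : IsClosed B := hemb.isClosedMap _ hKo.isClosed_compl
  have hAB : A1 ⊆ Bᶜ := by
    rintro x ⟨y, hy, rfl⟩ ⟨z, hz, hzy⟩
    have : z = y := Subtype.ext hzy
    subst this
    exact hz hy
  obtain ⟨W0, hW0, hAW, hWB, hWc⟩ := exists_open_between_and_isCompact_closure hA1c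
    hB.isOpen_compl hAB
  have hfr : IsCompact (closure W0 \ W0) := hWc.diff hW0
  have hfrA : ∀ x ∈ closure W0 \ W0, x ∉ A := by
    rintro x ⟨hx1, hx2⟩ hxA
    by_cases hxK : (⟨x, hxA⟩ : A) ∈ K
    · exact hx2 (hAW ⟨⟨x, hxA⟩, hxK, rfl⟩)
    · exact hWB hx1 ⟨⟨x, hxA⟩, hxK, rfl⟩
  have hfin : ∀ᶠ C in (U : Filter (TopologicalSpace.Compacts H)),
      ¬ ((S C : Set H) ∩ (closure W0 \ W0)).Nonempty := by
    refine hfr.induction_on (p := fun s => ∀ᶠ C in (U : Filter (TopologicalSpace.Compacts H)),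
      ¬ ((S C : Set H) ∩ s).Nonempty) ?_ ?_ ?_ ?_
    · exact Filter.Eventually.of_forall fun C h => by
        obtain ⟨x, _, hx⟩ := h
        exact hx
    · intro s t hst ht
      filter_upwards [ht] with C hC h
      exact hC (h.mono (Set.inter_subset_inter_right _ hst))
    · intro s t hs ht
      filter_upwards [hs, ht] with C hC1 hC2 h
      obtain ⟨x, hx, hx' | hx'⟩ := h
      · exact hC1 ⟨x, hx, hx'⟩
      · exact hC2 ⟨x, hx, hx'⟩
    · intro x hx
      have h1 : ¬ ∀ O ∈ nhds x, ∀ᶠ C in (U : Filter (TopologicalSpace.Compacts H)),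
          ((S C : Set H) ∩ O).Nonempty := hfrA x hx
      push Not at h1
      obtain ⟨O, hO, h2⟩ := h1
      refine ⟨O, mem_nhdsWithin_of_mem_nhds hO, ?_⟩
      filter_upwards [h2] with C hC h
      rw [hC] at h
      exact Set.not_nonempty_empty h
  have hbig : ∀ᶠ C in (U : Filter (TopologicalSpace.Compacts H)),
      (⟨closure W0, hWc⟩ : TopologicalSpace.Compacts H) ≤ C := hU (Filter.mem_atTop _)
  obtain ⟨C, hC1, hC2⟩ := (hfin.and hbig).exists
  have h1 : (1 : H) ∈ W0 := hAW ⟨1, K.one_mem, rfl⟩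
  have hsub : (S C : Set H) ⊆ W0 ∪ (closure W0)ᶜ := by
    intro x hx
    by_cases hxW : x ∈ closure W0
    · left
      by_contra hx0
      exact hC1 ⟨x, hx, hxW, hx0⟩
    · right
      exact hxW
  have hdis : Disjoint W0 (closure W0)ᶜ := by
    rw [Set.disjoint_compl_right_iff_subset]
    exact subset_closure
  have hin : (S C : Set H) ⊆ W0 := IsPreconnected.subset_left_of_subset_union hW0
    isClosed_closure.isOpen_compl hdis hsub ⟨1, (S C).one_mem, h1⟩ (hS2 C).isPreconnected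
  exact hS4 C (hin.trans (subset_closure.trans hC2))

end Pool.LatH472
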