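import Mathlib
import Pool.Agent.Helper472.LatDefs3

set_option autoImplicit false

namespace Pool.LatH472

open Pointwise

open Filter Topology in
theorem CST1_tele {𝔸 : Type*} [NormedRing 𝔸] [StarRing 𝔸] [CStarRing 𝔸] (u v : 𝔸)
    (hu : u ∈ unitary 𝔸) (hv : v ∈ unitary 𝔸) (n : ℕ) : ‖u ^ n - v ^ n‖ ≤ n * ‖u - v‖ := by
  induction n with
  | zero => simp
  | succ n ih =>
    have e : u ^ (n + 1) - v ^ (n + 1) = u ^ n * (u - v) + (u ^ n - v ^ n) * v := by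
      rw [pow_succ, pow_succ]
      noncomm_ring
    rw [e]
    refine (norm_add_le _ _).trans ?_
    have hun : u ^ n ∈ unitary 𝔸 := pow_mem hu n
    rw [CStarRing.norm_mem_unitary_mul _ hun, CStarRing.norm_mul_mem_unitary _ hv]
    push_cast
    linarith

open Filter Topology in
theorem CST1_gen {𝔸 : Type*} [NormedRing 𝔸] [NormedAlgebra ℂ 𝔸] [CompleteSpace 𝔸] [StarRing 𝔸]
    [CStarRing 𝔸] (X Y : 𝔸)
    (h1 : ∀ m : ℕ, NormedSpace.exp (((m : ℂ) + 1)⁻¹ • X) * NormedSpace.exp (((m : ℂ) + 1)⁻¹ • Y) ∈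
      unitary 𝔸)
    (h2 : ∀ m : ℕ, NormedSpace.exp (((m : ℂ) + 1)⁻¹ • (X + Y)) ∈ unitary 𝔸) :
    Tendsto (fun m : ℕ => (NormedSpace.exp (((m : ℂ) + 1)⁻¹ • X) *
      NormedSpace.exp (((m : ℂ) + 1)⁻¹ • Y)) ^ (m + 1)) atTop (𝓝 (NormedSpace.exp (X + Y))) := by
  let _ : NormedAlgebra ℚ 𝔸 := NormedAlgebra.restrictScalars ℚ ℂ 𝔸
  set f : ℂ → 𝔸 := fun s => NormedSpace.exp (s • X) * NormedSpace.exp (s • Y) -
    NormedSpace.exp (s • (X + Y)) with hf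
  have hd : HasDerivAt f 0 0 := by
    have d1 := hasDerivAt_exp_smul_const (𝕂 := ℂ) X 0
    have d2 := hasDerivAt_exp_smul_const (𝕂 := ℂ) Y 0
    have d3 := hasDerivAt_exp_smul_const (𝕂 := ℂ) (X + Y) 0
    have d := (d1.mul d2).sub d3
    refine d.congr_deriv ?_
    simp
  have hf0 : f 0 = 0 := by simp [hf]
  have hs : Tendsto (fun m : ℕ => ((m : ℂ) + 1)⁻¹) atTop (𝓝[≠] 0) := by
    rw [tendsto_nhdsWithin_iff]
    constructor
    · have := tendsto_one_div_add_atTop_nhds_zero_nat (𝕜 := ℂ)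
      simpa using this
    · refine Eventually.of_forall fun m => ?_
      have : ((m : ℂ) + 1) ≠ 0 := Nat.cast_add_one_ne_zero m
      exact inv_ne_zero this
  have hsl := hd.tendsto_slope_zero.comp hs
  have hn : Tendsto (fun m : ℕ => ((m : ℝ) + 1) * ‖f (((m : ℂ) + 1)⁻¹)‖) atTop (𝓝 0) := by
    have h3 := hsl.norm
    rw [norm_zero] at h3
    refine h3.congr fun m => ?_
    simp only [Function.comp_apply, zero_add, hf0, sub_zero, inv_inv, norm_smul]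
    congr 1
    have : ((m : ℂ) + 1) = (((m : ℝ) + 1 : ℝ) : ℂ) := by push_cast; rfl
    rw [this, Complex.norm_real, Real.norm_of_nonneg (by positivity)]
  rw [tendsto_iff_norm_sub_tendsto_zero]
  refine squeeze_zero (fun _ => norm_nonneg _) (fun m => ?_) hn
  have e : NormedSpace.exp (X + Y) = NormedSpace.exp (((m : ℂ) + 1)⁻¹ • (X + Y)) ^ (m + 1) := by
    rw [← NormedSpace.exp_nsmul, ← Nat.cast_smul_eq_nsmul ℂ, smul_smul]
    push_cast
    rw [mul_inv_cancel₀ (Nat.cast_add_one_ne_zero m), one_smul]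
  rw [e]
  refine (CST1_tele _ _ (h1 m) (h2 m) (m + 1)).trans (le_of_eq ?_)
  push_cast
  rfl

set_option backward.isDefEq.respectTransparency false in
open Filter Topology in
theorem CST1_mat {ι : Type} [Fintype ι] [DecidableEq ι] (X Y : Matrix ι ι ℂ)
    (h1 : ∀ m : ℕ, NormedSpace.exp (((m : ℂ) + 1)⁻¹ • X) * NormedSpace.exp (((m : ℂ) + 1)⁻¹ • Y) ∈
      Matrix.unitaryGroup ι ℂ)
    (h2 : ∀ m : ℕ, NormedSpace.exp (((m : ℂ) + 1)⁻¹ • (X + Y)) ∈ Matrix.unitaryGroup ι ℂ) :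
    Tendsto (fun m : ℕ => (NormedSpace.exp (((m : ℂ) + 1)⁻¹ • X) *
      NormedSpace.exp (((m : ℂ) + 1)⁻¹ • Y)) ^ (m + 1)) atTop (𝓝 (NormedSpace.exp (X + Y))) :=
  open scoped Matrix.Norms.L2Operator in CST1_gen X Y h1 h2

open Matrix in
theorem CST1_uni {ι : Type} [Fintype ι] [DecidableEq ι] (X : Matrix ι ι ℂ) (hX : Xᴴ = -X) :
    NormedSpace.exp X ∈ Matrix.unitaryGroup ι ℂ := by
  rw [Matrix.mem_unitaryGroup_iff, Matrix.star_eq_conjTranspose, ← Matrix.exp_conjTranspose, hX,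
    ← Matrix.exp_add_of_commute _ _ (Commute.refl X).neg_right, add_neg_cancel,
    NormedSpace.exp_zero]

theorem CST1_sm {ι : Type} [Fintype ι] [DecidableEq ι] (m : ℕ) (t : ℝ) (X : Matrix ι ι ℂ) :
    ((m : ℂ) + 1)⁻¹ • (t • X) = (((m : ℝ) + 1)⁻¹ * t) • X := by
  ext i j
  simp only [Matrix.smul_apply, Complex.real_smul, smul_eq_mul]
  push_cast
  ring

open Matrix in
theorem CST1_skew {ι : Type} [Fintype ι] [DecidableEq ι] (t : ℝ) (X : Matrix ι ι ℂ)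
    (hX : Xᴴ = -X) : (t • X)ᴴ = -(t • X) := by
  rw [Matrix.conjTranspose_smul, hX, star_trivial, smul_neg]

open Matrix Filter Topology in
theorem CST1_add {ι : Type} [Fintype ι] [DecidableEq ι] (L : Subgroup (Matrix.unitaryGroup ι ℂ))
    (hL : IsClosed (L : Set (Matrix.unitaryGroup ι ℂ))) (X Y : Matrix ι ι ℂ) (hX : X ∈ LieAlg L)
    (hY : Y ∈ LieAlg L) : X + Y ∈ LieAlg L := by
  obtain ⟨hX1, hX2⟩ := hX
  obtain ⟨hY1, hY2⟩ := hY
  have hXY : (X + Y)ᴴ = -(X + Y) := by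
    rw [Matrix.conjTranspose_add, hX1, hY1]
    abel
  refine ⟨hXY, fun t => ?_⟩
  choose u hu1 hu2 using hX2
  choose v hv1 hv2 using hY2
  have hw : NormedSpace.exp (t • (X + Y)) ∈ Matrix.unitaryGroup ι ℂ :=
    CST1_uni _ (CST1_skew t _ hXY)
  refine ⟨⟨NormedSpace.exp (t • (X + Y)), hw⟩, ?_, rfl⟩
  have ht := CST1_mat (t • X) (t • Y) (fun m => by
      rw [CST1_sm, CST1_sm, ← hu2, ← hv2]
      exact mul_mem (u _).2 (v _).2)
    (fun m => by
      rw [← smul_add, CST1_sm]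
      exact CST1_uni _ (CST1_skew _ _ hXY))
  have hconv : Tendsto (fun m : ℕ => (u (((m : ℝ) + 1)⁻¹ * t) * v (((m : ℝ) + 1)⁻¹ * t)) ^ (m + 1))
      atTop (𝓝 (⟨NormedSpace.exp (t • (X + Y)), hw⟩ : Matrix.unitaryGroup ι ℂ)) := by
    rw [tendsto_subtype_rng]
    rw [← smul_add] at ht
    refine ht.congr fun m => ?_
    rw [CST1_sm, CST1_sm, ← hu2, ← hv2]
    rfl
  refine hL.mem_of_tendsto hconv (Eventually.of_forall fun m => ?_)
  exact pow_mem (mul_mem (hu1 _) (hv1 _)) _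

open Matrix in
theorem CST1_neg {ι : Type} [Fintype ι] [DecidableEq ι] (L : Subgroup (Matrix.unitaryGroup ι ℂ))
    (X : Matrix ι ι ℂ) (hX : X ∈ LieAlg L) : -X ∈ LieAlg L := by
  obtain ⟨hX1, hX2⟩ := hX
  refine ⟨by rw [Matrix.conjTranspose_neg, hX1], fun t => ?_⟩
  obtain ⟨u, hu, hu2⟩ := hX2 (-t)
  refine ⟨u, hu, ?_⟩
  rw [hu2, smul_neg, neg_smul]

theorem CST1 : StCST1 := by
  
  intro ι _ _ L hL X hX Y hY
  refine ⟨CST1_add L hL X Y hX hY, ?_⟩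
  rw [sub_eq_add_neg]
  exact CST1_add L hL X (-Y) hX (CST1_neg L Y hY)

end Pool.LatH472
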