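import Mathlib
import Pool.Agent.Helper472.LatDefs3

set_option autoImplicit false

namespace Pool.LatH472

open Pointwise

theorem CYC_atom_card {Γ : Type} [Group Γ] [Finite Γ] (A : Subgroup Γ) (hA : IsAtom A) :
    ∃ (p : ℕ) , p.Prime ∧ Nat.card A = p := by
  have hne : A ≠ ⊥ := hA.1
  have h1 : Nat.card A ≠ 1 := by
    intro h; exact hne (Subgroup.card_eq_one.mp h)
  obtain ⟨p, hp, hdvd⟩ := Nat.exists_prime_and_dvd h1
  haveI := Fact.mk hp
  obtain ⟨y, hy⟩ := exists_prime_orderOf_dvd_card' p hdvd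
  refine ⟨p, hp, ?_⟩
  have hle : Subgroup.zpowers (y : Γ) ≤ A := by
    rw [Subgroup.zpowers_le]; exact y.2
  have hord : orderOf (y : Γ) = p := by rw [Subgroup.orderOf_coe]; exact hy
  have hne' : Subgroup.zpowers (y : Γ) ≠ ⊥ := by
    rw [Ne, Subgroup.zpowers_eq_bot]; intro h; rw [h, orderOf_one] at hord; exact hp.one_lt.ne hord
  have : Subgroup.zpowers (y : Γ) = A := (hA.le_iff.mp hle).resolve_left hne'
  rw [← this, Nat.card_zpowers, hord]

theorem CYC_isAtom {Γ : Type} [Group Γ] [Finite Γ] (H : Subgroup Γ) (hp : (Nat.card H).Prime) :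
    IsAtom H := by
  refine ⟨fun h => ?_, fun K hK => ?_⟩
  · rw [h, Subgroup.card_bot] at hp; exact Nat.not_prime_one hp
  · have h1 := Subgroup.card_dvd_of_le hK.le
    rcases (Nat.dvd_prime hp).mp h1 with h | h
    · exact Subgroup.card_eq_one.mp h
    · exact absurd (Subgroup.eq_of_le_of_card_ge hK.le h.ge) hK.ne

theorem CYC_uniq {Q : Type} [CommGroup Q] [Finite Q] [IsCyclic Q] (A : Subgroup Q) (p : ℕ)
    (hp : p.Prime) (hA : Nat.card A = p) : A = (powMonoidHom p : Q →* Q).ker := by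
  apply Subgroup.eq_of_le_of_card_ge
  · intro x hx
    rw [MonoidHom.mem_ker, powMonoidHom_apply]
    have : (⟨x, hx⟩ : A) ^ Nat.card A = 1 := pow_card_eq_one'
    rw [hA] at this
    simpa using congrArg Subtype.val this
  · rw [IsCyclic.card_powMonoidHom_ker, hA]
    exact Nat.gcd_le_right _ hp.pos

theorem CYC_star {Q : Type} [CommGroup Q] [Finite Q] [IsCyclic Q] (A B D : Subgroup Q)
    (hA : IsAtom A) (hB : IsAtom B) (hD : IsAtom D) (hAB : A ≠ B) (h : D ≤ A ⊔ B) :
    D = A ∨ D = B := by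
  obtain ⟨p, hp, hpA⟩ := CYC_atom_card A hA
  obtain ⟨q, hq, hqB⟩ := CYC_atom_card B hB
  obtain ⟨r, hr, hrD⟩ := CYC_atom_card D hD
  have hpq : p ≠ q := by
    intro e
    apply hAB
    rw [CYC_uniq A p hp hpA, CYC_uniq B q hq hqB, e]
  obtain ⟨x, hxD, hx1⟩ : ∃ x ∈ D, x ≠ 1 := by
    by_contra hcon
    push Not at hcon
    exact hD.1 ((Subgroup.eq_bot_iff_forall _).mpr hcon)
  have hord : ∀ (E : Subgroup Q) (s : ℕ), s.Prime → Nat.card E = s → ∀ z ∈ E, z ≠ 1 →
      orderOf z = s := by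
    intro E s hs hE z hz hz1
    haveI := Fact.mk hs
    apply orderOf_eq_prime _ hz1
    have : (⟨z, hz⟩ : E) ^ Nat.card E = 1 := pow_card_eq_one'
    rw [hE] at this
    simpa using congrArg Subtype.val this
  obtain ⟨a, ha, b, hb, hab⟩ := Subgroup.mem_sup.mp (h hxD)
  have key : ∀ E : Subgroup Q, IsAtom E → x ∈ E → D = E := by
    intro E hE hxE
    have h1 : Subgroup.zpowers x ≤ D := by rw [Subgroup.zpowers_le]; exact hxD
    have h2 : Subgroup.zpowers x ≤ E := by rw [Subgroup.zpowers_le]; exact hxE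
    have h3 : Subgroup.zpowers x ≠ ⊥ := by rw [Ne, Subgroup.zpowers_eq_bot]; exact hx1
    rw [← (hD.le_iff.mp h1).resolve_left h3, ← (hE.le_iff.mp h2).resolve_left h3]
  by_cases ha1 : a = 1
  · right
    apply key B hB
    rw [← hab, ha1, one_mul]; exact hb
  by_cases hb1 : b = 1
  · left
    apply key A hA
    rw [← hab, hb1, mul_one]; exact ha
  exfalso
  have e1 := hord A p hp hpA a ha ha1
  have e2 := hord B q hq hqB b hb hb1
  have e3 := hord D r hr hrD x hxD hx1
  have e4 : orderOf (a * b) = orderOf a * orderOf b :=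
    (Commute.all a b).orderOf_mul_eq_mul_orderOf_of_coprime
      (by rw [e1, e2]; exact (Nat.coprime_primes hp hq).mpr hpq)
  rw [hab, e1, e2, e3] at e4
  rw [e4] at hr
  exact Nat.not_prime_mul hp.one_lt.ne' hq.one_lt.ne' hr

theorem CYC_comm {Γ : Type} [CommGroup Γ] [Finite Γ]
    (hstar : ∀ A B D : Subgroup Γ, IsAtom A → IsAtom B → IsAtom D → A ≠ B → D ≤ A ⊔ B →
      D = A ∨ D = B) : IsCyclic Γ := by
  obtain ⟨g, hg⟩ := Monoid.exists_orderOf_eq_exponent (G := Γ) Monoid.ExponentExists.of_finite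
  by_contra hnc
  have htop : Subgroup.zpowers g ≠ ⊤ := fun h => hnc ⟨g, fun x => by
    have hx : x ∈ Subgroup.zpowers g := by rw [h]; exact Subgroup.mem_top x
    exact hx⟩
  have hcard : Nat.card (Γ ⧸ Subgroup.zpowers g) ≠ 1 := by
    intro h; apply htop; exact Subgroup.index_eq_one.mp h
  obtain ⟨p, hp, hdvd⟩ := Nat.exists_prime_and_dvd hcard
  haveI := Fact.mk hp
  obtain ⟨y, hy⟩ := exists_prime_orderOf_dvd_card' p hdvd
  obtain ⟨b, rfl⟩ := QuotientGroup.mk_surjective y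
  have hbn : b ^ Monoid.exponent Γ = 1 := Monoid.pow_exponent_eq_one b
  have hn0 : Monoid.exponent Γ ≠ 0 := Monoid.exponent_ne_zero_of_finite
  have hb : b ∉ Subgroup.zpowers g := by
    intro h
    rw [(QuotientGroup.eq_one_iff b).mpr h, orderOf_one] at hy
    exact hp.one_lt.ne hy
  have hbp : b ^ p ∈ Subgroup.zpowers g := by
    rw [← QuotientGroup.eq_one_iff, QuotientGroup.mk_pow, ← hy]
    exact pow_orderOf_eq_one _
  have hpn : p ∣ Monoid.exponent Γ := by
    rw [← hy]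
    apply orderOf_dvd_of_pow_eq_one
    rw [← QuotientGroup.mk_pow, hbn]; rfl
  obtain ⟨m, hm⟩ := hpn
  have hm0 : m ≠ 0 := by rintro rfl; exact hn0 (by rw [hm, mul_zero])
  obtain ⟨k, hk⟩ := Subgroup.mem_zpowers_iff.mp hbp
  have h1 : g ^ (k * (m : ℤ)) = 1 := by
    rw [zpow_mul, hk, zpow_natCast, ← pow_mul, ← hm, hbn]
  have h2 : ((Monoid.exponent Γ : ℕ) : ℤ) ∣ k * m := by
    rw [← hg]; exact orderOf_dvd_iff_zpow_eq_one.mpr h1
  have h3 : (p : ℤ) ∣ k := by
    rw [hm] at h2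
    push_cast at h2
    exact Int.dvd_of_mul_dvd_mul_right (by exact_mod_cast hm0) h2
  obtain ⟨l, hl⟩ := h3
  have hgl : g ^ (-l) ∈ Subgroup.zpowers g := Subgroup.zpow_mem _ (Subgroup.mem_zpowers g) _
  obtain ⟨c, hcdef⟩ : ∃ c, c = b * g ^ (-l) := ⟨_, rfl⟩
  have hc : c ∉ Subgroup.zpowers g := by
    intro h
    apply hb
    rw [hcdef] at h
    exact (Subgroup.mul_mem_cancel_right _ hgl).mp h
  have hcp : c ^ p = 1 := by
    rw [hcdef, mul_pow, ← hk, hl, ← zpow_natCast (g ^ (-l)) p, ← zpow_mul, ← zpow_add]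
    have : (p : ℤ) * l + -l * p = 0 := by ring
    rw [this, zpow_zero]
  have hc1 : c ≠ 1 := fun h => hc (h ▸ Subgroup.one_mem _)
  obtain ⟨a, hadef⟩ : ∃ a, a = g ^ m := ⟨_, rfl⟩
  have hag : a ∈ Subgroup.zpowers g := hadef ▸ Subgroup.pow_mem _ (Subgroup.mem_zpowers g) _
  have hap : a ^ p = 1 := by
    rw [hadef, ← pow_mul, mul_comm, ← hm, ← hg, pow_orderOf_eq_one]
  have ha1 : a ≠ 1 := by
    intro h
    rw [hadef] at h
    have h4 := orderOf_dvd_of_pow_eq_one h
    rw [hg, hm] at h4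
    have h5 := Nat.le_of_dvd (Nat.pos_of_ne_zero hm0) h4
    have h6 := hp.two_le
    nlinarith [Nat.pos_of_ne_zero hm0]
  have hca1 : c * a ≠ 1 := by
    intro h
    apply hc
    rw [eq_inv_of_mul_eq_one_left h]
    exact Subgroup.inv_mem _ hag
  have hcap : (c * a) ^ p = 1 := by rw [mul_pow, hcp, hap, one_mul]
  have oa := orderOf_eq_prime hap ha1
  have oc := orderOf_eq_prime hcp hc1
  have oca := orderOf_eq_prime hcap hca1
  have at1 : ∀ z : Γ, orderOf z = p → IsAtom (Subgroup.zpowers z) := by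
    intro z hz
    apply CYC_isAtom
    rw [Nat.card_zpowers, hz]; exact hp
  have hAle : Subgroup.zpowers a ≤ Subgroup.zpowers g := by rw [Subgroup.zpowers_le]; exact hag
  have hAB : Subgroup.zpowers a ≠ Subgroup.zpowers c := by
    intro h
    apply hc
    exact hAle (h ▸ Subgroup.mem_zpowers c)
  have hDle : Subgroup.zpowers (c * a) ≤ Subgroup.zpowers a ⊔ Subgroup.zpowers c := by
    rw [Subgroup.zpowers_le]
    exact Subgroup.mul_mem _ ((le_sup_right : Subgroup.zpowers c ≤ _) (Subgroup.mem_zpowers c))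
      ((le_sup_left : Subgroup.zpowers a ≤ _) (Subgroup.mem_zpowers a))
  rcases hstar _ _ _ (at1 a oa) (at1 c oc) (at1 (c * a) oca) hAB hDle with h | h
  · apply hc
    have h7 : c * a ∈ Subgroup.zpowers g := hAle (h ▸ Subgroup.mem_zpowers (c * a))
    exact (Subgroup.mul_mem_cancel_right _ hag).mp h7
  · have h8 : c * a ∈ Subgroup.zpowers c := h ▸ Subgroup.mem_zpowers (c * a)
    have h9 : a ∈ Subgroup.zpowers c :=
      (Subgroup.mul_mem_cancel_left _ (Subgroup.mem_zpowers c)).mp h8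
    have h10 : Subgroup.zpowers a ≤ Subgroup.zpowers c := by rw [Subgroup.zpowers_le]; exact h9
    have h11 := ((at1 c oc).le_iff.mp h10).resolve_left
      (by rw [Subgroup.zpowers_eq_bot]; exact ha1)
    exact hAB h11

theorem CYC (hORE : StORE) : StCYC := by
  intro Γ Q _ _ _ _ _ e
  have hcomm := hORE Γ Q e
  letI iΓ : CommGroup Γ := { (inferInstance : Group Γ) with mul_comm := hcomm }
  apply @CYC_comm Γ iΓ _
  intro A B D hA hB hD hAB hle
  have h1 : e D = e A ∨ e D = e B := by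
    have hQ : ∀ A B D : Subgroup Q, IsAtom A → IsAtom B → IsAtom D → A ≠ B → D ≤ A ⊔ B →
        D = A ∨ D = B := by
      letI iQ : CommGroup Q := IsCyclic.commGroup
      exact fun A B D h1 h2 h3 h4 h5 => CYC_star A B D h1 h2 h3 h4 h5
    apply hQ (e A) (e B) (e D) ((OrderIso.isAtom_iff e A).mpr hA) ((OrderIso.isAtom_iff e B).mpr hB)
      ((OrderIso.isAtom_iff e D).mpr hD) (fun h => hAB (e.injective h))
    have := e.monotone hle
    rwa [OrderIso.map_sup] at this
  rcases h1 with h | h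
  · exact Or.inl (e.injective h)
  · exact Or.inr (e.injective h)

end Pool.LatH472
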