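import Mathlib
import Pool.Agent.Helper472.LatDefs3

set_option autoImplicit false

namespace Pool.LatH472

open Pointwise

theorem DENS_aux1 (K : Subgroup Circle) (hK : IsClosed (K : Set Circle)) :
    K = ⊤ ∨ ∃ n : ℕ, 0 < n ∧ ∀ c ∈ K, c ^ n = 1 := by
  let S : AddSubgroup ℝ :=
    { carrier := {x | Circle.exp x ∈ K}
      zero_mem' := by
        show Circle.exp 0 ∈ K
        rw [Circle.exp_zero]
        exact K.one_mem
      add_mem' := by
        intro a b ha hb
        show Circle.exp (a + b) ∈ K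
        rw [Circle.exp_add]
        exact K.mul_mem ha hb
      neg_mem' := by
        intro a ha
        show Circle.exp (-a) ∈ K
        rw [Circle.exp_neg]
        exact K.inv_mem ha }
  have hS : ∀ x : ℝ, x ∈ S ↔ Circle.exp x ∈ K := fun x => Iff.rfl
  have hSc : IsClosed (S : Set ℝ) := hK.preimage Circle.exp.continuous
  rcases AddSubgroup.dense_or_cyclic S with h | ⟨a, ha⟩
  · left
    rw [eq_top_iff]
    intro c _
    have h1 : (S : Set ℝ) = Set.univ := by
      rw [← hSc.closure_eq]
      exact h.closure_eq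
    have h2 : (Complex.arg (c : ℂ)) ∈ S := by
      have : (Complex.arg (c : ℂ)) ∈ (S : Set ℝ) := by
        rw [h1]
        trivial
      exact this
    rw [hS, Circle.exp_arg] at h2
    exact h2
  · right
    have h2pi : (2 * Real.pi) ∈ S := by
      rw [hS, Circle.exp_two_pi]
      exact K.one_mem
    rw [ha] at h2pi
    obtain ⟨k, hk⟩ := AddSubgroup.mem_closure_singleton.1 h2pi
    have hk0 : k ≠ 0 := by
      rintro rfl
      rw [zero_smul] at hk
      have := Real.pi_pos
      linarith
    refine ⟨k.natAbs, Int.natAbs_pos.2 hk0, ?_⟩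
    intro c hc
    have h3 : (Complex.arg (c : ℂ)) ∈ S := by
      rw [hS, Circle.exp_arg]
      exact hc
    rw [ha] at h3
    obtain ⟨m, hm⟩ := AddSubgroup.mem_closure_singleton.1 h3
    have h4 : c ^ k = 1 := by
      have h5 : c ^ k = Circle.exp (k • (Complex.arg (c : ℂ))) := by
        rw [Circle.exp_zsmul, Circle.exp_arg]
      rw [h5, ← hm, smul_comm, hk, Circle.exp_zsmul, Circle.exp_two_pi, one_zpow]
    rcases Int.natAbs_eq k with h | h
    · rw [h, zpow_natCast] at h4
      exact h4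
    · rw [h, zpow_neg, zpow_natCast, inv_eq_one] at h4
      exact h4

/-- image of a closed subgroup of a compact group -/
theorem DENS_aux2 {Z : Type} [CommGroup Z] [TopologicalSpace Z] [IsTopologicalGroup Z]
    [CompactSpace Z] [T2Space Z] (ψ : Z →* Circle) (hψ : Continuous ψ) (N : Subgroup Z)
    (hN : IsClosed (N : Set Z)) :
    N.map ψ = ⊤ ∨ ∃ n : ℕ, 0 < n ∧ ∀ z ∈ N, (ψ z) ^ n = 1 := by
  have h1 : IsClosed ((N.map ψ : Subgroup Circle) : Set Circle) := by
    rw [Subgroup.coe_map]
    exact (hN.isCompact.image hψ).isClosed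
  rcases DENS_aux1 _ h1 with h | ⟨n, hn, h⟩
  · exact Or.inl h
  · exact Or.inr ⟨n, hn, fun z hz => h _ (Subgroup.mem_map_of_mem ψ hz)⟩

/-- the Zorn step -/
theorem DENS_aux3 {Z : Type} [CommGroup Z] [TopologicalSpace Z] [IsTopologicalGroup Z]
    [CompactSpace Z] [T2Space Z] (χ : Z →* Circle) (hχ : Continuous χ) (t : Circle)
    (z₀ : Z) (hz₀ : χ z₀ = t) :
    ∃ E : Subgroup Z, IsClosed (E : Set Z) ∧ (∃ z ∈ E, χ z = t) ∧
      ∀ E' : Subgroup Z, IsClosed (E' : Set Z) → (∃ z ∈ E', χ z = t) → E' ≤ E → E ≤ E' := by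
  obtain ⟨m, hm⟩ := zorn_superset
    {A : Set Z | ∃ E : Subgroup Z, (E : Set Z) = A ∧ IsClosed A ∧ ∃ z ∈ A, χ z = t} (by
      intro c hc hchain
      by_cases hne : c.Nonempty
      · refine ⟨⋂₀ c, ⟨sInf {E : Subgroup Z | (E : Set Z) ∈ c}, ?_, ?_, ?_⟩, ?_⟩
        · ext x
          simp only [Subgroup.coe_sInf, Set.mem_setOf_eq, Set.mem_iInter, Set.mem_sInter,
            SetLike.mem_coe]
          constructor
          · intro h A hA
            obtain ⟨E, hE, -⟩ := hc hA
            rw [← hE]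
            exact h E (by rw [hE]; exact hA)
          · intro h E hE
            exact h _ hE
        · exact isClosed_sInter fun A hA => (hc hA).choose_spec.2.1
        · haveI : Nonempty c := hne.coe_sort
          have h1 : (⋂ A : c, ((A : Set Z) ∩ χ ⁻¹' {t})).Nonempty := by
            apply IsCompact.nonempty_iInter_of_directed_nonempty_isCompact_isClosed
            · intro A B
              rcases hchain.total A.2 B.2 with h | h
              · exact ⟨A, Set.inter_subset_inter_left _ (le_refl _),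
                  Set.inter_subset_inter_left _ h⟩
              · exact ⟨B, Set.inter_subset_inter_left _ h,
                  Set.inter_subset_inter_left _ (le_refl _)⟩
            · intro A
              obtain ⟨E, hE, -, z, hz, hzt⟩ := hc A.2
              exact ⟨z, hz, hzt⟩
            · intro A
              obtain ⟨E, hE, hcl, -⟩ := hc A.2
              exact (hcl.inter (isClosed_singleton.preimage hχ)).isCompact
            · intro A
              obtain ⟨E, hE, hcl, -⟩ := hc A.2
              exact hcl.inter (isClosed_singleton.preimage hχ)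
          obtain ⟨z, hz⟩ := h1
          rw [Set.mem_iInter] at hz
          refine ⟨z, ?_, ?_⟩
          · intro A hA
            exact (hz ⟨A, hA⟩).1
          · obtain ⟨A, hA⟩ := hne
            exact (hz ⟨A, hA⟩).2
        · intro A hA
          exact Set.sInter_subset_of_mem hA
      · rw [Set.not_nonempty_iff_eq_empty] at hne
        subst hne
        exact ⟨Set.univ, ⟨⊤, by simp, isClosed_univ, z₀, trivial, hz₀⟩, by simp⟩)
  obtain ⟨⟨E, hE, hcl, hz⟩, hmin⟩ := hm
  subst hE
  refine ⟨E, hcl, hz, ?_⟩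
  intro E' hE' hz' hle
  exact hmin ⟨E', rfl, hE', hz'⟩ hle

theorem DENS_aux4 {Z : Type} [CommGroup Z] [TopologicalSpace Z] [IsTopologicalGroup Z]
    [CompactSpace Z] [T2Space Z] (χ : Z →* Circle) (hχ : Continuous χ) (hne : ∃ z, χ z ≠ 1) :
    ∃ z : Z, χ z ≠ 1 ∧ ∀ ψ : Z →* Circle, Continuous ψ → ∃ n : ℕ, 0 < n ∧ ψ z ^ n = 1 := by
  -- a nontrivial torsion element in the image
  obtain ⟨z₀, n, hn, hz₀1, hz₀n⟩ : ∃ (z₀ : Z) (n : ℕ), 0 < n ∧ χ z₀ ≠ 1 ∧ χ z₀ ^ n = 1 := by
    rcases DENS_aux2 χ hχ ⊤ (by simp) with h | ⟨n, hn, h⟩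
    · have h1 : Circle.exp Real.pi ∈ (⊤ : Subgroup Z).map χ := by
        rw [h]
        trivial
      obtain ⟨z₀, -, hz₀⟩ := h1
      refine ⟨z₀, 2, by norm_num, ?_, ?_⟩
      · rw [hz₀]
        exact Circle.exp_pi_ne_one
      · rw [hz₀, ← Circle.exp_nsmul]
        have : (2 : ℕ) • Real.pi = 2 * Real.pi := by simp
        rw [this, Circle.exp_two_pi]
    · obtain ⟨z, hz⟩ := hne
      exact ⟨z, n, hn, hz, h z trivial⟩
  obtain ⟨E, hEc, ⟨z, hzE, hzt⟩, hmin⟩ := DENS_aux3 χ hχ (χ z₀) z₀ rfl
  refine ⟨z, by rw [hzt]; exact hz₀1, ?_⟩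
  -- E is contained in the set `χ ^ n = 1`
  have hEn : ∀ e ∈ E, χ e ^ n = 1 := by
    let E1 : Subgroup Z :=
      { carrier := {e | e ∈ E ∧ χ e ^ n = 1}
        one_mem' := ⟨E.one_mem, by rw [map_one, one_pow]⟩
        mul_mem' := by
          intro a b ha hb
          refine ⟨E.mul_mem ha.1 hb.1, ?_⟩
          rw [map_mul, mul_pow, ha.2, hb.2, one_mul]
        inv_mem' := by
          intro a ha
          refine ⟨E.inv_mem ha.1, ?_⟩
          rw [map_inv, inv_pow, ha.2, inv_one] }
    have h1 : E ≤ E1 := by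
      apply hmin E1
      · exact hEc.inter (isClosed_eq (hχ.pow n) continuous_const)
      · exact ⟨z, ⟨hzE, by rw [hzt]; exact hz₀n⟩, hzt⟩
      · intro e he
        exact he.1
    intro e he
    exact (h1 he).2
  intro ψ hψ
  let N : Subgroup Z := E ⊓ χ.ker
  have hNc : IsClosed (N : Set Z) := by
    have : (N : Set Z) = (E : Set Z) ∩ χ ⁻¹' {1} := by
      ext x
      simp [N, MonoidHom.mem_ker]
    rw [this]
    exact hEc.inter (isClosed_singleton.preimage hχ)
  rcases DENS_aux2 ψ hψ N hNc with h | ⟨m, hm, h⟩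
  · -- full circle
    have h1 : (ψ z)⁻¹ ∈ N.map ψ := by
      rw [h]
      trivial
    obtain ⟨e, he, hez⟩ := h1
    have heE : e ∈ E := he.1
    have heχ : χ e = 1 := he.2
    have h2 : E ≤ E ⊓ ψ.ker := by
      apply hmin
      · have : ((E ⊓ ψ.ker : Subgroup Z) : Set Z) = (E : Set Z) ∩ ψ ⁻¹' {1} := by
          ext x
          simp [MonoidHom.mem_ker]
        rw [this]
        exact hEc.inter (isClosed_singleton.preimage hψ)
      · refine ⟨z * e, ⟨E.mul_mem hzE heE, ?_⟩, ?_⟩
        · show ψ (z * e) = 1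
          rw [map_mul, hez, mul_inv_cancel]
        · rw [map_mul, heχ, mul_one, hzt]
      · exact inf_le_left
    have h3 : ψ z = 1 := (h2 hzE).2
    exact ⟨1, one_pos, by rw [h3, one_pow]⟩
  · refine ⟨n * m, Nat.mul_pos hn hm, ?_⟩
    have h1 : z ^ n ∈ N := by
      refine ⟨E.pow_mem hzE n, ?_⟩
      show χ (z ^ n) = 1
      rw [map_pow]
      exact hEn z hzE
    have h2 := h _ h1
    rw [map_pow, ← pow_mul] at h2
    exact h2

/-- elements all whose characters are torsion generate totally disconnected groups -/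
theorem DENS_aux5 (hC : StChars) {Z : Type} [CommGroup Z] [TopologicalSpace Z]
    [IsTopologicalGroup Z] [CompactSpace Z] [T2Space Z] (z : Z)
    (hz : ∀ ψ : Z →* Circle, Continuous ψ → ∃ n : ℕ, 0 < n ∧ ψ z ^ n = 1) :
    IsTotallyDisconnected ((Zc z : Subgroup Z) : Set Z) := by
  intro S hS hconn x hx y hy
  by_contra hxy
  have hxy1 : x * y⁻¹ ≠ 1 := by
    intro h
    exact hxy (mul_inv_eq_one.1 h)
  obtain ⟨ψ0, hψ0⟩ := hC Z (x * y⁻¹) hxy1
  let ψ : Z →* Circle := ψ0.toMonoidHom
  have hψc : Continuous ψ := ψ0.continuous_toFun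
  have hψ : ψ (x * y⁻¹) ≠ 1 := hψ0
  obtain ⟨n, hn, hzn⟩ := hz ψ hψc
  have h1 : ∀ w ∈ (Zc z : Subgroup Z), ψ w ^ n = 1 := by
    let W : Subgroup Z :=
      { carrier := {e | ψ e ^ n = 1}
        one_mem' := by
          show ψ 1 ^ n = 1
          rw [map_one, one_pow]
        mul_mem' := by
          intro a b ha hb
          show ψ (a * b) ^ n = 1
          rw [map_mul, mul_pow, ha, hb, one_mul]
        inv_mem' := by
          intro a ha
          show ψ a⁻¹ ^ n = 1
          rw [map_inv, inv_pow, ha, inv_one] }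
    have hW : IsClosed (W : Set Z) := isClosed_eq (hψc.pow n) continuous_const
    have h2 : (Zc z : Subgroup Z) ≤ W := by
      apply Subgroup.topologicalClosure_minimal _ _ hW
      rw [Subgroup.zpowers_le]
      exact hzn
    intro w hw
    exact h2 hw
  have h2 : IsPreconnected (ψ '' S) := hconn.image _ hψc.continuousOn
  have h3 : (ψ '' S).Nontrivial := by
    refine ⟨ψ x, ⟨x, hx, rfl⟩, ψ y, ⟨y, hy, rfl⟩, ?_⟩
    intro h
    apply hψ
    rw [map_mul, map_inv, h, mul_inv_cancel]
  have h4 := h2.infinite_of_nontrivial h3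
  apply h4
  have h5 : (ψ '' S) ⊆ {c : Circle | c ^ n = 1} := by
    rintro _ ⟨w, hw, rfl⟩
    exact h1 w (hS hw)
  refine Set.Finite.subset ?_ h5
  have h6 : {c : Circle | c ^ n = 1} ⊆ (fun c : Circle => (c : ℂ)) ⁻¹' {w : ℂ | w ^ n = 1} := by
    intro c hc
    have : ((c ^ n : Circle) : ℂ) = 1 := by
      rw [show c ^ n = 1 from hc]
      simp
    simpa using this
  refine Set.Finite.subset (Set.Finite.preimage ?_ ?_) h6
  · exact Circle.coe_injective.injOn
  · have : {w : ℂ | w ^ n = 1} ⊆ ((Polynomial.nthRootsFinset n (1 : ℂ) : Finset ℂ) : Set ℂ) := by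
      intro w hw
      simp only [Finset.mem_coe]
      rw [Polynomial.mem_nthRootsFinset hn]
      exact hw
    exact (Finset.finite_toSet _).subset this

theorem DENS_aux6 (hC : StChars) {Z : Type} [CommGroup Z] [TopologicalSpace Z]
    [IsTopologicalGroup Z] [CompactSpace Z] [T2Space Z] :
    Dense {z : Z | IsTotallyDisconnected ((Zc z : Subgroup Z) : Set Z)} := by
  let T : Subgroup Z :=
    { carrier := {z | ∀ ψ : Z →* Circle, Continuous ψ → ∃ n : ℕ, 0 < n ∧ ψ z ^ n = 1}
      one_mem' := by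
        intro ψ hψ
        exact ⟨1, one_pos, by rw [map_one, one_pow]⟩
      mul_mem' := by
        intro a b ha hb ψ hψ
        obtain ⟨n, hn, h1⟩ := ha ψ hψ
        obtain ⟨m, hm, h2⟩ := hb ψ hψ
        refine ⟨n * m, Nat.mul_pos hn hm, ?_⟩
        rw [map_mul, mul_pow, pow_mul, h1, one_pow, one_mul, mul_comm n m, pow_mul, h2, one_pow]
      inv_mem' := by
        intro a ha ψ hψ
        obtain ⟨n, hn, h1⟩ := ha ψ hψ
        exact ⟨n, hn, by rw [map_inv, inv_pow, h1, inv_one]⟩ }
  have hT : (T : Set Z) ⊆ {z : Z | IsTotallyDisconnected ((Zc z : Subgroup Z) : Set Z)} := by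
    intro z hz
    exact DENS_aux5 hC z hz
  refine Dense.mono hT ?_
  have hTop : T.topologicalClosure = ⊤ := by
    by_contra hcon
    obtain ⟨w, hw⟩ : ∃ w, w ∉ T.topologicalClosure := by
      by_contra h
      push Not at h
      exact hcon (eq_top_iff.2 fun x _ => h x)
    haveI : IsClosed ((T.topologicalClosure : Subgroup Z) : Set Z) :=
      T.isClosed_topologicalClosure
    obtain ⟨χ0, hχ0⟩ := hC (Z ⧸ T.topologicalClosure) (QuotientGroup.mk w) (by
      intro h
      exact hw ((QuotientGroup.eq_one_iff w).1 h))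
    let χ : Z →* Circle := χ0.toMonoidHom.comp (QuotientGroup.mk' T.topologicalClosure)
    have hχ : Continuous χ := χ0.continuous_toFun.comp continuous_quotient_mk'
    obtain ⟨z, hz1, hz⟩ := DENS_aux4 χ hχ ⟨w, hχ0⟩
    apply hz1
    have h1 : z ∈ T.topologicalClosure := T.le_topologicalClosure hz
    have h2 : (QuotientGroup.mk' T.topologicalClosure) z = 1 := by
      rw [QuotientGroup.mk'_apply]
      exact (QuotientGroup.eq_one_iff z).2 h1
    show χ0.toMonoidHom ((QuotientGroup.mk' T.topologicalClosure) z) = 1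
    rw [h2, map_one]
  intro x
  have : x ∈ T.topologicalClosure := by
    rw [hTop]
    trivial
  exact this

theorem DENS (hC : StChars) : StDENS := by
  intro Z _ _ _ _ _ hcomm
  letI : CommGroup Z := { (inferInstance : Group Z) with mul_comm := hcomm }
  exact DENS_aux6 (Z := Z) hC

end Pool.LatH472
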