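import Mathlib
import Pool.Agent.Helper472.LatDefs3

set_option autoImplicit false

namespace Pool.LatH472

open Pointwise

theorem DIR : StDIR := by
  intro G _ _ _ N N' hN hN'
  obtain ⟨ι₁, f1, d1, ρ₁, c1, k1⟩ := hN
  obtain ⟨ι₂, f2, d2, ρ₂, c2, k2⟩ := hN'
  have hmem : ∀ g : G, Matrix.fromBlocks (ρ₁ g : Matrix ι₁ ι₁ ℂ) 0 0 (ρ₂ g : Matrix ι₂ ι₂ ℂ)
      ∈ Matrix.unitaryGroup (ι₁ ⊕ ι₂) ℂ := by
    intro g
    rw [Matrix.mem_unitaryGroup_iff, Matrix.star_eq_conjTranspose,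
      Matrix.fromBlocks_conjTranspose, Matrix.fromBlocks_multiply]
    have h1 := Matrix.mem_unitaryGroup_iff.mp (ρ₁ g).2
    have h2 := Matrix.mem_unitaryGroup_iff.mp (ρ₂ g).2
    rw [Matrix.star_eq_conjTranspose] at h1 h2
    simp [h1, h2, Matrix.fromBlocks_one]
  let ρ : G →* Matrix.unitaryGroup (ι₁ ⊕ ι₂) ℂ := MonoidHom.mk'
    (fun g => ⟨Matrix.fromBlocks (ρ₁ g : Matrix ι₁ ι₁ ℂ) 0 0 (ρ₂ g : Matrix ι₂ ι₂ ℂ), hmem g⟩) (by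
      intro a b
      apply Subtype.ext
      show Matrix.fromBlocks (ρ₁ (a * b) : Matrix ι₁ ι₁ ℂ) 0 0 (ρ₂ (a * b) : Matrix ι₂ ι₂ ℂ)
        = Matrix.fromBlocks (ρ₁ a : Matrix ι₁ ι₁ ℂ) 0 0 (ρ₂ a : Matrix ι₂ ι₂ ℂ)
          * Matrix.fromBlocks (ρ₁ b : Matrix ι₁ ι₁ ℂ) 0 0 (ρ₂ b : Matrix ι₂ ι₂ ℂ)
      rw [Matrix.fromBlocks_multiply]
      simp)
  refine ⟨ι₁ ⊕ ι₂, inferInstance, inferInstance, ρ, ?_, ?_⟩
  · refine Continuous.subtype_mk ?_ _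
    exact Continuous.matrix_fromBlocks (continuous_subtype_val.comp c1) continuous_const
      continuous_const (continuous_subtype_val.comp c2)
  · ext g
    rw [MonoidHom.mem_ker, Subgroup.mem_inf, ← k1, ← k2, MonoidHom.mem_ker, MonoidHom.mem_ker]
    constructor
    · intro h
      have h' : Matrix.fromBlocks (ρ₁ g : Matrix ι₁ ι₁ ℂ) 0 0 (ρ₂ g : Matrix ι₂ ι₂ ℂ) = 1 :=
        congrArg Subtype.val h
      rw [← Matrix.fromBlocks_one, Matrix.fromBlocks_inj] at h'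
      exact ⟨Subtype.ext h'.1, Subtype.ext h'.2.2.2⟩
    · rintro ⟨h1, h2⟩
      apply Subtype.ext
      show Matrix.fromBlocks (ρ₁ g : Matrix ι₁ ι₁ ℂ) 0 0 (ρ₂ g : Matrix ι₂ ι₂ ℂ) = 1
      rw [h1, h2]
      simp [Matrix.fromBlocks_one]

end Pool.LatH472
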