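import Mathlib
import Pool.Agent.Helper472.LatDefs3

set_option autoImplicit false

namespace Pool.LatH472

open Pointwise


theorem EPS2_circle (R : Subgroup Circle) (hR : IsClosed (R : Set Circle))
    (h : ∀ ε : ℝ, 0 < ε → ∃ g : ℝ, 0 < g ∧ g < ε ∧ Circle.exp g ∈ R) : R = ⊤ := by
  let S : AddSubgroup ℝ :=
    { carrier := {a | Circle.exp a ∈ R}
      zero_mem' := by
        change Circle.exp 0 ∈ R
        rw [Circle.exp_zero]; exact R.one_mem
      add_mem' := by
        intro a b ha hb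
        change Circle.exp (a + b) ∈ R
        rw [Circle.exp_add]; exact R.mul_mem ha hb
      neg_mem' := by
        intro a ha
        change Circle.exp (-a) ∈ R
        rw [Circle.exp_neg]; exact R.inv_mem ha }
  have hd : Dense (S : Set ℝ) := by
    apply AddSubgroup.dense_of_not_isolated_zero
    intro ε hε
    obtain ⟨g, hg0, hgε, hg⟩ := h ε hε
    exact ⟨g, hg, hg0, hgε⟩
  have hcl : IsClosed (S : Set ℝ) := hR.preimage Circle.exp.continuous
  have hall : ∀ a : ℝ, a ∈ S := by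
    intro a
    have h1 : a ∈ closure (S : Set ℝ) := hd a
    rw [hcl.closure_eq] at h1
    exact h1
  rw [eq_top_iff]
  intro z _
  have h2 : Circle.exp (Complex.arg z) ∈ R := hall _
  rw [Circle.exp_arg] at h2
  exact h2

theorem EPS2_exp (w : Circle) (g : ℝ) (hw : (w : ℂ).re = Real.cos g) :
    w = Circle.exp g ∨ w = (Circle.exp g)⁻¹ := by
  have h1 : (w : ℂ).re ^ 2 + (w : ℂ).im ^ 2 = 1 := by
    have h2 := Circle.normSq_coe w
    rw [Complex.normSq_apply] at h2
    linarith [h2, sq ((w : ℂ).re), sq ((w : ℂ).im)]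
  have h3 := Real.sin_sq_add_cos_sq g
  have h4 : ((w : ℂ).im - Real.sin g) * ((w : ℂ).im + Real.sin g) = 0 := by
    rw [hw] at h1
    linarith
  rcases mul_eq_zero.mp h4 with h | h
  · left
    apply Circle.ext
    apply Complex.ext
    · rw [Circle.coe_exp, Complex.exp_ofReal_mul_I_re]; exact hw
    · rw [Circle.coe_exp, Complex.exp_ofReal_mul_I_im]; linarith
  · right
    rw [← Circle.exp_neg]
    apply Circle.ext
    apply Complex.ext
    · rw [Circle.coe_exp, Complex.exp_ofReal_mul_I_re, Real.cos_neg]; exact hw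
    · rw [Circle.coe_exp, Complex.exp_ofReal_mul_I_im, Real.sin_neg]; linarith

theorem EPS2_surj (K : Type) [Group K] [TopologicalSpace K] [CompactSpace K]
    [ConnectedSpace K] (χ : K →* Circle) (hχ : Continuous χ) (k : K) (hk : χ k ≠ 1) :
    Function.Surjective χ := by
  have hcl : IsClosed ((χ.range : Subgroup Circle) : Set Circle) := by
    rw [MonoidHom.coe_range]
    exact (isCompact_range hχ).isClosed
  have hre : ((χ k : Circle) : ℂ).re < 1 := by
    have h1 : ((χ k : Circle) : ℂ).re ^ 2 + ((χ k : Circle) : ℂ).im ^ 2 = 1 := by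
      have h2 := Circle.normSq_coe (χ k)
      rw [Complex.normSq_apply] at h2
      linarith [h2, sq ((χ k : ℂ).re), sq ((χ k : ℂ).im)]
    by_contra hcon
    push Not at hcon
    have h3 : ((χ k : Circle) : ℂ).im ^ 2 ≤ 0 := by nlinarith
    have h4 : ((χ k : Circle) : ℂ).im = 0 := by nlinarith
    have h5 : ((χ k : Circle) : ℂ).re = 1 := by
      rw [h4] at h1
      nlinarith
    apply hk
    apply Circle.ext
    apply Complex.ext
    · rw [h5]; simp
    · rw [h4]; simp
  have htop : χ.range = ⊤ := by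
    apply EPS2_circle _ hcl
    intro ε hε
    obtain ⟨δ, hδ0, hδ⟩ : ∃ δ : ℝ, 0 < δ ∧ ∀ g : ℝ, |g| < δ → ((χ k : Circle) : ℂ).re < Real.cos g := by
      have hc : Filter.Tendsto Real.cos (nhds 0) (nhds 1) := by
        have := Real.continuous_cos.tendsto 0
        rwa [Real.cos_zero] at this
      have h1 := hc.eventually (lt_mem_nhds hre)
      rw [Metric.eventually_nhds_iff] at h1
      obtain ⟨δ, hδ0, hδ⟩ := h1
      refine ⟨δ, hδ0, ?_⟩
      intro g hg
      apply hδ
      rw [Real.dist_eq, sub_zero]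
      exact hg
    obtain ⟨g, hg⟩ : ∃ g : ℝ, g = min δ ε / 2 := ⟨_, rfl⟩
    have hg0 : 0 < g := by rw [hg]; positivity
    have hgε : g < ε := by
      rw [hg]
      have := min_le_right δ ε
      linarith
    have hgδ : g < δ := by
      rw [hg]
      have := min_le_left δ ε
      linarith
    have hcos := hδ g (by rw [abs_of_pos hg0]; exact hgδ)
    have hcont : Continuous (fun x : K => ((χ x : Circle) : ℂ).re) :=
      Complex.continuous_re.comp (continuous_subtype_val.comp hχ)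
    have hivt := intermediate_value_univ k 1 hcont
    have hmem : Real.cos g ∈ Set.Icc (((χ k : Circle) : ℂ).re) (((χ 1 : Circle) : ℂ).re) := by
      refine ⟨hcos.le, ?_⟩
      rw [map_one]
      simpa using Real.cos_le_one g
    obtain ⟨k', hk'⟩ := hivt hmem
    refine ⟨g, hg0, hgε, ?_⟩
    rcases EPS2_exp (χ k') g hk' with h | h
    · rw [← h]; exact ⟨k', rfl⟩
    · refine ⟨k'⁻¹, ?_⟩
      rw [map_inv, h, inv_inv]
  intro z
  have : z ∈ χ.range := by rw [htop]; exact Subgroup.mem_top z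
  exact this

theorem EPS2_roots (R : Subgroup Circle) (hR : IsClosed (R : Set Circle))
    (h : ∀ (n : ℕ) (z : Circle), z ^ (2 ^ n) = 1 → z ∈ R) : R = ⊤ := by
  apply EPS2_circle R hR
  intro ε hε
  obtain ⟨n, hn⟩ := exists_pow_lt_of_lt_one (by positivity : 0 < ε / (2 * Real.pi))
    (by norm_num : (1 / 2 : ℝ) < 1)
  refine ⟨2 * Real.pi * (1 / 2) ^ n, by have := Real.pi_pos; positivity, ?_, ?_⟩
  · rw [lt_div_iff₀ (by have := Real.pi_pos; positivity)] at hn
    linarith
  · apply h n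
    have h1 : ∀ (m : ℕ) (x : ℝ), (Circle.exp x) ^ m = Circle.exp (m * x) := by
      intro m x
      induction m with
      | zero => simp
      | succ m ih => rw [pow_succ, ih, ← Circle.exp_add]; congr 1; push_cast; ring
    rw [h1]
    have h2 : ((2 ^ n : ℕ) : ℝ) * (2 * Real.pi * (1 / 2) ^ n) = 2 * Real.pi := by
      push_cast
      rw [one_div, inv_pow]
      field_simp
    rw [h2, Circle.exp_two_pi]

theorem EPS2_main (K H : Type) [Group K] [TopologicalSpace K] [IsTopologicalGroup K]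
    [CompactSpace K] [T2Space K] [Group H] [TopologicalSpace H] [IsTopologicalGroup H]
    (φ : CL K ≃o CL H) (U' : Subgroup H) (hU'o : IsOpen (U' : Set H))
    (hU'c : IsClosed (U' : Set H)) (χ : K →* Circle) (hχ : Continuous χ)
    (hsurj : Function.Surjective χ)
    (htriv : ∀ u ∈ (φ.symm ⟨U', hU'c⟩).1, χ u = 1) : False := by
  have hclm : ∀ m : ℕ, IsClosed (((powMonoidHom m).comp χ).ker : Set K) := by
    intro m
    have e : (((powMonoidHom m).comp χ).ker : Set K) = {k | χ k ^ m = 1} := by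
      ext k
      simp [MonoidHom.mem_ker]
    rw [e]
    exact isClosed_eq (hχ.pow m) continuous_const
  have hmem : ∀ (m : ℕ) (k : K), k ∈ ((powMonoidHom m).comp χ).ker ↔ χ k ^ m = 1 := by
    intro m k
    simp [MonoidHom.mem_ker]
  let Y : ℕ → CL K := fun m => ⟨((powMonoidHom m).comp χ).ker, hclm m⟩
  have hYmem : ∀ (m : ℕ) (k : K), k ∈ (Y m).1 ↔ χ k ^ m = 1 := hmem
  have hY1 : ∀ (m : ℕ), Y 1 ≤ Y m := by
    intro m k hk
    rw [hYmem] at hk ⊢
    rw [pow_one] at hk
    rw [hk, one_pow]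
  have hUY : ∀ m : ℕ, φ.symm ⟨U', hU'c⟩ ≤ Y m := by
    intro m k hk
    rw [hYmem, htriv k hk, one_pow]
  have hU'Y : ∀ m : ℕ, (⟨U', hU'c⟩ : CL H) ≤ φ (Y m) := by
    intro m
    rw [← OrderIso.symm_apply_le]
    exact hUY m
  -- the union
  have hYmono : Monotone (fun n : ℕ => Y (2 ^ n)) := by
    intro a b hab k hk
    rw [hYmem] at hk ⊢
    obtain ⟨c, rfl⟩ := Nat.exists_eq_add_of_le hab
    rw [pow_add, pow_mul, hk, one_pow]
  have htopK : ∀ P : CL K, (∀ n : ℕ, Y (2 ^ n) ≤ P) → ∀ k : K, k ∈ P.1 := by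
    intro P hP
    have hmapcl : IsClosed ((P.1.map χ : Subgroup Circle) : Set Circle) := by
      rw [Subgroup.coe_map]
      exact (P.2.isCompact.image hχ).isClosed
    have hmaptop : P.1.map χ = ⊤ := by
      apply EPS2_roots _ hmapcl
      intro n z hz
      obtain ⟨k, rfl⟩ := hsurj z
      refine ⟨k, ?_, rfl⟩
      apply hP n
      rw [hYmem]
      exact hz
    intro k
    have h1 : χ k ∈ P.1.map χ := by rw [hmaptop]; exact Subgroup.mem_top _
    obtain ⟨p, hp, hpk⟩ := h1
    have h2 : p⁻¹ * k ∈ P.1 := by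
      apply hP 0
      rw [hYmem, map_mul, map_inv, hpk, inv_mul_cancel, one_pow]
    have h3 := P.1.mul_mem hp h2
    rwa [mul_inv_cancel_left] at h3
  let O : Subgroup H := ⨆ n : ℕ, (φ (Y (2 ^ n))).1
  have hdir : Directed (· ≤ ·) (fun n : ℕ => (φ (Y (2 ^ n))).1) := by
    apply Monotone.directed_le
    intro a b hab
    exact φ.monotone (hYmono hab)
  have hleO : ∀ n : ℕ, (φ (Y (2 ^ n))).1 ≤ O := fun n =>
    le_iSup (fun n : ℕ => (φ (Y (2 ^ n))).1) n
  have hOo : IsOpen (O : Set H) := by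
    apply Subgroup.isOpen_mono (H₁ := U') _ hU'o
    exact le_trans (hU'Y (2 ^ 0)) (hleO 0)
  have hOc : IsClosed (O : Set H) := Subgroup.isClosed_of_isOpen O hOo
  have hOtop : ∀ h : H, h ∈ O := by
    have h1 : ∀ k : K, k ∈ (φ.symm ⟨O, hOc⟩).1 := by
      apply htopK
      intro n
      rw [OrderIso.le_symm_apply]
      exact hleO n
    intro h
    have h2 : (⟨⊤, isClosed_univ⟩ : CL H) ≤ ⟨O, hOc⟩ := by
      rw [← φ.symm.le_iff_le]
      intro k _
      exact h1 k
    exact h2 (Subgroup.mem_top h)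
  -- the three part
  have hX : φ (Y 3) ≤ φ (Y 1) := by
    intro x hx
    have h1 := hOtop x
    rw [Subgroup.mem_iSup_of_directed hdir] at h1
    obtain ⟨n, hn⟩ := h1
    let Z : CL H := ⟨(φ (Y 3)).1 ⊓ (φ (Y (2 ^ n))).1, by
      rw [Subgroup.coe_inf]
      exact (φ (Y 3)).2.inter (φ (Y (2 ^ n))).2⟩
    have hZ1 : Z ≤ φ (Y 3) := fun a ha => ha.1
    have hZ2 : Z ≤ φ (Y (2 ^ n)) := fun a ha => ha.2
    have hZ3 : Z ≤ φ (Y 1) := by
      rw [← OrderIso.symm_apply_le] at hZ1 hZ2 ⊢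
      intro k hk
      have h3 := hZ1 hk
      have h4 := hZ2 hk
      rw [hYmem] at h3 h4 ⊢
      rw [← orderOf_dvd_iff_pow_eq_one] at h3 h4 ⊢
      have h5 : Nat.Coprime 3 (2 ^ n) := Nat.Coprime.pow_right n (by norm_num)
      have h6 := Nat.dvd_gcd h3 h4
      rw [h5.gcd_eq_one] at h6
      exact h6
    exact hZ3 ⟨hx, hn⟩
  have hX' : Y 3 ≤ Y 1 := φ.le_iff_le.mp hX
  obtain ⟨k, hk⟩ := hsurj (Circle.exp (2 * Real.pi / 3))
  have h1 : k ∈ (Y 3).1 := by
    rw [hYmem, hk]
    have h2 : Circle.exp (2 * Real.pi / 3) ^ 3 = Circle.exp (2 * Real.pi) := by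
      rw [pow_succ, pow_succ, pow_one, ← Circle.exp_add, ← Circle.exp_add]
      congr 1
      ring
    rw [h2, Circle.exp_two_pi]
  have h3 := hX' h1
  rw [hYmem, hk, pow_one] at h3
  have h4 : ((Circle.exp (2 * Real.pi / 3) : Circle) : ℂ).re = 1 := by rw [h3]; simp
  rw [Circle.coe_exp, Complex.exp_ofReal_mul_I_re] at h4
  have h5 : 2 * Real.pi / 3 = Real.pi - Real.pi / 3 := by ring
  rw [h5, Real.cos_pi_sub, Real.cos_pi_div_three] at h4
  norm_num at h4

theorem EPS2_compact (hG2 : StG2) (hL1 : StL1) (hC : StChars)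
    (K H : Type) [Group K] [TopologicalSpace K] [IsTopologicalGroup K]
    [CompactSpace K] [T2Space K] [ConnectedSpace K]
    [Group H] [TopologicalSpace H] [IsTopologicalGroup H]
    [LocallyCompactSpace H] [T2Space H] (hcomm : ∀ a b : K, a * b = b * a)
    (φ : CL K ≃o CL H) (hE : ElemCompact H) : CompactSpace H := by
  have hI : IndCompact H := hG2 K H hcomm φ hE
  obtain ⟨V, hVc, hV1⟩ := exists_compact_mem_nhds (1 : H)
  obtain ⟨U', hU'k, hVU'⟩ := hL1 H ⊤ (by rw [Subgroup.coe_top]; exact dense_univ)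
    (fun F _ => hI F) V hVc
  have hU'o : IsOpen (U' : Set H) :=
    Subgroup.isOpen_of_mem_nhds U' (Filter.mem_of_superset hV1 hVU')
  have hU'c : IsClosed (U' : Set H) := hU'k.isClosed
  by_cases hall : ∀ k : K, k ∈ (φ.symm ⟨U', hU'c⟩).1
  · have h2 : (⟨⊤, isClosed_univ⟩ : CL H) ≤ ⟨U', hU'c⟩ := by
      rw [← φ.symm.le_iff_le]
      intro k _
      exact hall k
    have h3 : (U' : Set H) = Set.univ := by
      rw [Set.eq_univ_iff_forall]
      intro h
      exact h2 (Subgroup.mem_top h)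
    rw [h3] at hU'k
    exact ⟨hU'k⟩
  · exfalso
    push Not at hall
    obtain ⟨k, hk⟩ := hall
    let _ : CommGroup K := { (inferInstance : Group K) with mul_comm := hcomm }
    obtain ⟨U, hU⟩ : ∃ U : CL K, U = φ.symm ⟨U', hU'c⟩ := ⟨_, rfl⟩
    have hUcl : IsClosed (U.1 : Set K) := U.2
    have hkU : (QuotientGroup.mk' U.1 k) ≠ 1 := by
      intro h
      rw [QuotientGroup.mk'_apply, QuotientGroup.eq_one_iff, hU] at h
      exact hk h
    obtain ⟨χ', hχ'⟩ := hC (K ⧸ U.1) (QuotientGroup.mk' U.1 k) hkU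
    let χ : K →* Circle := χ'.toMonoidHom.comp (QuotientGroup.mk' U.1)
    have hχ : Continuous χ := χ'.continuous_toFun.comp continuous_quot_mk
    have hχk : χ k ≠ 1 := hχ'
    have hsurj := EPS2_surj K χ hχ k hχk
    apply EPS2_main K H φ U' hU'o hU'c χ hχ hsurj
    intro u hu
    rw [← hU] at hu
    have h1 : QuotientGroup.mk' U.1 u = 1 := by
      rw [QuotientGroup.mk'_apply, QuotientGroup.eq_one_iff]
      exact hu
    change χ' (QuotientGroup.mk' U.1 u) = 1
    rw [h1, map_one]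

theorem EPS2_fin (H : Type) [Group H] (O : Subgroup H) (hO : Finite (H ⧸ O)) :
    Finite {B : Subgroup H // O ≤ B} := by
  let f : {B : Subgroup H // O ≤ B} → Set (H ⧸ O) := fun B =>
    (QuotientGroup.mk : H → H ⧸ O) '' (B.1 : Set H)
  apply Finite.of_injective f
  have key : ∀ B1 B2 : {B : Subgroup H // O ≤ B}, f B1 = f B2 → B1.1 ≤ B2.1 := by
    intro B1 B2 h b hb
    have h1 : (QuotientGroup.mk b : H ⧸ O) ∈ f B2 := by
      rw [← h]
      exact ⟨b, hb, rfl⟩
    obtain ⟨b2, hb2, h2⟩ := h1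
    have h3 : b2⁻¹ * b ∈ O := QuotientGroup.eq.mp h2
    have h4 := B2.1.mul_mem hb2 (B2.2 h3)
    rwa [mul_inv_cancel_left] at h4
  intro B1 B2 h
  apply Subtype.ext
  exact le_antisymm (key B1 B2 h) (key B2 B1 h.symm)

theorem EPS2_conn (hABF : StABF) (K H : Type) [Group K] [TopologicalSpace K] [IsTopologicalGroup K]
    [CompactSpace K] [T2Space K] [ConnectedSpace K]
    [Group H] [TopologicalSpace H] [IsTopologicalGroup H]
    [CompactSpace H] [T2Space H] (hcomm : ∀ a b : K, a * b = b * a)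
    (φ : CL K ≃o CL H) : ConnectedSpace H := by
  have : Nonempty H := ⟨1⟩
  have : PreconnectedSpace H := by
    rw [preconnectedSpace_iff_clopen]
    by_contra hcon
    push Not at hcon
    obtain ⟨s, hs, hs0, hs1⟩ := hcon
    obtain ⟨W, hW, h1W, hWu⟩ : ∃ W : Set H, IsClopen W ∧ (1 : H) ∈ W ∧ W ≠ Set.univ := by
      by_cases h1 : (1 : H) ∈ s
      · exact ⟨s, hs, h1, hs1⟩
      · refine ⟨sᶜ, hs.compl, h1, ?_⟩
        intro h2
        rw [Set.compl_univ_iff] at h2
        first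
          | exact hs0 h2
          | exact hs0.ne_empty h2
    obtain ⟨O', hO'⟩ := IsTopologicalGroup.exist_openSubgroup_sub_clopen_nhds_of_one hW h1W
    have hO'o : IsOpen ((O'.toSubgroup : Subgroup H) : Set H) := O'.isOpen
    have hO'c : IsClosed ((O'.toSubgroup : Subgroup H) : Set H) :=
      Subgroup.isClosed_of_isOpen _ hO'o
    have hfinq : Finite (H ⧸ O'.toSubgroup) := Subgroup.quotient_finite_of_isOpen _ hO'o
    have hfin := EPS2_fin H O'.toSubgroup hfinq
    obtain ⟨O, hO⟩ : ∃ O : CL K, O = φ.symm ⟨O'.toSubgroup, hO'c⟩ := ⟨_, rfl⟩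
    have hfinK : Finite {B : Subgroup K // IsClosed (B : Set K) ∧ O.1 ≤ B} := by
      have hle : ∀ B : {B : Subgroup K // IsClosed (B : Set K) ∧ O.1 ≤ B},
          O'.toSubgroup ≤ (φ ⟨B.1, B.2.1⟩).1 := by
        intro B
        have h1 : φ.symm ⟨O'.toSubgroup, hO'c⟩ ≤ (⟨B.1, B.2.1⟩ : CL K) := by
          rw [← hO]; exact B.2.2
        exact (OrderIso.symm_apply_le φ).mp h1
      let f : {B : Subgroup K // IsClosed (B : Set K) ∧ O.1 ≤ B} →
          {B : Subgroup H // O'.toSubgroup ≤ B} := fun B => ⟨(φ ⟨B.1, B.2.1⟩).1, hle B⟩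
      apply Finite.of_injective f
      intro B1 B2 h
      have h1 : (φ ⟨B1.1, B1.2.1⟩).1 = (φ ⟨B2.1, B2.2.1⟩).1 :=
        congrArg (fun x : {B : Subgroup H // O'.toSubgroup ≤ B} => x.1) h
      have h2 := φ.injective (Subtype.ext h1)
      exact Subtype.ext (congrArg (fun x : CL K => x.1) h2)
    have hOo := hABF K hcomm O.1 O.2 hfinK
    have hOu : (O.1 : Set K) = Set.univ :=
      IsClopen.eq_univ ⟨O.2, hOo⟩ ⟨1, O.1.one_mem⟩
    have htop : (⟨⊤, isClosed_univ⟩ : CL H) ≤ ⟨O'.toSubgroup, hO'c⟩ := by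
      rw [← φ.symm.le_iff_le, ← hO]
      intro k _
      have : k ∈ (O.1 : Set K) := by rw [hOu]; exact Set.mem_univ k
      exact this
    apply hWu
    rw [Set.eq_univ_iff_forall]
    intro h
    exact hO' (htop (Subgroup.mem_top h))
  exact ConnectedSpace.mk inferInstance

theorem EPS2 (hG2 : StG2) (hL1 : StL1) (hABF : StABF) (hC : StChars) : StEPS2 := by
  intro K H _ _ _ _ _ _ _ _ _ _ _ hcomm φ hE
  have hcs : CompactSpace H := EPS2_compact hG2 hL1 hC K H hcomm φ hE
  exact ⟨hcs, EPS2_conn hABF K H hcomm φ⟩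


end Pool.LatH472
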