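import Mathlib
import Pool.Agent.Helper472.LatDefs3

set_option autoImplicit false

namespace Pool.LatH472

open Pointwise

theorem EPS3_gen {G H : Type} [Group G] [TopologicalSpace G] [IsTopologicalGroup G]
    [Group H] [TopologicalSpace H] [IsTopologicalGroup H] (φ : CL G ≃o CL H) (f : H)
    (hL : Loc f) : ∃ c : G, Loc c ∧
      (⟨Zc c, Subgroup.isClosed_topologicalClosure _⟩ : CL G) =
        φ.symm ⟨Zc f, Subgroup.isClosed_topologicalClosure _⟩ := by
  obtain ⟨O, hO, hO1, hO2⟩ := hL
  let Zf : CL H := ⟨Zc f, Subgroup.isClosed_topologicalClosure _⟩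
  let Of : CL H := ⟨O, hO⟩
  have hlt : φ.symm Of < φ.symm Zf := φ.symm.lt_iff_lt.mpr hO1
  have hlt' : (φ.symm Of).1 < (φ.symm Zf).1 := hlt
  obtain ⟨c, hc1, hc2⟩ := SetLike.exists_of_lt hlt'
  let C : CL G := ⟨Zc c, Subgroup.isClosed_topologicalClosure _⟩
  have hcC : c ∈ C.1 := Subgroup.le_topologicalClosure _ (Subgroup.mem_zpowers c)
  have hCE : C ≤ φ.symm Zf := by
    show Zc c ≤ (φ.symm Zf).1
    apply Subgroup.topologicalClosure_minimal _ _ (φ.symm Zf).2
    rw [Subgroup.zpowers_le]
    exact hc1
  have hEq : C = φ.symm Zf := by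
    by_contra hne
    have h1 : C < φ.symm Zf := lt_of_le_of_ne hCE hne
    have h2 : φ C < Zf := by
      have := φ.lt_iff_lt.mpr h1
      rwa [φ.apply_symm_apply] at this
    have h3 : φ C ≤ Of := hO2 (φ C).1 (φ C).2 h2
    have h4 : C ≤ φ.symm Of := φ.le_symm_apply.mpr h3
    exact hc2 (h4 hcC)
  refine ⟨c, ⟨(φ.symm Of).1, (φ.symm Of).2, ?_, ?_⟩, hEq⟩
  · have h1 : φ.symm Of < C := by
      rw [hEq]; exact hlt
    exact h1
  · intro S hS hS1
    let SS : CL G := ⟨S, hS⟩
    have h1 : SS < C := hS1
    have h2 : φ SS < Zf := by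
      have := φ.lt_iff_lt.mpr h1
      rw [hEq] at this
      rwa [φ.apply_symm_apply] at this
    have h3 : φ SS ≤ Of := hO2 (φ SS).1 (φ SS).2 h2
    have h4 : SS ≤ φ.symm Of := φ.le_symm_apply.mpr h3
    exact h4

theorem EPS3_mem {G H : Type} [Group G] [TopologicalSpace G] [IsTopologicalGroup G]
    [Group H] [TopologicalSpace H] [IsTopologicalGroup H] (φ : CL G ≃o CL H) (f : H) (c : G)
    (hEq : (⟨Zc c, Subgroup.isClosed_topologicalClosure _⟩ : CL G) =
        φ.symm ⟨Zc f, Subgroup.isClosed_topologicalClosure _⟩) (K : CL G) (hK : c ∈ K.1) :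
    f ∈ (φ K).1 := by
  let Zf : CL H := ⟨Zc f, Subgroup.isClosed_topologicalClosure _⟩
  have h5 : (⟨Zc c, Subgroup.isClosed_topologicalClosure _⟩ : CL G) ≤ K := by
    show Zc c ≤ K.1
    apply Subgroup.topologicalClosure_minimal _ _ K.2
    rw [Subgroup.zpowers_le]
    exact hK
  rw [hEq] at h5
  have h6 : Zf ≤ φ K := φ.symm_apply_le.mp h5
  exact h6 (Subgroup.le_topologicalClosure _ (Subgroup.mem_zpowers f))

theorem EPS3_map_closure {G : Type} [Group G] [TopologicalSpace G] [IsTopologicalGroup G] (A : CL G)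
    (T : Subgroup ↥A.1) : (T.topologicalClosure).map A.1.subtype =
      (T.map A.1.subtype).topologicalClosure := by
  apply SetLike.coe_injective
  rw [Subgroup.coe_map, Subgroup.topologicalClosure_coe, Subgroup.topologicalClosure_coe,
    Subgroup.coe_map]
  exact (A.2.isClosedEmbedding_subtypeVal.closure_image_eq _).symm

theorem EPS3_loc {G : Type} [Group G] [TopologicalSpace G] [IsTopologicalGroup G] (A : CL G)
    (f : ↥A.1) (hf : Loc (f : G)) : Loc f := by
  obtain ⟨O, hO, hO1, hO2⟩ := hf
  have hZ : (Zc f).map A.1.subtype = Zc (f : G) := by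
    show ((Subgroup.zpowers f).topologicalClosure).map A.1.subtype =
      (Subgroup.zpowers (f : G)).topologicalClosure
    rw [EPS3_map_closure, MonoidHom.map_zpowers]
    rfl
  have hOA : O ≤ A.1 := by
    refine hO1.le.trans ?_
    rw [← hZ]
    exact Subgroup.map_subtype_le _
  have hOm : (O.comap A.1.subtype).map A.1.subtype = O := by
    rw [Subgroup.map_comap_eq, Subgroup.range_subtype]
    exact inf_eq_right.mpr hOA
  refine ⟨O.comap A.1.subtype, hO.preimage continuous_subtype_val, ?_, ?_⟩
  · have h1 : (O.comap A.1.subtype).map A.1.subtype < (Zc f).map A.1.subtype := by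
      rw [hOm, hZ]; exact hO1
    refine lt_of_le_of_ne ?_ ?_
    · exact (Subgroup.map_le_map_iff_of_injective A.1.subtype_injective).mp h1.le
    · intro h
      rw [h] at h1
      exact lt_irrefl _ h1
  · intro S hS hS1
    rw [← Subgroup.map_le_iff_le_comap]
    refine hO2 _ ?_ ?_
    · exact A.2.isClosedEmbedding_subtypeVal.isClosedMap _ hS
    · rw [← hZ]
      refine lt_of_le_of_ne (Subgroup.map_mono hS1.le) ?_
      intro h
      exact hS1.ne (Subgroup.map_injective A.1.subtype_injective h)

theorem EPS3_td (hG1 : StG1td) (hLTD : StLTD) (hRES : StRES) (K H : Type) [Group K]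
    [TopologicalSpace K] [IsTopologicalGroup K] [CompactSpace K] [T2Space K]
    [Group H] [TopologicalSpace H] [IsTopologicalGroup H]
    [CompactSpace H] [T2Space H] (hcomm : ∀ a b : K, a * b = b * a) (φ : CL K ≃o CL H)
    (F' : Finset H) (hF'L : ∀ f ∈ F', Loc f) :
    TotallyDisconnectedSpace ↥((Subgroup.closure (↑F' : Set H)).topologicalClosure) := by
  classical
  have hgen : ∀ f : H, ∃ c : K, Loc f → (Loc c ∧
      (⟨Zc c, Subgroup.isClosed_topologicalClosure _⟩ : CL K) =
        φ.symm ⟨Zc f, Subgroup.isClosed_topologicalClosure _⟩) := by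
    intro f
    by_cases hL : Loc f
    · obtain ⟨c, hc⟩ := EPS3_gen φ f hL
      exact ⟨c, fun _ => hc⟩
    · exact ⟨1, fun h => absurd h hL⟩
  choose c hc using hgen
  have hcm : ∀ f, Loc f → ∀ K : CL K, c f ∈ K.1 → f ∈ (φ K).1 :=
    fun f hf K hK => EPS3_mem φ f (c f) (hc f hf).2 K hK
  let XX : CL H := ⟨(Subgroup.closure (↑F' : Set H)).topologicalClosure,
    Subgroup.isClosed_topologicalClosure _⟩
  have hXK : ∀ W : CL K, (∀ f ∈ F', f ∈ (φ W).1) → XX ≤ φ W := by
    intro W hW
    show (Subgroup.closure (↑F' : Set H)).topologicalClosure ≤ (φ W).1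
    apply Subgroup.topologicalClosure_minimal _ _ (φ W).2
    rw [Subgroup.closure_le]
    exact hW
  let A : CL K := φ.symm XX
  have hAc : IsCompact (A.1 : Set K) := A.2.isCompact
  obtain ⟨ψ, _⟩ := hRES K H φ A
  have hYX : (φ A).1 = XX.1 := by
    show (φ (φ.symm XX)).1 = XX.1
    rw [φ.apply_symm_apply]
  -- `A` is topologically generated by the `c f`
  have hAF : A.1 = (Subgroup.closure (↑(F'.image c) : Set K)).topologicalClosure := by
    let W : CL K := ⟨(Subgroup.closure (↑(F'.image c) : Set K)).topologicalClosure,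
      Subgroup.isClosed_topologicalClosure _⟩
    apply le_antisymm
    · have h1 : A ≤ W := by
        apply φ.symm_apply_le.mpr
        apply hXK
        intro f hf
        refine hcm f (hF'L f hf) W ?_
        apply Subgroup.le_topologicalClosure
        apply Subgroup.subset_closure
        rw [Finset.coe_image]
        exact ⟨f, hf, rfl⟩
      exact h1
    · apply Subgroup.topologicalClosure_minimal _ _ A.2
      rw [Subgroup.closure_le, Finset.coe_image]
      rintro _ ⟨f, hf, rfl⟩
      have h1 : (⟨Zc f, Subgroup.isClosed_topologicalClosure _⟩ : CL H) ≤ XX := by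
        show Zc f ≤ XX.1
        apply Subgroup.topologicalClosure_minimal _ _ XX.2
        rw [Subgroup.zpowers_le]
        exact Subgroup.le_topologicalClosure _ (Subgroup.subset_closure hf)
      have h2 := φ.symm.monotone h1
      rw [← (hc f (hF'L f hf)).2] at h2
      exact h2 (Subgroup.le_topologicalClosure _ (Subgroup.mem_zpowers (c f)))
  have i1 : CompactSpace ↥A.1 := isCompact_iff_compactSpace.mp hAc
  set F : Finset K := F'.image c with hFdef
  have hF : ∀ f ∈ F, Loc f := by
    intro g hg
    obtain ⟨f, hf, rfl⟩ := Finset.mem_image.mp hg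
    exact (hc f (hF'L f hf)).1
  have hFA : ∀ f ∈ F, f ∈ A.1 := by
    intro f hf
    rw [hAF]
    exact Subgroup.le_topologicalClosure _ (Subgroup.subset_closure hf)
  set F2 : Finset ↥A.1 := F.preimage (Subtype.val : ↥A.1 → K) (Subtype.val_injective.injOn)
    with hF2
  have hFimg : (A.1.subtype : ↥A.1 → K) '' (↑F2 : Set ↥A.1) = (↑F : Set K) := by
    ext g
    constructor
    · rintro ⟨a, ha, rfl⟩
      exact Finset.mem_preimage.mp ha
    · intro hg
      exact ⟨⟨g, hFA g hg⟩, Finset.mem_preimage.mpr hg, rfl⟩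
  have hTD : TotallyDisconnectedSpace ↥A.1 := by
    refine hLTD ↥A.1 (fun a b => Subtype.ext (hcomm a b)) F2 ?_ ?_
    · intro f hf
      exact EPS3_loc A f (hF _ (Finset.mem_preimage.mp hf))
    · have h1 : ((Subgroup.closure (↑F2 : Set ↥A.1)).topologicalClosure).map A.1.subtype =
          (⊤ : Subgroup ↥A.1).map A.1.subtype := by
        rw [EPS3_map_closure, MonoidHom.map_closure, hFimg, ← hAF, ← MonoidHom.range_eq_map,
          Subgroup.range_subtype]
      have h2 := Subgroup.map_injective A.1.subtype_injective h1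
      have h3 := congrArg (fun T : Subgroup ↥A.1 => (T : Set ↥A.1)) h2
      simp only [Subgroup.topologicalClosure_coe, Subgroup.coe_top] at h3
      exact dense_iff_closure_eq.mpr h3
  have i2 : CompactSpace ↥(φ A).1 := isCompact_iff_compactSpace.mp (φ A).2.isCompact
  have h : TotallyDisconnectedSpace ↥(φ A).1 := by
    refine hG1 ↥A.1 ↥(φ A).1 ψ ?_
    intro x
    refine ⟨⊤, ?_, Subgroup.mem_top _⟩
    rw [Subgroup.coe_top]
    exact isCompact_univ
  rw [hYX] at h
  exact h

theorem EPS3_conj {H : Type} [Group H] [TopologicalSpace H] [IsTopologicalGroup H] (x g : H)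
    (hx : Loc x) : Loc (g * x * g⁻¹) := by
  obtain ⟨O, hO, hO1, hO2⟩ := hx
  let c : H →* H := (MulAut.conj g).toMonoidHom
  let d : H →* H := (MulAut.conj g⁻¹).toMonoidHom
  have hc : ∀ h, c h = g * h * g⁻¹ := fun h => by simp [c]
  have hd : ∀ h, d h = g⁻¹ * h * g := fun h => by simp [d]
  have hcc : Continuous c := by
    have : (c : H → H) = fun h => g * h * g⁻¹ := funext hc
    rw [this]; fun_prop
  have hdc : Continuous d := by
    have : (d : H → H) = fun h => g⁻¹ * h * g := funext hd
    rw [this]; fun_prop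
  have hcd : ∀ h, c (d h) = h := fun h => by rw [hc, hd]; group
  have hdcc : ∀ h, d (c h) = h := fun h => by rw [hc, hd]; group
  have hmap : ∀ S : Subgroup H, S.map c = S.comap d := by
    intro S
    ext y
    constructor
    · rintro ⟨s, hs, rfl⟩
      show d (c s) ∈ S
      rw [hdcc]; exact hs
    · intro hy
      exact ⟨d y, hy, hcd y⟩
  have hmap' : ∀ S : Subgroup H, S.map d = S.comap c := by
    intro S
    ext y
    constructor
    · rintro ⟨s, hs, rfl⟩
      show c (d s) ∈ S
      rw [hcd]; exact hs
    · intro hy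
      exact ⟨c y, hy, hdcc y⟩
  have hcl : ∀ S : Subgroup H, IsClosed (S : Set H) → IsClosed ((S.comap d : Subgroup H) : Set H) :=
    fun S hS => hS.preimage hdc
  have hcl' : ∀ S : Subgroup H, IsClosed (S : Set H) → IsClosed ((S.comap c : Subgroup H) : Set H) :=
    fun S hS => hS.preimage hcc
  have hdx : d (g * x * g⁻¹) = x := by rw [hd]; group
  have hcx : c x = g * x * g⁻¹ := hc x
  have hZ : Zc (g * x * g⁻¹) = (Zc x).comap d := by
    apply le_antisymm
    · apply Subgroup.topologicalClosure_minimal
      · rw [Subgroup.zpowers_le]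
        show d (g * x * g⁻¹) ∈ Zc x
        rw [hdx]
        exact Subgroup.le_topologicalClosure _ (Subgroup.mem_zpowers x)
      · exact hcl _ (Subgroup.isClosed_topologicalClosure _)
    · rw [← hmap, Subgroup.map_le_iff_le_comap]
      apply Subgroup.topologicalClosure_minimal
      · rw [Subgroup.zpowers_le]
        show c x ∈ Zc (g * x * g⁻¹)
        rw [hcx]
        exact Subgroup.le_topologicalClosure _ (Subgroup.mem_zpowers _)
      · exact hcl' _ (Subgroup.isClosed_topologicalClosure _)
  have hdsurj : Function.Surjective d := fun y => ⟨c y, hdcc y⟩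
  have hcsurj : Function.Surjective c := fun y => ⟨d y, hcd y⟩
  refine ⟨O.comap d, hcl O hO, ?_, ?_⟩
  · rw [hZ]
    exact (Subgroup.comap_lt_comap_of_surjective hdsurj).mpr hO1
  · intro S hS hS1
    rw [hZ] at hS1
    have h1 : S.comap c < Zc x := by
      have h2 : S.comap c < ((Zc x).comap d).comap c :=
        (Subgroup.comap_lt_comap_of_surjective hcsurj).mpr hS1
      have h3 : ((Zc x).comap d).comap c = Zc x := by
        ext y
        show d (c y) ∈ Zc x ↔ y ∈ Zc x
        rw [hdcc]
      rwa [h3] at h2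
    have h4 := hO2 _ (hcl' S hS) h1
    intro y hy
    show d y ∈ O
    apply h4
    show c (d y) ∈ S
    rw [hcd]; exact hy

theorem EPS3 (hPW : StPW) (hTRC : StTRC) (hTR1 : StTR1) (hG1 : StG1td) (hLTD : StLTD)
    (hT11 : StT11ag) (hRES : StRES) : StEPS3 := by
  classical
  intro K H _ _ _ _ _ _ _ _ _ _ _ hcomm φ
  have hE : ElemCompact H := by
    intro g
    refine ⟨⊤, ?_, Subgroup.mem_top _⟩
    rw [Subgroup.coe_top]
    exact isCompact_univ
  have hD := hT11 H hE
  have hcen : ∀ x : H, Loc x → x ∈ Subgroup.center H := by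
    intro x hx
    have key : ∀ g : H, x⁻¹ * (g * x * g⁻¹) = 1 := by
      intro g0
      by_contra hne
      obtain ⟨ι, _, _, ρ, hρ, hρ1⟩ := hPW H _ hne
      apply hρ1
      apply hTR1
      obtain ⟨S, hS, hSt⟩ := hTRC ι
      let t : H → ℂ := fun g => Matrix.trace
        ((ρ (x⁻¹ * (g * x * g⁻¹)) : Matrix.unitaryGroup ι ℂ) : Matrix ι ι ℂ)
      have htc : Continuous t := by
        have h1 : Continuous fun g : H => ρ (x⁻¹ * (g * x * g⁻¹)) :=
          hρ.comp (by fun_prop)
        exact (continuous_subtype_val.comp h1).matrix_trace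
      have htS : ∀ g, t g ∈ S := by
        intro g
        let F : Finset H := {x, g * x * g⁻¹}
        have hFL : ∀ f ∈ F, Loc f := by
          intro f hf
          simp only [F, Finset.mem_insert, Finset.mem_singleton] at hf
          rcases hf with rfl | rfl
          · exact hx
          · exact EPS3_conj x g hx
        have hTD := EPS3_td hG1 hLTD hRES K H hcomm φ F hFL
        let X : Subgroup H := (Subgroup.closure (↑F : Set H)).topologicalClosure
        have hXc : IsClosed (X : Set H) := Subgroup.isClosed_topologicalClosure _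
        have i1 : CompactSpace ↥X := isCompact_iff_compactSpace.mp hXc.isCompact
        have hxX : x ∈ X := Subgroup.le_topologicalClosure _ (Subgroup.subset_closure (by simp [F]))
        have hgX : g * x * g⁻¹ ∈ X :=
          Subgroup.le_topologicalClosure _ (Subgroup.subset_closure (by simp [F]))
        have hy : x⁻¹ * (g * x * g⁻¹) ∈ X := mul_mem (inv_mem hxX) hgX
        have := hSt ↥X (ρ.comp X.subtype) (hρ.comp continuous_subtype_val) ⟨_, hy⟩
        exact this
      have hpre : IsPreconnected (Set.range t) := isPreconnected_range htc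
      have hsub : (Set.range t).Subsingleton := by
        have hct : (Set.range t).Countable := hS.mono (by rintro _ ⟨g, rfl⟩; exact htS g)
        exact hct.isTotallyDisconnected _ (le_refl _) hpre
      have h0 : t g0 = t 1 := hsub ⟨g0, rfl⟩ ⟨1, rfl⟩
      show t g0 = _
      rw [h0]
      show Matrix.trace ((ρ (x⁻¹ * (1 * x * 1⁻¹)) : Matrix.unitaryGroup ι ℂ) : Matrix ι ι ℂ) = _
      have h1 : x⁻¹ * (1 * x * 1⁻¹) = 1 := by group
      rw [h1, map_one]
      simp
    rw [Subgroup.mem_center_iff]
    intro g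
    have h1 := key g
    have h2 : g * x * g⁻¹ = x := by
      have := congrArg (fun z => x * z) h1
      simpa using this
    calc g * x = (g * x * g⁻¹) * g := by group
      _ = x * g := by rw [h2]
  have hle : Subgroup.closure {h : H | Loc h} ≤ Subgroup.center H := by
    rw [Subgroup.closure_le]
    intro x hx
    exact hcen x hx
  have hclosed : IsClosed ((Subgroup.center H : Subgroup H) : Set H) := by
    have : ((Subgroup.center H : Subgroup H) : Set H) = ⋂ g : H, {z : H | g * z = z * g} := by
      ext z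
      simp [Subgroup.mem_center_iff]
    rw [this]
    exact isClosed_iInter fun g => isClosed_eq (by fun_prop) (by fun_prop)
  have htop : ∀ z : H, z ∈ Subgroup.center H := by
    intro z
    have h1 : closure ((Subgroup.closure {h : H | Loc h} : Subgroup H) : Set H) ⊆
        ((Subgroup.center H : Subgroup H) : Set H) :=
      closure_minimal hle hclosed
    exact h1 (hD z)
  intro x y
  exact (Subgroup.mem_center_iff.mp (htop y) x)

end Pool.LatH472
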