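import Mathlib
import Pool.Agent.Helper472.LatDefs3

set_option autoImplicit false

namespace Pool.LatH472

open Pointwise

theorem FRa_key (hABF : StABF) (G : Type) [Group G] [TopologicalSpace G] [IsTopologicalGroup G]
    [CompactSpace G] [T2Space G] (W : CL G) (hW : FR W) (E : Subgroup G)
    (hEc : IsClosed (E : Set G)) (hpre : IsPreconnected (E : Set G))
    (hcm : ∀ a ∈ E, ∀ b ∈ E, a * b = b * a) : E ≤ W.1 := by
  haveI : CompactSpace ↥E := isCompact_iff_compactSpace.1 hEc.isCompact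
  haveI : PreconnectedSpace ↥E := Subtype.preconnectedSpace hpre
  have hcomm : ∀ a b : ↥E, a * b = b * a := fun a b => Subtype.ext (hcm a.1 a.2 b.1 b.2)
  have hAc : IsClosed ((W.1.subgroupOf E : Subgroup ↥E) : Set ↥E) :=
    W.2.preimage continuous_subtype_val
  have hclm : ∀ B : Subgroup ↥E, IsClosed (B : Set ↥E) → IsClosed ((B.map E.subtype : Subgroup G) : Set G) := by
    intro B hB
    rw [Subgroup.coe_map]
    exact hEc.isClosedEmbedding_subtypeVal.isClosedMap _ hB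
  have hfin : Finite {B : Subgroup ↥E // IsClosed (B : Set ↥E) ∧ W.1.subgroupOf E ≤ B} := by
    haveI := hW ⟨E, hEc⟩
    refine Finite.of_injective (β := {B : CL G // W.1 ⊓ (⟨E, hEc⟩ : CL G).1 ≤ B.1 ∧ B ≤ ⟨E, hEc⟩})
      (fun B => ⟨⟨B.1.map E.subtype, hclm B.1 B.2.1⟩, ?_, ?_⟩) ?_
    · rintro x ⟨hx1, hx2⟩
      exact ⟨⟨x, hx2⟩, B.2.2 (Subgroup.mem_subgroupOf.2 hx1), rfl⟩
    · rintro x ⟨y, _, rfl⟩
      exact y.2
    · intro B1 B2 h
      have h2 : B1.1.map E.subtype = B2.1.map E.subtype :=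
        congrArg (fun z : {B : CL G // W.1 ⊓ (⟨E, hEc⟩ : CL G).1 ≤ B.1 ∧ B ≤ ⟨E, hEc⟩} => z.1.1) h
      exact Subtype.ext (Subgroup.map_injective E.subtype_injective h2)
  have hop := hABF ↥E hcomm (W.1.subgroupOf E) hAc hfin
  have hun : ((W.1.subgroupOf E : Subgroup ↥E) : Set ↥E) = Set.univ :=
    IsClopen.eq_univ ⟨hAc, hop⟩ ⟨1, Subgroup.one_mem _⟩
  intro x hx
  have h3 : (⟨x, hx⟩ : ↥E) ∈ ((W.1.subgroupOf E : Subgroup ↥E) : Set ↥E) := by rw [hun]; trivial
  exact Subgroup.mem_subgroupOf.1 h3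

theorem FRa (hABF : StABF) (hFI0 : StFI0) (hTT : StTT) : StFRa := by
  intro G _ _ _ _ _ W hW
  have hEc : IsClosed ((Subgroup.connectedComponentOfOne G : Subgroup G) : Set G) :=
    isClosed_connectedComponent
  have hEW : Subgroup.connectedComponentOfOne G ≤ W.1 := by
    haveI : CompactSpace ↥(Subgroup.connectedComponentOfOne G) :=
      isCompact_iff_compactSpace.1 hEc.isCompact
    have hcon : IsConnected ((Subgroup.connectedComponentOfOne G : Subgroup G) : Set G) :=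
      isConnected_connectedComponent
    haveI : ConnectedSpace ↥(Subgroup.connectedComponentOfOne G) := Subtype.connectedSpace hcon
    intro c hc
    obtain ⟨K, hKc, hcK, hKcon, hKcm⟩ := hTT ↥(Subgroup.connectedComponentOfOne G) ⟨c, hc⟩
    have hcl : IsClosed ((K.map (Subgroup.connectedComponentOfOne G).subtype : Subgroup G) : Set G) := by
      rw [Subgroup.coe_map]
      exact hEc.isClosedEmbedding_subtypeVal.isClosedMap _ hKc
    have hpre : IsPreconnected
        ((K.map (Subgroup.connectedComponentOfOne G).subtype : Subgroup G) : Set G) := by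
      rw [Subgroup.coe_map]
      exact hKcon.isPreconnected.image _ continuous_subtype_val.continuousOn
    refine FRa_key hABF G W hW _ hcl hpre ?_ ⟨⟨c, hc⟩, hcK, rfl⟩
    rintro _ ⟨a, ha, rfl⟩ _ ⟨b, hb, rfl⟩
    have := hKcm a ha b hb
    rw [← map_mul, ← map_mul, this]
  refine hFI0 G W.1 hEW W.2 ?_
  haveI := hW ⟨⊤, isClosed_univ⟩
  refine Finite.of_injective (β := {B : CL G // W.1 ⊓ (⟨⊤, isClosed_univ⟩ : CL G).1 ≤ B.1 ∧ B ≤ ⟨⊤, isClosed_univ⟩})
    (fun B => ⟨⟨B.1, B.2.1⟩, fun x hx => B.2.2 hx.1, fun x _ => trivial⟩) ?_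
  intro B1 B2 h
  have h2 : B1.1 = B2.1 :=
    congrArg (fun z : {B : CL G // W.1 ⊓ (⟨⊤, isClosed_univ⟩ : CL G).1 ≤ B.1 ∧ B ≤ ⟨⊤, isClosed_univ⟩} => z.1.1) h
  exact Subtype.ext h2

end Pool.LatH472
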