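import Mathlib
import Pool.Agent.Helper472.LatDefs3

set_option autoImplicit false

namespace Pool.LatH472

open Pointwise

theorem G3a_normal (G : Type) [Group G] [TopologicalSpace G] [IsTopologicalGroup G] :
    (Subgroup.connectedComponentOfOne G).Normal := by
  constructor
  intro n hn g
  have hc : Continuous (fun x : G => g * x * g⁻¹) := by fun_prop
  have h1 := hc.image_connectedComponent_subset (1 : G)
  have h2 : g * n * g⁻¹ ∈ (fun x : G => g * x * g⁻¹) '' connectedComponent (1 : G) := ⟨n, hn, rfl⟩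
  have h3 := h1 h2
  have e : g * 1 * g⁻¹ = 1 := by simp
  simp only [e] at h3
  exact h3

theorem G3a_td (X : Type) [Group X] [TopologicalSpace X] [IsTopologicalGroup X] (N : Subgroup X)
    [N.Normal] (h : ∀ g : X, g ∉ N → ∃ W : Subgroup X, IsOpen (W : Set X) ∧ N ≤ W ∧ g ∉ W) :
    TotallyDisconnectedSpace (X ⧸ N) := by
  haveI : TotallySeparatedSpace (X ⧸ N) := by
    rw [totallySeparatedSpace_iff_exists_isClopen]
    intro x y hxy
    obtain ⟨a, rfl⟩ := QuotientGroup.mk_surjective x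
    obtain ⟨b, rfl⟩ := QuotientGroup.mk_surjective y
    have hab : a⁻¹ * b ∉ N := fun h' => hxy (QuotientGroup.eq.2 h')
    obtain ⟨W, hWo, hNW, hW⟩ := h _ hab
    let W' : Subgroup (X ⧸ N) := W.map (QuotientGroup.mk' N)
    have hW'o : IsOpen (W' : Set (X ⧸ N)) := by
      have := QuotientGroup.isOpenMap_coe (N := N) (W : Set X) hWo
      exact this
    have hW'c : IsClosed (W' : Set (X ⧸ N)) := Subgroup.isClosed_of_isOpen W' hW'o
    have hcont : Continuous (fun q : X ⧸ N => ((a : X) : X ⧸ N)⁻¹ * q) := continuous_const_mul _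
    refine ⟨(fun q : X ⧸ N => ((a : X) : X ⧸ N)⁻¹ * q) ⁻¹' (W' : Set (X ⧸ N)),
      ⟨hW'c.preimage hcont, hW'o.preimage hcont⟩, ?_, ?_⟩
    · show ((a : X) : X ⧸ N)⁻¹ * ((a : X) : X ⧸ N) ∈ W'
      rw [inv_mul_cancel]
      exact W'.one_mem
    · show ¬ (((a : X) : X ⧸ N)⁻¹ * ((b : X) : X ⧸ N) ∈ W')
      rintro ⟨w, hw, hwe⟩
      apply hW
      have h1 : ((w : X) : X ⧸ N) = ((a⁻¹ * b : X) : X ⧸ N) := hwe
      rw [QuotientGroup.eq] at h1
      have h2 := W.mul_mem hw (hNW h1)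
      simpa using h2
  infer_instance

theorem G3a (hTD : StTD) (hCCC : StCCC) (hAFI : StAFIa) (hT8 : StT8a) (hCORE : StCORE) (hQUO : StQUO)
    (hRES : StRES) (hL1 : StL1) (hL2 : StL2) : StG3a := by
  intro G H _ _ _ _ _ _ _ _ _ _ φ hEC
  have hfi := hAFI G H φ hEC
  have h8 := hT8 G H φ hfi
  obtain ⟨E, hE, hNE, hsep⟩ := hCORE G H φ hfi h8
  haveI hEn : E.1.Normal := by rw [hE]; exact G3a_normal G
  haveI := hNE
  haveI hEcl : IsClosed (E.1 : Set G) := E.2
  haveI hFcl : IsClosed ((φ E).1 : Set H) := (φ E).2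
  obtain ⟨θ⟩ := hQUO G H φ E
  haveI t1 : TotallyDisconnectedSpace (G ⧸ E.1) := by
    apply G3a_td
    intro g hg
    have hg' : g ∉ connectedComponent (1 : G) := by
      intro h; apply hg; rw [hE]; exact h
    rw [connectedComponent_eq_iInter_isClopen, Set.mem_iInter] at hg'
    push Not at hg'
    obtain ⟨⟨s, hs1, hs2⟩, hgs⟩ := hg'
    obtain ⟨W, hW⟩ := IsTopologicalGroup.exist_openSubgroup_sub_clopen_nhds_of_one hs1 hs2
    refine ⟨W.toSubgroup, W.isOpen, ?_, fun h => hgs (hW h)⟩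
    rw [hE]
    intro x hx
    exact (W.isClopen.connectedComponent_subset W.one_mem) hx
  haveI t2 : TotallyDisconnectedSpace (H ⧸ (φ E).1) := by
    apply G3a_td
    intro h hh
    obtain ⟨N, _, hN2, hN3, hN4⟩ := hsep h hh
    exact ⟨N, hN2, hN3, hN4⟩
  have hIG : IndCompact (G ⧸ E.1) := by
    intro F
    exact ⟨⊤, by simpa using isCompact_univ, by simp⟩
  have hEH : ElemCompact (H ⧸ (φ E).1) := by
    intro q
    obtain ⟨h, rfl⟩ := QuotientGroup.mk_surjective q
    obtain ⟨K, hK, hhK⟩ := hEC h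
    refine ⟨K.map (QuotientGroup.mk' (φ E).1), ?_, ⟨h, hhK, rfl⟩⟩
    exact hK.image QuotientGroup.continuous_mk
  have hIH : IndCompact (H ⧸ (φ E).1) := hTD (G ⧸ E.1) (H ⧸ (φ E).1) θ hIG hEH
  obtain ⟨ψ, _⟩ := hRES G H φ E
  haveI c1 : CompactSpace ↥E.1 := isCompact_iff_compactSpace.1 E.2.isCompact
  haveI c3 : ConnectedSpace ↥E.1 := by
    have h0 : IsConnected (E.1 : Set G) := by
      have h1 : (E.1 : Set G) = connectedComponent (1 : G) := by rw [hE]; rfl
      rw [h1]; exact isConnected_connectedComponent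
    exact isConnected_iff_connectedSpace.1 h0
  have hemb : Topology.IsClosedEmbedding (Subtype.val : ↥(φ E).1 → H) := hFcl.isClosedEmbedding_subtypeVal
  haveI c2 : LocallyCompactSpace ↥(φ E).1 := hemb.locallyCompactSpace
  have hElem : ElemCompact ↥(φ E).1 := by
    intro g
    obtain ⟨K, hK, hgK⟩ := hEC g.1
    refine ⟨K.comap (φ E).1.subtype, ?_, hgK⟩
    exact hemb.isCompact_preimage hK
  have hcs : CompactSpace ↥(φ E).1 := hCCC ↥E.1 ↥(φ E).1 ψ hElem
  have hcc : IsCompact ((φ E).1 : Set H) := isCompact_iff_compactSpace.2 hcs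
  refine hL2 H (φ E).1 hFcl ?_ hIH
  intro Q hQ hQs
  exact ⟨(φ E).1, hcc, hQs⟩

end Pool.LatH472
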