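import Mathlib
import Pool.Agent.Helper472.LatDefs3

set_option autoImplicit false

namespace Pool.LatH472

open Pointwise

/-- entrywise ℓ¹ norm of a matrix -/
noncomputable def NSS_N {ι : Type} [Fintype ι] (A : Matrix ι ι ℂ) : ℝ := ∑ i, ∑ j, ‖A i j‖

theorem NSS_nonneg {ι : Type} [Fintype ι] (A : Matrix ι ι ℂ) : 0 ≤ NSS_N A :=
  Finset.sum_nonneg fun _ _ => Finset.sum_nonneg fun _ _ => norm_nonneg _

theorem NSS_sub {ι : Type} [Fintype ι] (A B : Matrix ι ι ℂ) :
    NSS_N (A - B) ≤ NSS_N A + NSS_N B := by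
  unfold NSS_N
  rw [← Finset.sum_add_distrib]
  refine Finset.sum_le_sum fun i _ => ?_
  rw [← Finset.sum_add_distrib]
  refine Finset.sum_le_sum fun j _ => ?_
  rw [Matrix.sub_apply]
  exact norm_sub_le _ _

theorem NSS_mul {ι : Type} [Fintype ι] (A B : Matrix ι ι ℂ) :
    NSS_N (A * B) ≤ NSS_N A * NSS_N B := by
  have h1 : ∀ j, ∑ k, ‖B j k‖ ≤ NSS_N B := fun j =>
    Finset.single_le_sum (f := fun j => ∑ k, ‖B j k‖)
      (fun _ _ => Finset.sum_nonneg fun _ _ => norm_nonneg _) (Finset.mem_univ j)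
  calc NSS_N (A * B) ≤ ∑ i, ∑ k, ∑ j, ‖A i j‖ * ‖B j k‖ := by
        unfold NSS_N
        refine Finset.sum_le_sum fun i _ => Finset.sum_le_sum fun k _ => ?_
        rw [Matrix.mul_apply]
        refine (norm_sum_le _ _).trans (Finset.sum_le_sum fun j _ => ?_)
        rw [norm_mul]
    _ = ∑ i, ∑ j, ‖A i j‖ * ∑ k, ‖B j k‖ := by
        refine Finset.sum_congr rfl fun i _ => ?_
        rw [Finset.sum_comm]
        refine Finset.sum_congr rfl fun j _ => ?_
        rw [Finset.mul_sum]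
    _ ≤ ∑ i, ∑ j, ‖A i j‖ * NSS_N B := by
        refine Finset.sum_le_sum fun i _ => Finset.sum_le_sum fun j _ => ?_
        exact mul_le_mul_of_nonneg_left (h1 j) (norm_nonneg _)
    _ = NSS_N A * NSS_N B := by
        unfold NSS_N
        rw [Finset.sum_mul]
        refine Finset.sum_congr rfl fun i _ => ?_
        rw [Finset.sum_mul]

theorem NSS_two {ι : Type} [Fintype ι] (A : Matrix ι ι ℂ) : NSS_N ((2:ℂ) • A) = 2 * NSS_N A := by
  unfold NSS_N
  rw [Finset.mul_sum]
  refine Finset.sum_congr rfl fun i _ => ?_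
  rw [Finset.mul_sum]
  refine Finset.sum_congr rfl fun j _ => ?_
  rw [Matrix.smul_apply, norm_smul]
  norm_num

theorem NSS_eq_zero {ι : Type} [Fintype ι] (A : Matrix ι ι ℂ) (h : NSS_N A = 0) : A = 0 := by
  have h1 : ∀ i, ∑ j, ‖A i j‖ = 0 := fun i =>
    (Finset.sum_eq_zero_iff_of_nonneg (s := Finset.univ) (f := fun i => ∑ j, ‖A i j‖)
      (fun _ _ => Finset.sum_nonneg fun _ _ => norm_nonneg _)).1 h i (Finset.mem_univ i)
  have h2 : ∀ i j, ‖A i j‖ = 0 := fun i j =>
    (Finset.sum_eq_zero_iff_of_nonneg (s := Finset.univ) (f := fun j => ‖A i j‖)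
      (fun _ _ => norm_nonneg _)).1 (h1 i) j (Finset.mem_univ j)
  ext i j
  simpa using h2 i j

theorem NSS : StNSS := by
  intro ι _ _
  refine ⟨{u | NSS_N ((u : Matrix ι ι ℂ) - 1) < 1 / 2}, ?_, ?_⟩
  · apply IsOpen.mem_nhds
    · have hc : Continuous fun u : Matrix.unitaryGroup ι ℂ => NSS_N ((u : Matrix ι ι ℂ) - 1) := by
        unfold NSS_N
        refine continuous_finsetSum _ fun i _ => continuous_finsetSum _ fun j _ => ?_
        apply Continuous.norm
        have h1 : Continuous fun u : Matrix.unitaryGroup ι ℂ => ((u : Matrix ι ι ℂ) - 1) :=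
          continuous_subtype_val.sub continuous_const
        exact h1.matrix_elem i j
      exact isOpen_lt hc continuous_const
    · show NSS_N (((1 : Matrix.unitaryGroup ι ℂ) : Matrix ι ι ℂ) - 1) < 1 / 2
      have : (((1 : Matrix.unitaryGroup ι ℂ) : Matrix ι ι ℂ) - 1) = 0 := by simp
      rw [this]
      simp [NSS_N]
  · intro S hS
    have key : ∀ k : ℕ, ∀ s ∈ S, (3 / 2 : ℝ) ^ k * NSS_N ((s : Matrix ι ι ℂ) - 1) ≤ 1 / 2 := by
      intro k
      induction k with
      | zero =>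
        intro s hs
        rw [pow_zero, one_mul]
        exact le_of_lt (hS hs)
      | succ k ih =>
        intro s hs
        have h1 := ih (s * s) (S.mul_mem hs hs)
        have h2 : NSS_N ((s : Matrix ι ι ℂ) - 1) < 1 / 2 := hS hs
        have h3 := NSS_nonneg ((s : Matrix ι ι ℂ) - 1)
        have e : (2:ℂ) • ((s : Matrix ι ι ℂ) - 1) =
            (((s * s : Matrix.unitaryGroup ι ℂ) : Matrix ι ι ℂ) - 1) -
              ((s : Matrix ι ι ℂ) - 1) * ((s : Matrix ι ι ℂ) - 1) := by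
          have : ((s * s : Matrix.unitaryGroup ι ℂ) : Matrix ι ι ℂ) =
            (s : Matrix ι ι ℂ) * (s : Matrix ι ι ℂ) := rfl
          rw [this, two_smul]
          noncomm_ring
        have h4 := NSS_sub (((s * s : Matrix.unitaryGroup ι ℂ) : Matrix ι ι ℂ) - 1)
          (((s : Matrix ι ι ℂ) - 1) * ((s : Matrix ι ι ℂ) - 1))
        rw [← e, NSS_two] at h4
        have h5 := NSS_mul ((s : Matrix ι ι ℂ) - 1) ((s : Matrix ι ι ℂ) - 1)
        have h6 : 3 / 2 * NSS_N ((s : Matrix ι ι ℂ) - 1) ≤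
            NSS_N (((s * s : Matrix.unitaryGroup ι ℂ) : Matrix ι ι ℂ) - 1) := by nlinarith
        rw [pow_succ, mul_assoc]
        refine le_trans (mul_le_mul_of_nonneg_left h6 (by positivity)) h1
    rw [Subgroup.eq_bot_iff_forall]
    intro s hs
    by_contra hne
    have hpos : 0 < NSS_N ((s : Matrix ι ι ℂ) - 1) := by
      refine lt_of_le_of_ne (NSS_nonneg _) (fun h => hne ?_)
      have := NSS_eq_zero _ h.symm
      apply Subtype.ext
      rw [sub_eq_zero] at this
      exact this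
    obtain ⟨k, hk⟩ := pow_unbounded_of_one_lt (1 / 2 / NSS_N ((s : Matrix ι ι ℂ) - 1))
      (by norm_num : (1:ℝ) < 3 / 2)
    rw [div_lt_iff₀ hpos] at hk
    have := key k s hs
    linarith

end Pool.LatH472
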