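import Mathlib
import Pool.Agent.Helper472.LatDefs3

set_option autoImplicit false

namespace Pool.LatH472

open Pointwise

theorem PROC_dense {E : Type} [Group E] [TopologicalSpace E] [IsTopologicalGroup E]
    (e : E) (he : Zc e = ⊤) : Dense ((Subgroup.zpowers e : Subgroup E) : Set E) := by
  intro x
  have : x ∈ Zc e := by rw [he]; trivial
  exact this

theorem PROC_comm {E : Type} [Group E] [TopologicalSpace E] [IsTopologicalGroup E] [T2Space E]
    (e : E) (he : Zc e = ⊤) : ∀ a b : E, a * b = b * a := by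
  have hd := PROC_dense e he
  have h1 : ∀ s ∈ Subgroup.zpowers e, ∀ a : E, a * s = s * a := by
    intro s hs a
    have hcl : IsClosed {a : E | a * s = s * a} :=
      isClosed_eq (continuous_id.mul continuous_const) (continuous_const.mul continuous_id)
    have hsub : ((Subgroup.zpowers e : Subgroup E) : Set E) ⊆ {a : E | a * s = s * a} := by
      intro b hb
      obtain ⟨m, rfl⟩ := Subgroup.mem_zpowers_iff.1 hs
      obtain ⟨n, rfl⟩ := Subgroup.mem_zpowers_iff.1 hb
      show e ^ n * e ^ m = e ^ m * e ^ n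
      rw [← zpow_add, ← zpow_add, add_comm]
    have := closure_minimal hsub hcl
    rw [hd.closure_eq] at this
    exact this (Set.mem_univ a)
  intro a b
  have hcl : IsClosed {b : E | a * b = b * a} :=
    isClosed_eq (continuous_const.mul continuous_id) (continuous_id.mul continuous_const)
  have hsub : ((Subgroup.zpowers e : Subgroup E) : Set E) ⊆ {b : E | a * b = b * a} :=
    fun s hs => h1 s hs a
  have := closure_minimal hsub hcl
  rw [hd.closure_eq] at this
  exact this (Set.mem_univ b)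

theorem PROC_fin {C : Type} [Group C] (N : Subgroup C) [N.Normal] [Finite (C ⧸ N)] :
    Finite {B : Subgroup C // N ≤ B} := by
  have hinj : Function.Injective
      (fun B : {B : Subgroup C // N ≤ B} => B.1.map (QuotientGroup.mk' N)) := by
    intro B B' h
    apply Subtype.ext
    have h1 := congrArg (Subgroup.comap (QuotientGroup.mk' N)) h
    simp only [Subgroup.comap_map_eq, QuotientGroup.ker_mk'] at h1
    rw [sup_eq_left.2 B.2, sup_eq_left.2 B'.2] at h1
    exact h1
  exact Finite.of_injective _ hinj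

theorem PROC_cyc {C E : Type} [Group C] [TopologicalSpace C] [IsTopologicalGroup C]
    [CompactSpace C] [T2Space C] [TotallyDisconnectedSpace C]
    [Group E] [TopologicalSpace E] [IsTopologicalGroup E]
    [CompactSpace E] [T2Space E] [TotallyDisconnectedSpace E]
    (hCYC : StCYC) (hINT : StINT) (hFI : StFI) (φ : CL C ≃o CL E) (e : E) (he : Zc e = ⊤)
    (N : Subgroup C) [hNn : N.Normal] (hN : IsOpen (N : Set C)) : IsCyclic (C ⧸ N) := by
  have hcomm := PROC_comm e he
  have hd := PROC_dense e he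
  let NC : CL C := ⟨N, Subgroup.isClosed_of_isOpen N hN⟩
  haveI : NC.1.Normal := hNn
  haveI : Finite (C ⧸ N) := Subgroup.quotient_finite_of_isOpen N hN
  haveI : Finite (C ⧸ NC.1) := Subgroup.quotient_finite_of_isOpen N hN
  haveI hnE : (φ NC).1.Normal := ⟨fun n hn g => by
    rw [hcomm g n, mul_assoc, mul_inv_cancel, mul_one]; exact hn⟩
  have hfinE : Finite {B : Subgroup E // IsClosed (B : Set E) ∧ (φ NC).1 ≤ B} := by
    haveI := PROC_fin N
    have hle : ∀ B : {B : Subgroup E // IsClosed (B : Set E) ∧ (φ NC).1 ≤ B},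
        N ≤ (φ.symm ⟨B.1, B.2.1⟩).1 := by
      intro B
      have h1 : φ NC ≤ ⟨B.1, B.2.1⟩ := B.2.2
      have h2 : NC ≤ φ.symm ⟨B.1, B.2.1⟩ := (φ.le_symm_apply).2 h1
      exact h2
    let f : {B : Subgroup E // IsClosed (B : Set E) ∧ (φ NC).1 ≤ B} → {B : Subgroup C // N ≤ B} :=
      fun B => ⟨(φ.symm ⟨B.1, B.2.1⟩).1, hle B⟩
    have hf : Function.Injective f := by
      intro B B' h
      have h1 : (φ.symm ⟨B.1, B.2.1⟩) = (φ.symm ⟨B'.1, B'.2.1⟩) :=
        Subtype.ext (congrArg (fun z : {B : Subgroup C // N ≤ B} => z.1) h)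
      have h2 := φ.symm.injective h1
      exact Subtype.ext (congrArg (fun z : CL E => z.1) h2)
    exact Finite.of_injective f hf
  have hopE : IsOpen ((φ NC).1 : Set E) := hFI E (φ NC).1 (φ NC).2 hfinE
  obtain ⟨ψ⟩ := hINT C E φ NC hN hopE
  haveI : Finite (E ⧸ (φ NC).1) := Subgroup.quotient_finite_of_isOpen _ hopE
  haveI : IsCyclic (E ⧸ (φ NC).1) := by
    refine ⟨(QuotientGroup.mk e : E ⧸ (φ NC).1), fun q => ?_⟩
    obtain ⟨x, rfl⟩ := QuotientGroup.mk_surjective q
    have hop : IsOpen {y : E | x⁻¹ * y ∈ (φ NC).1} :=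
      hopE.preimage (continuous_const.mul continuous_id)
    obtain ⟨y, hy1, hy2⟩ := hd.inter_open_nonempty _ hop
      ⟨x, by show x⁻¹ * x ∈ (φ NC).1; rw [inv_mul_cancel]; exact (φ NC).1.one_mem⟩
    obtain ⟨m, rfl⟩ := Subgroup.mem_zpowers_iff.1 hy2
    refine ⟨m, ?_⟩
    have h3 : (QuotientGroup.mk x : E ⧸ (φ NC).1) = QuotientGroup.mk (e ^ m) :=
      QuotientGroup.eq.2 hy1
    rw [h3]
    rfl
  exact hCYC (C ⧸ N) (E ⧸ (φ NC).1) ψ

theorem PROC (hCYC : StCYC) (hINT : StINT) (hFI : StFI) : StPROC := by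
  intro C E _ _ _ _ _ _ _ _ _ _ _ _ φ ⟨e, he⟩
  let ι := {N : Subgroup C // N.Normal ∧ IsOpen (N : Set C)}
  let t : ι → Set C := fun N => {c | ∀ x : C, ∃ k : ℤ, (c ^ k)⁻¹ * x ∈ N.1}
  haveI : Nonempty ι := ⟨⟨⊤, inferInstance, isOpen_univ⟩⟩
  have htd : Directed (· ⊇ ·) t := by
    intro N N'
    haveI := N.2.1
    haveI := N'.2.1
    refine ⟨⟨N.1 ⊓ N'.1, inferInstance, N.2.2.inter N'.2.2⟩, ?_, ?_⟩
    · intro c hc x
      obtain ⟨k, hk⟩ := hc x
      exact ⟨k, hk.1⟩
    · intro c hc x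
      obtain ⟨k, hk⟩ := hc x
      exact ⟨k, hk.2⟩
  have htn : ∀ N, (t N).Nonempty := by
    intro N
    haveI := N.2.1
    haveI hcyc : IsCyclic (C ⧸ N.1) := PROC_cyc hCYC hINT hFI φ e he N.1 N.2.2
    obtain ⟨g, hg⟩ := hcyc.exists_generator
    obtain ⟨c, rfl⟩ := QuotientGroup.mk_surjective g
    refine ⟨c, fun x => ?_⟩
    obtain ⟨k, hk⟩ := Subgroup.mem_zpowers_iff.1 (hg (QuotientGroup.mk x))
    refine ⟨k, ?_⟩
    have h3 : (QuotientGroup.mk (c ^ k) : C ⧸ N.1) = QuotientGroup.mk x := hk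
    exact QuotientGroup.eq.1 h3
  have htcl : ∀ N, IsClosed (t N) := by
    intro N
    haveI := N.2.1
    haveI : DiscreteTopology (C ⧸ N.1) := QuotientGroup.discreteTopology N.2.2
    have h4 : t N = (QuotientGroup.mk : C → C ⧸ N.1) ⁻¹'
        {q | ∀ x : C, ∃ k : ℤ, q ^ k = (QuotientGroup.mk x : C ⧸ N.1)} := by
      ext c
      constructor
      · intro hc x
        obtain ⟨k, hk⟩ := hc x
        exact ⟨k, QuotientGroup.eq.2 hk⟩
      · intro hc x
        obtain ⟨k, hk⟩ := hc x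
        have h3 : (QuotientGroup.mk (c ^ k) : C ⧸ N.1) = QuotientGroup.mk x := hk
        exact ⟨k, QuotientGroup.eq.1 h3⟩
    rw [h4]
    exact (isClosed_discrete _).preimage QuotientGroup.continuous_mk
  obtain ⟨c, hc⟩ := IsCompact.nonempty_iInter_of_directed_nonempty_isCompact_isClosed t htd htn
    (fun N => (htcl N).isCompact) htcl
  refine ⟨c, ?_⟩
  rw [eq_top_iff]
  intro x _
  show x ∈ closure ((Subgroup.zpowers c : Subgroup C) : Set C)
  rw [mem_closure_iff]
  intro U hU hxU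
  obtain ⟨H, hH⟩ := ProfiniteGrp.exist_openNormalSubgroup_sub_open_nhds_of_one
    (U := {y : C | x * y ∈ U}) (hU.preimage (continuous_const.mul continuous_id)) (by simpa using hxU)
  obtain ⟨k, hk⟩ := Set.mem_iInter.1 hc ⟨H.toSubgroup, H.isNormal', H.isOpen'⟩ x
  have h5 : x⁻¹ * c ^ k ∈ H.toSubgroup := by
    have h6 := H.toSubgroup.inv_mem hk
    simpa [mul_inv_rev] using h6
  have h7 : x * (x⁻¹ * c ^ k) ∈ U := hH h5
  rw [mul_inv_cancel_left] at h7
  exact ⟨c ^ k, h7, Subgroup.mem_zpowers_iff.2 ⟨k, rfl⟩⟩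


end Pool.LatH472
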