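import Mathlib
import Pool.Agent.Helper472.LatDefs3

set_option autoImplicit false

namespace Pool.LatH472

open Pointwise

theorem T8a (hFR : StFRa) (hFR1 : StFR1) (hFR2 : StFR2) : StT8a := by
  intro G H _ _ _ _ _ _ _ _ _ φ hfi W hW
  haveI hfiW : (φ W).1.FiniteIndex := hfi W hW
  have hcl : IsClosed (((φ W).1.normalCore : Subgroup H) : Set H) := by
    have h1 : (((φ W).1.normalCore : Subgroup H) : Set H) =
        ⋂ b : H, (fun a : H => b * a * b⁻¹) ⁻¹' ((φ W).1 : Set H) := by
      ext a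
      simp only [Set.mem_iInter, Set.mem_preimage]
      exact Iff.rfl
    rw [h1]
    refine isClosed_iInter fun b => (φ W).2.preimage ?_
    fun_prop
  haveI hnf : ((φ W).1.normalCore).FiniteIndex := inferInstance
  refine ⟨⟨(φ W).1.normalCore, hcl⟩, Subgroup.normalCore_normal _, Subgroup.normalCore_le _, ?_⟩
  exact hFR G _ (hFR2 H G φ.symm _ (hFR1 H ⟨(φ W).1.normalCore, hcl⟩ hnf))

end Pool.LatH472
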