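import Mathlib
import Pool.Agent.Helper472.LatDefs3

set_option autoImplicit false

namespace Pool.LatH472

open Pointwise

open Matrix ComplexOrder in
theorem TR1 : StTR1 := by
  intro ι _ _ u hu
  have h1 : (u : Matrix ι ι ℂ)ᴴ * (u : Matrix ι ι ℂ) = 1 := by
    have := Matrix.UnitaryGroup.star_mul_self u
    simpa [Matrix.star_eq_conjTranspose] using this
  have h2 : Matrix.trace (((u : Matrix ι ι ℂ) - 1)ᴴ * ((u : Matrix ι ι ℂ) - 1)) = 0 := by
    have e : ((u : Matrix ι ι ℂ) - 1)ᴴ * ((u : Matrix ι ι ℂ) - 1)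
        = (1 : Matrix ι ι ℂ) - (u : Matrix ι ι ℂ)ᴴ - (u : Matrix ι ι ℂ) + 1 := by
      rw [Matrix.conjTranspose_sub, Matrix.conjTranspose_one, sub_mul, mul_sub, mul_sub, h1]
      simp
      abel
    rw [e, Matrix.trace_add, Matrix.trace_sub, Matrix.trace_sub, Matrix.trace_conjTranspose, hu,
      Matrix.trace_one]
    simp
  have h3 : (u : Matrix ι ι ℂ) - 1 = 0 := by
    rwa [Matrix.trace_conjTranspose_mul_self_eq_zero_iff] at h2
  apply Subtype.ext
  have := sub_eq_zero.mp h3
  simpa using this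

end Pool.LatH472
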