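import Mathlib
import Pool.Agent.Helper472.LatDefs3

set_option autoImplicit false

namespace Pool.LatH472

open Pointwise

theorem TRC_countable : Countable {x : ℂ // ∃ k : ℕ, 0 < k ∧ x ^ k = 1} := by
  have h : {x : ℂ | ∃ k : ℕ, 0 < k ∧ x ^ k = 1}.Countable := by
    have h1 : {x : ℂ | ∃ k : ℕ, 0 < k ∧ x ^ k = 1} ⊆
        ⋃ k : ℕ, ((Polynomial.nthRoots k (1 : ℂ)).toFinset : Set ℂ) := by
      rintro x ⟨k, hk, hx⟩
      rw [Set.mem_iUnion]
      refine ⟨k, ?_⟩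
      rw [Finset.mem_coe, Multiset.mem_toFinset, Polynomial.mem_nthRoots hk]
      exact hx
    exact (Set.countable_iUnion fun k => Finset.countable_toSet _).mono h1
  exact h.to_subtype

theorem TRC (hNSS : StNSS) : StTRC := by
  intro ι _ _
  haveI := TRC_countable
  refine ⟨Set.range (fun s : Multiset {x : ℂ // ∃ k : ℕ, 0 < k ∧ x ^ k = 1} =>
    (s.map Subtype.val).sum), Set.countable_range _, ?_⟩
  intro Z _ _ _ _ _ _ ρ hρ z
  obtain ⟨O, hO, hS⟩ := hNSS ι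
  obtain ⟨U, hUO, hUo, h1U⟩ := mem_nhds_iff.1 hO
  obtain ⟨N, hN⟩ := ProfiniteGrp.exist_openNormalSubgroup_sub_open_nhds_of_one
    (hUo.preimage hρ) (show (1 : Z) ∈ ρ ⁻¹' U by rw [Set.mem_preimage, map_one]; exact h1U)
  have hbot : (N.toSubgroup.map ρ) = ⊥ := by
    apply hS
    rintro _ ⟨x, hx, rfl⟩
    exact hUO (hN hx)
  haveI : Finite (Z ⧸ N.toSubgroup) := Subgroup.quotient_finite_of_isOpen _ N.isOpen'
  obtain ⟨n, hn, _, hmem⟩ := Subgroup.exists_pow_mem_of_index_ne_zero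
    (H := N.toSubgroup) Subgroup.index_ne_zero_of_finite z
  have hpow : (ρ z) ^ n = 1 := by
    rw [← map_pow]
    have : ρ (z ^ n) ∈ (N.toSubgroup.map ρ) := ⟨z ^ n, hmem, rfl⟩
    rw [hbot, Subgroup.mem_bot] at this
    exact this
  set M : Matrix ι ι ℂ := ((ρ z : Matrix.unitaryGroup ι ℂ) : Matrix ι ι ℂ) with hM
  have hMn : M ^ n = 1 := by
    rw [hM, ← SubmonoidClass.coe_pow, hpow]
    rfl
  have hroot : ∀ x ∈ M.charpoly.roots, ∃ k : ℕ, 0 < k ∧ x ^ k = 1 := by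
    intro x hx
    refine ⟨n, hn, ?_⟩
    have hsp : x ∈ spectrum ℂ M := by
      rw [Matrix.mem_spectrum_iff_isRoot_charpoly]
      exact Polynomial.isRoot_of_mem_roots hx
    rcases subsingleton_or_nontrivial (Matrix ι ι ℂ) with h | h
    · rw [spectrum.of_subsingleton] at hsp
      exact absurd hsp (Set.notMem_empty _)
    · have h2 : x ^ n ∈ spectrum ℂ (M ^ n) := spectrum.pow_image_subset M n ⟨x, hsp, rfl⟩
      rw [hMn, spectrum.one_eq] at h2
      exact h2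
  obtain ⟨s, hs⟩ : ∃ s : Multiset {x : ℂ // ∃ k : ℕ, 0 < k ∧ x ^ k = 1},
      s.map Subtype.val = M.charpoly.roots := by
    lift M.charpoly.roots to Multiset {x : ℂ // ∃ k : ℕ, 0 < k ∧ x ^ k = 1} using hroot with s
    exact ⟨s, rfl⟩
  refine ⟨s, ?_⟩
  simp only []
  rw [hs, Matrix.trace_eq_sum_roots_charpoly]

end Pool.LatH472
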