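import Mathlib
import Pool.Agent.Helper472.LatDefs3

set_option autoImplicit false

namespace Pool.LatH472

open Pointwise

theorem TTq_cont {ι : Type} [Fintype ι] [DecidableEq ι] (X : Matrix ι ι ℂ) :
    Continuous fun t : ℝ => (NormedSpace.exp (t • X) : Matrix ι ι ℂ) := by
  letI : NormedRing (Matrix ι ι ℂ) := Matrix.linftyOpNormedRing
  letI : NormedAlgebra ℂ (Matrix ι ι ℂ) := Matrix.linftyOpNormedAlgebra
  letI : NormedAlgebra ℝ (Matrix ι ι ℂ) := NormedAlgebra.restrictScalars ℝ ℂ (Matrix ι ι ℂ)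
  letI : NormedAlgebra ℚ (Matrix ι ι ℂ) := NormedAlgebra.restrictScalars ℚ ℝ (Matrix ι ι ℂ)
  have h1 : Continuous fun t : ℝ => t • X := by fun_prop
  exact NormedSpace.exp_continuous.comp h1

theorem TTq (hTTL : StTTL) : StTTq := by
  intro G _ _ _ _ _ _ N hN c
  obtain ⟨ι, _, _, ρ, hρ, hker⟩ := hN
  subst hker
  have hLcomp : IsCompact ((ρ.range : Subgroup _) : Set (Matrix.unitaryGroup ι ℂ)) := by
    rw [MonoidHom.coe_range]; exact isCompact_range hρ
  have hLcl := hLcomp.isClosed
  have hLconn : IsConnected ((ρ.range : Subgroup _) : Set (Matrix.unitaryGroup ι ℂ)) := by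
    rw [MonoidHom.coe_range]; exact isConnected_range hρ
  obtain ⟨X, ⟨hXs, hX⟩, hXc⟩ := hTTL ι ρ.range hLcl hLconn (ρ c) ⟨c, rfl⟩
  choose γ hγL hγ using hX
  have hγc : Continuous γ := by
    rw [continuous_induced_rng]
    have : (Subtype.val ∘ γ) = fun t : ℝ => (NormedSpace.exp (t • X) : Matrix ι ι ℂ) := by
      funext t; exact hγ t
    rw [this]
    exact TTq_cont X
  have hγadd : ∀ s t, γ (s + t) = γ s * γ t := by
    intro s t
    apply Subtype.ext
    rw [hγ (s + t), add_smul, Matrix.exp_add_of_commute]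
    · rw [← hγ s, ← hγ t]; rfl
    · exact ((Commute.refl X).smul_left s).smul_right t
  have hγ0 : γ 0 = 1 := by
    have := hγadd 0 0
    rw [add_zero] at this
    exact (mul_eq_left.1 this.symm)
  have hγ1 : γ 1 = ρ c := by
    apply Subtype.ext
    rw [hγ 1, one_smul, hXc]
  let g : Multiplicative ℝ →* Matrix.unitaryGroup ι ℂ :=
    { toFun := fun t => γ (Multiplicative.toAdd t)
      map_one' := hγ0
      map_mul' := fun s t => hγadd _ _ }
  have hgr : ((g.range : Subgroup _) : Set (Matrix.unitaryGroup ι ℂ)) = Set.range γ := by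
    ext x
    constructor
    · rintro ⟨t, rfl⟩
      exact ⟨Multiplicative.toAdd t, rfl⟩
    · rintro ⟨t, rfl⟩
      exact ⟨Multiplicative.ofAdd t, rfl⟩
  let B : Subgroup (Matrix.unitaryGroup ι ℂ) := g.range.topologicalClosure
  have hBset : (B : Set (Matrix.unitaryGroup ι ℂ)) = closure (Set.range γ) := by
    show closure _ = _
    rw [hgr]
  have hBcl : IsClosed (B : Set (Matrix.unitaryGroup ι ℂ)) := Subgroup.isClosed_topologicalClosure _
  have hBL : (B : Set (Matrix.unitaryGroup ι ℂ)) ⊆ Set.range ρ := by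
    rw [hBset]
    apply closure_minimal
    · rintro _ ⟨t, rfl⟩
      exact hγL t
    · rw [← MonoidHom.coe_range]; exact hLcl
  have hBconn : IsPreconnected (B : Set (Matrix.unitaryGroup ι ℂ)) := by
    rw [hBset]
    exact (isPreconnected_range hγc).closure
  have hcomm0 : ∀ s t, γ s * γ t = γ t * γ s := by
    intro s t
    rw [← hγadd, ← hγadd, add_comm]
  have hcomm1 : ∀ a ∈ B, ∀ t, a * γ t = γ t * a := by
    intro a ha t
    have hcl : IsClosed {a : Matrix.unitaryGroup ι ℂ | a * γ t = γ t * a} :=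
      isClosed_eq (by fun_prop) (by fun_prop)
    have : (B : Set (Matrix.unitaryGroup ι ℂ)) ⊆ {a | a * γ t = γ t * a} := by
      rw [hBset]
      apply closure_minimal _ hcl
      rintro _ ⟨s, rfl⟩
      exact hcomm0 s t
    exact this ha
  have hcomm : ∀ a ∈ B, ∀ b ∈ B, a * b = b * a := by
    intro a ha b hb
    have hcl : IsClosed {b : Matrix.unitaryGroup ι ℂ | a * b = b * a} :=
      isClosed_eq (by fun_prop) (by fun_prop)
    have : (B : Set (Matrix.unitaryGroup ι ℂ)) ⊆ {b | a * b = b * a} := by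
      rw [hBset]
      apply closure_minimal _ hcl
      rintro _ ⟨s, rfl⟩
      exact hcomm1 a ha s
    exact this hb
  refine ⟨B.comap ρ, ?_, ?_, ?_, ?_, ?_⟩
  · exact hBcl.preimage hρ
  · intro n hn
    rw [Subgroup.mem_comap, (MonoidHom.mem_ker).1 hn]
    exact B.one_mem
  · rw [Subgroup.mem_comap, ← hγ1]
    show γ 1 ∈ (B : Set _)
    rw [hBset]
    exact subset_closure ⟨1, rfl⟩
  · intro a ha b hb
    rw [MonoidHom.mem_ker]
    rw [map_mul, map_mul, map_mul, map_inv, map_inv, hcomm _ ha _ hb]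
    group
  · have hf : Continuous (QuotientGroup.kerLift ρ) := by
      rw [(QuotientGroup.isQuotientMap_mk (N := ρ.ker)).continuous_iff]
      exact hρ
    have hemb : Topology.IsClosedEmbedding (QuotientGroup.kerLift ρ) :=
      hf.isClosedEmbedding (QuotientGroup.kerLift_injective ρ)
    rw [← hemb.isInducing.isPreconnected_image]
    have : (QuotientGroup.kerLift ρ) '' ((QuotientGroup.mk : G → G ⧸ ρ.ker) '' ((B.comap ρ : Subgroup G) : Set G)) = (B : Set _) := by
      ext x
      constructor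
      · rintro ⟨_, ⟨a, ha, rfl⟩, rfl⟩
        exact ha
      · intro hx
        obtain ⟨a, rfl⟩ := hBL hx
        exact ⟨_, ⟨a, hx, rfl⟩, rfl⟩
    rw [this]
    exact hBconn

end Pool.LatH472
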