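import Mathlib
import Pool.Agent.Helper472.LatDefs3

set_option autoImplicit false

namespace Pool.LatH472

open Pointwise

theorem ULT_sep {G : Type} [Group G] [TopologicalSpace G] [IsTopologicalGroup G]
    [CompactSpace G] [T2Space G] (I : Set (Subgroup G)) (hIne : I.Nonempty)
    (hI : ∀ N ∈ I, N.Normal ∧ IsClosed (N : Set G))
    (hinf : ∀ N ∈ I, ∀ N' ∈ I, N ⊓ N' ∈ I) (hsep : ∀ g : G, g ≠ 1 → ∃ N ∈ I, g ∉ N)
    (P Q : Set G) (hP : IsCompact P) (hQ : IsCompact Q) (hPQ : ∀ x, x ∈ P → x ∉ Q) :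
    ∃ N0 ∈ I, ∀ p ∈ P, ∀ q ∈ Q, p⁻¹ * q ∉ N0 := by
  haveI : Nonempty I := hIne.to_subtype
  have hD : IsCompact (P⁻¹ * Q) := hP.inv.mul hQ
  have h1 : (P⁻¹ * Q) ∩ ⋂ N : I, ((N.1 : Subgroup G) : Set G) = ∅ := by
    rw [Set.eq_empty_iff_forall_notMem]
    rintro x ⟨hx, hx2⟩
    have hx1 : x = 1 := by
      by_contra hne
      obtain ⟨N, hN, hxN⟩ := hsep x hne
      exact hxN (Set.mem_iInter.mp hx2 ⟨N, hN⟩)
    obtain ⟨p, hp, q, hq, hpq⟩ := Set.mem_mul.mp hx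
    rw [hx1] at hpq
    have hpq' : p⁻¹ = q := by
      rw [mul_eq_one_iff_eq_inv] at hpq
      rw [hpq, inv_inv]
    exact hPQ p⁻¹ (Set.mem_inv.mp hp) (hpq' ▸ hq)
  obtain ⟨N, hN⟩ := hD.elim_directed_family_closed (fun N : I => ((N.1 : Subgroup G) : Set G))
    (fun N => (hI N.1 N.2).2) h1 (by
      intro N N'
      exact ⟨⟨N.1 ⊓ N'.1, hinf _ N.2 _ N'.2⟩, fun x hx => hx.1, fun x hx => hx.2⟩)
  refine ⟨N.1, N.2, fun p hp q hq hmem => ?_⟩
  have : p⁻¹ * q ∈ (P⁻¹ * Q) ∩ ((N.1 : Subgroup G) : Set G) :=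
    ⟨Set.mul_mem_mul (Set.inv_mem_inv.mpr hp) hq, hmem⟩
  rw [hN] at this
  exact this

theorem ULT : StULT := by
  intro G _ _ _ _ _ I hIne hI hinf hsep c hA
  classical
  choose A hAt using fun N : I => hA N.1 N.2
  haveI : Nonempty I := hIne.to_subtype
  haveI : IsCodirectedOrder I :=
    ⟨fun N N' => ⟨⟨N.1 ⊓ N'.1, hinf _ N.2 _ N'.2⟩, (inf_le_left : N.1 ⊓ N'.1 ≤ N.1),
      (inf_le_right : N.1 ⊓ N'.1 ≤ N'.1)⟩⟩
  let U : Ultrafilter I := Ultrafilter.of Filter.atBot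
  have hUle : (U : Filter I) ≤ Filter.atBot := Ultrafilter.of_le _
  let L : (I → G) → G := fun f => (U.map f).lim
  have hL : ∀ f : I → G, Filter.Tendsto f (U : Filter I) (nhds (L f)) :=
    fun f => Ultrafilter.le_nhds_lim (U.map f)
  have hLu : ∀ (f : I → G) (x : G), Filter.Tendsto f (U : Filter I) (nhds x) → L f = x :=
    fun f x h => tendsto_nhds_unique (hL f) h
  let Lh : (I → G) →* G := MonoidHom.mk' L (fun f g => hLu _ _ ((hL f).mul (hL g)))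
  let K0 : Subgroup G := (Subgroup.pi Set.univ A).map Lh
  have hK0 : ∀ x, x ∈ K0 ↔ ∃ f : I → G, (∀ N, f N ∈ A N) ∧ L f = x := by
    intro x
    constructor
    · rintro ⟨f, hf, rfl⟩
      exact ⟨f, fun N => hf N (Set.mem_univ N), rfl⟩
    · rintro ⟨f, hf, rfl⟩
      exact ⟨f, fun N _ => hf N, rfl⟩
  -- commutativity
  have hcomm0 : ∀ x ∈ K0, ∀ y ∈ K0, x * y = y * x := by
    intro x hx y hy
    obtain ⟨f, hf, hfx⟩ := (hK0 x).mp hx
    obtain ⟨g, hg, hgy⟩ := (hK0 y).mp hy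
    have hlim : Filter.Tendsto (fun N => f N * g N * (f N)⁻¹ * (g N)⁻¹) (U : Filter I)
        (nhds (x * y * x⁻¹ * y⁻¹)) := by
      have h1 := hL f
      have h2 := hL g
      rw [hfx] at h1
      rw [hgy] at h2
      exact ((h1.mul h2).mul h1.inv).mul h2.inv
    have hz : x * y * x⁻¹ * y⁻¹ = 1 := by
      by_contra hne
      obtain ⟨N0, hN0, hmem⟩ := hsep _ hne
      refine hmem ?_
      have hev : ∀ᶠ N in (U : Filter I), f N * g N * (f N)⁻¹ * (g N)⁻¹ ∈ (N0 : Set G) := by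
        have h3 : ∀ᶠ N in (U : Filter I), N ≤ (⟨N0, hN0⟩ : I) :=
          hUle (Filter.eventually_le_atBot _)
        filter_upwards [h3] with N hN
        exact hN ((hAt N).2.2.2.1 _ (hf N) _ (hg N))
      exact (hI N0 hN0).2.mem_of_tendsto hlim hev
    have h4 : x * y * x⁻¹ = y := mul_inv_eq_one.mp hz
    exact mul_inv_eq_iff_eq_mul.mp h4
  have hcl : (K0.topologicalClosure : Set G) = closure (K0 : Set G) := rfl
  have hcomm : ∀ a ∈ K0.topologicalClosure, ∀ b ∈ K0.topologicalClosure, a * b = b * a := by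
    intro a ha b hb
    have hS : IsClosed {p : G × G | p.1 * p.2 = p.2 * p.1} :=
      isClosed_eq (by fun_prop) (by fun_prop)
    have h1 : (K0 : Set G) ×ˢ (K0 : Set G) ⊆ {p : G × G | p.1 * p.2 = p.2 * p.1} :=
      fun p hp => hcomm0 p.1 hp.1 p.2 hp.2
    have h2 := closure_minimal h1 hS
    rw [closure_prod_eq] at h2
    exact h2 (show ((a, b) : G × G) ∈ closure (K0 : Set G) ×ˢ closure (K0 : Set G) from ⟨ha, hb⟩)
  have hc0 : c ∈ K0 := (hK0 c).mpr ⟨fun _ => c, fun N => (hAt N).2.2.1, hLu _ _ tendsto_const_nhds⟩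
  have hcK : c ∈ K0.topologicalClosure := K0.le_topologicalClosure hc0
  refine ⟨K0.topologicalClosure, K0.isClosed_topologicalClosure, hcK, ⟨⟨c, hcK⟩, ?_⟩, hcomm⟩
  rw [isPreconnected_closed_iff]
  intro t t' ht ht' hsub hne hne'
  by_contra hemp
  rw [Set.not_nonempty_iff_eq_empty] at hemp
  set K : Set G := (K0.topologicalClosure : Set G) with hK
  have hKc : IsClosed K := K0.isClosed_topologicalClosure
  have hPc : IsCompact (K ∩ t) := (hKc.inter ht).isCompact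
  have hQc : IsCompact (K ∩ t') := (hKc.inter ht').isCompact
  have hPQ : ∀ x, x ∈ K ∩ t → x ∉ K ∩ t' := by
    intro x hx hx'
    have : x ∈ K ∩ (t ∩ t') := ⟨hx.1, hx.2, hx'.2⟩
    rw [hemp] at this
    exact this
  obtain ⟨N0, hN0, hN0sep⟩ := ULT_sep I hIne hI hinf hsep _ _ hPc hQc hPQ
  haveI : N0.Normal := (hI N0 hN0).1
  haveI : IsClosed (N0 : Set G) := (hI N0 hN0).2
  have hmk : Continuous (QuotientGroup.mk : G → G ⧸ N0) := QuotientGroup.continuous_mk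
  have hdisj : Disjoint ((QuotientGroup.mk : G → G ⧸ N0) '' (K ∩ t)) ((QuotientGroup.mk : G → G ⧸ N0) '' (K ∩ t')) := by
    rw [Set.disjoint_left]
    rintro _ ⟨p, hp, rfl⟩ ⟨q, hq, hpq⟩
    exact hN0sep p hp q hq (QuotientGroup.eq.mp hpq.symm)
  obtain ⟨OP, OQ, hOP, hOQ, hPOP, hQOQ, hOdisj⟩ :=
    SeparatedNhds.of_isCompact_isCompact (hPc.image hmk) (hQc.image hmk) hdisj
  have hUP : IsOpen ((QuotientGroup.mk : G → G ⧸ N0) ⁻¹' OP) := hOP.preimage hmk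
  have hUQ : IsOpen ((QuotientGroup.mk : G → G ⧸ N0) ⁻¹' OQ) := hOQ.preimage hmk
  have hKsub : K ⊆ (QuotientGroup.mk : G → G ⧸ N0) ⁻¹' OP ∪ (QuotientGroup.mk : G → G ⧸ N0) ⁻¹' OQ := by
    intro x hx
    rcases hsub hx with h | h
    · exact Or.inl (hPOP ⟨x, ⟨hx, h⟩, rfl⟩)
    · exact Or.inr (hQOQ ⟨x, ⟨hx, h⟩, rfl⟩)
  -- claim 1
  have hcl1 : ∀ᶠ N in (U : Filter I), ((A N : Subgroup G) : Set G) ⊆
      (QuotientGroup.mk : G → G ⧸ N0) ⁻¹' OP ∪ (QuotientGroup.mk : G → G ⧸ N0) ⁻¹' OQ := by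
    by_contra hnot
    rw [← Ultrafilter.eventually_not] at hnot
    have hch : ∀ N : I, ∃ x : G, x ∈ A N ∧ (¬ ((A N : Subgroup G) : Set G) ⊆
      (QuotientGroup.mk : G → G ⧸ N0) ⁻¹' OP ∪ (QuotientGroup.mk : G → G ⧸ N0) ⁻¹' OQ → x ∉
        (QuotientGroup.mk : G → G ⧸ N0) ⁻¹' OP ∪ (QuotientGroup.mk : G → G ⧸ N0) ⁻¹' OQ) := by
      intro N
      by_cases hN : ((A N : Subgroup G) : Set G) ⊆
        (QuotientGroup.mk : G → G ⧸ N0) ⁻¹' OP ∪ (QuotientGroup.mk : G → G ⧸ N0) ⁻¹' OQ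
      · exact ⟨1, (A N).one_mem, fun h => absurd hN h⟩
      · obtain ⟨x, hx, hx'⟩ := Set.not_subset.mp hN
        exact ⟨x, hx, fun _ => hx'⟩
    choose f hf hf' using hch
    have h1 : L f ∈ K := subset_closure ((hK0 (L f)).mpr ⟨f, hf, rfl⟩)
    have h2 : ∀ᶠ N in (U : Filter I), f N ∈
        (QuotientGroup.mk : G → G ⧸ N0) ⁻¹' OP ∪ (QuotientGroup.mk : G → G ⧸ N0) ⁻¹' OQ :=
      (hL f) ((hUP.union hUQ).mem_nhds (hKsub h1))
    obtain ⟨N, hN1, hN2⟩ := (hnot.and h2).exists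
    exact hf' N hN1 hN2
  -- claim 3
  have hmeet : ∀ O : Set G, IsOpen O → (K ∩ O).Nonempty → ∀ᶠ N in (U : Filter I), ∃ x ∈ A N, x ∈ O := by
    rintro O hO ⟨x, hxK, hxO⟩
    obtain ⟨y, hyO, hyK0⟩ := mem_closure_iff.mp hxK O hO hxO
    obtain ⟨f, hf, hfy⟩ := (hK0 y).mp hyK0
    have h1 := hL f
    rw [hfy] at h1
    filter_upwards [h1 (hO.mem_nhds hyO)] with N hN
    exact ⟨f N, hf N, hN⟩
  have hmP := hmeet _ hUP (by
    obtain ⟨x, hx⟩ := hne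
    exact ⟨x, hx.1, hPOP ⟨x, hx, rfl⟩⟩)
  have hmQ := hmeet _ hUQ (by
    obtain ⟨x, hx⟩ := hne'
    exact ⟨x, hx.1, hQOQ ⟨x, hx, rfl⟩⟩)
  have hle : ∀ᶠ N in (U : Filter I), N ≤ (⟨N0, hN0⟩ : I) := hUle (Filter.eventually_le_atBot _)
  obtain ⟨N, ⟨⟨hN1, hN2⟩, hN3⟩, hN4⟩ := (((hcl1.and hmP).and hmQ).and hle).exists
  have hNN0 : N.1 ≤ N0 := hN4
  -- the map between the quotients
  let π : G ⧸ N.1 → G ⧸ N0 := Quotient.map' id (fun a b hab => by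
    rw [QuotientGroup.leftRel_apply] at hab ⊢
    exact hNN0 hab)
  have hπmk : ∀ x : G, π (QuotientGroup.mk x) = QuotientGroup.mk x := fun x => rfl
  have hπc : Continuous π := by
    rw [(QuotientGroup.isQuotientMap_mk N.1).continuous_iff]
    exact hmk
  have hpre : IsPreconnected ((QuotientGroup.mk : G → G ⧸ N0) '' ((A N : Subgroup G) : Set G)) := by
    have h1 := ((hAt N).2.2.2.2).image π hπc.continuousOn
    rw [Set.image_image] at h1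
    exact h1
  have h5 := hpre OP OQ hOP hOQ (by
    rintro _ ⟨x, hx, rfl⟩
    exact hN1 hx) (by
    obtain ⟨x, hx, hxO⟩ := hN2
    exact ⟨QuotientGroup.mk x, ⟨x, hx, rfl⟩, hxO⟩) (by
    obtain ⟨x, hx, hxO⟩ := hN3
    exact ⟨QuotientGroup.mk x, ⟨x, hx, rfl⟩, hxO⟩)
  obtain ⟨y, _, hy1, hy2⟩ := h5
  exact (Set.disjoint_left.mp hOdisj) hy1 hy2

end Pool.LatH472
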