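import Mathlib
import Pool.Agent.Helper472.LatDefs3
import Pool.Agent.Helper472.LatMainG
import Pool.Agent.Helper472.Lat_PW
import Pool.Agent.Helper472.Lat_CST1
import Pool.Agent.Helper472.Lat_NSS
import Pool.Agent.Helper472.Lat_TRC
import Pool.Agent.Helper472.Lat_TR1
import Pool.Agent.Helper472.Lat_DIR
import Pool.Agent.Helper472.Lat_TTq
import Pool.Agent.Helper472.Lat_ULT
import Pool.Agent.Helper472.Lat_FRa
import Pool.Agent.Helper472.Lat_KL1a
import Pool.Agent.Helper472.Lat_KLa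
import Pool.Agent.Helper472.Lat_ABa
import Pool.Agent.Helper472.Lat_AFIa
import Pool.Agent.Helper472.Lat_T8a
import Pool.Agent.Helper472.Lat_G1td
import Pool.Agent.Helper472.Lat_EPS2
import Pool.Agent.Helper472.Lat_EPS3
import Pool.Agent.Helper472.Lat_CHAB
import Pool.Agent.Helper472.Lat_DENS
import Pool.Agent.Helper472.Lat_CYC
import Pool.Agent.Helper472.Lat_PROC
import Pool.Agent.Helper472.Lat_CCC
import Pool.Agent.Helper472.Lat_G3a

set_option autoImplicit false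

namespace Pool.LatH472

theorem TT (hPW : StPW) (hDIR : StDIR) (hTTq : StTTq) (hULT : StULT) : StTT := by
  intro G _ _ _ _ _ _ c
  refine hULT G {N | IsRepKer N} ?_ ?_ ?_ ?_ c ?_
  · refine ⟨⊤, PUnit, inferInstance, inferInstance, 1, continuous_const, ?_⟩
    simp
  · rintro N ⟨ι, _, _, ρ, hρ, rfl⟩
    refine ⟨inferInstance, ?_⟩
    exact isClosed_singleton.preimage hρ
  · exact fun N hN N' hN' => hDIR G N N' hN hN'
  · intro g hg
    obtain ⟨ι, _, _, ρ, hρ, h1⟩ := hPW G g hg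
    exact ⟨ρ.ker, ⟨ι, _, _, ρ, hρ, rfl⟩, h1⟩
  · exact fun N hN => hTTq G N hN c

section
variable (hTTL : StTTL)
include hTTL
theorem D_TT : StTT := TT PW DIR (TTq hTTL) ULT
theorem D_FR : StFRa := FRa C_ABF FI0 (D_TT hTTL)
theorem D_KL1 : StKL1a := KL1a (D_FR hTTL) FR1 FR2 B_SCH
theorem D_KL : StKLa := KLa C_ABF FR1 FR2 (D_KL1 hTTL) C_PQ1 PQ2
theorem D_AB : StABa := ABa (D_KL hTTL) RES
theorem D_AFI : StAFIa := AFIa C_ABQ (D_AB hTTL) RES
theorem D_T8 : StT8a := T8a (D_FR hTTL) FR1 FR2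
theorem D_CCC : StCCC :=
  CCC (D_TT hTTL) (EPS2 C_G2 A_L1 C_ABF C_chars)
    (EPS3 PW (TRC NSS) TR1 (G1td C_AFI C_T8 CORE) C_LTD C_T11 RES) (CHAB A_L1 A_L3)
    (DENS C_chars) (PROC (CYC ORE) INT FI) (G1td C_AFI C_T8 CORE) RES
theorem D_G3 : StG3a :=
  G3a B_TD (D_CCC hTTL) (D_AFI hTTL) (D_T8 hTTL) CORE QUO RES A_L1 A_L2

theorem D_full (G H : Type) [Group G] [TopologicalSpace G]
    [IsTopologicalGroup G] [LocallyCompactSpace G] [T2Space G]
    [Group H] [TopologicalSpace H] [IsTopologicalGroup H]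
    [LocallyCompactSpace H] [T2Space H] (φ : CL G ≃o CL H) (hG : IndCompact G) :
    IndCompact H := by
  have hE : ElemCompact H := A_elem_iso G H φ (A_elem G hG)
  refine C_RED G H φ hG hE ?_
  intro A hA _ X ψ
  haveI : CompactSpace ↥A.1 := isCompact_iff_compactSpace.mp hA
  haveI : LocallyCompactSpace ↥X.1 := X.2.isClosedEmbedding_subtypeVal.locallyCompactSpace
  refine D_G3 hTTL ↥A.1 ↥X.1 ψ ?_
  intro x
  obtain ⟨K, hK, hx⟩ := hE x.1
  exact ⟨K.subgroupOf X.1, X.2.isClosedEmbedding_subtypeVal.isCompact_preimage hK, hx⟩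
end

end Pool.LatH472
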