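import Mathlib
import Pool.Agent.Helper472.LatDefs2

set_option autoImplicit false

namespace Pool.LatH472

open Pointwise

theorem CORE_sep (G : Type) [Group G] [TopologicalSpace G] [IsTopologicalGroup G]
    [CompactSpace G] [T2Space G] (g : G) (hg : g ∉ Subgroup.connectedComponentOfOne G) :
    ∃ W : CL G, IsOpen (W.1 : Set G) ∧ g ∉ W.1 := by
  have h1 : g ∉ connectedComponent (1 : G) := hg
  rw [connectedComponent_eq_iInter_isClopen, Set.mem_iInter] at h1
  obtain ⟨⟨V, hV, h1V⟩, hgV⟩ := not_forall.mp h1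
  obtain ⟨W, hW⟩ := IsTopologicalGroup.exist_openSubgroup_sub_clopen_nhds_of_one hV h1V
  exact ⟨⟨W.toSubgroup, W.isClosed⟩, W.isOpen, fun h => hgV (hW h)⟩

theorem CORE_le (G : Type) [Group G] [TopologicalSpace G] [IsTopologicalGroup G]
    (W : CL G) (hW : IsOpen (W.1 : Set G)) : Subgroup.connectedComponentOfOne G ≤ W.1 := by
  intro g hg
  have h1 : g ∈ connectedComponent (1 : G) := hg
  exact (IsClopen.connectedComponent_subset ⟨W.2, hW⟩ (W.1.one_mem)) h1

theorem CORE : StCORE := by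
  intro G H _ _ _ _ _ _ _ _ _ φ h1 h2
  have hEc : IsClosed ((Subgroup.connectedComponentOfOne G : Subgroup G) : Set G) :=
    isClosed_connectedComponent
  let E : CL G := ⟨Subgroup.connectedComponentOfOne G, hEc⟩
  have hlast : ∀ h : H, h ∉ (φ E).1 →
      ∃ N : Subgroup H, N.Normal ∧ IsOpen (N : Set H) ∧ (φ E).1 ≤ N ∧ h ∉ N := by
    intro h hh
    let Z : CL H := ⟨Zc h, Subgroup.isClosed_topologicalClosure _⟩
    have hZh : h ∈ Z.1 := Subgroup.le_topologicalClosure _ (Subgroup.mem_zpowers h)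
    have hZE : ¬ Z ≤ φ E := fun hle => hh (hle hZh)
    have hCE : ¬ (φ.symm Z) ≤ E := fun hle => hZE (by
      have := φ.monotone hle
      rwa [φ.apply_symm_apply] at this)
    have hCE' : ¬ (φ.symm Z).1 ≤ E.1 := hCE
    obtain ⟨c, hc, hcE⟩ := SetLike.not_le_iff_exists.mp hCE'
    obtain ⟨W, hW, hcW⟩ := CORE_sep G c hcE
    have hCW : ¬ (φ.symm Z) ≤ W := fun hle => hcW (hle hc)
    have hZW : ¬ Z ≤ φ W := fun hle => hCW (by
      have := φ.symm.monotone hle
      rwa [φ.symm_apply_apply] at this)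
    have hhW : h ∉ (φ W).1 := fun hmem => hZW (by
      show Zc h ≤ (φ W).1
      exact Subgroup.topologicalClosure_minimal _ ((Subgroup.zpowers_le).mpr hmem) (φ W).2)
    obtain ⟨N, hNn, hNle, hNo⟩ := h2 W hW
    have hfi : N.1.FiniteIndex := by
      have := h1 (φ.symm N) hNo
      rwa [φ.apply_symm_apply] at this
    refine ⟨N.1, hNn, ?_, ?_, fun hmem => hhW (hNle hmem)⟩
    · exact Subgroup.isOpen_of_isClosed_of_finiteIndex N.1 N.2
    · have hle : E ≤ φ.symm N := CORE_le G (φ.symm N) hNo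
      have := φ.monotone hle
      rw [φ.apply_symm_apply] at this
      exact this
  refine ⟨E, rfl, ?_, hlast⟩
  constructor
  intro n hn g
  by_contra hcon
  obtain ⟨N, hNn, _, hNE, hnN⟩ := hlast _ hcon
  exact hnN (hNn.conj_mem n (hNE hn) g)

end Pool.LatH472
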