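import Mathlib
import Pool.Agent.Helper472.LatDefs3

set_option autoImplicit false

namespace Pool.LatH472

open Pointwise

open NormedSpace Filter Topology in
theorem CST2_int {𝔸 : Type} [NormedRing 𝔸] [NormedAlgebra ℝ 𝔸] [CompleteSpace 𝔸]
    (S : Set 𝔸) (h1 : (1 : 𝔸) ∈ S) (hmul : ∀ a ∈ S, ∀ b ∈ S, a * b ∈ S)
    (hinv : ∀ a ∈ S, ∀ b, b * a = 1 → b ∈ S) (Y : 𝔸) (hY : exp Y ∈ S) (m : ℤ) :
    exp ((m : ℝ) • Y) ∈ S := by
  letI : NormedAlgebra ℚ 𝔸 := NormedAlgebra.restrictScalars ℚ ℝ 𝔸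
  have hn : ∀ k : ℕ, exp ((k : ℝ) • Y) ∈ S := by
    intro k
    induction k with
    | zero =>
      simp only [Nat.cast_zero, zero_smul]
      rw [exp_zero]
      exact h1
    | succ k ih =>
      have e : ((k + 1 : ℕ) : ℝ) • Y = (k : ℝ) • Y + Y := by
        push_cast
        rw [add_smul, one_smul]
      rw [e, exp_add_of_commute ((Commute.refl Y).smul_left _)]
      exact hmul _ ih _ hY
  rcases Int.eq_nat_or_neg m with ⟨k, rfl | rfl⟩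
  · exact_mod_cast hn k
  · refine hinv _ (hn k) _ ?_
    have e : (((-(k : ℤ)) : ℤ) : ℝ) • Y = -((k : ℝ) • Y) := by
      push_cast
      rw [neg_smul]
    rw [e, ← exp_add_of_commute ((Commute.refl _).neg_left), neg_add_cancel, exp_zero]

open NormedSpace Filter Topology in
theorem CST2_dir {𝔸 : Type} [NormedRing 𝔸] [NormedAlgebra ℝ 𝔸] [CompleteSpace 𝔸]
    (S : Set 𝔸) (hS : IsClosed S) (h1 : (1 : 𝔸) ∈ S) (hmul : ∀ a ∈ S, ∀ b ∈ S, a * b ∈ S)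
    (hinv : ∀ a ∈ S, ∀ b, b * a = 1 → b ∈ S) (Y : ℕ → 𝔸) (hY0 : Tendsto Y atTop (𝓝 0))
    (hYne : ∀ n, Y n ≠ 0) (hYS : ∀ n, exp (Y n) ∈ S) (a : 𝔸)
    (ha : Tendsto (fun n => ‖Y n‖⁻¹ • Y n) atTop (𝓝 a)) (t : ℝ) : exp (t • a) ∈ S := by
  letI : NormedAlgebra ℚ 𝔸 := NormedAlgebra.restrictScalars ℚ ℝ 𝔸
  have hpos : ∀ n, 0 < ‖Y n‖ := fun n => norm_pos_iff.2 (hYne n)
  have hn0 : Tendsto (fun n => ‖Y n‖) atTop (𝓝 0) := by
    simpa using hY0.norm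
  have hm : Tendsto (fun n => (⌊t / ‖Y n‖⌋ : ℝ) * ‖Y n‖) atTop (𝓝 t) := by
    have hl : Tendsto (fun n => t - ‖Y n‖) atTop (𝓝 t) := by
      simpa using tendsto_const_nhds.sub hn0
    refine tendsto_of_tendsto_of_tendsto_of_le_of_le hl tendsto_const_nhds ?_ ?_
    · intro n
      have h2 := Int.sub_one_lt_floor (t / ‖Y n‖)
      have h3 : (t / ‖Y n‖ - 1) * ‖Y n‖ ≤ (⌊t / ‖Y n‖⌋ : ℝ) * ‖Y n‖ :=
        mul_le_mul_of_nonneg_right h2.le (hpos n).le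
      have h4 : (t / ‖Y n‖ - 1) * ‖Y n‖ = t - ‖Y n‖ := by
        have := (hpos n).ne'
        field_simp
      show t - ‖Y n‖ ≤ _
      rw [← h4]
      exact h3
    · intro n
      have h2 := Int.floor_le (t / ‖Y n‖)
      have h3 : (⌊t / ‖Y n‖⌋ : ℝ) * ‖Y n‖ ≤ (t / ‖Y n‖) * ‖Y n‖ :=
        mul_le_mul_of_nonneg_right h2 (hpos n).le
      rwa [div_mul_cancel₀ _ (hpos n).ne'] at h3
  have hlim : Tendsto (fun n => (⌊t / ‖Y n‖⌋ : ℝ) • Y n) atTop (𝓝 (t • a)) := by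
    have h5 := hm.smul ha
    refine h5.congr ?_
    intro n
    rw [smul_smul, mul_assoc, mul_inv_cancel₀ (hpos n).ne', mul_one]
  have hexp : Tendsto (fun n => exp ((⌊t / ‖Y n‖⌋ : ℝ) • Y n)) atTop (𝓝 (exp (t • a))) :=
    (exp_continuous.tendsto _).comp hlim
  exact hS.mem_of_tendsto hexp (Eventually.of_forall
    (fun n => CST2_int S h1 hmul hinv (Y n) (hYS n) _))

open NormedSpace Filter Topology in
theorem CST2_map {𝔸 : Type} [NormedRing 𝔸] [NormedAlgebra ℝ 𝔸] [CompleteSpace 𝔸]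
    (P : 𝔸 →L[ℝ] 𝔸) : map (fun Z => exp (P Z) * exp (Z - P Z)) (𝓝 0) = 𝓝 (1 : 𝔸) := by
  letI : NormedAlgebra ℚ 𝔸 := NormedAlgebra.restrictScalars ℚ ℝ 𝔸
  have hE : HasStrictFDerivAt (exp : 𝔸 → 𝔸) (1 : 𝔸 →L[ℝ] 𝔸) 0 := hasStrictFDerivAt_exp_zero
  have hE1 : HasStrictFDerivAt (exp : 𝔸 → 𝔸) (1 : 𝔸 →L[ℝ] 𝔸) (P 0) := by
    rw [map_zero]; exact hE
  have hE2 : HasStrictFDerivAt (exp : 𝔸 → 𝔸) (1 : 𝔸 →L[ℝ] 𝔸) ((0 : 𝔸) - P 0) := by
    rw [map_zero, sub_zero]; exact hE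
  have h1 : HasStrictFDerivAt (fun Z => exp (P Z)) ((1 : 𝔸 →L[ℝ] 𝔸).comp P) 0 :=
    hE1.comp 0 P.hasStrictFDerivAt
  have hQ : HasStrictFDerivAt (fun Z : 𝔸 => Z - P Z) (ContinuousLinearMap.id ℝ 𝔸 - P) 0 :=
    (hasStrictFDerivAt_id (0 : 𝔸)).sub P.hasStrictFDerivAt
  have h2 : HasStrictFDerivAt (fun Z => exp (Z - P Z))
      ((1 : 𝔸 →L[ℝ] 𝔸).comp (ContinuousLinearMap.id ℝ 𝔸 - P)) 0 :=
    hE2.comp 0 hQ
  have h3 := h1.mul' h2
  have h4 : HasStrictFDerivAt (fun Z => exp (P Z) * exp (Z - P Z))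
      ((ContinuousLinearEquiv.refl ℝ 𝔸 : 𝔸 ≃L[ℝ] 𝔸) : 𝔸 →L[ℝ] 𝔸) 0 := by
    refine h3.congr_fderiv ?_
    ext z
    simp [exp_zero]
  have h5 := h4.map_nhds_eq_of_equiv
  simpa [exp_zero] using h5

open NormedSpace Filter Topology in
theorem CST2_gen {𝔸 : Type} [NormedRing 𝔸] [NormedAlgebra ℝ 𝔸] [FiniteDimensional ℝ 𝔸]
    (S : Set 𝔸) (hS : IsClosed S) (h1 : (1 : 𝔸) ∈ S) (hmul : ∀ a ∈ S, ∀ b ∈ S, a * b ∈ S)
    (hinv : ∀ a ∈ S, ∀ b, b * a = 1 → b ∈ S) (l : Submodule ℝ 𝔸)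
    (hl : ∀ X ∈ l, ∀ t : ℝ, exp (t • X) ∈ S) (hl' : ∀ X, (∀ t : ℝ, exp (t • X) ∈ S) → X ∈ l)
    (V : Set 𝔸) (hV : V ∈ 𝓝 (0 : 𝔸)) :
    ∃ O ∈ 𝓝 (1 : 𝔸), ∀ u ∈ S, u ∈ O → ∃ X ∈ l, X ∈ V ∧ exp X = u := by
  haveI : CompleteSpace 𝔸 := FiniteDimensional.complete ℝ 𝔸
  haveI : ProperSpace 𝔸 := FiniteDimensional.proper ℝ 𝔸
  letI : NormedAlgebra ℚ 𝔸 := NormedAlgebra.restrictScalars ℚ ℝ 𝔸
  obtain ⟨q, hq⟩ := LinearMap.exists_leftInverse_of_injective l.subtype l.ker_subtype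
  obtain ⟨P, hP⟩ : ∃ P : 𝔸 →L[ℝ] 𝔸, ∀ x, P x = (q x : 𝔸) :=
    ⟨LinearMap.toContinuousLinearMap (l.subtype.comp q), fun x => rfl⟩
  have hPl : ∀ x, P x ∈ l := fun x => by rw [hP]; exact (q x).2
  have hPid : ∀ x ∈ l, P x = x := by
    intro x hx
    rw [hP]
    have := LinearMap.congr_fun hq ⟨x, hx⟩
    simpa using congrArg Subtype.val this
  have hPY : ∀ z, P (z - P z) = 0 := by
    intro z
    rw [map_sub, hPid (P z) (hPl z), sub_self]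
  by_contra hcon
  push Not at hcon
  have hseq : ∀ n : ℕ, ∃ Z : 𝔸, ‖Z‖ < 1 / ((n : ℝ) + 1) ∧
      exp (P Z) * exp (Z - P Z) ∈ S ∧
      ∀ X ∈ l, X ∈ V → exp X ≠ exp (P Z) * exp (Z - P Z) := by
    intro n
    have hO : (fun Z => exp (P Z) * exp (Z - P Z)) '' (Metric.ball 0 (1 / ((n : ℝ) + 1)))
        ∈ 𝓝 (1 : 𝔸) := by
      rw [← CST2_map P]
      exact image_mem_map (Metric.ball_mem_nhds _ (by positivity))
    obtain ⟨u, huS, ⟨Z, hZ, rfl⟩, hu⟩ := hcon _ hO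
    exact ⟨Z, by simpa using hZ, huS, hu⟩
  choose Z hZ1 hZ2 hZ3 using hseq
  have hZ0 : Tendsto Z atTop (𝓝 0) := by
    rw [tendsto_zero_iff_norm_tendsto_zero]
    exact squeeze_zero (fun n => norm_nonneg _) (fun n => (hZ1 n).le)
      tendsto_one_div_add_atTop_nhds_zero_nat
  have hX0 : Tendsto (fun n => P (Z n)) atTop (𝓝 0) := by
    have := (P.continuous.tendsto 0).comp hZ0
    simpa [Function.comp_def] using this
  have hY0 : Tendsto (fun n => Z n - P (Z n)) atTop (𝓝 0) := by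
    simpa using hZ0.sub hX0
  have hYS : ∀ n, exp (Z n - P (Z n)) ∈ S := by
    intro n
    have e1 : exp (-(P (Z n))) ∈ S := by
      have := hl (P (Z n)) (hPl _) (-1)
      simpa using this
    have e2 := hmul _ e1 _ (hZ2 n)
    rw [← mul_assoc, ← exp_add_of_commute ((Commute.refl _).neg_left), neg_add_cancel, exp_zero,
      one_mul] at e2
    exact e2
  obtain ⟨N, hN⟩ := eventually_atTop.1 (hX0.eventually hV)
  have hYne : ∀ n, (Z (n + N) - P (Z (n + N))) ≠ 0 := by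
    intro n h0
    refine hZ3 (n + N) (P (Z (n + N))) (hPl _) (hN _ (by omega)) ?_
    rw [h0, exp_zero, mul_one]
  have hmem : ∀ n, ‖Z (n + N) - P (Z (n + N))‖⁻¹ • (Z (n + N) - P (Z (n + N))) ∈
      Metric.sphere (0 : 𝔸) 1 := by
    intro n
    rw [mem_sphere_zero_iff_norm, norm_smul, norm_inv, norm_norm]
    exact inv_mul_cancel₀ (norm_pos_iff.2 (hYne n)).ne'
  obtain ⟨a, ha, φ, hφ, hlim⟩ := (isCompact_sphere (0 : 𝔸) 1).tendsto_subseq hmem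
  have hφ' : Tendsto (fun n => φ n + N) atTop atTop :=
    (tendsto_add_atTop_nat N).comp hφ.tendsto_atTop
  have hdir := CST2_dir S hS h1 hmul hinv (fun n => Z (φ n + N) - P (Z (φ n + N)))
    (hY0.comp hφ') (fun n => hYne (φ n)) (fun n => hYS _) a hlim
  have hal := hl' a hdir
  have hPa : P a = 0 := by
    have e1 := (P.continuous.tendsto a).comp hlim
    have e2 : ∀ n, (P ∘ ((fun n => ‖Z (n + N) - P (Z (n + N))‖⁻¹ • (Z (n + N) - P (Z (n + N)))) ∘ φ)) n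
        = 0 := by
      intro n
      simp only [Function.comp_apply]
      rw [map_smul, hPY, smul_zero]
    exact (tendsto_nhds_unique (e1.congr e2) tendsto_const_nhds)
  rw [hPid a hal] at hPa
  rw [mem_sphere_zero_iff_norm, hPa, norm_zero] at ha
  exact zero_ne_one ha

open NormedSpace in
theorem CST2_skew {𝔸 : Type} [NormedRing 𝔸] [NormedAlgebra ℝ 𝔸] [CompleteSpace 𝔸]
    (A B : 𝔸) (h : ∀ t : ℝ, exp (t • A) * exp (t • B) = 1) : A + B = 0 := by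
  letI : NormedAlgebra ℚ 𝔸 := NormedAlgebra.restrictScalars ℚ ℝ 𝔸
  have hA := hasDerivAt_exp_smul_const (𝕂 := ℝ) A 0
  have hB := hasDerivAt_exp_smul_const (𝕂 := ℝ) B 0
  have h1 := hA.mul hB
  have h2 : HasDerivAt (fun t : ℝ => exp (t • A) * exp (t • B)) 0 0 := by
    have : (fun t : ℝ => exp (t • A) * exp (t • B)) = fun _ => (1 : 𝔸) := funext h
    rw [this]
    exact hasDerivAt_const _ _
  have h3 := h1.unique h2
  simpa [exp_zero] using h3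

theorem CST2_conj {ι : Type} [Fintype ι] [DecidableEq ι] (X : Matrix ι ι ℂ) (t : ℝ) :
    Matrix.conjTranspose (NormedSpace.exp (t • X)) =
      NormedSpace.exp (t • Matrix.conjTranspose X) := by
  rw [← Matrix.exp_conjTranspose, Matrix.conjTranspose_smul, star_trivial]

theorem CST2 (h1 : StCST1) : StCST2 := by
  intro ι _ _ L hL V hV
  letI iR : NormedRing (Matrix ι ι ℂ) := Matrix.linftyOpNormedRing
  letI iA : NormedAlgebra ℝ (Matrix ι ι ℂ) := Matrix.linftyOpNormedAlgebra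
  haveI iF : FiniteDimensional ℝ (Matrix ι ι ℂ) := inferInstance
  haveI iC : CompleteSpace (Matrix ι ι ℂ) := FiniteDimensional.complete ℝ _
  obtain ⟨S, hSdef⟩ : ∃ S : Set (Matrix ι ι ℂ), ∀ M, M ∈ S ↔ ∃ u ∈ L, (u : Matrix ι ι ℂ) = M :=
    ⟨{M | ∃ u ∈ L, (u : Matrix ι ι ℂ) = M}, fun M => Iff.rfl⟩
  have hS : IsClosed S := by
    have hc : IsClosed ((Matrix.unitaryGroup ι ℂ : Set (Matrix ι ι ℂ))) := isClosed_unitary
    have h2 := hc.isClosedEmbedding_subtypeVal.isClosedMap _ hL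
    convert h2 using 1
    ext M
    rw [hSdef]
    constructor
    · rintro ⟨u, hu, rfl⟩
      exact ⟨u, hu, rfl⟩
    · rintro ⟨u, hu, rfl⟩
      exact ⟨u, hu, rfl⟩
  have hone : (1 : Matrix ι ι ℂ) ∈ S := (hSdef _).2 ⟨1, L.one_mem, rfl⟩
  have hmul : ∀ a ∈ S, ∀ b ∈ S, a * b ∈ S := by
    intro a ha b hb
    obtain ⟨u, hu, rfl⟩ := (hSdef _).1 ha
    obtain ⟨v, hv, rfl⟩ := (hSdef _).1 hb
    exact (hSdef _).2 ⟨u * v, L.mul_mem hu hv, rfl⟩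
  have hinv : ∀ a ∈ S, ∀ b, b * a = 1 → b ∈ S := by
    intro a ha b hb
    obtain ⟨u, hu, rfl⟩ := (hSdef _).1 ha
    refine (hSdef _).2 ⟨u⁻¹, L.inv_mem hu, ?_⟩
    have h3 : (u : Matrix ι ι ℂ) * ((u⁻¹ : Matrix.unitaryGroup ι ℂ) : Matrix ι ι ℂ) = 1 := by
      have := congrArg (Subtype.val) (mul_inv_cancel u)
      exact this
    calc ((u⁻¹ : Matrix.unitaryGroup ι ℂ) : Matrix ι ι ℂ)
        = (b * (u : Matrix ι ι ℂ)) * ((u⁻¹ : Matrix.unitaryGroup ι ℂ) : Matrix ι ι ℂ) := by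
          rw [hb, one_mul]
      _ = b := by rw [mul_assoc, h3, mul_one]
  have hzero : (0 : Matrix ι ι ℂ) ∈ LieAlg L := by
    refine ⟨by simp, fun t => ⟨1, L.one_mem, ?_⟩⟩
    rw [smul_zero, NormedSpace.exp_zero]
    rfl
  obtain ⟨l, hl⟩ : ∃ l : Submodule ℝ (Matrix ι ι ℂ), ∀ X, X ∈ l ↔ X ∈ LieAlg L := by
    refine ⟨{ carrier := LieAlg L
              add_mem' := fun {X Y} hX hY => (h1 ι L hL X hX Y hY).1
              zero_mem' := hzero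
              smul_mem' := ?_ }, fun X => Iff.rfl⟩
    rintro c X ⟨hX1, hX2⟩
    refine ⟨?_, fun t => ?_⟩
    · rw [Matrix.conjTranspose_smul, hX1, star_trivial, smul_neg]
    · obtain ⟨u, hu, hu2⟩ := hX2 (t * c)
      exact ⟨u, hu, by rw [hu2, smul_smul]⟩
  obtain ⟨O, hO, hO2⟩ := CST2_gen (𝔸 := Matrix ι ι ℂ) S hS hone hmul hinv l
    (fun X hX t => by
      obtain ⟨u, hu, hu2⟩ := ((hl X).1 hX).2 t
      exact (hSdef _).2 ⟨u, hu, hu2⟩)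
    (fun X hX => by
      rw [hl]
      refine ⟨?_, fun t => (hSdef _).1 (hX t)⟩
      have h4 : ∀ t : ℝ, NormedSpace.exp (t • Matrix.conjTranspose X) * NormedSpace.exp (t • X)
          = 1 := by
        intro t
        obtain ⟨u, hu, hu2⟩ := (hSdef _).1 (hX t)
        have h5 : Matrix.conjTranspose (u : Matrix ι ι ℂ) * (u : Matrix ι ι ℂ) = 1 :=
          (Matrix.mem_unitaryGroup_iff'.1 u.2)
        rw [hu2] at h5
        have h6 := CST2_conj X t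
        have h7 : NormedSpace.exp (t • Matrix.conjTranspose X) * NormedSpace.exp (t • X) =
            Matrix.conjTranspose (NormedSpace.exp (t • X)) * NormedSpace.exp (t • X) :=
          congrArg (fun M : Matrix ι ι ℂ => M * NormedSpace.exp (t • X)) h6.symm
        exact h7.trans h5
      exact eq_neg_of_add_eq_zero_left (CST2_skew _ _ h4))
    V hV
  refine ⟨Subtype.val ⁻¹' O, continuous_subtype_val.tendsto (1 : Matrix.unitaryGroup ι ℂ) hO, ?_⟩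
  intro u hu huO
  obtain ⟨X, hX, hXV, hX2⟩ := hO2 (u : Matrix ι ι ℂ) ((hSdef _).2 ⟨u, hu, rfl⟩) huO
  exact ⟨X, (hl X).1 hX, hXV, hX2⟩

end Pool.LatH472
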