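import Mathlib
import Pool.Agent.Helper472.LatDefs3

set_option autoImplicit false

namespace Pool.LatH472

open Pointwise

theorem KLa_Zcompact {H : Type} [Group H] [TopologicalSpace H] [IsTopologicalGroup H] [T2Space H]
    (hE : ElemCompact H) (x : H) : IsCompact ((Zc x : Subgroup H) : Set H) := by
  obtain ⟨K, hK, hx⟩ := hE x
  refine hK.of_isClosed_subset (Subgroup.isClosed_topologicalClosure _) ?_
  apply Subgroup.topologicalClosure_minimal _ _ hK.isClosed
  rw [Subgroup.zpowers_le]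
  exact hx

theorem KLa_rel {H : Type} [Group H] [TopologicalSpace H] [IsTopologicalGroup H] [T2Space H]
    (hABF : StABF) (hE : ElemCompact H) (W : CL H) (hW : FR W) (x : H) :
    W.1.relIndex (Zc x) ≠ 0 := by
  have hZ := KLa_Zcompact hE x
  haveI hc : CompactSpace ↥(Zc x) := isCompact_iff_compactSpace.1 hZ
  have hZcl : IsClosed ((Zc x : Subgroup H) : Set H) := Subgroup.isClosed_topologicalClosure _
  have hcomm : ∀ a b : ↥(Zc x), a * b = b * a := by
    have h1 : ∀ (a b : Subgroup.zpowers x), a * b = b * a := by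
      rintro ⟨_, k, rfl⟩ ⟨_, l, rfl⟩
      apply Subtype.ext
      show x ^ k * x ^ l = x ^ l * x ^ k
      rw [← zpow_add, ← zpow_add, add_comm]
    let _ := (Subgroup.zpowers x).commGroupTopologicalClosure h1
    exact fun a b => mul_comm a b
  have hfin := hW ⟨Zc x, hZcl⟩
  have hop : IsOpen ((W.1.subgroupOf (Zc x) : Subgroup ↥(Zc x)) : Set ↥(Zc x)) := by
    apply hABF ↥(Zc x) hcomm _ (W.2.preimage continuous_subtype_val)
    refine @Finite.of_injective _ _ hfin (fun B => ⟨⟨B.1.map (Zc x).subtype, ?_⟩, ?_, ?_⟩) ?_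
    · have := (hZcl.isClosedEmbedding_subtypeVal).isClosedMap _ B.2.1
      exact this
    · rintro y ⟨hy1, hy2⟩
      exact ⟨⟨y, hy2⟩, B.2.2 (Subgroup.mem_subgroupOf.2 hy1), rfl⟩
    · rintro y ⟨z, _, rfl⟩
      exact z.2
    · intro B B' hBB
      apply Subtype.ext
      have h2 : B.1.map (Zc x).subtype = B'.1.map (Zc x).subtype :=
        congrArg (fun C => C.1.1) hBB
      exact Subgroup.map_injective (Subgroup.subtype_injective _) h2
  have hfq : Finite (↥(Zc x) ⧸ W.1.subgroupOf (Zc x)) := Subgroup.quotient_finite_of_isOpen _ hop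
  exact Subgroup.index_ne_zero_of_finite (H := W.1.subgroupOf (Zc x))

theorem KLa_pow {H : Type} [Group H] [TopologicalSpace H] [IsTopologicalGroup H] [T2Space H]
    (hABF : StABF) (hE : ElemCompact H) (W : CL H) (hW : FR W) (x : H) :
    ∃ n : ℕ, 0 < n ∧ x ^ n ∈ W.1 := by
  have hx : x ∈ Zc x := Subgroup.le_topologicalClosure _ (Subgroup.mem_zpowers x)
  obtain ⟨n, hn, -, hn2⟩ := Subgroup.exists_pow_mem_of_index_ne_zero
    (KLa_rel hABF hE W hW x) ⟨x, hx⟩
  refine ⟨n, hn, ?_⟩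
  simpa [Subgroup.mem_subgroupOf] using hn2

/-- the normaliser of a closed subgroup contains the closure -/
theorem KLa_conjcl {H : Type} [Group H] [TopologicalSpace H] [IsTopologicalGroup H] (x : H)
    (J : Subgroup H) (hJ : IsClosed (J : Set H))
    (hd : (Subgroup.zpowers x ⊔ J).topologicalClosure = ⊤)
    (hJc : ∀ (m : ℤ) (y : H), y ∈ J → x ^ m * y * (x ^ m)⁻¹ ∈ J) : J.Normal := by
  constructor
  intro y hy g
  have hcl : IsClosed {g : H | ∀ y ∈ J, g * y * g⁻¹ ∈ J} := by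
    have : {g : H | ∀ y ∈ J, g * y * g⁻¹ ∈ J} = ⋂ y ∈ J, (fun g : H => g * y * g⁻¹) ⁻¹' (J : Set H) := by
      ext g
      simp
    rw [this]
    refine isClosed_biInter (fun y _ => hJ.preimage ?_)
    fun_prop
  have hsub : ((Subgroup.zpowers x ⊔ J : Subgroup H) : Set H) ⊆ {g : H | ∀ y ∈ J, g * y * g⁻¹ ∈ J} := by
    have hle : Subgroup.zpowers x ⊔ J ≤ Subgroup.normalizer (J : Set H) := by
      apply sup_le
      · intro y hy
        obtain ⟨m, hm⟩ := Subgroup.mem_zpowers_iff.1 hy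
        rw [Subgroup.mem_normalizer_iff]
        intro z
        rw [← hm]
        constructor
        · exact hJc m z
        · intro hz
          have h1 := hJc (-m) _ hz
          have h2 : x ^ (-m) * (x ^ m * z * (x ^ m)⁻¹) * (x ^ (-m))⁻¹ = z := by group
          rwa [h2] at h1
      · exact Subgroup.le_normalizer
    intro g hg y hy
    exact (Subgroup.mem_normalizer_iff.1 (hle hg) y).1 hy
  have h3 := closure_minimal hsub hcl
  have h4 : g ∈ closure ((Subgroup.zpowers x ⊔ J : Subgroup H) : Set H) := by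
    rw [← Subgroup.topologicalClosure_coe, hd]
    trivial
  exact h3 h4 y hy

/-- conjugation -/
def KLa_P {H : Type} [Group H] (N : Subgroup H) (h : H) : Subgroup H :=
  N.comap (MulAut.conj h⁻¹).toMonoidHom

theorem KLa_mem {H : Type} [Group H] (N : Subgroup H) (h y : H) :
    y ∈ KLa_P N h ↔ h⁻¹ * y * h ∈ N := by
  simp [KLa_P, Subgroup.mem_comap, MulAut.conj_apply]

theorem KLa_cont {H : Type} [Group H] [TopologicalSpace H] [IsTopologicalGroup H] (h : H) :
    Continuous (MulAut.conj h⁻¹).toMonoidHom := by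
  have : ((MulAut.conj h⁻¹).toMonoidHom : H → H) = fun y => h⁻¹ * y * h := by
    funext y
    simp [MulAut.conj_apply]
  rw [this]
  fun_prop

theorem KLa_closed {H : Type} [Group H] [TopologicalSpace H] [IsTopologicalGroup H]
    (N : Subgroup H) (hN : IsClosed (N : Set H)) (h : H) : IsClosed (KLa_P N h : Set H) :=
  hN.preimage (KLa_cont h)

theorem KLa_fi {H : Type} [Group H] (N : Subgroup H) (h : H) (hf : (KLa_P N h).FiniteIndex) :
    N.FiniteIndex := by
  rw [Subgroup.finiteIndex_iff] at hf ⊢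
  rwa [KLa_P, Subgroup.index_comap_of_surjective] at hf
  exact (MulAut.conj h⁻¹).surjective

/-- conjugation as an automorphism of the lattice of closed subgroups -/
def KLa_cj {H : Type} [Group H] [TopologicalSpace H] [IsTopologicalGroup H] (h : H) :
    CL H ≃o CL H where
  toFun K := ⟨KLa_P K.1 h, KLa_closed K.1 K.2 h⟩
  invFun K := ⟨KLa_P K.1 h⁻¹, KLa_closed K.1 K.2 h⁻¹⟩
  left_inv K := by
    apply Subtype.ext
    ext y
    rw [KLa_mem, KLa_mem]
    simp [mul_assoc]
  right_inv K := by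
    apply Subtype.ext
    ext y
    rw [KLa_mem, KLa_mem]
    simp [mul_assoc]
  map_rel_iff' := by
    intro K L
    constructor
    · intro hKL y hy
      have h1 : h * y * h⁻¹ ∈ KLa_P K.1 h := by
        rw [KLa_mem]
        simpa [mul_assoc] using hy
      have h2 : h * y * h⁻¹ ∈ KLa_P L.1 h := hKL h1
      rw [KLa_mem] at h2
      simpa [mul_assoc] using h2
    · intro hKL y hy
      have hy' : y ∈ KLa_P K.1 h := hy
      change y ∈ KLa_P L.1 h
      rw [KLa_mem] at hy' ⊢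
      exact hKL hy'

theorem KLa_coatom {G : Type} [Group G] (N : Subgroup G) (hp : N.index.Prime) : IsCoatom N := by
  refine ⟨fun h => ?_, fun K hK => ?_⟩
  · rw [h, Subgroup.index_top] at hp
    exact Nat.not_prime_one hp
  · have hd := Subgroup.index_dvd_of_le hK.le
    rcases (Nat.dvd_prime hp).1 hd with h | h
    · exact Subgroup.index_eq_one.1 h
    · exfalso
      have hm := Subgroup.relIndex_mul_index hK.le
      rw [h] at hm
      have h1 : N.relIndex K = 1 := by
        have := hp.pos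
        exact Nat.eq_of_mul_eq_mul_right this (by rw [hm, one_mul])
      exact absurd (Subgroup.relIndex_eq_one.1 h1) (not_le_of_gt hK)

theorem KLa_primeIndex {G : Type} [Group G] (N : Subgroup G) [N.Normal] (hN : IsCoatom N)
    [N.FiniteIndex] : N.index.Prime := by
  have hfin : Finite (G ⧸ N) := Subgroup.finiteIndex_iff_finite_quotient.1 inferInstance
  have h1 : N.index ≠ 1 := fun h => hN.1 (Subgroup.index_eq_one.1 h)
  obtain ⟨p, hp, hpd⟩ := Nat.exists_prime_and_dvd h1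
  haveI : Fact p.Prime := ⟨hp⟩
  obtain ⟨g, hg⟩ := exists_prime_orderOf_dvd_card' (G := G ⧸ N) p hpd
  have hgt : N < (Subgroup.zpowers g).comap (QuotientGroup.mk' N) := by
    constructor
    · intro x hx
      rw [Subgroup.mem_comap]
      have : (QuotientGroup.mk' N) x = 1 := (QuotientGroup.eq_one_iff x).2 hx
      rw [this]
      exact one_mem _
    · intro hle
      obtain ⟨x, rfl⟩ := QuotientGroup.mk'_surjective N g
      have hx : x ∈ N := hle (by
        rw [Subgroup.mem_comap]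
        exact Subgroup.mem_zpowers _)
      have : (QuotientGroup.mk' N) x = 1 := (QuotientGroup.eq_one_iff x).2 hx
      rw [this, orderOf_one] at hg
      exact hp.one_lt.ne hg
  have htop := hN.2 _ hgt
  have hz : Subgroup.zpowers g = ⊤ := by
    rw [eq_top_iff]
    intro y _
    obtain ⟨x, rfl⟩ := QuotientGroup.mk'_surjective N y
    have : x ∈ (Subgroup.zpowers g).comap (QuotientGroup.mk' N) := by rw [htop]; trivial
    exact this
  have hc : Nat.card (G ⧸ N) = p := by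
    rw [← hg, ← Nat.card_zpowers, hz, Subgroup.card_top]
  have : N.index = p := hc
  rw [this]
  exact hp

/-- the arithmetic step -/
theorem KLa_dvd {G : Type} [Group G] (s : Finset (Subgroup G)) (hs : ∀ N ∈ s, N.Normal) :
    (⨅ N ∈ s, N).index ∣ ∏ N ∈ s, N.index := by
  classical
  induction s using Finset.induction_on with
  | empty => simp
  | insert a s ha ih =>
    rw [Finset.iInf_insert, Finset.prod_insert ha]
    haveI := hs a (Finset.mem_insert_self _ _)
    have h1 := Subgroup.relIndex_mul_index (H := a ⊓ ⨅ N ∈ s, N) (K := ⨅ N ∈ s, N) inf_le_right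
    rw [← h1, Subgroup.inf_relIndex_right]
    exact mul_dvd_mul (Subgroup.relIndex_dvd_index_of_normal _ _)
      (ih (fun N hN => hs N (Finset.mem_insert_of_mem hN)))

theorem KLa_top {G : Type} [Group G] (s : Finset (Subgroup G)) (hs : ∀ N ∈ s, N.Normal)
    (hp : ∀ N ∈ s, N.index.Prime) (hd : ∀ N ∈ s, ∀ N' ∈ s, N.index = N'.index → N = N')
    (T : Subgroup G) (hT : (⨅ N ∈ s, N) ≤ T) (hT2 : ∀ N ∈ s, ¬ T ≤ N) : T = ⊤ := by
  classical
  by_contra hne
  have h1 : T.index ≠ 1 := fun h => hne (Subgroup.index_eq_one.1 h)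
  obtain ⟨q, hq, hqd⟩ := Nat.exists_prime_and_dvd h1
  have h2 : T.index ∣ ∏ N ∈ s, N.index := (Subgroup.index_dvd_of_le hT).trans (KLa_dvd s hs)
  obtain ⟨N0, hN0, hq0⟩ := (Prime.dvd_finsetProd_iff hq.prime _).1 (hqd.trans h2)
  have e0 : q = N0.index := (Nat.prime_dvd_prime_iff_eq hq (hp N0 hN0)).1 hq0
  haveI := hs N0 hN0
  have hco := KLa_coatom N0 (hp N0 hN0)
  -- T ⊔ N0 = ⊤
  have hsup : T ⊔ N0 = ⊤ := by
    apply hco.2
    refine lt_of_le_of_ne le_sup_right ?_
    intro h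
    exact hT2 N0 hN0 (by rw [h]; exact le_sup_left)
  have h3 : N0.relIndex T = N0.index := by
    rw [← Subgroup.relIndex_sup_right (K := N0) (H := T), hsup, Subgroup.relIndex_top_right]
  have h4 : (T ⊓ N0).index = N0.index * T.index := by
    rw [← Subgroup.relIndex_mul_index (H := T ⊓ N0) (K := T) inf_le_left, inf_comm,
      Subgroup.inf_relIndex_right, h3]
  have h5 : (T ⊓ N0).index = T.relIndex N0 * N0.index := by
    rw [← Subgroup.relIndex_mul_index (H := T ⊓ N0) (K := N0) inf_le_right,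
      Subgroup.inf_relIndex_right]
  have h6 : T.index = T.relIndex N0 := by
    have hpos := (hp N0 hN0).pos
    apply Nat.eq_of_mul_eq_mul_left hpos
    rw [← h4, h5, mul_comm]
  have h7 : T.relIndex N0 ∣ (⨅ N ∈ s, N).relIndex N0 := Subgroup.relIndex_dvd_of_le_left _ hT
  have h8 : (⨅ N ∈ s, N).relIndex N0 = (⨅ N ∈ s.erase N0, N).relIndex N0 := by
    have : (⨅ N ∈ s, N) = (⨅ N ∈ s.erase N0, N) ⊓ N0 := by
      conv_lhs => rw [← Finset.insert_erase hN0, Finset.iInf_insert]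
      rw [inf_comm]
    rw [this, Subgroup.inf_relIndex_right]
  have hnorm : (⨅ N ∈ s.erase N0, N).Normal := by
    constructor
    intro n hn g
    simp only [Subgroup.mem_iInf] at hn ⊢
    intro N hN
    exact (hs N (Finset.mem_of_mem_erase hN)).conj_mem n (hn N hN) g
  have h9 : (⨅ N ∈ s.erase N0, N).relIndex N0 ∣ ∏ N ∈ s.erase N0, N.index :=
    (Subgroup.relIndex_dvd_index_of_normal _ _).trans
      (KLa_dvd _ (fun N hN => hs N (Finset.mem_of_mem_erase hN)))
  have h10 : q ∣ ∏ N ∈ s.erase N0, N.index := by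
    refine hqd.trans ?_
    rw [h6]
    refine h7.trans ?_
    rw [h8]
    exact h9
  obtain ⟨N1, hN1, hq1⟩ := (Prime.dvd_finsetProd_iff hq.prime _).1 h10
  have e1 : q = N1.index := (Nat.prime_dvd_prime_iff_eq hq (hp N1 (Finset.mem_of_mem_erase hN1))).1 hq1
  exact Finset.ne_of_mem_erase hN1 (hd N1 (Finset.mem_of_mem_erase hN1) N0 hN0 (by rw [← e1, e0]))

theorem KLa_inf_le {G : Type} [Group G] (s : Finset (Subgroup G)) (K : Subgroup G) (hK : K ∈ s) :
    (⨅ L ∈ s, L) ≤ K := by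
  intro z hz
  simp only [Subgroup.mem_iInf] at hz
  exact hz K hK

theorem KLa_inf_closed {G : Type} [Group G] [TopologicalSpace G] (s : Finset (Subgroup G))
    (hs : ∀ K ∈ s, IsClosed (K : Set G)) : IsClosed ((⨅ K ∈ s, K : Subgroup G) : Set G) := by
  have : ((⨅ K ∈ s, K : Subgroup G) : Set G) = ⋂ K ∈ s, (K : Set G) := by
    simp only [Subgroup.coe_iInf]
  rw [this]
  exact isClosed_biInter hs

theorem KLa_J {H : Type} [Group H] [TopologicalSpace H] [IsTopologicalGroup H] (N' : Subgroup H)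
    (hOP : IsClosed (N' : Set H)) (x : H) (n : ℕ) (hn : 0 < n) (hxn : x ^ n ∈ N') :
    ∃ J : Subgroup H, IsClosed (J : Set H) ∧ (∀ k : ℤ, J ≤ KLa_P N' (x ^ k)) ∧
      (∀ Y : Subgroup H, (∀ i : ℕ, i < n → Y ≤ KLa_P N' (x ^ (i : ℤ))) → Y ≤ J) ∧
      (∀ (m : ℤ) (y : H), y ∈ J → x ^ m * y * (x ^ m)⁻¹ ∈ J) := by
  have hPmem : ∀ (k : ℤ) (y : H), y ∈ KLa_P N' (x ^ k) ↔ (x ^ k)⁻¹ * y * x ^ k ∈ N' := fun k y =>
    KLa_mem _ _ _
  have hPper : ∀ (k m : ℤ), KLa_P N' (x ^ (k + n * m)) = KLa_P N' (x ^ k) := by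
    intro k m
    ext y
    rw [hPmem, hPmem]
    have h1 : x ^ ((n : ℤ) * m) ∈ N' := by
      rw [zpow_mul, zpow_natCast]
      exact zpow_mem hxn m
    have h2 : x ^ (k + n * m) = x ^ k * x ^ ((n : ℤ) * m) := zpow_add _ _ _
    rw [h2]
    generalize x ^ ((n : ℤ) * m) = w at h1 ⊢
    generalize x ^ k = v
    have h3 : (v * w)⁻¹ * y * (v * w) = w⁻¹ * (v⁻¹ * y * v) * w := by group
    rw [h3]
    constructor
    · intro h4
      have h5 := mul_mem (mul_mem h1 h4) (inv_mem h1)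
      have h6 : w * (w⁻¹ * (v⁻¹ * y * v) * w) * w⁻¹ = v⁻¹ * y * v := by group
      rwa [h6] at h5
    · intro h4
      exact mul_mem (mul_mem (inv_mem h1) h4) h1
  have hJ : ∀ k : ℤ, (⨅ i ∈ Finset.range n, KLa_P N' (x ^ (i : ℤ))) ≤ KLa_P N' (x ^ k) := by
    intro k
    have hn' : (0 : ℤ) < n := by exact_mod_cast hn
    have h1 : KLa_P N' (x ^ k) = KLa_P N' (x ^ (k % n)) := by
      conv_lhs => rw [← Int.emod_add_mul_ediv k n]
      exact hPper _ _
    have h2 : 0 ≤ k % n := Int.emod_nonneg _ hn'.ne'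
    have h3 : k % n < n := Int.emod_lt_of_pos _ hn'
    obtain ⟨i, hi⟩ := Int.eq_ofNat_of_zero_le h2
    rw [h1, hi]
    have hin : i ∈ Finset.range n := by
      rw [Finset.mem_range]
      rw [hi] at h3
      exact_mod_cast h3
    intro z hz
    simp only [Subgroup.mem_iInf] at hz
    exact hz i hin
  refine ⟨⨅ i ∈ Finset.range n, KLa_P N' (x ^ (i : ℤ)), ?_, hJ, ?_, ?_⟩
  · have : ((⨅ i ∈ Finset.range n, KLa_P N' (x ^ (i : ℤ)) : Subgroup H) : Set H)
        = ⋂ i ∈ Finset.range n, (KLa_P N' (x ^ (i : ℤ)) : Set H) := by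
      simp only [Subgroup.coe_iInf]
    rw [this]
    exact isClosed_biInter (fun i _ => KLa_closed _ hOP _)
  · intro Y hY z hz
    simp only [Subgroup.mem_iInf]
    intro i hi
    exact hY i (Finset.mem_range.1 hi) hz
  · intro m y hy
    simp only [Subgroup.mem_iInf]
    intro i _
    have h1 := hJ (i - m) hy
    rw [hPmem] at h1 ⊢
    have h2 : (x ^ ((i : ℤ) - m))⁻¹ * y * x ^ ((i : ℤ) - m)
        = (x ^ (i : ℤ))⁻¹ * (x ^ m * y * (x ^ m)⁻¹) * x ^ (i : ℤ) := by
      rw [zpow_sub]; group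
    rwa [h2] at h1

theorem KLa_step {G H : Type} [Group G] [TopologicalSpace G] [IsTopologicalGroup G]
    [Group H] [TopologicalSpace H] [IsTopologicalGroup H] [T2Space H] (φ : CL G ≃o CL H)
    (hABF : StABF) (hE : ElemCompact H) (N : CL G) (hOP : FR (φ N)) (M : H → CL G)
    (hφM1 : ∀ h, (φ (M h)).1 = KLa_P (φ N).1 h) (hMn : ∀ h, (M h).1.Normal)
    (hMp : ∀ h, (M h).1.index.Prime)
    (hMd : ∀ h h', (M h).1.index = (M h').1.index → (M h).1 = (M h').1) (x : H) :
    ∀ y ∈ (φ N).1, x * y * x⁻¹ ∈ (φ N).1 := by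
  classical
  by_contra hcon
  have hxN : x ∉ (φ N).1 := fun hx => hcon (fun y hy => mul_mem (mul_mem hx hy) (inv_mem hx))
  obtain ⟨n, hn, hxn⟩ := KLa_pow hABF hE (φ N) hOP x
  obtain ⟨J, hJopen, hJ, hJle, hJc⟩ := KLa_J (φ N).1 (φ N).2 x n hn hxn
  obtain ⟨T', hT'def⟩ : ∃ T' : Subgroup H, T' = (Subgroup.zpowers x ⊔ J).topologicalClosure := ⟨_, rfl⟩
  have hxT' : x ∈ T' := by
    rw [hT'def]
    exact Subgroup.le_topologicalClosure _
      ((le_sup_left : Subgroup.zpowers x ≤ Subgroup.zpowers x ⊔ J) (Subgroup.mem_zpowers x))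
  have hJT' : J ≤ T' := by
    rw [hT'def]
    exact (le_sup_right : J ≤ Subgroup.zpowers x ⊔ J).trans (Subgroup.le_topologicalClosure _)
  have hT'cl : IsClosed (T' : Set H) := by
    rw [hT'def]
    exact Subgroup.isClosed_topologicalClosure _
  obtain ⟨T, hT⟩ : ∃ T : CL G, φ T = ⟨T', hT'cl⟩ := φ.surjective _
  obtain ⟨s, hs⟩ : ∃ s : Finset (Subgroup G), s = (Finset.range n).image (fun i : ℕ => (M (x ^ (i : ℤ))).1) :=
    ⟨_, rfl⟩
  have hsm : ∀ K ∈ s, ∃ i : ℕ, i < n ∧ K = (M (x ^ (i : ℤ))).1 := by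
    intro K hK
    rw [hs] at hK
    obtain ⟨i, hi, hi2⟩ := Finset.mem_image.1 hK
    exact ⟨i, Finset.mem_range.1 hi, hi2.symm⟩
  have hsm2 : ∀ i : ℕ, i < n → (M (x ^ (i : ℤ))).1 ∈ s := by
    intro i hi
    rw [hs]
    exact Finset.mem_image.2 ⟨i, Finset.mem_range.2 hi, rfl⟩
  clear hs
  have hcl : IsClosed ((⨅ K ∈ s, K : Subgroup G) : Set G) := KLa_inf_closed s (by
    intro K hK
    obtain ⟨i, _, rfl⟩ := hsm K hK
    exact (M _).2)
  have hTle : (⨅ K ∈ s, K) ≤ T.1 := by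
    have h1 : φ ⟨⨅ K ∈ s, K, hcl⟩ ≤ φ T := by
      rw [hT]
      have h2 : (φ ⟨⨅ K ∈ s, K, hcl⟩).1 ≤ J := by
        apply hJle
        intro i hi
        have h3 : (⟨⨅ K ∈ s, K, hcl⟩ : CL G) ≤ M (x ^ (i : ℤ)) := KLa_inf_le s _ (hsm2 i hi)
        rw [← hφM1]
        exact φ.monotone h3
      exact h2.trans hJT'
    exact φ.le_iff_le.1 h1
  have hTtop : T.1 = ⊤ := by
    apply KLa_top s
    · intro K hK
      obtain ⟨i, _, rfl⟩ := hsm K hK
      exact hMn _
    · intro K hK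
      obtain ⟨i, _, rfl⟩ := hsm K hK
      exact hMp _
    · intro K hK K' hK' hKK
      obtain ⟨i, _, rfl⟩ := hsm K hK
      obtain ⟨j, _, rfl⟩ := hsm K' hK'
      exact hMd _ _ hKK
    · exact hTle
    · intro K hK hle
      obtain ⟨i, _, rfl⟩ := hsm K hK
      have h1 : φ T ≤ φ (M (x ^ (i : ℤ))) := φ.monotone hle
      rw [hT] at h1
      have h3 : x ∈ (φ (M (x ^ (i : ℤ)))).1 := h1 hxT'
      rw [hφM1, KLa_mem] at h3
      apply hxN
      have h4 : (x ^ (i : ℤ))⁻¹ * x * x ^ (i : ℤ) = x := by group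
      rwa [h4] at h3
  have hT'top : T' = ⊤ := by
    rw [eq_top_iff]
    have h1 : φ.symm ⟨⊤, isClosed_univ⟩ ≤ T := by
      change (φ.symm ⟨⊤, isClosed_univ⟩).1 ≤ T.1
      rw [hTtop]
      exact le_top
    have h2 : (⟨⊤, isClosed_univ⟩ : CL H) ≤ φ T := by
      have := φ.monotone h1
      rwa [φ.apply_symm_apply] at this
    rw [hT] at h2
    exact h2
  have hJn : J.Normal := KLa_conjcl x J hJopen (by rw [← hT'def]; exact hT'top) hJc
  apply hcon
  intro y hy
  have hJN : J ≤ (φ N).1 := by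
    intro z hz
    have := hJ 0 hz
    rw [KLa_mem] at this
    simpa using this
  have hcl : IsClosed {y : H | x * y * x⁻¹ * y⁻¹ ∈ J} :=
    hJopen.preimage (f := fun y : H => x * y * x⁻¹ * y⁻¹) (by fun_prop)
  have hsub : ((Subgroup.zpowers x ⊔ J : Subgroup H) : Set H) ⊆ {y : H | x * y * x⁻¹ * y⁻¹ ∈ J} := by
    rw [Subgroup.mul_normal]
    rintro _ ⟨a, ha, j, hj, rfl⟩
    obtain ⟨m, hm⟩ := Subgroup.mem_zpowers_iff.1 ha
    have h2 : x ^ (m + 1) * j * (x ^ (m + 1))⁻¹ ∈ J := hJc (m + 1) j hj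
    have h3 : x ^ m * j⁻¹ * (x ^ m)⁻¹ ∈ J := hJc m _ (inv_mem hj)
    have h4 : x * (x ^ m * j) * x⁻¹ * (x ^ m * j)⁻¹ =
        (x ^ (m + 1) * j * (x ^ (m + 1))⁻¹) * (x ^ m * j⁻¹ * (x ^ m)⁻¹) := by group
    change x * (a * j) * x⁻¹ * (a * j)⁻¹ ∈ J
    rw [← hm, h4]
    exact mul_mem h2 h3
  have h5 : y ∈ closure ((Subgroup.zpowers x ⊔ J : Subgroup H) : Set H) := by
    rw [← Subgroup.topologicalClosure_coe, ← hT'def, hT'top]
    trivial
  have h6 : x * y * x⁻¹ * y⁻¹ ∈ J := closure_minimal hsub hcl h5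
  have h7 := mul_mem (hJN h6) hy
  have h8 : x * y * x⁻¹ * y⁻¹ * y = x * y * x⁻¹ := by group
  rwa [h8] at h7

theorem KLa (hABF : StABF) (hFR1 : StFR1) (hFR2 : StFR2) (hKL1 : StKL1a) (hPQ1 : StPQ1g) (hPQ2 : StPQ2) : StKLa := by
  intro G H _ _ _ _ _ _ _ _ _ φ hE N _ hNo hNp
  by_contra hinf
  have hNfi : N.1.FiniteIndex := Subgroup.finiteIndex_iff_finite_quotient.2
    (Subgroup.quotient_finite_of_isOpen _ hNo)
  have hOP : FR (φ N) := hFR2 G H φ N (hFR1 G N hNfi)
  have hNi : N.1.index.Prime := hNp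
  have hNco : IsCoatom N.1 := KLa_coatom N.1 hNi
  -- the conjugates
  let M : H → CL G := fun h => φ.symm (KLa_cj h (φ N))
  have hφM : ∀ h, φ (M h) = KLa_cj h (φ N) := fun h => φ.apply_symm_apply _
  have hφM1 : ∀ h, (φ (M h)).1 = KLa_P (φ N).1 h := fun h => by rw [hφM h]; rfl
  have hM : ∀ h, IsOpen ((M h).1 : Set G) ∧ IsCoatom (M h).1 ∧ CM (M h).1 := fun h =>
    hKL1 G (φ.trans ((KLa_cj h).trans φ.symm)) N hNo hNp
  -- a closed subgroup whose image has finite index is in no `M h`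
  have hkey : ∀ (h : H) (S : CL G), S ≤ M h → ¬ (φ S).1.FiniteIndex := by
    intro h S hS hf
    have h1 : (φ S).1 ≤ KLa_P (φ N).1 h := by
      rw [← hφM1 h]
      exact φ.monotone hS
    exact hinf (KLa_fi _ h (Subgroup.finiteIndex_of_le h1))
  have hMfi : ∀ h, (M h).1.FiniteIndex := fun h =>
    Subgroup.finiteIndex_iff_finite_quotient.2 (Subgroup.quotient_finite_of_isOpen _ (hM h).1)
  -- (a)
  have hMn : ∀ h, (M h).1.Normal := by
    intro h
    rcases (hM h).2.2 with h1 | ⟨p, q, hp, hq, hpq⟩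
    · exact h1
    by_contra hnn
    haveI := hMfi h
    have hcl : IsClosed (((M h).1.normalCore : Subgroup G) : Set G) :=
      (M h).1.normalCore_isClosed (M h).2
    have hop : IsOpen (((M h).1.normalCore : Subgroup G) : Set G) :=
      Subgroup.isOpen_of_isClosed_of_finiteIndex _ hcl
    let S : CL G := ⟨(M h).1.normalCore, hcl⟩
    haveI : S.1.Normal := Subgroup.normalCore_normal _
    refine hkey h S (Subgroup.normalCore_le _) (hPQ2 G H φ S hop p q hp hq hpq (hPQ1 G H φ hE S hop p q hp hq hpq ?_))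
    intro hcyc
    apply hnn
    have hcomm : ∀ a b : G ⧸ S.1, a * b = b * a := by
      letI := hcyc.commGroup
      exact fun a b => mul_comm a b
    constructor
    intro n hn g
    have h2 : g * n * g⁻¹ * n⁻¹ ∈ S.1 := by
      rw [← QuotientGroup.eq_one_iff]
      have h3 : ((g * n * g⁻¹ * n⁻¹ : G) : G ⧸ S.1) = (g : G ⧸ S.1) * n * (g : G ⧸ S.1)⁻¹ * (n : G ⧸ S.1)⁻¹ := rfl
      rw [h3, hcomm (g : G ⧸ S.1) n]
      group
    have h4 : g * n * g⁻¹ * n⁻¹ ∈ (M h).1 := Subgroup.normalCore_le _ h2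
    have h5 := mul_mem h4 hn
    simpa [mul_assoc] using h5
  have hMp : ∀ h, (M h).1.index.Prime := fun h => by
    haveI := hMn h
    haveI := hMfi h
    exact KLa_primeIndex (M h).1 (hM h).2.1
  -- (b)
  have hMd : ∀ h h', (M h).1.index = (M h').1.index → (M h).1 = (M h').1 := by
    intro h h' hind
    by_contra hne
    haveI := hMn h
    haveI := hMn h'
    haveI := hMfi h
    haveI := hMfi h'
    let S : CL G := ⟨(M h).1 ⊓ (M h').1, (M h).2.inter (M h').2⟩
    haveI : S.1.Normal := inferInstanceAs ((M h).1 ⊓ (M h').1).Normal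
    have hop : IsOpen (S.1 : Set G) := (hM h).1.inter (hM h').1
    have hsup : (M h').1 ⊔ (M h).1 = ⊤ := by
      apply (hM h).2.1.2
      refine lt_of_le_of_ne le_sup_right ?_
      intro h1
      have h2 : (M h').1 ≤ (M h).1 := by rw [h1]; exact le_sup_left
      rcases eq_or_lt_of_le h2 with h3 | h3
      · exact hne h3.symm
      · exact (hM h).2.1.1 ((hM h').2.1.2 _ h3)
    have hrel : (M h).1.relIndex (M h').1 = (M h).1.index := by
      rw [← Subgroup.relIndex_sup_right (K := (M h).1) (H := (M h').1), hsup,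
        Subgroup.relIndex_top_right]
    have hcard : Nat.card (G ⧸ S.1) = (M h).1.index * (M h).1.index := by
      have h1 : ((M h).1 ⊓ (M h').1).index = (M h).1.index * (M h).1.index := by
        rw [← Subgroup.relIndex_mul_index (H := (M h).1 ⊓ (M h').1) (K := (M h').1) inf_le_right,
          Subgroup.inf_relIndex_right, hrel, hind]
      exact h1
    refine hkey h S (show (M h).1 ⊓ (M h').1 ≤ (M h).1 from inf_le_left) (hPQ2 G H φ S hop _ _ (hMp h) (hMp h) hcard (hPQ1 G H φ hE S hop _ _ (hMp h) (hMp h) hcard ?_))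
    intro hcyc
    obtain ⟨g, hg⟩ := hcyc.exists_generator
    obtain ⟨x, rfl⟩ := QuotientGroup.mk_surjective g
    have hx : x ^ (M h).1.index ∈ S.1 := by
      refine ⟨Subgroup.pow_index_mem _ _, ?_⟩
      rw [hind]
      exact Subgroup.pow_index_mem _ _
    have hx1 : ((x : G ⧸ S.1)) ^ (M h).1.index = 1 := by
      rw [← QuotientGroup.mk_pow, QuotientGroup.eq_one_iff]
      exact hx
    have ho : orderOf (x : G ⧸ S.1) ∣ (M h).1.index := orderOf_dvd_of_pow_eq_one hx1
    have ho2 : orderOf (x : G ⧸ S.1) = Nat.card (G ⧸ S.1) :=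
      orderOf_eq_card_of_forall_mem_zpowers hg
    rw [ho2, hcard] at ho
    have hp1 := hMp h
    have := Nat.le_of_dvd hp1.pos ho
    nlinarith [hp1.one_lt]
  -- (c)
  have hstep : ∀ x : H, ∀ y ∈ (φ N).1, x * y * x⁻¹ ∈ (φ N).1 :=
    KLa_step φ hABF hE N hOP M hφM1 hMn hMp hMd
  have hN'n : (φ N).1.Normal := ⟨fun y hy x => hstep x y hy⟩
  -- (d)
  by_cases hall : ∀ h : H, h ∈ (φ N).1
  · apply hinf
    have : (φ N).1 = ⊤ := by rw [eq_top_iff]; exact fun h _ => hall h
    rw [this]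
    infer_instance
  · push_neg at hall
    obtain ⟨h, hh⟩ := hall
    let L : Subgroup H := Zc h ⊔ (φ N).1
    have hLo : IsClosed (L : Set H) := by
      change IsClosed ((Zc h ⊔ (φ N).1 : Subgroup H) : Set H)
      rw [Subgroup.mul_normal]
      exact (φ N).2.mul_left_of_isCompact (KLa_Zcompact hE h)
    let Lc : CL H := ⟨L, hLo⟩
    have h1 : φ N ≤ Lc := (le_sup_right : (φ N).1 ≤ L)
    have h2 : N ≤ φ.symm Lc := (φ.le_symm_apply).2 h1
    have h3 : N.1 < (φ.symm Lc).1 := by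
      refine lt_of_le_of_ne h2 ?_
      intro h4
      have h5 : N = φ.symm Lc := Subtype.ext h4
      have h6 : φ N = Lc := by rw [h5, φ.apply_symm_apply]
      apply hh
      rw [h6]
      exact (le_sup_left : Zc h ≤ L) (Subgroup.le_topologicalClosure _ (Subgroup.mem_zpowers h))
    have h4 := hNco.2 _ h3
    have hLtop : L = ⊤ := by
      rw [eq_top_iff]
      have h5 : φ.symm ⟨⊤, isClosed_univ⟩ ≤ φ.symm Lc := by
        change (φ.symm ⟨⊤, isClosed_univ⟩).1 ≤ (φ.symm Lc).1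
        rw [h4]
        exact le_top
      have h6 : (⟨⊤, isClosed_univ⟩ : CL H) ≤ Lc := φ.symm.le_iff_le.1 h5
      exact h6
    apply hinf
    rw [Subgroup.finiteIndex_iff]
    have h8 : (φ N).1.index = (φ N).1.relIndex (Zc h) := by
      rw [← Subgroup.relIndex_top_right, ← hLtop]
      exact Subgroup.relIndex_sup_right (K := (φ N).1) (H := Zc h)
    rw [h8]
    exact KLa_rel hABF hE (φ N) hOP h

end Pool.LatH472
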