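import Mathlib
import Pool.Agent.Helper472.LatDefs

set_option autoImplicit false

namespace Pool.LatH472

open Pointwise

theorem L10b (Γ : Type) [Group Γ] (Y : Set Γ) (hY : Y.Finite) (hgen : Subgroup.closure Y = ⊤)
    (hfo : ∀ y ∈ Y, IsOfFinOrder y) (hc : ∀ y ∈ Y, (Subgroup.centralizer {y}).FiniteIndex) :
    Finite Γ := by
  classical
  -- the centre has finite index
  have hcen : (Subgroup.center Γ).FiniteIndex := by
    have h1 : (⨅ y : Y, Subgroup.centralizer {(y : Γ)}) ≤ Subgroup.center Γ := by
      intro z hz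
      rw [Subgroup.mem_iInf] at hz
      have h2 : Y ⊆ (Subgroup.centralizer {z} : Subgroup Γ) := by
        intro y hy
        have h3 := hz ⟨y, hy⟩
        rw [Subgroup.mem_centralizer_singleton_iff] at h3
        rw [SetLike.mem_coe, Subgroup.mem_centralizer_singleton_iff]
        exact h3.symm
      have h4 : (⊤ : Subgroup Γ) ≤ Subgroup.centralizer {z} := by
        rw [← hgen]; exact (Subgroup.closure_le _).2 h2
      rw [Subgroup.mem_center_iff]
      intro g
      have h5 := h4 (Subgroup.mem_top g)
      rw [Subgroup.mem_centralizer_singleton_iff] at h5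
      exact h5
    have : Finite Y := hY
    have h6 : (⨅ y : Y, Subgroup.centralizer {(y : Γ)}).FiniteIndex :=
      Subgroup.finiteIndex_iInf (fun y => hc y y.2)
    exact Subgroup.finiteIndex_of_le h1
  -- the commutator set is finite
  have hcs : Finite (commutatorSet Γ) := by
    have hq : Finite (Γ ⧸ Subgroup.center Γ) := Subgroup.finite_quotient_of_finiteIndex
    have h1 : commutatorSet Γ ⊆ Set.range (fun p : (Γ ⧸ Subgroup.center Γ) × (Γ ⧸ Subgroup.center Γ)
        => p.1.out * p.2.out * p.1.out⁻¹ * p.2.out⁻¹) := by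
      rintro _ ⟨a, b, rfl⟩
      refine ⟨((a : Γ ⧸ Subgroup.center Γ), (b : Γ ⧸ Subgroup.center Γ)), ?_⟩
      obtain ⟨z, hz⟩ := QuotientGroup.mk_out_eq_mul (Subgroup.center Γ) a
      obtain ⟨w, hw⟩ := QuotientGroup.mk_out_eq_mul (Subgroup.center Γ) b
      dsimp only
      rw [hz, hw]
      have hz' : ∀ g : Γ, g * (z : Γ) = z * g := Subgroup.mem_center_iff.1 z.2
      have hw' : ∀ g : Γ, g * (w : Γ) = w * g := Subgroup.mem_center_iff.1 w.2
      have cz : ∀ g : Γ, Commute (z : Γ) g := fun g => (hz' g).symm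
      have cw : ∀ g : Γ, Commute (w : Γ) g := fun g => (hw' g).symm
      rw [commutatorElement_def, mul_inv_rev, mul_inv_rev]
      have e1 : a * (z : Γ) * (b * w) * ((z : Γ)⁻¹ * a⁻¹) * ((w : Γ)⁻¹ * b⁻¹) =
          a * ((z : Γ) * (b * w)) * (z : Γ)⁻¹ * a⁻¹ * ((w : Γ)⁻¹ * b⁻¹) := by group
      rw [e1, (cz (b * w)).eq]
      have e2 : a * (b * (w : Γ) * z) * (z : Γ)⁻¹ * a⁻¹ * ((w : Γ)⁻¹ * b⁻¹) =
          a * b * ((w : Γ) * a⁻¹) * (w : Γ)⁻¹ * b⁻¹ := by group
      rw [e2, (cw a⁻¹).eq]
      group
    exact ((Set.finite_range _).subset h1).to_subtype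
  have hcomm : Finite (commutator Γ) := inferInstance
  -- the abelianization is finite
  have hab : Finite (Γ ⧸ commutator Γ) := by
    have hfg : Group.FG Γ := by
      rw [Group.fg_iff]
      exact ⟨Y, hgen, hY⟩
    have hfg' : Group.FG (Abelianization Γ) := by
      exact Group.fg_of_surjective (f := Abelianization.of) QuotientGroup.mk_surjective
    have htor : Monoid.IsTorsion (Abelianization Γ) := by
      have h1 : (CommGroup.torsion (Abelianization Γ)).comap Abelianization.of = ⊤ := by
        rw [eq_top_iff, ← hgen, Subgroup.closure_le]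
        intro y hy
        exact MonoidHom.isOfFinOrder (Abelianization.of : Γ →* Abelianization Γ) (hfo y hy)
      intro x
      obtain ⟨g, rfl⟩ := QuotientGroup.mk_surjective (s := commutator Γ) x
      have h2 : g ∈ (CommGroup.torsion (Abelianization Γ)).comap Abelianization.of := by
        rw [h1]; exact Subgroup.mem_top g
      exact h2
    exact CommGroup.finite_of_fg_torsion (Abelianization Γ) htor
  exact Finite.of_equiv _ (Subgroup.groupEquivQuotientProdSubgroup (s := commutator Γ)).symm

end Pool.LatH472
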