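import Mathlib
import Pool.Agent.Helper472.LatDefs

set_option autoImplicit false

namespace Pool.LatH472

open Pointwise

theorem PQ2_arith (a b c p q : ℕ) (hp : p.Prime) (hq : q.Prime) (h : a * b * c = p * q)
    (hb : b ≠ 1) (hc : c ≠ 1) : a = 1 := by
  have hp0 : 0 < p := hp.pos
  have h1 : p ∣ a * b * c := ⟨q, h⟩
  rcases (Nat.Prime.dvd_mul hp).1 h1 with h2 | h2
  · rcases (Nat.Prime.dvd_mul hp).1 h2 with ⟨a', rfl⟩ | ⟨b', rfl⟩
    · exfalso
      have h3 : a' * b * c = q := by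
        apply Nat.eq_of_mul_eq_mul_left hp0
        rw [← h]
        ring
      have h4 : b ∣ q := ⟨a' * c, by rw [← h3]; ring⟩
      have h5 : b = q := ((Nat.dvd_prime hq).1 h4).resolve_left hb
      have h6 : a' * c = 1 := by
        apply Nat.eq_of_mul_eq_mul_left hq.pos
        rw [mul_one]
        nth_rewrite 2 [← h3]
        rw [← h5]
        ring
      exact hc (Nat.eq_one_of_mul_eq_one_left h6)
    · have h3 : a * b' * c = q := by
        apply Nat.eq_of_mul_eq_mul_left hp0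
        rw [← h]
        ring
      have h4 : c ∣ q := ⟨a * b', by rw [← h3]; ring⟩
      have h5 : c = q := ((Nat.dvd_prime hq).1 h4).resolve_left hc
      have h6 : a * b' = 1 := by
        apply Nat.eq_of_mul_eq_mul_left hq.pos
        rw [mul_one]
        nth_rewrite 2 [← h3]
        rw [← h5]
        ring
      exact Nat.eq_one_of_mul_eq_one_right h6
  · obtain ⟨c', rfl⟩ := h2
    have h3 : a * b * c' = q := by
      apply Nat.eq_of_mul_eq_mul_left hp0
      rw [← h]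
      ring
    have h4 : b ∣ q := ⟨a * c', by rw [← h3]; ring⟩
    have h5 : b = q := ((Nat.dvd_prime hq).1 h4).resolve_left hb
    have h6 : a * c' = 1 := by
      apply Nat.eq_of_mul_eq_mul_left hq.pos
      rw [mul_one]
      nth_rewrite 2 [← h3]
      rw [← h5]
      ring
    exact Nat.eq_one_of_mul_eq_one_right h6

theorem PQ2 : StPQ2 := by
  intro G H _ _ _ _ _ _ _ _ _ φ S hSn hSo p q hp hq hcard hcov
  classical
  haveI hfinQ : Finite (G ⧸ S.1) := by
    apply Nat.finite_of_card_ne_zero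
    rw [hcard]
    exact Nat.mul_ne_zero hp.ne_zero hq.ne_zero
  have hfin : {X : CL G | S ≤ X ∧ X.1 ≠ ⊤}.Finite := by
    refine Set.Finite.of_injOn (f := fun X : CL G => X.1.map (QuotientGroup.mk' S.1))
      (t := Set.univ) (fun _ _ => Set.mem_univ _) ?_ Set.finite_univ
    intro X hX Y hY hXY
    apply Subtype.ext
    refine Subgroup.map_injective_of_ker_le (QuotientGroup.mk' S.1) ?_ ?_ hXY
    · rw [QuotientGroup.ker_mk']
      exact hX.1
    · rw [QuotientGroup.ker_mk']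
      exact hY.1
  set s : Finset (CL G) := hfin.toFinset with hs
  have hcover : ⋃ i ∈ s, (1 : H) • ((φ i).1 : Set H) = Set.univ := by
    rw [Set.eq_univ_iff_forall]
    intro h
    obtain ⟨X, hX1, hX2, hX3⟩ := hcov h
    rw [Set.mem_iUnion₂]
    refine ⟨X, hfin.mem_toFinset.2 ⟨hX1, hX2⟩, ?_⟩
    rw [one_smul]
    exact hX3
  have hcover' := Subgroup.leftCoset_cover_filter_FiniteIndex hcover
  have hkey : ∀ h : H, ∃ X : CL G, S ≤ X ∧ X.1 ≠ ⊤ ∧ (φ X).1.FiniteIndex ∧ h ∈ (φ X).1 := by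
    intro h
    have h1 : h ∈ (Set.univ : Set H) := Set.mem_univ h
    rw [← hcover', Set.mem_iUnion₂] at h1
    obtain ⟨X, hX, hXh⟩ := h1
    rw [Finset.mem_filter] at hX
    obtain ⟨hX1, hX2⟩ := hX
    have hX3 := hfin.mem_toFinset.1 hX1
    rw [one_smul] at hXh
    exact ⟨X, hX3.1, hX3.2, hX2, hXh⟩
  obtain ⟨X1, hSX1, hX1top, hX1fin, -⟩ := hkey 1
  have hex : ∃ h : H, h ∉ (φ X1).1 := by
    by_contra hcon
    push Not at hcon
    apply hX1top
    rw [eq_top_iff]
    have h1 : φ (⟨⊤, isClosed_univ⟩ : CL G) ≤ φ X1 := by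
      intro x _
      exact hcon x
    have h2 : (⟨⊤, isClosed_univ⟩ : CL G) ≤ X1 := φ.le_iff_le.1 h1
    exact h2
  obtain ⟨h, hh⟩ := hex
  obtain ⟨X2, hSX2, hX2top, hX2fin, hX2h⟩ := hkey h
  let X12 : CL G := ⟨X1.1 ⊓ X2.1, X1.2.inter X2.2⟩
  have hSX12 : S.1 ≤ X12.1 := le_inf hSX1 hSX2
  have h12 : X12.1 ≤ X2.1 := inf_le_right
  have hb : X12.1.relIndex X2.1 ≠ 1 := by
    intro hcon
    rw [Subgroup.relIndex_eq_one] at hcon
    have h1 : X2 ≤ X1 := fun x hx => (hcon hx).1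
    exact hh ((φ.monotone h1) hX2h)
  have hc : X2.1.index ≠ 1 := by
    intro hcon
    exact hX2top (Subgroup.index_eq_one.1 hcon)
  have hprod : S.1.relIndex X12.1 * X12.1.relIndex X2.1 * X2.1.index = p * q := by
    rw [Subgroup.relIndex_mul_relIndex _ _ _ hSX12 h12, Subgroup.relIndex_mul_index hSX2]
    exact hcard
  have ha := PQ2_arith _ _ _ p q hp hq hprod hb hc
  rw [Subgroup.relIndex_eq_one] at ha
  let I : CL H := ⟨(φ X1).1 ⊓ (φ X2).1, (φ X1).2.inter (φ X2).2⟩
  have hI1 : φ.symm I ≤ X1 := by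
    rw [φ.symm_apply_le]
    exact fun x hx => hx.1
  have hI2 : φ.symm I ≤ X2 := by
    rw [φ.symm_apply_le]
    exact fun x hx => hx.2
  have hI3 : φ.symm I ≤ S := fun x hx => ha ⟨hI1 hx, hI2 hx⟩
  have hI4 : I ≤ φ S := by
    rw [φ.symm_apply_le] at hI3
    exact hI3
  have hIfin : I.1.FiniteIndex := by
    show ((φ X1).1 ⊓ (φ X2).1).FiniteIndex
    infer_instance
  exact Subgroup.finiteIndex_of_le hI4

end Pool.LatH472
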