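import Mathlib
import Pool.Agent.Helper472.LatDefs

set_option autoImplicit false

namespace Pool.LatH472

open Pointwise


def T10b_Good {H K : Type} [Group H] [TopologicalSpace H] [Group K] [TopologicalSpace K]
    (i : H →* K) (M N : Subgroup K) : Prop :=
  IsCompact (N : Set K) ∧ N ≤ M ∧ (∀ m ∈ M, ∀ n ∈ N, m⁻¹ * n * m ∈ N) ∧
    ∃ C : Set H, IsCompact C ∧ (N : Set K) ⊆ i '' C

theorem T10b_join {H K : Type} [Group H] [TopologicalSpace H] [IsTopologicalGroup H]
    [Group K] [TopologicalSpace K] [IsTopologicalGroup K]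
    (i : H →* K) (M N1 N2 : Subgroup K) (h1 : T10b_Good i M N1) (h2 : T10b_Good i M N2) :
    ∃ N, T10b_Good i M N ∧ N1 ≤ N ∧ N2 ≤ N := by
  obtain ⟨c1, l1, n1, C1, k1, s1⟩ := h1
  obtain ⟨c2, l2, n2, C2, k2, s2⟩ := h2
  have n1' : ∀ m ∈ M, ∀ n ∈ N1, m * n * m⁻¹ ∈ N1 := by
    intro m hm n hn
    have := n1 m⁻¹ (inv_mem hm) n hn
    simpa using this
  let N : Subgroup K :=
    { carrier := (N1 : Set K) * (N2 : Set K)
      mul_mem' := by
        rintro _ _ ⟨a, ha, b, hb, rfl⟩ ⟨a', ha', b', hb', rfl⟩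
        refine ⟨a * (b * a' * b⁻¹), N1.mul_mem ha (n1' b (l2 hb) a' ha'), b * b', N2.mul_mem hb hb', ?_⟩
        simp only
        group
      one_mem' := ⟨1, N1.one_mem, 1, N2.one_mem, by simp⟩
      inv_mem' := by
        rintro _ ⟨a, ha, b, hb, rfl⟩
        refine ⟨b⁻¹ * a⁻¹ * b, n1 b (l2 hb) _ (N1.inv_mem ha), b⁻¹, N2.inv_mem hb, ?_⟩
        simp only
        group }
  have hN : (N : Set K) = (N1 : Set K) * (N2 : Set K) := rfl
  refine ⟨N, ⟨?_, ?_, ?_, C1 * C2, k1.mul k2, ?_⟩, ?_, ?_⟩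
  · rw [hN]; exact c1.mul c2
  · rintro _ ⟨a, ha, b, hb, rfl⟩
    exact M.mul_mem (l1 ha) (l2 hb)
  · rintro m hm _ ⟨a, ha, b, hb, rfl⟩
    refine ⟨m⁻¹ * a * m, n1 m hm a ha, m⁻¹ * b * m, n2 m hm b hb, ?_⟩
    simp only
    group
  · rw [hN, Set.image_mul]
    exact Set.mul_subset_mul s1 s2
  · intro a ha
    exact ⟨a, ha, 1, N2.one_mem, by simp⟩
  · intro b hb
    exact ⟨1, N1.one_mem, b, hb, by simp⟩

def T10b_T {K : Type} [Group K] [TopologicalSpace K] [IsTopologicalGroup K] (M : Subgroup K) (x : K) :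
    Subgroup K := (Subgroup.closure {y | ∃ m ∈ M, y = x⁻¹ * m⁻¹ * x * m}).topologicalClosure

theorem T10b_goodT {H K : Type} [Group H] [TopologicalSpace H] [IsTopologicalGroup H]
    [Group K] [TopologicalSpace K] [IsTopologicalGroup K] [CompactSpace K] [T2Space K]
    (i : H →* K) (hi : Continuous i) (M : Subgroup K) (hMn : M.Normal) (hMc : IsClosed (M : Set K)) (x : K)
    (B : Subgroup H) (hB : IsCompact (B : Set H))
    (h : ∀ m ∈ M, ∃ u ∈ B, i u = x⁻¹ * m⁻¹ * x * m) : T10b_Good i M (T10b_T M x) := by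
  refine ⟨(Subgroup.isClosed_topologicalClosure _).isCompact, ?_, ?_, B, hB, ?_⟩
  · refine Subgroup.topologicalClosure_minimal _ ?_ hMc
    rw [Subgroup.closure_le]
    rintro _ ⟨m, hm, rfl⟩
    have h1 := hMn.conj_mem m⁻¹ (inv_mem hm) x⁻¹
    rw [inv_inv] at h1
    exact M.mul_mem h1 hm
  · intro m1 hm1 n hn
    have key : T10b_T M x ≤ (T10b_T M x).comap (MulAut.conj m1⁻¹).toMonoidHom := by
      refine Subgroup.topologicalClosure_minimal _ ?_ ?_
      · rw [Subgroup.closure_le]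
        rintro _ ⟨m, hm, rfl⟩
        simp only [Subgroup.coe_comap, Set.mem_preimage, SetLike.mem_coe]
        have e : (MulAut.conj m1⁻¹).toMonoidHom (x⁻¹ * m⁻¹ * x * m) =
            (x⁻¹ * m1⁻¹ * x * m1)⁻¹ * (x⁻¹ * (m * m1)⁻¹ * x * (m * m1)) := by
          simp only [MulEquiv.toMonoidHom_eq_coe, MonoidHom.coe_coe, MulAut.conj_apply]
          group
        rw [e]
        refine Subgroup.le_topologicalClosure _ ?_
        refine Subgroup.mul_mem _ (Subgroup.inv_mem _ (Subgroup.subset_closure ⟨m1, hm1, rfl⟩))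
          (Subgroup.subset_closure ⟨m * m1, M.mul_mem hm hm1, rfl⟩)
      · refine (Subgroup.isClosed_topologicalClosure _).preimage ?_
        show Continuous (fun y => m1⁻¹ * y * m1⁻¹⁻¹)
        fun_prop
    have := key hn
    simpa using this
  · have hc : IsClosed ((B.map i : Subgroup K) : Set K) := by
      rw [Subgroup.coe_map]
      exact (hB.image hi).isClosed
    have : T10b_T M x ≤ B.map i := by
      refine Subgroup.topologicalClosure_minimal _ ?_ hc
      rw [Subgroup.closure_le]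
      rintro _ ⟨m, hm, rfl⟩
      obtain ⟨u, hu, e⟩ := h m hm
      exact ⟨u, hu, e⟩
    intro y hy
    have := this hy
    simpa using this

theorem T10b_fin {H K : Type} [Group H] [TopologicalSpace H] [IsTopologicalGroup H]
    [Group K] [TopologicalSpace K] [IsTopologicalGroup K]
    (i : H →* K) (M : Subgroup K) {ι : Type} (S : Finset ι) (T : ι → Subgroup K)
    (h : ∀ x ∈ S, T10b_Good i M (T x)) : ∃ N, T10b_Good i M N ∧ ∀ x ∈ S, T x ≤ N := by
  classical
  induction S using Finset.induction_on with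
  | empty =>
    refine ⟨⊥, ⟨?_, bot_le, ?_, {1}, isCompact_singleton, ?_⟩, by simp⟩
    · rw [Subgroup.coe_bot]; exact isCompact_singleton
    · intro m _ n hn
      rw [Subgroup.mem_bot] at hn ⊢
      rw [hn]; group
    · rw [Subgroup.coe_bot]; simp
  | insert a S _ ih =>
    obtain ⟨N, hN, hle⟩ := ih (fun x hx => h x (Finset.mem_insert_of_mem hx))
    obtain ⟨N', hN', h1, h2⟩ := T10b_join i M (T a) N (h a (Finset.mem_insert_self _ _)) hN
    refine ⟨N', hN', ?_⟩
    intro x hx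
    rcases Finset.mem_insert.1 hx with rfl | hx
    · exact h1
    · exact (hle x hx).trans h2

theorem T10b : StT10b := by
  intro H _ _ _ _ K _ _ _ _ _ i hi hinj hdense F hF hf
  classical
  choose! Mf Bf hMn hMo hBc hMB using hf
  let M : Subgroup K := ⨅ f ∈ F, Mf f
  have hMle : ∀ f ∈ F, M ≤ Mf f := fun f hf => iInf₂_le f hf
  have hMnor : M.Normal := by
    refine ⟨fun n hn g => ?_⟩
    simp only [M, Subgroup.mem_iInf] at hn ⊢
    intro f hf
    exact (hMn f hf).conj_mem n (hn f hf) g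
  have hMopen : IsOpen (M : Set K) := by
    have : (M : Set K) = ⋂ f ∈ F, (Mf f : Set K) := by
      simp only [M, Subgroup.coe_iInf]
    rw [this]
    exact isOpen_biInter_finset hMo
  have hMclosed : IsClosed (M : Set K) := Subgroup.isClosed_of_isOpen M hMopen
  haveI hfin : Finite (K ⧸ M) := Subgroup.quotient_finite_of_isOpen M hMopen
  haveI hMfi : M.FiniteIndex := Subgroup.finiteIndex_of_finite_quotient
  -- representatives
  have hrep : ∀ q : K ⧸ M, ∃ h : H, (QuotientGroup.mk (i h) : K ⧸ M) = q := by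
    intro q
    obtain ⟨k, rfl⟩ := QuotientGroup.mk_surjective q
    have ho : IsOpen ((fun y => k⁻¹ * y) ⁻¹' (M : Set K)) := hMopen.preimage (by fun_prop)
    obtain ⟨y, hy1, ⟨h, rfl⟩⟩ := hdense.inter_open_nonempty _ ho ⟨k, by simp [M.one_mem]⟩
    refine ⟨h, ?_⟩
    exact (QuotientGroup.eq.2 hy1).symm
  choose hh hhq using hrep
  haveI := Fintype.ofFinite (K ⧸ M)
  have hgood : ∀ p ∈ (Finset.univ : Finset (K ⧸ M)) ×ˢ F,
      T10b_Good i M (T10b_T M ((i (hh p.1))⁻¹ * i p.2 * i (hh p.1))) := by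
    intro p hp
    have hpF : p.2 ∈ F := (Finset.mem_product.1 hp).2
    set h := hh p.1
    set f := p.2
    refine T10b_goodT i hi M hMnor hMclosed _ ((Bf f).map (MulAut.conj h⁻¹).toMonoidHom) ?_ ?_
    · rw [Subgroup.coe_map]
      refine (hBc f hpF).image ?_
      show Continuous (fun y => h⁻¹ * y * h⁻¹⁻¹)
      fun_prop
    · intro m hm
      have hm' : i h * m * (i h)⁻¹ ∈ Mf f := hMle f hpF (hMnor.conj_mem m hm (i h))
      obtain ⟨u, hu, e⟩ := hMB f hpF _ hm'
      refine ⟨h⁻¹ * u * h, ⟨u, hu, by simp⟩, ?_⟩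
      rw [map_mul, map_mul, map_inv, e]
      group
  obtain ⟨N, hN, hTN⟩ := T10b_fin i M ((Finset.univ : Finset (K ⧸ M)) ×ˢ F)
    (fun p => T10b_T M ((i (hh p.1))⁻¹ * i p.2 * i (hh p.1))) hgood
  obtain ⟨cN, lN, nN, C, kC, sC⟩ := hN
  let G : Set K := {y | ∃ f ∈ F, ∃ k : K, ∃ m ∈ M, y = (k⁻¹ * i f * k)⁻¹ * m⁻¹ * (k⁻¹ * i f * k) * m}
  have hGN : G ⊆ (N : Set K) := by
    rintro _ ⟨f, hf, k, m, hm, rfl⟩
    set q : K ⧸ M := QuotientGroup.mk k with hq
    have h1 : (i (hh q))⁻¹ * k ∈ M := QuotientGroup.eq.1 (hhq q)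
    set m1 := (i (hh q))⁻¹ * k with hm1
    have hk : k = i (hh q) * m1 := by rw [hm1]; group
    set x := (i (hh q))⁻¹ * i f * i (hh q) with hx
    have hm2 : m1 * m * m1⁻¹ ∈ M := hMnor.conj_mem m hm m1
    have h2 : x⁻¹ * (m1 * m * m1⁻¹)⁻¹ * x * (m1 * m * m1⁻¹) ∈ N :=
      hTN (q, f) (Finset.mem_product.2 ⟨Finset.mem_univ _, hf⟩)
        (Subgroup.le_topologicalClosure _ (Subgroup.subset_closure ⟨_, hm2, rfl⟩))
    have h3 := nN m1 h1 _ h2
    have e : (k⁻¹ * i f * k)⁻¹ * m⁻¹ * (k⁻¹ * i f * k) * m =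
        m1⁻¹ * (x⁻¹ * (m1 * m * m1⁻¹)⁻¹ * x * (m1 * m * m1⁻¹)) * m1 := by
      have e1 : k⁻¹ * i f * k = m1⁻¹ * x * m1 := by
        rw [hx, hk]; group
      rw [e1]; group
    rw [e]
    exact h3
  have hconj : Group.conjugatesOfSet G ⊆ G := by
    intro y hy
    rw [Group.mem_conjugatesOfSet_iff] at hy
    obtain ⟨a, ⟨f, hf, k, m, hm, rfl⟩, hc⟩ := hy
    rw [isConj_iff] at hc
    obtain ⟨c, rfl⟩ := hc
    refine ⟨f, hf, k * c⁻¹, c * m * c⁻¹, hMnor.conj_mem m hm c, ?_⟩
    group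
  let T : Subgroup K := (Subgroup.normalClosure G).topologicalClosure
  haveI hTn : T.Normal := Subgroup.is_normal_topologicalClosure _
  have hTle : T ≤ N := by
    refine Subgroup.topologicalClosure_minimal _ ?_ cN.isClosed
    rw [Subgroup.normalClosure, Subgroup.closure_le]
    exact hconj.trans hGN
  have hTcl : IsClosed (T : Set K) := Subgroup.isClosed_topologicalClosure _
  let B : Subgroup H := T.comap i
  haveI hBn : B.Normal := Subgroup.Normal.comap hTn i
  have hBcl : IsClosed (B : Set H) := by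
    rw [Subgroup.coe_comap]; exact hTcl.preimage hi
  have hBC : (B : Set H) ⊆ C := by
    intro y hy
    obtain ⟨z, hz, e⟩ := sC (hTle hy)
    rwa [← hinj e]
  refine ⟨B, hBn, kC.of_isClosed_subset hBcl hBC, ?_⟩
  have hle : M.comap i ≤ (Subgroup.center (H ⧸ B)).comap (QuotientGroup.mk' B) := by
    intro h hh1
    rw [Subgroup.mem_comap, Subgroup.mem_center_iff]
    let Z : Subgroup H := (Subgroup.centralizer {(QuotientGroup.mk' B h)}).comap (QuotientGroup.mk' B)
    have hZmem : ∀ g : H, g ∈ Z ↔ g⁻¹ * h⁻¹ * g * h ∈ B := by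
      intro g
      rw [Subgroup.mem_comap, Subgroup.mem_centralizer_singleton_iff, ← map_mul, ← map_mul,
        QuotientGroup.mk'_apply, QuotientGroup.mk'_apply, eq_comm, QuotientGroup.eq]
      have : (h * g)⁻¹ * (g * h) = g⁻¹ * h⁻¹ * g * h := by group
      rw [this]
    have hZcl : IsClosed (Z : Set H) := by
      have : (Z : Set H) = (fun g => g⁻¹ * h⁻¹ * g * h) ⁻¹' (B : Set H) := by
        ext g
        exact hZmem g
      rw [this]
      exact hBcl.preimage (by fun_prop)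
    have hFZ : (↑F : Set H) ⊆ (Z : Set H) := by
      intro f hf
      rw [SetLike.mem_coe, hZmem]
      show i (f⁻¹ * h⁻¹ * f * h) ∈ T
      refine Subgroup.le_topologicalClosure _ (Subgroup.subset_normalClosure ?_)
      refine ⟨f, hf, 1, i h, hh1, ?_⟩
      simp only [map_mul, map_inv]
      group
    have hZtop : (Z : Set H) = Set.univ := by
      rw [← hZcl.closure_eq]
      refine Set.eq_univ_of_univ_subset ?_
      rw [← hF.closure_eq]
      exact closure_mono ((Subgroup.closure_le Z).2 hFZ)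
    intro g
    obtain ⟨g, rfl⟩ := QuotientGroup.mk'_surjective B g
    have hg : g ∈ Z := by
      have : g ∈ (Z : Set H) := by rw [hZtop]; trivial
      exact this
    rw [Subgroup.mem_comap, Subgroup.mem_centralizer_singleton_iff] at hg
    exact hg
  haveI h1 : (M.comap i).FiniteIndex := by
    refine ⟨?_⟩
    rw [Subgroup.index_comap]
    intro h0
    have hd : M.relIndex i.range ∣ M.index := Subgroup.relIndex_dvd_index_of_normal _ _
    rw [h0, zero_dvd_iff] at hd
    exact hMfi.index_ne_zero hd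
  haveI h2 : ((Subgroup.center (H ⧸ B)).comap (QuotientGroup.mk' B)).FiniteIndex :=
    Subgroup.finiteIndex_of_le hle
  refine ⟨?_⟩
  have h3 := h2.index_ne_zero
  rwa [Subgroup.index_comap_of_surjective _ (QuotientGroup.mk'_surjective B)] at h3

end Pool.LatH472
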