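import Mathlib
import Pool.Agent.Helper472.LatDefs3

set_option autoImplicit false

namespace Pool.LatH472

open Pointwise

section TTL_A
set_option backward.isDefEq.respectTransparency false
open scoped Matrix.Norms.Frobenius
open Matrix

theorem TTL_strict (ι : Type) [Fintype ι] [DecidableEq ι] (ε : ℝ) (hε : 0 < ε) :
    ∃ V ∈ nhds (0 : Matrix ι ι ℂ), ∀ Y ∈ V, ∀ Y' ∈ V,
      ‖NormedSpace.exp Y - NormedSpace.exp Y' - (Y - Y')‖ ≤ ε * ‖Y - Y'‖ := by
  have h : HasStrictFDerivAt (NormedSpace.exp : Matrix ι ι ℂ → Matrix ι ι ℂ)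
    (1 : Matrix ι ι ℂ →L[ℂ] Matrix ι ι ℂ) 0 := hasStrictFDerivAt_exp_zero
  have h2 := h.isLittleO.def hε
  rw [nhds_prod_eq] at h2
  have h3 := (Filter.eventually_prod_self_iff
    (r := fun Y Y' : Matrix ι ι ℂ => ‖NormedSpace.exp Y - NormedSpace.exp Y' - (Y - Y')‖ ≤ ε * ‖Y - Y'‖)).1 h2
  exact h3

theorem TTL_frosq {ι : Type} [Fintype ι] [DecidableEq ι] (A : Matrix ι ι ℂ) :
    ‖A‖ ^ 2 = ∑ i, ∑ j, ‖A i j‖ ^ 2 := by
  rw [Matrix.frobenius_norm_def]
  have h0 : 0 ≤ ∑ i, ∑ j, ‖A i j‖ ^ (2 : ℝ) := by positivity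
  rw [← Real.rpow_natCast, ← Real.rpow_mul h0]
  norm_num

theorem TTL_entry {ι : Type} [Fintype ι] [DecidableEq ι] (A : Matrix ι ι ℂ) (i j : ι) :
    ‖A i j‖ ≤ ‖A‖ := by
  apply (pow_le_pow_iff_left₀ (norm_nonneg _) (norm_nonneg _) two_ne_zero).1
  rw [TTL_frosq]
  calc ‖A i j‖ ^ 2 ≤ ∑ j', ‖A i j'‖ ^ 2 :=
        Finset.single_le_sum (f := fun j' => ‖A i j'‖ ^ 2) (fun _ _ => by positivity) (Finset.mem_univ j)
    _ ≤ ∑ i', ∑ j', ‖A i' j'‖ ^ 2 :=
        Finset.single_le_sum (f := fun i' => ∑ j', ‖A i' j'‖ ^ 2) (fun _ _ => by positivity)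
          (Finset.mem_univ i)

theorem TTL_tr {ι : Type} [Fintype ι] [DecidableEq ι] (A : Matrix ι ι ℂ) :
    |(Matrix.trace A).re| ≤ (Fintype.card ι : ℝ) * ‖A‖ := by
  calc |(Matrix.trace A).re| ≤ ‖Matrix.trace A‖ := Complex.abs_re_le_norm _
    _ ≤ ∑ i, ‖A i i‖ := norm_sum_le _ _
    _ ≤ ∑ i : ι, ‖A‖ := Finset.sum_le_sum (fun i _ => TTL_entry A i i)
    _ = (Fintype.card ι : ℝ) * ‖A‖ := by
        rw [Finset.sum_const, Finset.card_univ, nsmul_eq_mul]

theorem TTL_trsq {ι : Type} [Fintype ι] [DecidableEq ι] (D : Matrix ι ι ℂ) :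
    (Matrix.trace (Dᴴ * D)).re = ‖D‖ ^ 2 := by
  rw [TTL_frosq, Matrix.trace]
  simp only [Matrix.diag_apply, Matrix.mul_apply, Matrix.conjTranspose_apply, Complex.re_sum]
  rw [Finset.sum_comm]
  refine Finset.sum_congr rfl (fun i _ => Finset.sum_congr rfl (fun j _ => ?_))
  rw [← Complex.normSq_eq_norm_sq, Complex.normSq_apply]
  simp [Complex.mul_re]

theorem TTL_rigid (ι : Type) [Fintype ι] [DecidableEq ι] :
    ∃ V ∈ nhds (0 : Matrix ι ι ℂ), ∀ Y ∈ V, ∀ Y' ∈ V, Yᴴ = -Y → Y'ᴴ = -Y' →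
      (Matrix.trace ((Y - Y') * (NormedSpace.exp Y - NormedSpace.exp Y'))).re = 0 → Y = Y' := by
  obtain ⟨V, hV, h⟩ := TTL_strict ι (1 / (2 * ((Fintype.card ι : ℝ) + 1))) (by positivity)
  refine ⟨V, hV, fun Y hY Y' hY' hs hs' htr => ?_⟩
  have h1 := h Y hY Y' hY'
  obtain ⟨D, hD⟩ : ∃ D, D = Y - Y' := ⟨_, rfl⟩
  obtain ⟨R, hR⟩ : ∃ R, R = NormedSpace.exp Y - NormedSpace.exp Y' - D := ⟨_, rfl⟩
  have h2 : NormedSpace.exp Y - NormedSpace.exp Y' = D + R := by rw [hR]; abel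
  have hDs : Dᴴ = -D := by rw [hD, Matrix.conjTranspose_sub, hs, hs']; abel
  rw [← hD, ← hR] at h1
  rw [← hD, h2, Matrix.mul_add, Matrix.trace_add, Complex.add_re] at htr
  have h3 := TTL_trsq D
  rw [hDs, Matrix.neg_mul, Matrix.trace_neg, Complex.neg_re] at h3
  have h4 := TTL_tr (D * R)
  have h5 : ‖D * R‖ ≤ ‖D‖ * ‖R‖ := norm_mul_le _ _
  have h6 : (Matrix.trace (D * R)).re = ‖D‖ ^ 2 := by linarith
  rw [h6, abs_of_nonneg (by positivity)] at h4
  have hn : (0 : ℝ) ≤ (Fintype.card ι : ℝ) := by positivity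
  have h7 : ‖D‖ ^ 2 ≤ (Fintype.card ι : ℝ) * (‖D‖ * (1 / (2 * ((Fintype.card ι : ℝ) + 1)) * ‖D‖)) := by
    refine h4.trans (mul_le_mul_of_nonneg_left (h5.trans ?_) hn)
    exact mul_le_mul_of_nonneg_left h1 (norm_nonneg _)
  have h8 : (Fintype.card ι : ℝ) * (‖D‖ * (1 / (2 * ((Fintype.card ι : ℝ) + 1)) * ‖D‖))
      = ((Fintype.card ι : ℝ) / (2 * ((Fintype.card ι : ℝ) + 1))) * ‖D‖ ^ 2 := by
    field_simp
  have h9 : (Fintype.card ι : ℝ) / (2 * ((Fintype.card ι : ℝ) + 1)) ≤ 1 / 2 := by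
    rw [div_le_div_iff₀ (by positivity) (by norm_num)]
    linarith
  rw [h8] at h7
  have h10 : ‖D‖ ^ 2 ≤ 1 / 2 * ‖D‖ ^ 2 :=
    h7.trans (mul_le_mul_of_nonneg_right h9 (by positivity))
  have h11 : ‖D‖ = 0 := by
    have : ‖D‖ ^ 2 ≤ 0 := by linarith
    have := le_antisymm this (by positivity)
    exact pow_eq_zero_iff (two_ne_zero) |>.1 this
  have h12 : D = 0 := norm_eq_zero.1 h11
  rw [hD] at h12
  exact sub_eq_zero.1 h12


theorem TTL_close1 {ι : Type} [Fintype ι] [DecidableEq ι] (u : Matrix.unitaryGroup ι ℂ) :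
    ‖(u : Matrix ι ι ℂ) - 1‖ ^ 2 = 2 * ((Fintype.card ι : ℝ) - (Matrix.trace (u : Matrix ι ι ℂ)).re) := by
  rw [← TTL_trsq]
  have h1 : (u : Matrix ι ι ℂ)ᴴ * (u : Matrix ι ι ℂ) = 1 := by
    have := (Matrix.mem_unitaryGroup_iff'.1 u.2)
    exact this
  rw [Matrix.conjTranspose_sub, Matrix.conjTranspose_one, sub_mul, mul_sub, mul_sub, h1, mul_one,
    one_mul, one_mul, Matrix.trace_sub, Matrix.trace_sub, Matrix.trace_sub, Matrix.trace_one,
    Matrix.trace_conjTranspose]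
  simp only [Complex.sub_re, Complex.natCast_re, Complex.star_def, Complex.conj_re]
  ring

theorem TTL_nonneg {ι : Type} [Fintype ι] [DecidableEq ι] (u : Matrix.unitaryGroup ι ℂ) :
    0 ≤ (Fintype.card ι : ℝ) - (Matrix.trace (u : Matrix ι ι ℂ)).re := by
  have := TTL_close1 u
  have h : 0 ≤ ‖(u : Matrix ι ι ℂ) - 1‖ ^ 2 := by positivity
  linarith

theorem TTL_close {ι : Type} [Fintype ι] [DecidableEq ι] (O : Set (Matrix.unitaryGroup ι ℂ))
    (hO : O ∈ nhds (1 : Matrix.unitaryGroup ι ℂ)) :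
    ∃ ε : ℝ, 0 < ε ∧ ∀ u : Matrix.unitaryGroup ι ℂ,
      (Fintype.card ι : ℝ) - (Matrix.trace (u : Matrix ι ι ℂ)).re < ε → u ∈ O := by
  rw [nhds_subtype_eq_comap, Filter.mem_comap] at hO
  obtain ⟨O', hO', hsub⟩ := hO
  obtain ⟨r, hr, hball⟩ := Metric.mem_nhds_iff.1 hO'
  refine ⟨r ^ 2 / 2, by positivity, fun u hu => hsub ?_⟩
  apply hball
  rw [Metric.mem_ball, dist_eq_norm]
  have h1 := TTL_close1 u
  have h2 : ‖(u : Matrix ι ι ℂ) - 1‖ ^ 2 < r ^ 2 := by linarith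
  exact (pow_lt_pow_iff_left₀ (norm_nonneg _) hr.le two_ne_zero).1 h2

theorem TTL_compact {ι : Type} [Fintype ι] [DecidableEq ι] :
    CompactSpace (Matrix.unitaryGroup ι ℂ) := by
  have h1 : IsClosed ({A : Matrix ι ι ℂ | Aᴴ * A = 1}) :=
    isClosed_eq (by fun_prop) continuous_const
  have h2 : ((Matrix.unitaryGroup ι ℂ : Submonoid (Matrix ι ι ℂ)) : Set (Matrix ι ι ℂ))
      = {A : Matrix ι ι ℂ | Aᴴ * A = 1} := by
    ext A
    exact Matrix.mem_unitaryGroup_iff'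
  have h3 : Bornology.IsBounded ({A : Matrix ι ι ℂ | Aᴴ * A = 1}) := by
    rw [isBounded_iff_forall_norm_le]
    refine ⟨(Fintype.card ι : ℝ) + 1, fun A hA => ?_⟩
    have hA' : Aᴴ * A = 1 := hA
    have h4 := TTL_trsq A
    rw [hA', Matrix.trace_one] at h4
    simp only [Complex.natCast_re] at h4
    have hn : (0 : ℝ) ≤ (Fintype.card ι : ℝ) := by positivity
    nlinarith [norm_nonneg A]
  haveI : ProperSpace (Matrix ι ι ℂ) := FiniteDimensional.proper ℂ _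
  have h4 : IsCompact ({A : Matrix ι ι ℂ | Aᴴ * A = 1}) :=
    Metric.isCompact_of_isClosed_isBounded h1 h3
  rw [← h2] at h4
  exact isCompact_iff_compactSpace.1 h4


theorem TTL_deriv {ι : Type} [Fintype ι] [DecidableEq ι] (A B Z : Matrix ι ι ℂ) :
    HasDerivAt (fun t : ℝ => (Matrix.trace (A * NormedSpace.exp (t • Z) * B)).re)
      (Matrix.trace (A * Z * B)).re 0 := by
  have h1 : HasDerivAt (fun t : ℝ => NormedSpace.exp (t • Z))
      (NormedSpace.exp ((0 : ℝ) • Z) * Z) 0 := hasDerivAt_exp_smul_const Z (0 : ℝ)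
  rw [zero_smul, NormedSpace.exp_zero, one_mul] at h1
  have h2 := (h1.const_mul A).mul_const B
  let T : Matrix ι ι ℂ →L[ℝ] ℝ :=
    LinearMap.toContinuousLinearMap (Complex.reLm.comp (Matrix.traceLinearMap ι ℝ ℂ))
  have h3 := T.hasFDerivAt.comp_hasDerivAt (0 : ℝ) h2
  exact h3

end TTL_A

section TTL_C

/-- recursive product -/
def TTL_P {G : Type} [Monoid G] : ℕ → (ℕ → G) → G
  | 0, _ => 1
  | (N + 1), u => TTL_P N u * u N

theorem TTL_P_succ {G : Type} [Monoid G] (N : ℕ) (u : ℕ → G) :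
    TTL_P (N + 1) u = TTL_P N u * u N := rfl

theorem TTL_P_congr {G : Type} [Monoid G] (N : ℕ) (u v : ℕ → G) (h : ∀ j < N, u j = v j) :
    TTL_P N u = TTL_P N v := by
  induction N with
  | zero => rfl
  | succ N ih =>
    rw [TTL_P_succ, TTL_P_succ, ih (fun j hj => h j (Nat.lt_succ_of_lt hj)), h N (Nat.lt_succ_self N)]

theorem TTL_P_const {G : Type} [Monoid G] (N : ℕ) (a : G) : TTL_P N (fun _ => a) = a ^ N := by
  induction N with
  | zero => simp [TTL_P]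
  | succ N ih => rw [TTL_P_succ, ih, pow_succ]

theorem TTL_P_append {G : Type} [Monoid G] (N M : ℕ) (u v : ℕ → G) :
    TTL_P (N + M) (fun j => if j < N then u j else v (j - N)) = TTL_P N u * TTL_P M v := by
  induction M with
  | zero =>
    rw [Nat.add_zero]
    show _ = TTL_P N u * 1
    rw [mul_one]
    exact TTL_P_congr N _ _ (fun j hj => by simp [hj])
  | succ M ih =>
    rw [← Nat.add_assoc, TTL_P_succ, TTL_P_succ, ih, ← mul_assoc]
    congr 1
    simp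

/-- modification of two adjacent entries -/
def TTL_mod {G : Type} [Group G] (u : ℕ → G) (j : ℕ) (e : G) : ℕ → G :=
  fun i => if i = j then u j * e else if i = j + 1 then e⁻¹ * u (j + 1) else u i

theorem TTL_mod_lt {G : Type} [Group G] (u : ℕ → G) (j : ℕ) (e : G) (i : ℕ) (h : i < j) :
    TTL_mod u j e i = u i := by
  unfold TTL_mod
  rw [if_neg (by omega), if_neg (by omega)]

theorem TTL_mod_gt {G : Type} [Group G] (u : ℕ → G) (j : ℕ) (e : G) (i : ℕ) (h : j + 1 < i) :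
    TTL_mod u j e i = u i := by
  unfold TTL_mod
  rw [if_neg (by omega), if_neg (by omega)]

theorem TTL_mod_a {G : Type} [Group G] (u : ℕ → G) (j : ℕ) (e : G) :
    TTL_mod u j e j = u j * e := by
  unfold TTL_mod
  rw [if_pos rfl]

theorem TTL_mod_b {G : Type} [Group G] (u : ℕ → G) (j : ℕ) (e : G) :
    TTL_mod u j e (j + 1) = e⁻¹ * u (j + 1) := by
  unfold TTL_mod
  rw [if_neg (by omega), if_pos rfl]

theorem TTL_P_mod {G : Type} [Group G] (N : ℕ) (u : ℕ → G) (j : ℕ) (hj : j + 2 ≤ N) (e : G) :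
    TTL_P N (TTL_mod u j e) = TTL_P N u := by
  induction N, hj using Nat.le_induction with
  | base =>
    rw [TTL_P_succ, TTL_P_succ, TTL_P_succ, TTL_P_succ, TTL_mod_a, TTL_mod_b,
      TTL_P_congr j (TTL_mod u j e) u (fun i hi => TTL_mod_lt u j e i hi)]
    group
  | succ N hN ih =>
    rw [TTL_P_succ, TTL_P_succ, ih, TTL_mod_gt u j e N (by omega)]

theorem TTL_sum_mod {G : Type} [Group G] (E : G → ℝ) (N : ℕ) (u : ℕ → G) (j : ℕ)
    (hj : j + 2 ≤ N) (e : G) :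
    ∑ i ∈ Finset.range N, E (TTL_mod u j e i) = ∑ i ∈ Finset.range N, E (u i)
      - E (u j) - E (u (j + 1)) + E (u j * e) + E (e⁻¹ * u (j + 1)) := by
  induction N, hj using Nat.le_induction with
  | base =>
    rw [Finset.sum_range_succ, Finset.sum_range_succ, Finset.sum_range_succ, Finset.sum_range_succ,
      TTL_mod_a, TTL_mod_b,
      Finset.sum_congr rfl (fun i hi => by rw [TTL_mod_lt u j e i (Finset.mem_range.1 hi)])]
    ring
  | succ N hN ih =>
    rw [Finset.sum_range_succ, Finset.sum_range_succ, ih, TTL_mod_gt u j e N (by omega)]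
    ring

theorem TTL_P_cont {G : Type} [Monoid G] [TopologicalSpace G] [ContinuousMul G] (N : ℕ) :
    Continuous (fun u : ℕ → G => TTL_P N u) := by
  induction N with
  | zero => exact continuous_const
  | succ N ih => exact ih.mul (continuous_apply N)

theorem TTL_minimiser {G : Type} [Group G] [TopologicalSpace G] [IsTopologicalGroup G]
    [CompactSpace G] [T2Space G] (L : Subgroup G) (hL : IsClosed (L : Set G)) (E : G → ℝ)
    (hE : Continuous E) (c : G) (N : ℕ) (u0 : ℕ → G) (h0 : ∀ j, u0 j ∈ L) (hc : TTL_P N u0 = c) :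
    ∃ u : ℕ → G, (∀ j, u j ∈ L) ∧ TTL_P N u = c ∧
      ∀ v : ℕ → G, (∀ j, v j ∈ L) → TTL_P N v = c →
        ∑ i ∈ Finset.range N, E (u i) ≤ ∑ i ∈ Finset.range N, E (v i) := by
  have hcl : IsClosed {u : ℕ → G | (∀ j, u j ∈ L) ∧ TTL_P N u = c} := by
    have h1 : IsClosed {u : ℕ → G | ∀ j, u j ∈ L} := by
      rw [Set.setOf_forall]
      exact isClosed_iInter (fun j => hL.preimage (continuous_apply j))
    exact h1.inter (isClosed_eq (TTL_P_cont N) continuous_const)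
  have hcomp := hcl.isCompact
  have hcont : Continuous (fun u : ℕ → G => ∑ i ∈ Finset.range N, E (u i)) :=
    continuous_finset_sum _ (fun i _ => hE.comp (continuous_apply i))
  obtain ⟨u, hu, hmin⟩ := hcomp.exists_isMinOn ⟨u0, h0, hc⟩ hcont.continuousOn
  exact ⟨u, hu.1, hu.2, fun v hv hvc => hmin ⟨hv, hvc⟩⟩

end TTL_C

section TTL_D
open Matrix

theorem TTL_trskew {ι : Type} [Fintype ι] [DecidableEq ι] (X : Matrix ι ι ℂ) (hX : Xᴴ = -X) :
    (Matrix.trace X).re = 0 := by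
  have h := congrArg (fun A => (Matrix.trace A).re) hX
  simp only [Matrix.trace_conjTranspose, Matrix.trace_neg, Complex.neg_re, Complex.star_def,
    Complex.conj_re] at h
  linarith

theorem TTL_small {ι : Type} [Fintype ι] [DecidableEq ι] (X : Matrix ι ι ℂ) (hX : Xᴴ = -X)
    (ε : ℝ) (hε : 0 < ε) : ∃ δ : ℝ, 0 < δ ∧ ∀ t : ℝ, |t| < δ →
      |(Fintype.card ι : ℝ) - (Matrix.trace (NormedSpace.exp (t • X))).re| ≤ ε * |t| := by
  have h := TTL_deriv (1 : Matrix ι ι ℂ) 1 X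
  simp only [one_mul, mul_one] at h
  rw [TTL_trskew X hX] at h
  have h1 := (hasDerivAt_iff_isLittleO.1 h).def hε
  rw [Metric.eventually_nhds_iff] at h1
  obtain ⟨δ, hδ, h2⟩ := h1
  refine ⟨δ, hδ, fun t ht => ?_⟩
  have h3 := h2 (y := t) (by rw [Real.dist_eq, sub_zero]; exact ht)
  simp only [zero_smul, NormedSpace.exp_zero, Matrix.trace_one, Complex.natCast_re, sub_zero,
    smul_zero, Real.norm_eq_abs] at h3
  rw [abs_sub_comm]
  exact h3

theorem TTL_first {ι : Type} [Fintype ι] [DecidableEq ι] (u v Z : Matrix ι ι ℂ)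
    (h : ∀ t : ℝ, (Matrix.trace (u * NormedSpace.exp (t • Z))).re
      + (Matrix.trace (NormedSpace.exp (t • (-Z)) * v)).re
      ≤ (Matrix.trace u).re + (Matrix.trace v).re) :
    (Matrix.trace (Z * (u - v))).re = 0 := by
  have h1 := TTL_deriv u 1 Z
  have h2 := TTL_deriv 1 v (-Z)
  simp only [one_mul, mul_one] at h1 h2
  have h3 := h1.add h2
  have h4 : IsLocalMax ((fun t : ℝ => (Matrix.trace (u * NormedSpace.exp (t • Z))).re)
      + fun t : ℝ => (Matrix.trace (NormedSpace.exp (t • (-Z)) * v)).re) 0 := by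
    refine Filter.Eventually.of_forall (fun t => ?_)
    have h5 := h t
    simp only [Pi.add_apply, zero_smul, NormedSpace.exp_zero, mul_one, one_mul]
    exact h5
  have h6 := h4.hasDerivAt_eq_zero h3
  rw [Matrix.mul_sub, Matrix.trace_sub, Complex.sub_re]
  rw [Matrix.trace_mul_comm u Z] at h6
  rw [Matrix.neg_mul, Matrix.trace_neg, Complex.neg_re] at h6
  linarith

/-- small energy decompositions -/
def TTL_Good {ι : Type} [Fintype ι] [DecidableEq ι] (L : Subgroup (Matrix.unitaryGroup ι ℂ))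
    (c : Matrix.unitaryGroup ι ℂ) : Prop :=
  ∀ ε : ℝ, 0 < ε → ∃ (N : ℕ) (u : ℕ → Matrix.unitaryGroup ι ℂ), (∀ j, u j ∈ L) ∧ TTL_P N u = c ∧
    ∑ i ∈ Finset.range N,
      ((Fintype.card ι : ℝ) - (Matrix.trace ((u i : Matrix.unitaryGroup ι ℂ) : Matrix ι ι ℂ)).re) < ε

theorem TTL_Good_one {ι : Type} [Fintype ι] [DecidableEq ι]
    (L : Subgroup (Matrix.unitaryGroup ι ℂ)) : TTL_Good L 1 := by
  intro ε hε
  refine ⟨0, fun _ => 1, fun _ => L.one_mem, rfl, ?_⟩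
  simpa using hε

theorem TTL_Good_mul {ι : Type} [Fintype ι] [DecidableEq ι]
    (L : Subgroup (Matrix.unitaryGroup ι ℂ)) (a b : Matrix.unitaryGroup ι ℂ)
    (ha : TTL_Good L a) (hb : TTL_Good L b) : TTL_Good L (a * b) := by
  intro ε hε
  obtain ⟨N, u, hu, hP, hG⟩ := ha (ε / 2) (by linarith)
  obtain ⟨M, v, hv, hP', hG'⟩ := hb (ε / 2) (by linarith)
  refine ⟨N + M, fun j => if j < N then u j else v (j - N), ?_, ?_, ?_⟩
  · intro j
    by_cases h : j < N
    · simp only [h, if_true]; exact hu j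
    · simp only [h, if_false]; exact hv _
  · rw [TTL_P_append, hP, hP']
  · rw [Finset.sum_range_add]
    have e1 : ∑ x ∈ Finset.range N, ((Fintype.card ι : ℝ) - (Matrix.trace
        (((if x < N then u x else v (x - N) : Matrix.unitaryGroup ι ℂ)) : Matrix ι ι ℂ)).re)
        = ∑ x ∈ Finset.range N, ((Fintype.card ι : ℝ) - (Matrix.trace
        (((u x : Matrix.unitaryGroup ι ℂ)) : Matrix ι ι ℂ)).re) := by
      refine Finset.sum_congr rfl (fun x hx => ?_)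
      rw [if_pos (Finset.mem_range.1 hx)]
    have e2 : ∑ x ∈ Finset.range M, ((Fintype.card ι : ℝ) - (Matrix.trace
        (((if N + x < N then u (N + x) else v (N + x - N) : Matrix.unitaryGroup ι ℂ)) :
          Matrix ι ι ℂ)).re)
        = ∑ x ∈ Finset.range M, ((Fintype.card ι : ℝ) - (Matrix.trace
        (((v x : Matrix.unitaryGroup ι ℂ)) : Matrix ι ι ℂ)).re) := by
      refine Finset.sum_congr rfl (fun x hx => ?_)
      rw [if_neg (by omega), Nat.add_sub_cancel_left]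
    rw [e1, e2]
    linarith

theorem TTL_Good_exp {ι : Type} [Fintype ι] [DecidableEq ι]
    (L : Subgroup (Matrix.unitaryGroup ι ℂ)) (X : Matrix ι ι ℂ) (hX : X ∈ LieAlg L)
    (w : Matrix.unitaryGroup ι ℂ) (hw : (w : Matrix ι ι ℂ) = NormedSpace.exp X) :
    TTL_Good L w := by
  intro ε hε
  obtain ⟨δ, hδ, h⟩ := TTL_small X hX.1 (ε / 2) (by linarith)
  obtain ⟨k, hk⟩ := exists_nat_one_div_lt hδ
  have hkpos : (0 : ℝ) < (k : ℝ) + 1 := by positivity
  have htpos : (0 : ℝ) < 1 / ((k : ℝ) + 1) := by positivity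
  obtain ⟨u, hu, hue⟩ := hX.2 (1 / ((k : ℝ) + 1))
  refine ⟨k + 1, fun _ => u, fun _ => hu, ?_, ?_⟩
  · rw [TTL_P_const]
    apply Subtype.ext
    rw [hw]
    have h1 : ((u ^ (k + 1) : Matrix.unitaryGroup ι ℂ) : Matrix ι ι ℂ)
        = (u : Matrix ι ι ℂ) ^ (k + 1) := by
      rw [SubmonoidClass.coe_pow]
    rw [h1, hue, ← Matrix.exp_nsmul]
    congr 1
    rw [← Nat.cast_smul_eq_nsmul ℝ, smul_smul]
    rw [show ((k + 1 : ℕ) : ℝ) * (1 / ((k : ℝ) + 1)) = 1 by push_cast; field_simp]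
    rw [one_smul]
  · rw [Finset.sum_const, Finset.card_range, nsmul_eq_mul, hue]
    have h2 := h (1 / ((k : ℝ) + 1)) (by rw [abs_of_pos htpos]; exact hk)
    have h3 := (le_abs_self _).trans h2
    rw [abs_of_pos htpos] at h3
    have h4 : ((k + 1 : ℕ) : ℝ) * ((Fintype.card ι : ℝ) -
        (Matrix.trace (NormedSpace.exp ((1 / ((k : ℝ) + 1)) • X))).re)
        ≤ ((k + 1 : ℕ) : ℝ) * (ε / 2 * (1 / ((k : ℝ) + 1))) :=
      mul_le_mul_of_nonneg_left h3 (by positivity)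
    have h5 : ((k + 1 : ℕ) : ℝ) * (ε / 2 * (1 / ((k : ℝ) + 1))) = ε / 2 := by
      push_cast
      field_simp
    rw [h5] at h4
    linarith

theorem TTL_neg_mem {ι : Type} [Fintype ι] [DecidableEq ι]
    (L : Subgroup (Matrix.unitaryGroup ι ℂ)) (X : Matrix ι ι ℂ) (hX : X ∈ LieAlg L) :
    -X ∈ LieAlg L := by
  refine ⟨by rw [Matrix.conjTranspose_neg, hX.1], fun t => ?_⟩
  obtain ⟨u, hu, hue⟩ := hX.2 (-t)
  refine ⟨u, hu, ?_⟩
  rw [hue, smul_neg, neg_smul]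

theorem TTL_inv_val {ι : Type} [Fintype ι] [DecidableEq ι] (X : Matrix ι ι ℂ) (hX : Xᴴ = -X)
    (u : Matrix.unitaryGroup ι ℂ) (hu : (u : Matrix ι ι ℂ) = NormedSpace.exp X) :
    ((u⁻¹ : Matrix.unitaryGroup ι ℂ) : Matrix ι ι ℂ) = NormedSpace.exp (-X) := by
  rw [Matrix.UnitaryGroup.inv_val, Matrix.star_eq_conjTranspose, hu, ← Matrix.exp_conjTranspose, hX]

theorem TTL_good {ι : Type} [Fintype ι] [DecidableEq ι]
    (L : Subgroup (Matrix.unitaryGroup ι ℂ)) (hconn : IsConnected (L : Set (Matrix.unitaryGroup ι ℂ)))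
    (O : Set (Matrix.unitaryGroup ι ℂ)) (hO : O ∈ nhds (1 : Matrix.unitaryGroup ι ℂ))
    (h2 : ∀ u ∈ L, u ∈ O → ∃ X ∈ LieAlg L, NormedSpace.exp X = (u : Matrix ι ι ℂ)) :
    ∀ c ∈ L, TTL_Good L c := by
  intro c hc
  obtain ⟨T, hT⟩ : ∃ T : Set ↥L, ∀ w : ↥L, w ∈ T ↔
      ∃ X ∈ LieAlg L, NormedSpace.exp X = ((w : Matrix.unitaryGroup ι ℂ) : Matrix ι ι ℂ) :=
    ⟨{w : ↥L | ∃ X ∈ LieAlg L, NormedSpace.exp X =
      ((w : Matrix.unitaryGroup ι ℂ) : Matrix ι ι ℂ)}, fun w => Iff.rfl⟩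
  have hopen : IsOpen ((Subgroup.closure T : Subgroup ↥L) : Set ↥L) := by
    apply Subgroup.isOpen_of_mem_nhds (g := 1)
    have h3 : (fun w : ↥L => (w : Matrix.unitaryGroup ι ℂ)) ⁻¹' O ∈ nhds (1 : ↥L) :=
      continuous_subtype_val.continuousAt.preimage_mem_nhds hO
    refine Filter.mem_of_superset h3 (fun w hw => ?_)
    apply Subgroup.subset_closure
    rw [hT]
    exact h2 w w.2 hw
  have hclosed : IsClosed ((Subgroup.closure T : Subgroup ↥L) : Set ↥L) :=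
    Subgroup.isClosed_of_isOpen _ hopen
  haveI : PreconnectedSpace ↥L := Subtype.preconnectedSpace hconn.isPreconnected
  have huniv := IsClopen.eq_univ ⟨hclosed, hopen⟩ ⟨1, Subgroup.one_mem _⟩
  have hmem : (⟨c, hc⟩ : ↥L) ∈ (Subgroup.closure T).toSubmonoid := by
    have : (⟨c, hc⟩ : ↥L) ∈ ((Subgroup.closure T : Subgroup ↥L) : Set ↥L) := by
      rw [huniv]; trivial
    exact this
  rw [Subgroup.closure_toSubmonoid] at hmem
  refine Submonoid.closure_induction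
    (motive := fun (w : ↥L) _ => TTL_Good L (w : Matrix.unitaryGroup ι ℂ)) ?_ ?_ ?_ hmem
  · intro w hw
    rcases hw with hw | hw
    · obtain ⟨X, hX, hXe⟩ := (hT w).1 hw
      exact TTL_Good_exp L X hX w hXe.symm
    · obtain ⟨X, hX, hXe⟩ := (hT w⁻¹).1 hw
      refine TTL_Good_exp L (-X) (TTL_neg_mem L X hX) w ?_
      have h4 := TTL_inv_val X hX.1 ((w⁻¹ : ↥L) : Matrix.unitaryGroup ι ℂ) hXe.symm
      rw [← h4]
      simp
  · exact TTL_Good_one L
  · intro x y _ _ hx hy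
    exact TTL_Good_mul L x y hx hy

theorem TTL_main {ι : Type} [Fintype ι] [DecidableEq ι]
    (L : Subgroup (Matrix.unitaryGroup ι ℂ)) (hL : IsClosed (L : Set (Matrix.unitaryGroup ι ℂ)))
    (hconn : IsConnected (L : Set (Matrix.unitaryGroup ι ℂ)))
    (h1 : ∀ X ∈ LieAlg L, ∀ Y ∈ LieAlg L, X + Y ∈ LieAlg L ∧ X - Y ∈ LieAlg L)
    (h2 : ∀ V ∈ nhds (0 : Matrix ι ι ℂ), ∃ O ∈ nhds (1 : Matrix.unitaryGroup ι ℂ), ∀ u ∈ L, u ∈ O →
      ∃ X ∈ LieAlg L, X ∈ V ∧ NormedSpace.exp X = (u : Matrix ι ι ℂ)) :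
    ∀ c ∈ L, ∃ X ∈ LieAlg L, NormedSpace.exp X = (c : Matrix ι ι ℂ) := by
  intro c hc
  obtain ⟨V, hV, hrig⟩ := TTL_rigid ι
  obtain ⟨O, hO, hOV⟩ := h2 V hV
  obtain ⟨ε, hε, hclose⟩ := TTL_close O hO
  have hgood := TTL_good L hconn O hO (fun u hu huO => by
    obtain ⟨X, hX, -, hXe⟩ := hOV u hu huO
    exact ⟨X, hX, hXe⟩) c hc
  obtain ⟨N, u0, hu0, hP0, hG0⟩ := hgood ε hε
  haveI : CompactSpace (Matrix.unitaryGroup ι ℂ) := TTL_compact
  have hEcont : Continuous (fun u : Matrix.unitaryGroup ι ℂ =>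
      (Fintype.card ι : ℝ) - (Matrix.trace (u : Matrix ι ι ℂ)).re) := by
    refine continuous_const.sub (Complex.continuous_re.comp ?_)
    exact (Continuous.matrix_trace continuous_id).comp continuous_subtype_val
  obtain ⟨u, hu, hP, hmin⟩ := TTL_minimiser L hL (fun u : Matrix.unitaryGroup ι ℂ =>
      (Fintype.card ι : ℝ) - (Matrix.trace (u : Matrix ι ι ℂ)).re) hEcont c N u0 hu0 hP0
  have hsmall := lt_of_le_of_lt (hmin u0 hu0 hP0) hG0
  have hY : ∀ j < N, ∃ X ∈ LieAlg L, X ∈ V ∧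
      NormedSpace.exp X = ((u j : Matrix.unitaryGroup ι ℂ) : Matrix ι ι ℂ) := by
    intro j hj
    apply hOV (u j) (hu j)
    apply hclose
    refine lt_of_le_of_lt ?_ hsmall
    exact Finset.single_le_sum (f := fun i => (Fintype.card ι : ℝ) -
      (Matrix.trace ((u i : Matrix.unitaryGroup ι ℂ) : Matrix ι ι ℂ)).re)
      (fun i _ => TTL_nonneg (u i)) (Finset.mem_range.2 hj)
  have hadj : ∀ j, j + 2 ≤ N → u (j + 1) = u j := by
    intro j hj
    obtain ⟨Y, hYL, hYV, hYe⟩ := hY j (by omega)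
    obtain ⟨Y', hYL', hYV', hYe'⟩ := hY (j + 1) (by omega)
    have hZ : Y - Y' ∈ LieAlg L := (h1 Y hYL Y' hYL').2
    have hfo := TTL_first ((u j : Matrix.unitaryGroup ι ℂ) : Matrix ι ι ℂ)
      ((u (j + 1) : Matrix.unitaryGroup ι ℂ) : Matrix ι ι ℂ) (Y - Y') (by
        intro t
        obtain ⟨e, he, hee⟩ := hZ.2 t
        have hskew : (t • (Y - Y'))ᴴ = -(t • (Y - Y')) := by
          rw [Matrix.conjTranspose_smul, hZ.1, smul_neg]
          simp
        have hinv := TTL_inv_val (t • (Y - Y')) hskew e hee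
        have h5 := hmin (TTL_mod u j e) (by
          intro i
          unfold TTL_mod
          split_ifs
          · exact L.mul_mem (hu j) he
          · exact L.mul_mem (L.inv_mem he) (hu _)
          · exact hu i) (by rw [TTL_P_mod N u j hj e]; exact hP)
        rw [TTL_sum_mod (fun u : Matrix.unitaryGroup ι ℂ =>
          (Fintype.card ι : ℝ) - (Matrix.trace (u : Matrix ι ι ℂ)).re) N u j hj e] at h5
        have h6 : ((u j * e : Matrix.unitaryGroup ι ℂ) : Matrix ι ι ℂ)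
            = (u j : Matrix ι ι ℂ) * NormedSpace.exp (t • (Y - Y')) := by
          rw [← hee]; rfl
        have h7 : ((e⁻¹ * u (j + 1) : Matrix.unitaryGroup ι ℂ) : Matrix ι ι ℂ)
            = NormedSpace.exp (t • (-(Y - Y'))) * (u (j + 1) : Matrix ι ι ℂ) := by
          rw [smul_neg, ← hinv]; rfl
        rw [h6, h7] at h5
        linarith)
    rw [← hYe, ← hYe'] at hfo
    have heq := hrig Y hYV Y' hYV' hYL.1 hYL'.1 hfo
    apply Subtype.ext
    rw [← hYe, ← hYe', heq]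
  have hall : ∀ j, j < N → u j = u 0 := by
    intro j
    induction j with
    | zero => intro _; rfl
    | succ j ih =>
      intro hj
      rw [hadj j (by omega), ih (by omega)]
  have hpow : c = (u 0) ^ N := by
    rw [← hP, TTL_P_congr N u (fun _ => u 0) hall, TTL_P_const]
  rcases Nat.eq_zero_or_pos N with h0 | hpos
  · refine ⟨0, ⟨by simp, fun t => ⟨1, L.one_mem, by simp⟩⟩, ?_⟩
    rw [hpow, h0, pow_zero]
    simp
  · obtain ⟨Y, hYL, -, hYe⟩ := hY 0 hpos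
    refine ⟨N • Y, ⟨?_, fun t => ?_⟩, ?_⟩
    · rw [Matrix.conjTranspose_nsmul, hYL.1, smul_neg]
    · obtain ⟨w, hw, hwe⟩ := hYL.2 (t * N)
      refine ⟨w, hw, ?_⟩
      rw [hwe]
      congr 1
      rw [← Nat.cast_smul_eq_nsmul ℝ, smul_smul]
    · rw [Matrix.exp_nsmul, hYe, hpow, SubmonoidClass.coe_pow]

end TTL_D

theorem TTL (h1 : StCST1) (h2 : StCST2) : StTTL := by
  intro ι _ _ L hL hconn c hc
  exact TTL_main L hL hconn (h1 ι L hL) (h2 ι L hL) c hc

end Pool.LatH472
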