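import Mathlib

set_option autoImplicit false

namespace Pool.Agent.Helper472.Sp

/-- hidden letters -/
inductive Lt
  | I : Lt
  | E : Lt
  | D : Bool → Lt

open Lt

/-- underlying word: true is a monomer, false is a dimer -/
def pr : List Lt → List Bool
  | [] => []
  | I :: h => true :: pr h
  | E :: h => true :: true :: pr h
  | D false :: h => false :: pr h
  | D true :: h => true :: false :: pr h

def cI : List Lt → ℕ
  | [] => 0
  | I :: h => cI h + 1
  | E :: h => cI h
  | D _ :: h => cI h

def cE : List Lt → ℕ
  | [] => 0
  | I :: h => cE h
  | E :: h => cE h + 1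
  | D _ :: h => cE h

def cO : List Lt → ℕ
  | [] => 0
  | I :: h => cO h
  | E :: h => cO h
  | D false :: h => cO h
  | D true :: h => cO h + 1

def cD : List Lt → ℕ
  | [] => 0
  | I :: h => cD h
  | E :: h => cD h
  | D _ :: h => cD h + 1

/-- flag of the first D-type letter -/
def fl : List Lt → Bool
  | [] => false
  | I :: h => fl h
  | E :: h => fl h
  | D b :: _ => b

/-- clear the flag of the first D-type letter -/
def flp : List Lt → List Lt
  | [] => []
  | I :: h => I :: flp h
  | E :: h => E :: flp h
  | D _ :: h => D false :: h

inductive good : List Lt → Prop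
  | single (b : Bool) : good [D b]
  | cons (a : Lt) (h : List Lt) : good h → good (a :: h)

noncomputable def W : ℕ → (List Bool → ℝ) → ℝ
  | 0, φ => φ []
  | 1, φ => φ [true]
  | n + 2, φ => W (n + 1) (fun w => φ (true :: w)) + W n (fun w => φ (false :: w))

noncomputable def H : ℕ → (List Lt → ℝ) → ℝ
  | 0, F => F [D false]
  | 1, F => F [I, D false] + F [D true]
  | 2, F => H 1 (fun h => F (I :: h)) + H 0 (fun h => F (E :: h)) + H 0 (fun h => F (D false :: h))
  | n + 3, F => H (n + 2) (fun h => F (I :: h)) + H (n + 1) (fun h => F (E :: h))
      + H (n + 1) (fun h => F (D false :: h)) + H n (fun h => F (D true :: h))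

theorem H_congr : ∀ (n : ℕ) (F G : List Lt → ℝ), (∀ l, good l → F l = G l) → H n F = H n G
  | 0, F, G, h => by
      simp only [H]; exact h _ (good.single _)
  | 1, F, G, h => by
      simp only [H]
      rw [h _ (good.single _), h _ (good.cons _ _ (good.single _))]
  | 2, F, G, h => by
      simp only [H]
      rw [h _ (good.cons _ _ (good.cons _ _ (good.single _))), h _ (good.cons _ _ (good.single _)),
        h _ (good.cons _ _ (good.single _)), h _ (good.cons _ _ (good.single _))]
  | n + 3, F, G, h => by
      simp only [H]
      rw [H_congr (n + 2) _ _ (fun l hl => h _ (good.cons _ _ hl)),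
        H_congr (n + 1) _ _ (fun l hl => h _ (good.cons E _ hl)),
        H_congr (n + 1) _ _ (fun l hl => h _ (good.cons (D false) _ hl)),
        H_congr n _ _ (fun l hl => h _ (good.cons _ _ hl))]

theorem H_mono : ∀ (n : ℕ) (F G : List Lt → ℝ), (∀ l, good l → F l ≤ G l) → H n F ≤ H n G
  | 0, F, G, h => by
      simp only [H]; exact h _ (good.single _)
  | 1, F, G, h => by
      simp only [H]
      exact add_le_add (h _ (good.cons _ _ (good.single _))) (h _ (good.single _))
  | 2, F, G, h => by
      simp only [H]
      have h1 := h _ (good.cons I _ (good.cons I _ (good.single false)))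
      have h2 := h _ (good.cons I _ (good.single true))
      have h3 := h _ (good.cons E _ (good.single false))
      have h4 := h _ (good.cons (D false) _ (good.single false))
      linarith
  | n + 3, F, G, h => by
      simp only [H]
      have h1 := H_mono (n + 2) _ _ (fun l hl => h _ (good.cons I _ hl))
      have h2 := H_mono (n + 1) _ _ (fun l hl => h _ (good.cons E _ hl))
      have h3 := H_mono (n + 1) _ _ (fun l hl => h _ (good.cons (D false) _ hl))
      have h4 := H_mono n _ _ (fun l hl => h _ (good.cons (D true) _ hl))
      linarith

theorem H_add : ∀ (n : ℕ) (F G : List Lt → ℝ), H n (fun l => F l + G l) = H n F + H n G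
  | 0, F, G => by simp only [H]
  | 1, F, G => by simp only [H]; ring
  | 2, F, G => by simp only [H]; ring
  | n + 3, F, G => by
      simp only [H]
      rw [H_add (n + 2), H_add (n + 1), H_add (n + 1), H_add n]
      ring

theorem H_smul : ∀ (n : ℕ) (c : ℝ) (F : List Lt → ℝ), H n (fun l => c * F l) = c * H n F
  | 0, c, F => by simp only [H]
  | 1, c, F => by simp only [H]; ring
  | 2, c, F => by simp only [H]; ring
  | n + 3, c, F => by
      simp only [H]
      rw [H_smul (n + 2), H_smul (n + 1), H_smul (n + 1), H_smul n]
      ring

theorem H_zero (n : ℕ) : H n (fun _ => 0) = 0 := by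
  have := H_smul n 0 (fun _ => 0)
  simpa using this

theorem W_congr : ∀ (n : ℕ) (F G : List Bool → ℝ), (∀ l, F l = G l) → W n F = W n G := by
  intro n F G h
  have : F = G := funext h
  rw [this]

theorem W_add : ∀ (n : ℕ) (F G : List Bool → ℝ), W n (fun l => F l + G l) = W n F + W n G
  | 0, F, G => by simp only [W]
  | 1, F, G => by simp only [W]
  | n + 2, F, G => by
      simp only [W]
      rw [W_add (n + 1), W_add n]
      ring

theorem W_smul : ∀ (n : ℕ) (c : ℝ) (F : List Bool → ℝ), W n (fun l => c * F l) = c * W n F
  | 0, c, F => by simp only [W]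
  | 1, c, F => by simp only [W]
  | n + 2, c, F => by
      simp only [W]
      rw [W_smul (n + 1), W_smul n]
      ring

theorem count_pr : ∀ h : List Lt, (pr h).count true = cI h + 2 * cE h + cO h
  | [] => by simp [pr, cI, cE, cO]
  | I :: h => by simp [pr, cI, cE, cO, count_pr h]; ring
  | E :: h => by simp [pr, cI, cE, cO, count_pr h]; ring
  | D false :: h => by simp [pr, cI, cE, cO, count_pr h]
  | D true :: h => by simp [pr, cI, cE, cO, count_pr h]; ring

theorem countF_pr : ∀ h : List Lt, (pr h).count false = cD h
  | [] => by simp [pr, cD]
  | I :: h => by simp [pr, cD, countF_pr h]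
  | E :: h => by simp [pr, cD, countF_pr h]
  | D false :: h => by simp [pr, cD, countF_pr h]
  | D true :: h => by simp [pr, cD, countF_pr h]

/-- fibre identity -/
theorem fibre (m : ℕ) (c : ℕ → ℕ → ℝ) (hc : ∀ i s, i + s < m → c i s = c (i + 1) s + c i (s + 1)) :
    ∀ (n : ℕ) (i s : ℕ) (φ : List Bool → ℝ),
      (∀ w, φ w ≠ 0 → i + s + w.count true ≤ m) →
      H n (fun h => c (cI h + i) (cE h + cO h + s) * φ (pr h))
        = W n (fun w => c i s * φ (w ++ [false]))
  | 0, i, s, φ, hφ => by
      simp [H, W, cI, cE, cO, pr]
  | 1, i, s, φ, hφ => by
      simp only [H, W, cI, cE, cO, pr, List.cons_append, List.nil_append, zero_add]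
      by_cases h0 : φ [true, false] = 0
      · rw [h0]; ring
      · have h1 := hφ _ h0
        simp only [List.count_cons, List.count_nil] at h1
        have h2 : i + s < m := by
          simp at h1; omega
        rw [hc i s h2, add_comm 1 i, add_comm 1 s]
        ring
  | 2, i, s, φ, hφ => by
      have e1 := fibre m c hc 1 (i + 1) s (fun w => φ (true :: w)) (fun w hw => by
        have := hφ _ hw
        simp only [List.count_cons_self] at this; omega)
      have e2 := fibre m c hc 0 i (s + 1) (fun w => φ (true :: true :: w)) (fun w hw => by
        have := hφ _ hw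
        simp only [List.count_cons_self] at this; omega)
      have e3 := fibre m c hc 0 i s (fun w => φ (false :: w)) (fun w hw => by
        have := hφ _ hw
        simp at this; omega)
      simp only [H, W, cI, cE, cO, pr, List.cons_append, List.nil_append, zero_add] at e1 e2 e3 ⊢
      have h4 : c i s * φ [true, true, false] = (c (i + 1) s + c i (s + 1)) * φ [true, true, false] := by
        by_cases h0 : φ [true, true, false] = 0
        · rw [h0]; ring
        · have h1 := hφ _ h0
          simp at h1
          rw [hc i s (by omega)]
      rw [h4]
      have a1 : 0 + 1 + 1 + i = 0 + 1 + (i + 1) := by ring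
      simp only [zero_add, add_zero] at *
      have b1 : 1 + 1 + i = 1 + (i + 1) := by ring
      have b2 : 1 + i = i + 1 := by ring
      have b3 : 1 + s = s + 1 := by ring
      rw [b1, b2, b3]
      rw [b3] at e1
      linarith
  | n + 3, i, s, φ, hφ => by
      have e1 := fibre m c hc (n + 2) (i + 1) s (fun w => φ (true :: w)) (fun w hw => by
        have := hφ _ hw
        simp only [List.count_cons_self] at this; omega)
      have e2 := fibre m c hc (n + 1) i (s + 1) (fun w => φ (true :: true :: w)) (fun w hw => by
        have := hφ _ hw
        simp only [List.count_cons_self] at this; omega)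
      have e3 := fibre m c hc (n + 1) i s (fun w => φ (false :: w)) (fun w hw => by
        have := hφ _ hw
        simp at this; omega)
      have e4 := fibre m c hc n i (s + 1) (fun w => φ (true :: false :: w)) (fun w hw => by
        have := hφ _ hw
        simp at this; omega)
      simp only [H]
      have t1 : H (n + 2) (fun h => c (cI (I :: h) + i) (cE (I :: h) + cO (I :: h) + s) * φ (pr (I :: h)))
          = H (n + 2) (fun h => c (cI h + (i + 1)) (cE h + cO h + s) * φ (true :: pr h)) := by
        apply H_congr
        intro l _
        simp only [cI, cE, cO, pr]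
        rw [show cI l + 1 + i = cI l + (i + 1) by ring]
      have t2 : H (n + 1) (fun h => c (cI (E :: h) + i) (cE (E :: h) + cO (E :: h) + s) * φ (pr (E :: h)))
          = H (n + 1) (fun h => c (cI h + i) (cE h + cO h + (s + 1)) * φ (true :: true :: pr h)) := by
        apply H_congr
        intro l _
        simp only [cI, cE, cO, pr]
        rw [show cE l + 1 + cO l + s = cE l + cO l + (s + 1) by ring]
      have t3 : H (n + 1) (fun h => c (cI (D false :: h) + i)
            (cE (D false :: h) + cO (D false :: h) + s) * φ (pr (D false :: h)))
          = H (n + 1) (fun h => c (cI h + i) (cE h + cO h + s) * φ (false :: pr h)) := by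
        apply H_congr
        intro l _
        simp only [cI, cE, cO, pr]
      have t4 : H n (fun h => c (cI (D true :: h) + i)
            (cE (D true :: h) + cO (D true :: h) + s) * φ (pr (D true :: h)))
          = H n (fun h => c (cI h + i) (cE h + cO h + (s + 1)) * φ (true :: false :: pr h)) := by
        apply H_congr
        intro l _
        simp only [cI, cE, cO, pr]
        rw [show cE l + (cO l + 1) + s = cE l + cO l + (s + 1) by ring]
      rw [t1, t2, t3, t4, e1, e2, e3, e4]
      -- recombine
      have u1 : W (n + 1) (fun w => c i (s + 1) * φ (true :: true :: (w ++ [false])))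
          + W n (fun w => c i (s + 1) * φ (true :: false :: (w ++ [false])))
          = W (n + 2) (fun w => c i (s + 1) * φ (true :: (w ++ [false]))) := by
        simp only [W, List.cons_append]
      have u2 : W (n + 2) (fun w => c (i + 1) s * φ (true :: (w ++ [false])))
          + W (n + 2) (fun w => c i (s + 1) * φ (true :: (w ++ [false])))
          = W (n + 2) (fun w => c i s * φ (true :: (w ++ [false]))) := by
        rw [← W_add]
        apply W_congr
        intro w
        by_cases h0 : φ (true :: (w ++ [false])) = 0
        · rw [h0]; ring
        · have h1 := hφ _ h0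
          simp only [List.count_cons_self] at h1
          rw [hc i s (by omega)]
          ring
      have u3 : W (n + 3) (fun w => c i s * φ (w ++ [false]))
          = W (n + 2) (fun w => c i s * φ (true :: (w ++ [false])))
            + W (n + 1) (fun w => c i s * φ (false :: (w ++ [false]))) := by
        simp only [W, List.cons_append]
      rw [u3, ← u2, ← u1]
      ring

end Pool.Agent.Helper472.Sp
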