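import Mathlib
import Pool.Agent.Helper472.SpA

set_option autoImplicit false

namespace Pool.Agent.Helper472.Sp

open Lt

/-- probability that a flag moves to the right part -/
noncomputable def mu (R l : ℕ) : ℝ := ((R + 1 - l : ℕ) : ℝ) / ((R : ℝ) + 1)

theorem mu_nonneg (R l : ℕ) : 0 ≤ mu R l := by unfold mu; positivity

theorem mu_le (R l : ℕ) : mu R l ≤ 1 := by
  unfold mu
  rw [div_le_one (by positivity)]
  have : ((R + 1 - l : ℕ) : ℝ) ≤ ((R + 1 : ℕ) : ℝ) := by exact_mod_cast Nat.sub_le _ _
  push_cast at this ⊢
  exact this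

/-- weight of a consecutive pair of D-type letters -/
noncomputable def pw (R l : ℕ) : Bool → Bool → ℝ
  | false, false => 1
  | false, true => mu R l
  | true, false => 1 - mu R l
  | true, true => 0

noncomputable def ws (R : ℕ) : ℕ → List Lt → ℝ
  | _, [] => 0
  | k, I :: h => ws R k h
  | k, E :: h => ws R k h
  | _, [D _] => 0
  | k, D b :: a :: h => pw R (k + 1) b (fl (a :: h)) + ws R (k + 1) (a :: h)

theorem ws_cons_good {R k : ℕ} {b : Bool} {h : List Lt} (hg : good h) :
    ws R k (D b :: h) = pw R (k + 1) b (fl h) + ws R (k + 1) h := by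
  cases hg with
  | single b' => simp [ws]
  | cons a h' _ => simp [ws]

theorem flip_sum : ∀ (n : ℕ) (F : List Lt → ℝ),
    H (n + 1) (fun h => cond (fl h) (F (flp h)) 0)
      = H n (fun h => cond (fl h) 0 (F h))
  | 0, F => by simp [H, fl, flp]
  | 1, F => by simp [H, fl, flp]
  | 2, F => by simp [H, fl, flp]
  | n + 3, F => by
      have e1 := flip_sum (n + 2) (fun h => F (I :: h))
      have e2 := flip_sum (n + 1) (fun h => F (E :: h))
      have l1 : H (n + 3 + 1) (fun h => cond (fl h) (F (flp h)) 0)
          = H (n + 2 + 1) (fun h => cond (fl h) (F (I :: flp h)) 0)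
            + H (n + 1 + 1) (fun h => cond (fl h) (F (E :: flp h)) 0)
            + H (n + 1 + 1) (fun _ => 0) + H (n + 1) (fun h => F (D false :: h)) := rfl
      have l2 : H (n + 3) (fun h => cond (fl h) 0 (F h))
          = H (n + 2) (fun h => cond (fl h) 0 (F (I :: h)))
            + H (n + 1) (fun h => cond (fl h) 0 (F (E :: h)))
            + H (n + 1) (fun h => F (D false :: h)) + H n (fun _ => 0) := rfl
      rw [l1, l2, e1, e2, H_zero, H_zero]
      ring

theorem core {n R l : ℕ} (f g0 g1 : List Lt → ℝ)
    (h0 : ∀ h, good h → f h ≤ g0 h) (h1 : ∀ h, good h → fl h = true → f h ≤ g1 (flp h)) :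
    H (n + 1) f ≤ H (n + 1) (fun h => pw R l false (fl h) * g0 h)
      + H n (fun h => pw R l true (fl h) * g1 h) := by
  have e1 : H n (fun h => pw R l true (fl h) * g1 h)
      = H (n + 1) (fun h => cond (fl h) ((1 - mu R l) * g1 (flp h)) 0) := by
    rw [flip_sum n (fun h => (1 - mu R l) * g1 h)]
    apply H_congr
    intro h _
    cases fl h <;> simp [pw]
  rw [e1, ← H_add]
  apply H_mono
  intro h hg
  have a0 := h0 h hg
  have b0 := mu_nonneg R l
  have b1 := mu_le R l
  cases hf : fl h with
  | false => simp [pw]; exact a0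
  | true =>
    have a1 := h1 h hg hf
    simp only [pw, cond]
    nlinarith

/-- the local comparison -/
def LC (Φ Ψ : List Lt → ℝ) : Prop :=
  ∀ α β, good β → Φ (α ++ E :: β) ≤ Ψ (α ++ D false :: β) ∧
    (fl β = true → Φ (α ++ E :: β) ≤ Ψ (α ++ D true :: flp β))

theorem LC.cons {Φ Ψ : List Lt → ℝ} (h : LC Φ Ψ) (a : Lt) :
    LC (fun l => Φ (a :: l)) (fun l => Ψ (a :: l)) := by
  intro α β hβ
  exact h (a :: α) β hβ

theorem flow (R : ℕ) : ∀ (n k : ℕ) (Φ Ψ : List Lt → ℝ), LC Φ Ψ →
    H n (fun h => (cE h : ℝ) * Φ h) ≤ H n (fun h => ws R k h * Ψ h)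
  | 0, k, Φ, Ψ, hL => by simp [H, cE, ws]
  | 1, k, Φ, Ψ, hL => by simp [H, cE, ws]
  | 2, k, Φ, Ψ, hL => by
      have := (hL [] [D false] (good.single _)).1
      simp [H, cE, ws, fl, pw]
      simpa using this
  | n + 3, k, Φ, Ψ, hL => by
      have e1 := flow R (n + 2) k _ _ (hL.cons I)
      have e2 := flow R (n + 1) k _ _ (hL.cons E)
      have e3 := flow R (n + 1) (k + 1) _ _ (hL.cons (D false))
      have e4 := flow R n (k + 1) _ _ (hL.cons (D true))
      have e5 := core (n := n) (R := R) (l := k + 1) (fun h => Φ (E :: h))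
        (fun h => Ψ (D false :: h)) (fun h => Ψ (D true :: h))
        (fun h hg => (hL [] h hg).1) (fun h hg hf => (hL [] h hg).2 hf)
      simp only [H]
      have l2 : H (n + 1) (fun h => ((cE (E :: h) : ℕ) : ℝ) * Φ (E :: h))
          = H (n + 1) (fun h => (cE h : ℝ) * Φ (E :: h)) + H (n + 1) (fun h => Φ (E :: h)) := by
        rw [← H_add]
        apply H_congr
        intro h _
        simp only [cE]
        push_cast
        ring
      have r3 : H (n + 1) (fun h => ws R k (D false :: h) * Ψ (D false :: h))
          = H (n + 1) (fun h => pw R (k + 1) false (fl h) * Ψ (D false :: h))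
            + H (n + 1) (fun h => ws R (k + 1) h * Ψ (D false :: h)) := by
        rw [← H_add]
        apply H_congr
        intro h hg
        rw [ws_cons_good hg]
        ring
      have r4 : H n (fun h => ws R k (D true :: h) * Ψ (D true :: h))
          = H n (fun h => pw R (k + 1) true (fl h) * Ψ (D true :: h))
            + H n (fun h => ws R (k + 1) h * Ψ (D true :: h)) := by
        rw [← H_add]
        apply H_congr
        intro h hg
        rw [ws_cons_good hg]
        ring
      rw [l2, r3, r4]
      simp only [cE, ws] at e1 e2 e3 e4 e5 ⊢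
      linarith

theorem cO_le_cD : ∀ h : List Lt, cO h ≤ cD h
  | [] => by simp [cO, cD]
  | I :: h => by simp only [cO, cD]; exact cO_le_cD h
  | E :: h => by simp only [cO, cD]; exact cO_le_cD h
  | D false :: h => by simp only [cO, cD]; have := cO_le_cD h; omega
  | D true :: h => by simp only [cO, cD]; have := cO_le_cD h; omega

theorem cD_pos {h : List Lt} (hg : good h) : 1 ≤ cD h := by
  induction hg with
  | single b => simp [cD]
  | cons a h _ ih => cases a <;> simp only [cD] <;> omega

theorem ws_formula {R : ℕ} {h : List Lt} (hg : good h) : ∀ k : ℕ, k + cD h = R + 1 →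
    ws R k h = ((cD h : ℝ) - 1) - cO h * (R / ((R : ℝ) + 1))
      + (if fl h = true then (k : ℝ) / ((R : ℝ) + 1) else 0) := by
  induction hg with
  | single b =>
    intro k hk
    simp only [cD] at hk
    have : k = R := by omega
    subst this
    cases b <;> simp [ws, cD, cO, fl]
  | cons a h hg ih =>
    intro k hk
    cases a with
    | I => simp only [ws, cD, cO, fl] at hk ⊢; exact ih k hk
    | E => simp only [ws, cD, cO, fl] at hk ⊢; exact ih k hk
    | D b =>
      rw [ws_cons_good hg]
      simp only [cD] at hk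
      have hh := cD_pos hg
      rw [ih (k + 1) (by omega)]
      have hmu : mu R (k + 1) = ((R : ℝ) - k) / ((R : ℝ) + 1) := by
        unfold mu
        have : ((R + 1 - (k + 1) : ℕ) : ℝ) = (R : ℝ) - k := by
          rw [Nat.cast_sub (by omega)]; push_cast; ring
        rw [this]
      have hR : (R : ℝ) + 1 ≠ 0 := by positivity
      cases b <;> cases hf : fl h <;> simp [pw, cD, cO, fl, hmu] <;> field_simp <;> ring

/-- falling factorial -/
noncomputable def ff (x : ℝ) : ℕ → ℝ
  | 0 => 1
  | i + 1 => ff x i * (x - i)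

theorem ff_zero_of_lt (P : ℕ) : ∀ i, P < i → ff P i = 0
  | 0, h => absurd h (Nat.not_lt_zero _)
  | i + 1, h => by
      rw [ff]
      rcases Nat.lt_or_ge P i with h1 | h1
      · rw [ff_zero_of_lt P i h1]; ring
      · have : i = P := by omega
        rw [this]; ring

theorem ff_nonneg (P : ℕ) : ∀ i, 0 ≤ ff (P : ℝ) i
  | 0 => by rw [ff]; norm_num
  | i + 1 => by
      rcases Nat.lt_or_ge P (i + 1) with h1 | h1
      · rw [ff_zero_of_lt P _ h1]
      · rw [ff]
        apply mul_nonneg (ff_nonneg P i)
        have : ((i + 1 : ℕ) : ℝ) ≤ P := by exact_mod_cast h1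
        push_cast at this
        linarith

theorem cE_append : ∀ (α β : List Lt), cE (α ++ β) = cE α + cE β
  | [], β => by simp [cE]
  | I :: α, β => by simp [cE, cE_append α β]
  | E :: α, β => by simp [cE, cE_append α β]; ring
  | D _ :: α, β => by simp [cE, cE_append α β]

theorem cI_append : ∀ (α β : List Lt), cI (α ++ β) = cI α + cI β
  | [], β => by simp [cI]
  | I :: α, β => by simp [cI, cI_append α β]; ring
  | E :: α, β => by simp [cI, cI_append α β]
  | D _ :: α, β => by simp [cI, cI_append α β]

theorem cO_append : ∀ (α β : List Lt), cO (α ++ β) = cO α + cO β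
  | [], β => by simp [cO]
  | I :: α, β => by simp [cO, cO_append α β]
  | E :: α, β => by simp [cO, cO_append α β]
  | D false :: α, β => by simp [cO, cO_append α β]
  | D true :: α, β => by simp [cO, cO_append α β]; ring

theorem cD_append : ∀ (α β : List Lt), cD (α ++ β) = cD α + cD β
  | [], β => by simp [cD]
  | I :: α, β => by simp [cD, cD_append α β]
  | E :: α, β => by simp [cD, cD_append α β]
  | D _ :: α, β => by simp [cD, cD_append α β]; ring

theorem pr_append : ∀ (α β : List Lt), pr (α ++ β) = pr α ++ pr β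
  | [], β => by simp [pr]
  | I :: α, β => by simp [pr, pr_append α β]
  | E :: α, β => by simp [pr, pr_append α β]
  | D false :: α, β => by simp [pr, pr_append α β]
  | D true :: α, β => by simp [pr, pr_append α β]

theorem flp_facts {β : List Lt} (hg : good β) : fl β = true →
    cI (flp β) = cI β ∧ cE (flp β) = cE β ∧ cO (flp β) + 1 = cO β ∧ cD (flp β) = cD β ∧
      pr β = true :: pr (flp β) ∧ good (flp β) := by
  induction hg with
  | single b =>
    intro h
    simp only [fl] at h
    subst h
    simp [flp, cI, cE, cO, cD, pr, good.single]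
  | cons a h hg ih =>
    intro hf
    cases a with
    | I =>
      simp only [fl] at hf
      obtain ⟨h1, h2, h3, h4, h5, h6⟩ := ih hf
      refine ⟨?_, ?_, ?_, ?_, ?_, ?_⟩
      · simp [flp, cI, h1]
      · simp [flp, cE, h2]
      · simp [flp, cO, h3]
      · simp [flp, cD, h4]
      · simp only [flp, pr]; rw [h5]
      · exact good.cons _ _ h6
    | E =>
      simp only [fl] at hf
      obtain ⟨h1, h2, h3, h4, h5, h6⟩ := ih hf
      refine ⟨?_, ?_, ?_, ?_, ?_, ?_⟩
      · simp [flp, cI, h1]
      · simp [flp, cE, h2]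
      · simp [flp, cO, h3]
      · simp [flp, cD, h4]
      · simp only [flp, pr]; rw [h5]
      · exact good.cons _ _ h6
    | D b =>
      simp only [fl] at hf
      subst hf
      refine ⟨?_, ?_, ?_, ?_, ?_, ?_⟩
      · simp [flp, cI]
      · simp [flp, cE]
      · simp [flp, cO]
      · simp [flp, cD]
      · simp [flp, pr]
      · exact good.cons _ _ hg

theorem good_pr {β : List Lt} (hg : good β) : ∃ v, pr β = v ++ [false] := by
  induction hg with
  | single b =>
    cases b
    · exact ⟨[], by simp [pr]⟩
    · exact ⟨[true], by simp [pr]⟩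
  | cons a h hg ih =>
    obtain ⟨v, hv⟩ := ih
    cases a with
    | I => exact ⟨true :: v, by simp [pr, hv]⟩
    | E => exact ⟨true :: true :: v, by simp [pr, hv]⟩
    | D b =>
      cases b
      · exact ⟨false :: v, by simp [pr, hv]⟩
      · exact ⟨true :: false :: v, by simp [pr, hv]⟩

end Pool.Agent.Helper472.Sp
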