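import Mathlib
import Pool.Agent.Helper472.SpB

set_option autoImplicit false

namespace Pool.Agent.Helper472.Sp

open Lt Classical

/-- restriction of a function on words to given letter counts -/
noncomputable def gd (m R : ℕ) (φ : List Bool → ℝ) (w : List Bool) : ℝ :=
  if w.count true = m ∧ w.count false = R then φ w else 0

noncomputable def cX (m P Q : ℕ) (i s : ℕ) : ℝ :=
  ((m - i - s).factorial : ℝ) * (ff P i * ff Q s)

noncomputable def cY (m P Q : ℕ) (i s : ℕ) : ℝ :=
  ((Q : ℝ) + m - i - 2 * s) * (((m - i - s).factorial : ℝ) * (ff P i * ff Q (s + 1)))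

theorem fact_step {m i s : ℕ} (h : i + s < m) :
    ((m - i - s).factorial : ℝ) = ((m : ℝ) - i - s) * ((m - (i + 1) - s).factorial : ℝ) ∧
      m - (i + 1) - s = m - i - (s + 1) := by
  have h1 : m - i - s = (m - (i + 1) - s) + 1 := by omega
  refine ⟨?_, by omega⟩
  rw [h1, Nat.factorial_succ]
  push_cast
  have h2 : ((m - (i + 1) - s : ℕ) : ℝ) = (m : ℝ) - (i + 1) - s := by
    rw [Nat.cast_sub (by omega), Nat.cast_sub (by omega)]
    push_cast
    ring
  rw [h2]
  ring

theorem cX_pascal {m P Q : ℕ} (h : P + Q = m) (i s : ℕ) (his : i + s < m) :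
    cX m P Q i s = cX m P Q (i + 1) s + cX m P Q i (s + 1) := by
  unfold cX
  obtain ⟨h1, h2⟩ := fact_step his
  rw [← h2, h1, ff, ff]
  have : (m : ℝ) = P + Q := by exact_mod_cast h.symm
  rw [this]
  ring

theorem cY_pascal {m P Q : ℕ} (h : P + Q = m + 2) (i s : ℕ) (his : i + s < m) :
    cY m P Q i s = cY m P Q (i + 1) s + cY m P Q i (s + 1) := by
  unfold cY
  obtain ⟨h1, h2⟩ := fact_step his
  have q1 : ff Q (s + 1) = ff Q s * (Q - s) := rfl
  have q2 : ff Q (s + 1 + 1) = ff Q s * (Q - s) * (Q - (s + 1 : ℕ)) := rfl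
  have q3 : ff P (i + 1) = ff P i * (P - i) := rfl
  rw [← h2, h1, q2, q1, q3]
  have : (m : ℝ) = P + Q - 2 := by
    have : ((P + Q : ℕ) : ℝ) = ((m + 2 : ℕ) : ℝ) := by rw [h]
    push_cast at this
    linarith
  rw [this]
  push_cast
  ring

/-- weights on hidden words -/
noncomputable def FX (m R P Q : ℕ) (φ : List Bool → ℝ) (h : List Lt) : ℝ :=
  if (pr h).count true = m ∧ cD h = R then
    ((cE h - 1).factorial : ℝ) * (ff P (cI h) * ff Q (cE h + cO h)) * φ (pr h) else 0

noncomputable def FY (m R P Q : ℕ) (ψ : List Bool → ℝ) (h : List Lt) : ℝ :=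
  if (pr h).count true = m ∧ cD h = R then
    ((cE h).factorial : ℝ) * (ff P (cI h) * ff Q (cE h + cO h + 1)) * ψ (pr h) else 0

theorem lc_F {m R P Q : ℕ} (φ ψ : List Bool → ℝ)
    (h : ∀ u v, φ (u ++ true :: true :: (v ++ [false])) ≤ ψ (u ++ false :: (v ++ [false]))) :
    LC (FX (m + 2) R P Q φ) (FY m (R + 1) P Q ψ) := by
  intro α β hβ
  obtain ⟨v, hv⟩ := good_pr hβ
  constructor
  · unfold FX FY
    have e1 : (pr (α ++ E :: β)).count true = (pr α).count true + ((pr β).count true + 2) := by
      rw [pr_append, List.count_append]; simp [pr]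
    have e2 : (pr (α ++ D false :: β)).count true = (pr α).count true + (pr β).count true := by
      rw [pr_append, List.count_append]; simp [pr]
    have e3 : cD (α ++ E :: β) = cD α + cD β := by rw [cD_append]; simp [cD]
    have e4 : cD (α ++ D false :: β) = cD α + cD β + 1 := by rw [cD_append]; simp [cD]; ring
    have e5 : cE (α ++ E :: β) = cE α + cE β + 1 := by rw [cE_append]; simp [cE]; ring
    have e6 : cE (α ++ D false :: β) = cE α + cE β := by rw [cE_append]; simp [cE]
    have e7 : cI (α ++ E :: β) = cI (α ++ D false :: β) := by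
      rw [cI_append, cI_append]; simp [cI]
    have e8 : cO (α ++ E :: β) = cO (α ++ D false :: β) := by
      rw [cO_append, cO_append]; simp [cO]
    by_cases hc : (pr α).count true + (pr β).count true = m ∧ cD α + cD β = R
    · rw [if_pos (by omega), if_pos (by omega), e5, e6, e7, e8, Nat.add_sub_cancel]
      rw [show cE α + cE β + 1 + cO (α ++ D false :: β)
        = cE α + cE β + cO (α ++ D false :: β) + 1 by ring]
      apply mul_le_mul_of_nonneg_left
      · rw [pr_append, pr_append]
        simp only [pr]
        rw [hv]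
        exact h _ _
      · have := ff_nonneg P (cI (α ++ D false :: β))
        have := ff_nonneg Q (cE α + cE β + cO (α ++ D false :: β) + 1)
        positivity
    · rw [if_neg (by omega), if_neg (by omega)]
  · intro hf
    obtain ⟨f1, f2, f3, f4, f5, f6⟩ := flp_facts hβ hf
    obtain ⟨v', hv'⟩ := good_pr f6
    unfold FX FY
    have e0 : (pr β).count true = (pr (flp β)).count true + 1 := by rw [f5]; simp
    have e1 : (pr (α ++ E :: β)).count true = (pr α).count true + ((pr β).count true + 2) := by
      rw [pr_append, List.count_append]; simp [pr]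
    have e2 : (pr (α ++ D true :: flp β)).count true
        = (pr α).count true + ((pr (flp β)).count true + 1) := by
      rw [pr_append, List.count_append]; simp [pr]
    have e3 : cD (α ++ E :: β) = cD α + cD β := by rw [cD_append]; simp [cD]
    have e4 : cD (α ++ D true :: flp β) = cD α + cD β + 1 := by
      rw [cD_append]; simp [cD, f4]; ring
    have e5 : cE (α ++ E :: β) = cE α + cE β + 1 := by rw [cE_append]; simp [cE]; ring
    have e6 : cE (α ++ D true :: flp β) = cE α + cE β := by rw [cE_append]; simp [cE, f2]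
    have e7 : cI (α ++ E :: β) = cI (α ++ D true :: flp β) := by
      rw [cI_append, cI_append]; simp [cI, f1]
    have e8 : cO (α ++ E :: β) = cO (α ++ D true :: flp β) := by
      rw [cO_append, cO_append]; simp [cO]; omega
    by_cases hc : (pr α).count true + (pr β).count true = m ∧ cD α + cD β = R
    · rw [if_pos (by omega), if_pos (by omega), e5, e6, e7, e8, Nat.add_sub_cancel]
      rw [show cE α + cE β + 1 + cO (α ++ D true :: flp β)
        = cE α + cE β + cO (α ++ D true :: flp β) + 1 by ring]
      apply mul_le_mul_of_nonneg_left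
      · rw [pr_append, pr_append]
        simp only [pr]
        rw [f5, hv']
        have := h (pr α ++ [true]) v'
        simpa using this
      · have := ff_nonneg P (cI (α ++ D true :: flp β))
        have := ff_nonneg Q (cE α + cE β + cO (α ++ D true :: flp β) + 1)
        positivity
    · rw [if_neg (by omega), if_neg (by omega)]

theorem sumX {m R P Q : ℕ} (hPQ : P + Q = m) (hQ : Q = R + 1) (n : ℕ) (φ : List Bool → ℝ) :
    H n (fun h => (cE h : ℝ) * FX m R P Q φ h)
      = (m.factorial : ℝ) * W n (fun w => gd m R φ (w ++ [false])) := by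
  have h1 : H n (fun h => (cE h : ℝ) * FX m R P Q φ h)
      = H n (fun h => cX m P Q (cI h + 0) (cE h + cO h + 0) * gd m R φ (pr h)) := by
    apply H_congr
    intro h _
    unfold FX gd
    rw [countF_pr]
    by_cases hc : (pr h).count true = m ∧ cD h = R
    · rw [if_pos hc, if_pos hc]
      have h2 := count_pr h
      have h3 := cO_le_cD h
      simp only [add_zero]
      unfold cX
      rw [show m - cI h - (cE h + cO h) = cE h by omega]
      rcases Nat.eq_zero_or_pos (cE h) with h0 | h0
      · rw [ff_zero_of_lt P (cI h) (by omega)]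
        ring
      · obtain ⟨e, he⟩ : ∃ e, cE h = e + 1 := ⟨cE h - 1, by omega⟩
        rw [he, Nat.add_sub_cancel, Nat.factorial_succ]
        push_cast
        ring
    · rw [if_neg hc, if_neg hc]
      ring
  rw [h1, fibre m (cX m P Q) (cX_pascal hPQ) n 0 0 (gd m R φ)]
  · rw [W_smul]
    congr 1
    unfold cX
    simp [ff]
  · intro w hw
    unfold gd at hw
    by_cases hc : w.count true = m ∧ w.count false = R
    · omega
    · rw [if_neg hc] at hw; exact absurd rfl hw

theorem sumY {m R P Q : ℕ} (hPQ : P + Q = m + 2) (hQ : Q = R + 1) (n : ℕ) (ψ : List Bool → ℝ) :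
    H n (fun h => ws R 0 h * FY m (R + 1) P Q ψ h)
      = (R : ℝ) * ((m : ℝ) + R + 1) * (m.factorial : ℝ)
        * W n (fun w => gd m (R + 1) ψ (w ++ [false])) := by
  have hR : (R : ℝ) + 1 ≠ 0 := by positivity
  have h1 : H n (fun h => ws R 0 h * FY m (R + 1) P Q ψ h)
      = H n (fun h => (R / ((R : ℝ) + 1)) *
          (cY m P Q (cI h + 0) (cE h + cO h + 0) * gd m (R + 1) ψ (pr h))) := by
    apply H_congr
    intro h hg
    unfold FY gd
    rw [countF_pr]
    by_cases hc : (pr h).count true = m ∧ cD h = R + 1
    · rw [if_pos hc, if_pos hc, ws_formula hg 0 (by omega)]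
      have h2 := count_pr h
      simp only [add_zero]
      unfold cY
      rw [show m - cI h - (cE h + cO h) = cE h by omega, hc.2]
      have h3 : (m : ℝ) = cI h + 2 * cE h + cO h := by
        rw [← hc.1, h2]; push_cast; ring
      rw [h3, hQ]
      push_cast
      field_simp
      split_ifs <;> ring
    · rw [if_neg hc, if_neg hc]
      ring
  rw [h1, H_smul, fibre m (cY m P Q) (cY_pascal hPQ) n 0 0 (gd m (R + 1) ψ)]
  · rw [W_smul, ← mul_assoc]
    congr 1
    unfold cY
    rw [hQ]
    simp [ff]
    field_simp
    ring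
  · intro w hw
    unfold gd at hw
    by_cases hc : w.count true = m ∧ w.count false = R + 1
    · omega
    · rw [if_neg hc] at hw; exact absurd rfl hw

/-- Weighted comparison for path words: every contraction of two adjacent monomers to a dimer. -/
theorem words_nmp {m r : ℕ} (hm : r + 2 ≤ m + 2) (n : ℕ) (φ ψ : List Bool → ℝ)
    (h : ∀ u v, φ (u ++ true :: true :: v) ≤ ψ (u ++ false :: v)) :
    ((m : ℝ) + 2) * (m + 1) * W n (gd (m + 2) r φ)
      ≤ ((r : ℝ) + 1) * (m + r + 2) * W n (gd m (r + 1) ψ) := by
  have hL := lc_F (m := m) (R := r + 1) (P := m - r) (Q := r + 2)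
    (fun w => φ w.dropLast) (fun w => ψ w.dropLast) (by
      intro u v
      have e1 : (u ++ true :: true :: (v ++ [false])).dropLast = u ++ true :: true :: v := by
        rw [show u ++ true :: true :: (v ++ [false]) = (u ++ true :: true :: v) ++ [false] by simp]
        exact List.dropLast_concat
      have e2 : (u ++ false :: (v ++ [false])).dropLast = u ++ false :: v := by
        rw [show u ++ false :: (v ++ [false]) = (u ++ false :: v) ++ [false] by simp]
        exact List.dropLast_concat
      simp only [e1, e2]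
      exact h u v)
  have h1 := flow (r + 1) n 0 _ _ hL
  rw [sumX (by omega) rfl, sumY (by omega) rfl] at h1
  have e1 : W n (fun w => gd (m + 2) (r + 1) (fun w => φ w.dropLast) (w ++ [false]))
      = W n (gd (m + 2) r φ) := by
    apply W_congr
    intro w
    unfold gd
    simp [List.count_append]
  have e2 : W n (fun w => gd m (r + 1 + 1) (fun w => ψ w.dropLast) (w ++ [false]))
      = W n (gd m (r + 1) ψ) := by
    apply W_congr
    intro w
    unfold gd
    simp [List.count_append]
  rw [e1, e2, Nat.factorial_succ, Nat.factorial_succ] at h1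
  push_cast at h1
  have hf : (0 : ℝ) < (m.factorial : ℝ) := by exact_mod_cast m.factorial_pos
  have h2 : (m.factorial : ℝ) * (((m : ℝ) + 2) * (m + 1) * W n (gd (m + 2) r φ))
      ≤ (m.factorial : ℝ) * (((r : ℝ) + 1) * (m + r + 2) * W n (gd m (r + 1) ψ)) := by
    nlinarith [h1]
  exact le_of_mul_le_mul_left h2 hf

end Pool.Agent.Helper472.Sp
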