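import Mathlib
import Pool.Agent.Helper472.SpC

set_option autoImplicit false

namespace Pool.Agent.Helper472.Sp

open Finset Classical

/-- starting points of the dimers -/
def pos : ℕ → List Bool → Finset ℕ
  | _, [] => ∅
  | c, true :: w => pos (c + 1) w
  | c, false :: w => insert c (pos (c + 2) w)

/-- sets without two consecutive numbers in the interval of length `n - 1` starting at `c` -/
noncomputable def Ind (c n : ℕ) : Finset (Finset ℕ) :=
  (Ico c (c + n - 1)).powerset.filter (fun S => ∀ i ∈ S, i + 1 ∉ S)

theorem mem_Ind {c n : ℕ} {S : Finset ℕ} :
    S ∈ Ind c n ↔ (∀ i ∈ S, c ≤ i ∧ i < c + n - 1) ∧ ∀ i ∈ S, i + 1 ∉ S := by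
  unfold Ind
  rw [mem_filter, mem_powerset]
  constructor
  · rintro ⟨h1, h2⟩
    exact ⟨fun i hi => mem_Ico.mp (h1 hi), h2⟩
  · rintro ⟨h1, h2⟩
    exact ⟨fun i hi => mem_Ico.mpr (h1 i hi), h2⟩

theorem W_pos : ∀ (n c : ℕ) (φ : Finset ℕ → ℝ),
    W n (fun w => φ (pos c w)) = ∑ S ∈ Ind c n, φ S
  | 0, c, φ => by
      have : Ind c 0 = {∅} := by
        ext S
        rw [mem_Ind, mem_singleton]
        constructor
        · rintro ⟨h1, _⟩
          apply eq_empty_of_forall_notMem
          intro i hi
          have := h1 i hi
          omega
        · rintro rfl; simp
      rw [this, sum_singleton]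
      simp [W, pos]
  | 1, c, φ => by
      have : Ind c 1 = {∅} := by
        ext S
        rw [mem_Ind, mem_singleton]
        constructor
        · rintro ⟨h1, _⟩
          apply eq_empty_of_forall_notMem
          intro i hi
          have := h1 i hi
          omega
        · rintro rfl; simp
      rw [this, sum_singleton]
      simp [W, pos]
  | n + 2, c, φ => by
      have e1 := W_pos (n + 1) (c + 1) φ
      have e2 := W_pos n (c + 2) (fun S => φ (insert c S))
      simp only [W, pos]
      rw [e1, e2, ← sum_filter_add_sum_filter_not (Ind c (n + 2)) (fun S => c ∉ S)]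
      congr 1
      · apply sum_congr _ (fun _ _ => rfl)
        ext S
        rw [mem_filter, mem_Ind, mem_Ind]
        constructor
        · rintro ⟨h1, h2⟩
          refine ⟨⟨fun i hi => ?_, h2⟩, fun hc => ?_⟩
          · have := h1 i hi; omega
          · have := h1 c hc; omega
        · rintro ⟨⟨h1, h2⟩, h3⟩
          refine ⟨fun i hi => ?_, h2⟩
          have := h1 i hi
          have : i ≠ c := fun h => h3 (h ▸ hi)
          omega
      · refine sum_bij (fun S _ => insert c S) ?_ ?_ ?_ ?_
        · intro S hS
          rw [mem_Ind] at hS
          rw [mem_filter, mem_Ind]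
          refine ⟨⟨fun i hi => ?_, fun i hi hi1 => ?_⟩, ?_⟩
          · rcases mem_insert.mp hi with h | h
            · omega
            · have := hS.1 i h; omega
          · rcases mem_insert.mp hi with h | h
            · rcases mem_insert.mp hi1 with h' | h'
              · omega
              · have := hS.1 _ h'; omega
            · rcases mem_insert.mp hi1 with h' | h'
              · have := hS.1 _ h; omega
              · exact hS.2 i h h'
          · simp
        · intro S hS S' hS' he
          rw [mem_Ind] at hS hS'
          have h1 : c ∉ S := fun h => by have := hS.1 c h; omega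
          have h2 : c ∉ S' := fun h => by have := hS'.1 c h; omega
          rw [← erase_insert h1, ← erase_insert h2, he]
        · intro T hT
          rw [mem_filter, mem_Ind] at hT
          obtain ⟨⟨h1, h2⟩, h3⟩ := hT
          have h3 : c ∈ T := by simpa using h3
          refine ⟨T.erase c, ?_, insert_erase h3⟩
          rw [mem_Ind]
          refine ⟨fun i hi => ?_, fun i hi hi1 => ?_⟩
          · obtain ⟨h4, h5⟩ := mem_erase.mp hi
            have := h1 i h5
            have h6 : i ≠ c + 1 := fun h => h2 c h3 (h ▸ h5)
            omega
          · exact h2 i (mem_erase.mp hi).2 (mem_erase.mp hi1).2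
        · intro S _
          rfl

theorem W_congr_len : ∀ (n : ℕ) (F G : List Bool → ℝ),
    (∀ w, w.count true + 2 * w.count false = n → F w = G w) → W n F = W n G
  | 0, F, G, h => by simp only [W]; exact h _ (by simp)
  | 1, F, G, h => by simp only [W]; exact h _ (by simp)
  | n + 2, F, G, h => by
      simp only [W]
      rw [W_congr_len (n + 1) _ (fun w => G (true :: w)) (fun w hw => h _ (by simp; omega)),
        W_congr_len n _ (fun w => G (false :: w)) (fun w hw => h _ (by simp; omega))]

theorem pos_ge : ∀ (w : List Bool) (c i : ℕ), i ∈ pos c w → c ≤ i
  | [], c, i, h => by simp [pos] at h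
  | true :: w, c, i, h => by
      simp only [pos] at h
      have := pos_ge w _ _ h
      omega
  | false :: w, c, i, h => by
      simp only [pos] at h
      rcases mem_insert.mp h with h | h
      · omega
      · have := pos_ge w _ _ h
        omega

theorem card_pos : ∀ (w : List Bool) (c : ℕ), (pos c w).card = w.count false
  | [], c => by simp [pos]
  | true :: w, c => by simp [pos, card_pos w]
  | false :: w, c => by
      simp only [pos]
      rw [card_insert_of_notMem (fun h => by have := pos_ge _ _ _ h; omega), card_pos w]
      simp

theorem pos_append : ∀ (u v : List Bool) (c : ℕ),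
    pos c (u ++ v) = pos c u ∪ pos (c + (u.count true + 2 * u.count false)) v
  | [], v, c => by simp [pos]
  | true :: u, v, c => by
      simp only [List.cons_append, pos]
      rw [pos_append u v (c + 1)]
      congr 2
      simp
      ring
  | false :: u, v, c => by
      simp only [List.cons_append, pos]
      rw [pos_append u v (c + 2), insert_union]
      congr 3
      simp
      ring

theorem pos_mem_Ind : ∀ (w : List Bool) (c : ℕ),
    pos c w ∈ Ind c (w.count true + 2 * w.count false)
  | [], c => by rw [mem_Ind]; simp [pos]
  | true :: w, c => by
      have := pos_mem_Ind w (c + 1)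
      rw [mem_Ind] at this ⊢
      simp only [pos, List.count_cons_self]
      rw [List.count_cons_of_ne (by decide)]
      refine ⟨fun i hi => ?_, this.2⟩
      have := this.1 i hi
      omega
  | false :: w, c => by
      have h := pos_mem_Ind w (c + 2)
      rw [mem_Ind] at h ⊢
      simp only [pos, List.count_cons_self]
      rw [List.count_cons_of_ne (by decide)]
      refine ⟨fun i hi => ?_, fun i hi hi1 => ?_⟩
      · rcases mem_insert.mp hi with h' | h'
        · omega
        · have := h.1 i h'; omega
      · rcases mem_insert.mp hi with h' | h'
        · rcases mem_insert.mp hi1 with h'' | h''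
          · omega
          · have := h.1 _ h''; omega
        · rcases mem_insert.mp hi1 with h'' | h''
          · have := h.1 _ h'; omega
          · exact h.2 i h' h''

/-- Weighted comparison of consecutive levels for sets without consecutive elements. -/
theorem ind_nmp {m r : ℕ} (hm : r ≤ m) (c : ℕ) (f g : Finset ℕ → ℝ)
    (h : ∀ S T, S ∈ Ind c (m + 2 + 2 * r) → T ∈ Ind c (m + 2 + 2 * r) → S.card = r →
      T.card = r + 1 → S ⊆ T → f S ≤ g T) :
    ((m : ℝ) + 2) * (m + 1) * ∑ S ∈ (Ind c (m + 2 + 2 * r)).filter (fun S => S.card = r), f S
      ≤ ((r : ℝ) + 1) * (m + r + 2)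
        * ∑ T ∈ (Ind c (m + 2 + 2 * r)).filter (fun T => T.card = r + 1), g T := by
  have key := words_nmp (m := m) (r := r) (by omega) (m + 2 + 2 * r)
    (fun w => if w.count true + 2 * w.count false = m + 2 + 2 * r ∧ w.count false = r then
      f (pos c w) else 0)
    (fun w => if w.count true + 2 * w.count false = m + 2 + 2 * r ∧ w.count false = r + 1 then
      g (pos c w) else 0) (by
      intro u v
      have a1 : (u ++ true :: true :: v).count true = u.count true + v.count true + 2 := by
        simp [List.count_append]; ring
      have a2 : (u ++ true :: true :: v).count false = u.count false + v.count false := by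
        simp [List.count_append]
      have a3 : (u ++ false :: v).count true = u.count true + v.count true := by
        simp [List.count_append]
      have a4 : (u ++ false :: v).count false = u.count false + v.count false + 1 := by
        simp [List.count_append]; ring
      simp only [a1, a2, a3, a4]
      by_cases hc : u.count true + v.count true + 2 + 2 * (u.count false + v.count false)
          = m + 2 + 2 * r ∧ u.count false + v.count false = r
      · rw [if_pos hc, if_pos (by omega)]
        have m1 := pos_mem_Ind (u ++ true :: true :: v) c
        have m2 := pos_mem_Ind (u ++ false :: v) c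
        rw [a1, a2] at m1
        rw [a3, a4] at m2
        rw [show u.count true + v.count true + 2 + 2 * (u.count false + v.count false)
          = m + 2 + 2 * r by omega] at m1
        rw [show u.count true + v.count true + 2 * (u.count false + v.count false + 1)
          = m + 2 + 2 * r by omega] at m2
        refine h _ _ m1 m2 ?_ ?_ ?_
        · rw [card_pos, a2]; exact hc.2
        · rw [card_pos, a4]; omega
        · rw [pos_append, pos_append]
          apply union_subset_union_right
          simp only [pos]
          exact subset_insert _ _
      · rw [if_neg hc, if_neg (by omega)])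
  have e1 : W (m + 2 + 2 * r) (gd (m + 2) r
      (fun w => if w.count true + 2 * w.count false = m + 2 + 2 * r ∧ w.count false = r then
        f (pos c w) else 0))
      = ∑ S ∈ (Ind c (m + 2 + 2 * r)).filter (fun S => S.card = r), f S := by
    rw [sum_filter, ← W_pos (m + 2 + 2 * r) c (fun S => if S.card = r then f S else 0)]
    apply W_congr_len
    intro w hw
    unfold gd
    rw [card_pos]
    by_cases h1 : w.count false = r
    · rw [if_pos (by omega)]
      beta_reduce
      rw [if_pos ⟨hw, h1⟩, if_pos h1]
    · rw [if_neg (by omega), if_neg h1]
  have e2 : W (m + 2 + 2 * r) (gd m (r + 1)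
      (fun w => if w.count true + 2 * w.count false = m + 2 + 2 * r ∧ w.count false = r + 1 then
        g (pos c w) else 0))
      = ∑ T ∈ (Ind c (m + 2 + 2 * r)).filter (fun T => T.card = r + 1), g T := by
    rw [sum_filter, ← W_pos (m + 2 + 2 * r) c (fun S => if S.card = r + 1 then g S else 0)]
    apply W_congr_len
    intro w hw
    unfold gd
    rw [card_pos]
    by_cases h1 : w.count false = r + 1
    · rw [if_pos (by omega)]
      beta_reduce
      rw [if_pos ⟨hw, h1⟩, if_pos h1]
    · rw [if_neg (by omega), if_neg h1]
  rw [e1, e2] at key
  exact key

end Pool.Agent.Helper472.Sp
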