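import Mathlib

set_option autoImplicit false

namespace Pool.Agent.Helper472.Sp

open Finset Classical

variable {N : ℕ}

/-- level `r` of the family of sets satisfying `P` -/
noncomputable def Lv (P : Finset (Fin N) → Prop) (r : ℕ) : Finset (Finset (Fin N)) :=
  univ.filter (fun s => s.card = r ∧ P s)

theorem mem_Lv {P : Finset (Fin N) → Prop} {r : ℕ} {s : Finset (Fin N)} :
    s ∈ Lv P r ↔ s.card = r ∧ P s := by
  unfold Lv; rw [mem_filter]; simp

/-- members of level `r` below a member of the family -/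
noncomputable def Fl (P : Finset (Fin N) → Prop) (𝒜 : Finset (Finset (Fin N))) (r : ℕ) :
    Finset (Finset (Fin N)) :=
  (Lv P r).filter (fun A => ∃ B ∈ 𝒜, A ⊆ B)

theorem mem_Fl {P : Finset (Fin N) → Prop} {𝒜 : Finset (Finset (Fin N))} {r : ℕ}
    {s : Finset (Fin N)} : s ∈ Fl P 𝒜 r ↔ (s.card = r ∧ P s) ∧ ∃ B ∈ 𝒜, s ⊆ B := by
  simp only [Fl, mem_filter, mem_Lv]

noncomputable def dFl (P : Finset (Fin N) → Prop) (𝒜 : Finset (Finset (Fin N))) (r : ℕ) :
    Finset (Finset (Fin N)) :=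
  (Lv P r).filter (fun A => ∃ B ∈ Fl P 𝒜 (r + 1), A ⊆ B)

theorem mem_dFl {P : Finset (Fin N) → Prop} {𝒜 : Finset (Finset (Fin N))} {r : ℕ}
    {s : Finset (Fin N)} :
    s ∈ dFl P 𝒜 r ↔ (s.card = r ∧ P s) ∧ ∃ B ∈ Fl P 𝒜 (r + 1), s ⊆ B := by
  simp only [dFl, mem_filter, mem_Lv]

theorem card_step {P : Finset (Fin N) → Prop} {𝒜 : Finset (Finset (Fin N))}
    (hP : ∀ s ∈ 𝒜, P s) (hA : IsAntichain (· ⊆ ·) (𝒜 : Set (Finset (Fin N)))) (r : ℕ) :
    (dFl P 𝒜 r).card + (𝒜.filter (fun s => s.card = r)).card ≤ (Fl P 𝒜 r).card := by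
  rw [← card_union_of_disjoint]
  · apply card_le_card
    intro s hs
    rcases mem_union.mp hs with h | h
    · rw [mem_dFl] at h
      obtain ⟨h1, B, hB, h2⟩ := h
      rw [mem_Fl] at hB
      obtain ⟨_, C, hC, h3⟩ := hB
      rw [mem_Fl]
      exact ⟨h1, C, hC, h2.trans h3⟩
    · obtain ⟨h1, h2⟩ := mem_filter.mp h
      rw [mem_Fl]
      exact ⟨⟨h2, hP s h1⟩, s, h1, Subset.refl s⟩
  · rw [disjoint_left]
    intro s h1 h2
    obtain ⟨h3, h4⟩ := mem_filter.mp h2
    rw [mem_dFl] at h1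
    obtain ⟨_, B, hB, h5⟩ := h1
    rw [mem_Fl] at hB
    obtain ⟨hB1, C, hC, h6⟩ := hB
    have h7 : s ≠ C := by
      rintro rfl
      have := card_le_card h6
      omega
    exact hA h3 hC h7 (h5.trans h6)

theorem card_ge_step (𝒜 : Finset (Finset (Fin N))) (r : ℕ) :
    (𝒜.filter (fun s => r ≤ s.card)).card
      = (𝒜.filter (fun s => r + 1 ≤ s.card)).card + (𝒜.filter (fun s => s.card = r)).card := by
  rw [← card_union_of_disjoint]
  · congr 1
    ext s
    simp only [mem_filter, mem_union]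
    constructor
    · rintro ⟨h1, h2⟩
      rcases Nat.lt_or_ge r s.card with h | h
      · exact Or.inl ⟨h1, h⟩
      · exact Or.inr ⟨h1, by omega⟩
    · rintro (⟨h1, h2⟩ | ⟨h1, h2⟩)
      · exact ⟨h1, by omega⟩
      · exact ⟨h1, by omega⟩
  · rw [disjoint_left]
    intro s h1 h2
    have := (mem_filter.mp h1).2
    have := (mem_filter.mp h2).2
    omega

theorem high_step {P : Finset (Fin N) → Prop} (hdown : ∀ A B, A ⊆ B → P B → P A)
    (𝒜 : Finset (Finset (Fin N))) (r : ℕ)
    (hh : ∀ A ∈ Lv P r, ((Lv P (r + 1)).filter (fun B => A ⊆ B)).card ≤ r + 1) :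
    (Fl P 𝒜 (r + 1)).card ≤ (dFl P 𝒜 r).card := by
  have key : (Fl P 𝒜 (r + 1)).card * (r + 1) ≤ (dFl P 𝒜 r).card * (r + 1) := by
    apply card_mul_le_card_mul (fun B A => A ⊆ B)
    · intro B hB
      have hB' := mem_Fl.mp hB
      have h1 : (B.image (fun x => B.erase x)) ⊆
          (dFl P 𝒜 r).bipartiteAbove (fun B A => A ⊆ B) B := by
        intro A hA
        obtain ⟨x, hx, rfl⟩ := mem_image.mp hA
        rw [mem_bipartiteAbove, mem_dFl]
        refine ⟨⟨⟨?_, hdown _ _ (erase_subset _ _) hB'.1.2⟩, B, hB, erase_subset _ _⟩,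
          erase_subset _ _⟩
        rw [card_erase_of_mem hx]
        omega
      calc r + 1 = (B.image (fun x => B.erase x)).card := by
            rw [card_image_of_injOn, hB'.1.1]
            intro x hx y hy hxy
            by_contra hne
            have : x ∈ B.erase y := mem_erase.mpr ⟨hne, hx⟩
            have hxy' : B.erase x = B.erase y := hxy
            rw [← hxy'] at this
            exact (mem_erase.mp this).1 rfl
        _ ≤ _ := card_le_card h1
    · intro A hA
      have hA' := mem_dFl.mp hA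
      refine le_trans (card_le_card ?_) (hh A (mem_Lv.mpr hA'.1))
      intro B hB
      rw [mem_bipartiteBelow] at hB
      rw [mem_filter, mem_Lv]
      exact ⟨(mem_Fl.mp hB.1).1, hB.2⟩
  exact Nat.le_of_mul_le_mul_right key (Nat.succ_pos r)

theorem low_step {P : Finset (Fin N) → Prop} (𝒜 : Finset (Finset (Fin N))) (r : ℕ) (p q : ℝ)
    (hpq : ∀ f g : Finset (Fin N) → ℝ,
      (∀ A B, A ∈ Lv P r → B ∈ Lv P (r + 1) → A ⊆ B → f A ≤ g B) →
      p * ∑ A ∈ Lv P r, f A ≤ q * ∑ B ∈ Lv P (r + 1), g B) :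
    p * (Lv P r).card = q * (Lv P (r + 1)).card ∧
      q * (Fl P 𝒜 (r + 1)).card ≤ p * (dFl P 𝒜 r).card := by
  have h1 := hpq (fun _ => 1) (fun _ => 1) (fun _ _ _ _ _ => le_refl _)
  have h2 := hpq (fun _ => -1) (fun _ => -1) (fun _ _ _ _ _ => le_refl _)
  simp only [sum_const, nsmul_eq_mul, mul_one, mul_neg] at h1 h2
  have h3 : p * (Lv P r).card = q * (Lv P (r + 1)).card := by linarith
  refine ⟨h3, ?_⟩
  have h4 := hpq (fun A => if A ∈ dFl P 𝒜 r then -1 else 0)
    (fun B => if B ∈ Fl P 𝒜 (r + 1) then -1 else 0) (by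
      intro A B hA hB hAB
      by_cases hB' : B ∈ Fl P 𝒜 (r + 1)
      · have : A ∈ dFl P 𝒜 r := mem_dFl.mpr ⟨mem_Lv.mp hA, B, hB', hAB⟩
        rw [if_pos this, if_pos hB']
      · rw [if_neg hB']
        split_ifs <;> norm_num)
  rw [← sum_filter, ← sum_filter] at h4
  have e1 : (Lv P r).filter (fun A => A ∈ dFl P 𝒜 r) = dFl P 𝒜 r := by
    ext A
    rw [mem_filter]
    constructor
    · exact fun h => h.2
    · exact fun h => ⟨mem_Lv.mpr (mem_dFl.mp h).1, h⟩
  have e2 : (Lv P (r + 1)).filter (fun A => A ∈ Fl P 𝒜 (r + 1)) = Fl P 𝒜 (r + 1) := by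
    ext A
    rw [mem_filter]
    constructor
    · exact fun h => h.2
    · exact fun h => ⟨mem_Lv.mpr (mem_Fl.mp h).1, h⟩
  rw [e1, e2] at h4
  simp only [sum_const, nsmul_eq_mul, mul_neg, mul_one] at h4
  linarith

/-- Sperner property from comparisons of consecutive levels. -/
theorem sperner_of_levels (P : Finset (Fin N) → Prop) (hdown : ∀ A B, A ⊆ B → P B → P A)
    (h0 : P ∅) (K : ℕ)
    (hlow : ∀ r < K, ∃ p q : ℝ, 0 < p ∧ 0 < q ∧ ∀ f g : Finset (Fin N) → ℝ,
      (∀ A B, A ∈ Lv P r → B ∈ Lv P (r + 1) → A ⊆ B → f A ≤ g B) →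
      p * ∑ A ∈ Lv P r, f A ≤ q * ∑ B ∈ Lv P (r + 1), g B)
    (hhigh : ∀ r, K ≤ r → ∀ A ∈ Lv P r,
      ((Lv P (r + 1)).filter (fun B => A ⊆ B)).card ≤ r + 1)
    (𝒜 : Finset (Finset (Fin N))) (hP : ∀ s ∈ 𝒜, P s)
    (hA : IsAntichain (· ⊆ ·) (𝒜 : Set (Finset (Fin N)))) :
    ∃ r, 𝒜.card ≤ (Lv P r).card := by
  obtain ⟨r0, _, hr0⟩ := exists_max_image (range (N + 2)) (fun r => (Lv P r).card)
    ⟨0, by simp⟩
  refine ⟨r0, ?_⟩
  have hmax : ∀ r, (Lv P r).card ≤ (Lv P r0).card := by
    intro r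
    rcases Nat.lt_or_ge r (N + 2) with h | h
    · exact hr0 r (mem_range.mpr h)
    · have : Lv P r = ∅ := by
        apply eq_empty_of_forall_notMem
        intro s hs
        have h1 := (mem_Lv.mp hs).1
        have h2 := card_le_univ s
        rw [Fintype.card_fin] at h2
        omega
      rw [this]; simp
  set S : ℕ → ℕ := fun r => (𝒜.filter (fun s => r ≤ s.card)).card with hS
  have hSs : ∀ r, S r = S (r + 1) + (𝒜.filter (fun s => s.card = r)).card :=
    fun r => card_ge_step 𝒜 r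
  -- high levels
  have high : ∀ d r, K ≤ r → N + 1 ≤ r + d → S r ≤ (Fl P 𝒜 r).card := by
    intro d
    induction d with
    | zero =>
      intro r _ h
      have : S r = 0 := by
        rw [hS]
        simp only
        rw [card_eq_zero]
        apply eq_empty_of_forall_notMem
        intro s hs
        have h1 := (mem_filter.mp hs).2
        have h2 := card_le_univ s
        rw [Fintype.card_fin] at h2
        omega
      omega
    | succ d ih =>
      intro r hr h
      have h1 := ih (r + 1) (by omega) (by omega)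
      have h2 := high_step hdown 𝒜 r (hhigh r hr)
      have h3 := card_step hP hA r
      rw [hSs r]
      omega
  have base : ((Lv P K).card : ℝ) * S K ≤ (Lv P r0).card * (Fl P 𝒜 K).card := by
    have h1 := high (N + 1) K (le_refl _) (by omega)
    have h2 := hmax K
    exact_mod_cast Nat.mul_le_mul h2 h1
  have low : ∀ d r, r + d = K →
      ((Lv P r).card : ℝ) * S r ≤ (Lv P r0).card * (Fl P 𝒜 r).card := by
    intro d
    induction d with
    | zero =>
      intro r h
      have : r = K := by omega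
      rw [this]; exact base
    | succ d ih =>
      intro r h
      have h1 := ih (r + 1) (by omega)
      obtain ⟨p, q, hp, hq, hpq⟩ := hlow r (by omega)
      obtain ⟨h2, h3⟩ := low_step 𝒜 r p q hpq
      have h4 : ((dFl P 𝒜 r).card : ℝ) + ((𝒜.filter (fun s => s.card = r)).card : ℝ)
          ≤ (Fl P 𝒜 r).card := by exact_mod_cast card_step hP hA r
      have h5 : (S r : ℝ) = S (r + 1) + ((𝒜.filter (fun s => s.card = r)).card : ℝ) := by
        exact_mod_cast hSs r
      have h6 : ((Lv P r).card : ℝ) ≤ (Lv P r0).card := by exact_mod_cast hmax r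
      set a : ℝ := ((𝒜.filter (fun s => s.card = r)).card : ℝ) with ha
      have ha0 : 0 ≤ a := Nat.cast_nonneg _
      set M : ℝ := ((Lv P r0).card : ℝ) with hM
      have hM0 : 0 ≤ M := Nat.cast_nonneg _
      have h7 : p * (M * (dFl P 𝒜 r).card) ≥ p * ((Lv P r).card * S (r + 1)) := by
        calc p * ((Lv P r).card * S (r + 1)) = (p * (Lv P r).card) * S (r + 1) := by ring
          _ = q * ((Lv P (r + 1)).card * S (r + 1)) := by rw [h2]; ring
          _ ≤ q * (M * (Fl P 𝒜 (r + 1)).card) := mul_le_mul_of_nonneg_left h1 hq.le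
          _ = M * (q * (Fl P 𝒜 (r + 1)).card) := by ring
          _ ≤ M * (p * (dFl P 𝒜 r).card) := mul_le_mul_of_nonneg_left h3 hM0
          _ = _ := by ring
      have h8 := le_of_mul_le_mul_left h7 hp
      calc ((Lv P r).card : ℝ) * S r = (Lv P r).card * S (r + 1) + (Lv P r).card * a := by
            rw [h5]; ring
        _ ≤ M * (dFl P 𝒜 r).card + M * a := by
            have := mul_le_mul_of_nonneg_right h6 ha0
            linarith
        _ = M * ((dFl P 𝒜 r).card + a) := by ring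
        _ ≤ M * (Fl P 𝒜 r).card := mul_le_mul_of_nonneg_left h4 hM0
  have fin := low K 0 (by omega)
  have e1 : Lv P 0 = {∅} := by
    ext s
    rw [mem_Lv, mem_singleton, card_eq_zero]
    constructor
    · exact fun h => h.1
    · rintro rfl; exact ⟨rfl, h0⟩
  have e2 : (Fl P 𝒜 0).card ≤ 1 := by
    have : Fl P 𝒜 0 ⊆ Lv P 0 := fun s hs => mem_Lv.mpr (mem_Fl.mp hs).1
    have := card_le_card this
    rw [e1] at this
    simpa using this
  have e3 : S 0 = 𝒜.card := by
    rw [hS]
    simp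
  rw [e1, e3] at fin
  simp only [card_singleton, Nat.cast_one, one_mul] at fin
  have e4 : ((Fl P 𝒜 0).card : ℝ) ≤ 1 := by exact_mod_cast e2
  have e5 : (𝒜.card : ℝ) ≤ (Lv P r0).card := by
    have : ((Lv P r0).card : ℝ) * (Fl P 𝒜 0).card ≤ (Lv P r0).card * 1 :=
      mul_le_mul_of_nonneg_left e4 (Nat.cast_nonneg _)
    linarith
  exact_mod_cast e5

/-- number of supersets in the next level through the admissible new elements -/
theorem card_super_le {P : Finset (Fin N) → Prop} {r : ℕ} {A : Finset (Fin N)}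
    (hA : A ∈ Lv P r) :
    ((Lv P (r + 1)).filter (fun B => A ⊆ B)).card
      ≤ (univ.filter (fun v : Fin N => v ∉ A ∧ P (insert v A))).card := by
  have h : (Lv P (r + 1)).filter (fun B => A ⊆ B)
      ⊆ (univ.filter (fun v : Fin N => v ∉ A ∧ P (insert v A))).image (fun v => insert v A) := by
    intro B hB
    obtain ⟨h1, h2⟩ := mem_filter.mp hB
    obtain ⟨h3, h4⟩ := mem_Lv.mp h1
    obtain ⟨h5, _⟩ := mem_Lv.mp hA
    have h6 : (B \ A).card = 1 := by
      rw [card_sdiff_of_subset h2]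
      omega
    obtain ⟨v, hv⟩ := card_eq_one.mp h6
    have h7 : insert v A = B := by
      rw [← sdiff_union_of_subset h2, hv]
      rfl
    have h8 : v ∉ A := by
      have : v ∈ B \ A := by rw [hv]; simp
      exact (mem_sdiff.mp this).2
    rw [mem_image]
    refine ⟨v, ?_, h7⟩
    rw [mem_filter]
    exact ⟨mem_univ _, h8, by rw [h7]; exact h4⟩
  exact le_trans (card_le_card h) card_image_le

end Pool.Agent.Helper472.Sp
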