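import Mathlib
import Pool.Agent.Helper472.SpD
import Pool.Agent.Helper472.SpE

set_option autoImplicit false

namespace Pool.Agent.Helper472.Sp

open Finset Classical

def PP (N : ℕ) (s : Finset (Fin N)) : Prop := (SimpleGraph.pathGraph N).IsIndepSet (s : Set (Fin N))

theorem PP_iff {N : ℕ} {s : Finset (Fin N)} :
    PP N s ↔ ∀ i ∈ s, ∀ j ∈ s, (i : ℕ) + 1 ≠ j := by
  unfold PP
  rw [SimpleGraph.isIndepSet_iff]
  constructor
  · intro h i hi j hj hij
    have hne : i ≠ j := by rintro rfl; omega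
    apply h hi hj hne
    rw [SimpleGraph.pathGraph_adj]
    exact Or.inl hij
  · intro h i hi j hj _ hadj
    rw [SimpleGraph.pathGraph_adj] at hadj
    rcases hadj with h1 | h1
    · exact h i hi j hj h1
    · exact h j hj i hi h1

theorem PP_down {N : ℕ} : ∀ A B : Finset (Fin N), A ⊆ B → PP N B → PP N A := by
  intro A B hAB hB
  rw [PP_iff] at hB ⊢
  exact fun i hi j hj => hB i (hAB hi) j (hAB hj)

noncomputable def TP (N : ℕ) (S : Finset ℕ) : Finset (Fin N) := univ.filter (fun i => (i : ℕ) ∈ S)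

theorem mem_TP {N : ℕ} {S : Finset ℕ} {i : Fin N} : i ∈ TP N S ↔ (i : ℕ) ∈ S := by
  unfold TP; rw [mem_filter]; simp

noncomputable def UP {N : ℕ} (A : Finset (Fin N)) : Finset ℕ := A.map Fin.valEmbedding

theorem mem_UP {N : ℕ} {A : Finset (Fin N)} {x : ℕ} : x ∈ UP A ↔ ∃ i ∈ A, (i : ℕ) = x := by
  unfold UP; rw [mem_map]; simp

theorem TP_UP {N : ℕ} (A : Finset (Fin N)) : TP N (UP A) = A := by
  ext i
  rw [mem_TP, mem_UP]
  constructor
  · rintro ⟨j, hj, h⟩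
    rw [← Fin.ext h]; exact hj
  · exact fun h => ⟨i, h, rfl⟩

theorem UP_TP {N : ℕ} {S : Finset ℕ} (hS : ∀ i ∈ S, i < N) : UP (TP N S) = S := by
  ext x
  rw [mem_UP]
  constructor
  · rintro ⟨i, hi, rfl⟩
    exact mem_TP.mp hi
  · exact fun h => ⟨⟨x, hS x h⟩, mem_TP.mpr h, rfl⟩

theorem card_UP {N : ℕ} (A : Finset (Fin N)) : (UP A).card = A.card := card_map _

theorem card_TP {N : ℕ} {S : Finset ℕ} (hS : ∀ i ∈ S, i < N) : (TP N S).card = S.card := by
  rw [← card_UP, UP_TP hS]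

theorem sum_path {N : ℕ} (r : ℕ) (f : Finset (Fin N) → ℝ) :
    ∑ S ∈ (Ind 0 (N + 1)).filter (fun S => S.card = r), f (TP N S) = ∑ A ∈ Lv (PP N) r, f A := by
  have hb : ∀ S ∈ Ind 0 (N + 1), ∀ i ∈ S, i < N := by
    intro S hS i hi
    have := (mem_Ind.mp hS).1 i hi
    omega
  refine sum_bij' (fun S _ => TP N S) (fun A _ => UP A) ?_ ?_ ?_ ?_ ?_
  · intro S hS
    obtain ⟨h1, h2⟩ := mem_filter.mp hS
    rw [mem_Lv, card_TP (hb S h1), PP_iff]
    refine ⟨h2, fun i hi j hj hij => ?_⟩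
    have h3 := (mem_Ind.mp h1).2 i (mem_TP.mp hi)
    rw [hij] at h3
    exact h3 (mem_TP.mp hj)
  · intro A hA
    obtain ⟨h1, h2⟩ := mem_Lv.mp hA
    rw [mem_filter, mem_Ind, card_UP]
    refine ⟨⟨fun x hx => ?_, fun x hx hx1 => ?_⟩, h1⟩
    · obtain ⟨i, _, rfl⟩ := mem_UP.mp hx
      have := i.isLt
      omega
    · obtain ⟨i, hi, rfl⟩ := mem_UP.mp hx
      obtain ⟨j, hj, hij⟩ := mem_UP.mp hx1
      exact PP_iff.mp h2 i hi j hj hij.symm
  · intro S hS
    exact UP_TP (hb S (mem_filter.mp hS).1)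
  · intro A _
    exact TP_UP A
  · intro S _
    rfl

theorem TP_mem {N r : ℕ} {S : Finset ℕ} (hS : S ∈ Ind 0 (N + 1)) (hc : S.card = r) :
    TP N S ∈ Lv (PP N) r := by
  have hb : ∀ i ∈ S, i < N := by
    intro i hi
    have := (mem_Ind.mp hS).1 i hi
    omega
  rw [mem_Lv, card_TP hb, PP_iff]
  refine ⟨hc, fun i hi j hj hij => ?_⟩
  have h3 := (mem_Ind.mp hS).2 i (mem_TP.mp hi)
  rw [hij] at h3
  exact h3 (mem_TP.mp hj)

theorem path_low {N r : ℕ} (h : 3 * r + 1 ≤ N) : ∃ p q : ℝ, 0 < p ∧ 0 < q ∧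
    ∀ f g : Finset (Fin N) → ℝ,
      (∀ A B, A ∈ Lv (PP N) r → B ∈ Lv (PP N) (r + 1) → A ⊆ B → f A ≤ g B) →
      p * ∑ A ∈ Lv (PP N) r, f A ≤ q * ∑ B ∈ Lv (PP N) (r + 1), g B := by
  obtain ⟨m, hm⟩ : ∃ m, m + 2 + 2 * r = N + 1 := ⟨N - 1 - 2 * r, by omega⟩
  refine ⟨((m : ℝ) + 2) * (m + 1), ((r : ℝ) + 1) * (m + r + 2), by positivity, by positivity, ?_⟩
  intro f g hfg
  have key := ind_nmp (m := m) (r := r) (by omega) 0 (fun S => f (TP N S)) (fun S => g (TP N S)) (by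
    intro S T hS hT hSc hTc hST
    rw [hm] at hS hT
    apply hfg _ _ (TP_mem hS hSc) (TP_mem hT hTc)
    intro i hi
    exact mem_TP.mpr (hST (mem_TP.mp hi)))
  rw [hm, sum_path, sum_path] at key
  exact key

theorem path_high {N r : ℕ} (h : N ≤ 3 * r) (A : Finset (Fin N)) (hA : A ∈ Lv (PP N) r) :
    ((Lv (PP N) (r + 1)).filter (fun B => A ⊆ B)).card ≤ r + 1 := by
  refine le_trans (card_super_le hA) ?_
  obtain ⟨h1, h2⟩ := mem_Lv.mp hA
  rw [PP_iff] at h2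
  set V := univ.filter (fun v : Fin N => v ∉ A ∧ PP N (insert v A)) with hV
  have d1 : Disjoint (UP A) ((UP A).image (fun x => x + 1)) := by
    rw [disjoint_left]
    intro x hx hx'
    obtain ⟨i, hi, rfl⟩ := mem_UP.mp hx
    obtain ⟨y, hy, hyx⟩ := mem_image.mp hx'
    obtain ⟨j, hj, rfl⟩ := mem_UP.mp hy
    exact h2 j hj i hi hyx
  have d2 : Disjoint (UP V) (UP A ∪ (UP A).image (fun x => x + 1)) := by
    rw [disjoint_left]
    intro x hx hx'
    obtain ⟨v, hv, rfl⟩ := mem_UP.mp hx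
    obtain ⟨_, hv1, hv2⟩ := mem_filter.mp hv
    rw [PP_iff] at hv2
    rcases mem_union.mp hx' with h3 | h3
    · obtain ⟨i, hi, hiv⟩ := mem_UP.mp h3
      apply hv1
      rw [← Fin.ext hiv]; exact hi
    · obtain ⟨y, hy, hyx⟩ := mem_image.mp h3
      obtain ⟨j, hj, rfl⟩ := mem_UP.mp hy
      exact hv2 j (mem_insert_of_mem hj) v (mem_insert_self _ _) hyx
  have h3 : (UP V ∪ (UP A ∪ (UP A).image (fun x => x + 1))).card ≤ N + 1 := by
    have : UP V ∪ (UP A ∪ (UP A).image (fun x => x + 1)) ⊆ range (N + 1) := by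
      intro x hx
      rw [mem_range]
      rcases mem_union.mp hx with h3 | h3
      · obtain ⟨i, _, rfl⟩ := mem_UP.mp h3
        have := i.isLt; omega
      · rcases mem_union.mp h3 with h3 | h3
        · obtain ⟨i, _, rfl⟩ := mem_UP.mp h3
          have := i.isLt; omega
        · obtain ⟨y, hy, rfl⟩ := mem_image.mp h3
          obtain ⟨j, hj, rfl⟩ := mem_UP.mp hy
          have := j.isLt; omega
    have := card_le_card this
    rwa [card_range] at this
  rw [card_union_of_disjoint d2, card_union_of_disjoint d1,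
    card_image_of_injective _ (fun a b hab => by simpa using hab), card_UP, card_UP, h1] at h3
  omega

theorem path_sperner (N : ℕ) (𝒜 : Finset (Finset (Fin N)))
    (hP : ∀ s ∈ 𝒜, (SimpleGraph.pathGraph N).IsIndepSet (s : Set (Fin N)))
    (hA : IsAntichain (· ⊆ ·) (𝒜 : Set (Finset (Fin N)))) :
    ∃ r, 𝒜.card ≤ (Lv (PP N) r).card := by
  apply sperner_of_levels (PP N) PP_down _ ((N + 2) / 3) _ _ 𝒜 hP hA
  · rw [PP_iff]; simp
  · intro r hr
    exact path_low (by omega)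
  · intro r hr A hA'
    exact path_high (by omega) A hA'

end Pool.Agent.Helper472.Sp
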