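import Mathlib
import Pool.Agent.Helper472.SpF

set_option autoImplicit false

namespace Pool.Agent.Helper472.Sp

open Finset Classical

variable {n : ℕ}

def PC (N : ℕ) (s : Finset (Fin N)) : Prop := (SimpleGraph.cycleGraph N).IsIndepSet (s : Set (Fin N))

theorem PC_iff {s : Finset (Fin (n + 3))} : PC (n + 3) s ↔ ∀ i ∈ s, i + 1 ∉ s := by
  unfold PC
  rw [SimpleGraph.isIndepSet_iff]
  constructor
  · intro h i hi hi1
    have hne : i + 1 ≠ i := by
      intro h1
      have h2 : (1 : Fin (n + 3)) = 0 := by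
        have := congrArg (fun x => x - i) h1
        simpa using this
      have := congrArg Fin.val h2
      simp at this
    apply h hi1 hi hne
    rw [SimpleGraph.cycleGraph_adj]
    left
    simp
  · intro h i hi j hj _ hadj
    rw [SimpleGraph.cycleGraph_adj] at hadj
    rcases hadj with h1 | h1
    · have : i = j + 1 := by rw [← h1]; abel
      rw [this] at hi
      exact h j hj hi
    · have : j = i + 1 := by rw [← h1]; abel
      rw [this] at hj
      exact h i hi hj

theorem PC_down : ∀ A B : Finset (Fin (n + 3)), A ⊆ B → PC (n + 3) B → PC (n + 3) A := by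
  intro A B hAB hB
  rw [PC_iff] at hB ⊢
  exact fun i hi h => hB i (hAB hi) (hAB h)

noncomputable def TC (v : Fin (n + 3)) (S : Finset ℕ) : Finset (Fin (n + 3)) :=
  univ.filter (fun i => ((i - v : Fin (n + 3)) : ℕ) ∈ insert 0 S)

theorem mem_TC {v : Fin (n + 3)} {S : Finset ℕ} {i : Fin (n + 3)} :
    i ∈ TC v S ↔ ((i - v : Fin (n + 3)) : ℕ) ∈ insert 0 S := by
  unfold TC; rw [mem_filter]; simp

noncomputable def UC (v : Fin (n + 3)) (A : Finset (Fin (n + 3))) : Finset ℕ :=
  (A.image (fun i => ((i - v : Fin (n + 3)) : ℕ))).erase 0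

theorem mem_UC {v : Fin (n + 3)} {A : Finset (Fin (n + 3))} {x : ℕ} :
    x ∈ UC v A ↔ x ≠ 0 ∧ ∃ i ∈ A, ((i - v : Fin (n + 3)) : ℕ) = x := by
  unfold UC; rw [mem_erase, mem_image]

theorem val_inj_sub {v i j : Fin (n + 3)} (h : ((i - v : Fin (n + 3)) : ℕ) = ((j - v : Fin (n + 3)) : ℕ)) :
    i = j := by
  have := Fin.ext h
  exact sub_left_injective this

theorem val_succ (v i : Fin (n + 3)) : ((i + 1 - v : Fin (n + 3)) : ℕ)
    = if ((i - v : Fin (n + 3)) : ℕ) = n + 2 then 0 else ((i - v : Fin (n + 3)) : ℕ) + 1 := by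
  have h1 : i + 1 - v = (i - v) + 1 := by abel
  rw [h1, Fin.val_add_one]
  have : (i - v = Fin.last (n + 2)) ↔ ((i - v : Fin (n + 3)) : ℕ) = n + 2 := by
    rw [Fin.ext_iff]; simp
  by_cases h : ((i - v : Fin (n + 3)) : ℕ) = n + 2
  · rw [if_pos (this.mpr h), if_pos h]
  · rw [if_neg (fun h' => h (this.mp h')), if_neg h]

theorem TC_UC {v : Fin (n + 3)} {A : Finset (Fin (n + 3))} (hv : v ∈ A) : TC v (UC v A) = A := by
  ext i
  rw [mem_TC, mem_insert, mem_UC]
  constructor
  · rintro (h | ⟨_, j, hj, h⟩)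
    · have : i = v := val_inj_sub (v := v) (by rw [h]; simp)
      rw [this]; exact hv
    · rw [← val_inj_sub h]; exact hj
  · intro hi
    by_cases h : ((i - v : Fin (n + 3)) : ℕ) = 0
    · exact Or.inl h
    · exact Or.inr ⟨h, i, hi, rfl⟩

theorem UC_TC {v : Fin (n + 3)} {S : Finset ℕ} (hS : ∀ x ∈ S, 1 ≤ x ∧ x < n + 3) :
    UC v (TC v S) = S := by
  ext x
  rw [mem_UC]
  constructor
  · rintro ⟨h0, i, hi, rfl⟩
    rcases mem_insert.mp (mem_TC.mp hi) with h | h
    · exact absurd h h0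
    · exact h
  · intro hx
    obtain ⟨h1, h2⟩ := hS x hx
    refine ⟨by omega, v + ⟨x, h2⟩, ?_, ?_⟩
    · rw [mem_TC]
      have : v + ⟨x, h2⟩ - v = (⟨x, h2⟩ : Fin (n + 3)) := by abel
      rw [this]
      exact mem_insert_of_mem hx
    · have : v + ⟨x, h2⟩ - v = (⟨x, h2⟩ : Fin (n + 3)) := by abel
      rw [this]

theorem self_mem_TC (v : Fin (n + 3)) (S : Finset ℕ) : v ∈ TC v S := by
  rw [mem_TC]; simp

theorem card_UC {v : Fin (n + 3)} {A : Finset (Fin (n + 3))} (hv : v ∈ A) :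
    (UC v A).card + 1 = A.card := by
  unfold UC
  rw [card_erase_of_mem, card_image_of_injective]
  · have : 0 < A.card := Finset.card_pos.mpr ⟨v, hv⟩
    omega
  · intro i j h
    exact val_inj_sub h
  · rw [mem_image]
    exact ⟨v, hv, by simp⟩

theorem Ind_bd {S : Finset ℕ} (hS : S ∈ Ind 2 (n + 1)) : ∀ x ∈ S, 1 ≤ x ∧ x < n + 3 := by
  intro x hx
  have := (mem_Ind.mp hS).1 x hx
  omega

theorem TC_mem {v : Fin (n + 3)} {r : ℕ} {S : Finset ℕ} (hS : S ∈ Ind 2 (n + 1)) (hc : S.card = r) :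
    TC v S ∈ Lv (PC (n + 3)) (r + 1) := by
  rw [mem_Lv]
  refine ⟨?_, ?_⟩
  · rw [← card_UC (self_mem_TC v S), UC_TC (Ind_bd hS), hc]
  · rw [PC_iff]
    intro i hi hi1
    have hS' := mem_Ind.mp hS
    rw [mem_TC, mem_insert] at hi hi1
    rw [val_succ] at hi1
    split_ifs at hi1 with h
    · rcases hi with h1 | h1
      · omega
      · have := hS'.1 _ h1; omega
    · rcases hi1 with h2 | h2
      · omega
      · rcases hi with h1 | h1
        · have := hS'.1 _ h2; omega
        · exact hS'.2 _ h1 h2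

theorem UC_mem {v : Fin (n + 3)} {r : ℕ} {A : Finset (Fin (n + 3))}
    (hA : A ∈ Lv (PC (n + 3)) (r + 1)) (hv : v ∈ A) : UC v A ∈ Ind 2 (n + 1) ∧ (UC v A).card = r := by
  obtain ⟨h1, h2⟩ := mem_Lv.mp hA
  rw [PC_iff] at h2
  have hc := card_UC hv
  refine ⟨?_, by omega⟩
  rw [mem_Ind]
  constructor
  · intro x hx
    obtain ⟨h0, i, hi, hix⟩ := mem_UC.mp hx
    have hlt := (i - v).isLt
    have a1 : x ≠ 1 := by
      rintro rfl
      have : i = v + 1 := by
        apply val_inj_sub (v := v)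
        rw [hix, val_succ]
        simp
      rw [this] at hi
      exact h2 v hv hi
    have a2 : x ≠ n + 2 := by
      intro h
      have h3 := val_succ v i
      rw [hix, if_pos h] at h3
      have : i + 1 = v := by
        apply val_inj_sub (v := v)
        rw [h3]; simp
      apply h2 i hi
      rw [this]; exact hv
    omega
  · intro x hx hx1
    obtain ⟨_, i, hi, hix⟩ := mem_UC.mp hx
    obtain ⟨_, j, hj, hjx⟩ := mem_UC.mp hx1
    have hlt := (j - v).isLt
    have : i + 1 = j := by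
      apply val_inj_sub (v := v)
      rw [val_succ, hix, hjx, if_neg (by omega)]
    apply h2 i hi
    rw [this]; exact hj

theorem sum_cyc {r : ℕ} (v : Fin (n + 3)) (f : Finset (Fin (n + 3)) → ℝ) :
    ∑ S ∈ (Ind 2 (n + 1)).filter (fun S => S.card = r), f (TC v S)
      = ∑ A ∈ (Lv (PC (n + 3)) (r + 1)).filter (fun A => v ∈ A), f A := by
  refine sum_bij' (fun S _ => TC v S) (fun A _ => UC v A) ?_ ?_ ?_ ?_ ?_
  · intro S hS
    obtain ⟨h1, h2⟩ := mem_filter.mp hS
    rw [mem_filter]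
    exact ⟨TC_mem h1 h2, self_mem_TC v S⟩
  · intro A hA
    obtain ⟨h1, h2⟩ := mem_filter.mp hA
    rw [mem_filter]
    exact UC_mem h1 h2
  · intro S hS
    exact UC_TC (Ind_bd (mem_filter.mp hS).1)
  · intro A hA
    exact TC_UC (mem_filter.mp hA).2
  · intro S _
    rfl

theorem sum_vertex {r : ℕ} (f : Finset (Fin (n + 3)) → ℝ) :
    ∑ v : Fin (n + 3), ∑ A ∈ (Lv (PC (n + 3)) r).filter (fun A => v ∈ A), f A
      = r * ∑ A ∈ Lv (PC (n + 3)) r, f A := by
  simp only [sum_filter]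
  rw [sum_comm, mul_sum]
  apply sum_congr rfl
  intro A hA
  obtain ⟨h1, _⟩ := mem_Lv.mp hA
  rw [← sum_filter]
  simp [h1]

theorem cyc_low {r : ℕ} (h : 3 * r + 1 ≤ n + 3) : ∃ p q : ℝ, 0 < p ∧ 0 < q ∧
    ∀ f g : Finset (Fin (n + 3)) → ℝ,
      (∀ A B, A ∈ Lv (PC (n + 3)) r → B ∈ Lv (PC (n + 3)) (r + 1) → A ⊆ B → f A ≤ g B) →
      p * ∑ A ∈ Lv (PC (n + 3)) r, f A ≤ q * ∑ B ∈ Lv (PC (n + 3)) (r + 1), g B := by
  have e0 : Lv (PC (n + 3)) 0 = {∅} := by
    ext s
    rw [mem_Lv, mem_singleton, card_eq_zero]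
    constructor
    · exact fun h => h.1
    · rintro rfl
      exact ⟨rfl, by rw [PC_iff]; simp⟩
  rcases Nat.eq_zero_or_pos r with h0 | h0
  · subst h0
    refine ⟨(n : ℝ) + 3, 1, by positivity, by norm_num, ?_⟩
    intro f g hfg
    rw [e0, sum_singleton, one_mul]
    have h1 := sum_vertex (r := 1) (n := n) g
    rw [Nat.cast_one, one_mul] at h1
    rw [show (0 + 1 : ℕ) = 1 from rfl, ← h1]
    have h2 : ∀ v : Fin (n + 3), f ∅ ≤ ∑ A ∈ (Lv (PC (n + 3)) 1).filter (fun A => v ∈ A), g A := by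
      intro v
      have h3 : (Lv (PC (n + 3)) 1).filter (fun A => v ∈ A) = {{v}} := by
        ext A
        rw [mem_filter, mem_Lv, mem_singleton]
        constructor
        · rintro ⟨⟨h4, _⟩, h5⟩
          obtain ⟨w, rfl⟩ := card_eq_one.mp h4
          rw [mem_singleton] at h5
          rw [h5]
        · rintro rfl
          refine ⟨⟨card_singleton _, ?_⟩, mem_singleton_self _⟩
          rw [PC_iff]
          intro i hi hi1
          rw [mem_singleton] at hi hi1
          rw [hi] at hi1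
          have h2 : (1 : Fin (n + 3)) = 0 := by
            have := congrArg (fun x => x - v) hi1
            simpa using this
          have := congrArg Fin.val h2
          simp at this
      rw [h3, sum_singleton]
      apply hfg
      · rw [e0]; simp
      · have : ({v} : Finset (Fin (n + 3))) ∈ (Lv (PC (n + 3)) 1).filter (fun A => v ∈ A) := by
          rw [h3]; simp
        exact (mem_filter.mp this).1
      · simp
    have h3 : ∑ _v : Fin (n + 3), f ∅ ≤
        ∑ v : Fin (n + 3), ∑ A ∈ (Lv (PC (n + 3)) 1).filter (fun A => v ∈ A), g A :=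
      sum_le_sum (fun v _ => h2 v)
    rw [sum_const, card_univ, Fintype.card_fin, nsmul_eq_mul] at h3
    push_cast at h3
    exact h3
  · obtain ⟨s, rfl⟩ : ∃ s, r = s + 1 := ⟨r - 1, by omega⟩
    obtain ⟨m, hm⟩ : ∃ m, m + 2 + 2 * s = n + 1 := ⟨n - 1 - 2 * s, by omega⟩
    refine ⟨((s : ℝ) + 1) * (((m : ℝ) + 2) * (m + 1)),
      ((s : ℝ) + 2) * (((s : ℝ) + 1) * (m + s + 2)), by positivity, by positivity, ?_⟩
    intro f g hfg
    have key : ∀ v : Fin (n + 3), ((m : ℝ) + 2) * (m + 1) *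
        ∑ A ∈ (Lv (PC (n + 3)) (s + 1)).filter (fun A => v ∈ A), f A
        ≤ ((s : ℝ) + 1) * (m + s + 2) *
          ∑ A ∈ (Lv (PC (n + 3)) (s + 1 + 1)).filter (fun A => v ∈ A), g A := by
      intro v
      have k := ind_nmp (m := m) (r := s) (by omega) 2 (fun S => f (TC v S))
        (fun S => g (TC v S)) (by
          intro S T hS hT hSc hTc hST
          rw [hm] at hS hT
          apply hfg _ _ (TC_mem hS hSc) (TC_mem hT hTc)
          intro i hi
          rw [mem_TC, mem_insert] at hi ⊢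
          rcases hi with hi | hi
          · exact Or.inl hi
          · exact Or.inr (hST hi))
      rw [hm, sum_cyc, sum_cyc] at k
      exact k
    have h1 := sum_le_sum (fun v (_ : v ∈ (univ : Finset (Fin (n + 3)))) => key v)
    rw [← mul_sum, ← mul_sum, sum_vertex, sum_vertex] at h1
    push_cast at h1
    calc _ = ((m : ℝ) + 2) * (m + 1) * (((s : ℝ) + 1) * ∑ A ∈ Lv (PC (n + 3)) (s + 1), f A) := by ring
      _ ≤ _ := h1
      _ = _ := by ring

theorem cyc_high {r : ℕ} (h : n + 3 ≤ 3 * r) (A : Finset (Fin (n + 3)))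
    (hA : A ∈ Lv (PC (n + 3)) r) :
    ((Lv (PC (n + 3)) (r + 1)).filter (fun B => A ⊆ B)).card ≤ r + 1 := by
  refine le_trans (card_super_le hA) ?_
  obtain ⟨h1, h2⟩ := mem_Lv.mp hA
  rw [PC_iff] at h2
  set V := univ.filter (fun v : Fin (n + 3) => v ∉ A ∧ PC (n + 3) (insert v A)) with hV
  have d1 : Disjoint A (A.image (fun x => x + 1)) := by
    rw [disjoint_left]
    intro x hx hx'
    obtain ⟨y, hy, hyx⟩ := mem_image.mp hx'
    apply h2 y hy
    rw [hyx]; exact hx
  have d2 : Disjoint V (A ∪ A.image (fun x => x + 1)) := by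
    rw [disjoint_left]
    intro x hx hx'
    obtain ⟨_, hv1, hv2⟩ := mem_filter.mp hx
    rw [PC_iff] at hv2
    rcases mem_union.mp hx' with h3 | h3
    · exact hv1 h3
    · obtain ⟨y, hy, hyx⟩ := mem_image.mp h3
      apply hv2 y (mem_insert_of_mem hy)
      rw [← hyx]
      exact mem_insert_self _ _
  have h3 := card_le_univ (V ∪ (A ∪ A.image (fun x => x + 1)))
  rw [Fintype.card_fin, card_union_of_disjoint d2, card_union_of_disjoint d1,
    card_image_of_injective _ (fun a b hab => by simpa using hab), h1] at h3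
  omega

theorem cyc_sperner (𝒜 : Finset (Finset (Fin (n + 3))))
    (hP : ∀ s ∈ 𝒜, (SimpleGraph.cycleGraph (n + 3)).IsIndepSet (s : Set (Fin (n + 3))))
    (hA : IsAntichain (· ⊆ ·) (𝒜 : Set (Finset (Fin (n + 3))))) :
    ∃ r, 𝒜.card ≤ (Lv (PC (n + 3)) r).card := by
  apply sperner_of_levels (PC (n + 3)) PC_down _ ((n + 3 + 2) / 3) _ _ 𝒜 hP hA
  · rw [PC_iff]; simp
  · intro r hr
    exact cyc_low (by omega)
  · intro r hr A hA'
    exact cyc_high (by omega) A hA'

end Pool.Agent.Helper472.Sp
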